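import Mathlib

/-!
# Paths in connected vertex-transitive graphs with five or six vertices
-/

namespace Pool.Agent.N994.PG

open Function

variable {X : Type*}

/-- Connected vertex-transitive graphs. -/
structure Gr (E : X → X → Prop) : Prop where
  symm : ∀ a b, E a b → E b a
  irr : ∀ a, ¬ E a a
  hom : ∀ p p', ∃ f : X → X, Injective f ∧ f p = p' ∧ ∀ a b, E a b → E (f a) (f b)
  conn : ∀ S : Set X, S.Nonempty → (∀ a ∈ S, ∀ b, E a b → b ∈ S) → S = Set.univ

/-- Paths. -/
def Pth (E : X → X → Prop) {n : ℕ} (w : Fin n → X) : Prop :=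
  Injective w ∧ ∀ i j : Fin n, i.1 + 1 = j.1 → E (w i) (w j)

namespace Gr

variable {E : X → X → Prop} (G : Gr E)
include G

theorem deg1 {a b : X} (h : ∀ x, E a x → x = b) {v x y : X} (hx : E v x) (hy : E v y) :
    x = y := by
  obtain ⟨f, hf, hv, hE⟩ := G.hom v a
  have h1 := hE _ _ hx
  have h2 := hE _ _ hy
  rw [hv] at h1 h2
  exact hf ((h _ h1).trans (h _ h2).symm)

theorem deg2 {a b d : X} (h : ∀ x, E a x → x = b ∨ x = d) {v x y w : X} (hx : E v x)
    (hy : E v y) (hw : E v w) : x = y ∨ y = w ∨ x = w := by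
  obtain ⟨f, hf, hv, hE⟩ := G.hom v a
  have h1 := hE _ _ hx
  have h2 := hE _ _ hy
  have h3 := hE _ _ hw
  rw [hv] at h1 h2 h3
  rcases h _ h1 with e1 | e1 <;> rcases h _ h2 with e2 | e2 <;> rcases h _ h3 with e3 | e3
  · exact Or.inl (hf (e1.trans e2.symm))
  · exact Or.inl (hf (e1.trans e2.symm))
  · exact Or.inr (Or.inr (hf (e1.trans e3.symm)))
  · exact Or.inr (Or.inl (hf (e2.trans e3.symm)))
  · exact Or.inr (Or.inl (hf (e2.trans e3.symm)))
  · exact Or.inr (Or.inr (hf (e1.trans e3.symm)))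
  · exact Or.inl (hf (e1.trans e2.symm))
  · exact Or.inl (hf (e1.trans e2.symm))

/-- A vertex outside which is linked to the path. -/
theorem exists_out [Fintype X] {n : ℕ} (w : Fin n → X) (hn : 0 < n) (hw : n < Fintype.card X) :
    ∃ (t : X) (i : Fin n), (∀ j, w j ≠ t) ∧ E (w i) t := by
  by_contra hcon
  push Not at hcon
  have h1 := G.conn (Set.range w) ⟨w ⟨0, hn⟩, ⟨0, hn⟩, rfl⟩ (by
    rintro _ ⟨i, rfl⟩ b hb
    by_contra h2
    exact hcon b i (fun j hj => h2 ⟨j, hj⟩) hb)
  have h2 : Surjective w := Set.range_eq_univ.1 h1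
  have h3 := Fintype.card_le_of_surjective w h2
  rw [Fintype.card_fin] at h3
  omega

omit G in
theorem ext {n : ℕ} {w : Fin (n + 1) → X} (hw : Injective w) {t : X} (ht : ∀ i, w i ≠ t)
    {π : Fin (n + 1) → Fin (n + 1)} (hπ : Injective π)
    (hE : ∀ i j : Fin (n + 1), i.1 + 1 = j.1 → E (w (π i)) (w (π j))) (h0 : E t (w (π 0))) :
    Pth E (Fin.cons t (w ∘ π) : Fin (n + 2) → X) := by
  refine ⟨?_, ?_⟩
  · rw [Fin.cons_injective_iff]
    refine ⟨?_, hw.comp hπ⟩
    rintro ⟨i, hi⟩
    exact ht _ hi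
  · intro i j hij
    cases j using Fin.cases with
    | zero => simp at hij
    | succ j =>
      cases i using Fin.cases with
      | zero =>
        have h1 : j = 0 := by
          apply Fin.ext
          simp at hij ⊢
          exact hij
        rw [h1, Fin.cons_zero, Fin.cons_succ]
        exact h0
      | succ i =>
        rw [Fin.cons_succ, Fin.cons_succ]
        refine hE i j ?_
        simp at hij
        exact hij

theorem p2 [Fintype X] (hX : 3 ≤ Fintype.card X) : ∃ w : Fin 3 → X, Pth E w := by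
  have : Nonempty X := Fintype.card_pos_iff.1 (by omega)
  obtain ⟨p⟩ := this
  obtain ⟨q, i, h1, h2⟩ := G.exists_out (fun _ : Fin 1 => p) one_pos (by omega)
  have h1' : p ≠ q := h1 0
  have h2' : E p q := h2
  obtain ⟨t, i, h3, h4⟩ := G.exists_out ![p, q] two_pos (by omega)
  have h5 : p ≠ t := h3 0
  have h6 : q ≠ t := h3 1
  fin_cases i
  · refine ⟨![q, p, t], ?_, ?_⟩
    · intro i j hij
      fin_cases i <;> fin_cases j <;> simp_all
    · intro i j hij
      fin_cases i <;> fin_cases j <;> simp at hij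
      · exact G.symm _ _ h2'
      · exact h4
  · refine ⟨![p, q, t], ?_, ?_⟩
    · intro i j hij
      fin_cases i <;> fin_cases j <;> simp_all
    · intro i j hij
      fin_cases i <;> fin_cases j <;> simp at hij
      · exact h2'
      · exact h4

theorem p3 [Fintype X] (hX : 4 ≤ Fintype.card X) : ∃ w : Fin 4 → X, Pth E w := by
  obtain ⟨w, hw, hE⟩ := G.p2 (by omega)
  have e01 : E (w 0) (w 1) := hE 0 1 rfl
  have e12 : E (w 1) (w 2) := hE 1 2 rfl
  have n02 : w 0 ≠ w 2 := fun h => absurd (hw h) (by decide)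
  obtain ⟨t, i, ht, hi⟩ := G.exists_out w (by omega) (by omega)
  fin_cases i
  · exact ⟨_, ext hw ht (π := ![0, 1, 2]) (by decide) (by
      intro i j hij
      fin_cases i <;> fin_cases j <;> simp at hij
      · exact e01
      · exact e12) (G.symm _ _ hi)⟩
  · by_cases h : E (w 0) (w 2)
    · exact ⟨_, ext hw ht (π := ![1, 0, 2]) (by decide) (by
        intro i j hij
        fin_cases i <;> fin_cases j <;> simp at hij
        · exact G.symm _ _ e01
        · exact h) (G.symm _ _ hi)⟩
    · by_cases h' : ∃ s, (∀ j, w j ≠ s) ∧ E (w 0) s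
      · obtain ⟨s, hs, hs'⟩ := h'
        exact ⟨_, ext hw hs (π := ![0, 1, 2]) (by decide) (by
          intro i j hij
          fin_cases i <;> fin_cases j <;> simp at hij
          · exact e01
          · exact e12) (G.symm _ _ hs')⟩
      · exfalso
        apply n02
        refine G.deg1 (a := w 0) (b := w 1) ?_ (v := w 1) (G.symm _ _ e01) e12
        intro x hx
        by_contra hne
        apply h'
        refine ⟨x, ?_, hx⟩
        intro j hj
        fin_cases j
        · exact G.irr _ (by rwa [← (show w 0 = x from hj)] at hx)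
        · exact hne hj.symm
        · exact h (by rwa [← (show w 2 = x from hj)] at hx)
  · exact ⟨_, ext hw ht (π := ![2, 1, 0]) (by decide) (by
      intro i j hij
      fin_cases i <;> fin_cases j <;> simp at hij
      · exact G.symm _ _ e12
      · exact G.symm _ _ e01) (G.symm _ _ hi)⟩

theorem p4 [Fintype X] (hX : 5 ≤ Fintype.card X) : ∃ w : Fin 5 → X, Pth E w := by
  obtain ⟨w, hw, hE⟩ := G.p3 (by omega)
  have e01 : E (w 0) (w 1) := hE 0 1 rfl
  have e12 : E (w 1) (w 2) := hE 1 2 rfl
  have e23 : E (w 2) (w 3) := hE 2 3 rfl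
  have n02 : w 0 ≠ w 2 := fun h => absurd (hw h) (by decide)
  have n13 : w 1 ≠ w 3 := fun h => absurd (hw h) (by decide)
  by_contra hcon
  -- no extensions at the ends
  have x0 : ∀ s, E (w 0) s → ∃ j, w j = s := by
    intro s hs
    by_contra h
    push Not at h
    exact hcon ⟨_, ext hw h (π := ![0, 1, 2, 3]) (by decide) (by
      intro i j hij
      fin_cases i <;> fin_cases j <;> simp at hij
      · exact e01
      · exact e12
      · exact e23) (G.symm _ _ hs)⟩
  have x3 : ∀ s, E (w 3) s → ∃ j, w j = s := by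
    intro s hs
    by_contra h
    push Not at h
    exact hcon ⟨_, ext hw h (π := ![3, 2, 1, 0]) (by decide) (by
      intro i j hij
      fin_cases i <;> fin_cases j <;> simp at hij
      · exact G.symm _ _ e23
      · exact G.symm _ _ e12
      · exact G.symm _ _ e01) (G.symm _ _ hs)⟩
  obtain ⟨t, i, ht, hi⟩ := G.exists_out w (by omega) (by omega)
  have h1 : E (w 1) t ∨ E (w 2) t := by
    fin_cases i
    · obtain ⟨j, hj⟩ := x0 t hi
      exact absurd hj (ht j)
    · exact Or.inl hi
    · exact Or.inr hi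
    · obtain ⟨j, hj⟩ := x3 t hi
      exact absurd hj (ht j)
  by_cases h03 : E (w 0) (w 3)
  · rcases h1 with h1 | h1
    · exact hcon ⟨_, ext hw ht (π := ![1, 0, 3, 2]) (by decide) (by
        intro i j hij
        fin_cases i <;> fin_cases j <;> simp at hij
        · exact G.symm _ _ e01
        · exact h03
        · exact G.symm _ _ e23) (G.symm _ _ h1)⟩
    · exact hcon ⟨_, ext hw ht (π := ![2, 3, 0, 1]) (by decide) (by
        intro i j hij
        fin_cases i <;> fin_cases j <;> simp at hij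
        · exact e23
        · exact G.symm _ _ h03
        · exact e01) (G.symm _ _ h1)⟩
  · by_cases h02 : E (w 0) (w 2)
    · by_cases h13 : E (w 1) (w 3)
      · rcases h1 with h1 | h1
        · exact hcon ⟨_, ext hw ht (π := ![1, 0, 2, 3]) (by decide) (by
            intro i j hij
            fin_cases i <;> fin_cases j <;> simp at hij
            · exact G.symm _ _ e01
            · exact h02
            · exact e23) (G.symm _ _ h1)⟩
        · exact hcon ⟨_, ext hw ht (π := ![2, 3, 1, 0]) (by decide) (by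
            intro i j hij
            fin_cases i <;> fin_cases j <;> simp at hij
            · exact e23
            · exact G.symm _ _ h13
            · exact G.symm _ _ e01) (G.symm _ _ h1)⟩
      · -- the last vertex has only one neighbour
        apply n13
        refine G.deg1 (a := w 3) (b := w 2) ?_ (v := w 2) (G.symm _ _ e12) e23
        intro x hx
        obtain ⟨j, rfl⟩ := x3 x hx
        fin_cases j
        · exact absurd (G.symm _ _ hx) h03
        · exact absurd (G.symm _ _ hx) h13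
        · rfl
        · exact absurd hx (G.irr _)
    · apply n02
      refine G.deg1 (a := w 0) (b := w 1) ?_ (v := w 1) (G.symm _ _ e01) e12
      intro x hx
      obtain ⟨j, rfl⟩ := x0 x hx
      fin_cases j
      · exact absurd hx (G.irr _)
      · rfl
      · exact absurd hx h02
      · exact absurd hx h03

/-- Either there is a path with six vertices or there is a cycle with five vertices. -/
theorem p5 [Fintype X] (hX : 5 ≤ Fintype.card X) : (∃ w : Fin 6 → X, Pth E w) ∨
    ∃ w : Fin 5 → X, Pth E w ∧ E (w 4) (w 0) := by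
  obtain ⟨w, hw, hE⟩ := G.p4 hX
  have e01 : E (w 0) (w 1) := hE 0 1 rfl
  have e12 : E (w 1) (w 2) := hE 1 2 rfl
  have e23 : E (w 2) (w 3) := hE 2 3 rfl
  have e34 : E (w 3) (w 4) := hE 3 4 rfl
  have n02 : w 0 ≠ w 2 := fun h => absurd (hw h) (by decide)
  have n24 : w 2 ≠ w 4 := fun h => absurd (hw h) (by decide)
  have n04 : w 0 ≠ w 4 := fun h => absurd (hw h) (by decide)
  have n13 : w 1 ≠ w 3 := fun h => absurd (hw h) (by decide)
  have n01 : w 0 ≠ w 1 := fun h => absurd (hw h) (by decide)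
  have n03 : w 0 ≠ w 3 := fun h => absurd (hw h) (by decide)
  by_cases hext : ∃ w : Fin 6 → X, Pth E w
  · exact Or.inl hext
  right
  have x0 : ∀ s, E (w 0) s → ∃ j, w j = s := by
    intro s hs
    by_contra h
    push Not at h
    exact hext ⟨_, ext hw h (π := ![0, 1, 2, 3, 4]) (by decide) (by
      intro i j hij
      fin_cases i <;> fin_cases j <;> simp at hij
      · exact e01
      · exact e12
      · exact e23
      · exact e34) (G.symm _ _ hs)⟩
  have x4 : ∀ s, E (w 4) s → ∃ j, w j = s := by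
    intro s hs
    by_contra h
    push Not at h
    exact hext ⟨_, ext hw h (π := ![4, 3, 2, 1, 0]) (by decide) (by
      intro i j hij
      fin_cases i <;> fin_cases j <;> simp at hij
      · exact G.symm _ _ e34
      · exact G.symm _ _ e23
      · exact G.symm _ _ e12
      · exact G.symm _ _ e01) (G.symm _ _ hs)⟩
  by_cases h04 : E (w 0) (w 4)
  · exact ⟨w, ⟨hw, hE⟩, G.symm _ _ h04⟩
  by_cases hA : E (w 0) (w 2) ∧ E (w 4) (w 1)
  · refine ⟨w ∘ ![0, 2, 3, 4, 1], ⟨hw.comp (by decide), ?_⟩, G.symm _ _ e01⟩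
    intro i j hij
    fin_cases i <;> fin_cases j <;> simp at hij
    · exact hA.1
    · exact e23
    · exact e34
    · exact hA.2
  by_cases hB : E (w 0) (w 3) ∧ E (w 4) (w 2)
  · refine ⟨w ∘ ![0, 3, 4, 2, 1], ⟨hw.comp (by decide), ?_⟩, G.symm _ _ e01⟩
    intro i j hij
    fin_cases i <;> fin_cases j <;> simp at hij
    · exact hB.1
    · exact e34
    · exact hB.2
    · exact G.symm _ _ e12
  exfalso
  have c1 : E (w 0) (w 2) ∨ E (w 0) (w 3) := by
    by_contra hcon
    push Not at hcon
    apply n02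
    refine G.deg1 (a := w 0) (b := w 1) ?_ (v := w 1) (G.symm _ _ e01) e12
    intro x hx
    obtain ⟨j, rfl⟩ := x0 x hx
    fin_cases j
    · exact absurd hx (G.irr _)
    · rfl
    · exact absurd hx hcon.1
    · exact absurd hx hcon.2
    · exact absurd hx h04
  have c2 : E (w 4) (w 1) ∨ E (w 4) (w 2) := by
    by_contra hcon
    push Not at hcon
    apply n24
    refine G.deg1 (a := w 4) (b := w 3) ?_ (v := w 3) (G.symm _ _ e23) e34
    intro x hx
    obtain ⟨j, rfl⟩ := x4 x hx
    fin_cases j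
    · exact absurd (G.symm _ _ hx) h04
    · exact absurd hx hcon.1
    · exact absurd hx hcon.2
    · rfl
    · exact absurd hx (G.irr _)
  rcases c1 with h02 | h03
  · have h41 : ¬ E (w 4) (w 1) := fun h => hA ⟨h02, h⟩
    have h42 : E (w 4) (w 2) := c2.resolve_left h41
    have h03 : ¬ E (w 0) (w 3) := fun h => hB ⟨h, h42⟩
    have h5 := G.deg2 (a := w 0) (b := w 1) (d := w 2) (by
      intro x hx
      obtain ⟨j, rfl⟩ := x0 x hx
      fin_cases j
      · exact absurd hx (G.irr _)
      · exact Or.inl rfl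
      · exact Or.inr rfl
      · exact absurd hx h03
      · exact absurd hx h04) (v := w 2) (G.symm _ _ e12) e23 (G.symm _ _ h02)
    rcases h5 with h5 | h5 | h5
    · exact n13 h5
    · exact n03 h5.symm
    · exact n01 h5.symm
  · have h42 : ¬ E (w 4) (w 2) := fun h => hB ⟨h03, h⟩
    have h41 : E (w 4) (w 1) := c2.resolve_right h42
    have h02 : ¬ E (w 0) (w 2) := fun h => hA ⟨h, h41⟩
    have h5 := G.deg2 (a := w 0) (b := w 1) (d := w 3) (by
      intro x hx
      obtain ⟨j, rfl⟩ := x0 x hx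
      fin_cases j
      · exact absurd hx (G.irr _)
      · exact Or.inl rfl
      · exact absurd hx h02
      · exact Or.inr rfl
      · exact absurd hx h04) (v := w 1) (G.symm _ _ e01) e12 (G.symm _ _ h41)
    rcases h5 with h5 | h5 | h5
    · exact n02 h5
    · exact n24 h5
    · exact n04 h5

/-- Five vertices. -/
theorem five [Fintype X] (hX : Fintype.card X = 5) : ∃ w : Fin 6 → X,
    (∀ i j : Fin 6, i.1 + 1 = j.1 → E (w i) (w j)) ∧ Surjective w ∧ w 0 = w 5 := by
  rcases G.p5 (by omega) with ⟨w, hw, -⟩ | ⟨w, ⟨hw, hE⟩, h40⟩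
  · have h1 := Fintype.card_le_of_injective w hw
    rw [Fintype.card_fin] at h1
    omega
  · have hs : Surjective w := by
      have h1 : Bijective w := by
        rw [Fintype.bijective_iff_injective_and_card]
        exact ⟨hw, by rw [Fintype.card_fin, hX]⟩
      exact h1.2
    refine ⟨![w 0, w 1, w 2, w 3, w 4, w 0], ?_, ?_, rfl⟩
    · intro i j hij
      fin_cases i <;> fin_cases j <;> simp at hij
      · exact hE 0 1 rfl
      · exact hE 1 2 rfl
      · exact hE 2 3 rfl
      · exact hE 3 4 rfl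
      · exact h40
    · intro x
      obtain ⟨i, rfl⟩ := hs x
      fin_cases i
      · exact ⟨0, rfl⟩
      · exact ⟨1, rfl⟩
      · exact ⟨2, rfl⟩
      · exact ⟨3, rfl⟩
      · exact ⟨4, rfl⟩

/-- Six vertices. -/
theorem six [Fintype X] (hX : Fintype.card X = 6) : ∃ w : Fin 6 → X, Pth E w := by
  rcases G.p5 (by omega) with h | ⟨w, ⟨hw, hE⟩, h40⟩
  · exact h
  have e01 : E (w 0) (w 1) := hE 0 1 rfl
  have e12 : E (w 1) (w 2) := hE 1 2 rfl
  have e23 : E (w 2) (w 3) := hE 2 3 rfl
  have e34 : E (w 3) (w 4) := hE 3 4 rfl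
  obtain ⟨t, i, ht, hi⟩ := G.exists_out w (by omega) (by omega)
  fin_cases i
  · exact ⟨_, ext hw ht (π := ![0, 1, 2, 3, 4]) (by decide) (by
      intro i j hij
      fin_cases i <;> fin_cases j <;> simp at hij <;> assumption) (G.symm _ _ hi)⟩
  · exact ⟨_, ext hw ht (π := ![1, 2, 3, 4, 0]) (by decide) (by
      intro i j hij
      fin_cases i <;> fin_cases j <;> simp at hij <;> assumption) (G.symm _ _ hi)⟩
  · exact ⟨_, ext hw ht (π := ![2, 3, 4, 0, 1]) (by decide) (by
      intro i j hij
      fin_cases i <;> fin_cases j <;> simp at hij <;> assumption) (G.symm _ _ hi)⟩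
  · exact ⟨_, ext hw ht (π := ![3, 4, 0, 1, 2]) (by decide) (by
      intro i j hij
      fin_cases i <;> fin_cases j <;> simp at hij <;> assumption) (G.symm _ _ hi)⟩
  · exact ⟨_, ext hw ht (π := ![4, 0, 1, 2, 3]) (by decide) (by
      intro i j hij
      fin_cases i <;> fin_cases j <;> simp at hij <;> assumption) (G.symm _ _ hi)⟩

end Gr

end Pool.Agent.N994.PG

namespace Pool.Agent.N994.PG

section sums

variable (A : Fin 6 → Fin 6 → ℕ) (hs : ∀ i j, A i j = A j i) (hd : ∀ i, A i i = 0)
include hs hd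

theorem sum_even (h : A 0 2 + A 0 4 + A 2 4 = 0) (i j : Fin 6) (hi : i.1 % 2 = 0)
    (hj : j.1 % 2 = 0) : A i j = 0 := by
  have h1 : A 0 2 = 0 := by omega
  have h2 : A 0 4 = 0 := by omega
  have h3 : A 2 4 = 0 := by omega
  have h1' : A 2 0 = 0 := by rw [hs, h1]
  have h2' : A 4 0 = 0 := by rw [hs, h2]
  have h3' : A 4 2 = 0 := by rw [hs, h3]
  clear h
  fin_cases i <;> fin_cases j <;>
    first
    | exact absurd hi (by decide)
    | exact absurd hj (by decide)
    | exact hd _
    | assumption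

theorem sum_odd (h : A 1 3 + A 1 5 + A 3 5 = 0) (i j : Fin 6) (hi : i.1 % 2 = 1)
    (hj : j.1 % 2 = 1) : A i j = 0 := by
  have h1 : A 1 3 = 0 := by omega
  have h2 : A 1 5 = 0 := by omega
  have h3 : A 3 5 = 0 := by omega
  have h1' : A 3 1 = 0 := by rw [hs, h1]
  have h2' : A 5 1 = 0 := by rw [hs, h2]
  have h3' : A 5 3 = 0 := by rw [hs, h3]
  clear h
  fin_cases i <;> fin_cases j <;>
    first
    | exact absurd hi (by decide)
    | exact absurd hj (by decide)
    | exact hd _
    | assumption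

theorem sum_key {m : ℕ} (h : ∀ i, ∑ j, A i j = m) :
    A 0 2 + A 0 4 + A 2 4 = A 1 3 + A 1 5 + A 3 5 := by
  have h0 := h 0
  have h1 := h 1
  have h2 := h 2
  have h3 := h 3
  have h4 := h 4
  have h5 := h 5
  simp only [Fin.sum_univ_six] at h0 h1 h2 h3 h4 h5
  rw [hd, hs 0 1, hs 0 3, hs 0 5] at h0
  rw [hd, hs 1 2, hs 1 4] at h1
  rw [hd, hs 2 0, hs 2 3, hs 2 5] at h2
  rw [hd, hs 3 1, hs 3 4] at h3
  rw [hd, hs 4 0, hs 4 2, hs 4 5] at h4
  rw [hd, hs 5 1, hs 5 3] at h5
  omega

end sums

namespace Gr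

open Function

variable {X : Type*} {E : X → X → Prop} (G : Gr E)
include G

open Classical in
/-- In a graph on six vertices with a path through all vertices, the edges between the vertices
with even numbers exist if and only if the edges between the vertices with odd numbers exist. -/
theorem par [Fintype X] {w : Fin 6 → X} (hw : Bijective w) :
    (∃ i j : Fin 6, i.1 % 2 = 0 ∧ j.1 % 2 = 0 ∧ E (w i) (w j)) ↔
      ∃ i j : Fin 6, i.1 % 2 = 1 ∧ j.1 % 2 = 1 ∧ E (w i) (w j) := by
  -- the numbers of neighbours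
  let n : X → Finset X := fun v => Finset.univ.filter fun x => E v x
  have hn : ∀ v v', (n v).card ≤ (n v').card := by
    intro v v'
    obtain ⟨f, hf, hv, hE⟩ := G.hom v v'
    refine Finset.card_le_card_of_injOn f ?_ hf.injOn
    intro x hx
    have h1 : E v x := (Finset.mem_filter.1 hx).2
    have h2 := hE _ _ h1
    rw [hv] at h2
    exact Finset.mem_filter.2 ⟨Finset.mem_univ _, h2⟩
  have hn' : ∀ v v', (n v).card = (n v').card := fun v v' => le_antisymm (hn v v') (hn v' v)
  let e : Fin 6 ≃ X := Equiv.ofBijective w hw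
  obtain ⟨A, hAdef⟩ : ∃ A : Fin 6 → Fin 6 → ℕ, ∀ i j, A i j = if E (w i) (w j) then 1 else 0 :=
    ⟨_, fun _ _ => rfl⟩
  have hA : ∀ i, ∑ j, A i j = (n (w 0)).card := by
    intro i
    have h1 : (n (w i)).card = ∑ x : X, if E (w i) x then 1 else 0 := by
      rw [Finset.card_filter]
    rw [hn' (w 0) (w i), h1, ← Equiv.sum_comp e]
    exact Finset.sum_congr rfl fun j _ => hAdef i j
  have hsym : ∀ i j, A i j = A j i := by
    intro i j
    rw [hAdef, hAdef]
    have h1 : E (w i) (w j) ↔ E (w j) (w i) := ⟨G.symm _ _, G.symm _ _⟩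
    simp only [h1]
  have hd : ∀ i, A i i = 0 := fun i => by rw [hAdef, if_neg (G.irr _)]
  have key := sum_key A hsym hd hA
  have hpos : ∀ i j, A i j ≠ 0 ↔ E (w i) (w j) := by
    intro i j
    rw [hAdef]
    by_cases h : E (w i) (w j) <;> simp [h]
  constructor
  · rintro ⟨i, j, hi, hj, h⟩
    have h6 : A 0 2 + A 0 4 + A 2 4 ≠ 0 := fun h0 =>
      (hpos i j).2 h (sum_even A hsym hd h0 i j hi hj)
    rw [key] at h6
    have h8 : A 1 3 ≠ 0 ∨ A 1 5 ≠ 0 ∨ A 3 5 ≠ 0 := by omega
    rcases h8 with h8 | h8 | h8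
    · exact ⟨1, 3, rfl, rfl, (hpos _ _).1 h8⟩
    · exact ⟨1, 5, rfl, rfl, (hpos _ _).1 h8⟩
    · exact ⟨3, 5, rfl, rfl, (hpos _ _).1 h8⟩
  · rintro ⟨i, j, hi, hj, h⟩
    have h6 : A 1 3 + A 1 5 + A 3 5 ≠ 0 := fun h0 =>
      (hpos i j).2 h (sum_odd A hsym hd h0 i j hi hj)
    rw [← key] at h6
    have h8 : A 0 2 ≠ 0 ∨ A 0 4 ≠ 0 ∨ A 2 4 ≠ 0 := by omega
    rcases h8 with h8 | h8 | h8
    · exact ⟨0, 2, rfl, rfl, (hpos _ _).1 h8⟩
    · exact ⟨0, 4, rfl, rfl, (hpos _ _).1 h8⟩
    · exact ⟨2, 4, rfl, rfl, (hpos _ _).1 h8⟩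

end Gr

end Pool.Agent.N994.PG
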