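import Mathlib

/-!
# Symmetrized words in graded Lie algebras

`L` is a space of elements of an associative algebra which is stable under brackets, and `D ∈ L` is
an involution. The elements `x ∈ L` with `D x = x = -x D` and the elements `y ∈ L` with
`D y = -y = -y D` form a special Jordan pair. If `X` and `Y` are sets of elements of the two kinds
with at most two elements each then the sum of each alternating word of odd length in the letters
`X`, `Y` and of the reverse word belongs to `L`.
-/

set_option linter.unusedSectionVars false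

namespace Pool.Agent.N994.PG

variable {R : Type*} [Ring R] [Algebra ℂ R]

/-- The words whose letters alternate between `X` and `Y`. -/
def Wd (X Y : Set R) : List R → Prop
  | [] => True
  | a :: l => a ∈ X ∧ Wd Y X l

theorem wd_append {l m : List R} : ∀ {X Y : Set R}, Wd X Y (l ++ m) →
    Wd X Y l ∧ (Even l.length → Wd X Y m) ∧ (Odd l.length → Wd Y X m) := by
  induction l with
  | nil =>
    intro X Y h
    exact ⟨trivial, fun _ => h, fun h1 => absurd h1 (by simp)⟩
  | cons a l ih =>
    intro X Y h
    obtain ⟨h1, h2⟩ := h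
    obtain ⟨h3, h4, h5⟩ := ih h2
    refine ⟨⟨h1, h3⟩, fun h6 => h5 ?_, fun h6 => h4 ?_⟩
    · rw [List.length_cons, Nat.even_add_one, Nat.not_even_iff_odd] at h6
      exact h6
    · rw [List.length_cons, Nat.odd_add_one, Nat.not_odd_iff_even] at h6
      exact h6

theorem append_wd {l m : List R} : ∀ {X Y : Set R}, Wd X Y l →
    (Even l.length → Wd X Y m) → (Odd l.length → Wd Y X m) → Wd X Y (l ++ m) := by
  induction l with
  | nil =>
    intro X Y _ h1 _
    exact h1 (by simp)
  | cons a l ih =>
    intro X Y h h1 h2
    refine ⟨h.1, ih h.2 (fun h3 => h2 ?_) (fun h3 => h1 ?_)⟩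
    · rw [List.length_cons]
      exact h3.add_one
    · rw [List.length_cons]
      exact h3.add_one

/-- The symmetrized word. -/
def sy (l : List R) : R := l.prod + l.reverse.prod

theorem sy_ends (a b : R) (z : List R) :
    sy (a :: (z ++ [b])) + sy (b :: (z ++ [a])) = a * sy z * b + b * sy z * a := by
  simp only [sy, List.prod_cons, List.prod_append, List.prod_nil, List.reverse_cons,
    List.reverse_append, List.reverse_nil, List.nil_append, List.cons_append, mul_one]
  noncomm_ring

theorem sy_rot (a b : R) (w : List R) :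
    sy (a :: b :: w) + sy (w ++ [b, a]) = a * b * sy w + sy w * b * a := by
  simp only [sy, List.prod_cons, List.prod_append, List.prod_nil, List.reverse_cons,
    List.reverse_append, List.reverse_nil, List.nil_append, List.cons_append, mul_one]
  noncomm_ring

section pair

variable {P M : Submodule ℂ R}
  (hP : ∀ x ∈ P, ∀ y ∈ M, ∀ x' ∈ P, x * y * x' + x' * y * x ∈ P)
  (hM : ∀ y ∈ M, ∀ x ∈ P, ∀ y' ∈ M, y * x * y' + y' * x * y ∈ M)
include hP hM

/-- The induction step. -/
theorem cohn_step {X Y : Set R} (hX : X ⊆ P) (hY : Y ⊆ M)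
    (hX2 : ∀ a ∈ X, ∀ b ∈ X, ∀ c ∈ X, a = b ∨ b = c ∨ a = c) {n : ℕ}
    (ihP : ∀ l : List R, l.length = 2 * n + 3 → Wd X Y l → sy l ∈ P)
    (ihM : ∀ l : List R, l.length = 2 * n + 3 → Wd Y X l → sy l ∈ M) :
    ∀ l : List R, l.length = 2 * n + 5 → Wd X Y l → sy l ∈ P := by
  -- the two congruences
  have ends : ∀ a b z, Wd X Y (a :: (z ++ [b])) → z.length = 2 * n + 3 →
      sy (a :: (z ++ [b])) + sy (b :: (z ++ [a])) ∈ P := by
    intro a b z h hz
    have hod : Odd z.length := by
      rw [hz]
      exact ⟨n + 1, by ring⟩
    obtain ⟨h1, h2⟩ := h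
    obtain ⟨h3, -, h4⟩ := wd_append h2
    rw [sy_ends]
    exact hP a (hX h1) _ (ihM z hz h3) b (hX (h4 hod).1)
  have rot : ∀ a b w, Wd X Y (a :: b :: w) → w.length = 2 * n + 3 →
      sy (a :: b :: w) + sy (w ++ [b, a]) ∈ P := by
    intro a b w h hw
    obtain ⟨h1, h2, h3⟩ := h
    rw [sy_rot]
    exact hP a (hX h1) b (hY h2) _ (ihP w hw h3)
  have wrot : ∀ a b w, Wd X Y (a :: b :: w) → w.length = 2 * n + 3 → Wd X Y (w ++ [b, a]) := by
    intro a b w h hw
    obtain ⟨h1, h2, h3⟩ := h
    refine append_wd h3 (fun h4 => ?_) fun _ => ⟨h2, h1, trivial⟩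
    rw [hw] at h4
    exact absurd h4 (by
      rw [Nat.not_even_iff_odd]
      exact ⟨n + 1, by ring⟩)
  have half : ∀ r : R, r + r ∈ P → r ∈ P := by
    intro r hr
    have h1 : r = (2 : ℂ)⁻¹ • (r + r) := by
      rw [← two_smul ℂ r, smul_smul, inv_mul_cancel₀ two_ne_zero, one_smul]
    rw [h1]
    exact P.smul_mem _ hr
  -- equal ends
  have E0 : ∀ a z, Wd X Y (a :: (z ++ [a])) → z.length = 2 * n + 3 → sy (a :: (z ++ [a])) ∈ P :=
    fun a z h hz => half _ (ends a a z h hz)
  -- equal neighbours
  have E1 : ∀ (m : ℕ) (u : List R), u.length = 2 * m → ∀ a b v, Wd X Y (u ++ a :: b :: a :: v) →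
      (u ++ a :: b :: a :: v).length = 2 * n + 5 → sy (u ++ a :: b :: a :: v) ∈ P := by
    intro m
    induction m with
    | zero =>
      intro u hu a b v h hl
      obtain rfl : u = [] := List.length_eq_zero_iff.1 (by omega)
      rw [List.nil_append] at h hl ⊢
      have hw : (a :: v).length = 2 * n + 3 := by
        simp only [List.length_cons] at hl ⊢
        omega
      have h1 := rot a b (a :: v) h hw
      have h2 := wrot a b (a :: v) h hw
      have h3 : a :: v ++ [b, a] = a :: ((v ++ [b]) ++ [a]) := by simp
      have h4 : sy (a :: v ++ [b, a]) ∈ P := by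
        rw [h3] at h2 ⊢
        refine E0 a (v ++ [b]) h2 ?_
        simp only [List.length_cons, List.length_append, List.length_nil] at hw ⊢
        omega
      have h5 := P.sub_mem h1 h4
      rwa [add_sub_cancel_right] at h5
    | succ m ih =>
      intro u hu a b v h hl
      match u, hu with
      | c :: d :: u', hu =>
        simp only [List.length_cons] at hu
        rw [List.cons_append, List.cons_append] at h hl ⊢
        have hw : (u' ++ a :: b :: a :: v).length = 2 * n + 3 := by
          simp only [List.length_cons] at hl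
          omega
        have h1 := rot c d _ h hw
        have h2 := wrot c d _ h hw
        have h3 : u' ++ a :: b :: a :: v ++ [d, c] = u' ++ a :: b :: a :: (v ++ [d, c]) := by simp
        rw [h3] at h1 h2
        have h4 := ih u' (by omega) a b (v ++ [d, c]) h2 (by
          simp only [List.length_cons, List.length_append, List.length_nil] at hw ⊢
          omega)
        have h5 := P.sub_mem h1 h4
        rwa [add_sub_cancel_right] at h5
  -- the general case
  intro l hl h
  match l, hl, h with
  | a :: b :: c :: d :: e :: v, hl, h =>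
    obtain ⟨ha, hb, hc, hd, he, hv⟩ := id h
    rcases hX2 a ha c hc e he with h1 | h1 | h1
    · subst h1
      exact E1 0 [] rfl a b (d :: e :: v) h hl
    · subst h1
      exact E1 1 [a, b] rfl c d v h hl
    · subst h1
      -- the last letter
      rcases List.eq_nil_or_concat v with rfl | ⟨v', f, rfl⟩
      · exact E0 a [b, c, d] h (by simp only [List.length_cons, List.length_nil] at hl ⊢; omega)
      · rw [List.concat_eq_append] at h hl ⊢
        have h3 : a :: b :: c :: d :: a :: (v' ++ [f]) = a :: ((b :: c :: d :: a :: v') ++ [f]) := by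
          simp
        have hlz : (b :: c :: d :: a :: v').length = 2 * n + 3 := by
          simp only [List.length_cons, List.length_append, List.length_nil] at hl ⊢
          omega
        rw [h3] at h ⊢
        obtain ⟨-, h4⟩ := id h
        obtain ⟨h4a, -, h4b⟩ := wd_append h4
        have hf : f ∈ X := (h4b (by rw [hlz]; exact ⟨n + 1, by ring⟩)).1
        have hsw : Wd X Y (f :: ((b :: c :: d :: a :: v') ++ [a])) := by
          refine ⟨hf, append_wd h4a (fun h5 => ?_) fun _ => ⟨ha, trivial⟩⟩
          rw [hlz] at h5
          exact absurd h5 (by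
            rw [Nat.not_even_iff_odd]
            exact ⟨n + 1, by ring⟩)
        have h5 := ends a f _ h hlz
        have h6 : sy (f :: ((b :: c :: d :: a :: v') ++ [a])) ∈ P := by
          rcases hX2 a ha c hc f hf with h7 | h7 | h7
          · subst h7
            -- then the letters `a` and `c` agree
            have h8 : sy ([f, b] ++ a :: d :: a :: (v' ++ [a])) ∈ P := by
              refine E1 1 [f, b] rfl a d (v' ++ [a]) ?_ ?_
              · have h9 : [f, b] ++ a :: d :: a :: (v' ++ [a]) =
                    f :: ((b :: a :: d :: a :: v') ++ [a]) := by simp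
                rw [h9]
                exact hsw
              · simp only [List.length_cons, List.length_append, List.length_nil] at hl ⊢
                omega
            have h9 : [f, b] ++ a :: d :: a :: (v' ++ [a]) =
                f :: ((b :: a :: d :: a :: v') ++ [a]) := by simp
            rwa [h9] at h8
          · subst h7
            have h8 : sy ([] ++ c :: b :: c :: (d :: a :: v' ++ [a])) ∈ P := by
              refine E1 0 [] rfl c b (d :: a :: v' ++ [a]) ?_ ?_
              · have h9 : [] ++ c :: b :: c :: (d :: a :: v' ++ [a]) =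
                    c :: ((b :: c :: d :: a :: v') ++ [a]) := by simp
                rw [h9]
                exact hsw
              · simp only [List.length_cons, List.length_append, List.length_nil] at hl ⊢
                omega
            have h9 : [] ++ c :: b :: c :: (d :: a :: v' ++ [a]) =
                c :: ((b :: c :: d :: a :: v') ++ [a]) := by simp
            rwa [h9] at h8
          · subst h7
            exact E0 a _ hsw hlz
        have h7 := P.sub_mem h5 h6
        rwa [add_sub_cancel_right] at h7

/-- **The theorem on symmetrized words.** -/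
theorem cohn {X Y : Set R} (hX : X ⊆ P) (hY : Y ⊆ M)
    (hX2 : ∀ a ∈ X, ∀ b ∈ X, ∀ c ∈ X, a = b ∨ b = c ∨ a = c)
    (hY2 : ∀ a ∈ Y, ∀ b ∈ Y, ∀ c ∈ Y, a = b ∨ b = c ∨ a = c) (n : ℕ) :
    ∀ l : List R, l.length = 2 * n + 1 → (Wd X Y l → sy l ∈ P) ∧ (Wd Y X l → sy l ∈ M) := by
  have h1 : ∀ l : List R, l.length = 1 → (Wd X Y l → sy l ∈ P) ∧ (Wd Y X l → sy l ∈ M) := by
    intro l hl
    match l, hl with
    | [a], _ =>
      have h2 : sy [a] = a + a := by simp [sy]
      rw [h2]
      exact ⟨fun h => P.add_mem (hX h.1) (hX h.1), fun h => M.add_mem (hY h.1) (hY h.1)⟩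
  have h3 : ∀ l : List R, l.length = 3 → (Wd X Y l → sy l ∈ P) ∧ (Wd Y X l → sy l ∈ M) := by
    intro l hl
    match l, hl with
    | [a, b, c], _ =>
      have h2 : sy [a, b, c] = a * b * c + c * b * a := by
        simp [sy, mul_assoc]
      rw [h2]
      exact ⟨fun h => hP a (hX h.1) b (hY h.2.1) c (hX h.2.2.1),
        fun h => hM a (hY h.1) b (hX h.2.1) c (hY h.2.2.1)⟩
  have key : ∀ n : ℕ, ∀ l : List R, l.length = 2 * n + 3 →
      (Wd X Y l → sy l ∈ P) ∧ (Wd Y X l → sy l ∈ M) := by
    intro n
    induction n with
    | zero => exact h3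
    | succ n ih =>
      intro l hl
      have hl' : l.length = 2 * n + 5 := by omega
      exact ⟨cohn_step hP hM hX hY hX2 (fun l h => (ih l h).1) (fun l h => (ih l h).2) l hl',
        cohn_step hM hP hY hX hY2 (fun l h => (ih l h).2) (fun l h => (ih l h).1) l hl'⟩
  cases n with
  | zero => exact h1
  | succ n => exact fun l hl => key n l (by omega)

end pair

end Pool.Agent.N994.PG
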