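import Mathlib
import Pool.Agent.N994.PF.Dims
import Pool.Agent.R915.E7

/-!
# Irreducible submodules of period matrices over number fields
-/

set_option linter.unusedSectionVars false

namespace Pool.Agent.N994.PG

open Matrix Module Pool.Agent.W437.HC Pool.Agent.Y90 Pool.Agent.R915
open Pool.Agent.N994.PF (rs Zk InL Ed Sys PP PP_eq comb card_emb)

noncomputable section

variable {g : ℕ} {Z : Matrix (Fin g) (Fin g) ℂ} {k : IntermediateField ℚ ℂ}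

theorem eig_neg (h : PM Z) (hZ : ∀ i j, Z i j ∈ k) (σ : ℂ ≃+* ℂ) (u : Fin g ⊕ Fin g → ℂ) :
    DS Z σ *ᵥ u = -u ↔ InL (Zk k hZ) (rs k σ) u := PF.eig_neg ⟨h.symm, h.pos⟩ hZ σ u

theorem eig_pos (h : PM Z) (hZ : ∀ i j, Z i j ∈ k) (σ : ℂ ≃+* ℂ) (u : Fin g ⊕ Fin g → ℂ) :
    DS Z σ *ᵥ u = u ↔ InL (Zk k hZ) (rs k (cc.trans σ)) u := PF.eig_pos ⟨h.symm, h.pos⟩ hZ σ u

/-- The conjugate Lagrangian subspaces. -/
def Lp (hZ : ∀ i j, Z i j ∈ k) (p : k →+* ℂ) : Submodule ℂ (Fin g ⊕ Fin g → ℂ) where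
  carrier := {u | InL (Zk k hZ) p u}
  zero_mem' := ⟨0, by
    funext i
    rcases i with i | i <;> simp [vecL]⟩
  add_mem' := by
    rintro x y ⟨b, rfl⟩ ⟨b', rfl⟩
    refine ⟨b + b', ?_⟩
    funext i
    rcases i with i | i
    · simp [vecL, mulVec_add]
      ring
    · simp [vecL]
  smul_mem' := by
    rintro c x ⟨b, rfl⟩
    refine ⟨c • b, ?_⟩
    funext i
    rcases i with i | i
    · simp [vecL, mulVec_smul]
    · simp [vecL]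

theorem mem_Lp {hZ : ∀ i j, Z i j ∈ k} {p : k →+* ℂ} {u : Fin g ⊕ Fin g → ℂ} :
    u ∈ Lp hZ p ↔ InL (Zk k hZ) p u := Iff.rfl

theorem mem_neg (h : PM Z) (hZ : ∀ i j, Z i j ∈ k) (σ : ℂ ≃+* ℂ) {u : Fin g ⊕ Fin g → ℂ} :
    u ∈ Lp hZ (rs k σ) ↔ DS Z σ *ᵥ u = -u := (eig_neg h hZ σ u).symm

theorem mem_pos (h : PM Z) (hZ : ∀ i j, Z i j ∈ k) (σ : ℂ ≃+* ℂ) {u : Fin g ⊕ Fin g → ℂ} :
    u ∈ Lp hZ (rs k (cc.trans σ)) ↔ DS Z σ *ᵥ u = u := (eig_pos h hZ σ u).symm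

theorem DD (h : PM Z) (σ : ℂ ≃+* ℂ) (u : Fin g ⊕ Fin g → ℂ) :
    DS Z σ *ᵥ (DS Z σ *ᵥ u) = u := by
  rw [mulVec_mulVec, DS_sq h.det, one_mulVec]

/-- Involutions with the same eigenspaces agree. -/
theorem DS_congr (h : PM Z) (hZ : ∀ i j, Z i j ∈ k) {σ σ' : ℂ ≃+* ℂ} (h1 : rs k σ = rs k σ')
    (h2 : rs k (cc.trans σ) = rs k (cc.trans σ')) (u : Fin g ⊕ Fin g → ℂ) :
    DS Z σ *ᵥ u = DS Z σ' *ᵥ u := by
  obtain ⟨a, ha⟩ : ∃ a, a = (2 : ℂ)⁻¹ • (u - DS Z σ' *ᵥ u) := ⟨_, rfl⟩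
  obtain ⟨b, hb⟩ : ∃ b, b = (2 : ℂ)⁻¹ • (u + DS Z σ' *ᵥ u) := ⟨_, rfl⟩
  have hab : u = a + b := by
    rw [ha, hb]
    module
  have ha' : DS Z σ' *ᵥ a = -a := by
    rw [ha, mulVec_smul, mulVec_sub, DD h]
    module
  have hb' : DS Z σ' *ᵥ b = b := by
    rw [hb, mulVec_smul, mulVec_add, DD h, add_comm]
  have ha'' : DS Z σ *ᵥ a = -a := by
    rw [eig_neg h hZ, h1, ← eig_neg h, ha']
  have hb'' : DS Z σ *ᵥ b = b := by
    rw [eig_pos h hZ, h2, ← eig_pos h, hb']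
  rw [hab, mulVec_add, mulVec_add, ha', hb', ha'', hb'']

/-- A subspace stable under the conjugates of the complex structure is stable. -/
theorem stab_LZ {N : Submodule ℂ (Fin g ⊕ Fin g → ℂ)}
    (h : ∀ σ : ℂ ≃+* ℂ, ∀ u ∈ N, DS Z σ *ᵥ u ∈ N) : Stab (LZ Z) N := by
  let C : Submodule ℂ (Matrix (Fin g ⊕ Fin g) (Fin g ⊕ Fin g) ℂ) :=
    { carrier := {X | ∀ u ∈ N, X *ᵥ u ∈ N}
      zero_mem' := fun u _ => by
        rw [zero_mulVec]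
        exact N.zero_mem
      add_mem' := fun {X Y} hX hY u hu => by
        rw [add_mulVec]
        exact N.add_mem (hX u hu) (hY u hu)
      smul_mem' := fun c X hX u hu => by
        rw [smul_mulVec]
        exact N.smul_mem c (hX u hu) }
  have hC : LZ Z ≤ C := by
    refine LZ_le h ?_
    intro X hX Y hY u hu
    rw [sub_mulVec, ← mulVec_mulVec, ← mulVec_mulVec]
    exact N.sub_mem (hX _ (hY u hu)) (hY _ (hX u hu))
  exact fun X hX => hC hX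

theorem Ed_irr (h : PM Z) (hZ : ∀ i j, Z i j ∈ k) (hg : ∃ v : Fin g ⊕ Fin g → ℂ, v ≠ 0)
    (p : k →+* ℂ) : ¬ Ed k p p := by
  rintro ⟨σ, h1, h2⟩
  have h0 : ∀ u : Fin g ⊕ Fin g → ℂ, DS Z σ *ᵥ u = u → u = 0 := by
    intro u hu
    have e1 := (eig_pos h hZ σ u).1 hu
    have h2' : rs k (cc.trans σ) = p := h2
    rw [h2', ← h1] at e1
    have e2 := (eig_neg h hZ σ u).2 e1
    rw [hu] at e2
    have e3 : (2 : ℂ) • u = 0 := by
      rw [two_smul]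
      nth_rewrite 1 [e2]
      exact neg_add_cancel _
    exact (smul_eq_zero.1 e3).resolve_left two_ne_zero
  have h0' : ∀ u : Fin g ⊕ Fin g → ℂ, DS Z σ *ᵥ u = -u → u = 0 := by
    intro u hu
    have e1 := (eig_neg h hZ σ u).1 hu
    have h2' : rs k (cc.trans σ) = p := h2
    rw [h1, ← h2'] at e1
    exact h0 u ((eig_pos h hZ σ u).2 e1)
  obtain ⟨v, hv⟩ := hg
  apply hv
  have e1 := h0 (v + DS Z σ *ᵥ v) (by rw [mulVec_add, DD h, add_comm])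
  have e2 := h0' (v - DS Z σ *ᵥ v) (by rw [mulVec_sub, DD h, neg_sub])
  have e3 : (2 : ℂ) • v = 0 := by
    rw [two_smul]
    have e4 : v + v = (v + DS Z σ *ᵥ v) + (v - DS Z σ *ᵥ v) := by abel
    rw [e4, e1, e2, add_zero]
  exact (smul_eq_zero.1 e3).resolve_left two_ne_zero

theorem sysU (h : PM Z) (hZ : ∀ i j, Z i j ∈ k) {U : Submodule ℂ (Fin g ⊕ Fin g → ℂ)}
    (hU : IrS (LZ Z) U) : Sys (Ed k) (fun p => U ⊓ Lp hZ p) U (PP Z) where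
  symm := fun _ _ h => h.symm
  irr := by
    refine Ed_irr h hZ ?_
    obtain ⟨v, -, hv⟩ := Submodule.exists_mem_ne_zero_of_ne_bot hU.1
    exact ⟨v, hv⟩
  le := fun p => inf_le_left
  ne := hU.1
  mem := by
    intro p q hE v hv
    obtain ⟨σ, h1, h2, h3⟩ := PP_eq (Z := Z) hE
    rw [h3]
    refine ⟨U.smul_mem _ (U.add_mem hv (hU.2.1 _ (DS_mem σ) v hv)), ?_⟩
    change _ ∈ Lp hZ q
    rw [mem_Lp, ← h2]
    refine (eig_pos h hZ σ _).1 ?_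
    change DS Z σ *ᵥ ((2 : ℂ)⁻¹ • (v + DS Z σ *ᵥ v)) = _
    rw [mulVec_smul, mulVec_add, DD h, add_comm]
    rfl
  sub := by
    intro p q hE v hv
    obtain ⟨σ, h1, h2, h3⟩ := PP_eq (Z := Z) hE
    rw [h3]
    refine ⟨U.sub_mem hv (U.smul_mem _ (U.add_mem hv (hU.2.1 _ (DS_mem σ) v hv))), ?_⟩
    change _ ∈ Lp hZ p
    rw [mem_Lp, ← h1]
    refine (eig_neg h hZ σ _).1 ?_
    change DS Z σ *ᵥ (v - (2 : ℂ)⁻¹ • (v + DS Z σ *ᵥ v)) = -(v - (2 : ℂ)⁻¹ • (v + DS Z σ *ᵥ v))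
    rw [mulVec_sub, mulVec_smul, mulVec_add, DD h]
    module
  fix := by
    intro p q hE v hv
    obtain ⟨σ, h1, h2, h3⟩ := PP_eq (Z := Z) hE
    have e1 : InL (Zk k hZ) q v := hv.2
    rw [← h2] at e1
    have e2 : (DZ Z).map (σ : ℂ →+* ℂ) *ᵥ v = v := (eig_pos h hZ σ v).2 e1
    rw [h3, e2]
    module
  ker := by
    intro p q hE v hv
    obtain ⟨σ, h1, h2, h3⟩ := PP_eq (Z := Z) hE
    have e1 : InL (Zk k hZ) p v := hv.2
    rw [← h1] at e1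
    have e2 : (DZ Z).map (σ : ℂ →+* ℂ) *ᵥ v = -v := (eig_neg h hZ σ v).2 e1
    rw [h3, e2, add_neg_cancel, smul_zero]
  min := by
    intro N hN hst
    refine hU.2.2 N hN (stab_LZ fun σ u hu => ?_)
    have hE : Ed k (rs k σ) (rs k (cc.trans σ)) := ⟨σ, rfl, rfl⟩
    obtain ⟨σ', h1, h2, h3⟩ := PP_eq (Z := Z) hE
    have e0 := hst _ _ hE u hu
    rw [h3] at e0
    have e1 : DS Z σ' *ᵥ u ∈ N := by
      have e2 : DS Z σ' *ᵥ u =
          (2 : ℂ) • ((2 : ℂ)⁻¹ • (u + (DZ Z).map (σ' : ℂ →+* ℂ) *ᵥ u)) - u := by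
        change (DZ Z).map (σ' : ℂ →+* ℂ) *ᵥ u = _
        module
      rw [e2]
      exact N.sub_mem (N.smul_mem _ e0) hu
    rw [← DS_congr h hZ h1 h2] 
    exact e1

/-- **Dimension at most two.** -/
theorem dimsU [FiniteDimensional ℚ k] (hk : finrank ℚ k ≤ 4) (h : PM Z)
    (hZ : ∀ i j, Z i j ∈ k) {U : Submodule ℂ (Fin g ⊕ Fin g → ℂ)}
    (hU : IrS (LZ Z) U) : finrank ℂ U ≤ 2 ∧
      ∀ r s, Ed k r s → U ⊓ Lp hZ r = ⊥ → finrank ℂ U ≤ 1 := by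
  classical
  have : NumberField k := ⟨⟩
  obtain ⟨_, hcard⟩ := card_emb (k := k)
  rw [← hcard] at hk
  have S := sysU h hZ hU
  rcases comb hk (Ed k) (fun _ _ h => h.symm) S.irr (by
    intro p
    obtain ⟨σ, hσ⟩ := Pool.Agent.Y4.exists_aut_emb (algebraMap k ℂ) p
    exact ⟨rs k (cc.trans σ), σ, hσ, rfl⟩) (by
    intro p p'
    obtain ⟨ρ, hρ⟩ := Pool.Agent.Y4.exists_aut_emb p p'
    refine ⟨fun q => (ρ : ℂ →+* ℂ).comp q, ?_, hρ, fun a b h => h.comp ρ⟩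
    intro a b hab
    ext x
    have h1 := congrArg (fun t : k →+* ℂ => t x) hab
    exact ρ.injective h1) with ⟨x, y, z, w, h1, h2, h3, h4⟩ | ⟨p, q, p', q', h1, h2, h3⟩ | h
  · have h5 := S.path h1 h2 h3 h4
    exact ⟨h5.1, fun r s _ => h5.2 r⟩
  · exact S.matching h1 h2 h3
  · exact (h.false (algebraMap k ℂ)).elim

end

end Pool.Agent.N994.PG
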