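import Mathlib
import Pool.Agent.N994.PG.Dims

/-!
# Two-dimensional irreducible submodules
-/

set_option linter.unusedSectionVars false

namespace Pool.Agent.N994.PG

open Matrix Module Pool.Agent.W437.HC Pool.Agent.Y90 Pool.Agent.R915
open Pool.Agent.N994.PF (rs Zk InL Ed Sys PP PP_eq comb card_emb)

noncomputable section

variable {g : ℕ} {Z : Matrix (Fin g) (Fin g) ℂ} {k : IntermediateField ℚ ℂ}

/-- An alternating form which does not vanish on a plane. -/
theorem exists_alt {V : Type*} [AddCommGroup V] [Module ℂ V] (U : Submodule ℂ V)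
    (h2 : finrank ℂ U = 2) : ∃ b : V →ₗ[ℂ] V →ₗ[ℂ] ℂ, (∃ u ∈ U, ∃ v ∈ U, b u v ≠ 0) ∧
      ∀ u, b u u = 0 := by
  have : FiniteDimensional ℂ U := Module.finite_of_finrank_pos (by omega)
  obtain ⟨π, hπ⟩ := LinearMap.exists_leftInverse_of_injective U.subtype (by
    rw [Submodule.ker_subtype])
  have hπ' : ∀ u : U, π (u : V) = u := fun u => LinearMap.congr_fun hπ u
  let f := Module.finBasisOfFinrankEq ℂ U h2
  refine ⟨LinearMap.mk₂ ℂ (fun u v => f.repr (π u) 0 * f.repr (π v) 1 -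
    f.repr (π u) 1 * f.repr (π v) 0) ?_ ?_ ?_ ?_, ⟨f 0, (f 0).2, f 1, (f 1).2, ?_⟩, ?_⟩
  · intro u u' v
    simp only [map_add, Finsupp.add_apply]
    ring
  · intro c u v
    simp only [map_smul, Finsupp.smul_apply, smul_eq_mul]
    ring
  · intro u v v'
    simp only [map_add, Finsupp.add_apply]
    ring
  · intro c u v
    simp only [map_smul, Finsupp.smul_apply, smul_eq_mul]
    ring
  · rw [LinearMap.mk₂_apply, hπ', hπ']
    simp
  · intro u
    rw [LinearMap.mk₂_apply]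
    ring

theorem alt_line {V : Type*} [AddCommGroup V] [Module ℂ V] {b : V →ₗ[ℂ] V →ₗ[ℂ] ℂ}
    (hb : ∀ u, b u u = 0) {W : Submodule ℂ V} [FiniteDimensional ℂ W] (hW : finrank ℂ W ≤ 1)
    {u v : V} (hu : u ∈ W) (hv : v ∈ W) : b u v = 0 := by
  obtain ⟨w, hw⟩ := finrank_le_one_iff.1 hW
  obtain ⟨c, hc⟩ := hw ⟨u, hu⟩
  obtain ⟨d, hd⟩ := hw ⟨v, hv⟩
  have hc' : c • (w : V) = u := congrArg Subtype.val hc
  have hd' : d • (w : V) = v := congrArg Subtype.val hd
  rw [← hc', ← hd', map_smul, map_smul, LinearMap.smul_apply, hb, smul_zero, smul_zero]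

/-- Two-dimensional irreducible submodules on which no conjugate of the complex structure is a
scalar are self-dual. -/
theorem sdu_of_two (h : PM Z) {U : Submodule ℂ (Fin g ⊕ Fin g → ℂ)}
    (hU : Stab (LZ Z) U) (h2 : finrank ℂ U = 2)
    (hn : ∀ σ, ∃ u ∈ U, u ≠ 0 ∧ DS Z σ *ᵥ u = -u) (hp : ∀ σ, ∃ u ∈ U, u ≠ 0 ∧ DS Z σ *ᵥ u = u) :
    SDu Z U := by
  obtain ⟨b, h0, hb⟩ := exists_alt U h2
  refine ⟨b, h0, ?_⟩
  -- the eigenspaces are lines
  have key : ∀ σ, ∀ u ∈ U, ∀ v ∈ U, b (DS Z σ *ᵥ u) v + b u (DS Z σ *ᵥ v) = 0 := by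
    intro σ u hu v hv
    let E : ℂ → Submodule ℂ (Fin g ⊕ Fin g → ℂ) := fun c =>
      U ⊓ Module.End.eigenspace (mulVecLin (DS Z σ)) c
    have hE : ∀ c w, w ∈ E c ↔ w ∈ U ∧ DS Z σ *ᵥ w = c • w := by
      intro c w
      change w ∈ U ∧ w ∈ Module.End.eigenspace (mulVecLin (DS Z σ)) c ↔ _
      rw [Module.End.mem_eigenspace_iff]
      rfl
    have hdis : E 1 ⊓ E (-1) = ⊥ := by
      rw [eq_bot_iff]
      rintro w ⟨h1, h1'⟩
      have h3 : DS Z σ *ᵥ w = (1 : ℂ) • w := ((hE _ _).1 h1).2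
      have h4 : DS Z σ *ᵥ w = (-1 : ℂ) • w := ((hE _ _).1 h1').2
      rw [h3, ← sub_eq_zero, ← sub_smul] at h4
      rw [Submodule.mem_bot]
      refine (smul_eq_zero.1 h4).resolve_left (by norm_num)
    have hpos : ∀ c : ℂ, (c = 1 ∨ c = -1) → 0 < finrank ℂ (E c) := by
      intro c hc
      rw [Nat.pos_iff_ne_zero, ne_eq, Submodule.finrank_eq_zero]
      intro h3
      rcases hc with rfl | rfl
      · obtain ⟨w, hw, hw0, hw'⟩ := hp σ
        have h4 : w ∈ E 1 := (hE _ _).2 ⟨hw, by rw [hw', one_smul]⟩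
        rw [h3, Submodule.mem_bot] at h4
        exact hw0 h4
      · obtain ⟨w, hw, hw0, hw'⟩ := hn σ
        have h4 : w ∈ E (-1) := (hE _ _).2 ⟨hw, by rw [hw', neg_one_smul]⟩
        rw [h3, Submodule.mem_bot] at h4
        exact hw0 h4
    have hsum : finrank ℂ (E 1) + finrank ℂ (E (-1)) ≤ 2 := by
      have h3 := Submodule.finrank_sup_add_finrank_inf_eq (E 1) (E (-1))
      rw [hdis, finrank_bot, add_zero] at h3
      rw [← h3, ← h2]
      exact Submodule.finrank_mono (sup_le inf_le_left inf_le_left)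
    have hp1 := hpos 1 (Or.inl rfl)
    have hn1 := hpos (-1) (Or.inr rfl)
    -- decomposition
    have hdec : ∀ w ∈ U, ∃ x ∈ E 1, ∃ y ∈ E (-1), w = x + y := by
      intro w hw
      have hDw := hU _ (DS_mem σ) w hw
      refine ⟨(1 / 2 : ℂ) • (w + DS Z σ *ᵥ w), (hE _ _).2 ⟨U.smul_mem _ (U.add_mem hw hDw), ?_⟩,
        (1 / 2 : ℂ) • (w - DS Z σ *ᵥ w), (hE _ _).2 ⟨U.smul_mem _ (U.sub_mem hw hDw), ?_⟩, ?_⟩
      · rw [mulVec_smul, mulVec_add, DD h]
        module
      · rw [mulVec_smul, mulVec_sub, DD h]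
        module
      · module
    obtain ⟨x, hx, y, hy, rfl⟩ := hdec u hu
    obtain ⟨x', hx', y', hy', rfl⟩ := hdec v hv
    have e1 := alt_line hb (by omega : finrank ℂ (E 1) ≤ 1) hx hx'
    have e2 := alt_line hb (by omega : finrank ℂ (E (-1)) ≤ 1) hy hy'
    have d1 := ((hE _ _).1 hx).2
    have d2 := ((hE _ _).1 hy).2
    have d3 := ((hE _ _).1 hx').2
    have d4 := ((hE _ _).1 hy').2
    rw [mulVec_add, mulVec_add, d1, d2, d3, d4]
    simp only [map_add, map_smul, LinearMap.add_apply, LinearMap.smul_apply, smul_eq_mul]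
    linear_combination 2 * e1 - 2 * e2
  let C : Submodule ℂ (Matrix (Fin g ⊕ Fin g) (Fin g ⊕ Fin g) ℂ) :=
    { carrier := {X | (∀ u ∈ U, X *ᵥ u ∈ U) ∧
        ∀ u ∈ U, ∀ v ∈ U, b (X *ᵥ u) v + b u (X *ᵥ v) = 0}
      zero_mem' := by
        refine ⟨fun u _ => ?_, fun u _ v _ => ?_⟩
        · rw [zero_mulVec]
          exact U.zero_mem
        · rw [zero_mulVec, zero_mulVec, map_zero, map_zero, LinearMap.zero_apply, add_zero]
      add_mem' := fun {X Y} hX hY => by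
        refine ⟨fun u hu => ?_, fun u hu v hv => ?_⟩
        · rw [add_mulVec]
          exact U.add_mem (hX.1 u hu) (hY.1 u hu)
        · rw [add_mulVec, add_mulVec, map_add, map_add, LinearMap.add_apply]
          linear_combination hX.2 u hu v hv + hY.2 u hu v hv
      smul_mem' := fun c X hX => by
        refine ⟨fun u hu => ?_, fun u hu v hv => ?_⟩
        · rw [smul_mulVec]
          exact U.smul_mem c (hX.1 u hu)
        · rw [smul_mulVec, smul_mulVec, map_smul, map_smul, LinearMap.smul_apply, smul_eq_mul,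
            smul_eq_mul]
          linear_combination c * hX.2 u hu v hv }
  have hC : LZ Z ≤ C := by
    refine LZ_le (fun σ => ⟨hU _ (DS_mem σ), key σ⟩) ?_
    rintro X ⟨hX, hX'⟩ Y ⟨hY, hY'⟩
    refine ⟨fun u hu => ?_, fun u hu v hv => ?_⟩
    · rw [sub_mulVec, ← mulVec_mulVec, ← mulVec_mulVec]
      exact U.sub_mem (hX _ (hY u hu)) (hY _ (hX u hu))
    · rw [sub_mulVec, sub_mulVec, ← mulVec_mulVec, ← mulVec_mulVec, ← mulVec_mulVec,
        ← mulVec_mulVec, map_sub, map_sub, LinearMap.sub_apply]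
      have e1 := hX' (Y *ᵥ u) (hY u hu) v hv
      have e2 := hY' u hu (X *ᵥ v) (hX v hv)
      have e3 := hY' (X *ᵥ u) (hX u hu) v hv
      have e4 := hX' u hu (Y *ᵥ v) (hY v hv)
      linear_combination e1 - e2 - e3 + e4
  exact fun X hX => (hC hX).2

/-- **The irreducible submodules for period matrices over number fields of degree at most four** -/
theorem one_or_two [FiniteDimensional ℚ k] (hk : finrank ℚ k ≤ 4) (h : PM Z)
    (hZ : ∀ i j, Z i j ∈ k) {U : Submodule ℂ (Fin g ⊕ Fin g → ℂ)}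
    (hU : IrS (LZ Z) U) : finrank ℂ U = 1 ∨ (finrank ℂ U = 2 ∧ SDu Z U) := by
  obtain ⟨h1, h2⟩ := dimsU hk h hZ hU
  have h3 : 0 < finrank ℂ U := by
    rw [Nat.pos_iff_ne_zero, ne_eq, Submodule.finrank_eq_zero]
    exact hU.1
  by_cases h4 : finrank ℂ U = 1
  · exact Or.inl h4
  refine Or.inr ⟨by omega, sdu_of_two h hU.2.1 (by omega) (fun σ => ?_) fun σ => ?_⟩
  · by_contra hcon
    push Not at hcon
    have h5 := h2 (rs k σ) (rs k (cc.trans σ)) ⟨σ, rfl, rfl⟩ (by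
      rw [Submodule.eq_bot_iff]
      rintro u ⟨hu, hu'⟩
      by_contra h0
      exact hcon u hu h0 ((mem_neg h hZ σ).1 hu'))
    omega
  · by_contra hcon
    push Not at hcon
    have h5 := h2 (rs k (cc.trans σ)) (rs k σ) (PF.Ed.symm ⟨σ, rfl, rfl⟩) (by
      rw [Submodule.eq_bot_iff]
      rintro u ⟨hu, hu'⟩
      by_contra h0
      exact hcon u hu h0 ((mem_pos h hZ σ).1 hu'))
    omega

end

end Pool.Agent.N994.PG
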