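import Mathlib
import Pool.Agent.N994.PG.Cohn
import Pool.Agent.N994.PG.Two

/-!
# Elements of rank one from few letters
-/

set_option linter.unusedSectionVars false

namespace Pool.Agent.N994.PG

open Matrix Module Pool.Agent.W437.HC Pool.Agent.W437.HD Pool.Agent.Y90 Pool.Agent.R915
open Pool.Agent.W548.Odd hiding cv

noncomputable section

section words

variable {R : Type*} [Ring R] [Algebra ℂ R]

theorem wd_word {X Y : Set R} {e f : R} (he : ∀ x ∈ X, e * x = x ∧ x * f = x)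
    (hf : ∀ y ∈ Y, f * y = y ∧ y * e = y) (l : List R) : l ≠ [] →
    (Wd X Y l → e * l.prod = l.prod ∧ (Odd l.length → l.prod * f = l.prod) ∧
      (Even l.length → l.prod * e = l.prod)) ∧
    (Wd Y X l → f * l.prod = l.prod ∧ (Odd l.length → l.prod * e = l.prod) ∧
      (Even l.length → l.prod * f = l.prod)) := by
  induction l with
  | nil => exact fun h => absurd rfl h
  | cons a l ih =>
    intro _
    by_cases hl : l = []
    · subst hl
      simp only [List.prod_cons, List.prod_nil, mul_one, List.length_cons, List.length_nil]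
      refine ⟨fun h => ⟨(he a h.1).1, fun _ => (he a h.1).2, fun h1 => absurd h1 (by decide)⟩,
        fun h => ⟨(hf a h.1).1, fun _ => (hf a h.1).2, fun h1 => absurd h1 (by decide)⟩⟩
    · obtain ⟨ih1, ih2⟩ := ih hl
      rw [List.prod_cons, List.length_cons]
      refine ⟨fun h => ?_, fun h => ?_⟩
      · obtain ⟨i1, i2, i3⟩ := ih2 h.2
        refine ⟨by rw [← mul_assoc, (he a h.1).1], fun h1 => ?_, fun h1 => ?_⟩
        · rw [mul_assoc, i3 (by
            rw [Nat.odd_add_one, Nat.not_odd_iff_even] at h1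
            exact h1)]
        · rw [mul_assoc, i2 (by
            rw [Nat.even_add_one, Nat.not_even_iff_odd] at h1
            exact h1)]
      · obtain ⟨i1, i2, i3⟩ := ih1 h.2
        refine ⟨by rw [← mul_assoc, (hf a h.1).1], fun h1 => ?_, fun h1 => ?_⟩
        · rw [mul_assoc, i3 (by
            rw [Nat.odd_add_one, Nat.not_odd_iff_even] at h1
            exact h1)]
        · rw [mul_assoc, i2 (by
            rw [Nat.even_add_one, Nat.not_even_iff_odd] at h1
            exact h1)]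

/-- The generators of the space of words. -/
def Gn (X Y : Set R) (e f : R) : Set R :=
  {r | r = e ∨ r = f ∨ ∃ l : List R, l ≠ [] ∧ (Wd X Y l ∨ Wd Y X l) ∧ r = l.prod}

variable {X Y : Set R} {e f : R} (hef : e + f = 1) (he0 : e * f = 0) (hf0 : f * e = 0)
  (he : ∀ x ∈ X, e * x = x ∧ x * f = x) (hf : ∀ y ∈ Y, f * y = y ∧ y * e = y)
include hef he0 hf0 he hf

theorem ee : e * e = e := by
  have h1 : e * (e + f) = e := by rw [hef, mul_one]
  rwa [mul_add, he0, add_zero] at h1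

theorem ff : f * f = f := by
  have h1 : f * (e + f) = f := by rw [hef, mul_one]
  rwa [mul_add, hf0, zero_add] at h1

theorem kill_left (l : List R) (hl : l ≠ []) : (Wd X Y l → f * l.prod = 0) ∧
    (Wd Y X l → e * l.prod = 0) := by
  obtain ⟨h1, h2⟩ := wd_word he hf l hl
  refine ⟨fun h => ?_, fun h => ?_⟩
  · rw [← (h1 h).1, ← mul_assoc, hf0, zero_mul]
  · rw [← (h2 h).1, ← mul_assoc, he0, zero_mul]

theorem kill_right (l : List R) (hl : l ≠ []) :
    ((Wd X Y l ∧ Odd l.length) ∨ (Wd Y X l ∧ Even l.length) → l.prod * e = 0 ∧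
      l.prod * f = l.prod) ∧
    ((Wd X Y l ∧ Even l.length) ∨ (Wd Y X l ∧ Odd l.length) → l.prod * f = 0 ∧
      l.prod * e = l.prod) := by
  obtain ⟨h1, h2⟩ := wd_word he hf l hl
  refine ⟨?_, ?_⟩
  · rintro (⟨h, h'⟩ | ⟨h, h'⟩)
    · have h3 := (h1 h).2.1 h'
      exact ⟨by rw [← h3, mul_assoc, hf0, mul_zero], h3⟩
    · have h3 := (h2 h).2.2 h'
      exact ⟨by rw [← h3, mul_assoc, hf0, mul_zero], h3⟩
  · rintro (⟨h, h'⟩ | ⟨h, h'⟩)
    · have h3 := (h1 h).2.2 h'
      exact ⟨by rw [← h3, mul_assoc, he0, mul_zero], h3⟩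
    · have h3 := (h2 h).2.1 h'
      exact ⟨by rw [← h3, mul_assoc, he0, mul_zero], h3⟩

theorem gn_mul {r s : R} (hr : r ∈ Gn X Y e f) (hs : s ∈ Gn X Y e f) :
    r * s = 0 ∨ r * s ∈ Gn X Y e f := by
  have he1 := ee hef he0 hf0 he hf
  have hf1 := ff hef he0 hf0 he hf
  rcases hr with rfl | rfl | ⟨l, hl, hl', rfl⟩
  · rcases hs with rfl | rfl | ⟨m, hm, hm', rfl⟩
    · right
      rw [he1]
      exact Or.inl rfl
    · exact Or.inl he0
    · rcases hm' with h | h
      · right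
        rw [((wd_word he hf m hm).1 h).1]
        exact Or.inr (Or.inr ⟨m, hm, Or.inl h, rfl⟩)
      · exact Or.inl ((kill_left hef he0 hf0 he hf m hm).2 h)
  · rcases hs with rfl | rfl | ⟨m, hm, hm', rfl⟩
    · exact Or.inl hf0
    · right
      rw [hf1]
      exact Or.inr (Or.inl rfl)
    · rcases hm' with h | h
      · exact Or.inl ((kill_left hef he0 hf0 he hf m hm).1 h)
      · right
        rw [((wd_word he hf m hm).2 h).1]
        exact Or.inr (Or.inr ⟨m, hm, Or.inr h, rfl⟩)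
  · have hk := kill_right hef he0 hf0 he hf l hl
    have hcase : ((Wd X Y l ∧ Odd l.length) ∨ (Wd Y X l ∧ Even l.length)) ∨
        ((Wd X Y l ∧ Even l.length) ∨ (Wd Y X l ∧ Odd l.length)) := by
      rcases Nat.even_or_odd l.length with h | h <;> tauto
    rcases hs with rfl | rfl | ⟨m, hm, hm', rfl⟩
    · rcases hcase with h | h
      · exact Or.inl (hk.1 h).1
      · right
        rw [(hk.2 h).2]
        exact Or.inr (Or.inr ⟨l, hl, hl', rfl⟩)
    · rcases hcase with h | h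
      · right
        rw [(hk.1 h).2]
        exact Or.inr (Or.inr ⟨l, hl, hl', rfl⟩)
      · exact Or.inl (hk.2 h).1
    · have hlm : l ++ m ≠ [] := by simp [hl]
      rcases hm' with h | h
      · -- `m` starts in `X`
        rcases hcase with h1 | h1
        · left
          rw [← (hk.1 h1).2, mul_assoc, (kill_left hef he0 hf0 he hf m hm).1 h, mul_zero]
        · right
          rw [← List.prod_append]
          refine Or.inr (Or.inr ⟨l ++ m, hlm, ?_, rfl⟩)
          rcases h1 with ⟨h1, h2⟩ | ⟨h1, h2⟩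
          · exact Or.inl (append_wd h1 (fun _ => h) fun h3 =>
              absurd h2 (by rwa [Nat.not_even_iff_odd]))
          · exact Or.inr (append_wd h1 (fun h3 => absurd h2 (by rwa [Nat.not_odd_iff_even]))
              fun _ => h)
      · rcases hcase with h1 | h1
        · right
          rw [← List.prod_append]
          refine Or.inr (Or.inr ⟨l ++ m, hlm, ?_, rfl⟩)
          rcases h1 with ⟨h1, h2⟩ | ⟨h1, h2⟩
          · exact Or.inl (append_wd h1 (fun h3 => absurd h2 (by rwa [Nat.not_odd_iff_even]))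
              fun _ => h)
          · exact Or.inr (append_wd h1 (fun _ => h) fun h3 =>
              absurd h2 (by rwa [Nat.not_even_iff_odd]))
        · left
          rw [← (hk.2 h1).2, mul_assoc, (kill_left hef he0 hf0 he hf m hm).2 h, mul_zero]

/-- The words span the algebra. -/
theorem adj_span {L : Set R} (hL : L ⊆ Submodule.span ℂ (Gn X Y e f)) :
    ∀ N ∈ Algebra.adjoin ℂ L, N ∈ Submodule.span ℂ (Gn X Y e f) := by
  have h1 : (1 : R) ∈ Submodule.span ℂ (Gn X Y e f) := by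
    rw [← hef]
    exact Submodule.add_mem _ (Submodule.subset_span (Or.inl rfl))
      (Submodule.subset_span (Or.inr (Or.inl rfl)))
  intro N hN
  induction hN using Algebra.adjoin_induction with
  | mem x hx => exact hL hx
  | algebraMap c =>
    rw [Algebra.algebraMap_eq_smul_one]
    exact Submodule.smul_mem _ _ h1
  | add x y _ _ hx hy => exact Submodule.add_mem _ hx hy
  | mul x y h2 h3 hx hy =>
    clear h2 h3
    induction hx using Submodule.span_induction with
    | mem x hx =>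
      induction hy using Submodule.span_induction with
      | mem y hy =>
        rcases gn_mul hef he0 hf0 he hf hx hy with h | h
        · rw [h]
          exact Submodule.zero_mem _
        · exact Submodule.subset_span h
      | zero =>
        rw [mul_zero]
        exact Submodule.zero_mem _
      | add a b _ _ ha hb =>
        rw [mul_add]
        exact Submodule.add_mem _ ha hb
      | smul c a _ ha =>
        rw [mul_smul_comm]
        exact Submodule.smul_mem _ c ha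
    | zero =>
      rw [zero_mul]
      exact Submodule.zero_mem _
    | add a b _ _ ha hb =>
      rw [add_mul]
      exact Submodule.add_mem _ ha hb
    | smul c a _ ha =>
      rw [smul_mul_assoc]
      exact Submodule.smul_mem _ c ha

/-- The component of degree one. -/
theorem comp_span {N : R} (hN : N ∈ Submodule.span ℂ (Gn X Y e f)) :
    e * N * f ∈ Submodule.span ℂ {r | ∃ l : List R, Odd l.length ∧ Wd X Y l ∧ r = l.prod} := by
  have he1 := ee hef he0 hf0 he hf
  induction hN using Submodule.span_induction with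
  | mem x hx =>
    rcases hx with rfl | rfl | ⟨l, hl, hl', rfl⟩
    · rw [he1, he0]
      exact Submodule.zero_mem _
    · rw [he0, zero_mul]
      exact Submodule.zero_mem _
    · rcases hl' with h | h
      · rw [((wd_word he hf l hl).1 h).1]
        rcases Nat.even_or_odd l.length with h1 | h1
        · rw [((kill_right hef he0 hf0 he hf l hl).2 (Or.inl ⟨h, h1⟩)).1]
          exact Submodule.zero_mem _
        · rw [((kill_right hef he0 hf0 he hf l hl).1 (Or.inl ⟨h, h1⟩)).2]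
          exact Submodule.subset_span ⟨l, h1, h, rfl⟩
      · rw [(kill_left hef he0 hf0 he hf l hl).2 h, zero_mul]
        exact Submodule.zero_mem _
  | zero =>
    rw [mul_zero, zero_mul]
    exact Submodule.zero_mem _
  | add a b _ _ ha hb =>
    rw [mul_add, add_mul]
    exact Submodule.add_mem _ ha hb
  | smul c a _ ha =>
    rw [mul_smul_comm, smul_mul_assoc]
    exact Submodule.smul_mem _ c ha

end words

variable {g : ℕ} {Z : Matrix (Fin g) (Fin g) ℂ}

/-- The elements of degree one of the Lie algebra. -/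
def LP (Z : Matrix (Fin g) (Fin g) ℂ) (ε : ℂ) :
    Submodule ℂ (Matrix (Fin g ⊕ Fin g) (Fin g ⊕ Fin g) ℂ) where
  carrier := {N | N ∈ LZ Z ∧ DZ Z * N = ε • N ∧ N * DZ Z = -(ε • N)}
  add_mem' := by
    rintro a b ⟨a1, a2, a3⟩ ⟨b1, b2, b3⟩
    refine ⟨Submodule.add_mem _ a1 b1, ?_, ?_⟩
    · rw [mul_add, a2, b2, smul_add]
    · rw [add_mul, a3, b3, smul_add, neg_add]
  zero_mem' := ⟨Submodule.zero_mem _, by rw [mul_zero, smul_zero],
    by rw [zero_mul, smul_zero, neg_zero]⟩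
  smul_mem' := by
    rintro c a ⟨a1, a2, a3⟩
    refine ⟨Submodule.smul_mem _ c a1, ?_, ?_⟩
    · rw [Matrix.mul_smul, a2, smul_comm]
    · rw [Matrix.smul_mul, a3, smul_neg, smul_comm]

theorem mem_LP {ε : ℂ} {N : Matrix (Fin g ⊕ Fin g) (Fin g ⊕ Fin g) ℂ} :
    N ∈ LP Z ε ↔ N ∈ LZ Z ∧ DZ Z * N = ε • N ∧ N * DZ Z = -(ε • N) := Iff.rfl

theorem LP_sq {ε : ℂ} (hε : ε ≠ 0) {N N' : Matrix (Fin g ⊕ Fin g) (Fin g ⊕ Fin g) ℂ}
    (hN : N ∈ LP Z ε) (hN' : N' ∈ LP Z ε) : N * N' = 0 := by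
  have h1 : ε • (N * N') = -(ε • (N * N')) := by
    calc ε • (N * N') = N * (ε • N') := by rw [Matrix.mul_smul]
    _ = N * (DZ Z * N') := by rw [hN'.2.1]
    _ = (N * DZ Z) * N' := by rw [mul_assoc]
    _ = -(ε • (N * N')) := by rw [hN.2.2, neg_mul, Matrix.smul_mul]
  have h2 : (2 : ℂ) • (ε • (N * N')) = 0 := by
    rw [two_smul]
    nth_rewrite 1 [h1]
    rw [neg_add_cancel]
  exact (smul_eq_zero.1 ((smul_eq_zero.1 h2).resolve_left two_ne_zero)).resolve_left hε

theorem LP_jordan {ε : ℂ} (hε : ε ≠ 0) : ∀ x ∈ LP Z ε, ∀ y ∈ LP Z (-ε), ∀ x' ∈ LP Z ε,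
    x * y * x' + x' * y * x ∈ LP Z ε := by
  intro x hx y hy x' hx'
  have h1 : x * y * x' + x' * y * x = (x * y - y * x) * x' - x' * (x * y - y * x) := by
    have h2 := LP_sq hε hx hx'
    have h3 := LP_sq hε hx' hx
    have h4 : (x * y - y * x) * x' - x' * (x * y - y * x) =
        x * y * x' + x' * y * x - y * (x * x') - (x' * x) * y := by noncomm_ring
    rw [h4, h2, h3, mul_zero, zero_mul, sub_zero, sub_zero]
  refine ⟨?_, ?_, ?_⟩
  · rw [h1]
    exact LZ_br (LZ_br hx.1 hy.1) hx'.1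
  · have h2 : DZ Z * (x * y * x' + x' * y * x) = (DZ Z * x) * y * x' + (DZ Z * x') * y * x := by
      noncomm_ring
    rw [h2, hx.2.1, hx'.2.1]
    simp only [Matrix.smul_mul, smul_add]
  · have h2 : (x * y * x' + x' * y * x) * DZ Z = x * y * (x' * DZ Z) + x' * y * (x * DZ Z) := by
      noncomm_ring
    rw [h2, hx.2.2, hx'.2.2]
    simp only [Matrix.mul_neg, Matrix.mul_smul, smul_add, neg_add]

section rank

variable (h : PM Z) {U : Submodule ℂ (Fin g ⊕ Fin g → ℂ)} (hU : IrS (LZ Z) U)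
  (b : (Fin g ⊕ Fin g → ℂ) →ₗ[ℂ] (Fin g ⊕ Fin g → ℂ) →ₗ[ℂ] ℂ)
  (h0 : ∃ u ∈ U, ∃ v ∈ U, b u v ≠ 0)
  (hb : ∀ X ∈ LZ Z, ∀ u ∈ U, ∀ v ∈ U, b (X *ᵥ u) v + b u (X *ᵥ v) = 0)
  (halt : ∀ u ∈ U, ∀ v ∈ U, b u v = -b v u)
include hU hb

theorem word_mem : ∀ l : List (Matrix (Fin g ⊕ Fin g) (Fin g ⊕ Fin g) ℂ),
    (∀ a ∈ l, a ∈ LZ Z) → ∀ u ∈ U, l.prod *ᵥ u ∈ U := by
  intro l
  induction l with
  | nil =>
    intro _ u hu
    rw [List.prod_nil, one_mulVec]
    exact hu
  | cons a l ih =>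
    intro hl u hu
    rw [List.prod_cons, ← mulVec_mulVec]
    exact hU.2.1 a (hl a (by simp)) _ (ih (fun c hc => hl c (by simp [hc])) u hu)

theorem b_word : ∀ l : List (Matrix (Fin g ⊕ Fin g) (Fin g ⊕ Fin g) ℂ),
    (∀ a ∈ l, a ∈ LZ Z) → ∀ u ∈ U, ∀ v ∈ U,
    b (l.prod *ᵥ u) v = (-1) ^ l.length * b u (l.reverse.prod *ᵥ v) := by
  intro l
  induction l with
  | nil =>
    intro _ u _ v _
    simp
  | cons a l ih =>
    intro hl u hu v hv
    have hl' : ∀ c ∈ l, c ∈ LZ Z := fun c hc => hl c (by simp [hc])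
    have ha : a ∈ LZ Z := hl a (by simp)
    have h1 := word_mem hU b hb l hl' u hu
    have h2 := hb a ha _ h1 v hv
    rw [List.prod_cons, ← mulVec_mulVec, List.reverse_cons, List.prod_append, List.prod_cons,
      List.prod_nil, mul_one, ← mulVec_mulVec, List.length_cons, pow_succ]
    have h3 := ih hl' u hu (a *ᵥ v) (hU.2.1 a ha v hv)
    linear_combination h2 - h3

theorem wd_LZ {X Y : Set (Matrix (Fin g ⊕ Fin g) (Fin g ⊕ Fin g) ℂ)}
    (hX : ∀ x ∈ X, x ∈ LZ Z) (hY : ∀ y ∈ Y, y ∈ LZ Z) :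
    ∀ l : List (Matrix (Fin g ⊕ Fin g) (Fin g ⊕ Fin g) ℂ), (Wd X Y l → ∀ a ∈ l, a ∈ LZ Z) ∧
      (Wd Y X l → ∀ a ∈ l, a ∈ LZ Z) := by
  intro l
  induction l with
  | nil => exact ⟨fun _ a ha => by simp at ha, fun _ a ha => by simp at ha⟩
  | cons c l ih =>
    refine ⟨fun hc a ha => ?_, fun hc a ha => ?_⟩
    · rcases List.mem_cons.1 ha with rfl | ha'
      · exact hX _ hc.1
      · exact ih.2 hc.2 a ha'
    · rcases List.mem_cons.1 ha with rfl | ha'
      · exact hY _ hc.1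
      · exact ih.1 hc.2 a ha'

include h h0 halt in
/-- **Elements of rank one from few letters.** -/
theorem rk1_letters {X Y : Set (Matrix (Fin g ⊕ Fin g) (Fin g ⊕ Fin g) ℂ)}
    (hX : X ⊆ LP Z 1) (hY : Y ⊆ LP Z (-1))
    (hX2 : ∀ a ∈ X, ∀ b ∈ X, ∀ c ∈ X, a = b ∨ b = c ∨ a = c)
    (hY2 : ∀ a ∈ Y, ∀ b ∈ Y, ∀ c ∈ Y, a = b ∨ b = c ∨ a = c)
    (hirr : ∀ N ≤ U, (∀ u ∈ N, DZ Z *ᵥ u ∈ N) → (∀ x ∈ X, ∀ u ∈ N, x *ᵥ u ∈ N) →
      (∀ y ∈ Y, ∀ u ∈ N, y *ᵥ u ∈ N) → N = ⊥ ∨ N = U) : Rk1 Z U := by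
  have hX' : ∀ x ∈ X, x ∈ LZ Z ∧ DZ Z * x = x ∧ x * DZ Z = -x := by
    intro x hx
    have h1 := mem_LP.1 (hX hx)
    rw [one_smul] at h1
    exact h1
  have hY' : ∀ y ∈ Y, y ∈ LZ Z ∧ DZ Z * y = -y ∧ y * DZ Z = y := by
    intro y hy
    have h1 := mem_LP.1 (hY hy)
    rw [neg_one_smul, neg_neg] at h1
    exact h1
  obtain ⟨e, hedef⟩ : ∃ e : Matrix (Fin g ⊕ Fin g) (Fin g ⊕ Fin g) ℂ,
    e = (1 / 2 : ℂ) • (1 + DZ Z) := ⟨_, rfl⟩
  obtain ⟨f, hfdef⟩ : ∃ f : Matrix (Fin g ⊕ Fin g) (Fin g ⊕ Fin g) ℂ,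
    f = (1 / 2 : ℂ) • (1 - DZ Z) := ⟨_, rfl⟩
  have hDD := DZ_sq h.det
  have hef : e + f = 1 := by
    rw [hedef, hfdef]
    module
  have he0 : e * f = 0 := by
    rw [hedef, hfdef, Matrix.smul_mul, Matrix.mul_smul]
    have h1 : (1 + DZ Z) * (1 - DZ Z) = 1 - DZ Z * DZ Z := by noncomm_ring
    rw [h1, hDD, sub_self, smul_zero, smul_zero]
  have hf0 : f * e = 0 := by
    rw [hedef, hfdef, Matrix.smul_mul, Matrix.mul_smul]
    have h1 : (1 - DZ Z) * (1 + DZ Z) = 1 - DZ Z * DZ Z := by noncomm_ring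
    rw [h1, hDD, sub_self, smul_zero, smul_zero]
  have he : ∀ x ∈ X, e * x = x ∧ x * f = x := by
    intro x hx
    obtain ⟨-, h1, h2⟩ := hX' x hx
    refine ⟨?_, ?_⟩
    · rw [hedef, Matrix.smul_mul, add_mul, one_mul, h1]
      module
    · rw [hfdef, Matrix.mul_smul, mul_sub, mul_one, h2]
      module
  have hf : ∀ y ∈ Y, f * y = y ∧ y * e = y := by
    intro y hy
    obtain ⟨-, h1, h2⟩ := hY' y hy
    refine ⟨?_, ?_⟩
    · rw [hfdef, Matrix.smul_mul, sub_mul, one_mul, h1]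
      module
    · rw [hedef, Matrix.mul_smul, mul_add, mul_one, h2]
      module
  -- the space of the letters
  let L : Submodule ℂ (Matrix (Fin g ⊕ Fin g) (Fin g ⊕ Fin g) ℂ) :=
    Submodule.span ℂ ({DZ Z} ∪ X ∪ Y)
  have hLle : L ≤ LZ Z := by
    refine Submodule.span_le.2 ?_
    rintro x ((rfl | hx) | hx)
    · exact DZ_mem
    · exact (hX' x hx).1
    · exact (hY' x hx).1
  have hUL : IrS L U := by
    refine ⟨hU.1, fun x hx u hu => hU.2.1 x (hLle hx) u hu, fun N hN hs => ?_⟩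
    refine hirr N hN (fun u hu => hs _ (Submodule.subset_span (Or.inl (Or.inl rfl))) u hu)
      (fun x hx u hu => hs _ (Submodule.subset_span (Or.inl (Or.inr hx))) u hu)
      fun y hy u hu => hs _ (Submodule.subset_span (Or.inr hy)) u hu
  -- the vector
  have hns : ∀ c : ℂ, ∃ u ∈ U, DZ Z *ᵥ u ≠ c • u := fun c =>
    ns_of_sdu h ⟨b, h0, hb⟩ (RingEquiv.refl ℂ) c
  have hpos := pd_pos h hU.2.1 hns
  obtain ⟨a, ⟨haU, ha1⟩, ha0⟩ := Submodule.exists_mem_ne_zero_of_ne_bot
    (p := (U ⊓ eig Z 1 : Submodule ℂ (Fin g ⊕ Fin g → ℂ))) (by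
    intro h1
    unfold pd at hpos
    rw [h1, finrank_bot] at hpos
    exact lt_irrefl _ hpos)
  have hDa : DZ Z *ᵥ a = a := by
    have h1 := mem_eig.1 ha1
    rwa [one_smul] at h1
  -- the operator of rank one
  let F : U →ₗ[ℂ] U := ((b a).comp U.subtype).smulRight ⟨a, haU⟩
  obtain ⟨N, hN, hNF⟩ := burnside hUL F
  have hNF' : ∀ u ∈ U, N *ᵥ u = b a u • a := fun u hu => hNF ⟨u, hu⟩
  have hNs : N ∈ Submodule.span ℂ (Gn X Y e f) := by
    refine adj_span hef he0 hf0 he hf ?_ N hN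
    refine SetLike.coe_subset_coe.2 (Submodule.span_le.2 ?_)
    rintro x ((rfl | hx) | hx)
    · have h1 : DZ Z = e - f := by
        rw [hedef, hfdef]
        module
      rw [h1]
      exact Submodule.sub_mem _ (Submodule.subset_span (Or.inl rfl))
        (Submodule.subset_span (Or.inr (Or.inl rfl)))
    · exact Submodule.subset_span (Or.inr (Or.inr ⟨[x], by simp, Or.inl ⟨hx, trivial⟩, by simp⟩))
    · exact Submodule.subset_span (Or.inr (Or.inr ⟨[x], by simp, Or.inr ⟨hx, trivial⟩, by simp⟩))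
  have hT := comp_span hef he0 hf0 he hf hNs
  have hXL : ∀ x ∈ X, x ∈ LZ Z := fun x hx => (hX' x hx).1
  have hYL : ∀ y ∈ Y, y ∈ LZ Z := fun y hy => (hY' y hy).1
  -- the element of the Lie algebra
  have key : ∀ T ∈ Submodule.span ℂ {r : Matrix (Fin g ⊕ Fin g) (Fin g ⊕ Fin g) ℂ |
      ∃ l : List _, Odd l.length ∧ Wd X Y l ∧ r = l.prod}, ∃ K ∈ LP Z 1, ∀ u ∈ U, ∀ v ∈ U,
      b (K *ᵥ u) v = b (T *ᵥ u) v - b u (T *ᵥ v) := by
    intro T hT
    induction hT using Submodule.span_induction with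
    | mem T hT =>
      obtain ⟨l, hl1, hl2, rfl⟩ := hT
      have hlL := (wd_LZ hU b hb hXL hYL l).1 hl2
      obtain ⟨m, hm⟩ := hl1
      have h1 := (cohn (P := LP Z 1) (M := LP Z (-1)) (LP_jordan one_ne_zero) (by
        have h2 := LP_jordan (Z := Z) (ε := -1) (by norm_num)
        rwa [neg_neg] at h2) hX hY hX2 hY2 m l hm).1 hl2
      refine ⟨sy l, h1, fun u hu v hv => ?_⟩
      have h2 := b_word hU b hb l.reverse (fun c hc => hlL c (by simpa using hc)) u hu v hv
      rw [List.reverse_reverse, List.length_reverse, Odd.neg_one_pow ⟨m, hm⟩] at h2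
      unfold sy
      rw [add_mulVec, map_add, LinearMap.add_apply, h2]
      ring
    | zero =>
      refine ⟨0, Submodule.zero_mem _, fun u _ v _ => ?_⟩
      rw [zero_mulVec, zero_mulVec, map_zero, map_zero, LinearMap.zero_apply, sub_zero]
    | add x y _ _ hx hy =>
      obtain ⟨K, hK, hK'⟩ := hx
      obtain ⟨K', hK1, hK2⟩ := hy
      refine ⟨K + K', Submodule.add_mem _ hK hK1, fun u hu v hv => ?_⟩
      rw [add_mulVec, add_mulVec, add_mulVec, map_add, map_add, map_add, LinearMap.add_apply,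
        LinearMap.add_apply, hK' u hu v hv, hK2 u hu v hv]
      ring
    | smul c x _ hx =>
      obtain ⟨K, hK, hK'⟩ := hx
      refine ⟨c • K, Submodule.smul_mem _ c hK, fun u hu v hv => ?_⟩
      rw [smul_mulVec, smul_mulVec, smul_mulVec, map_smul, map_smul, map_smul,
        LinearMap.smul_apply, LinearMap.smul_apply, hK' u hu v hv]
      simp only [smul_eq_mul]
      ring
  obtain ⟨K, hK, hKb⟩ := key _ hT
  -- positive vectors are orthogonal to `a`
  have hpp : ∀ u ∈ U, DZ Z *ᵥ u = u → b a u = 0 := by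
    intro u hu hu1
    have h1 := hb _ DZ_mem a haU u hu
    rw [hDa, hu1] at h1
    linear_combination h1 / 2
  have heU : ∀ u ∈ U, f *ᵥ u ∈ U ∧ e *ᵥ u ∈ U ∧ DZ Z *ᵥ (e *ᵥ u) = e *ᵥ u := by
    intro u hu
    have hDu := hU.2.1 _ DZ_mem u hu
    refine ⟨?_, ?_, ?_⟩
    · rw [hfdef, smul_mulVec, sub_mulVec, one_mulVec]
      exact U.smul_mem _ (U.sub_mem hu hDu)
    · rw [hedef, smul_mulVec, add_mulVec, one_mulVec]
      exact U.smul_mem _ (U.add_mem hu hDu)
    · rw [hedef, mulVec_mulVec, Matrix.mul_smul, mul_add, mul_one, hDD, add_comm]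
  have hea : e *ᵥ a = a := by
    rw [hedef, smul_mulVec, add_mulVec, one_mulVec, hDa]
    module
  have hTa : ∀ u ∈ U, (e * N * f) *ᵥ u = b a u • a := by
    intro u hu
    obtain ⟨h1, h2, h3⟩ := heU u hu
    rw [← mulVec_mulVec, ← mulVec_mulVec, hNF' _ h1, mulVec_smul, hea]
    congr 1
    have h4 : u = e *ᵥ u + f *ᵥ u := by rw [← add_mulVec, hef, one_mulVec]
    conv_rhs => rw [h4]
    rw [map_add, hpp _ h2 h3, zero_add]
  have hKa : ∀ u ∈ U, K *ᵥ u = (2 * b a u) • a := by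
    intro u hu
    have h1 : K *ᵥ u - (2 * b a u) • a = 0 := by
      refine nd_left hU hU.2.1 h0 hb _ (U.sub_mem (hU.2.1 K hK.1 u hu) (U.smul_mem _ haU))
        fun v hv => ?_
      rw [map_sub, LinearMap.sub_apply, hKb u hu v hv, hTa u hu, hTa v hv, map_smul, map_smul,
        map_smul, LinearMap.smul_apply, LinearMap.smul_apply, halt u hu a haU]
      simp only [smul_eq_mul]
      ring
    exact sub_eq_zero.1 h1
  refine ⟨DZ Z, Or.inl rfl, K, hK.1, by rw [hK.2.1, one_smul], by rw [hK.2.2, one_smul], ?_⟩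
  have h1 : U.map (mulVecLin K) = Submodule.span ℂ {a} := by
    apply le_antisymm
    · rintro _ ⟨u, hu, rfl⟩
      rw [mulVecLin_apply, hKa u hu]
      exact Submodule.smul_mem _ _ (Submodule.mem_span_singleton_self a)
    · rw [Submodule.span_singleton_le_iff_mem]
      obtain ⟨v, hv, hav⟩ : ∃ v ∈ U, b a v ≠ 0 := by
        by_contra hcon
        push Not at hcon
        exact ha0 (nd_left hU hU.2.1 h0 hb a haU hcon)
      refine ⟨(2 * b a v)⁻¹ • v, U.smul_mem _ hv, ?_⟩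
      rw [mulVecLin_apply, mulVec_smul, hKa v hv, smul_smul, inv_mul_cancel₀
        (mul_ne_zero two_ne_zero hav), one_smul]
  rw [h1, finrank_span_singleton ha0]

end rank

end

end Pool.Agent.N994.PG
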