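import Mathlib
import Pool.Agent.N994.PG.Span

/-!
# The letters given by a path of linked embeddings
-/

set_option linter.unusedSectionVars false

namespace Pool.Agent.N994.PG

open Matrix Module Pool.Agent.W437.HC Pool.Agent.W437.HD Pool.Agent.Y90 Pool.Agent.R915
open Pool.Agent.W548.Odd hiding cv
open Pool.Agent.N994.PF (rs Zk InL Ed Sys PP PP_eq comb card_emb)

noncomputable section

variable {g : ℕ} {Z : Matrix (Fin g) (Fin g) ℂ} {k : IntermediateField ℚ ℂ}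

/-- Eigenspaces. -/
def Eg {B : Type*} [Fintype B] (T : Matrix B B ℂ) (ε : ℂ) : Submodule ℂ (B → ℂ) :=
  Module.End.eigenspace (mulVecLin T) ε

theorem mem_Eg {B : Type*} [Fintype B] {T : Matrix B B ℂ} {ε : ℂ} {v : B → ℂ} :
    v ∈ Eg T ε ↔ T *ᵥ v = ε • v := Module.End.mem_eigenspace_iff

theorem Lp_neg (h : PM Z) (hZ : ∀ i j, Z i j ∈ k) (σ : ℂ ≃+* ℂ) :
    Lp hZ (rs k σ) = Eg (DS Z σ) (-1) := by
  ext v
  rw [mem_neg h, mem_Eg, neg_one_smul]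

theorem Lp_pos (h : PM Z) (hZ : ∀ i j, Z i j ∈ k) (σ : ℂ ≃+* ℂ) :
    Lp hZ (rs k (cc.trans σ)) = Eg (DS Z σ) 1 := by
  ext v
  rw [mem_pos h, mem_Eg, one_smul]

section gen

variable {B : Type*} [Fintype B] [DecidableEq B]

/-- The dimensions of the parts in the eigenspaces of conjugate operators. -/
theorem finrank_transfer {T D γ γ' : Matrix B B ℂ} (h1 : T * γ = γ * D) (h2 : γ * γ' = 1)
    (h3 : γ' * γ = 1) {N : Submodule ℂ (B → ℂ)} (hγ : ∀ u ∈ N, γ *ᵥ u ∈ N)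
    (hγ' : ∀ u ∈ N, γ' *ᵥ u ∈ N) (ε : ℂ) :
    finrank ℂ (N ⊓ Eg T ε : Submodule ℂ (B → ℂ)) = finrank ℂ (N ⊓ Eg D ε : Submodule ℂ (B → ℂ)) := by
  have h4 : γ' * T = D * γ' := by
    calc γ' * T = γ' * T * (γ * γ') := by rw [h2, mul_one]
    _ = γ' * (T * γ) * γ' := by simp only [mul_assoc]
    _ = (γ' * γ) * D * γ' := by rw [h1]; simp only [mul_assoc]
    _ = D * γ' := by rw [h3, one_mul]
  have key : ∀ {T D γ γ' : Matrix B B ℂ}, T * γ = γ * D → γ' * γ = 1 →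
      (∀ u ∈ N, γ *ᵥ u ∈ N) → finrank ℂ (N ⊓ Eg D ε : Submodule ℂ (B → ℂ)) ≤
        finrank ℂ (N ⊓ Eg T ε : Submodule ℂ (B → ℂ)) := by
    intro T D γ γ' h1 h3 hγ
    have h5 : (N ⊓ Eg D ε : Submodule ℂ (B → ℂ)).map (mulVecLin γ) ≤ N ⊓ Eg T ε := by
      rintro _ ⟨u, ⟨hu, hu'⟩, rfl⟩
      refine ⟨hγ u hu, ?_⟩
      change γ *ᵥ u ∈ Eg T ε
      rw [mem_Eg, mulVec_mulVec, h1, ← mulVec_mulVec, mem_Eg.1 hu', mulVec_smul]
    refine le_trans (le_of_eq ?_) (Submodule.finrank_mono h5)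
    symm
    refine finrank_map_of_inj (T := mulVecLin γ) ?_
    intro u _ hu
    rw [mulVecLin_apply] at hu
    rw [← one_mulVec u, ← h3, ← mulVec_mulVec, hu, mulVec_zero]
  exact le_antisymm (key h4.symm h2 hγ') (key h1 h3 hγ)

/-- Involutions with the same eigenspace for `-1`. -/
theorem mul_of_neg {T D : Matrix B B ℂ} (hD : D * D = 1)
    (h : ∀ v, D *ᵥ v = -v → T *ᵥ v = -v) : T * D = T + 1 - D := by
  have h1 : T * (1 - D) = -(1 - D) := by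
    apply Matrix.toLin'.injective
    refine LinearMap.ext fun v => ?_
    rw [Matrix.toLin'_apply, Matrix.toLin'_apply, ← mulVec_mulVec, neg_mulVec]
    refine h _ ?_
    rw [mulVec_mulVec, mul_sub, mul_one, hD, ← neg_mulVec, neg_sub]
  rw [mul_sub, mul_one] at h1
  have h2 : T * D = T - (T - T * D) := by abel
  rw [h2, h1]
  abel

/-- Involutions with the same eigenspace for `1`. -/
theorem mul_of_pos {T D : Matrix B B ℂ} (hD : D * D = 1)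
    (h : ∀ v, D *ᵥ v = v → T *ᵥ v = v) : T * D = 1 + D - T := by
  have h1 : T * (1 + D) = 1 + D := by
    apply Matrix.toLin'.injective
    refine LinearMap.ext fun v => ?_
    rw [Matrix.toLin'_apply, Matrix.toLin'_apply, ← mulVec_mulVec]
    refine h _ ?_
    rw [mulVec_mulVec, mul_add, mul_one, hD, add_comm]
  rw [mul_add, mul_one] at h1
  have h2 : T * D = (T + T * D) - T := by abel
  rw [h2, h1]

end gen

/-- The letter of an involution with the same eigenspace for `-1`. -/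
theorem letter_neg (h : PM Z) {T : Matrix (Fin g ⊕ Fin g) (Fin g ⊕ Fin g) ℂ} (hT : T ∈ LZ Z)
    (hTT : T * T = 1) (hiff : ∀ v, T *ᵥ v = -v ↔ DZ Z *ᵥ v = -v) :
    ∃ Y ∈ LP Z (-1), T * (1 + Y) = (1 + Y) * DZ Z := by
  have h1 := mul_of_neg (DZ_sq h.det) fun v hv => (hiff v).2 hv
  have h2 := mul_of_neg hTT fun v hv => (hiff v).1 hv
  refine ⟨(1 / 2 : ℂ) • (T - DZ Z), ⟨Submodule.smul_mem _ _ (Submodule.sub_mem _ hT DZ_mem),
    ?_, ?_⟩, ?_⟩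
  · rw [Matrix.mul_smul, mul_sub, h2, DZ_sq h.det]
    module
  · rw [Matrix.smul_mul, sub_mul, h1, DZ_sq h.det]
    module
  · rw [mul_add, add_mul, mul_one, one_mul, Matrix.mul_smul, Matrix.smul_mul, mul_sub, sub_mul,
      h1, hTT, DZ_sq h.det]
    module

/-- The letter of an involution with the same eigenspace for `1`. -/
theorem letter_pos (h : PM Z) {T : Matrix (Fin g ⊕ Fin g) (Fin g ⊕ Fin g) ℂ} (hT : T ∈ LZ Z)
    (hTT : T * T = 1) (hiff : ∀ v, T *ᵥ v = v ↔ DZ Z *ᵥ v = v) :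
    ∃ X ∈ LP Z 1, T * (1 + X) = (1 + X) * DZ Z := by
  have h1 := mul_of_pos (DZ_sq h.det) fun v hv => (hiff v).2 hv
  have h2 := mul_of_pos hTT fun v hv => (hiff v).1 hv
  refine ⟨(1 / 2 : ℂ) • (DZ Z - T), ⟨Submodule.smul_mem _ _ (Submodule.sub_mem _ DZ_mem hT),
    ?_, ?_⟩, ?_⟩
  · rw [Matrix.mul_smul, mul_sub, h2, DZ_sq h.det]
    module
  · rw [Matrix.smul_mul, sub_mul, h1, DZ_sq h.det]
    module
  · rw [mul_add, add_mul, mul_one, one_mul, Matrix.mul_smul, Matrix.smul_mul, mul_sub, sub_mul,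
      h1, hTT, DZ_sq h.det]
    module

theorem inv_one {B : Type*} [Fintype B] [DecidableEq B] {Y : Matrix B B ℂ} (hY : Y * Y = 0) :
    (1 + Y) * (1 - Y) = 1 ∧ (1 - Y) * (1 + Y) = 1 := by
  refine ⟨?_, ?_⟩
  · have h1 : (1 + Y) * (1 - Y) = 1 - Y * Y := by noncomm_ring
    rw [h1, hY, sub_zero]
  · have h1 : (1 - Y) * (1 + Y) = 1 - Y * Y := by noncomm_ring
    rw [h1, hY, sub_zero]

/-- Conjugation by unipotent elements. -/
theorem conj_mem {T Y : Matrix (Fin g ⊕ Fin g) (Fin g ⊕ Fin g) ℂ} (hT : T ∈ LZ Z)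
    (hY : Y ∈ LZ Z) (hYY : Y * Y = 0) : (1 - Y) * T * (1 + Y) ∈ LZ Z := by
  have h1 : (1 - Y) * T * (1 + Y) = T + (T * Y - Y * T) +
      (1 / 2 : ℂ) • (Y * (Y * T - T * Y) - (Y * T - T * Y) * Y) := by
    have h2 : Y * (Y * T - T * Y) - (Y * T - T * Y) * Y = -((2 : ℂ) • (Y * T * Y)) := by
      have h3 : Y * (Y * T - T * Y) - (Y * T - T * Y) * Y =
          (Y * Y) * T + T * (Y * Y) - Y * T * Y - Y * T * Y := by noncomm_ring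
      rw [h3, hYY, zero_mul, mul_zero, two_smul]
      abel
    rw [h2, smul_neg, smul_smul]
    norm_num
    noncomm_ring
  rw [h1]
  exact Submodule.add_mem _ (Submodule.add_mem _ hT (LZ_br hT hY))
    (Submodule.smul_mem _ _ (LZ_br hY (LZ_br hY hT)))

/-- The letters of a path, with the dimensions of the parts of a subspace which is stable under
them. -/
theorem exists_letters (h : PM Z) (hZ : ∀ i j, Z i j ∈ k) (z : Fin 6 → (k →+* ℂ))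
    (h2 : z 2 = rs k (RingEquiv.refl ℂ)) (h3 : z 3 = rs k (cc.trans (RingEquiv.refl ℂ)))
    (e1 : Ed k (z 2) (z 1)) (e0 : Ed k (z 0) (z 1)) (e4 : Ed k (z 4) (z 3))
    (e5 : Ed k (z 4) (z 5)) :
    ∃ X₁ ∈ LP Z 1, ∃ X₂ ∈ LP Z 1, ∃ Y₁ ∈ LP Z (-1), ∃ Y₂ ∈ LP Z (-1),
      ∀ N : Submodule ℂ (Fin g ⊕ Fin g → ℂ), (∀ u ∈ N, DZ Z *ᵥ u ∈ N) →
        (∀ u ∈ N, X₁ *ᵥ u ∈ N) → (∀ u ∈ N, X₂ *ᵥ u ∈ N) → (∀ u ∈ N, Y₁ *ᵥ u ∈ N) →
        (∀ u ∈ N, Y₂ *ᵥ u ∈ N) → ∃ a b : ℕ, a + b = finrank ℂ N ∧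
          ∀ i : Fin 6, finrank ℂ (N ⊓ Lp hZ (z i) : Submodule ℂ (Fin g ⊕ Fin g → ℂ)) =
            if i.1 % 2 = 0 then a else b := by
  have hDS : DS Z (RingEquiv.refl ℂ) = DZ Z := by
    ext i j
    rfl
  have hL2 : Lp hZ (z 2) = Eg (DZ Z) (-1) := by rw [h2, Lp_neg h, hDS]
  have hL3 : Lp hZ (z 3) = Eg (DZ Z) 1 := by rw [h3, Lp_pos h, hDS]
  obtain ⟨σ₁, a1, b1⟩ := e1
  obtain ⟨σ₀, a0, b0⟩ := e0
  obtain ⟨σ₄, a4, b4⟩ := e4
  obtain ⟨σ₅, a5, b5⟩ := e5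
  have b1' : rs k (cc.trans σ₁) = z 1 := b1
  have b0' : rs k (cc.trans σ₀) = z 1 := b0
  have b4' : rs k (cc.trans σ₄) = z 3 := b4
  have b5' : rs k (cc.trans σ₅) = z 5 := b5
  have q2 : Lp hZ (z 2) = Eg (DS Z σ₁) (-1) := by rw [← a1, Lp_neg h]
  have q1 : Lp hZ (z 1) = Eg (DS Z σ₁) 1 := by rw [← b1', Lp_pos h]
  have q0 : Lp hZ (z 0) = Eg (DS Z σ₀) (-1) := by rw [← a0, Lp_neg h]
  have q1' : Lp hZ (z 1) = Eg (DS Z σ₀) 1 := by rw [← b0', Lp_pos h]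
  have q4 : Lp hZ (z 4) = Eg (DS Z σ₄) (-1) := by rw [← a4, Lp_neg h]
  have q3 : Lp hZ (z 3) = Eg (DS Z σ₄) 1 := by rw [← b4', Lp_pos h]
  have q4' : Lp hZ (z 4) = Eg (DS Z σ₅) (-1) := by rw [← a5, Lp_neg h]
  have q5 : Lp hZ (z 5) = Eg (DS Z σ₅) 1 := by rw [← b5', Lp_pos h]
  -- first letters
  obtain ⟨Y₁, hY₁, hT₁⟩ := letter_neg h (DS_mem σ₁) (DS_sq h.det σ₁) fun v => by
    have h4 : v ∈ Eg (DS Z σ₁) (-1) ↔ v ∈ Eg (DZ Z) (-1) := by rw [← q2, hL2]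
    rwa [mem_Eg, mem_Eg, neg_one_smul] at h4
  obtain ⟨X₁, hX₁, hT₄⟩ := letter_pos h (DS_mem σ₄) (DS_sq h.det σ₄) fun v => by
    have h4 : v ∈ Eg (DS Z σ₄) 1 ↔ v ∈ Eg (DZ Z) 1 := by rw [← q3, hL3]
    rwa [mem_Eg, mem_Eg, one_smul] at h4
  have hYY := LP_sq (by norm_num) hY₁ hY₁
  have hXX := LP_sq one_ne_zero hX₁ hX₁
  obtain ⟨iY, iY'⟩ := inv_one hYY
  obtain ⟨iX, iX'⟩ := inv_one hXX
  -- eigenvectors of the first conjugates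
  have p1 : ∀ v, DZ Z *ᵥ v = v ↔ (1 + Y₁) *ᵥ v ∈ Eg (DS Z σ₁) 1 := by
    intro v
    rw [mem_Eg, one_smul, mulVec_mulVec, hT₁, ← mulVec_mulVec]
    constructor
    · intro h4
      rw [h4]
    · intro h4
      have h5 := congrArg (fun w => (1 - Y₁) *ᵥ w) h4
      beta_reduce at h5
      rwa [mulVec_mulVec, iY', one_mulVec, mulVec_mulVec, iY', one_mulVec] at h5
  have p4 : ∀ v, DZ Z *ᵥ v = -v ↔ (1 + X₁) *ᵥ v ∈ Eg (DS Z σ₄) (-1) := by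
    intro v
    rw [mem_Eg, neg_one_smul, mulVec_mulVec, hT₄, ← mulVec_mulVec]
    constructor
    · intro h4
      rw [h4, mulVec_neg]
    · intro h4
      have h5 := congrArg (fun w => (1 - X₁) *ᵥ w) h4
      beta_reduce at h5
      rwa [mulVec_mulVec, iX', one_mulVec, mulVec_neg, mulVec_mulVec, iX', one_mulVec] at h5
  -- second letters
  have hcY : ∀ {T : Matrix (Fin g ⊕ Fin g) (Fin g ⊕ Fin g) ℂ} (v : Fin g ⊕ Fin g → ℂ) (ε : ℂ),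
      ((1 - Y₁) * T * (1 + Y₁)) *ᵥ v = ε • v ↔ (1 + Y₁) *ᵥ v ∈ Eg T ε := by
    intro T v ε
    rw [mem_Eg, ← mulVec_mulVec, ← mulVec_mulVec]
    constructor
    · intro h4
      have h5 := congrArg (fun w => (1 + Y₁) *ᵥ w) h4
      beta_reduce at h5
      rwa [mulVec_mulVec, iY, one_mulVec, mulVec_smul] at h5
    · intro h4
      rw [h4, mulVec_smul, mulVec_mulVec, iY', one_mulVec]
  have hcX : ∀ {T : Matrix (Fin g ⊕ Fin g) (Fin g ⊕ Fin g) ℂ} (v : Fin g ⊕ Fin g → ℂ) (ε : ℂ),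
      ((1 - X₁) * T * (1 + X₁)) *ᵥ v = ε • v ↔ (1 + X₁) *ᵥ v ∈ Eg T ε := by
    intro T v ε
    rw [mem_Eg, ← mulVec_mulVec, ← mulVec_mulVec]
    constructor
    · intro h4
      have h5 := congrArg (fun w => (1 + X₁) *ᵥ w) h4
      beta_reduce at h5
      rwa [mulVec_mulVec, iX, one_mulVec, mulVec_smul] at h5
    · intro h4
      rw [h4, mulVec_smul, mulVec_mulVec, iX', one_mulVec]
  have hsq : ∀ {T γ γ' : Matrix (Fin g ⊕ Fin g) (Fin g ⊕ Fin g) ℂ}, T * T = 1 → γ' * γ = 1 →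
      γ * γ' = 1 → (γ' * T * γ) * (γ' * T * γ) = 1 := by
    intro T γ γ' h4 h5 h6
    calc (γ' * T * γ) * (γ' * T * γ) = γ' * T * (γ * γ') * T * γ := by simp only [mul_assoc]
    _ = γ' * (T * T) * γ := by rw [h6, mul_one]; simp only [mul_assoc]
    _ = 1 := by rw [h4, mul_one, h5]
  obtain ⟨X₂, hX₂, hT₀⟩ := letter_pos h (conj_mem (DS_mem σ₀) hY₁.1 hYY)
    (hsq (DS_sq h.det σ₀) iY' iY) fun v => by
    have h4 := hcY (T := DS Z σ₀) v 1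
    rw [one_smul] at h4
    rw [h4, p1, ← q1, q1']
  obtain ⟨Y₂, hY₂, hT₅⟩ := letter_neg h (conj_mem (DS_mem σ₅) hX₁.1 hXX)
    (hsq (DS_sq h.det σ₅) iX' iX) fun v => by
    have h4 := hcX (T := DS Z σ₅) v (-1)
    rw [neg_one_smul] at h4
    rw [h4, p4, ← q4, q4']
  obtain ⟨jX, jX'⟩ := inv_one (LP_sq one_ne_zero hX₂ hX₂)
  obtain ⟨jY, jY'⟩ := inv_one (LP_sq (by norm_num) hY₂ hY₂)
  have hT₀' : DS Z σ₀ * ((1 + Y₁) * (1 + X₂)) = ((1 + Y₁) * (1 + X₂)) * DZ Z := by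
    calc DS Z σ₀ * ((1 + Y₁) * (1 + X₂)) =
        ((1 + Y₁) * (1 - Y₁)) * DS Z σ₀ * (1 + Y₁) * (1 + X₂) := by
          rw [iY, one_mul]
          simp only [mul_assoc]
    _ = (1 + Y₁) * ((1 - Y₁) * DS Z σ₀ * (1 + Y₁) * (1 + X₂)) := by simp only [mul_assoc]
    _ = _ := by rw [hT₀]; simp only [mul_assoc]
  have hT₅' : DS Z σ₅ * ((1 + X₁) * (1 + Y₂)) = ((1 + X₁) * (1 + Y₂)) * DZ Z := by
    calc DS Z σ₅ * ((1 + X₁) * (1 + Y₂)) =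
        ((1 + X₁) * (1 - X₁)) * DS Z σ₅ * (1 + X₁) * (1 + Y₂) := by
          rw [iX, one_mul]
          simp only [mul_assoc]
    _ = (1 + X₁) * ((1 - X₁) * DS Z σ₅ * (1 + X₁) * (1 + Y₂)) := by simp only [mul_assoc]
    _ = _ := by rw [hT₅]; simp only [mul_assoc]
  have hinv2 : ∀ {α α' β β' : Matrix (Fin g ⊕ Fin g) (Fin g ⊕ Fin g) ℂ}, α * α' = 1 →
      β * β' = 1 → (α * β) * (β' * α') = 1 := by
    intro α α' β β' h4 h5
    calc (α * β) * (β' * α') = α * (β * β') * α' := by simp only [mul_assoc]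
    _ = 1 := by rw [h5, mul_one, h4]
  refine ⟨X₁, hX₁, X₂, hX₂, Y₁, hY₁, Y₂, hY₂, fun N nD nX₁ nX₂ nY₁ nY₂ => ?_⟩
  have sadd : ∀ {W : Matrix (Fin g ⊕ Fin g) (Fin g ⊕ Fin g) ℂ}, (∀ u ∈ N, W *ᵥ u ∈ N) →
      (∀ u ∈ N, (1 + W) *ᵥ u ∈ N) ∧ ∀ u ∈ N, (1 - W) *ᵥ u ∈ N := by
    intro W hW
    refine ⟨fun u hu => ?_, fun u hu => ?_⟩
    · rw [add_mulVec, one_mulVec]
      exact N.add_mem hu (hW u hu)
    · rw [sub_mulVec, one_mulVec]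
      exact N.sub_mem hu (hW u hu)
  have smul : ∀ {W W' : Matrix (Fin g ⊕ Fin g) (Fin g ⊕ Fin g) ℂ}, (∀ u ∈ N, W *ᵥ u ∈ N) →
      (∀ u ∈ N, W' *ᵥ u ∈ N) → ∀ u ∈ N, (W * W') *ᵥ u ∈ N := by
    intro W W' hW hW' u hu
    rw [← mulVec_mulVec]
    exact hW _ (hW' u hu)
  obtain ⟨sX₁, sX₁'⟩ := sadd nX₁
  obtain ⟨sX₂, sX₂'⟩ := sadd nX₂
  obtain ⟨sY₁, sY₁'⟩ := sadd nY₁
  obtain ⟨sY₂, sY₂'⟩ := sadd nY₂
  refine ⟨finrank ℂ (N ⊓ Eg (DZ Z) (-1) : Submodule ℂ (Fin g ⊕ Fin g → ℂ)),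
    finrank ℂ (N ⊓ Eg (DZ Z) 1 : Submodule ℂ (Fin g ⊕ Fin g → ℂ)), ?_, ?_⟩
  · have h4 := Submodule.finrank_sup_add_finrank_inf_eq (N ⊓ Eg (DZ Z) (-1)) (N ⊓ Eg (DZ Z) 1)
    have h5 : (N ⊓ Eg (DZ Z) (-1)) ⊓ (N ⊓ Eg (DZ Z) 1) = ⊥ := by
      rw [eq_bot_iff]
      rintro v ⟨⟨-, hv⟩, -, hv'⟩
      have e1 := mem_Eg.1 hv
      have e2 := mem_Eg.1 hv'
      rw [e1, ← sub_eq_zero, ← sub_smul] at e2
      rw [Submodule.mem_bot]
      exact (smul_eq_zero.1 e2).resolve_left (by norm_num)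
    have h6 : (N ⊓ Eg (DZ Z) (-1)) ⊔ (N ⊓ Eg (DZ Z) 1) = N := by
      apply le_antisymm (sup_le inf_le_left inf_le_left)
      intro v hv
      have h7 : DZ Z *ᵥ (DZ Z *ᵥ v) = v := by rw [mulVec_mulVec, DZ_sq h.det, one_mulVec]
      have h8 : v = (1 / 2 : ℂ) • (v - DZ Z *ᵥ v) + (1 / 2 : ℂ) • (v + DZ Z *ᵥ v) := by module
      rw [h8]
      refine Submodule.add_mem_sup ⟨N.smul_mem _ (N.sub_mem hv (nD v hv)), ?_⟩
        ⟨N.smul_mem _ (N.add_mem hv (nD v hv)), ?_⟩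
      · change _ ∈ Eg (DZ Z) (-1)
        rw [mem_Eg, mulVec_smul, mulVec_sub, h7]
        module
      · change _ ∈ Eg (DZ Z) 1
        rw [mem_Eg, mulVec_smul, mulVec_add, h7]
        module
    rw [h5, h6, finrank_bot, add_zero] at h4
    exact h4.symm
  · intro i
    fin_cases i
    · change finrank ℂ (N ⊓ Lp hZ (z 0) : Submodule ℂ (Fin g ⊕ Fin g → ℂ)) = _
      rw [q0, if_pos (by decide)]
      exact finrank_transfer hT₀' (hinv2 iY jX) (hinv2 jX' iY') (smul sY₁ sX₂) (smul sX₂' sY₁') _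
    · change finrank ℂ (N ⊓ Lp hZ (z 1) : Submodule ℂ (Fin g ⊕ Fin g → ℂ)) = _
      rw [q1, if_neg (by decide)]
      exact finrank_transfer hT₁ iY iY' sY₁ sY₁' _
    · change finrank ℂ (N ⊓ Lp hZ (z 2) : Submodule ℂ (Fin g ⊕ Fin g → ℂ)) = _
      rw [hL2, if_pos (by decide)]
    · change finrank ℂ (N ⊓ Lp hZ (z 3) : Submodule ℂ (Fin g ⊕ Fin g → ℂ)) = _
      rw [hL3, if_neg (by decide)]
    · change finrank ℂ (N ⊓ Lp hZ (z 4) : Submodule ℂ (Fin g ⊕ Fin g → ℂ)) = _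
      rw [q4, if_pos (by decide)]
      exact finrank_transfer hT₄ iX iX' sX₁ sX₁' _
    · change finrank ℂ (N ⊓ Lp hZ (z 5) : Submodule ℂ (Fin g ⊕ Fin g → ℂ)) = _
      rw [q5, if_neg (by decide)]
      exact finrank_transfer hT₅' (hinv2 iX jY) (hinv2 jY' iX') (smul sX₁ sY₂) (smul sY₂' sX₁') _

end

end Pool.Agent.N994.PG
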