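import Mathlib
import Pool.Agent.N994.PG.Path

/-!
# Elements of rank one from a path of linked embeddings
-/

set_option linter.unusedSectionVars false

namespace Pool.Agent.N994.PG

open Matrix Module Pool.Agent.W437.HC Pool.Agent.W437.HD Pool.Agent.Y90 Pool.Agent.R915
open Pool.Agent.W548.Odd hiding cv
open Pool.Agent.N994.PF (rs Zk InL Ed Sys PP PP_eq comb card_emb)

noncomputable section

variable {g : ℕ} {Z : Matrix (Fin g) (Fin g) ℂ} {k : IntermediateField ℚ ℂ}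

theorem eg_disj {B : Type*} [Fintype B] (T : Matrix B B ℂ) (N : Submodule ℂ (B → ℂ)) :
    (N ⊓ Eg T (-1)) ⊓ (N ⊓ Eg T 1) = ⊥ := by
  rw [eq_bot_iff]
  rintro v ⟨⟨-, hv⟩, -, hv'⟩
  have e1 := mem_Eg.1 hv
  have e2 := mem_Eg.1 hv'
  rw [e1, ← sub_eq_zero, ← sub_smul] at e2
  rw [Submodule.mem_bot]
  exact (smul_eq_zero.1 e2).resolve_left (by norm_num)

/-- The dimensions of the parts in linked Lagrangian subspaces. -/
theorem edge_le (h : PM Z) (hZ : ∀ i j, Z i j ∈ k) {p q : k →+* ℂ} (he : Ed k p q)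
    (N : Submodule ℂ (Fin g ⊕ Fin g → ℂ)) :
    finrank ℂ (N ⊓ Lp hZ p : Submodule ℂ (Fin g ⊕ Fin g → ℂ)) +
      finrank ℂ (N ⊓ Lp hZ q : Submodule ℂ (Fin g ⊕ Fin g → ℂ)) ≤ finrank ℂ N := by
  obtain ⟨σ, h1, h2⟩ := he
  have h2' : rs k (cc.trans σ) = q := h2
  rw [← h1, ← h2', Lp_neg h, Lp_pos h]
  have h3 := Submodule.finrank_sup_add_finrank_inf_eq (N ⊓ Eg (DS Z σ) (-1)) (N ⊓ Eg (DS Z σ) 1)
  rw [eg_disj, finrank_bot, add_zero] at h3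
  rw [← h3]
  exact Submodule.finrank_mono (sup_le inf_le_left inf_le_left)

/-- Stability. -/
theorem stab_of_dim (h : PM Z) (hZ : ∀ i j, Z i j ∈ k) (σ : ℂ ≃+* ℂ)
    (N : Submodule ℂ (Fin g ⊕ Fin g → ℂ))
    (hd : finrank ℂ (N ⊓ Lp hZ (rs k σ) : Submodule ℂ (Fin g ⊕ Fin g → ℂ)) +
      finrank ℂ (N ⊓ Lp hZ (rs k (cc.trans σ)) : Submodule ℂ (Fin g ⊕ Fin g → ℂ)) =
        finrank ℂ N) : ∀ u ∈ N, DS Z σ *ᵥ u ∈ N := by
  rw [Lp_neg h, Lp_pos h] at hd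
  have h3 := Submodule.finrank_sup_add_finrank_inf_eq (N ⊓ Eg (DS Z σ) (-1)) (N ⊓ Eg (DS Z σ) 1)
  rw [eg_disj, finrank_bot, add_zero] at h3
  have h4 : (N ⊓ Eg (DS Z σ) (-1)) ⊔ (N ⊓ Eg (DS Z σ) 1) = N :=
    Submodule.eq_of_le_of_finrank_le (sup_le inf_le_left inf_le_left) (by rw [h3, hd])
  intro u hu
  rw [← h4] at hu
  obtain ⟨x, ⟨hx, hx'⟩, y, ⟨hy, hy'⟩, rfl⟩ := Submodule.mem_sup.1 hu
  rw [mulVec_add, mem_Eg.1 hx', mem_Eg.1 hy']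
  exact N.add_mem (N.smul_mem _ hx) (N.smul_mem _ hy)

/-- A path of linked embeddings which passes through all embeddings. -/
structure IsPath (k : IntermediateField ℚ ℂ) (z : Fin 6 → (k →+* ℂ)) : Prop where
  two : z 2 = rs k (RingEquiv.refl ℂ)
  three : z 3 = rs k (cc.trans (RingEquiv.refl ℂ))
  e1 : Ed k (z 2) (z 1)
  e0 : Ed k (z 0) (z 1)
  e4 : Ed k (z 4) (z 3)
  e5 : Ed k (z 4) (z 5)
  cov : ∀ p, ∃ i, z i = p
  par : (∀ i j : Fin 6, Ed k (z i) (z j) → i.1 % 2 ≠ j.1 % 2) ∨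
    (∃ i j : Fin 6, i.1 % 2 ≠ j.1 % 2 ∧ z i = z j) ∨
    ((∃ i j : Fin 6, i.1 % 2 = 0 ∧ j.1 % 2 = 0 ∧ Ed k (z i) (z j)) ∧
      ∃ i j : Fin 6, i.1 % 2 = 1 ∧ j.1 % 2 = 1 ∧ Ed k (z i) (z j))

/-- **Elements of rank one from a path of linked embeddings.** -/
theorem rk1_path (h : PM Z) (hZ : ∀ i j, Z i j ∈ k) {U : Submodule ℂ (Fin g ⊕ Fin g → ℂ)}
    (hU : IrS (LZ Z) U) (b : (Fin g ⊕ Fin g → ℂ) →ₗ[ℂ] (Fin g ⊕ Fin g → ℂ) →ₗ[ℂ] ℂ)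
    (h0 : ∃ u ∈ U, ∃ v ∈ U, b u v ≠ 0)
    (hb : ∀ X ∈ LZ Z, ∀ u ∈ U, ∀ v ∈ U, b (X *ᵥ u) v + b u (X *ᵥ v) = 0)
    (halt : ∀ u ∈ U, ∀ v ∈ U, b u v = -b v u) {z : Fin 6 → (k →+* ℂ)} (hz : IsPath k z) :
    Rk1 Z U := by
  obtain ⟨X₁, hX₁, X₂, hX₂, Y₁, hY₁, Y₂, hY₂, hN⟩ := exists_letters h hZ z hz.two hz.three hz.e1
    hz.e0 hz.e4 hz.e5
  have two : ∀ {A B : Matrix (Fin g ⊕ Fin g) (Fin g ⊕ Fin g) ℂ}, ∀ a ∈ ({A, B} : Set _),
      ∀ b ∈ ({A, B} : Set _), ∀ c ∈ ({A, B} : Set _), a = b ∨ b = c ∨ a = c := by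
    rintro A B a (rfl | rfl) b (rfl | rfl) c (rfl | rfl) <;> tauto
  refine rk1_letters h hU b h0 hb halt (X := {X₁, X₂}) (Y := {Y₁, Y₂}) ?_ ?_ two two ?_
  · rintro x (rfl | rfl)
    · exact hX₁
    · exact hX₂
  · rintro x (rfl | rfl)
    · exact hY₁
    · exact hY₂
  intro N hNU nD nX nY
  obtain ⟨a, b', hab, hdim⟩ := hN N nD (nX X₁ (Or.inl rfl)) (nX X₂ (Or.inr rfl))
    (nY Y₁ (Or.inl rfl)) (nY Y₂ (Or.inr rfl))
  refine hU.2.2 N hNU (stab_LZ fun σ => stab_of_dim h hZ σ N ?_)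
  obtain ⟨i, hi⟩ := hz.cov (rs k σ)
  obtain ⟨j, hj⟩ := hz.cov (rs k (cc.trans σ))
  have hE : Ed k (z i) (z j) := by
    rw [hi, hj]
    exact ⟨σ, rfl, rfl⟩
  rw [← hi, ← hj, hdim, hdim, ← hab]
  have hcase : i.1 % 2 ≠ j.1 % 2 ∨ a = b' := by
    rcases hz.par with h1 | ⟨i', j', h1, h2⟩ | ⟨⟨i', j', h1, h2, h3⟩, i'', j'', h4, h5, h6⟩
    · exact Or.inl (h1 i j hE)
    · right
      have e1 := hdim i'
      have e2 := hdim j'
      rw [h2, e2] at e1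
      rcases Nat.mod_two_eq_zero_or_one i'.1 with h3 | h3
      · have h4 : ¬ j'.1 % 2 = 0 := by omega
        rw [if_pos h3, if_neg h4] at e1
        exact e1.symm
      · have h4 : ¬ i'.1 % 2 = 0 := by omega
        have h5 : j'.1 % 2 = 0 := by omega
        rw [if_neg h4, if_pos h5] at e1
        exact e1
    · right
      have e1 := edge_le h hZ h3 N
      have e2 := edge_le h hZ h6 N
      rw [hdim, hdim, if_pos h1, if_pos h2, ← hab] at e1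
      rw [hdim, hdim, if_neg (by omega), if_neg (by omega), ← hab] at e2
      omega
  rcases hcase with h1 | h1
  · rcases Nat.mod_two_eq_zero_or_one i.1 with h3 | h3
    · rw [if_pos h3, if_neg (by omega)]
    · rw [if_neg (by omega), if_pos (by omega), add_comm]
  · rw [h1, ite_self, ite_self]

end

end Pool.Agent.N994.PG
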