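import Mathlib
import Pool.Agent.N994.PG.Irr
import Pool.Agent.N994.PG.Comb

/-!
# The graph of the linked embeddings of a number field
-/

set_option linter.unusedSectionVars false

namespace Pool.Agent.N994.PG

open Matrix Module Pool.Agent.W437.HC Pool.Agent.W437.HD Pool.Agent.Y90 Pool.Agent.R915
open Pool.Agent.W548.Odd hiding cv
open Pool.Agent.N994.PF (rs Zk InL Ed Sys PP PP_eq comb card_emb)
open Pool.Agent.Y4 (exists_aut_emb)

noncomputable section

variable {k : IntermediateField ℚ ℂ}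

/-- The only real numbers in `k` are the rational numbers. -/
def NoReal (k : IntermediateField ℚ ℂ) : Prop := ∀ x ∈ k, x.im = 0 → ∃ q : ℚ, (q : ℂ) = x

/-- The graph of the linked embeddings is connected. -/
theorem conn [FiniteDimensional ℚ k] (hk : NoReal k) (S : Set (k →+* ℂ)) (hS : S.Nonempty)
    (hE : ∀ a ∈ S, ∀ b, Ed k a b → b ∈ S) : S = Set.univ := by
  have nk : NumberField k := ⟨⟩
  let N : IntermediateField ℚ ℂ := IntermediateField.normalClosure ℚ k ℂ
  have hNn : Normal ℚ N := by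
    have h1 : IsNormalClosure ℚ k N := Algebra.IsAlgebraic.isNormalClosure_normalClosure
      fun x => IsAlgClosed.splits _
    exact h1.normal
  have hNf : FiniteDimensional ℚ N := inferInstance
  have nN : NumberField N := ⟨⟩
  have hNg : IsGalois ℚ N := ⟨⟩
  have hkN : k ≤ N := IntermediateField.le_normalClosure k
  let ι : k →+* N := (IntermediateField.inclusion hkN : k →+* N)
  have hι : ∀ x : k, ((ι x : N) : ℂ) = x := fun x => rfl
  -- the embedding given by an automorphism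
  let emb : (N ≃ₐ[ℚ] N) → (k →+* ℂ) := fun ρ =>
    ((algebraMap N ℂ).comp (ρ : N →+* N)).comp ι
  have hemb : ∀ ρ x, emb ρ x = ((ρ (ι x) : N) : ℂ) := fun _ _ => rfl
  let res : (ℂ ≃+* ℂ) → (N ≃ₐ[ℚ] N) := fun σ => (RingEquiv.toRatAlgEquiv σ).restrictNormal N
  have hres : ∀ σ (x : N), ((res σ x : N) : ℂ) = σ x := fun σ x =>
    AlgEquiv.restrictNormal_commutes (RingEquiv.toRatAlgEquiv σ) N x
  have hext : ∀ ρ : N ≃ₐ[ℚ] N, ∃ σ : ℂ ≃+* ℂ, ∀ x : N, σ x = ρ x := by
    intro ρ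
    obtain ⟨σ, hσ⟩ := exists_aut_emb (algebraMap N ℂ) ((algebraMap N ℂ).comp (ρ : N →+* N))
    exact ⟨σ, fun x => congrArg (fun t : N →+* ℂ => t x) hσ⟩
  let P : (N ≃ₐ[ℚ] N) → Prop := fun τ => ∀ ρ, emb ρ ∈ S → emb (ρ * τ) ∈ S
  let H : Subgroup (N ≃ₐ[ℚ] N) :=
    { carrier := {τ | P τ ∧ P τ⁻¹}
      mul_mem' := by
        rintro a b ⟨ha, ha'⟩ ⟨hb, hb'⟩
        refine ⟨fun ρ hρ => ?_, fun ρ hρ => ?_⟩
        · rw [← mul_assoc]
          exact hb _ (ha ρ hρ)
        · rw [_root_.mul_inv_rev, ← mul_assoc]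
          exact ha' _ (hb' ρ hρ)
      one_mem' := by
        refine ⟨fun ρ hρ => ?_, fun ρ hρ => ?_⟩
        · rwa [mul_one]
        · rwa [_root_.inv_one, mul_one]
      inv_mem' := by
        rintro a ⟨ha, ha'⟩
        exact ⟨ha', by rwa [inv_inv]⟩ }
  let k' : IntermediateField ℚ N := IntermediateField.restrict hkN
  have hk' : ∀ x : N, x ∈ k' ↔ (x : ℂ) ∈ k := fun x => IntermediateField.mem_restrict hkN x
  have hfix : k'.fixingSubgroup ≤ H := by
    have key : ∀ τ ∈ k'.fixingSubgroup, P τ := by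
      intro τ hτ ρ hρ
      have h1 : emb (ρ * τ) = emb ρ := by
        ext x
        rw [hemb, hemb, AlgEquiv.mul_apply]
        have h2 : τ (ι x) = ι x := (IntermediateField.mem_fixingSubgroup_iff _ _).1 hτ _
          ((hk' _).2 x.2)
        rw [h2]
      rwa [h1]
    exact fun τ hτ => ⟨key τ hτ, key _ (inv_mem hτ)⟩
  have hcc : res cc ∈ H := by
    have key : P (res cc) := by
      intro ρ hρ
      refine hE _ hρ _ ?_
      obtain ⟨σ, hσ⟩ := hext ρ
      refine ⟨σ, ?_, ?_⟩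
      · ext x
        rw [hemb, ← hσ]
        rfl
      · ext x
        rw [hemb, AlgEquiv.mul_apply, ← hσ, hres]
        rfl
    have h2 : (res cc)⁻¹ = res cc := by
      rw [inv_eq_iff_mul_eq_one]
      apply AlgEquiv.ext
      intro x
      apply Subtype.ext
      rw [AlgEquiv.mul_apply, hres, hres]
      exact Complex.conj_conj _
    exact ⟨key, by rw [h2]; exact key⟩
  have hH : H = ⊤ := by
    have h1 : IntermediateField.fixedField H = ⊥ := by
      rw [eq_bot_iff]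
      intro x hx
      rw [IntermediateField.mem_fixedField_iff] at hx
      have h2 : x ∈ IntermediateField.fixedField k'.fixingSubgroup := by
        rw [IntermediateField.mem_fixedField_iff]
        exact fun f hf => hx f (hfix hf)
      rw [IsGalois.fixedField_fixingSubgroup, hk'] at h2
      have h3 := hx _ hcc
      have h4 : (starRingEnd ℂ) (x : ℂ) = x := by
        have h5 := hres cc x
        rw [h3] at h5
        exact h5.symm
      obtain ⟨q, hq⟩ := hk x h2 (Complex.conj_eq_iff_im.1 h4)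
      rw [IntermediateField.mem_bot]
      refine ⟨q, ?_⟩
      apply Subtype.ext
      rw [← hq]
      simp
    rw [← IntermediateField.fixingSubgroup_fixedField H, h1, IntermediateField.fixingSubgroup_bot]
  have hall : ∀ a : k →+* ℂ, ∃ ρ, emb ρ = a := by
    intro a
    obtain ⟨σ, hσ⟩ := exists_aut_emb (algebraMap k ℂ) a
    refine ⟨res σ, ?_⟩
    ext x
    rw [hemb, hres, ← hσ]
    rfl
  obtain ⟨a, ha⟩ := hS
  obtain ⟨ρ₀, rfl⟩ := hall a
  rw [Set.eq_univ_iff_forall]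
  intro b
  obtain ⟨ρ, rfl⟩ := hall b
  have h1 : ρ₀⁻¹ * ρ ∈ H := by rw [hH]; exact Subgroup.mem_top _
  have h2 := h1.1 ρ₀ ha
  rwa [mul_inv_cancel_left] at h2

/-- The graph of the linked embeddings. -/
theorem gr [FiniteDimensional ℚ k] (hk : NoReal k) (hi : ∀ p, ¬ Ed k p p) : Gr (Ed k) where
  symm := fun _ _ h => h.symm
  irr := hi
  hom := by
    have nk : NumberField k := ⟨⟩
    intro p p'
    obtain ⟨ρ, hρ⟩ := exists_aut_emb p p'
    refine ⟨fun q => (ρ : ℂ →+* ℂ).comp q, ?_, hρ, fun a b h => h.comp ρ⟩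
    intro a b hab
    ext x
    have h1 := congrArg (fun t : k →+* ℂ => t x) hab
    exact ρ.injective h1
  conn := conn hk

/-- Moving a family of embeddings. -/
theorem move_edge [FiniteDimensional ℚ k] {n : ℕ} (w : Fin n → (k →+* ℂ)) {a b : Fin n}
    (hw : Ed k (w a) (w b)) :
    ∃ z : Fin n → (k →+* ℂ), z a = rs k (RingEquiv.refl ℂ) ∧
      z b = rs k (cc.trans (RingEquiv.refl ℂ)) ∧
      (∀ i j, Ed k (z i) (z j) ↔ Ed k (w i) (w j)) ∧ (∀ i j, z i = z j ↔ w i = w j) ∧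
      (Function.Surjective w → Function.Surjective z) := by
  obtain ⟨σ, h1, h2⟩ := hw
  have hinj : ∀ (ρ : ℂ ≃+* ℂ) (a b : k →+* ℂ), (ρ : ℂ →+* ℂ).comp a = (ρ : ℂ →+* ℂ).comp b →
      a = b := by
    intro ρ a b hab
    ext x
    have h1 := congrArg (fun t : k →+* ℂ => t x) hab
    exact ρ.injective h1
  have hsy : ∀ a : k →+* ℂ, (σ : ℂ →+* ℂ).comp ((σ.symm : ℂ →+* ℂ).comp a) = a := by
    intro a
    ext x
    exact σ.apply_symm_apply _
  refine ⟨fun i => (σ.symm : ℂ →+* ℂ).comp (w i), ?_, ?_, fun i j => ⟨fun h => ?_, fun h =>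
    h.comp _⟩, fun i j => ⟨fun h => hinj _ _ _ h, fun h => ?_⟩, fun hs p => ?_⟩
  · beta_reduce
    rw [← h1]
    ext x
    exact σ.symm_apply_apply _
  · beta_reduce
    rw [← h2]
    ext x
    exact σ.symm_apply_apply _
  · have h3 := h.comp σ
    rwa [hsy, hsy] at h3
  · beta_reduce
    rw [h]
  · obtain ⟨i, hi⟩ := hs ((σ : ℂ →+* ℂ).comp p)
    refine ⟨i, ?_⟩
    beta_reduce
    rw [hi]
    ext x
    exact σ.symm_apply_apply _

/-- Moving a path. -/
theorem move_path [FiniteDimensional ℚ k] (w : Fin 6 → (k →+* ℂ))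
    (hw : ∀ i j : Fin 6, i.1 + 1 = j.1 → Ed k (w i) (w j)) :
    ∃ z : Fin 6 → (k →+* ℂ), z 2 = rs k (RingEquiv.refl ℂ) ∧
      z 3 = rs k (cc.trans (RingEquiv.refl ℂ)) ∧
      (∀ i j : Fin 6, Ed k (z i) (z j) ↔ Ed k (w i) (w j)) ∧ (∀ i j, z i = z j ↔ w i = w j) ∧
      (Function.Surjective w → Function.Surjective z) := by
  obtain ⟨σ, h1, h2⟩ := hw 2 3 rfl
  have hinj : ∀ (ρ : ℂ ≃+* ℂ) (a b : k →+* ℂ), (ρ : ℂ →+* ℂ).comp a = (ρ : ℂ →+* ℂ).comp b →
      a = b := by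
    intro ρ a b hab
    ext x
    have h1 := congrArg (fun t : k →+* ℂ => t x) hab
    exact ρ.injective h1
  have hsy : ∀ a : k →+* ℂ, (σ : ℂ →+* ℂ).comp ((σ.symm : ℂ →+* ℂ).comp a) = a := by
    intro a
    ext x
    exact σ.apply_symm_apply _
  refine ⟨fun i => (σ.symm : ℂ →+* ℂ).comp (w i), ?_, ?_, fun i j => ⟨fun h => ?_, fun h =>
    h.comp _⟩, fun i j => ⟨fun h => hinj _ _ _ h, fun h => ?_⟩, fun hs p => ?_⟩
  · beta_reduce
    rw [← h1]
    ext x
    exact σ.symm_apply_apply _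
  · beta_reduce
    rw [← h2]
    ext x
    exact σ.symm_apply_apply _
  · have h3 := h.comp σ
    rwa [hsy, hsy] at h3
  · beta_reduce
    rw [h]
  · obtain ⟨i, hi⟩ := hs ((σ : ℂ →+* ℂ).comp p)
    refine ⟨i, ?_⟩
    beta_reduce
    rw [hi]
    ext x
    exact σ.symm_apply_apply _

/-- A path through all embeddings for fields of degree five or six. -/
theorem exists_path_gr [FiniteDimensional ℚ k] (G : Gr (Ed k))
    (hd : finrank ℚ k = 5 ∨ finrank ℚ k = 6) : ∃ z, IsPath k z := by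
  obtain ⟨_, hcard⟩ := card_emb (k := k)
  rw [← hcard] at hd
  rcases hd with hd | hd
  · obtain ⟨w, hw, hs, h05⟩ := G.five hd
    obtain ⟨z, z2, z3, hz, hz', hs'⟩ := move_path w hw
    refine ⟨z, z2, z3, ((hz 1 2).2 (hw 1 2 rfl)).symm, (hz 0 1).2 (hw 0 1 rfl),
      ((hz 3 4).2 (hw 3 4 rfl)).symm, (hz 4 5).2 (hw 4 5 rfl), hs' hs, Or.inr (Or.inl ⟨0, 5, ?_,
      (hz' 0 5).2 h05⟩)⟩
    decide
  · obtain ⟨w, hw, hw'⟩ := G.six hd
    have hb : Function.Bijective w := by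
      rw [Fintype.bijective_iff_injective_and_card]
      exact ⟨hw, by rw [Fintype.card_fin, hd]⟩
    obtain ⟨z, z2, z3, hz, hz', hs'⟩ := move_path w hw'
    refine ⟨z, z2, z3, ((hz 1 2).2 (hw' 1 2 rfl)).symm, (hz 0 1).2 (hw' 0 1 rfl),
      ((hz 3 4).2 (hw' 3 4 rfl)).symm, (hz 4 5).2 (hw' 4 5 rfl), hs' hb.2, ?_⟩
    have hpar := G.par hb
    by_cases h1 : ∃ i j : Fin 6, i.1 % 2 = 0 ∧ j.1 % 2 = 0 ∧ Ed k (w i) (w j)
    · refine Or.inr (Or.inr ⟨?_, ?_⟩)
      · obtain ⟨i, j, a, b, c⟩ := h1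
        exact ⟨i, j, a, b, (hz i j).2 c⟩
      · obtain ⟨i, j, a, b, c⟩ := hpar.1 h1
        exact ⟨i, j, a, b, (hz i j).2 c⟩
    · have h2 : ¬ ∃ i j : Fin 6, i.1 % 2 = 1 ∧ j.1 % 2 = 1 ∧ Ed k (w i) (w j) :=
        fun h => h1 (hpar.2 h)
      push Not at h1 h2
      left
      intro i j hij hmod
      rw [hz] at hij
      rcases Nat.mod_two_eq_zero_or_one i.1 with h3 | h3
      · exact h1 i j h3 (by omega) hij
      · exact h2 i j h3 (by omega) hij

/-- A path through all embeddings for fields of degree five or six. -/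
theorem exists_path [FiniteDimensional ℚ k] (hk : NoReal k) (hi : ∀ p, ¬ Ed k p p)
    (hd : finrank ℚ k = 5 ∨ finrank ℚ k = 6) : ∃ z, IsPath k z :=
  exists_path_gr (gr hk hi) hd

end

end Pool.Agent.N994.PG
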