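import Mathlib
import Pool.Agent.R915.Stm2

/-!
# Abelian varieties with small period fields: definitions

The definitions which are used in the statement of the result, besides those of
`Pool.Agent.Y90.Defs` (abelian varieties `AV`, homomorphisms `IsHom`, Weil classes `IsWeilClass`),
`Pool.Agent.H204R3.CM.Defs` (Hodge classes `IsHodge`), `Pool.Agent.R915.Stm` (`IsSimple`,
`HasCMult`, `EndQuad`, `RealMax`) and `Pool.Agent.R915.Stm2` (`IsFactor`).
-/

namespace Pool.Agent.N994.PG

open Module Pool.Agent.Y90
open Pool.Agent.R915 (IsSimple EndQuad RealMax HasCMult)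
open Pool.Agent.H204R3.CM (IsHodge)

/-- The coordinates of the periods of `X` with respect to a suitable basis of the tangent space are
contained in the field `k`: the matrix of the periods has entries in `k`. -/
def PeriodsIn (X : AV) (k : IntermediateField ℚ ℂ) : Prop :=
  ∃ (n : ℕ) (b : Basis (Fin n) ℂ X.T), ∀ (v : X.H) (i : Fin n), b.repr (X.per v) i ∈ k

/-- The ring generated by the classes of divisors and by the Weil classes on the simple factors of
dimension four or six: the smallest system of cohomology classes `f ∈ H^κ(X, ℚ)` of the abelian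
variety `X` which contains the classes of degree zero, the Hodge classes of degree two and the
pull-backs, along homomorphisms `X → Y`, of the Weil classes on simple abelian varieties `Y` of
dimension four or six whose endomorphism algebra is an imaginary quadratic field (of trivial
discriminant in dimension six), and which is stable under linear combinations and cup products. -/
inductive PRing (X : AV) : (κ : Type) → (X.H [⋀^κ]→ₗ[ℚ] ℚ) → Prop
  /-- classes of degree zero -/
  | unit {κ : Type} [IsEmpty κ] (f : X.H [⋀^κ]→ₗ[ℚ] ℚ) : PRing X κ f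
  /-- Hodge classes of degree two -/
  | divisor {κ : Type} (hκ : Nat.card κ = 2) (f : X.H [⋀^κ]→ₗ[ℚ] ℚ)
      (hf : IsHodge X.per f) : PRing X κ f
  /-- pull-backs of Weil classes on simple abelian varieties of dimension four or six -/
  | weil {Y : AV} {n : ℕ} (hn : n = 4 ∨ n = 6) (hY : IsSimple Y) {d : ℚ} {φ : Y.H →ₗ[ℚ] Y.H}
      (hφ : EndQuad Y d φ) (f : Y.H [⋀^Fin n]→ₗ[ℚ] ℚ) (hf : IsWeilClass Y n f)
      (h : X.H →ₗ[ℚ] Y.H) (hh : IsHom X Y h) : PRing X (Fin n) (f.compLinearMap h)
  | zero (κ : Type) : PRing X κ 0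
  | add {κ : Type} (f g : X.H [⋀^κ]→ₗ[ℚ] ℚ) (hf : PRing X κ f) (hg : PRing X κ g) :
      PRing X κ (f + g)
  | smul {κ : Type} (a : ℚ) (f : X.H [⋀^κ]→ₗ[ℚ] ℚ) (hf : PRing X κ f) :
      PRing X κ (a • f)
  /-- renaming of the variables -/
  | reindex {κ κ' : Type} (e : κ ≃ κ') (f : X.H [⋀^κ]→ₗ[ℚ] ℚ) (hf : PRing X κ f) :
      PRing X κ' (f.domDomCongr e)
  /-- cup products (up to a factor) -/
  | cup {κ κ' : Type} [Fintype κ] [DecidableEq κ] [Fintype κ'] [DecidableEq κ']
      (f : X.H [⋀^κ]→ₗ[ℚ] ℚ) (g : X.H [⋀^κ']→ₗ[ℚ] ℚ) (hf : PRing X κ f) (hg : PRing X κ' g)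
      (h : X.H [⋀^κ ⊕ κ']→ₗ[ℚ] ℚ)
      (hh : ∀ v : κ ⊕ κ' → X.H, h v = ∑ σ : Equiv.Perm (κ ⊕ κ'), ((Equiv.Perm.sign σ : ℤ) : ℚ) *
        (f (fun k => v (σ (Sum.inl k))) * g (fun k => v (σ (Sum.inr k))))) :
      PRing X (κ ⊕ κ') h

/-- The simple abelian variety `Y` has its periods in a number field `k`, and one of the following
conditions is satisfied:
* the degree of `k` is at most four, and `Y` has no complex multiplication;
* the degree of `k` is at most six, and the endomorphism algebra of `Y` is of Albert type I or II;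
* the degree of `k` is odd, and the dimension of `Y` is at most seven. -/
def SmallPeriods (Y : AV) : Prop :=
  ∃ k : IntermediateField ℚ ℂ, 0 < finrank ℚ k ∧ PeriodsIn Y k ∧
    ((finrank ℚ k ≤ 4 ∧ ¬ HasCMult Y) ∨
    (finrank ℚ k ≤ 6 ∧ ∃ a, RealMax Y a) ∨
    (Odd (finrank ℚ k) ∧ finrank ℚ Y.H ≤ 14))

/-- No totally real subfield `F ≠ ℚ` of `k` is fixed, element by element, by all real embeddings of
the field `k`. (For instance `ℚ` is the only totally real subfield of `k`. Here a subfield `F` is
called totally real if all its embeddings into the complex numbers are real; such a field is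
algebraic over `ℚ`.) -/
def RealMoves (k : IntermediateField ℚ ℂ) : Prop :=
  ∀ F : IntermediateField ℚ ℂ, F ≤ k → F ≠ ⊥ → (∀ (τ : F →+* ℂ) (x : F), (τ x).im = 0) →
    ∃ p : k →+* ℂ, (∀ x, (p x).im = 0) ∧ ∃ x : k, (x : ℂ) ∈ F ∧ p x ≠ x

/-- The field `k` does not contain an imaginary quadratic field. (For instance `k` has a real
embedding.) -/
def NoImagQuad (k : IntermediateField ℚ ℂ) : Prop :=
  ∀ x ∈ k, ∀ q : ℚ, q < 0 → x ^ 2 ≠ (q : ℂ)

/-- The simple abelian variety `Y` has its periods in a subfield `k` of the complex numbers, which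
may be of infinite degree or transcendental, and one of the following conditions is satisfied:
* `k` is a number field of odd degree, or `k` contains no imaginary quadratic field and no totally
  real subfield `F ≠ ℚ` of `k` is fixed by all real embeddings of `k`; and moreover the dimension
  of `Y` is odd (the dimension of `H_1(Y, ℚ)` is not divisible by four), or the endomorphism algebra
  of `Y` is of Albert type I or II, and the relative dimension (the dimension of `Y`, divided by the
  degree of a totally real maximal subfield of the endomorphism algebra) is not one of the numbers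
  `2 ^ j` with `j ≥ 4`, `j ≡ 0, 1` modulo `4` and, if `k` is a number field, `2 j + 2 ≤ [k : ℚ]`
  (so there is no condition on the relative dimension if `[k : ℚ]` is at most nine);
* no totally real subfield `F ≠ ℚ` of `k` is fixed by all real embeddings of `k`, the dimension of
  `Y` is at most seven, and the endomorphism algebra of `Y` is of Albert type I or II, or `k`
  contains no imaginary quadratic field (and `Y` has trivial discriminant if its dimension is six and
  its endomorphism algebra is an imaginary quadratic field). -/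
def GenericPeriods (Y : AV) : Prop :=
  ∃ k : IntermediateField ℚ ℂ, PeriodsIn Y k ∧
    (((Odd (finrank ℚ k) ∨ (RealMoves k ∧ NoImagQuad k)) ∧
      (¬ 4 ∣ finrank ℚ Y.H ∨ ∃ a, RealMax Y a ∧
        ∀ j, 4 ≤ j → j % 4 ≤ 1 → (0 < finrank ℚ k → 2 * j + 2 ≤ finrank ℚ k) →
          finrank ℚ Y.H ≠ 2 * 2 ^ j * (minpoly ℚ a).natDegree)) ∨
    (RealMoves k ∧ finrank ℚ Y.H ≤ 14 ∧ ((∃ a, RealMax Y a) ∨ (NoImagQuad k ∧
      (finrank ℚ Y.H = 12 → ∀ d φ, EndQuad Y d φ → HasTrivialDisc Y d φ)))))

end Pool.Agent.N994.PG
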