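import Mathlib
import Pool.Agent.N994.PG.Conn
import Pool.Agent.N994.PG.Stm

/-!
# Abelian varieties whose periods are contained in a number field
-/

set_option linter.unusedSectionVars false

namespace Pool.Agent.N994.PG

open Matrix Module Pool.Agent.W437.HC Pool.Agent.W437.HD Pool.Agent.Y90 Pool.Agent.R915
open Pool.Agent.W548.Odd hiding cv
open Pool.Agent.N994.PF (rs Zk InL Ed)

noncomputable section

variable {g : ℕ} {Z : Matrix (Fin g) (Fin g) ℂ} {k : IntermediateField ℚ ℂ}

theorem Z_mem (h : PM Z) (hk : PeriodsIn (AVZ h) k) (i j : Fin g) : Z i j ∈ k := by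
  obtain ⟨n, b, hb⟩ := hk
  obtain rfl : n = g := by
    have h1 := Module.finrank_eq_card_basis b
    rw [Fintype.card_fin] at h1
    rw [← h1]
    change finrank ℂ (Fin g → ℂ) = g
    rw [finrank_fintype_fun_eq_card, Fintype.card_fin]
  let b' : Basis (Fin n) ℂ (Fin n → ℂ) := b
  have hb' : ∀ (v : Fin n ⊕ Fin n → ℚ) (i : Fin n), b'.repr (perOne Z v) i ∈ k := hb
  let e : Basis (Fin n) ℂ (Fin n → ℂ) := Pi.basisFun ℂ (Fin n)
  have he : ∀ j, e j = perOne Z (Pi.single (Sum.inl j) 1) := by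
    intro j
    funext i
    change (Pi.basisFun ℂ (Fin n) j) i = _ + _
    by_cases hij : i = j
    · subst hij
      simp
    · simp [Pi.single_apply, hij]
  have hM : ∀ i j, b'.toMatrix e i j ∈ k := by
    intro i j
    rw [Basis.toMatrix_apply, he]
    exact hb' _ i
  let N : Matrix (Fin n) (Fin n) ℂ := fun i j => b'.repr (perOne Z (Pi.single (Sum.inr j) 1)) i
  have hN : ∀ i j, N i j ∈ k := fun i j => hb' _ i
  have hZc : ∀ j, perOne Z (Pi.single (Sum.inr j) 1) = fun i => Z i j := by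
    intro j
    funext i
    change ((Pi.single (Sum.inr j) (1 : ℚ) : Fin n ⊕ Fin n → ℚ) (Sum.inl i) : ℂ) +
      ∑ l, Z i l * ((Pi.single (Sum.inr j) (1 : ℚ) : Fin n ⊕ Fin n → ℚ) (Sum.inr l) : ℂ) = _
    rw [Finset.sum_eq_single j]
    · simp
    · intro l _ hl
      simp [Pi.single_apply, hl]
    · intro hj
      exact absurd (Finset.mem_univ j) hj
  have hNM : N = b'.toMatrix e * Z := by
    ext i j
    change b'.repr (perOne Z (Pi.single (Sum.inr j) 1)) i = _
    rw [hZc, Matrix.mul_apply]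
    have h1 : (fun i => Z i j) = ∑ l, Z l j • e l := by
      funext i
      rw [Finset.sum_apply]
      simp [e, Pi.single_apply]
    rw [h1, map_sum, Finsupp.finsetSum_apply]
    refine Finset.sum_congr rfl fun l _ => ?_
    rw [map_smul, Finsupp.smul_apply, smul_eq_mul, Basis.toMatrix_apply, mul_comm]
  -- the matrices over `k`
  let M₀ : Matrix (Fin n) (Fin n) k := fun i j => ⟨b'.toMatrix e i j, hM i j⟩
  have hM₀ : M₀.map (algebraMap k ℂ) = b'.toMatrix e := by
    ext i j
    rfl
  let N₀ : Matrix (Fin n) (Fin n) k := fun i j => ⟨N i j, hN i j⟩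
  have hN₀ : N₀.map (algebraMap k ℂ) = N := by
    ext i j
    rfl
  have hdet : IsUnit M₀.det := by
    rw [isUnit_iff_ne_zero]
    intro h0
    have h1 : (b'.toMatrix e).det = 0 := by
      rw [← hM₀, ← RingHom.mapMatrix_apply, ← RingHom.map_det, h0, map_zero]
    have h2 : (e.toMatrix b' * b'.toMatrix e).det = 1 := by
      rw [Basis.toMatrix_mul_toMatrix_flip, det_one]
    rw [det_mul, h1, mul_zero] at h2
    exact zero_ne_one h2
  have h3 : Z = ((M₀⁻¹ * N₀).map (algebraMap k ℂ)) := by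
    have h4 : (M₀⁻¹).map (algebraMap k ℂ) * M₀.map (algebraMap k ℂ) = 1 := by
      rw [← Matrix.map_mul, Matrix.nonsing_inv_mul _ hdet]
      exact Matrix.map_one _ (map_zero _) (map_one _)
    rw [Matrix.map_mul, hN₀, hNM, ← hM₀, ← mul_assoc, h4, one_mul]
  rw [h3]
  exact ((M₀⁻¹ * N₀) i j).2

end

end Pool.Agent.N994.PG
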