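import Mathlib
import Pool.Agent.R915.S2
import Pool.Agent.N994.PG.Per

/-!
# Periods of abelian subvarieties
-/

set_option linter.unusedSectionVars false

namespace Pool.Agent.N994.PG

open Matrix Module Pool.Agent.Y90 Pool.Agent.R915

noncomputable section

variable {k : IntermediateField ℚ ℂ}

/-- A `k`-linear retraction of the complex numbers. -/
theorem exists_retr (k : IntermediateField ℚ ℂ) : ∃ π : ℂ →ₗ[k] k, ∀ x : k, π (x : ℂ) = x := by
  have hinj : LinearMap.ker (Algebra.linearMap k ℂ) = ⊥ :=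
    LinearMap.ker_eq_bot.2 (algebraMap k ℂ).injective
  obtain ⟨π, hπ⟩ := LinearMap.exists_leftInverse_of_injective (Algebra.linearMap k ℂ) hinj
  refine ⟨π, fun x => ?_⟩
  have h1 := congrArg (fun f => f x) hπ
  exact h1

/-- The coordinates of the periods of a factor. -/
theorem PeriodsIn.factor {X Y : AV} (hX : PeriodsIn X k) {i : Y.H →ₗ[ℚ] X.H} (hi : IsHom Y X i)
    (hinj : Function.Injective i) : PeriodsIn Y k := by
  obtain ⟨n, b, hb⟩ := hX
  obtain ⟨Ψ, hΨ⟩ := hi
  -- `Ψ` is injective
  have hΨi : Function.Injective Ψ := by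
    let bY : Basis _ ℚ Y.H := Module.finBasis ℚ Y.H
    obtain ⟨β, hβ⟩ := exists_realBasis Y bY
    -- a basis of `X.H` extending the image of the basis
    have hli : LinearIndependent ℚ (fun j => i (bY j)) := bY.linearIndependent.map' i
      (LinearMap.ker_eq_bot.2 hinj)
    let bX := Basis.extend hli.linearIndepOn_id
    have hfin : Finite (hli.linearIndepOn_id.extend (Set.subset_univ _)) :=
      Module.Finite.finite_basis bX
    obtain ⟨γ, hγ⟩ := exists_realBasis X bX
    have hli2 : LinearIndependent ℝ (fun j => Ψ (β j)) := by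
      have h1 : (fun j => Ψ (β j)) = fun j => γ ⟨i (bY j),
          hli.linearIndepOn_id.subset_extend (Set.subset_univ _) (Set.mem_range_self j)⟩ := by
        funext j
        rw [hβ, hΨ, hγ]
        congr 1
        exact (Basis.extend_apply_self hli.linearIndepOn_id ⟨i (bY j), _⟩).symm
      rw [h1]
      refine γ.linearIndependent.comp _ fun j j' hjj => ?_
      have h2 : i (bY j) = i (bY j') := congrArg Subtype.val hjj
      exact bY.injective (hinj h2)
    have h3 : Function.Injective (Ψ.restrictScalars ℝ) := by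
      rw [← LinearMap.ker_eq_bot]
      exact LinearMap.ker_eq_bot.2 (fun x y hxy => by
        have h4 : (Ψ.restrictScalars ℝ) (x - y) = 0 := by rw [map_sub, hxy, sub_self]
        have h5 : x - y = ∑ j, β.repr (x - y) j • β j := (β.sum_repr _).symm
        rw [h5, map_sum] at h4
        have h6 := Fintype.linearIndependent_iff.1 hli2 (fun j => β.repr (x - y) j) (by
          rw [← h4]
          refine Finset.sum_congr rfl fun j _ => ?_
          rw [map_smul]
          rfl)
        have h7 : x - y = 0 := by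
          rw [h5]
          refine Finset.sum_eq_zero fun j _ => ?_
          rw [h6 j, zero_smul]
        exact sub_eq_zero.1 h7)
    exact h3
  -- the periods generate the tangent space
  have hspan : Submodule.span ℂ (Set.range Y.per) = ⊤ := by
    rw [eq_top_iff]
    intro x _
    have h1 : x ∈ Submodule.span ℝ (Set.range Y.per) := by rw [Y.span]; trivial
    exact Submodule.span_subset_span ℝ ℂ _ h1
  obtain ⟨κ, a, ha1, ha2, ha3⟩ := exists_linearIndependent' ℂ Y.per
  let c : Basis κ ℂ Y.T := Basis.mk ha3 (by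
    rw [ha2, hspan])
  have hfin : Finite κ := Module.Finite.finite_basis c
  have : Fintype κ := Fintype.ofFinite κ
  let c' : Basis (Fin (Fintype.card κ)) ℂ Y.T := c.reindex (Fintype.equivFin κ)
  refine ⟨_, c', fun v j => ?_⟩
  obtain ⟨π, hπ⟩ := exists_retr k
  have h1 : Y.per v = ∑ l, c.repr (Y.per v) l • Y.per (a l) := by
    conv_lhs => rw [← c.sum_repr (Y.per v)]
    refine Finset.sum_congr rfl fun l _ => ?_
    rw [Basis.mk_apply]
    rfl
  -- the retraction applied to the coefficients
  have h2 : Ψ (Y.per v) = ∑ l, ((π (c.repr (Y.per v) l) : k) : ℂ) • Ψ (Y.per (a l)) := by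
    apply b.repr.injective
    ext m
    have h3 : b.repr (Ψ (Y.per v)) m = ∑ l, c.repr (Y.per v) l * b.repr (Ψ (Y.per (a l))) m := by
      conv_lhs => rw [h1]
      rw [map_sum, map_sum, Finsupp.finsetSum_apply]
      refine Finset.sum_congr rfl fun l _ => ?_
      rw [map_smul, map_smul, Finsupp.smul_apply, smul_eq_mul]
    rw [map_sum, Finsupp.finsetSum_apply]
    have h4 : b.repr (Ψ (Y.per v)) m ∈ k := by rw [hΨ]; exact hb _ m
    have h5 : ∀ l, b.repr (Ψ (Y.per (a l))) m ∈ k := fun l => by rw [hΨ]; exact hb _ m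
    have h6 : (⟨b.repr (Ψ (Y.per v)) m, h4⟩ : k) =
        ∑ l, π (c.repr (Y.per v) l) * ⟨b.repr (Ψ (Y.per (a l))) m, h5 l⟩ := by
      rw [← hπ ⟨b.repr (Ψ (Y.per v)) m, h4⟩]
      change π (b.repr (Ψ (Y.per v)) m) = _
      rw [h3, map_sum]
      refine Finset.sum_congr rfl fun l _ => ?_
      have h7 : c.repr (Y.per v) l * b.repr (Ψ (Y.per (a l))) m =
          (⟨b.repr (Ψ (Y.per (a l))) m, h5 l⟩ : k) • c.repr (Y.per v) l := mul_comm _ _
      rw [h7, map_smul, smul_eq_mul, mul_comm]
    have h7 : b.repr (Ψ (Y.per v)) m =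
        ((∑ l, π (c.repr (Y.per v) l) * ⟨b.repr (Ψ (Y.per (a l))) m, h5 l⟩ : k) : ℂ) :=
      congrArg (fun x : k => (x : ℂ)) h6
    rw [h7]
    have h8 : ∀ (s : Finset κ) (f : κ → k), ((∑ l ∈ s, f l : k) : ℂ) = ∑ l ∈ s, (f l : ℂ) :=
      fun s f => map_sum (algebraMap k ℂ) f s
    rw [h8]
    refine Finset.sum_congr rfl fun l _ => ?_
    rw [map_smul, Finsupp.smul_apply, smul_eq_mul]
    rfl
  have h3 : Y.per v = ∑ l, ((π (c.repr (Y.per v) l) : k) : ℂ) • c l := by
    apply hΨi
    rw [h2, map_sum]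
    refine Finset.sum_congr rfl fun l _ => ?_
    rw [map_smul, Basis.mk_apply]
    rfl
  have h4 : ∀ l, c.repr (Y.per v) l = ((π (c.repr (Y.per v) l) : k) : ℂ) := by
    intro l
    have h5 := congrArg (fun x => c.repr x l) h3
    beta_reduce at h5
    rw [c.repr_sum_self] at h5
    exact h5
  rw [Basis.repr_reindex_apply, h4]
  exact SetLike.coe_mem _

end

end Pool.Agent.N994.PG
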