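import Mathlib
import Pool.Agent.R915.E9
import Pool.Agent.R915.M2
import Pool.Agent.N994.PG.Conn
import Pool.Agent.N994.PG.Two
import Pool.Agent.N994.PG.Per

/-!
# Abelian varieties of the types I and II with periods in a field of degree five or six
-/

set_option linter.unusedSectionVars false

namespace Pool.Agent.N994.PG

open Matrix Module Pool.Agent.W437.HC Pool.Agent.W437.HD Pool.Agent.Y90 Pool.Agent.R915
open Pool.Agent.W548.Odd hiding cv
open Pool.Agent.N994.PF (rs Zk InL Ed)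
open Polynomial

open scoped ComplexOrder

noncomputable section

variable {g : ℕ} {Z : Matrix (Fin g) (Fin g) ℂ} {k : IntermediateField ℚ ℂ}

theorem exists_ne (hg : 0 < g) : ∃ v : Fin g ⊕ Fin g → ℂ, v ≠ 0 := by
  refine ⟨Pi.single (Sum.inl ⟨0, hg⟩) 1, fun h0 => ?_⟩
  have h1 := congrFun h0 (Sum.inl ⟨0, hg⟩)
  rw [Pi.single_eq_same] at h1
  exact one_ne_zero h1

/-- Rank one elements for the types I and II. -/
theorem rk1_rf [FiniteDimensional ℚ k] (h : PM Z) (hs : IsSimpleAV Z) (hg : 0 < g)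
    (hZ : ∀ i j, Z i j ∈ k) (hk : NoReal k) (hd : finrank ℚ k = 5 ∨ finrank ℚ k = 6)
    {M : Matrix (Fin g ⊕ Fin g) (Fin g ⊕ Fin g) ℚ} (kf : RF Z M)
    {U : Submodule ℂ (Fin g ⊕ Fin g → ℂ)} (hU : IrS (LZ Z) U) : Rk1 Z U := by
  obtain ⟨θ, hθ, hdim, hproj⟩ := VE_main h hs hg kf.comm
  obtain ⟨σ, T, hT, hi, hTU⟩ := hproj U hU
  have hU' := irS_map hU hT hi
  have hW := kf.irr h hs (θ := σ θ) (fun h1 => hU'.1 (by rwa [h1, le_bot_iff] at hTU))
  have hreal : cc (σ θ) = σ θ := kf.real _ (root_conj hθ σ)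
  rcases hW.2.2 _ hTU hU'.2.1 with h1 | h1
  · exact absurd h1 hU'.1
  refine rk1_of_map hU hT hi ?_
  rw [h1]
  have h0 : ∃ u ∈ VE M (σ θ), ∃ v ∈ VE M (σ θ), om g u v ≠ 0 := by
    obtain ⟨w, hw, hw0⟩ := Submodule.exists_mem_ne_zero_of_ne_bot hW.1
    refine ⟨cnj w, ?_, DZ Z *ᵥ w, hW.2.1 _ DZ_mem w hw, fun h0 => ?_⟩
    · have h5 : cjS cc (VE M (σ θ)) = VE M (σ θ) := by
        rw [VE_cj, hreal]
      rw [← h5]
      change (fun i => cc.symm (cnj w i)) ∈ VE M (σ θ)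
      have h6 : (fun i => cc.symm (cnj w i)) = w := cnj_cnj w
      rwa [h6]
    · have h5 := h.herm_pos hw0
      rw [h0, mul_zero] at h5
      exact lt_irrefl _ h5
  have hb : ∀ X ∈ LZ Z, ∀ u ∈ VE M (σ θ), ∀ v ∈ VE M (σ θ),
      om g (X *ᵥ u) v + om g u (X *ᵥ v) = 0 := fun X hX u _ v _ => h.om_sp hX u v
  have hal : ∀ u ∈ VE M (σ θ), ∀ v ∈ VE M (σ θ), om g u v = -om g v u :=
    fun u _ v _ => om_anti u v
  obtain ⟨z, hz⟩ := exists_path hk (Ed_irr h hZ (exists_ne hg)) hd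
  exact rk1_path h hZ hW (om g) h0 hb hal hz

end

end Pool.Agent.N994.PG
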