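import Mathlib
import Pool.Agent.R915.H2
import Pool.Agent.N994.PG.Real
import Pool.Agent.N994.PG.Inh

/-!
# Local conditions for abelian varieties with periods in a number field
-/

set_option linter.unusedSectionVars false

namespace Pool.Agent.N994.PG

open Matrix Module Pool.Agent.W437.HC Pool.Agent.W437.HD Pool.Agent.Y90 Pool.Agent.R915
open Pool.Agent.W548.Odd hiding cv
open Pool.Agent.N994.PF (rs Zk InL Ed)

noncomputable section

variable {g : ℕ} {Z : Matrix (Fin g) (Fin g) ℂ} {k : IntermediateField ℚ ℂ}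

/-- Degree at most four. -/
theorem lc_four [FiniteDimensional ℚ k] (hk : finrank ℚ k ≤ 4) (h : PM Z)
    (hZ : ∀ i j, Z i j ∈ k) (hs : IsSimpleAV Z) (hg : 0 < g) (hnc : ¬ HasCMult (AVZ h))
    {U : Submodule ℂ (Fin g ⊕ Fin g → ℂ)} (hU : IrS (LZ Z) U) : LC h U := by
  rcases one_or_two hk h hZ hU with h1 | ⟨h2, hsd⟩
  · exact absurd (cm_AVZ h (cm_of_one h hs hg hU h1)) hnc
  · exact ⟨fun _ => (rk1_two h hU hsd (by omega)).1, fun _ => ns_of_sdu h hsd,
      Or.inl ⟨hsd, by omega⟩⟩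

/-- The types I and II, degree five or six. -/
theorem lc_real [FiniteDimensional ℚ k] (h : PM Z) (hs : IsSimpleAV Z) (hg : 0 < g)
    (hZ : ∀ i j, Z i j ∈ k) (hk : NoReal k) (hd : finrank ℚ k = 5 ∨ finrank ℚ k = 6)
    {a : Module.End ℚ (Fin g ⊕ Fin g → ℚ)} (ha : RealMax (AVZ h) a)
    {U : Submodule ℂ (Fin g ⊕ Fin g → ℂ)} (hU : IrS (LZ Z) U) : LC h U :=
  (ha.rf h).lc h hs hg hU (rk1_rf h hs hg hZ hk hd (ha.rf h) hU)

end

end Pool.Agent.N994.PG
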