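import Mathlib
import Pool.Agent.N994.PG.Lcs

/-!
# One-dimensional submodules, fields of degree at most four
-/

set_option linter.unusedSectionVars false

namespace Pool.Agent.N994.PG

open Matrix Module Pool.Agent.W437.HC Pool.Agent.W437.HD Pool.Agent.Y90 Pool.Agent.R915
open Pool.Agent.W548.Odd hiding cv
open Pool.Agent.N994.PF (rs Zk InL Ed Sys PP PP_eq comb card_emb)
open Pool.Agent.W522.U (Du)

noncomputable section

variable {g : ℕ} {Z : Matrix (Fin g) (Fin g) ℂ} {k : IntermediateField ℚ ℂ}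

/-- Two links determine the colourings. -/
theorem two_edges [FiniteDimensional ℚ k] (hk : finrank ℚ k ≤ 4) (hi : ∀ p, ¬ Ed k p p) :
    ∃ σ σ' : ℂ ≃+* ℂ, ∀ c c' : (k →+* ℂ) → Prop,
      (∀ p q, Ed k p q → (c p ↔ ¬ c q)) → (∀ p q, Ed k p q → (c' p ↔ ¬ c' q)) →
      (c (rs k σ) ↔ c' (rs k σ)) → (c (rs k σ') ↔ c' (rs k σ')) →
      ∀ τ : ℂ ≃+* ℂ, c (rs k τ) ↔ c' (rs k τ) := by
  classical
  have : NumberField k := ⟨⟩
  obtain ⟨_, hcard⟩ := card_emb (k := k)
  rw [← hcard] at hk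
  rcases comb hk (Ed k) (fun _ _ h => h.symm) hi (by
    intro p
    obtain ⟨σ, hσ⟩ := Pool.Agent.Y4.exists_aut_emb (algebraMap k ℂ) p
    exact ⟨rs k (cc.trans σ), σ, hσ, rfl⟩) (by
    intro p p'
    obtain ⟨ρ, hρ⟩ := Pool.Agent.Y4.exists_aut_emb p p'
    refine ⟨fun q => (ρ : ℂ →+* ℂ).comp q, ?_, hρ, fun a b h => h.comp ρ⟩
    intro a b hab
    ext x
    have h1 := congrArg (fun t : k →+* ℂ => t x) hab
    exact ρ.injective h1) with ⟨x, y, z, w, h1, h2, h3, h4⟩ | ⟨p, q, p', q', h1, h2, h3⟩ | h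
  · obtain ⟨σ, hσ, -⟩ := id h1
    refine ⟨σ, σ, fun c c' hc hc' h5 _ τ => ?_⟩
    rw [hσ] at h5
    have a1 := hc _ _ h1
    have a2 := hc _ _ h2
    have a3 := hc _ _ h3
    have b1 := hc' _ _ h1
    have b2 := hc' _ _ h2
    have b3 := hc' _ _ h3
    have cy : c y ↔ c' y := not_iff_not.1 (a1.symm.trans (h5.trans b1))
    have cz : c z ↔ c' z := not_iff_not.1 (a2.symm.trans (cy.trans b2))
    have cw : c w ↔ c' w := not_iff_not.1 (a3.symm.trans (cz.trans b3))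
    rcases h4 (rs k τ) with e | e | e | e <;> rw [e]
    · exact h5
    · exact cy
    · exact cz
    · exact cw
  · obtain ⟨σ, hσ, -⟩ := id h1
    obtain ⟨σ', hσ', -⟩ := id h2
    refine ⟨σ, σ', fun c c' hc hc' h5 h6 τ => ?_⟩
    rw [hσ] at h5
    rw [hσ'] at h6
    have a1 := hc _ _ h1
    have a2 := hc _ _ h2
    have b1 := hc' _ _ h1
    have b2 := hc' _ _ h2
    have cq : c q ↔ c' q := not_iff_not.1 (a1.symm.trans (h5.trans b1))
    have cq' : c q' ↔ c' q' := not_iff_not.1 (a2.symm.trans (h6.trans b2))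
    rcases h3 (rs k τ) _ ⟨τ, rfl, rfl⟩ with ⟨e, -⟩ | ⟨e, -⟩ | ⟨e, -⟩ | ⟨e, -⟩ <;> rw [e]
    · exact h5
    · exact cq
    · exact h6
    · exact cq'
  · exact (h.false (algebraMap k ℂ)).elim

/-- The trace on a line. -/
theorem tr_one (h : PM Z) {U : Submodule ℂ (Fin g ⊕ Fin g → ℂ)} (hU : IrS (LZ Z) U)
    (h1 : finrank ℂ U = 1) (τ : ℂ ≃+* ℂ) : tr Z (cjS τ U) = 1 ∨ tr Z (cjS τ U) = -1 := by
  have h2 := pd_add_qd h (hU.cj gal_LZ τ).2.1
  rw [finrank_cjS, h1] at h2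
  unfold tr
  omega

/-- The colouring defined by a line. -/
theorem col_one (h : PM Z) (hZ : ∀ i j, Z i j ∈ k) {U : Submodule ℂ (Fin g ⊕ Fin g → ℂ)}
    (hU : IrS (LZ Z) U) (h1 : finrank ℂ U = 1) :
    ∃ c : (k →+* ℂ) → Prop, (∀ p q, Ed k p q → (c p ↔ ¬ c q)) ∧
      ∀ σ : ℂ ≃+* ℂ, c (rs k σ) ↔ tr Z (cjS σ.symm U) = -1 := by
  obtain ⟨μ, hμ, hμD⟩ := exists_mu h hU h1
  obtain ⟨u, hu, hu0⟩ := Submodule.exists_mem_ne_zero_of_ne_bot hU.1
  have hμu : μ u ≠ 0 := fun h2 => hu0 (hμ u hu h2)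
  have hline : ∀ v ∈ U, ∀ w ∈ U, μ v = μ w → v = w := by
    intro v hv w hw hvw
    have h2 := hμ (v - w) (U.sub_mem hv hw) (by rw [map_sub, hvw, sub_self])
    exact sub_eq_zero.1 h2
  have hneg : ∀ σ : ℂ ≃+* ℂ, u ∈ Lp hZ (rs k σ) ↔ tr Z (cjS σ.symm U) = -1 := by
    intro σ
    rw [mem_neg h hZ σ]
    constructor
    · intro h2
      have h3 := hμD σ u
      rw [h2, map_neg] at h3
      rcases tr_one h hU h1 σ.symm with h4 | h4
      · exfalso
        rw [h4, Int.cast_one, one_mul] at h3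
        have h5 : (2 : ℂ) * μ u = 0 := by linear_combination -h3
        exact hμu ((mul_eq_zero.1 h5).resolve_left two_ne_zero)
      · exact h4
    · intro h2
      refine hline _ (hU.2.1 _ (DS_mem σ) u hu) _ (U.neg_mem hu) ?_
      rw [hμD, h2, map_neg]
      push_cast
      ring
  have hpos : ∀ σ : ℂ ≃+* ℂ, u ∈ Lp hZ (rs k (cc.trans σ)) ↔ tr Z (cjS σ.symm U) = 1 := by
    intro σ
    rw [mem_pos h hZ σ]
    constructor
    · intro h2
      have h3 := hμD σ u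
      rw [h2] at h3
      rcases tr_one h hU h1 σ.symm with h4 | h4
      · exact h4
      · exfalso
        rw [h4] at h3
        push_cast at h3
        have h5 : (2 : ℂ) * μ u = 0 := by linear_combination h3
        exact hμu ((mul_eq_zero.1 h5).resolve_left two_ne_zero)
    · intro h2
      refine hline _ (hU.2.1 _ (DS_mem σ) u hu) _ hu ?_
      rw [hμD, h2]
      push_cast
      ring
  refine ⟨fun p => u ∈ Lp hZ p, ?_, hneg⟩
  rintro p q ⟨σ, rfl, rfl⟩
  have h2 : (u ∈ Lp hZ (rs k (cc.trans σ)) ↔ tr Z (cjS σ.symm U) = 1) := hpos σ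
  change u ∈ Lp hZ (rs k σ) ↔ ¬ u ∈ Lp hZ (rs k (cc.trans σ))
  rw [hneg, h2]
  rcases tr_one h hU h1 σ.symm with h4 | h4 <;> rw [h4] <;> norm_num

/-- Lines with opposite traces are dual. -/
theorem du_one (h : PM Z) {U U' : Submodule ℂ (Fin g ⊕ Fin g → ℂ)} (hU : IrS (LZ Z) U)
    (hU' : IrS (LZ Z) U') (h1 : finrank ℂ U = 1) (h1' : finrank ℂ U' = 1)
    (ht : ∀ τ : ℂ ≃+* ℂ, tr Z (cjS τ U) + tr Z (cjS τ U') = 0) : Du (RZ Z) 1 U U' := by
  rw [rz_du h hU.2.1 hU'.2.1]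
  obtain ⟨μ, hμ, hμD⟩ := exists_mu h hU h1
  obtain ⟨μ', hμ', hμD'⟩ := exists_mu h hU' h1'
  obtain ⟨u, hu, hu0⟩ := Submodule.exists_mem_ne_zero_of_ne_bot hU.1
  obtain ⟨v, hv, hv0⟩ := Submodule.exists_mem_ne_zero_of_ne_bot hU'.1
  refine ⟨(LinearMap.mul ℂ ℂ).compl₁₂ μ μ', ⟨u, hu, v, hv, ?_⟩, ?_⟩
  · rw [LinearMap.compl₁₂_apply, LinearMap.mul_apply']
    exact mul_ne_zero (fun h2 => hu0 (hμ u hu h2)) (fun h2 => hv0 (hμ' v hv h2))
  · let C : Submodule ℂ (Matrix (Fin g ⊕ Fin g) (Fin g ⊕ Fin g) ℂ) :=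
      { carrier := {X | ∀ x y, μ (X *ᵥ x) * μ' y + μ x * μ' (X *ᵥ y) = 0}
        add_mem' := fun {X Y} hX hY x y => by
          rw [add_mulVec, add_mulVec, map_add, map_add]
          linear_combination hX x y + hY x y
        zero_mem' := fun x y => by
          rw [zero_mulVec, zero_mulVec, map_zero, map_zero]
          ring
        smul_mem' := fun c X hX x y => by
          rw [smul_mulVec, smul_mulVec, map_smul, map_smul, smul_eq_mul, smul_eq_mul]
          linear_combination c * hX x y }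
    have hC : LZ Z ≤ C := by
      refine LZ_le (fun σ x y => ?_) (fun A hA B hB x y => ?_)
      · rw [hμD, hμD']
        have h3 := ht σ.symm
        have h4 : ((tr Z (cjS σ.symm U) : ℤ) : ℂ) + ((tr Z (cjS σ.symm U') : ℤ) : ℂ) = 0 := by
          exact_mod_cast h3
        linear_combination (μ x * μ' y) * h4
      · have a1 := hA (B *ᵥ x) y
        have a2 := hA x (B *ᵥ y)
        have a3 := hB (A *ᵥ x) y
        have a4 := hB x (A *ᵥ y)
        rw [sub_mulVec, sub_mulVec, map_sub, map_sub, ← mulVec_mulVec, ← mulVec_mulVec,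
          ← mulVec_mulVec, ← mulVec_mulVec]
        linear_combination a1 - a3 + a2 - a4
    intro X hX x _ y _
    rw [LinearMap.compl₁₂_apply, LinearMap.mul_apply', LinearMap.compl₁₂_apply,
      LinearMap.mul_apply']
    exact hC hX x y

/-- **There are no exceptional relations between lines.** -/
theorem bal_one [FiniteDimensional ℚ k] (hk : finrank ℚ k ≤ 4) (h : PM Z)
    (hZ : ∀ i j, Z i j ∈ k) {s : ℕ} (W : Fin s → Submodule ℂ (Fin g ⊕ Fin g → ℂ))
    (hW : ∀ i, IrS (LZ Z) (W i)) (st : Fin s → Fin s) (hst : ∀ i, st (st i) = i)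
    (hDu : ∀ i, Du (RZ Z) 1 (W i) (W (st i))) (hDu' : ∀ i j, Du (RZ Z) 1 (W i) (W j) → j = st i)
    (a : Fin s → ℤ) (ha : ∀ i, a (st i) = -a i)
    (hone : ∀ i, a i ≠ 0 → finrank ℂ (W i) = 1)
    (hsum : ∀ τ : ℂ ≃+* ℂ, ∑ q : (Σ i, Fin (a i).toNat), tr Z (cjS τ (W q.1)) = 0) (i : Fin s) :
    a i = 0 := by
  -- the sum
  have hS : ∀ τ : ℂ ≃+* ℂ, ∑ i, ((a i).toNat : ℤ) * tr Z (cjS τ (W i)) = 0 := by
    intro τ
    have h1 := hsum τ
    rw [Fintype.sum_sigma] at h1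
    rw [← h1]
    refine Finset.sum_congr rfl fun i _ => ?_
    have h2 : ∑ _q : Fin (a i).toNat, tr Z (cjS τ (W i)) =
        ((a i).toNat : ℤ) * tr Z (cjS τ (W i)) := by
      rw [Finset.sum_const, Finset.card_univ, Fintype.card_fin, nsmul_eq_mul]
    exact h2.symm
  -- reduction to positive coefficients
  suffices hpos : ∀ i, ¬ 0 < a i by
    have h1 := hpos i
    have h2 := hpos (st i)
    rw [ha] at h2
    omega
  intro i hai
  have hi1 := hone i (by omega)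
  have hne : ∃ v : Fin g ⊕ Fin g → ℂ, v ≠ 0 := by
    obtain ⟨v, -, hv⟩ := Submodule.exists_mem_ne_zero_of_ne_bot (hW i).1
    exact ⟨v, hv⟩
  obtain ⟨σ, σ', hcol⟩ := two_edges hk (Ed_irr h hZ hne)
  obtain ⟨c, hc, hc'⟩ := col_one h hZ (hW i) hi1
  set x := tr Z (cjS σ.symm (W i)) with hx
  set y := tr Z (cjS σ'.symm (W i)) with hy
  have hx1 : x = 1 ∨ x = -1 := tr_one h (hW i) hi1 _
  have hy1 : y = 1 ∨ y = -1 := tr_one h (hW i) hi1 _
  -- equality of the traces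
  have key : ∀ j, finrank ℂ (W j) = 1 → tr Z (cjS σ.symm (W j)) = x →
      tr Z (cjS σ'.symm (W j)) = y → j = i := by
    intro j hj h1 h2
    obtain ⟨e, he, he'⟩ := col_one h hZ (hW j) hj
    have h3 := hcol e c he hc (by rw [he', hc', h1]) (by rw [he', hc', h2])
    have h4 : ∀ τ : ℂ ≃+* ℂ, tr Z (cjS τ (W j)) = tr Z (cjS τ (W i)) := by
      intro τ
      have h5 := h3 τ.symm
      rw [he', hc'] at h5
      change tr Z (cjS τ (W j)) = -1 ↔ tr Z (cjS τ (W i)) = -1 at h5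
      have h6 := tr_one h (hW j) hj τ
      have h7 := tr_one h (hW i) hi1 τ
      omega
    have h5 : Du (RZ Z) 1 (W j) (W (st i)) := by
      have hsi : finrank ℂ (W (st i)) = 1 := hone (st i) (by rw [ha]; omega)
      refine du_one h (hW j) (hW (st i)) hj hsi fun τ => ?_
      rw [h4, tr_st h (hW i) (hW (st i)) (hDu i) τ]
      ring
    have h6 := hDu' _ _ h5
    rw [← hst i, h6, hst]
  have h1 : ∑ j, ((a j).toNat : ℤ) * (x * tr Z (cjS σ.symm (W j)) +
      y * tr Z (cjS σ'.symm (W j))) = 0 := by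
    have h2 : ∀ j, ((a j).toNat : ℤ) * (x * tr Z (cjS σ.symm (W j)) +
        y * tr Z (cjS σ'.symm (W j))) = x * (((a j).toNat : ℤ) * tr Z (cjS σ.symm (W j))) +
        y * (((a j).toNat : ℤ) * tr Z (cjS σ'.symm (W j))) := fun j => by ring
    rw [Finset.sum_congr rfl fun j _ => h2 j, Finset.sum_add_distrib, ← Finset.mul_sum,
      ← Finset.mul_sum, hS, hS]
    ring
  rw [Finset.sum_eq_single i] at h1
  · have h2 : x * x = 1 := by rcases hx1 with h3 | h3 <;> rw [h3] <;> norm_num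
    have h3 : y * y = 1 := by rcases hy1 with h3 | h3 <;> rw [h3] <;> norm_num
    rw [← hx, ← hy, h2, h3] at h1
    omega
  · intro j _ hji
    by_cases hj0 : 0 < a j
    swap
    · have h2 : (a j).toNat = 0 := by omega
      rw [h2]
      simp
    have hj := hone j (by omega)
    have h2 := tr_one h (hW j) hj σ.symm
    have h3 := tr_one h (hW j) hj σ'.symm
    -- the opposite traces
    have h4 : ¬ (tr Z (cjS σ.symm (W j)) = -x ∧ tr Z (cjS σ'.symm (W j)) = -y) := by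
      rintro ⟨e1, e2⟩
      have hsj : finrank ℂ (W (st j)) = 1 := hone (st j) (by rw [ha]; omega)
      have h5 := key (st j) hsj
        (by rw [tr_st h (hW j) (hW (st j)) (hDu j), e1, neg_neg])
        (by rw [tr_st h (hW j) (hW (st j)) (hDu j), e2, neg_neg])
      have h6 := ha j
      rw [h5] at h6
      omega
    have h5 : ¬ (tr Z (cjS σ.symm (W j)) = x ∧ tr Z (cjS σ'.symm (W j)) = y) :=
      fun e => hji (key j hj e.1 e.2)
    have h6 : x * tr Z (cjS σ.symm (W j)) + y * tr Z (cjS σ'.symm (W j)) = 0 := by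
      rcases hx1 with e1 | e1 <;> rcases hy1 with e2 | e2 <;> rw [e1, e2] at h4 h5 ⊢ <;> omega
    rw [h6, mul_zero]
  · intro h2
    exact absurd (Finset.mem_univ i) h2

end

end Pool.Agent.N994.PG
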