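import Mathlib
import Pool.Agent.N994.PG.Lcs

/-!
# Fields of degree five
-/

set_option linter.unusedSectionVars false

namespace Pool.Agent.N994.PG

open Matrix Module Pool.Agent.W437.HC Pool.Agent.W437.HD Pool.Agent.Y90 Pool.Agent.R915
open Pool.Agent.W548.Odd hiding cv
open Pool.Agent.N994.PF (rs Zk InL Ed)

noncomputable section

variable {k : IntermediateField ℚ ℂ}

/-- If all elements of the field are real, then the graph has loops. -/
theorem loop_of_real (hr : ∀ x ∈ k, x.im = 0) : ∃ p, Ed k p p := by
  refine ⟨rs k (RingEquiv.refl ℂ), RingEquiv.refl ℂ, rfl, ?_⟩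
  refine RingHom.ext fun x => ?_
  exact Complex.conj_eq_iff_im.2 (hr x x.2)

/-- Fields of degree five. -/
theorem noReal_five [FiniteDimensional ℚ k] (hd : finrank ℚ k = 5) (hi : ∀ p, ¬ Ed k p p) :
    NoReal k := by
  intro x hx him
  have hle : IntermediateField.adjoin ℚ {x} ≤ k :=
    IntermediateField.adjoin_le_iff.2 (Set.singleton_subset_iff.2 hx)
  have h1 := IntermediateField.finrank_dvd_of_le_right hle
  rw [hd] at h1
  rcases (Nat.dvd_prime (by norm_num)).1 h1 with h2 | h2
  · have h3 := IntermediateField.finrank_adjoin_simple_eq_one_iff.1 h2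
    exact IntermediateField.mem_bot.1 h3
  · exfalso
    have h3 : IntermediateField.adjoin ℚ {x} = k :=
      IntermediateField.eq_of_le_of_finrank_eq hle (by rw [h2, hd])
    obtain ⟨p, hp⟩ := loop_of_real (k := k) (fun y hy => by
      rw [← h3] at hy
      have h4 : IntermediateField.adjoin ℚ {x} ≤
          ((Complex.ofRealAm.restrictScalars ℚ).fieldRange) := by
        rw [IntermediateField.adjoin_le_iff, Set.singleton_subset_iff]
        exact ⟨x.re, Complex.ext rfl (by rw [him]; rfl)⟩
      obtain ⟨r, hr⟩ := h4 hy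
      rw [← hr]
      exact Complex.ofReal_im r)
    exact hi p hp

end

end Pool.Agent.N994.PG
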