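import Mathlib
import Pool.Agent.N994.PG.Div
import Pool.Agent.N994.PG.Bal
import Pool.Agent.N994.PG.Five

/-!
# Hodge classes belong to the ring generated by the divisor classes
-/

set_option linter.unusedSectionVars false

namespace Pool.Agent.N994.PG

open Matrix Module Pool.Agent.W437.HC Pool.Agent.W437.HD Pool.Agent.TH504.CB Pool.Agent.Y90
open Pool.Agent.R915
open Pool.Agent.W548.Odd hiding cv
open Pool.Agent.H204R3.CM (IsHodge)
open Pool.Agent.H204R3.SP (Kills bil2 IsTate)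
open Pool.Agent.W522.U (exists_reps exists_st Du)
open Pool.Agent.W437.HP (cK cK_mul cK_one)

noncomputable section

variable {G : ℕ} {Z : Matrix (Fin G) (Fin G) ℂ}

/-- The condition on the relations between the lines. -/
def LineCond (Z : Matrix (Fin G) (Fin G) ℂ) : Prop :=
  ∀ {s : ℕ} (W : Fin s → Submodule ℂ (Fin G ⊕ Fin G → ℂ)) (_ : ∀ i, IrS (LZ Z) (W i))
    (st : Fin s → Fin s) (_ : ∀ i, st (st i) = i)
    (_ : ∀ i, Du (RZ Z) 1 (W i) (W (st i))) (_ : ∀ i j, Du (RZ Z) 1 (W i) (W j) → j = st i)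
    (a : Fin s → ℤ) (_ : ∀ i, a (st i) = -a i)
    (_ : ∀ i, a i ≠ 0 → finrank ℂ (W i) = 1)
    (_ : ∀ τ : ℂ ≃+* ℂ, ∑ q : (Σ i, Fin (a i).toNat), tr Z (cjS τ (W q.1)) = 0) (i : Fin s),
    a i = 0

variable (h : PM Z) (hloc : ∀ U, IrS (LZ Z) U → 2 ≤ finrank ℂ U → Rk1 Z U ∧ SDu Z U)
  (hline : LineCond Z)
include h hloc hline

theorem inv_memD {m : ℕ}
    (φ : MultilinearMap ℂ (fun _ : Fin m × Fin 2 => Fin G ⊕ Fin G → ℂ) ℂ)
    (hφ : ∀ (g : Gam (GG (LZ Z))) v, φ (fun k => RZ Z g (v k)) = φ v) :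
    φ ∈ ND h (Fin m × Fin 2) := by
  have hSI : ∀ {U}, W522.U.SI (RZ Z) U ↔ IrS (LZ Z) U := fun {U} => si_iff h.genI
  obtain ⟨s, W, hW, hWW, hall⟩ := exists_reps (rz_proj h)
  obtain ⟨st, hst, hDu, hDu'⟩ := exists_st (χ := 1) (rz_proj h) (om G) om_nd (rz_om h) W hW hWW hall
  refine forms_mem' (χ := 1) (fun Δ hΔ => fi_top Δ hΔ) (om G) om_nd (rz_om h) ?_ ?_ ?_ (rz_proj h)
    W hW hWW hall st hst hDu hDu' (ND h) (clo_ND h) (pair_memD h) ?_ φ ?_
  · intro U hU hn
    exact rz_unip h (hloc U (hSI.1 hU) hn).1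
  · intro U hU hn
    exact rz_line h (hSI.1 hU) hn
  · intro U U' hU hU' hn _ ψ hT
    exact rz_twist h (hSI.1 hU) (hSI.1 hU') (ns_of_sdu h (hloc U (hSI.1 hU) hn).2) ψ hT
  · intro a ha hag ι _ _ f p hp ψ hψ
    have ha0 : ∀ i, a i = 0 := by
      refine hline W (fun i => hSI.1 (hW i)) st hst hDu hDu' a ha (fun i hi => ?_)
        (bal_sum h W (fun i => hSI.1 (hW i)) st hst hDu a ha hag)
      by_contra hne
      have h0 : 0 < finrank ℂ (W i) := by
        rw [Nat.pos_iff_ne_zero, ne_eq, Submodule.finrank_eq_zero]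
        exact (hSI.1 (hW i)).1
      have h1 := (hloc _ (hSI.1 (hW i)) (by omega)).2
      have h2 := hDu' i i ((rz_du h (hSI.1 (hW i)).2.1 (hSI.1 (hW i)).2.1).2 h1)
      have h3 := ha i
      rw [← h2] at h3
      omega
    have hE : IsEmpty (Σ q, ι q) := by
      refine ⟨fun x => ?_⟩
      obtain ⟨⟨i, q⟩, y⟩ := x
      have h1 := q.2
      have h2 := ha0 i
      omega
    exact (clo_ND h).unit _ ψ
  · refine ⟨⊤, inferInstance, fun g _ v => ?_⟩
    rw [MonoidHom.one_apply, one_pow, one_mul]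
    exact hφ g v

/-- Hodge classes belong to the ring generated by the divisor classes. -/
theorem div_of_hodge {κ : Type} [Finite κ] (f : (Fin G ⊕ Fin G → ℚ) [⋀^κ]→ₗ[ℚ] ℚ)
    (hf : IsHodge (perOne Z) f) : DivRing (AVZ h) κ f := by
  classical
  let _ : Fintype κ := Fintype.ofFinite κ
  refine altQ_altD h f ?_
  set φ := evalM (cst ℂ (CF f.toMultilinearMap)) with hφ
  have hinv := hodge_inv h hf
  rcases Nat.even_or_odd (Fintype.card κ) with he | ho
  · obtain ⟨m, hm⟩ := he
    have e : κ ≃ Fin m × Fin 2 := Fintype.equivOfCardEq (by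
      rw [Fintype.card_prod, Fintype.card_fin, Fintype.card_fin, hm]
      ring)
    have h1 := inv_memD h hloc hline (φ.domDomCongr e) (fun g v => by
      rw [MultilinearMap.domDomCongr_apply, MultilinearMap.domDomCongr_apply]
      exact hinv g _)
    have h2 : φ ∈ ND h κ := (clo_ND h).reindex e.symm h1 φ fun v => by
      rw [MultilinearMap.domDomCongr_apply]
      congr 1
      funext k
      simp
    exact h2 _ _
  · have h0 : φ = 0 := by
      refine MultilinearMap.ext fun v => ?_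
      have h1 := hinv (gt (D := ph _ (DZ Z)) (by rw [← map_mul, DZ_sq h.det, map_one])
        (mem_GG.2 DZ_mem) (-1)) v
      have h2 : (fun k => RZ Z (gt (D := ph _ (DZ Z)) (by rw [← map_mul, DZ_sq h.det, map_one])
        (mem_GG.2 DZ_mem) (-1)) (v k)) = fun k => (-1 : ℂ) • v k := by
        funext k
        change torE (ph _ (DZ Z)) (-1) (v k) = _
        rw [torE_apply]
        simp only [Units.val_neg, Units.val_one, inv_neg]
        module
      rw [h2, MultilinearMap.map_smul_univ, Finset.prod_const, Finset.card_univ,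
        Odd.neg_one_pow ho, neg_one_smul] at h1
      rw [← hφ] at h1
      have h3 : φ v = 0 := by linear_combination (-1 / 2 : ℂ) * h1
      rw [h3]
      rfl
    have h1 : φ ∈ ND h κ := by
      rw [h0]
      exact Submodule.zero_mem _
    exact h1 _ _

end

end Pool.Agent.N994.PG
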