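import Mathlib
import Pool.Agent.N994.PG.DivMain

/-!
# Abelian varieties on which all Hodge classes are generated by divisor classes
-/

set_option linter.unusedSectionVars false

namespace Pool.Agent.N994.PG

open Matrix Module Pool.Agent.W437.HC Pool.Agent.W437.HD Pool.Agent.TH504.CB Pool.Agent.Y90
open Pool.Agent.R915
open Pool.Agent.W548.Odd hiding cv
open Pool.Agent.H204R3.CM (IsHodge)
open Pool.Agent.W437.HP (cK cK_mul cK_one)

noncomputable section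

/-- Every abelian variety is isogenous to a principally polarized one. -/
theorem exists_model (X : AV) : ∃ (G : ℕ) (Z : Matrix (Fin G) (Fin G) ℂ) (h : PM Z)
    (A : X.H ≃ₗ[ℚ] (AVZ h).H), IsHom X (AVZ h) A.toLinearMap ∧
      IsHom (AVZ h) X A.symm.toLinearMap := by
  obtain ⟨G, Z, h, A, hC'⟩ := exists_ppav (AV.isAV X)
  obtain ⟨Ψ₁, h₁⟩ := h.cht.hom hC' (R := 1) (by rw [cK_one, Matrix.one_mul, Matrix.mul_one])
  obtain ⟨Ψ₂, h₂⟩ := hC'.hom h.cht (R := 1) (by rw [cK_one, Matrix.one_mul, Matrix.mul_one])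
  have e₁ : ∀ w, Ψ₁ (perOne Z w) = X.per (A.symm w) := fun w => by
    rw [h₁, one_mulVec]
    rfl
  have e₂ : ∀ v, Ψ₂ (X.per v) = perOne Z (A v) := fun v => by
    have h3 := h₂ (A v)
    have h4 : (X.per.comp A.symm.toLinearMap.toAddMonoidHom) (A v) = X.per v := by
      change X.per (A.symm (A v)) = X.per v
      rw [LinearEquiv.symm_apply_apply]
    rwa [h4, one_mulVec] at h3
  exact ⟨G, Z, h, A, ⟨Ψ₂, e₂⟩, ⟨Ψ₁, e₁⟩⟩

/-- Transfer to the model. -/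
theorem div_model {X : AV} {G : ℕ} {Z : Matrix (Fin G) (Fin G) ℂ} (h : PM Z)
    (A : X.H ≃ₗ[ℚ] (AVZ h).H) (h1 : IsHom X (AVZ h) A.toLinearMap)
    (h2 : IsHom (AVZ h) X A.symm.toLinearMap)
    (H : ∀ (κ : Type) [Finite κ] (f : (AVZ h).H [⋀^κ]→ₗ[ℚ] ℚ), IsHodge (AVZ h).per f →
      DivRing (AVZ h) κ f) {κ : Type} [Finite κ] (f : X.H [⋀^κ]→ₗ[ℚ] ℚ) :
    IsHodge X.per f ↔ DivRing X κ f := by
  refine ⟨fun hf => ?_, fun hf => hf.isHodge⟩
  obtain ⟨Ψ, hΨ⟩ := id h2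
  have h3 : IsHodge (AVZ h).per (f.compLinearMap A.symm.toLinearMap) :=
    isHodge_comp A.symm.toLinearMap Ψ hΨ hf
  have h4 := (H κ _ h3).pull A.toLinearMap h1
  have h5 : (f.compLinearMap A.symm.toLinearMap).compLinearMap A.toLinearMap = f := by
    ext v
    rw [AlternatingMap.compLinearMap_apply, AlternatingMap.compLinearMap_apply]
    congr 1
    funext k
    exact A.symm_apply_apply (v k)
  rwa [h5] at h4

/-- **Fields of degree at most four.** -/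
theorem four_main {k : IntermediateField ℚ ℂ} [FiniteDimensional ℚ k] (hk : finrank ℚ k ≤ 4)
    {X : AV} (hX : PeriodsIn X k) {κ : Type} [Finite κ] (f : X.H [⋀^κ]→ₗ[ℚ] ℚ) :
    IsHodge X.per f ↔ DivRing X κ f := by
  obtain ⟨G, Z, h, A, h1, h2⟩ := exists_model X
  have hZ := Z_mem h (hX.factor h2 A.symm.injective)
  refine div_model h A h1 h2 (fun κ _ f hf => ?_) f
  refine div_of_hodge h (fun U hU hn => ?_) ?_ f hf
  · rcases one_or_two hk h hZ hU with h3 | ⟨h3, h4⟩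
    · omega
    · exact ⟨(rk1_two h hU h4 (by omega)).1, h4⟩
  · intro s W hW st hst hDu hDu' a ha hone hsum i
    exact bal_one hk h hZ W hW st hst hDu hDu' a ha hone hsum i

/-- The condition for all irreducible submodules of a simple factor. -/
def DLC {a : ℕ} (Z : Matrix (Fin a) (Fin a) ℂ) : Prop :=
  ∀ U, IrS (LZ Z) U → Rk1 Z U ∧ SDu Z U ∧ 2 ≤ finrank ℂ U

/-- Transfer of the condition from the factors. -/
theorem DLC_of_factors {G : ℕ} {Z : Matrix (Fin G) (Fin G) ℂ} (h : PM Z)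
    (hs : ∀ (a : ℕ) (Z' : Matrix (Fin a) (Fin a) ℂ) (E : Matrix (Fin G ⊕ Fin G) (Fin a ⊕ Fin a) ℚ)
      (F : Matrix (Fin a ⊕ Fin a) (Fin G ⊕ Fin G) ℚ), Fac Z Z' E F → ∀ _ : PM Z', IsSimpleAV Z' →
      0 < a → DLC Z') : DLC Z := by
  intro U hU
  obtain ⟨a, Z', E, F, hf, h', hs', ha, h0⟩ := exists_fac h hU.1
  have hinj := hf.inj hU h0
  have hU' := hf.irr hU h0
  obtain ⟨h1, ⟨b, ⟨u', ⟨u, hu, rfl⟩, v', ⟨v, hv, rfl⟩, huv⟩, hb⟩, hn⟩ :=
    hs a Z' E F hf h' hs' ha _ hU'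
  rw [finrank_ml hinj] at hn
  refine ⟨?_, ⟨b.compl₁₂ (ml F) (ml F), ⟨u, hu, v, hv, huv⟩, fun X hX u hu v hv => ?_⟩, hn⟩
  · obtain ⟨D, hD, N', hN', h3, h4, h5⟩ := h1
    obtain ⟨ε, hε, rfl⟩ : ∃ ε : ℂ, (ε = 1 ∨ ε = -1) ∧ D = ε • DZ Z' := by
      rcases hD with rfl | rfl
      · exact ⟨1, Or.inl rfl, (one_smul _ _).symm⟩
      · exact ⟨-1, Or.inr rfl, (neg_one_smul _ _).symm⟩
    obtain ⟨N, hN, h6, h7, rfl⟩ := hf.lift_rk h h' ε hε hN' h3 h4
    refine ⟨ε • DZ Z, ?_, N, hN, h6, h7, ?_⟩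
    · rcases hε with rfl | rfl
      · exact Or.inl (one_smul _ _)
      · exact Or.inr (neg_one_smul _ _)
    · rw [act_mem hf hN hinj (hU.2.1 N hN)]
      exact h5
  · rw [LinearMap.compl₁₂_apply, LinearMap.compl₁₂_apply, hf.act hX, hf.act hX]
    exact hb _ (hf.comp hX).1 _ ⟨u, hu, rfl⟩ _ ⟨v, hv, rfl⟩

/-- **Abelian varieties all of whose simple factors satisfy the condition.** -/
theorem dlc_main (X : AV)
    (hs : ∀ (a : ℕ) (Z' : Matrix (Fin a) (Fin a) ℂ) (h' : PM Z') (i : (AVZ h').H →ₗ[ℚ] X.H),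
      IsHom (AVZ h') X i → Function.Injective i → IsSimple (AVZ h') → 0 < a → DLC Z')
    {κ : Type} [Finite κ] (f : X.H [⋀^κ]→ₗ[ℚ] ℚ) : IsHodge X.per f ↔ DivRing X κ f := by
  obtain ⟨G, Z, h, A, hA1, hA2⟩ := exists_model X
  refine div_model h A hA1 hA2 (fun κ _ f hf => ?_) f
  have hfac : DLC Z := DLC_of_factors h fun a Z' E F hfac h' hsim ha => by
    obtain ⟨Ψ₁, h₁⟩ := h'.cht.hom h.cht (R := E) (by rw [DJ_JR, DJ_JR]; exact hfac.de.symm)
    have h2 : IsHom (AVZ h') (AVZ h) (Matrix.mulVecLin E) := ⟨Ψ₁, fun v => h₁ v⟩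
    refine hs a Z' h' (A.symm.toLinearMap.comp (Matrix.mulVecLin E)) (IsHom.comp' hA2 h2) ?_
      (simple_of a h' hsim ha) ha
    intro x y hxy
    have h3 : E *ᵥ x = E *ᵥ y := A.symm.injective hxy
    have h4 := congrArg (fun v => F *ᵥ v) h3
    beta_reduce at h4
    rw [mulVec_mulVec, mulVec_mulVec, hfac.fe, one_mulVec, one_mulVec] at h4
    exact h4
  refine div_of_hodge h (fun U hU _ => ⟨(hfac U hU).1, (hfac U hU).2.1⟩) ?_ f hf
  intro s W hW st hst hDu hDu' a ha hone hsum i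
  by_contra hne
  have h1 := hone i hne
  have h2 := (hfac (W i) (hW i)).2.2
  omega

end

end Pool.Agent.N994.PG
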