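import Mathlib
import Pool.Agent.N994.PG.DivAV

/-!
# Alternating invariant forms on the irreducible submodules
-/

set_option linter.unusedSectionVars false

namespace Pool.Agent.N994.PG

open Matrix Module Pool.Agent.W437.HC Pool.Agent.W437.HD Pool.Agent.Y90 Pool.Agent.R915
open Pool.Agent.W548.Odd hiding cv
open Pool.Agent.N994.PF (rs Zk InL Ed)

noncomputable section

variable {g : ℕ} {Z : Matrix (Fin g) (Fin g) ℂ}

/-- There is an alternating invariant form on `U`. -/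
def AltF (Z : Matrix (Fin g) (Fin g) ℂ) (U : Submodule ℂ (Fin g ⊕ Fin g → ℂ)) : Prop :=
  ∃ b : (Fin g ⊕ Fin g → ℂ) →ₗ[ℂ] (Fin g ⊕ Fin g → ℂ) →ₗ[ℂ] ℂ, (∃ u ∈ U, ∃ v ∈ U, b u v ≠ 0) ∧
    (∀ X ∈ LZ Z, ∀ u ∈ U, ∀ v ∈ U, b (X *ᵥ u) v + b u (X *ᵥ v) = 0) ∧
    ∀ u ∈ U, ∀ v ∈ U, b u v = -b v u

theorem AltF.sdu {U : Submodule ℂ (Fin g ⊕ Fin g → ℂ)} (h : AltF Z U) : SDu Z U := by
  obtain ⟨b, h1, h2, -⟩ := h
  exact ⟨b, h1, h2⟩

theorem AltF.cj {U : Submodule ℂ (Fin g ⊕ Fin g → ℂ)} (h : AltF Z U) (σ : ℂ ≃+* ℂ) :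
    AltF Z (cjS σ U) := by
  obtain ⟨b, ⟨u, hu, v, hv, huv⟩, hb, ha⟩ := h
  refine ⟨cjB σ b, ⟨_, cj_mem_cjS hu, _, cj_mem_cjS hv, ?_⟩, ?_, ?_⟩
  · rw [cjB_apply]
    simp only [RingEquiv.symm_apply_apply]
    rw [ne_eq, map_eq_zero_iff σ σ.injective]
    exact huv
  · intro X hX u hu v hv
    rw [cjB_apply, cjB_apply, map_mulVec_aut σ.symm, map_mulVec_aut σ.symm, ← map_add,
      hb _ (gal_LZ σ.symm X hX) _ hu _ hv, map_zero]
  · intro u hu v hv
    rw [cjB_apply, cjB_apply, ha _ hu _ hv, map_neg]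

theorem AltF.of_map {U : Submodule ℂ (Fin g ⊕ Fin g → ℂ)}
    {T : (Fin g ⊕ Fin g → ℂ) →ₗ[ℂ] (Fin g ⊕ Fin g → ℂ)}
    (hT : ∀ X ∈ LZ Z, ∀ u ∈ U, T (X *ᵥ u) = X *ᵥ T u) (h : AltF Z (U.map T)) : AltF Z U := by
  obtain ⟨b, ⟨_, ⟨u, hu, rfl⟩, _, ⟨v, hv, rfl⟩, huv⟩, hb, ha⟩ := h
  refine ⟨b.compl₁₂ T T, ⟨u, hu, v, hv, huv⟩, fun X hX u hu v hv => ?_, fun u hu v hv => ?_⟩
  · rw [LinearMap.compl₁₂_apply, LinearMap.compl₁₂_apply, hT X hX u hu, hT X hX v hv]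
    exact hb X hX _ ⟨u, hu, rfl⟩ _ ⟨v, hv, rfl⟩
  · rw [LinearMap.compl₁₂_apply, LinearMap.compl₁₂_apply]
    exact ha _ ⟨u, hu, rfl⟩ _ ⟨v, hv, rfl⟩

/-- All irreducible submodules for a simple abelian variety are isomorphic to conjugates. -/
theorem iso_conj (h : PM Z) (hs : IsSimpleAV Z) {U U' : Submodule ℂ (Fin g ⊕ Fin g → ℂ)}
    (hU : IrS (LZ Z) U) (hU' : IrS (LZ Z) U') : ∃ (σ : ℂ ≃+* ℂ)
      (T : (Fin g ⊕ Fin g → ℂ) →ₗ[ℂ] (Fin g ⊕ Fin g → ℂ)),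
      (∀ X ∈ LZ Z, ∀ u ∈ cjS σ U, T (X *ᵥ u) = X *ᵥ T u) ∧ (∀ u ∈ cjS σ U, T u = 0 → u = 0) ∧
      (cjS σ U).map T = U' := by
  obtain ⟨π, h1, h2, h3⟩ := h.cred U' hU'.2.1
  obtain ⟨σ, u, hu, hu'⟩ : ∃ σ : ℂ ≃+* ℂ, ∃ u ∈ cjS σ U, π u ≠ 0 := by
    by_contra hcon
    push Not at hcon
    have h4 : ⨆ σ : ℂ ≃+* ℂ, cjS σ U ≤ LinearMap.ker π := iSup_le fun σ u hu => hcon σ u hu
    rw [conj_span h hs hU.2.1 hU.1, top_le_iff] at h4
    apply hU'.1
    rw [eq_bot_iff]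
    intro x hx
    have h5 : x ∈ LinearMap.ker π := by rw [h4]; trivial
    rw [Submodule.mem_bot, ← h3 x hx]
    exact h5
  have hc := hU.cj gal_LZ σ
  have hT : ∀ X ∈ LZ Z, ∀ u ∈ cjS σ U, π (X *ᵥ u) = X *ᵥ π u := fun X hX u _ => h1 X hX u
  exact ⟨σ, π, hT, hc.inj hT ⟨u, hu, hu'⟩, hc.map_eq hU' hT ⟨u, hu, hu'⟩ (fun u _ => h2 u)⟩

/-- The condition does not depend on the irreducible submodule. -/
theorem altF_all (h : PM Z) (hs : IsSimpleAV Z) {U U' : Submodule ℂ (Fin g ⊕ Fin g → ℂ)}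
    (hU : IrS (LZ Z) U) (hU' : IrS (LZ Z) U') (ha : AltF Z U') : AltF Z U := by
  obtain ⟨σ, T, hT, -, hmap⟩ := iso_conj h hs hU hU'
  rw [← hmap] at ha
  have h1 := (AltF.of_map hT ha).cj σ.symm
  rwa [cjS_symm] at h1

theorem om_zero (h : PM Z) {U : Submodule ℂ (Fin g ⊕ Fin g → ℂ)} (ha : ¬ AltF Z U) :
    ∀ u ∈ U, ∀ v ∈ U, om g u v = 0 := by
  intro u hu v hv
  by_contra h0
  exact ha ⟨om g, ⟨u, hu, v, hv, h0⟩, fun X hX u _ v _ => h.om_sp hX u v,
    fun u _ v _ => om_anti u v⟩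

/-- The orthogonal complement is a complement. -/
theorem perp_dim (Y W : Submodule ℂ (Fin g ⊕ Fin g → ℂ)) (hWY : W ≤ Y)
    (hnd : ∀ u ∈ W, (∀ w ∈ W, om g w u = 0) → u = 0)
    (Y' : Submodule ℂ (Fin g ⊕ Fin g → ℂ)) (hY' : ∀ y, y ∈ Y' ↔ y ∈ Y ∧ ∀ w ∈ W, om g w y = 0) :
    W ⊔ Y' = Y ∧ finrank ℂ W + finrank ℂ Y' = finrank ℂ Y := by
  have hdis : W ⊓ Y' = ⊥ := by
    rw [eq_bot_iff]
    rintro u ⟨hu, hu'⟩
    exact hnd u hu ((hY' u).1 hu').2
  have hle : W ⊔ Y' ≤ Y := sup_le hWY fun y hy => ((hY' y).1 hy).1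
  have h1 := Submodule.finrank_sup_add_finrank_inf_eq W Y'
  rw [hdis, finrank_bot, add_zero] at h1
  -- rank and nullity
  let Φ : Y →ₗ[ℂ] (W →ₗ[ℂ] ℂ) :=
    { toFun := fun y => (om g).flip (y : Fin g ⊕ Fin g → ℂ) ∘ₗ W.subtype
      map_add' := fun x y => by
        ext w
        simp
      map_smul' := fun c y => by
        ext w
        simp }
  have h2 := LinearMap.finrank_range_add_finrank_ker Φ
  have h3 : finrank ℂ (LinearMap.range Φ) ≤ finrank ℂ W := by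
    refine (Submodule.finrank_le _).trans ?_
    rw [Subspace.dual_finrank_eq]
  have h4 : finrank ℂ (LinearMap.ker Φ) = finrank ℂ Y' := by
    have h5 : (LinearMap.ker Φ).map Y.subtype = Y' := by
      ext y
      rw [hY']
      constructor
      · rintro ⟨y, hy, rfl⟩
        refine ⟨y.2, fun w hw => ?_⟩
        have h6 := congrArg (fun f => f ⟨w, hw⟩) (LinearMap.mem_ker.1 hy)
        exact h6
      · rintro ⟨hy, hw⟩
        refine ⟨⟨y, hy⟩, ?_, rfl⟩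
        change Φ ⟨y, hy⟩ = 0
        ext w
        exact hw w w.2
    rw [← h5]
    exact (Submodule.finrank_map_subtype_eq Y (LinearMap.ker Φ)).symm
  have h5 := Submodule.finrank_mono hle
  refine ⟨Submodule.eq_of_le_of_finrank_le hle (by omega), by omega⟩

/-- Without alternating forms, the dimensions of the stable nondegenerate subspaces are divisible by
`2 d`, where `d` is the dimension of the irreducible submodules. -/
theorem two_dvd (h : PM Z) {d : ℕ} (hd : ∀ U, IrS (LZ Z) U → finrank ℂ U = d)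
    (ha : ∀ U, IrS (LZ Z) U → ¬ AltF Z U) (m : ℕ) :
    ∀ Y : Submodule ℂ (Fin g ⊕ Fin g → ℂ), finrank ℂ Y = m → Stab (LZ Z) Y →
      (∀ u ∈ Y, (∀ v ∈ Y, om g u v = 0) → u = 0) → 2 * d ∣ m := by
  induction m using Nat.strong_induction_on with
  | _ m ih =>
    intro Y hY hs hnd
    by_cases h0 : Y = ⊥
    · rw [← hY, h0, finrank_bot]
      exact dvd_zero _
    obtain ⟨U, hUY, hU⟩ := exists_irS _ Y rfl h0 hs
    have hUz := om_zero h (ha U hU)
    -- the vectors of `Y` orthogonal to `U`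
    have perpS : ∀ A : Submodule ℂ (Fin g ⊕ Fin g → ℂ), Stab (LZ Z) A →
        ∃ K : Submodule ℂ (Fin g ⊕ Fin g → ℂ), Stab (LZ Z) K ∧
          ∀ y, y ∈ K ↔ y ∈ Y ∧ ∀ u ∈ A, om g u y = 0 := by
      intro A hA
      refine ⟨{ carrier := {y | y ∈ Y ∧ ∀ u ∈ A, om g u y = 0}
                add_mem' := fun {a b} ha hb => ⟨Y.add_mem ha.1 hb.1, fun u hu => by
                  rw [map_add, ha.2 u hu, hb.2 u hu, add_zero]⟩
                zero_mem' := ⟨Y.zero_mem, fun u _ => map_zero _⟩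
                smul_mem' := fun c a ha => ⟨Y.smul_mem c ha.1, fun u hu => by
                  rw [map_smul, ha.2 u hu, smul_zero]⟩ }, ?_, fun y => Iff.rfl⟩
      rintro X hX y ⟨hy, hy'⟩
      refine ⟨hs X hX y hy, fun u hu => ?_⟩
      have h1 := h.om_sp hX u y
      rw [hy' _ (hA X hX u hu), zero_add] at h1
      exact h1
    obtain ⟨K, hK, hK'⟩ := perpS U hU.2.1
    obtain ⟨C, hC, hCY, hC1, hC2⟩ := h.cred.compl hK hs fun y hy => ((hK' y).1 hy).1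
    obtain ⟨u0, hu0, hu00⟩ := Submodule.exists_mem_ne_zero_of_ne_bot hU.1
    have hC0 : C ≠ ⊥ := by
      rintro rfl
      rw [sup_bot_eq] at hC2
      refine hu00 (hnd u0 (hUY hu0) fun v hv => ?_)
      rw [← hC2] at hv
      exact ((hK' v).1 hv).2 u0 hu0
    obtain ⟨U', hUC, hU'⟩ := exists_irS _ C rfl hC0 hC
    have hUz' := om_zero h (ha U' hU')
    have hUY' : U' ≤ Y := hUC.trans hCY
    obtain ⟨p, hp, q, hq, hpq⟩ : ∃ p ∈ U, ∃ q ∈ U', om g p q ≠ 0 := by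
      by_contra hcon
      push Not at hcon
      apply hU'.1
      rw [eq_bot_iff]
      intro q hq
      have h1 : q ∈ K ⊓ C := ⟨(hK' q).2 ⟨hUY' hq, fun p hp => hcon p hp q hq⟩, hUC hq⟩
      rwa [hC1] at h1
    have hUU' : U ⊓ U' = ⊥ := by
      refine hU.disjoint hU'.2.1 fun hle => ?_
      rcases hU'.2.2 _ hle hU.2.1 with h1 | h1
      · exact hU.1 h1
      · rw [h1] at hp
        exact hpq (hUz' p hp q hq)
    -- the two submodules are dual
    have dual1 : ∀ A B : Submodule ℂ (Fin g ⊕ Fin g → ℂ), IrS (LZ Z) A → Stab (LZ Z) B →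
        (∃ p ∈ A, ∃ q ∈ B, om g q p ≠ 0) → ∀ p ∈ A, (∀ q ∈ B, om g q p = 0) → p = 0 := by
      rintro A B hA hB ⟨p, hp, q, hq, hpq⟩ a ha haB
      let S : Submodule ℂ (Fin g ⊕ Fin g → ℂ) :=
        { carrier := {y | y ∈ A ∧ ∀ u ∈ B, om g u y = 0}
          add_mem' := fun {a b} ha hb => ⟨A.add_mem ha.1 hb.1, fun u hu => by
            rw [map_add, ha.2 u hu, hb.2 u hu, add_zero]⟩
          zero_mem' := ⟨A.zero_mem, fun u _ => map_zero _⟩
          smul_mem' := fun c a ha => ⟨A.smul_mem c ha.1, fun u hu => by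
            rw [map_smul, ha.2 u hu, smul_zero]⟩ }
      have hS : Stab (LZ Z) S := by
        rintro X hX y ⟨hy, hy'⟩
        refine ⟨hA.2.1 X hX y hy, fun u hu => ?_⟩
        have h1 := h.om_sp hX u y
        rw [hy' _ (hB X hX u hu), zero_add] at h1
        exact h1
      rcases hA.2.2 S (fun y hy => hy.1) hS with h1 | h1
      · have h2 : a ∈ S := ⟨ha, haB⟩
        rw [h1] at h2
        exact h2
      · have h2 : p ∈ S := by rw [h1]; exact hp
        exact absurd (h2.2 q hq) hpq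
    have hndW : ∀ u ∈ U ⊔ U', (∀ w ∈ U ⊔ U', om g w u = 0) → u = 0 := by
      intro u hu hw
      obtain ⟨a, ha', b, hb', rfl⟩ := Submodule.mem_sup.1 hu
      have h1 : a = 0 := dual1 U U' hU hU'.2.1 ⟨p, hp, q, hq, by
        rw [om_anti]
        exact neg_ne_zero.2 hpq⟩ a ha' fun q' hq' => by
        have h2 := hw q' (Submodule.mem_sup_right hq')
        rwa [map_add, hUz' q' hq' b hb', add_zero] at h2
      have h2 : b = 0 := dual1 U' U hU' hU.2.1 ⟨q, hq, p, hp, hpq⟩ b hb' fun p' hp' => by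
        have h2 := hw p' (Submodule.mem_sup_left hp')
        rwa [map_add, hUz p' hp' a ha', zero_add] at h2
      rw [h1, h2, add_zero]
    obtain ⟨Y', hYs, hY'⟩ := perpS (U ⊔ U') (by
      intro X hX u hu
      obtain ⟨a, ha', b, hb', rfl⟩ := Submodule.mem_sup.1 hu
      rw [mulVec_add]
      exact Submodule.add_mem_sup (hU.2.1 X hX a ha') (hU'.2.1 X hX b hb'))
    obtain ⟨hsup, hfin⟩ := perp_dim Y (U ⊔ U') (sup_le hUY hUY') hndW Y' hY'
    have hW := Submodule.finrank_sup_add_finrank_inf_eq U U'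
    rw [hUU', finrank_bot, add_zero, hd U hU, hd U' hU'] at hW
    have hdpos : 0 < d := by
      rw [← hd U hU, Nat.pos_iff_ne_zero, ne_eq, Submodule.finrank_eq_zero]
      exact hU.1
    have h6 := ih (finrank ℂ Y') (by omega) Y' rfl hYs fun u hu hu' => by
      refine hnd u ((hY' u).1 hu).1 fun v hv => ?_
      rw [← hsup] at hv
      obtain ⟨a, ha', b, hb', rfl⟩ := Submodule.mem_sup.1 hv
      rw [map_add, hu' b hb', add_zero, om_anti, ((hY' u).1 hu).2 a ha', neg_zero]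
    have h7 : m = 2 * d + finrank ℂ Y' := by omega
    rw [h7]
    exact (Nat.dvd_add_right (dvd_refl _)).2 h6

/-- Without alternating forms, the dimension of the irreducible submodules divides the dimension of
the simple abelian variety. -/
theorem dvd_of_not_alt (h : PM Z) (hs : IsSimpleAV Z) {U : Submodule ℂ (Fin g ⊕ Fin g → ℂ)}
    (hU : IrS (LZ Z) U) (ha : ¬ AltF Z U) : finrank ℂ U ∣ g := by
  have h1 := two_dvd h (d := finrank ℂ U) (fun U' hU' => finrank_irS h hs hU' hU)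
    (fun U' hU' ha' => ha (altF_all h hs hU hU' ha')) (2 * g) ⊤ (by
      rw [finrank_top, finrank_fintype_fun_eq_card, Fintype.card_sum, Fintype.card_fin]
      ring) stab_top fun u _ hu => om_nd u fun v => hu v trivial
  exact (Nat.mul_dvd_mul_iff_left two_pos).1 h1

end

end Pool.Agent.N994.PG
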