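import Mathlib
import Pool.Agent.N994.PG.Alt

/-!
# Fields of degree five: abelian varieties of odd dimension
-/

set_option linter.unusedSectionVars false

namespace Pool.Agent.N994.PG

open Matrix Module Pool.Agent.W437.HC Pool.Agent.W437.HD Pool.Agent.Y90 Pool.Agent.R915
open Pool.Agent.W548.Odd hiding cv
open Pool.Agent.N994.PF (rs Zk InL Ed Sys PP PP_eq comb card_emb)

noncomputable section

variable {g : ℕ} {Z : Matrix (Fin g) (Fin g) ℂ} {k : IntermediateField ℚ ℂ}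

/-- The dimensions of the parts in linked Lagrangian subspaces. -/
theorem edge_eq (h : PM Z) (hZ : ∀ i j, Z i j ∈ k) {p q : k →+* ℂ} (he : Ed k p q)
    {U : Submodule ℂ (Fin g ⊕ Fin g → ℂ)} (hU : Stab (LZ Z) U) :
    finrank ℂ (U ⊓ Lp hZ p : Submodule ℂ (Fin g ⊕ Fin g → ℂ)) +
      finrank ℂ (U ⊓ Lp hZ q : Submodule ℂ (Fin g ⊕ Fin g → ℂ)) = finrank ℂ U := by
  refine le_antisymm (edge_le h hZ he U) ?_
  obtain ⟨σ, h1, h2⟩ := he
  have h2' : rs k (cc.trans σ) = q := h2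
  rw [← h1, ← h2', Lp_neg h, Lp_pos h]
  have h3 := Submodule.finrank_sup_add_finrank_inf_eq (U ⊓ Eg (DS Z σ) (-1)) (U ⊓ Eg (DS Z σ) 1)
  rw [eg_disj, finrank_bot, add_zero] at h3
  rw [← h3]
  refine Submodule.finrank_mono fun u hu => ?_
  have hD := hU _ (DS_mem σ) u hu
  have e1 : u = (2 : ℂ)⁻¹ • (u - DS Z σ *ᵥ u) + (2 : ℂ)⁻¹ • (u + DS Z σ *ᵥ u) := by module
  rw [e1]
  refine Submodule.add_mem_sup ⟨U.smul_mem _ (U.sub_mem hu hD), mem_Eg.2 ?_⟩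
    ⟨U.smul_mem _ (U.add_mem hu hD), mem_Eg.2 ?_⟩
  · rw [mulVec_smul, mulVec_sub, DD h]
    module
  · rw [mulVec_smul, mulVec_add, DD h]
    module

/-- For fields of degree five, all embeddings give parts of the same dimension. -/
theorem even_five [FiniteDimensional ℚ k] (hd : finrank ℚ k = 5) (h : PM Z) (hg : 0 < g)
    (hZ : ∀ i j, Z i j ∈ k) {U : Submodule ℂ (Fin g ⊕ Fin g → ℂ)} (hU : Stab (LZ Z) U)
    (p : k →+* ℂ) : 2 * finrank ℂ (U ⊓ Lp hZ p : Submodule ℂ (Fin g ⊕ Fin g → ℂ)) =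
      finrank ℂ U := by
  have hi := Ed_irr h hZ (exists_ne hg)
  have G := gr (noReal_five hd hi) hi
  obtain ⟨_, hcard⟩ := card_emb (k := k)
  rw [← hcard] at hd
  obtain ⟨w, hw, hs, h05⟩ := G.five hd
  obtain ⟨i, rfl⟩ := hs p
  have e01 := edge_eq h hZ (hw 0 1 rfl) hU
  have e12 := edge_eq h hZ (hw 1 2 rfl) hU
  have e23 := edge_eq h hZ (hw 2 3 rfl) hU
  have e34 := edge_eq h hZ (hw 3 4 rfl) hU
  have e45 := edge_eq h hZ (hw 4 5 rfl) hU
  rw [← h05] at e45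
  have h5 : finrank ℂ (U ⊓ Lp hZ (w 5) : Submodule ℂ (Fin g ⊕ Fin g → ℂ)) =
      finrank ℂ (U ⊓ Lp hZ (w 0) : Submodule ℂ (Fin g ⊕ Fin g → ℂ)) := by rw [h05]
  fin_cases i <;> simp only [Fin.zero_eta, Fin.mk_one, Fin.reduceFinMk] at * <;> omega

/-- A rank one element for alternating submodules. -/
theorem dlc_alt [FiniteDimensional ℚ k] (hk : NoReal k) (hd : finrank ℚ k = 5 ∨ finrank ℚ k = 6)
    (h : PM Z) (hg : 0 < g) (hZ : ∀ i j, Z i j ∈ k) {U : Submodule ℂ (Fin g ⊕ Fin g → ℂ)}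
    (hU : IrS (LZ Z) U) (ha : AltF Z U) : Rk1 Z U ∧ SDu Z U ∧ 2 ≤ finrank ℂ U := by
  refine ⟨?_, ha.sdu, ?_⟩
  · obtain ⟨b, h0, hb, hal⟩ := ha
    obtain ⟨z, hz⟩ := exists_path hk (Ed_irr h hZ (exists_ne hg)) hd
    exact rk1_path h hZ hU b h0 hb hal hz
  · obtain ⟨b, h0, hb⟩ := ha.sdu
    have htr := tr_dual h hU hU h0 hb
    have hpq := pd_add_qd h hU.2.1
    unfold tr at htr
    have h1 : 0 < finrank ℂ U := by
      rw [Nat.pos_iff_ne_zero, ne_eq, Submodule.finrank_eq_zero]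
      exact hU.1
    omega

/-- **Odd dimension, degree five.** -/
theorem dlc_odd [FiniteDimensional ℚ k] (hd : finrank ℚ k = 5) (h : PM Z) (hs : IsSimpleAV Z)
    (hg : Odd g) (hZ : ∀ i j, Z i j ∈ k) : DLC Z := by
  intro U hU
  have hg0 : 0 < g := hg.pos
  refine dlc_alt (noReal_five hd (Ed_irr h hZ (exists_ne hg0))) (Or.inl hd) h hg0 hZ hU ?_
  by_contra ha
  have h1 := dvd_of_not_alt h hs hU ha
  have h2 := even_five hd h hg0 hZ hU.2.1 (algebraMap k ℂ)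
  rw [← h2] at h1
  have h3 : 2 ∣ g := (Dvd.intro _ rfl).trans h1
  exact (Nat.not_even_iff_odd.2 hg) (even_iff_two_dvd.2 h3)

/-- **The types I and II, degree five or six.** -/
theorem dlc_real [FiniteDimensional ℚ k] (hk : NoReal k)
    (hd : finrank ℚ k = 5 ∨ finrank ℚ k = 6) (h : PM Z) (hs : IsSimpleAV Z) (hg : 0 < g)
    (hZ : ∀ i j, Z i j ∈ k) {a : Module.End ℚ (Fin g ⊕ Fin g → ℚ)} (ha : RealMax (AVZ h) a) :
    DLC Z := by
  intro U hU
  have h1 := (ha.rf h).sdu h hs hg hU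
  refine ⟨rk1_rf h hs hg hZ hk hd (ha.rf h) hU, h1, ?_⟩
  obtain ⟨b, h0, hb⟩ := h1
  have htr := tr_dual h hU hU h0 hb
  have hpq := pd_add_qd h hU.2.1
  unfold tr at htr
  have h1 : 0 < finrank ℂ U := by
    rw [Nat.pos_iff_ne_zero, ne_eq, Submodule.finrank_eq_zero]
    exact hU.1
  omega

end

end Pool.Agent.N994.PG
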