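import Mathlib
import Pool.Agent.N994.PG.Alt
import Pool.Agent.N994.PG.Quin

/-!
# Number fields of odd degree
-/

set_option linter.unusedSectionVars false

namespace Pool.Agent.N994.PG

open Matrix Module Pool.Agent.W437.HC Pool.Agent.W437.HD Pool.Agent.Y90 Pool.Agent.R915
open Pool.Agent.W548.Odd hiding cv
open Pool.Agent.N994.PF (rs Zk InL Ed Sys PP PP_eq comb card_emb)
open Pool.Agent.Y4 (exists_aut_emb)
open Pool.Agent.W522.U (Du)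

open scoped ComplexOrder

noncomputable section

variable {g : ℕ} {Z : Matrix (Fin g) (Fin g) ℂ} {k : IntermediateField ℚ ℂ}

/-- A number field of odd degree has a real embedding. -/
theorem exists_real [FiniteDimensional ℚ k] (hodd : Odd (finrank ℚ k)) :
    ∃ p : k →+* ℂ, ∀ x, cc (p x) = p x := by
  classical
  have : NumberField k := ⟨⟩
  have h1 := NumberField.InfinitePlace.nrRealPlaces_pos_of_odd_finrank hodd
  obtain ⟨w, hw⟩ := Fintype.card_pos_iff.1 h1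
  rw [NumberField.InfinitePlace.isReal_iff] at hw
  refine ⟨w.embedding, fun x => ?_⟩
  have h2 := congrArg (fun f : k →+* ℂ => f x) hw
  exact h2

theorem Lp_map (hZ : ∀ i j, Z i j ∈ k) (p : k →+* ℂ) (ρ : ℂ ≃+* ℂ) {u : Fin g ⊕ Fin g → ℂ}
    (hu : u ∈ Lp hZ p) : (fun i => ρ (u i)) ∈ Lp hZ ((ρ : ℂ →+* ℂ).comp p) := by
  obtain ⟨b, rfl⟩ := hu
  refine ⟨fun i => ρ (b i), ?_⟩
  funext i
  rcases i with i | i
  · simp [vecL, mulVec, dotProduct, map_sum]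
  · simp [vecL]

theorem Lp_cj (hZ : ∀ i j, Z i j ∈ k) (p : k →+* ℂ) (ρ : ℂ ≃+* ℂ) :
    cjS ρ (Lp hZ p) = Lp hZ ((ρ : ℂ →+* ℂ).comp p) := by
  ext u
  rw [mem_cjS]
  constructor
  · intro hu
    have h1 := Lp_map hZ p ρ hu
    simpa using h1
  · intro hu
    have h1 := Lp_map hZ _ ρ.symm hu
    have h2 : (ρ.symm : ℂ →+* ℂ).comp ((ρ : ℂ →+* ℂ).comp p) = p := by
      ext x
      exact ρ.symm_apply_apply _
    rwa [h2] at h1

theorem np_cj (hZ : ∀ i j, Z i j ∈ k) (p : k →+* ℂ) (ρ : ℂ ≃+* ℂ)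
    (U : Submodule ℂ (Fin g ⊕ Fin g → ℂ)) :
    finrank ℂ (cjS ρ U ⊓ Lp hZ ((ρ : ℂ →+* ℂ).comp p) : Submodule ℂ (Fin g ⊕ Fin g → ℂ)) =
      finrank ℂ (U ⊓ Lp hZ p : Submodule ℂ (Fin g ⊕ Fin g → ℂ)) := by
  rw [← Lp_cj, ← finrank_cjS ρ (U ⊓ Lp hZ p)]
  rfl

theorem DS_refl : DS Z (RingEquiv.refl ℂ) = DZ Z := by
  ext i j
  rfl

theorem qd_cj (h : PM Z) (hZ : ∀ i j, Z i j ∈ k) (σ : ℂ ≃+* ℂ)
    (U : Submodule ℂ (Fin g ⊕ Fin g → ℂ)) : qd Z (cjS σ.symm U) =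
      finrank ℂ (U ⊓ Lp hZ (rs k σ) : Submodule ℂ (Fin g ⊕ Fin g → ℂ)) := by
  have h1 : eig Z (-1) = Lp hZ (rs k (RingEquiv.refl ℂ)) := by
    rw [Lp_neg h, DS_refl]
    ext v
    rw [mem_eig, mem_Eg]
  have h2 : (σ.symm : ℂ →+* ℂ).comp (rs k σ) = rs k (RingEquiv.refl ℂ) := by
    ext x
    exact σ.symm_apply_apply _
  unfold qd
  rw [h1, ← h2, np_cj]

theorem pd_cj (h : PM Z) (hZ : ∀ i j, Z i j ∈ k) (σ : ℂ ≃+* ℂ)
    (U : Submodule ℂ (Fin g ⊕ Fin g → ℂ)) : pd Z (cjS σ.symm U) =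
      finrank ℂ (U ⊓ Lp hZ (rs k (cc.trans σ)) : Submodule ℂ (Fin g ⊕ Fin g → ℂ)) := by
  have h1 : eig Z 1 = Lp hZ (rs k (cc.trans (RingEquiv.refl ℂ))) := by
    rw [Lp_pos h, DS_refl]
    ext v
    rw [mem_eig, mem_Eg]
  have h2 : (σ.symm : ℂ →+* ℂ).comp (rs k (cc.trans σ)) = rs k (cc.trans (RingEquiv.refl ℂ)) := by
    ext x
    exact σ.symm_apply_apply _
  unfold pd
  rw [h1, ← h2, np_cj]

/-- The form pairs `U` with the conjugate submodule. -/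
theorem pair_bar (h : PM Z) {U : Submodule ℂ (Fin g ⊕ Fin g → ℂ)} (hU : IrS (LZ Z) U) :
    ∃ u ∈ U, ∃ v ∈ cjS cc U, om g u v ≠ 0 := by
  obtain ⟨w, hw, hw0⟩ := Submodule.exists_mem_ne_zero_of_ne_bot hU.1
  refine ⟨DZ Z *ᵥ w, hU.2.1 _ DZ_mem w hw, cnj w, cj_mem_cjS hw, fun h0 => ?_⟩
  have h1 := h.herm_pos hw0
  rw [om_anti, h0, neg_zero, mul_zero] at h1
  exact lt_irrefl _ h1

theorem du_bar (h : PM Z) {U : Submodule ℂ (Fin g ⊕ Fin g → ℂ)} (hU : IrS (LZ Z) U) :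
    Du (RZ Z) 1 U (cjS cc U) :=
  (rz_du h hU.2.1 (hU.cj gal_LZ cc).2.1).2 ⟨om g, pair_bar h hU,
    fun X hX u _ v _ => h.om_sp hX u v⟩

/-- **All signatures are balanced for period fields of odd degree.** -/
theorem even_odd [FiniteDimensional ℚ k] (hodd : Odd (finrank ℚ k)) (h : PM Z)
    (hZ : ∀ i j, Z i j ∈ k) {U : Submodule ℂ (Fin g ⊕ Fin g → ℂ)} (hU : IrS (LZ Z) U)
    (p : k →+* ℂ) : 2 * finrank ℂ (U ⊓ Lp hZ p : Submodule ℂ (Fin g ⊕ Fin g → ℂ)) =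
      finrank ℂ U := by
  have : NumberField k := ⟨⟩
  obtain ⟨p₀, hp₀⟩ := exists_real hodd
  -- the real embedding
  have key : ∀ {U : Submodule ℂ (Fin g ⊕ Fin g → ℂ)}, IrS (LZ Z) U →
      2 * finrank ℂ (U ⊓ Lp hZ p₀ : Submodule ℂ (Fin g ⊕ Fin g → ℂ)) = finrank ℂ U := by
    intro U hU
    obtain ⟨σ, hσ⟩ := exists_aut_emb (algebraMap k ℂ) p₀
    have hσ' : rs k σ = p₀ := hσ
    have hUb := hU.cj gal_LZ cc
    have h1 := edge_eq h hZ (p := rs k σ) (q := rs k (cc.trans σ)) ⟨σ, rfl, rfl⟩ hU.2.1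
    have h2 := edge_eq h hZ (p := rs k σ) (q := rs k (cc.trans σ)) ⟨σ, rfl, rfl⟩ hUb.2.1
    have h3 := tr_st h hU hUb (du_bar h hU) σ.symm
    unfold tr at h3
    rw [pd_cj h hZ, qd_cj h hZ, pd_cj h hZ, qd_cj h hZ] at h3
    have h4 : finrank ℂ (cjS cc U ⊓ Lp hZ (rs k σ) : Submodule ℂ (Fin g ⊕ Fin g → ℂ)) =
        finrank ℂ (U ⊓ Lp hZ (rs k σ) : Submodule ℂ (Fin g ⊕ Fin g → ℂ)) := by
      have h5 := np_cj hZ (rs k σ) cc U
      have h6 : (cc : ℂ →+* ℂ).comp (rs k σ) = rs k σ := by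
        rw [hσ']
        ext x
        exact hp₀ x
      rwa [h6] at h5
    rw [finrank_cjS] at h2
    rw [← hσ']
    omega
  obtain ⟨ρ, hρ⟩ := exists_aut_emb p p₀
  have h1 := key (hU.cj gal_LZ ρ)
  rw [finrank_cjS, ← hρ, np_cj] at h1
  exact h1

/-- The traces vanish. -/
theorem tr_odd [FiniteDimensional ℚ k] (hodd : Odd (finrank ℚ k)) (h : PM Z)
    (hZ : ∀ i j, Z i j ∈ k) {U : Submodule ℂ (Fin g ⊕ Fin g → ℂ)} (hU : IrS (LZ Z) U)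
    (τ : ℂ ≃+* ℂ) : 2 * pd Z (cjS τ U) = finrank ℂ U ∧ 2 * qd Z (cjS τ U) = finrank ℂ U := by
  have h1 := pd_cj h hZ τ.symm U
  have h2 := qd_cj h hZ τ.symm U
  rw [RingEquiv.symm_symm] at h1 h2
  rw [h1, h2]
  exact ⟨even_odd hodd h hZ hU _, even_odd hodd h hZ hU _⟩

end

end Pool.Agent.N994.PG
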