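import Mathlib
import Pool.Agent.N994.PG.OddDeg

/-!
# Orthogonal submodules carry a quaternionic structure
-/

set_option linter.unusedSectionVars false

namespace Pool.Agent.N994.PG

open Matrix Module Pool.Agent.W437.HC Pool.Agent.W437.HD Pool.Agent.Y90 Pool.Agent.R915
open Pool.Agent.W548.Odd hiding cv
open Pool.Agent.N994.PF (rs Zk InL Ed Sys PP PP_eq comb card_emb)
open Pool.Agent.Y4 (exists_aut_emb)

open scoped ComplexOrder

noncomputable section

variable {g : ℕ} {Z : Matrix (Fin g) (Fin g) ℂ} {k : IntermediateField ℚ ℂ}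

/-- `T` commutes with the Lie algebra and maps `U` to the conjugate submodule. -/
structure BarI (Z : Matrix (Fin g) (Fin g) ℂ) (U : Submodule ℂ (Fin g ⊕ Fin g → ℂ))
    (T : Matrix (Fin g ⊕ Fin g) (Fin g ⊕ Fin g) ℂ) : Prop where
  comm : ∀ X ∈ LZ Z, X * T = T * X
  mem : ∀ u ∈ U, T *ᵥ u ∈ cjS cc U
  ne : ∃ u ∈ U, T *ᵥ u ≠ 0

theorem mem_cc {U : Submodule ℂ (Fin g ⊕ Fin g → ℂ)} {v : Fin g ⊕ Fin g → ℂ} :
    v ∈ cjS cc U ↔ cnj v ∈ U := Iff.rfl

theorem cnj_eig (u : Fin g ⊕ Fin g → ℂ) (ε : ℂ) (hε : cc ε = ε) (hu : DZ Z *ᵥ u = ε • u) :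
    DZ Z *ᵥ cnj u = (-ε) • cnj u := by
  have h1 : cnj (DZ Z *ᵥ u) = -(DZ Z *ᵥ cnj u) := cnj_DZ u
  rw [hu, cnj_smul, hε] at h1
  rw [neg_smul, h1, neg_neg]

/-- An eigenvector of the complex structure. -/
theorem exists_eigvec (h : PM Z) {U : Submodule ℂ (Fin g ⊕ Fin g → ℂ)} (hU : IrS (LZ Z) U) :
    ∃ u ∈ U, u ≠ 0 ∧ ∃ ε : ℂ, cc ε = ε ∧ ε ≠ 0 ∧ DZ Z *ᵥ u = ε • u := by
  obtain ⟨w, hw, hw0⟩ := Submodule.exists_mem_ne_zero_of_ne_bot hU.1
  have hDw := hU.2.1 _ DZ_mem w hw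
  have h2 : DZ Z *ᵥ (DZ Z *ᵥ w) = w := by rw [mulVec_mulVec, DZ_sq h.det, one_mulVec]
  by_cases h1 : w + DZ Z *ᵥ w = 0
  · refine ⟨w, hw, hw0, -1, by rw [map_neg, map_one], by norm_num, ?_⟩
    rw [neg_one_smul]
    exact eq_neg_of_add_eq_zero_right h1
  · refine ⟨_, U.add_mem hw hDw, h1, 1, map_one _, one_ne_zero, ?_⟩
    rw [mulVec_add, h2, one_smul, add_comm]

variable (h : PM Z) {U : Submodule ℂ (Fin g ⊕ Fin g → ℂ)} (hU : IrS (LZ Z) U)
  (ha : ¬ AltF Z U) {T : Matrix (Fin g ⊕ Fin g) (Fin g ⊕ Fin g) ℂ} (hT : BarI Z U T)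

include hU hT in
theorem BarI.inj : ∀ u ∈ U, T *ᵥ u = 0 → u = 0 := by
  have h1 : ∀ X ∈ LZ Z, ∀ u ∈ U, mulVecLin T (X *ᵥ u) = X *ᵥ mulVecLin T u := by
    intro X hX u _
    rw [mulVecLin_apply, mulVecLin_apply, mulVec_mulVec, mulVec_mulVec, hT.comm X hX]
  exact hU.inj h1 hT.ne

include h ha hT in
/-- The invariant form is symmetric. -/
theorem BarI.symm : ∀ u ∈ U, ∀ v ∈ U, om g u (T *ᵥ v) = om g v (T *ᵥ u) := by
  intro u hu v hv
  by_contra h0
  let b : (Fin g ⊕ Fin g → ℂ) →ₗ[ℂ] (Fin g ⊕ Fin g → ℂ) →ₗ[ℂ] ℂ :=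
    (om g).compl₂ (mulVecLin T) - ((om g).compl₂ (mulVecLin T)).flip
  have hb : ∀ x y, b x y = om g x (T *ᵥ y) - om g y (T *ᵥ x) := fun x y => rfl
  refine ha ⟨b, ⟨u, hu, v, hv, ?_⟩, fun X hX x _ y _ => ?_, fun x _ y _ => ?_⟩
  · rw [hb]
    exact sub_ne_zero.2 h0
  · have e1 := h.om_sp hX x (T *ᵥ y)
    have e2 := h.om_sp hX y (T *ᵥ x)
    have e3 : T *ᵥ (X *ᵥ y) = X *ᵥ (T *ᵥ y) := by
      rw [mulVec_mulVec, mulVec_mulVec, hT.comm X hX]
    have e4 : T *ᵥ (X *ᵥ x) = X *ᵥ (T *ᵥ x) := by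
      rw [mulVec_mulVec, mulVec_mulVec, hT.comm X hX]
    rw [hb, hb, e3, e4]
    linear_combination e1 - e2
  · rw [hb, hb]
    ring

include h hU ha hT in
/-- **The quaternionic structure.** -/
theorem BarI.quat : ∃ c : ℝ, c < 0 ∧ ∀ u ∈ U, cnj (T *ᵥ cnj (T *ᵥ u)) = (c : ℂ) • u := by
  have hTc : ∀ v, cnj (T *ᵥ v) = T.map cc *ᵥ cnj v := fun v => cnj_mulVec T v
  have hS : ∀ u, (T.map cc * T) *ᵥ u = cnj (T *ᵥ cnj (T *ᵥ u)) := by
    intro u
    rw [hTc, cnj_cnj, mulVec_mulVec]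
  have hcomm : ∀ X ∈ LZ Z, X * (T.map cc * T) = (T.map cc * T) * X := by
    intro X hX
    have h1 : X * T.map cc = T.map cc * X := by
      have h2 := hT.comm _ (gal_LZ cc X hX)
      have h3 := congrArg (fun M : Matrix (Fin g ⊕ Fin g) (Fin g ⊕ Fin g) ℂ => M.map cc) h2
      beta_reduce at h3
      rw [Matrix.map_mul, Matrix.map_mul] at h3
      have h4 : (X.map cc).map cc = X := by
        ext i j
        exact Complex.conj_conj _
      rwa [h4] at h3
    rw [← Matrix.mul_assoc, h1, Matrix.mul_assoc, hT.comm X hX, Matrix.mul_assoc]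
  have hmem : ∀ u ∈ U, cnj (T *ᵥ u) ∈ U := fun u hu => mem_cc.1 (hT.mem u hu)
  obtain ⟨c, hc⟩ := schur_scalar hU hcomm fun u hu => by
    rw [hS]
    exact hmem _ (hmem u hu)
  obtain ⟨u, hu, hu0, ε, hε, hε0, hDu⟩ := exists_eigvec h hU
  set w := cnj (T *ᵥ u) with hw
  have hwU : w ∈ U := hmem u hu
  have hcw : cnj w = T *ᵥ u := by rw [hw, cnj_cnj]
  have hw0 : w ≠ 0 := by
    intro h1
    have h2 : T *ᵥ u = 0 := by
      rw [← hcw, h1]
      funext i
      exact map_zero _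
    exact hu0 (hT.inj hU u hu h2)
  have hDT : DZ Z *ᵥ (T *ᵥ u) = ε • (T *ᵥ u) := by
    rw [mulVec_mulVec, hT.comm _ DZ_mem, ← mulVec_mulVec, hDu, mulVec_smul]
  have hDw : DZ Z *ᵥ w = (-ε) • w := cnj_eig _ ε hε hDT
  have p1 := h.herm_pos hu0
  have p2 := h.herm_pos hw0
  rw [hDu, map_smul, smul_eq_mul] at p1
  rw [hDw, map_smul, smul_eq_mul] at p2
  -- the relation
  have hTw : T *ᵥ w = cc c • cnj u := by
    have h1 := hc u hu
    rw [hS] at h1
    have h2 := congrArg cnj h1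
    rwa [cnj_cnj, cnj_smul] at h2
  have hrel : om g (cnj w) w = cc c * om g (cnj u) u := by
    have h1 := hT.symm h ha u hu w hwU
    rw [hTw, map_smul, smul_eq_mul, ← hcw] at h1
    rw [om_anti (cnj w) w, om_anti (cnj u) u, ← h1]
    ring
  rw [hrel] at p2
  obtain ⟨A, hA⟩ : ∃ A, A = Complex.I * (ε * om g (cnj u) u) := ⟨_, rfl⟩
  rw [← hA] at p1
  have p2' : 0 < -(cc c * A) := by
    have h1 : Complex.I * (-ε * (cc c * om g (cnj u) u)) = -(cc c * A) := by
      rw [hA]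
      ring
    rwa [h1] at p2
  rw [Complex.lt_def] at p1 p2'
  obtain ⟨a1, a2⟩ := p1
  obtain ⟨b1, b2⟩ := p2'
  rw [Complex.zero_re] at a1 b1
  rw [Complex.zero_im] at a2 b2
  have hcr : (cc c).re = c.re := Complex.conj_re c
  have hci : (cc c).im = -c.im := Complex.conj_im c
  rw [Complex.neg_re, Complex.mul_re, hcr, hci, ← a2] at b1
  rw [Complex.neg_im, Complex.mul_im, hcr, hci, ← a2] at b2
  have hre : c.re < 0 := by
    by_contra h1
    push Not at h1
    have h2 : 0 ≤ c.re * A.re := mul_nonneg h1 a1.le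
    linarith
  have him : c.im = 0 := by
    have h2 : c.im * A.re = 0 := by linarith
    exact (mul_eq_zero.1 h2).resolve_right a1.ne'
  refine ⟨c.re, hre, fun v hv => ?_⟩
  rw [← hS, hc v hv]
  congr 1
  exact Complex.ext (by simp) (by simp [him])

/-- The dimension of a space with a quaternionic structure is even. -/
theorem even_quat {B : Type*} [Fintype B] {M : Submodule ℂ (B → ℂ)}
    (T : (B → ℂ) →ₗ[ℂ] (B → ℂ)) (hM : ∀ v ∈ M, (fun i => cc (T v i)) ∈ M) {c : ℝ} (hc : c < 0)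
    (hq : ∀ v ∈ M, (fun i => cc (T (fun i => cc (T v i)) i)) = (c : ℂ) • v) :
    Even (finrank ℂ M) := by
  obtain ⟨n, hn⟩ : ∃ n, n = finrank ℂ M := ⟨_, rfl⟩
  let b : Basis (Fin n) ℂ M := (finBasis ℂ M).reindex (finCongr hn.symm)
  let j : M → M := fun v => ⟨fun i => cc (T v i), hM v v.2⟩
  have hjadd : ∀ v w, j (v + w) = j v + j w := by
    intro v w
    apply Subtype.ext
    funext i
    simp only [j, Submodule.coe_add, map_add, Pi.add_apply]
  have hjsmul : ∀ (a : ℂ) v, j (a • v) = cc a • j v := by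
    intro a v
    apply Subtype.ext
    funext i
    simp only [j, Submodule.coe_smul, map_smul, Pi.smul_apply, smul_eq_mul, map_mul]
  have hjsum : ∀ (s : Finset (Fin n)) (f : Fin n → M), j (∑ i ∈ s, f i) = ∑ i ∈ s, j (f i) := by
    intro s f
    induction s using Finset.induction_on with
    | empty =>
      apply Subtype.ext
      funext i
      simp [j]
    | insert a s hs ih => rw [Finset.sum_insert hs, Finset.sum_insert hs, hjadd, ih]
  have hjj : ∀ v, j (j v) = (c : ℂ) • v := fun v => Subtype.ext (hq v v.2)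
  let A : Matrix (Fin n) (Fin n) ℂ := Matrix.of fun i l => b.repr (j (b l)) i
  have hA : A * A.map cc = (c : ℂ) • (1 : Matrix (Fin n) (Fin n) ℂ) := by
    ext m l
    have h1 : j (j (b l)) = ∑ i, cc (A i l) • j (b i) := by
      conv_lhs => rw [← b.sum_repr (j (b l))]
      rw [hjsum]
      exact Finset.sum_congr rfl fun i _ => hjsmul _ _
    have h2 := congrArg (fun v => b.repr v m) h1
    beta_reduce at h2
    rw [hjj, map_smul, b.repr_self, map_sum, Finsupp.finsetSum_apply] at h2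
    rw [Matrix.mul_apply, Matrix.smul_apply, smul_eq_mul, Matrix.one_apply]
    have h3 : ∀ i, A m i * (A.map cc) i l = (b.repr (cc (A i l) • j (b i))) m := by
      intro i
      rw [map_smul, Finsupp.smul_apply, smul_eq_mul, mul_comm]
      rfl
    rw [Finset.sum_congr rfl fun i _ => h3 i, ← h2, Finsupp.smul_apply, smul_eq_mul,
      Finsupp.single_apply]
    simp only [eq_comm]
  have hdet := congrArg Matrix.det hA
  rw [det_mul, det_smul, det_one, mul_one, Fintype.card_fin] at hdet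
  have h1 : (A.map cc).det = cc A.det := by
    have h2 := RingHom.map_det (cc : ℂ →+* ℂ) A
    exact h2.symm
  rw [h1] at hdet
  have h2 : A.det * (starRingEnd ℂ) A.det = (Complex.normSq A.det : ℂ) := Complex.mul_conj _
  have h3 : A.det * cc A.det = (Complex.normSq A.det : ℂ) := h2
  rw [h3] at hdet
  have h4 : Complex.normSq A.det = c ^ n := by exact_mod_cast hdet
  rw [← hn]
  by_contra hodd
  rw [Nat.not_even_iff_odd] at hodd
  have h5 := hodd.pow_neg hc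
  have h6 := Complex.normSq_nonneg A.det
  linarith

include h hU ha hT in
/-- **Orthogonal submodules, period fields of odd degree.** -/
theorem BarI.four_dvd [FiniteDimensional ℚ k] (hodd : Odd (finrank ℚ k))
    (hZ : ∀ i j, Z i j ∈ k) : 4 ∣ finrank ℂ U := by
  have : NumberField k := ⟨⟩
  obtain ⟨p, hp⟩ := exists_real hodd
  obtain ⟨σ, hσ⟩ := exists_aut_emb (algebraMap k ℂ) p
  have hσ' : rs k σ = p := hσ
  obtain ⟨c, hc, hq⟩ := hT.quat h hU ha
  have h1 : Even (finrank ℂ (U ⊓ Lp hZ p : Submodule ℂ (Fin g ⊕ Fin g → ℂ))) := by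
    refine even_quat (mulVecLin T) (fun v hv => ?_) hc fun v hv => hq v hv.1
    have h2 : T *ᵥ v ∈ Lp hZ p := by
      have h3 := hv.2
      rw [← hσ', Lp_neg h] at h3 ⊢
      rw [SetLike.mem_coe, mem_Eg] at h3
      rw [mem_Eg, mulVec_mulVec, hT.comm _ (DS_mem σ), ← mulVec_mulVec, h3, mulVec_smul]
    refine ⟨mem_cc.1 (hT.mem v hv.1), ?_⟩
    have h3 := Lp_map hZ p cc h2
    have h4 : (cc : ℂ →+* ℂ).comp p = p := by
      ext x
      exact hp x
    rwa [h4] at h3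
  have h2 := even_odd hodd h hZ hU p
  obtain ⟨m, hm⟩ := h1
  exact ⟨m, by omega⟩

end

end Pool.Agent.N994.PG
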