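import Mathlib
import Pool.Agent.N994.PG.Quatn

/-!
# Orthogonal submodules of dimension four, fields of degree five
-/

set_option linter.unusedSectionVars false

namespace Pool.Agent.N994.PG

open Matrix Module Pool.Agent.W437.HC Pool.Agent.W437.HD Pool.Agent.Y90 Pool.Agent.R915
open Pool.Agent.W548.Odd hiding cv
open Pool.Agent.N994.PF (rs Zk InL Ed Sys PP PP_eq comb card_emb)
open Pool.Agent.Y4 (exists_aut_emb)

noncomputable section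

variable {g : ℕ} {Z : Matrix (Fin g) (Fin g) ℂ} {k : IntermediateField ℚ ℂ}

/-- The letters of a path generate an irreducible algebra. -/
theorem letters_irr (h : PM Z) (hZ : ∀ i j, Z i j ∈ k) {U : Submodule ℂ (Fin g ⊕ Fin g → ℂ)}
    (hU : IrS (LZ Z) U) {z : Fin 6 → (k →+* ℂ)} (hz : IsPath k z) :
    ∃ X₁ ∈ LP Z 1, ∃ X₂ ∈ LP Z 1, ∃ Y₁ ∈ LP Z (-1), ∃ Y₂ ∈ LP Z (-1),
      ∀ N ≤ U, (∀ u ∈ N, DZ Z *ᵥ u ∈ N) → (∀ u ∈ N, X₁ *ᵥ u ∈ N) → (∀ u ∈ N, X₂ *ᵥ u ∈ N) →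
        (∀ u ∈ N, Y₁ *ᵥ u ∈ N) → (∀ u ∈ N, Y₂ *ᵥ u ∈ N) → N = ⊥ ∨ N = U := by
  obtain ⟨X₁, hX₁, X₂, hX₂, Y₁, hY₁, Y₂, hY₂, hN⟩ := exists_letters h hZ z hz.two hz.three hz.e1
    hz.e0 hz.e4 hz.e5
  refine ⟨X₁, hX₁, X₂, hX₂, Y₁, hY₁, Y₂, hY₂, fun N hNU nD nX₁ nX₂ nY₁ nY₂ => ?_⟩
  obtain ⟨a, b', hab, hdim⟩ := hN N nD nX₁ nX₂ nY₁ nY₂
  refine hU.2.2 N hNU (stab_LZ fun σ => stab_of_dim h hZ σ N ?_)
  obtain ⟨i, hi⟩ := hz.cov (rs k σ)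
  obtain ⟨j, hj⟩ := hz.cov (rs k (cc.trans σ))
  have hE : Ed k (z i) (z j) := by
    rw [hi, hj]
    exact ⟨σ, rfl, rfl⟩
  rw [← hi, ← hj, hdim, hdim, ← hab]
  have hcase : i.1 % 2 ≠ j.1 % 2 ∨ a = b' := by
    rcases hz.par with h1 | ⟨i', j', h1, h2⟩ | ⟨⟨i', j', h1, h2, h3⟩, i'', j'', h4, h5, h6⟩
    · exact Or.inl (h1 i j hE)
    · right
      have e1 := hdim i'
      have e2 := hdim j'
      rw [h2, e2] at e1
      rcases Nat.mod_two_eq_zero_or_one i'.1 with h3 | h3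
      · have h4 : ¬ j'.1 % 2 = 0 := by omega
        rw [if_pos h3, if_neg h4] at e1
        exact e1.symm
      · have h4 : ¬ i'.1 % 2 = 0 := by omega
        have h5 : j'.1 % 2 = 0 := by omega
        rw [if_neg h4, if_pos h5] at e1
        exact e1
    · right
      have e1 := edge_le h hZ h3 N
      have e2 := edge_le h hZ h6 N
      rw [hdim, hdim, if_pos h1, if_pos h2, ← hab] at e1
      rw [hdim, hdim, if_neg (by omega), if_neg (by omega), ← hab] at e2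
      omega
  rcases hcase with h1 | h1
  · rcases Nat.mod_two_eq_zero_or_one i.1 with h3 | h3
    · rw [if_pos h3, if_neg (by omega)]
    · rw [if_neg (by omega), if_pos (by omega), add_comm]
  · rw [h1, ite_self, ite_self]

variable (h : PM Z) {U : Submodule ℂ (Fin g ⊕ Fin g → ℂ)} (hU : IrS (LZ Z) U)
  (b : (Fin g ⊕ Fin g → ℂ) →ₗ[ℂ] (Fin g ⊕ Fin g → ℂ) →ₗ[ℂ] ℂ)
  (h0 : ∃ u ∈ U, ∃ v ∈ U, b u v ≠ 0)
  (hb : ∀ X ∈ LZ Z, ∀ u ∈ U, ∀ v ∈ U, b (X *ᵥ u) v + b u (X *ᵥ v) = 0)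
  (hsym : ∀ u ∈ U, ∀ v ∈ U, b u v = b v u)

include hb in
theorem b_eig {c : ℂ} (hc : c ≠ 0) {u v : Fin g ⊕ Fin g → ℂ} (hu : u ∈ U) (hv : v ∈ U)
    (h1 : DZ Z *ᵥ u = c • u) (h2 : DZ Z *ᵥ v = c • v) : b u v = 0 := by
  have h3 := hb _ DZ_mem u hu v hv
  rw [h1, h2, map_smul, map_smul, LinearMap.smul_apply, smul_eq_mul] at h3
  have h4 : (2 * c) * b u v = 0 := by linear_combination h3
  exact (mul_eq_zero.1 h4).resolve_left (mul_ne_zero two_ne_zero hc)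

include h hU h0 hb hsym in
/-- The annihilator of a vector in a two-dimensional eigenspace is a line. -/
theorem ann_line {c : ℂ} (hc : c = 1 ∨ c = -1)
    (hd : finrank ℂ (U ⊓ eig Z c : Submodule ℂ (Fin g ⊕ Fin g → ℂ)) = 2)
    {w : Fin g ⊕ Fin g → ℂ} (hw : w ∈ U) (hwc : DZ Z *ᵥ w = (-c) • w) (hw0 : w ≠ 0)
    {u u' : Fin g ⊕ Fin g → ℂ} (hu : u ∈ U) (huc : DZ Z *ᵥ u = c • u) (hu0 : u ≠ 0)
    (hwu : b w u = 0) (hu' : u' ∈ U) (huc' : DZ Z *ᵥ u' = c • u') (hwu' : b w u' = 0) :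
    ∃ t : ℂ, u' = t • u := by
  have hc0 : c ≠ 0 := by
    rcases hc with rfl | rfl <;> norm_num
  by_contra hcon
  push Not at hcon
  have hli : LinearIndependent ℂ ![u, u'] := by
    rw [LinearIndependent.pair_iff' hu0]
    exact fun a ha => hcon a ha.symm
  have hspan : Submodule.span ℂ (Set.range ![u, u']) = U ⊓ eig Z c := by
    refine Submodule.eq_of_le_of_finrank_eq (Submodule.span_le.2 ?_) ?_
    · rintro _ ⟨i, rfl⟩
      fin_cases i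
      · exact ⟨hu, huc⟩
      · exact ⟨hu', huc'⟩
    · rw [finrank_span_eq_card hli, hd]
      rfl
  apply hw0
  refine nd_left hU hU.2.1 h0 hb w hw fun v hv => ?_
  have hDv := hU.2.1 _ DZ_mem v hv
  have h2 : DZ Z *ᵥ (DZ Z *ᵥ v) = v := by rw [mulVec_mulVec, DZ_sq h.det, one_mulVec]
  have e1 : v = (1 / 2 : ℂ) • (v + c • (DZ Z *ᵥ v)) + (1 / 2 : ℂ) • (v - c • (DZ Z *ᵥ v)) := by
    module
  have m1 : (1 / 2 : ℂ) • (v + c • (DZ Z *ᵥ v)) ∈ U ⊓ eig Z c := by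
    refine ⟨U.smul_mem _ (U.add_mem hv (U.smul_mem _ hDv)), ?_⟩
    rw [SetLike.mem_coe, mem_eig, mulVec_smul, mulVec_add, mulVec_smul, h2]
    rcases hc with rfl | rfl <;> module
  have m2 : DZ Z *ᵥ ((1 / 2 : ℂ) • (v - c • (DZ Z *ᵥ v))) =
      (-c) • ((1 / 2 : ℂ) • (v - c • (DZ Z *ᵥ v))) := by
    rw [mulVec_smul, mulVec_sub, mulVec_smul, h2]
    rcases hc with rfl | rfl <;> module
  rw [e1, map_add, b_eig b hb (neg_ne_zero.2 hc0) hw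
    (U.smul_mem _ (U.sub_mem hv (U.smul_mem _ hDv))) hwc m2, add_zero]
  rw [← hspan] at m1
  have h3 : Submodule.span ℂ (Set.range ![u, u']) ≤ LinearMap.ker (b w) := by
    refine Submodule.span_le.2 ?_
    rintro _ ⟨i, rfl⟩
    fin_cases i
    · exact hwu
    · exact hwu'
  exact h3 m1

include h hU h0 hb hsym in
/-- There are no orthogonal submodules of dimension four. -/
theorem no_orth_four [FiniteDimensional ℚ k] (hZ : ∀ i j, Z i j ∈ k)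
    (h1 : pd Z U = 2) (h2 : qd Z U = 2) {z : Fin 6 → (k →+* ℂ)} (hz : IsPath k z) : False := by
  obtain ⟨X₁, hX₁, X₂, hX₂, Y₁, hY₁, Y₂, hY₂, hirr⟩ := letters_irr h hZ hU hz
  rw [mem_LP, one_smul] at hX₁ hX₂
  rw [mem_LP, neg_one_smul, neg_neg] at hY₁ hY₂
  obtain ⟨v, ⟨hvU, hv1⟩, hv0⟩ := Submodule.exists_mem_ne_zero_of_ne_bot
    (p := (U ⊓ eig Z (-1) : Submodule ℂ (Fin g ⊕ Fin g → ℂ))) (by
    intro h3
    unfold qd at h2
    rw [h3, finrank_bot] at h2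
    omega)
  have hDv : DZ Z *ᵥ v = (-1 : ℂ) • v := hv1
  -- properties of the letters
  have pX : ∀ {X}, (X ∈ LZ Z ∧ DZ Z * X = X ∧ X * DZ Z = -X) → ∀ u, DZ Z *ᵥ (X *ᵥ u) =
      (1 : ℂ) • (X *ᵥ u) := fun hX u => by rw [mulVec_mulVec, hX.2.1, one_smul]
  have pY : ∀ {Y}, (Y ∈ LZ Z ∧ DZ Z * Y = -Y ∧ Y * DZ Z = Y) → ∀ u, DZ Z *ᵥ (Y *ᵥ u) =
      (-1 : ℂ) • (Y *ᵥ u) := fun hY u => by
    rw [mulVec_mulVec, hY.2.1, neg_mulVec, neg_one_smul]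
  have zX : ∀ {X}, (X ∈ LZ Z ∧ DZ Z * X = X ∧ X * DZ Z = -X) → ∀ u, DZ Z *ᵥ u = (1 : ℂ) • u →
      X *ᵥ u = 0 := by
    intro X hX u hu
    have h3 : (X * DZ Z) *ᵥ u = X *ᵥ u := by rw [← mulVec_mulVec, hu, one_smul]
    rw [hX.2.2, neg_mulVec] at h3
    have h4 : (2 : ℂ) • (X *ᵥ u) = 0 := by
      rw [two_smul]
      nth_rw 1 [← h3]
      exact neg_add_cancel _
    exact (smul_eq_zero.1 h4).resolve_left two_ne_zero
  have zY : ∀ {Y}, (Y ∈ LZ Z ∧ DZ Z * Y = -Y ∧ Y * DZ Z = Y) → ∀ u, DZ Z *ᵥ u = (-1 : ℂ) • u →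
      Y *ᵥ u = 0 := by
    intro Y hY u hu
    have h3 : (Y * DZ Z) *ᵥ u = -(Y *ᵥ u) := by
      rw [← mulVec_mulVec, hu, neg_one_smul, mulVec_neg]
    rw [hY.2.2] at h3
    have h4 : (2 : ℂ) • (Y *ᵥ u) = 0 := by
      rw [two_smul]
      nth_rw 1 [h3]
      exact neg_add_cancel _
    exact (smul_eq_zero.1 h4).resolve_left two_ne_zero
  have bself : ∀ {X}, X ∈ LZ Z → ∀ u ∈ U, b (X *ᵥ u) u = 0 := by
    intro X hX u hu
    have h3 := hb X hX u hu u hu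
    rw [hsym u hu _ (hU.2.1 X hX u hu)] at h3
    have h4 : (2 : ℂ) * b (X *ᵥ u) u = 0 := by linear_combination h3
    exact (mul_eq_zero.1 h4).resolve_left two_ne_zero
  -- the second vector
  obtain ⟨w, hwU, hDw, hwv, ⟨t₁, ht₁⟩, ⟨t₂, ht₂⟩⟩ : ∃ w ∈ U, DZ Z *ᵥ w = (1 : ℂ) • w ∧ b w v = 0 ∧
      (∃ t : ℂ, X₁ *ᵥ v = t • w) ∧ ∃ t : ℂ, X₂ *ᵥ v = t • w := by
    by_cases h3 : X₁ *ᵥ v = 0
    · exact ⟨X₂ *ᵥ v, hU.2.1 _ hX₂.1 v hvU, pX hX₂ v, bself hX₂.1 v hvU,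
        ⟨0, by rw [h3, zero_smul]⟩, 1, by rw [one_smul]⟩
    · refine ⟨X₁ *ᵥ v, hU.2.1 _ hX₁.1 v hvU, pX hX₁ v, bself hX₁.1 v hvU,
        ⟨1, by rw [one_smul]⟩, ?_⟩
      have e1 := bself hX₁.1 v hvU
      have e2 := bself hX₂.1 v hvU
      rw [hsym _ (hU.2.1 _ hX₁.1 v hvU) v hvU] at e1
      rw [hsym _ (hU.2.1 _ hX₂.1 v hvU) v hvU] at e2
      exact ann_line h hU b h0 hb hsym (Or.inl rfl) h1 hvU hDv hv0 (hU.2.1 _ hX₁.1 v hvU)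
        (pX hX₁ v) h3 e1 (hU.2.1 _ hX₂.1 v hvU) (pX hX₂ v) e2
  have hYw : ∀ {Y}, (Y ∈ LZ Z ∧ DZ Z * Y = -Y ∧ Y * DZ Z = Y) → ∃ t : ℂ, Y *ᵥ w = t • v := by
    intro Y hY
    by_cases hw0 : w = 0
    · exact ⟨0, by rw [hw0, mulVec_zero, zero_smul]⟩
    · have e1 := bself hY.1 w hwU
      rw [hsym _ (hU.2.1 _ hY.1 w hwU) w hwU] at e1
      refine ann_line h hU b h0 hb hsym (c := -1) (Or.inr rfl) h2 hwU ?_ hw0 hvU hDv hv0 hwv
        (hU.2.1 _ hY.1 w hwU) (pY hY w) e1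
      rw [neg_neg]
      exact hDw
  obtain ⟨r₁, hr₁⟩ := hYw hY₁
  obtain ⟨r₂, hr₂⟩ := hYw hY₂
  -- the stable subspace
  let N : Submodule ℂ (Fin g ⊕ Fin g → ℂ) := Submodule.span ℂ {v, w}
  have hvN : v ∈ N := Submodule.subset_span (by simp)
  have hwN : w ∈ N := Submodule.subset_span (by simp)
  have hst : ∀ (M : Matrix (Fin g ⊕ Fin g) (Fin g ⊕ Fin g) ℂ), M *ᵥ v ∈ N → M *ᵥ w ∈ N →
      ∀ u ∈ N, M *ᵥ u ∈ N := by
    intro M e1 e2 u hu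
    obtain ⟨x, y, rfl⟩ := Submodule.mem_span_pair.1 hu
    rw [mulVec_add, mulVec_smul, mulVec_smul]
    exact N.add_mem (N.smul_mem _ e1) (N.smul_mem _ e2)
  have hNU : N ≤ U := by
    refine Submodule.span_le.2 ?_
    rintro x (rfl | rfl)
    · exact hvU
    · exact hwU
  rcases hirr N hNU
    (hst _ (by rw [hDv]; exact N.smul_mem _ hvN) (by rw [hDw]; exact N.smul_mem _ hwN))
    (hst _ (by rw [ht₁]; exact N.smul_mem _ hwN) (by rw [zX hX₁ w hDw]; exact N.zero_mem))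
    (hst _ (by rw [ht₂]; exact N.smul_mem _ hwN) (by rw [zX hX₂ w hDw]; exact N.zero_mem))
    (hst _ (by rw [zY hY₁ v hDv]; exact N.zero_mem) (by rw [hr₁]; exact N.smul_mem _ hvN))
    (hst _ (by rw [zY hY₂ v hDv]; exact N.zero_mem) (by rw [hr₂]; exact N.smul_mem _ hvN))
    with h3 | h3
  · rw [h3, Submodule.mem_bot] at hvN
    exact hv0 hvN
  · have h4 := pd_add_qd h hU.2.1
    have h5 : finrank ℂ N ≤ 2 := finrank_span_le_card (R := ℂ) ({v, w} : Set (Fin g ⊕ Fin g → ℂ))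
      |>.trans (by
        rw [Set.toFinset_insert, Set.toFinset_singleton]
        exact Finset.card_le_two)
    rw [h3, ← h4, h1, h2] at h5
    omega

end

end Pool.Agent.N994.PG
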