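import Mathlib
import Pool.Agent.N994.PG.OrthTwo

/-!
# Imaginary quadratic endomorphism fields
-/

set_option linter.unusedSectionVars false

namespace Pool.Agent.N994.PG

open Matrix Module Pool.Agent.W437.HC Pool.Agent.W437.HD Pool.Agent.Y90 Pool.Agent.R915
open Pool.Agent.W548.Odd hiding cv
open Pool.Agent.N994.PF (rs Zk InL Ed Sys PP PP_eq comb card_emb)

open scoped ComplexOrder

noncomputable section

variable {g : ℕ} {Z : Matrix (Fin g) (Fin g) ℂ}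

/-- The projections commute with the Lie algebra. -/
theorem proj_comm {A B : Submodule ℂ (Fin g ⊕ Fin g → ℂ)} (hA : Stab (LZ Z) A)
    (hB : Stab (LZ Z) B) (hAB : A ⊓ B = ⊥) (hs : A ⊔ B = ⊤) :
    ∃ P : Matrix (Fin g ⊕ Fin g) (Fin g ⊕ Fin g) ℂ, (∀ X ∈ LZ Z, X * P = P * X) ∧
      (∀ v, P *ᵥ v ∈ A) ∧ (∀ a ∈ A, P *ᵥ a = a) ∧ ∀ b ∈ B, P *ᵥ b = 0 := by
  have hc : IsCompl A B := ⟨disjoint_iff.2 hAB, codisjoint_iff.2 hs⟩
  let P : End ℂ (Fin g ⊕ Fin g → ℂ) := A.projection B hc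
  have hP1 : ∀ u ∈ A, P u = u := fun u hu => Submodule.projection_apply_of_mem_left hc hu
  have hP2 : ∀ u ∈ B, P u = 0 := fun u hu => Submodule.projection_apply_of_mem_right hc hu
  have hPmem : ∀ v, P v ∈ A := fun v => by
    change A.projection B hc v ∈ A
    rw [Submodule.projection_apply]
    exact SetLike.coe_mem _
  have hPv : ∀ v, LinearMap.toMatrix' P *ᵥ v = P v := by
    intro v
    rw [← toLin'_apply, toLin'_toMatrix']
  refine ⟨LinearMap.toMatrix' P, fun X hX => ?_, fun v => ?_, fun a ha => ?_, fun b hb => ?_⟩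
  · apply Matrix.toLin'.injective
    refine LinearMap.ext fun v => ?_
    rw [toLin'_apply, toLin'_apply, ← mulVec_mulVec, ← mulVec_mulVec, hPv, hPv]
    have h1 : v ∈ A ⊔ B := by rw [hs]; trivial
    obtain ⟨a, ha, b, hb, rfl⟩ := Submodule.mem_sup.1 h1
    rw [mulVec_add, map_add, map_add, hP1 a ha, hP2 b hb, hP1 _ (hA X hX a ha),
      hP2 _ (hB X hX b hb), add_zero, add_zero]
  · rw [hPv]
    exact hPmem v
  · rw [hPv, hP1 a ha]
  · rw [hPv, hP2 b hb]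

/-- Scalars on conjugate subspaces. -/
theorem scal_cj {M : Matrix (Fin g ⊕ Fin g) (Fin g ⊕ Fin g) ℂ} {σ : ℂ ≃+* ℂ} (hM : M.map σ = M)
    {W : Submodule ℂ (Fin g ⊕ Fin g → ℂ)} {c : ℂ} (hW : ∀ v ∈ W, M *ᵥ v = c • v) :
    ∀ v ∈ cjS σ W, M *ᵥ v = σ c • v := by
  intro v hv
  have h1 := hW _ hv
  have h2 := congrArg (fun w : Fin g ⊕ Fin g → ℂ => fun i => σ (w i)) h1
  beta_reduce at h2
  rw [map_mulVec_aut σ, hM] at h2
  have h3 : (fun i => σ (σ.symm (v i))) = v := by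
    funext i
    exact σ.apply_symm_apply _
  rw [h3] at h2
  rw [h2]
  funext i
  rw [Pi.smul_apply, Pi.smul_apply, smul_eq_mul, smul_eq_mul, map_mul, σ.apply_symm_apply]

theorem scal_uniq {M : Matrix (Fin g ⊕ Fin g) (Fin g ⊕ Fin g) ℂ}
    {W : Submodule ℂ (Fin g ⊕ Fin g → ℂ)} (hW0 : W ≠ ⊥) {c c' : ℂ}
    (hW : ∀ v ∈ W, M *ᵥ v = c • v) (hW' : ∀ v ∈ W, M *ᵥ v = c' • v) : c = c' := by
  obtain ⟨w, hw, hw0⟩ := Submodule.exists_mem_ne_zero_of_ne_bot hW0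
  have h1 := (hW w hw).symm.trans (hW' w hw)
  rw [← sub_eq_zero, ← sub_smul] at h1
  exact sub_eq_zero.1 ((smul_eq_zero.1 h1).resolve_right hw0)

/-- **The imaginary quadratic field.** -/
theorem quad_of_no_bar (h : PM Z) {U : Submodule ℂ (Fin g ⊕ Fin g → ℂ)} (hU : IrS (LZ Z) U)
    (hn : finrank ℂ U = g) (ha : ¬ AltF Z U) (hT : ¬ ∃ T, BarI Z U T) : ∃ φ d, QF Z φ d := by
  have hUb : IrS (LZ Z) (cjS cc U) := hU.cj gal_LZ cc
  set Ub := cjS cc U with hUbd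
  have hne : U ≠ Ub := by
    intro h1
    obtain ⟨w, hw, hw0⟩ := Submodule.exists_mem_ne_zero_of_ne_bot hU.1
    have h2 : cnj w ∈ U := by
      rw [h1]
      exact cj_mem_cjS hw
    have h3 := h.herm_pos hw0
    rw [om_zero h ha _ h2 _ (hU.2.1 _ DZ_mem w hw), mul_zero] at h3
    exact lt_irrefl _ h3
  have hdis : ∀ W W' : Submodule ℂ (Fin g ⊕ Fin g → ℂ), IrS (LZ Z) W → IrS (LZ Z) W' → W ≠ W' →
      W ⊓ W' = ⊥ := by
    intro W W' hW hW' hWW
    refine hW.disjoint hW'.2.1 fun hle => ?_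
    rcases hW'.2.2 W hle hW.2.1 with h1 | h1
    · exact hW.1 h1
    · exact hWW h1
  have htop : ∀ W W' : Submodule ℂ (Fin g ⊕ Fin g → ℂ), W ⊓ W' = ⊥ → finrank ℂ W = g →
      finrank ℂ W' = g → W ⊔ W' = ⊤ := by
    intro W W' h0 h1 h2
    apply Submodule.eq_top_of_finrank_eq
    have h3 := Submodule.finrank_sup_add_finrank_inf_eq W W'
    rw [h0, finrank_bot, h1, h2] at h3
    rw [finrank_V]
    omega
  have hinf := hdis U Ub hU hUb hne
  have hnb : finrank ℂ Ub = g := by rw [finrank_cjS, hn]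
  have hsup := htop U Ub hinf hn hnb
  obtain ⟨P, hPc, hPm, hP1, hP2⟩ := proj_comm hU.2.1 hUb.2.1 hinf hsup
  obtain ⟨P', hPc', hPm', hP1', hP2'⟩ := proj_comm hUb.2.1 hU.2.1 (by rw [inf_comm]; exact hinf)
    (by rw [sup_comm]; exact hsup)
  have hdec : ∀ v : Fin g ⊕ Fin g → ℂ, ∃ a ∈ U, ∃ b ∈ Ub, v = a + b := by
    intro v
    have h1 : v ∈ U ⊔ Ub := by rw [hsup]; trivial
    obtain ⟨a, ha, b, hb, hab⟩ := Submodule.mem_sup.1 h1
    exact ⟨a, ha, b, hb, hab.symm⟩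
  -- the conjugates
  have hcj : ∀ σ : ℂ ≃+* ℂ, cjS σ U = U ∨ cjS σ U = Ub := by
    intro σ
    by_contra hcon
    push Not at hcon
    have hW : IrS (LZ Z) (cjS σ U) := hU.cj gal_LZ σ
    have h1 := hdis Ub _ hUb hW hcon.2.symm
    obtain ⟨Q, hQc, hQm, hQ1, hQ2⟩ := proj_comm hUb.2.1 hW.2.1 h1
      (htop _ _ h1 hnb (by rw [finrank_cjS, hn]))
    refine hT ⟨Q, hQc, fun u _ => hQm u, ?_⟩
    by_contra hc
    push Not at hc
    have h2 : U ≤ cjS σ U := by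
      intro u hu
      have h3 : u ∈ Ub ⊔ cjS σ U := by
        rw [htop _ _ h1 hnb (by rw [finrank_cjS, hn])]
        trivial
      obtain ⟨a, ha, b, hb, rfl⟩ := Submodule.mem_sup.1 h3
      have h4 := hc _ hu
      rw [mulVec_add, hQ1 a ha, hQ2 b hb, add_zero] at h4
      rw [h4, zero_add]
      exact hb
    rcases hW.2.2 U h2 hU.2.1 with h3 | h3
    · exact hU.1 h3
    · exact hcon.1 h3.symm
  -- the sign operator
  obtain ⟨E, hE⟩ : ∃ E, E = (2 : ℂ) • P - 1 := ⟨_, rfl⟩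
  have hEv : ∀ v, E *ᵥ v = (2 : ℂ) • (P *ᵥ v) - v := by
    intro v
    rw [hE, sub_mulVec, smul_mulVec, one_mulVec]
  have hE1 : ∀ u ∈ U, E *ᵥ u = u := by
    intro u hu
    rw [hEv, hP1 u hu]
    module
  have hE2 : ∀ u ∈ Ub, E *ᵥ u = -u := by
    intro u hu
    rw [hEv, hP2 u hu]
    module
  have hEuniq : ∀ M M' : Matrix (Fin g ⊕ Fin g) (Fin g ⊕ Fin g) ℂ,
      (∀ u ∈ U, M *ᵥ u = M' *ᵥ u) → (∀ u ∈ Ub, M *ᵥ u = M' *ᵥ u) → M = M' := by
    intro M M' h1 h2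
    apply Matrix.toLin'.injective
    refine LinearMap.ext fun v => ?_
    rw [toLin'_apply, toLin'_apply]
    obtain ⟨a, ha, b, hb, rfl⟩ := hdec v
    rw [mulVec_add, mulVec_add, h1 a ha, h2 b hb]
  have hcj2 : ∀ σ : ℂ ≃+* ℂ, (cjS σ U = U ∧ cjS σ Ub = Ub) ∨ (cjS σ U = Ub ∧ cjS σ Ub = U) := by
    intro σ
    have hσb : cjS σ Ub = U ∨ cjS σ Ub = Ub := by
      rw [hUbd, cjS_trans]
      exact hcj (cc.trans σ)
    have hinj : cjS σ U ≠ cjS σ Ub := by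
      intro h1
      apply hne
      rw [← cjS_symm σ U, ← cjS_symm σ Ub, h1]
    rcases hcj σ with h1 | h1 <;> rcases hσb with h2 | h2
    · exact absurd (h1.trans h2.symm) hinj
    · exact Or.inl ⟨h1, h2⟩
    · exact Or.inr ⟨h1, h2⟩
    · exact absurd (h1.trans h2.symm) hinj
  have hEmap : ∀ σ : ℂ ≃+* ℂ, ∀ v, E.map σ *ᵥ v = fun i => σ ((E *ᵥ fun j => σ.symm (v j)) i) := by
    intro σ v
    rw [map_mulVec_aut σ]
    congr 1
    funext i
    simp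
  have hEσ : ∀ σ : ℂ ≃+* ℂ, (cjS σ U = U ∧ cjS σ Ub = Ub ∧ E.map σ = E) ∨
      (cjS σ U = Ub ∧ cjS σ Ub = U ∧ E.map σ = -E) := by
    intro σ
    have hm1 : ∀ v ∈ cjS σ U, E.map σ *ᵥ v = v := by
      intro v hv
      rw [hEmap, hE1 _ hv]
      funext i
      simp
    have hm2 : ∀ v ∈ cjS σ Ub, E.map σ *ᵥ v = -v := by
      intro v hv
      rw [hEmap, hE2 _ hv]
      funext i
      simp
    rcases hcj2 σ with ⟨h1, h2⟩ | ⟨h1, h2⟩
    · refine Or.inl ⟨h1, h2, ?_⟩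
      rw [h1] at hm1
      rw [h2] at hm2
      exact hEuniq _ _ (fun u hu => by rw [hm1 u hu, hE1 u hu]) fun u hu => by
        rw [hm2 u hu, hE2 u hu]
    · refine Or.inr ⟨h1, h2, ?_⟩
      rw [h1] at hm1
      rw [h2] at hm2
      exact hEuniq _ _ (fun u hu => by rw [hm2 u hu, neg_mulVec, hE1 u hu]) fun u hu => by
        rw [hm1 u hu, neg_mulVec, hE2 u hu, neg_neg]
  obtain ⟨u0, hu0, hu00⟩ := Submodule.exists_mem_ne_zero_of_ne_bot hU.1
  obtain ⟨i0, j0, hij⟩ : ∃ i j, E i j ≠ 0 := by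
    by_contra hcon
    push Not at hcon
    apply hu00
    rw [← hE1 u0 hu0]
    funext i
    simp [mulVec, dotProduct, hcon]
  set α : ℂ := (E i0 j0)⁻¹ with hα
  have hα0 : α ≠ 0 := inv_ne_zero hij
  have hασ : ∀ σ : ℂ ≃+* ℂ, (cjS σ U = U ∧ cjS σ Ub = Ub ∧ σ α = α) ∨
      (cjS σ U = Ub ∧ cjS σ Ub = U ∧ σ α = -α) := by
    intro σ
    rcases hEσ σ with ⟨h1, h2, h3⟩ | ⟨h1, h2, h3⟩
    · refine Or.inl ⟨h1, h2, ?_⟩
      have h4 : σ (E i0 j0) = E i0 j0 := congrFun (congrFun h3 i0) j0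
      rw [hα, map_inv₀, h4]
    · refine Or.inr ⟨h1, h2, ?_⟩
      have h4 : σ (E i0 j0) = -E i0 j0 := congrFun (congrFun h3 i0) j0
      rw [hα, map_inv₀, h4, inv_neg]
  have hrat : ∀ k l, ∃ q : ℚ, α * E k l = q := by
    intro k l
    apply exists_rat
    intro σ
    rw [map_mul, hα, map_inv₀]
    rcases hEσ σ with ⟨-, -, h1⟩ | ⟨-, -, h1⟩
    · have h2 : ∀ k l, σ (E k l) = E k l := fun k l => congrFun (congrFun h1 k) l
      rw [h2, h2]
    · have h2 : ∀ k l, σ (E k l) = -E k l := fun k l => congrFun (congrFun h1 k) l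
      rw [h2, h2, inv_neg, neg_mul_neg]
  choose q hq using hrat
  let φ : Matrix (Fin g ⊕ Fin g) (Fin g ⊕ Fin g) ℚ := Matrix.of q
  have hφ : qm φ = α • E := by
    ext k l
    change ((q k l : ℚ) : ℂ) = α * E k l
    rw [hq]
  have hEE : E * E = 1 := by
    refine hEuniq _ _ (fun u hu => ?_) fun u hu => ?_
    · rw [← mulVec_mulVec, hE1 u hu, hE1 u hu, one_mulVec]
    · rw [← mulVec_mulVec, hE2 u hu, mulVec_neg, hE2 u hu, neg_neg, one_mulVec]
  have hφφ : qm (φ * φ) = (α * α) • 1 := by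
    rw [qm_mul, hφ, smul_mul_smul_comm, hEE]
  have hαα : ((φ * φ) i0 i0 : ℂ) = α * α := by
    have h1 := congrFun (congrFun hφφ i0) i0
    rw [Matrix.smul_apply, Matrix.one_apply_eq, smul_eq_mul, mul_one] at h1
    exact h1
  have hccα : (starRingEnd ℂ) α = -α := by
    rcases hασ cc with ⟨h1, -⟩ | ⟨-, -, h1⟩
    · exact absurd h1.symm hne
    · exact h1
  have hneg : (φ * φ) i0 i0 < 0 := by
    have h1 : α * (starRingEnd ℂ) α = (Complex.normSq α : ℂ) := Complex.mul_conj α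
    rw [hccα] at h1
    have h2 : (((φ * φ) i0 i0 : ℚ) : ℂ) = -((Complex.normSq α : ℝ) : ℂ) := by
      rw [hαα, ← h1]
      ring
    have h3 : (((φ * φ) i0 i0 : ℚ) : ℝ) = -(Complex.normSq α : ℝ) := by exact_mod_cast h2
    have h4 : 0 < Complex.normSq α := Complex.normSq_pos.2 hα0
    have h5 : (((φ * φ) i0 i0 : ℚ) : ℝ) < 0 := by rw [h3]; linarith
    exact_mod_cast h5
  have hinjq : ∀ A B : Matrix (Fin g ⊕ Fin g) (Fin g ⊕ Fin g) ℚ, qm A = qm B → A = B := by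
    intro A B hAB
    ext k l
    have h2 := congrFun (congrFun hAB k) l
    simp only [Matrix.map_apply] at h2
    exact_mod_cast h2
  refine ⟨φ, -((φ * φ) i0 i0), by linarith, ?_, ?_, fun ψ hψ => ?_⟩
  · apply hinjq
    rw [hφφ, ← hαα]
    ext k l
    simp only [Matrix.smul_apply, Matrix.map_apply, Matrix.neg_apply, smul_eq_mul, neg_mul,
      neg_neg]
    by_cases hkl : k = l
    · subst hkl
      simp
    · simp [hkl]
  · rw [hφ, smul_mul_assoc, mul_smul_comm, hE, sub_mul, mul_sub, smul_mul_assoc, mul_smul_comm,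
      hPc _ DZ_mem, one_mul, mul_one]
  · have hψc := commL_of hψ
    have hψU : ∀ u ∈ U, qm ψ *ᵥ u ∈ U := by
      by_contra hcon
      push Not at hcon
      obtain ⟨u, hu, hu'⟩ := hcon
      refine hT ⟨P' * qm ψ, fun X hX => ?_, fun v _ => ?_, u, hu, fun h1 => hu' ?_⟩
      · rw [← Matrix.mul_assoc, hPc' X hX, Matrix.mul_assoc, hψc X hX, Matrix.mul_assoc]
      · rw [← mulVec_mulVec]
        exact hPm' _
      · obtain ⟨a, ha, b, hb, hab⟩ := hdec (qm ψ *ᵥ u)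
        rw [← mulVec_mulVec, hab, mulVec_add, hP2' a ha, hP1' b hb, zero_add] at h1
        rw [hab, h1, add_zero]
        exact ha
    obtain ⟨c, hc⟩ := schur_scalar hU hψc hψU
    have hψσ : ∀ σ : ℂ ≃+* ℂ, (qm ψ).map σ = qm ψ := fun σ => cK_aut σ ψ
    have hcb : ∀ v ∈ Ub, qm ψ *ᵥ v = cc c • v := scal_cj (hψσ cc) hc
    have hccc : cc (cc c) = c := Complex.conj_conj c
    have hσc : ∀ σ : ℂ ≃+* ℂ, (σ α = α ∧ σ c = c ∧ σ (cc c) = cc c) ∨
        (σ α = -α ∧ σ c = cc c ∧ σ (cc c) = c) := by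
      intro σ
      have e1 := scal_cj (hψσ σ) hc
      have e2 := scal_cj (hψσ σ) hcb
      rcases hασ σ with ⟨h1, h2, h3⟩ | ⟨h1, h2, h3⟩
      · rw [h1] at e1
        rw [h2] at e2
        exact Or.inl ⟨h3, scal_uniq hU.1 e1 hc, scal_uniq hUb.1 e2 hcb⟩
      · rw [h1] at e1
        rw [h2] at e2
        exact Or.inr ⟨h3, scal_uniq hUb.1 e1 hcb, scal_uniq hU.1 e2 hc⟩
    obtain ⟨a, ha'⟩ : ∃ a : ℚ, (c + cc c) / 2 = a := by
      refine exists_rat fun σ => ?_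
      rcases hσc σ with ⟨-, h1, h2⟩ | ⟨-, h1, h2⟩
      · rw [map_div₀, map_add, h1, h2, map_ofNat]
      · rw [map_div₀, map_add, h1, h2, map_ofNat, add_comm]
    obtain ⟨b, hb'⟩ : ∃ b : ℚ, (c - cc c) / (2 * α) = b := by
      refine exists_rat fun σ => ?_
      rcases hσc σ with ⟨h0, h1, h2⟩ | ⟨h0, h1, h2⟩
      · rw [map_div₀, map_sub, map_mul, h0, h1, h2, map_ofNat]
      · rw [map_div₀, map_sub, map_mul, h0, h1, h2, map_ofNat, mul_neg, div_neg, ← neg_div,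
          neg_sub]
    refine ⟨a, b, hinjq _ _ ?_⟩
    have h1 : qm (a • (1 : Matrix (Fin g ⊕ Fin g) (Fin g ⊕ Fin g) ℚ) + b • φ) =
        (a : ℂ) • (1 : Matrix (Fin g ⊕ Fin g) (Fin g ⊕ Fin g) ℂ) + ((b : ℂ) * α) • E := by
      have h2 : qm (a • (1 : Matrix (Fin g ⊕ Fin g) (Fin g ⊕ Fin g) ℚ) + b • φ) =
          (a : ℂ) • (1 : Matrix (Fin g ⊕ Fin g) (Fin g ⊕ Fin g) ℂ) + (b : ℂ) • qm φ := by
        ext k l
        simp [Matrix.one_apply, apply_ite]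
      rw [h2, hφ, smul_smul]
    rw [h1]
    have hab1 : (a : ℂ) + (b : ℂ) * α = c := by
      rw [← ha', ← hb']
      field_simp
      ring
    have hab2 : (a : ℂ) - (b : ℂ) * α = cc c := by
      rw [← ha', ← hb']
      field_simp
      ring
    refine hEuniq _ _ (fun u hu => ?_) fun u hu => ?_
    · rw [hc u hu, add_mulVec, smul_mulVec, smul_mulVec, one_mulVec, hE1 u hu, ← add_smul, hab1]
    · rw [hcb u hu, add_mulVec, smul_mulVec, smul_mulVec, one_mulVec, hE2 u hu, smul_neg,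
        ← sub_eq_add_neg, ← sub_smul, hab2]

end

end Pool.Agent.N994.PG
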