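import Mathlib
import Pool.Agent.N994.PG.Quad
import Pool.Agent.R915.H1

/-!
# The discriminant of abelian sixfolds of Weil type with periods in a field of odd degree
-/

set_option linter.unusedSectionVars false

namespace Pool.Agent.N994.PG

open Matrix Module Pool.Agent.W437.HC Pool.Agent.W437.HD Pool.Agent.Y90 Pool.Agent.R915
open Pool.Agent.W548.Odd hiding cv
open Pool.Agent.N994.PF (rs Zk InL Ed Sys PP PP_eq comb card_emb)

noncomputable section

section pairs

variable {F V : Type*} [Field F] [AddCommGroup V] [Module F V] [FiniteDimensional F V]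
  (h : V →ₗ[F] V) {d : F}

/-- Pairs of vectors which are independent over the quadratic field. -/
theorem exists_pairsF (hd : ∀ x y : F, x * x + d * (y * y) = 0 → x = 0 ∧ y = 0)
    (hsq : ∀ w, h (h w) = -(d • w)) :
    ∀ m : ℕ, 2 * m ≤ finrank F V → ∃ v : Fin m → V, ∀ a b : Fin m → F,
      (∑ i, (a i • v i + b i • h (v i))) = 0 → a = 0 ∧ b = 0 := by
  intro m
  induction m with
  | zero => exact fun _ => ⟨Fin.elim0, fun a b _ => ⟨Subsingleton.elim _ _, Subsingleton.elim _ _⟩⟩
  | succ m ih =>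
    intro hm
    obtain ⟨v, hv⟩ := ih (by omega)
    let S : Submodule F V := Submodule.span F (Set.range (Sum.elim v fun i => h (v i)))
    have hmem : ∀ a b : Fin m → F, (∑ i, (a i • v i + b i • h (v i))) ∈ S := fun a b =>
      Submodule.sum_mem _ fun i _ => Submodule.add_mem _
        (Submodule.smul_mem _ _ (Submodule.subset_span ⟨Sum.inl i, rfl⟩))
        (Submodule.smul_mem _ _ (Submodule.subset_span ⟨Sum.inr i, rfl⟩))
    have hstab : ∀ x ∈ S, h x ∈ S := by
      intro x hx
      have h1 : S ≤ S.comap h := by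
        refine Submodule.span_le.2 ?_
        rintro _ ⟨i | i, rfl⟩
        · exact Submodule.subset_span ⟨Sum.inr i, rfl⟩
        · change h (h (v i)) ∈ S
          rw [hsq]
          exact Submodule.neg_mem _ (Submodule.smul_mem _ _ (Submodule.subset_span ⟨Sum.inl i, rfl⟩))
      exact h1 hx
    have hfin : finrank F S ≤ 2 * m := by
      have h1 := finrank_range_le_card (R := F) (Sum.elim v fun i => h (v i))
      rw [Fintype.card_sum, Fintype.card_fin] at h1
      calc finrank F S ≤ m + m := h1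
        _ = 2 * m := by ring
    obtain ⟨u, hu⟩ : ∃ u, u ∉ S := by
      by_contra hcon
      push Not at hcon
      have h1 : S = ⊤ := eq_top_iff.2 fun x _ => hcon x
      rw [h1, finrank_top] at hfin
      omega
    refine ⟨Fin.snoc v u, fun a b hab => ?_⟩
    rw [Fin.sum_univ_castSucc] at hab
    simp only [Fin.snoc_castSucc, Fin.snoc_last] at hab
    set x := a (Fin.last m)
    set y := b (Fin.last m)
    have h1 : x • u + y • h u ∈ S := by
      have h2 : x • u + y • h u =
          -(∑ i : Fin m, (a i.castSucc • v i + b i.castSucc • h (v i))) := by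
        rw [eq_neg_iff_add_eq_zero, add_comm]
        exact hab
      rw [h2]
      exact Submodule.neg_mem _ (hmem (fun i => a i.castSucc) fun i => b i.castSucc)
    have h2 : (x * x + d * (y * y)) • u ∈ S := by
      have h3 := Submodule.sub_mem _ (Submodule.smul_mem _ x h1) (Submodule.smul_mem _ y (hstab _ h1))
      rw [map_add, map_smul, map_smul, hsq] at h3
      convert h3 using 1
      module
    have h3 : x * x + d * (y * y) = 0 := by
      by_contra hne
      apply hu
      have h4 := Submodule.smul_mem _ (x * x + d * (y * y))⁻¹ h2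
      rwa [smul_smul, inv_mul_cancel₀ hne, one_smul] at h4
    obtain ⟨hx, hy⟩ := hd x y h3
    rw [hx, hy, zero_smul, zero_smul, add_zero, add_zero] at hab
    obtain ⟨h4, h5⟩ := hv (fun i => a i.castSucc) (fun i => b i.castSucc) hab
    constructor
    · funext i
      refine Fin.lastCases hx (fun i => congrFun h4 i) i
    · funext i
      refine Fin.lastCases hy (fun i => congrFun h5 i) i

/-- A basis of pairs. -/
theorem exists_pair_basisF (hd : ∀ x y : F, x * x + d * (y * y) = 0 → x = 0 ∧ y = 0)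
    (hsq : ∀ w, h (h w) = -(d • w)) {m : ℕ} (hm : finrank F V = 2 * m) :
    ∃ b : Basis (Fin m ⊕ Fin m) F V, ∀ i, b (Sum.inr i) = h (b (Sum.inl i)) := by
  obtain ⟨v, hv⟩ := exists_pairsF h hd hsq m hm.ge
  have h1 : LinearIndependent F (Sum.elim v fun i => h (v i)) := by
    rw [Fintype.linearIndependent_iff]
    intro g hg
    rw [Fintype.sum_sum_type] at hg
    simp only [Sum.elim_inl, Sum.elim_inr] at hg
    rw [← Finset.sum_add_distrib] at hg
    obtain ⟨h2, h3⟩ := hv _ _ hg
    rintro (i | i)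
    · exact congrFun h2 i
    · exact congrFun h3 i
  have h2 : Fintype.card (Fin m ⊕ Fin m) = finrank F V := by
    rw [Fintype.card_sum, Fintype.card_fin, hm]
    ring
  refine ⟨Basis.mk h1 (h1.span_eq_top_of_card_eq_finrank' h2).ge, fun i => ?_⟩
  rw [Basis.mk_apply, Basis.mk_apply]
  rfl

/-- Functionals on a subspace are given by the form. -/
theorem form_surjF (ω : V →ₗ[F] V →ₗ[F] F) (hnd : ∀ u, (∀ v, ω v u = 0) → u = 0)
    (W : Submodule F V) (l : W →ₗ[F] F) : ∃ u : V, ∀ w : W, ω w u = l w := by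
  obtain ⟨l', hl'⟩ := LinearMap.exists_extend l
  have h1 : Function.Injective ω.flip := by
    rw [← LinearMap.ker_eq_bot, LinearMap.ker_eq_bot']
    intro u hu
    exact hnd u fun v => congrArg (fun φ => φ v) hu
  have h2 : Function.Surjective ω.flip :=
    (LinearMap.injective_iff_surjective_of_finrank_eq_finrank
      (Subspace.dual_finrank_eq (K := F) (V := V)).symm).1 h1
  obtain ⟨u, hu⟩ := h2 l'
  refine ⟨u, fun w => ?_⟩
  have h3 : ω.flip u w = l' w := by rw [hu]
  rw [LinearMap.flip_apply] at h3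
  rw [h3, ← hl']
  rfl

/-- A hyperbolic basis. -/
theorem hypF (hd : ∀ x y : F, x * x + d * (y * y) = 0 → x = 0 ∧ y = 0)
    (hsq : ∀ w, h (h w) = -(d • w)) (ω : V →ₗ[F] V →ₗ[F] F) (halt : ∀ v w, ω v w = -ω w v)
    (hnd : ∀ u, (∀ v, ω v u = 0) → u = 0) (hsk : ∀ v w, ω (h v) w = -ω v (h w))
    (W : Submodule F V) (hW : finrank F W = 6) (hst : ∀ w ∈ W, h w ∈ W)
    (hiso : ∀ v ∈ W, ∀ w ∈ W, ω v w = 0) :
    ∃ (x : Fin 3 ⊕ Fin 3 → V) (D D' : Matrix (Fin 3) (Fin 3) F),
      (Matrix.of fun i j => ω (x i) (h (x j))) = fromBlocks 0 1 1 D ∧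
      (Matrix.of fun i j => ω (x i) (x j)) = fromBlocks 0 0 0 D' := by
  let hW' : W →ₗ[F] W := h.restrict hst
  obtain ⟨b, hb⟩ := exists_pair_basisF hW' hd (fun w => Subtype.ext (hsq w)) (m := 3) (by omega)
  have hu : ∀ j : Fin 3, ∃ u : V, ∀ w : W, ω w u = -b.coord (Sum.inr j) w := fun j =>
    form_surjF ω hnd W (-b.coord (Sum.inr j))
  choose u hu using hu
  have e1 : ∀ i j : Fin 3, ω (b (Sum.inl i)) (u j) = 0 := by
    intro i j
    rw [hu, Basis.coord_apply, Basis.repr_self, Finsupp.single_apply, if_neg (by simp),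
      neg_zero]
  have e2 : ∀ i j : Fin 3, ω (b (Sum.inl i)) (h (u j)) = if i = j then 1 else 0 := by
    intro i j
    have h1 := hsk (b (Sum.inl i)) (u j)
    have h2 : h (b (Sum.inl i)) = (b (Sum.inr i) : V) := by
      rw [hb]
      rfl
    rw [h2, hu, Basis.coord_apply, Basis.repr_self, Finsupp.single_apply, neg_inj] at h1
    rw [← h1]
    by_cases hij : i = j
    · rw [if_pos hij, if_pos (by rw [hij])]
    · rw [if_neg hij, if_neg (by simpa using hij)]
  have e3 : ∀ i j : Fin 3, ω (u i) (b (Sum.inl j)) = 0 := by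
    intro i j
    rw [halt, e1, neg_zero]
  have e4 : ∀ i j : Fin 3, ω (u i) (h (b (Sum.inl j))) = if i = j then 1 else 0 := by
    intro i j
    rw [halt, hsk, neg_neg, e2]
    simp only [eq_comm]
  have e5 : ∀ i j : Fin 3, ω (b (Sum.inl i)) (b (Sum.inl j)) = 0 := fun i j =>
    hiso _ (b (Sum.inl i)).2 _ (b (Sum.inl j)).2
  have e6 : ∀ i j : Fin 3, ω (b (Sum.inl i)) (h (b (Sum.inl j))) = 0 := fun i j =>
    hiso _ (b (Sum.inl i)).2 _ (hst _ (b (Sum.inl j)).2)
  refine ⟨Sum.elim (fun i => (b (Sum.inl i) : V)) u, Matrix.of fun i j => ω (u i) (h (u j)),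
    Matrix.of fun i j => ω (u i) (u j), ?_, ?_⟩
  · ext i j
    rw [Matrix.of_apply]
    rcases i with i | i <;> rcases j with j | j
    · exact e6 i j
    · rw [fromBlocks_apply₁₂, Matrix.one_apply]
      exact e2 i j
    · rw [fromBlocks_apply₂₁, Matrix.one_apply]
      exact e4 i j
    · rfl
  · ext i j
    rw [Matrix.of_apply]
    rcases i with i | i <;> rcases j with j | j
    · exact e5 i j
    · exact e1 i j
    · exact e3 i j
    · rfl

end pairs

/-- The determinants of conjugate matrices over a quadratic extension. -/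
theorem det_pair {K n : Type*} [CommRing K] [Fintype n] [DecidableEq n] (f : K →+* ℂ) (d : K)
    {s : ℂ} (hs : s * s = -f d) (A C : Matrix n n K) : ∃ x y : K,
      (A.map f + s • C.map f).det = f x + s * f y ∧
      (A.map f - s • C.map f).det = f x - s * f y := by
  let R : Subring (ℂ × ℂ) :=
    { carrier := {p | ∃ x y : K, p.1 = f x + s * f y ∧ p.2 = f x - s * f y}
      mul_mem' := by
        rintro p q ⟨x, y, h1, h2⟩ ⟨x', y', h3, h4⟩
        refine ⟨x * x' - d * (y * y'), x * y' + y * x', ?_, ?_⟩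
        · rw [Prod.fst_mul, h1, h3]
          simp only [map_sub, map_add, map_mul]
          linear_combination (f y * f y') * hs
        · rw [Prod.snd_mul, h2, h4]
          simp only [map_sub, map_add, map_mul]
          linear_combination (f y * f y') * hs
      one_mem' := ⟨1, 0, by simp, by simp⟩
      add_mem' := by
        rintro p q ⟨x, y, h1, h2⟩ ⟨x', y', h3, h4⟩
        refine ⟨x + x', y + y', ?_, ?_⟩
        · rw [Prod.fst_add, h1, h3]
          simp only [map_add]
          ring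
        · rw [Prod.snd_add, h2, h4]
          simp only [map_add]
          ring
      zero_mem' := ⟨0, 0, by simp, by simp⟩
      neg_mem' := by
        rintro p ⟨x, y, h1, h2⟩
        refine ⟨-x, -y, ?_, ?_⟩
        · rw [Prod.fst_neg, h1]
          simp only [map_neg]
          ring
        · rw [Prod.snd_neg, h2]
          simp only [map_neg]
          ring }
  let P : Matrix n n R := fun i j => ⟨(f (A i j) + s * f (C i j), f (A i j) - s * f (C i j)),
    A i j, C i j, rfl, rfl⟩
  obtain ⟨x, y, h1, h2⟩ := P.det.2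
  refine ⟨x, y, ?_, ?_⟩
  · rw [← h1]
    have h3 := RingHom.map_det ((RingHom.fst ℂ ℂ).comp R.subtype) P
    change (P.det : ℂ × ℂ).1 = _ at h3
    rw [h3]
    rfl
  · rw [← h2]
    have h3 := RingHom.map_det ((RingHom.snd ℂ ℂ).comp R.subtype) P
    change (P.det : ℂ × ℂ).2 = _ at h3
    rw [h3]
    rfl

/-- **Norms from fields of odd degree.** -/
theorem norm_odd {k : IntermediateField ℚ ℂ} [FiniteDimensional ℚ k] (hodd : Odd (finrank ℚ k))
    {d t : ℚ} (ht : t ≠ 0) {s : ℂ} (hs : s * s = -(d : ℂ)) {z₁ z₂ : k}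
    (hz : (z₁ : ℂ) * z₁ + d * (z₂ * z₂) = t) : ∃ x y : ℚ, x ^ 2 + d * y ^ 2 = t⁻¹ := by
  classical
  let b := finBasis ℚ k
  let N := finrank ℚ k
  obtain ⟨A, hA⟩ : ∃ A : Matrix (Fin N) (Fin N) ℚ, A = Algebra.leftMulMatrix b z₁ := ⟨_, rfl⟩
  obtain ⟨C, hC⟩ : ∃ C : Matrix (Fin N) (Fin N) ℚ, C = Algebra.leftMulMatrix b z₂ := ⟨_, rfl⟩
  have hAC : A * C = C * A := by
    rw [hA, hC, ← map_mul, ← map_mul, mul_comm]
  have hz' : z₁ * z₁ + d • (z₂ * z₂) = t • (1 : k) := by
    apply Subtype.ext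
    have h1 : ((z₁ * z₁ + d • (z₂ * z₂) : k) : ℂ) = (z₁ : ℂ) * z₁ + d * (z₂ * z₂) := by
      rw [IntermediateField.coe_add, IntermediateField.coe_mul, IntermediateField.coe_smul,
        IntermediateField.coe_mul, Rat.smul_def]
    have h2 : ((t • (1 : k) : k) : ℂ) = t := by
      rw [IntermediateField.coe_smul, IntermediateField.coe_one, Rat.smul_def, mul_one]
    rw [h1, h2, hz]
  have hsum : A * A + d • (C * C) = t • (1 : Matrix (Fin N) (Fin N) ℚ) := by
    have h1 := congrArg (Algebra.leftMulMatrix b) hz'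
    rw [map_add, map_smul, map_mul, map_mul, map_smul, map_one, ← hA, ← hC] at h1
    exact h1
  obtain ⟨x, y, h1, h2⟩ := det_pair (algebraMap ℚ ℂ) d (s := s) hs A C
  have h3 : (A.map (algebraMap ℚ ℂ) + s • C.map (algebraMap ℚ ℂ)) *
      (A.map (algebraMap ℚ ℂ) - s • C.map (algebraMap ℚ ℂ)) =
      (t : ℂ) • (1 : Matrix (Fin N) (Fin N) ℂ) := by
    have e1 := congrArg (fun M : Matrix (Fin N) (Fin N) ℚ => M.map (algebraMap ℚ ℂ)) hsum
    have e2 := congrArg (fun M : Matrix (Fin N) (Fin N) ℚ => M.map (algebraMap ℚ ℂ)) hAC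
    beta_reduce at e1 e2
    rw [Matrix.map_mul, Matrix.map_mul] at e2
    have e3 : (A * A + d • (C * C)).map (algebraMap ℚ ℂ) =
        A.map (algebraMap ℚ ℂ) * A.map (algebraMap ℚ ℂ) +
          (d : ℂ) • (C.map (algebraMap ℚ ℂ) * C.map (algebraMap ℚ ℂ)) := by
      ext i j
      simp [Matrix.mul_apply]
    have e4 : (t • (1 : Matrix (Fin N) (Fin N) ℚ)).map (algebraMap ℚ ℂ) =
        (t : ℂ) • (1 : Matrix (Fin N) (Fin N) ℂ) := by
      ext i j
      by_cases hij : i = j
      · subst hij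
        simp
      · simp [hij]
    rw [e3, e4] at e1
    rw [← e1, Matrix.mul_sub, Matrix.add_mul, Matrix.add_mul, Matrix.mul_smul, Matrix.smul_mul,
      Matrix.mul_smul, Matrix.smul_mul, e2, smul_smul, hs]
    module
  have h4 := congrArg Matrix.det h3
  rw [det_mul, h1, h2, det_smul, det_one, mul_one, Fintype.card_fin] at h4
  have h5 : x ^ 2 + d * y ^ 2 = t ^ N := by
    have h6 : (((x ^ 2 + d * y ^ 2 : ℚ)) : ℂ) = ((t ^ N : ℚ) : ℂ) := by
      have h7 : (algebraMap ℚ ℂ x + s * algebraMap ℚ ℂ y) * (algebraMap ℚ ℂ x - s * algebraMap ℚ ℂ y)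
          = (x : ℂ) ^ 2 - (s * s) * (y : ℂ) ^ 2 := by
        simp only [eq_ratCast]
        ring
      rw [h7, hs] at h4
      push_cast
      rw [← h4]
      ring
    exact_mod_cast h6
  obtain ⟨m, hm⟩ := hodd
  refine ⟨x * (t ^ (m + 1))⁻¹, y * (t ^ (m + 1))⁻¹, ?_⟩
  have h6 : (x * (t ^ (m + 1))⁻¹) ^ 2 + d * (y * (t ^ (m + 1))⁻¹) ^ 2 =
      (x ^ 2 + d * y ^ 2) * ((t ^ (m + 1))⁻¹) ^ 2 := by ring
  have hN : N = 2 * m + 1 := hm
  rw [h6, h5, hN]
  field_simp
  ring

end

end Pool.Agent.N994.PG
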