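import Mathlib
import Pool.Agent.N994.PG.Disc

/-!
# Trivial discriminants for fields of odd degree
-/

set_option linter.unusedSectionVars false

namespace Pool.Agent.N994.PG

open Matrix Module Pool.Agent.W437.HC Pool.Agent.W437.HD Pool.Agent.Y90 Pool.Agent.R915
open Pool.Agent.W548.Odd hiding cv
open Pool.Agent.N994.PF (rs Zk InL Ed Sys PP PP_eq comb card_emb)

noncomputable section

/-- The Gram matrices of conjugate families of vectors. -/
theorem gram_eq {B n : Type*} [Fintype B] [DecidableEq B] [Fintype n] [DecidableEq n]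
    {M Φ : Matrix B B ℂ} {s d : ℂ} (hs : s * s = -d) (hΦ : Φ * Φ = -(d • (1 : Matrix B B ℂ)))
    (hM : Φᵀ * M = -(M * Φ)) {X V : Matrix B n ℂ} {A C : Matrix n n ℂ}
    (hX : X = V * A + Φ * V * C) :
    Xᵀ * M * ((Φ + s • 1) * X) =
      (A - s • C)ᵀ * (Vᵀ * M * ((Φ + s • 1) * V)) * (A + s • C) := by
  have hΦ' : Φ * Φ = (s * s) • (1 : Matrix B B ℂ) := by
    rw [hΦ, hs, neg_smul]
  have e0 : (Φ + s • 1) * Φ = s • (Φ + s • 1) := by
    rw [add_mul, hΦ', smul_mul_assoc, one_mul, smul_add, smul_smul, add_comm]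
  have e0' : Φ * (Φ + s • 1) = s • (Φ + s • 1) := by
    rw [mul_add, hΦ', mul_smul_comm, mul_one, smul_add, smul_smul, add_comm]
  have e1 : (Φ + s • 1) * X = (Φ + s • 1) * V * (A + s • C) := by
    rw [hX, Matrix.mul_add, ← Matrix.mul_assoc, ← Matrix.mul_assoc, ← Matrix.mul_assoc, e0,
      Matrix.mul_add, Matrix.mul_smul, Matrix.smul_mul, Matrix.smul_mul]
  have e2 : Xᵀ * M * (Φ + s • 1) = (A - s • C)ᵀ * (Vᵀ * M * (Φ + s • 1)) := by
    have h1 : Xᵀ * M = Aᵀ * (Vᵀ * M) - Cᵀ * (Vᵀ * M * Φ) := by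
      rw [hX, transpose_add, transpose_mul, transpose_mul, transpose_mul, Matrix.add_mul,
        Matrix.mul_assoc, Matrix.mul_assoc Cᵀ, Matrix.mul_assoc Vᵀ Φᵀ, hM, Matrix.mul_neg,
        Matrix.mul_neg, sub_eq_add_neg, ← Matrix.mul_assoc Vᵀ M Φ]
    rw [h1, Matrix.sub_mul, Matrix.mul_assoc, Matrix.mul_assoc Cᵀ, Matrix.mul_assoc (Vᵀ * M) Φ,
      e0', Matrix.mul_smul, transpose_sub, transpose_smul, Matrix.sub_mul, Matrix.smul_mul,
      Matrix.mul_smul]
  rw [e1, Matrix.mul_assoc _ V, ← Matrix.mul_assoc (Xᵀ * M), e2]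
  simp only [Matrix.mul_assoc]

theorem gram_entry {R B n : Type*} [CommRing R] [Fintype B] (X Y : Matrix B n R)
    (M : Matrix B B R) (i j : n) : (Xᵀ * M * Y) i j = (fun b => X b i) ⬝ᵥ (M *ᵥ fun b => Y b j) := by
  rw [Matrix.mul_assoc, Matrix.mul_apply]
  rfl

variable {Z : Matrix (Fin 6) (Fin 6) ℂ} {k : IntermediateField ℚ ℂ}
  {φ : Matrix (Fin 6 ⊕ Fin 6) (Fin 6 ⊕ Fin 6) ℚ} {d : ℚ}

/-- The form over a field. -/
def omK (K : Type*) [Field K] : (Fin 6 ⊕ Fin 6 → K) →ₗ[K] (Fin 6 ⊕ Fin 6 → K) →ₗ[K] K :=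
  Matrix.toLinearMap₂' K (-Om 6 K)

theorem omK_apply (K : Type*) [Field K] (v w : Fin 6 ⊕ Fin 6 → K) :
    omK K v w = v ⬝ᵥ ((-Om 6 K) *ᵥ w) := Matrix.toLinearMap₂'_apply' _ _ _

theorem omK_alt (K : Type*) [Field K] (v w : Fin 6 ⊕ Fin 6 → K) : omK K v w = -omK K w v := by
  rw [omK_apply, omK_apply, dotProduct_mulVec, ← mulVec_transpose, transpose_neg, Om_transpose,
    neg_neg, dotProduct_comm, neg_mulVec, dotProduct_neg, neg_neg]

theorem omK_nd (K : Type*) [Field K] (u : Fin 6 ⊕ Fin 6 → K) (hu : ∀ v, omK K v u = 0) : u = 0 := by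
  have h1 : ∀ w, (((-Om 6 K) *ᵥ u)) ⬝ᵥ w = 0 := fun w => by
    rw [dotProduct_comm, ← omK_apply, hu]
  have h2 : (-Om 6 K) *ᵥ u = 0 := dotProduct_eq_zero_iff.1 h1
  have h3 : Om 6 K *ᵥ ((-Om 6 K) *ᵥ u) = u := by
    rw [mulVec_mulVec, Matrix.mul_neg, Om_sq, neg_neg, one_mulVec]
  rw [← h3, h2, mulVec_zero]

theorem Om_mapF {K L : Type*} [Field K] [Field L] (f : K →+* L) : (Om 6 K).map f = Om 6 L := by
  ext i j
  rcases i with i | i <;> rcases j with j | j <;>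
    simp [Om, Matrix.one_apply, apply_ite]

theorem omK_map {K L : Type*} [Field K] [Field L] (f : K →+* L) (v w : Fin 6 ⊕ Fin 6 → K) :
    f (omK K v w) = omK L (fun i => f (v i)) fun i => f (w i) := by
  rw [omK_apply, omK_apply, RingHom.map_dotProduct]
  congr 1
  funext i
  rw [Function.comp_apply, RingHom.map_mulVec]
  have h1 : (-Om 6 K).map f = -Om 6 L := by
    rw [Matrix.map_neg _ (map_neg f), Om_mapF]
  rw [h1]
  rfl

theorem skew_mat (hsk : ∀ v w, rE 6 (φ *ᵥ v) w = -rE 6 v (φ *ᵥ w)) :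
    φᵀ * (-Om 6 ℚ) = -(-Om 6 ℚ * φ) := by
  ext i j
  have h1 := hsk (Pi.single i 1) (Pi.single j 1)
  unfold rE at h1
  have h2 : ∀ (M : Matrix (Fin 6 ⊕ Fin 6) (Fin 6 ⊕ Fin 6) ℚ),
      (Pi.single i 1 : Fin 6 ⊕ Fin 6 → ℚ) ⬝ᵥ (M *ᵥ Pi.single j 1) = M i j := by
    intro M
    simp
  rw [← vecMul_transpose, ← dotProduct_mulVec, mulVec_mulVec, mulVec_mulVec, h2, h2] at h1
  rw [h1]
  rfl

theorem skewK (K : Type*) [Field K] [CharZero K] {Φ : Matrix (Fin 6 ⊕ Fin 6) (Fin 6 ⊕ Fin 6) K}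
    (hM : Φᵀ * (-Om 6 K) = -(-Om 6 K * Φ)) (v w : Fin 6 ⊕ Fin 6 → K) :
    omK K (Φ *ᵥ v) w = -omK K v (Φ *ᵥ w) := by
  rw [omK_apply, omK_apply, ← vecMul_transpose, ← dotProduct_mulVec, mulVec_mulVec, mulVec_mulVec,
    hM, neg_mulVec, dotProduct_neg]

theorem hyp_data [FiniteDimensional ℚ k] (hodd : Odd (finrank ℚ k)) (h : PM Z)
    (hZ : ∀ i j, Z i j ∈ k) (hd : 0 < d)
    (hsq : φ * φ = -(d • (1 : Matrix (Fin 6 ⊕ Fin 6) (Fin 6 ⊕ Fin 6) ℚ)))
    (hc : DZ Z * qm φ = qm φ * DZ Z) (hsk : ∀ v w, rE 6 (φ *ᵥ v) w = -rE 6 v (φ *ᵥ w)) :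
    ∃ (x : Fin 3 ⊕ Fin 3 → (Fin 6 ⊕ Fin 6 → k)) (D D' : Matrix (Fin 3) (Fin 3) k),
      (Matrix.of fun i j => omK k (x i) (Matrix.toLin' (φ.map (algebraMap ℚ k)) (x j))) =
        fromBlocks 0 1 1 D ∧
      (Matrix.of fun i j => omK k (x i) (x j)) = fromBlocks 0 0 0 D' := by
  classical
  obtain ⟨f, hf⟩ : ∃ f : ℚ →+* k, f = algebraMap ℚ k := ⟨_, rfl⟩
  rw [← hf]
  let F : k →+* ℂ := algebraMap k ℂ
  have hFf : ∀ x : ℚ, F (f x) = x := fun x => by
    rw [hf]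
    change ((algebraMap ℚ k x : k) : ℂ) = x
    simp
  obtain ⟨Φ, hΦ⟩ : ∃ Φ : Matrix (Fin 6 ⊕ Fin 6) (Fin 6 ⊕ Fin 6) k, Φ = φ.map f := ⟨_, rfl⟩
  rw [← hΦ]
  have hΦF : Φ.map F = qm φ := by
    rw [hΦ]
    ext i j
    exact hFf _
  have hΦsq : ∀ w : Fin 6 ⊕ Fin 6 → k, Matrix.toLin' Φ (Matrix.toLin' Φ w) = -(f d • w) := by
    intro w
    have h1 : Φ * Φ = -(f d • (1 : Matrix (Fin 6 ⊕ Fin 6) (Fin 6 ⊕ Fin 6) k)) := by
      rw [hΦ, ← Matrix.map_mul, hsq]
      ext i j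
      by_cases hij : i = j
      · subst hij
        simp
      · simp [hij]
    rw [toLin'_apply, toLin'_apply, mulVec_mulVec, h1, neg_mulVec, smul_mulVec, one_mulVec]
  have hΦsk : Φᵀ * (-Om 6 k) = -(-Om 6 k * Φ) := by
    have h2 : (-Om 6 ℚ).map f = -Om 6 k := by
      rw [Matrix.map_neg _ (map_neg f), Om_mapF]
    have h1 : (φᵀ * (-Om 6 ℚ)).map f = (-(-Om 6 ℚ * φ)).map f := by rw [skew_mat hsk]
    rw [Matrix.map_mul, h2, transpose_map, ← hΦ] at h1
    rw [h1, Matrix.map_neg _ (map_neg f), Matrix.map_mul, h2, ← hΦ]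
  have hdk : ∀ x y : k, x * x + f d * (y * y) = 0 → x = 0 ∧ y = 0 := by
    intro x y hxy
    obtain ⟨p, hp⟩ := exists_real hodd
    have hreal : ∀ x : k, ∃ r : ℝ, p x = r := fun x => by
      obtain ⟨r, hr⟩ := Complex.conj_eq_iff_real.1 (hp x)
      exact ⟨r, hr⟩
    obtain ⟨r, hr⟩ := hreal x
    obtain ⟨t, ht⟩ := hreal y
    have h1 := congrArg p hxy
    rw [map_add, map_mul, map_mul, map_mul, hr, ht, map_zero] at h1
    have h2 : p (f d) = (d : ℂ) := by
      rw [hf, eq_ratCast, map_ratCast]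
    rw [h2] at h1
    have h3 : r * r + d * (t * t) = 0 := by exact_mod_cast h1
    have h4 : 0 ≤ r * r := mul_self_nonneg r
    have h5 : (0 : ℝ) < d := by exact_mod_cast hd
    have h6 : 0 ≤ d * (t * t) := mul_nonneg h5.le (mul_self_nonneg t)
    have h7 : r * r = 0 := by linarith
    have h8 : (d : ℝ) * (t * t) = 0 := by linarith
    have h9 : r = 0 := mul_self_eq_zero.1 h7
    have h10 : t = 0 := mul_self_eq_zero.1 ((mul_eq_zero.1 h8).resolve_left h5.ne')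
    rw [h9, Complex.ofReal_zero] at hr
    rw [h10, Complex.ofReal_zero] at ht
    exact ⟨(map_eq_zero p).1 hr, (map_eq_zero p).1 ht⟩
  -- the Lagrangian subspace
  let L : (Fin 6 → k) →ₗ[k] (Fin 6 ⊕ Fin 6 → k) :=
    { toFun := fun c => vecL (Zk k hZ) c
      map_add' := fun x y => by
        funext i
        rcases i with i | i
        · simp only [vecL, Sum.elim_inl, Pi.add_apply, mulVec_add, Pi.neg_apply]
          ring
        · rfl
      map_smul' := fun r x => by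
        funext i
        rcases i with i | i
        · simp only [vecL, Sum.elim_inl, Pi.smul_apply, mulVec_smul, Pi.neg_apply, smul_eq_mul,
            RingHom.id_apply]
          ring
        · rfl }
  have hLinj : Function.Injective L := by
    intro x y hxy
    funext i
    exact congrFun hxy (Sum.inr i)
  have hW : finrank k (LinearMap.range L) = 6 := by
    rw [LinearMap.finrank_range_of_inj hLinj, finrank_fintype_fun_eq_card, Fintype.card_fin]
  have hWF : ∀ w, w ∈ LinearMap.range L ↔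
      DZ Z *ᵥ (fun i => F (w i)) = -fun i => F (w i) := by
    intro w
    have h1 := PF.eig_neg ⟨h.symm, h.pos⟩ hZ (RingEquiv.refl ℂ) (fun i => F (w i))
    have h2 : (DZ Z).map (((RingEquiv.refl ℂ : ℂ ≃+* ℂ)) : ℂ →+* ℂ) = DZ Z := by
      ext i j
      rfl
    rw [h2] at h1
    rw [h1]
    have h3 : ∀ c : Fin 6 → k, (fun i => F (vecL (Zk k hZ) c i)) =
        vecL ((Zk k hZ).map (rs k (RingEquiv.refl ℂ))) fun i => F (c i) := by
      intro c
      funext i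
      rcases i with i | i
      · simp only [vecL, Sum.elim_inl, Pi.neg_apply, map_neg, mulVec, dotProduct, map_sum, map_mul]
        rfl
      · rfl
    constructor
    · rintro ⟨c, rfl⟩
      exact ⟨fun i => F (c i), h3 c⟩
    · rintro ⟨c, hc⟩
      have h4 : c = fun i => F (w (Sum.inr i)) := by
        funext i
        exact (congrFun hc (Sum.inr i)).symm
      refine ⟨fun i => w (Sum.inr i), ?_⟩
      have h5 : (fun i => F (vecL (Zk k hZ) (fun i => w (Sum.inr i)) i)) = fun i => F (w i) := by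
        rw [h3, hc, h4]
      funext i
      exact F.injective (congrFun h5 i)
  have hst : ∀ w ∈ LinearMap.range L, Matrix.toLin' Φ w ∈ LinearMap.range L := by
    intro w hw
    rw [hWF] at hw ⊢
    have h1 : (fun i => F (Matrix.toLin' Φ w i)) = qm φ *ᵥ fun i => F (w i) := by
      funext i
      rw [toLin'_apply, RingHom.map_mulVec, hΦF]
      rfl
    rw [h1, mulVec_mulVec, hc, ← mulVec_mulVec, hw, mulVec_neg]
  have hiso : ∀ v ∈ LinearMap.range L, ∀ w ∈ LinearMap.range L, omK k v w = 0 := by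
    intro v hv w hw
    rw [hWF] at hv hw
    have h1 := h.om_sp DZ_mem (fun i => F (v i)) (fun i => F (w i))
    rw [hv, hw, map_neg, map_neg, LinearMap.neg_apply] at h1
    have h2 : om 6 (fun i => F (v i)) (fun i => F (w i)) = 0 := by
      linear_combination (-1 / 2 : ℂ) * h1
    have h3 : omK ℂ (fun i => F (v i)) (fun i => F (w i)) =
        -om 6 (fun i => F (v i)) (fun i => F (w i)) := by
      rw [omK_apply, om_apply, neg_mulVec, dotProduct_neg]
    apply F.injective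
    rw [omK_map, h3, h2, map_zero, neg_zero]
  exact hypF (Matrix.toLin' Φ) hdk hΦsq (omK k) (omK_alt k) (omK_nd k)
    (fun v w => skewK k hΦsk v w) (LinearMap.range L) hW hst hiso

end

end Pool.Agent.N994.PG
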