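import Mathlib
import Pool.Agent.N994.PG.DiscOdd

/-!
# Trivial discriminants for fields of odd degree, II
-/

set_option linter.unusedSectionVars false

namespace Pool.Agent.N994.PG

open Matrix Module Pool.Agent.W437.HC Pool.Agent.W437.HD Pool.Agent.Y90 Pool.Agent.R915
open Pool.Agent.W548.Odd hiding cv
open Pool.Agent.N994.PF (rs Zk InL Ed Sys PP PP_eq comb card_emb)

noncomputable section

/-- Coordinates with respect to a rational basis of pairs. -/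
theorem pair_coord {K : Type*} [Field K] (f : ℚ →+* K) {φ : Matrix (Fin 6 ⊕ Fin 6) (Fin 6 ⊕ Fin 6) ℚ}
    (b : Basis (Fin 6 ⊕ Fin 6) ℚ (Fin 6 ⊕ Fin 6 → ℚ))
    (hb : ∀ i, b (Sum.inr i) = φ *ᵥ b (Sum.inl i)) (e : Fin 3 ⊕ Fin 3 ≃ Fin 6)
    (X : Matrix (Fin 6 ⊕ Fin 6) (Fin 3 ⊕ Fin 3) K) :
    ∃ A C : Matrix (Fin 3 ⊕ Fin 3) (Fin 3 ⊕ Fin 3) K,
      X = ((Matrix.of fun i j => b (Sum.inl (e j)) i :
          Matrix (Fin 6 ⊕ Fin 6) (Fin 3 ⊕ Fin 3) ℚ).map f) * A +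
        φ.map f * ((Matrix.of fun i j => b (Sum.inl (e j)) i :
          Matrix (Fin 6 ⊕ Fin 6) (Fin 3 ⊕ Fin 3) ℚ).map f) * C := by
  classical
  let c := Pi.basisFun ℚ (Fin 6 ⊕ Fin 6)
  have h1 : c.toMatrix b * b.toMatrix c = 1 := Basis.toMatrix_mul_toMatrix_flip _ _
  have h2 : (c.toMatrix b).map f * (b.toMatrix c).map f = 1 := by
    rw [← Matrix.map_mul, h1, Matrix.map_one _ (map_zero f) (map_one f)]
  let R := (b.toMatrix c).map f * X
  have h3 : X = (c.toMatrix b).map f * R := by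
    change X = _ * (_ * X)
    rw [← Matrix.mul_assoc, h2, Matrix.one_mul]
  have h4 : ∀ i j, (c.toMatrix b).map f i j = f (b j i) := by
    intro i j
    rfl
  refine ⟨Matrix.of fun i j => R (Sum.inl (e i)) j, Matrix.of fun i j => R (Sum.inr (e i)) j, ?_⟩
  ext i j
  have h5 : X i j = ∑ l, (c.toMatrix b).map f i l * R l j := by
    conv_lhs => rw [h3]
    rw [Matrix.mul_apply]
  rw [h5, Fintype.sum_sum_type, Matrix.add_apply, Matrix.mul_apply, Matrix.mul_apply]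
  congr 1
  · rw [← e.sum_comp]
    refine Finset.sum_congr rfl fun l _ => ?_
    rw [h4]
    rfl
  · rw [← e.sum_comp]
    refine Finset.sum_congr rfl fun l _ => ?_
    rw [h4, hb, ← Matrix.map_mul]
    rfl

variable {Z : Matrix (Fin 6) (Fin 6) ℂ} {k : IntermediateField ℚ ℂ}
  {φ : Matrix (Fin 6 ⊕ Fin 6) (Fin 6 ⊕ Fin 6) ℚ} {d : ℚ}

/-- The Gram determinant of rational vectors is rational. -/
theorem gram_rat (hsk : ∀ v w, rE 6 (φ *ᵥ v) w = -rE 6 v (φ *ᵥ w)) {s : ℂ}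
    (hs : s * s = -(d : ℂ)) (v : Fin 3 ⊕ Fin 3 → (Fin 6 ⊕ Fin 6 → ℚ)) :
    ∃ a : ℚ, (Matrix.of fun i j => ((rE 6 (v i) (φ *ᵥ v j) : ℚ) : ℂ) +
      s * ((rE 6 (v i) (v j) : ℚ) : ℂ)).det = a := by
  obtain ⟨x, y, h1, h2⟩ := det_pair (algebraMap ℚ ℂ) d (s := s) hs
    (Matrix.of fun i j => rE 6 (v i) (φ *ᵥ v j)) (Matrix.of fun i j => rE 6 (v i) (v j))
  have h3 : (Matrix.of fun i j => ((rE 6 (v i) (φ *ᵥ v j) : ℚ) : ℂ) +
      s * ((rE 6 (v i) (v j) : ℚ) : ℂ)) =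
      (Matrix.of fun i j => rE 6 (v i) (φ *ᵥ v j)).map (algebraMap ℚ ℂ) +
        s • (Matrix.of fun i j => rE 6 (v i) (v j)).map (algebraMap ℚ ℂ) := by
    ext i j
    rfl
  have h4 : ((Matrix.of fun i j => rE 6 (v i) (φ *ᵥ v j)).map (algebraMap ℚ ℂ) +
        s • (Matrix.of fun i j => rE 6 (v i) (v j)).map (algebraMap ℚ ℂ))ᵀ =
      (Matrix.of fun i j => rE 6 (v i) (φ *ᵥ v j)).map (algebraMap ℚ ℂ) -
        s • (Matrix.of fun i j => rE 6 (v i) (v j)).map (algebraMap ℚ ℂ) := by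
    ext i j
    rw [transpose_apply, Matrix.add_apply, Matrix.sub_apply, Matrix.smul_apply, Matrix.smul_apply]
    change ((rE 6 (v j) (φ *ᵥ v i) : ℚ) : ℂ) + s * ((rE 6 (v j) (v i) : ℚ) : ℂ) =
      ((rE 6 (v i) (φ *ᵥ v j) : ℚ) : ℂ) - s * ((rE 6 (v i) (v j) : ℚ) : ℂ)
    rw [rE_alt (v j) (φ *ᵥ v i), hsk, neg_neg, rE_alt (v j) (v i)]
    push_cast
    ring
  rw [← h4, det_transpose, h1] at h2
  refine ⟨x, ?_⟩
  rw [h3, h1]
  have h5 : s * algebraMap ℚ ℂ y = 0 := by linear_combination (1 / 2 : ℂ) * h2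
  rw [h5, add_zero]
  rfl

/-- **The discriminant is trivial for fields of odd degree.** -/
theorem disc_odd [FiniteDimensional ℚ k] (hodd : Odd (finrank ℚ k)) (h : PM Z)
    (hZ : ∀ i j, Z i j ∈ k) (hd : 0 < d)
    (hsq : φ * φ = -(d • (1 : Matrix (Fin 6 ⊕ Fin 6) (Fin 6 ⊕ Fin 6) ℚ)))
    (hc : DZ Z * qm φ = qm φ * DZ Z) (hsk : ∀ v w, rE 6 (φ *ᵥ v) w = -rE 6 v (φ *ᵥ w)) :
    HasTrivialDisc (AVZ h) d (Matrix.toLin' φ) := by
  classical
  obtain ⟨s, hs⟩ : ∃ s : ℂ, s * s = -(d : ℂ) := by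
    obtain ⟨s, hs⟩ := IsAlgClosed.exists_pow_nat_eq (-(d : ℂ)) (n := 2) (by norm_num)
    exact ⟨s, by rw [← hs, sq]⟩
  have hsqv : ∀ w : Fin 6 ⊕ Fin 6 → ℚ, Matrix.toLin' φ (Matrix.toLin' φ w) = -(d • w) := by
    intro w
    rw [toLin'_apply, toLin'_apply, mulVec_mulVec, hsq, neg_mulVec, smul_mulVec, one_mulVec]
  obtain ⟨b, hb⟩ := exists_pair_basis (Matrix.toLin' φ) hd hsqv (m := 6)
    (by rw [finrank_fintype_fun_eq_card]; rfl)
  obtain ⟨x, D, D', hD, hD'⟩ := hyp_data hodd h hZ hd hsq hc hsk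
  obtain ⟨e, -⟩ : ∃ e : Fin 3 ⊕ Fin 3 ≃ Fin 6, e = finSumFinEquiv := ⟨_, rfl⟩
  obtain ⟨f, hf⟩ : ∃ f : ℚ →+* k, f = algebraMap ℚ k := ⟨_, rfl⟩
  rw [← hf] at hD
  let F : k →+* ℂ := algebraMap k ℂ
  have hFf : ∀ x : ℚ, F (f x) = x := fun x => by
    rw [hf]
    change ((algebraMap ℚ k x : k) : ℂ) = x
    simp
  obtain ⟨A, C, hX⟩ := pair_coord f b (fun i => by rw [hb, toLin'_apply]) e
    (Matrix.of fun i j => x j i)
  -- over the complex numbers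
  obtain ⟨V, hV⟩ : ∃ V : Matrix (Fin 6 ⊕ Fin 6) (Fin 3 ⊕ Fin 3) ℂ,
    V = Matrix.of fun i j => ((b (Sum.inl (e j)) i : ℚ) : ℂ) := ⟨_, rfl⟩
  obtain ⟨XF, hXF⟩ : ∃ XF : Matrix (Fin 6 ⊕ Fin 6) (Fin 3 ⊕ Fin 3) ℂ,
    XF = Matrix.of fun i j => F (x j i) := ⟨_, rfl⟩
  have hXC : XF = V * A.map F + qm φ * V * C.map F := by
    have h1 := congrArg (fun M : Matrix (Fin 6 ⊕ Fin 6) (Fin 3 ⊕ Fin 3) k => M.map F) hX
    beta_reduce at h1
    have h2 : ((Matrix.of fun i j => b (Sum.inl (e j)) i :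
        Matrix (Fin 6 ⊕ Fin 6) (Fin 3 ⊕ Fin 3) ℚ).map f).map F = V := by
      rw [hV]
      ext i j
      exact hFf _
    have h3 : (φ.map f).map F = qm φ := by
      ext i j
      exact hFf _
    rw [Matrix.map_add _ (map_add F), Matrix.map_mul, Matrix.map_mul, Matrix.map_mul, h2, h3] at h1
    rw [← h1, hXF]
    rfl
  have hsqC : qm φ * qm φ = -((d : ℂ) • (1 : Matrix (Fin 6 ⊕ Fin 6) (Fin 6 ⊕ Fin 6) ℂ)) := by
    rw [← qm_mul, hsq]
    ext i j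
    by_cases hij : i = j
    · subst hij
      simp
    · simp [hij]
  have hskC : (qm φ)ᵀ * (-Om 6 ℂ) = -(-Om 6 ℂ * qm φ) := by
    have h2 : (-Om 6 ℚ).map (algebraMap ℚ ℂ) = -Om 6 ℂ := by
      rw [Matrix.map_neg _ (map_neg (algebraMap ℚ ℂ)), Om_mapF]
    have h1 : (φᵀ * (-Om 6 ℚ)).map (algebraMap ℚ ℂ) =
        (-(-Om 6 ℚ * φ)).map (algebraMap ℚ ℂ) := by rw [skew_mat hsk]
    rw [Matrix.map_mul, h2, transpose_map, Matrix.map_neg _ (map_neg (algebraMap ℚ ℂ)),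
      Matrix.map_mul, h2] at h1
    exact h1
  have hgram := gram_eq hs hsqC hskC hXC
  -- the left hand side
  have hL : XFᵀ * (-Om 6 ℂ) * ((qm φ + s • 1) * XF) =
      fromBlocks 0 1 1 (D.map F + s • D'.map F) := by
    ext i j
    have e1 : (fun c => ((qm φ + s • (1 : Matrix (Fin 6 ⊕ Fin 6) (Fin 6 ⊕ Fin 6) ℂ)) * XF) c j) =
        (qm φ *ᵥ fun c => F (x j c)) + s • fun c => F (x j c) := by
      have e2 : (fun c => ((qm φ + s • (1 : Matrix (Fin 6 ⊕ Fin 6) (Fin 6 ⊕ Fin 6) ℂ)) * XF) c j) =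
          (qm φ + s • (1 : Matrix (Fin 6 ⊕ Fin 6) (Fin 6 ⊕ Fin 6) ℂ)) *ᵥ fun c => F (x j c) := by
        rw [hXF]
        rfl
      rw [e2, add_mulVec, smul_mulVec, one_mulVec]
    have e3 : (fun c => XF c i) = fun c => F (x i c) := by
      rw [hXF]
      rfl
    have e4 : (qm φ *ᵥ fun c => F (x j c)) = fun c => F (Matrix.toLin' (φ.map f) (x j) c) := by
      funext c
      rw [toLin'_apply, RingHom.map_mulVec]
      have h3 : (φ.map f).map F = qm φ := by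
        ext i j
        exact hFf _
      rw [h3]
      rfl
    rw [gram_entry, e1, e3, ← omK_apply, map_add, map_smul, e4, ← omK_map F, ← omK_map F,
      smul_eq_mul]
    have e5 : omK k (x i) (Matrix.toLin' (φ.map f) (x j)) = fromBlocks 0 1 1 D i j := by
      rw [← hD]
      rfl
    have e6 : omK k (x i) (x j) = fromBlocks 0 0 0 D' i j := by
      rw [← hD']
      rfl
    rw [e5, e6]
    rcases i with i | i <;> rcases j with j | j
    · simp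
    · simp [Matrix.one_apply, apply_ite]
    · simp [Matrix.one_apply, apply_ite]
    · rfl
  -- the Gram matrix of the rational vectors
  have hR : Vᵀ * (-Om 6 ℂ) * ((qm φ + s • 1) * V) = Matrix.of fun i j =>
      ((rE 6 (b (Sum.inl (e i))) (φ *ᵥ b (Sum.inl (e j))) : ℚ) : ℂ) +
        s * ((rE 6 (b (Sum.inl (e i))) (b (Sum.inl (e j))) : ℚ) : ℂ) := by
    ext i j
    have e1 : (fun c => ((qm φ + s • (1 : Matrix (Fin 6 ⊕ Fin 6) (Fin 6 ⊕ Fin 6) ℂ)) * V) c j) =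
        (qm φ *ᵥ cv (b (Sum.inl (e j)))) + s • cv (b (Sum.inl (e j))) := by
      have e2 : (fun c => ((qm φ + s • (1 : Matrix (Fin 6 ⊕ Fin 6) (Fin 6 ⊕ Fin 6) ℂ)) * V) c j) =
          (qm φ + s • (1 : Matrix (Fin 6 ⊕ Fin 6) (Fin 6 ⊕ Fin 6) ℂ)) *ᵥ
            cv (b (Sum.inl (e j))) := by
        rw [hV]
        rfl
      rw [e2, add_mulVec, smul_mulVec, one_mulVec]
    have e3 : (fun c => V c i) = cv (b (Sum.inl (e i))) := by
      rw [hV]
      rfl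
    rw [gram_entry, e1, e3, ← omK_apply, map_add, map_smul, Matrix.of_apply, rE_cv, rE_cv,
      cv_mulVec', smul_eq_mul]
    have e4 : ∀ v w, omK ℂ v w = -om 6 v w := fun v w => by
      rw [omK_apply, om_apply, neg_mulVec, dotProduct_neg]
    rw [e4, e4]
  obtain ⟨a, ha⟩ := gram_rat hsk hs fun i => b (Sum.inl (e i))
  rw [hL, hR] at hgram
  have hdet := congrArg Matrix.det hgram
  obtain ⟨z₁, z₂, hz1, hz2⟩ := det_pair F (f d) (s := s) (by rw [hFf, hs]) A C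
  rw [det_swap, det_mul, det_mul, ha, det_transpose, hz2, hz1] at hdet
  have ha0 : a ≠ 0 := by
    rintro rfl
    rw [Rat.cast_zero, mul_zero, zero_mul] at hdet
    norm_num at hdet
  have hz : (z₁ : ℂ) * z₁ + d * (z₂ * z₂) = ((-a⁻¹ : ℚ) : ℂ) := by
    have h1 : F z₁ * F z₁ + (d : ℂ) * (F z₂ * F z₂) =
        (F z₁ - s * F z₂) * (F z₁ + s * F z₂) := by
      linear_combination (F z₂ * F z₂) * hs
    change F z₁ * F z₁ + (d : ℂ) * (F z₂ * F z₂) = _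
    rw [h1]
    have h2 : (a : ℂ) ≠ 0 := by exact_mod_cast ha0
    push_cast
    field_simp
    linear_combination -hdet
  obtain ⟨x', y', hxy⟩ := norm_odd hodd (neg_ne_zero.2 (inv_ne_zero ha0)) hs hz
  have hxy' : x' ^ 2 + d * y' ^ 2 = -a := by
    rw [hxy, inv_neg, inv_inv]
  refine ⟨s, fun v w => rE 6 v w, fun i => b (Sum.inl i), x', y', hs, h.polar, fun v w => ?_, ?_, ?_⟩
  · rw [toLin'_apply, toLin'_apply]
    exact hsk v w
  · by_contra hcon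
    push Not at hcon
    rw [hcon.1, hcon.2] at hxy'
    apply ha0
    linarith
  · have h1 : (Matrix.of fun i j : Fin 6 =>
        ((rE 6 (b (Sum.inl i)) (Matrix.toLin' φ (b (Sum.inl j))) : ℚ) : ℂ) +
          s * ((rE 6 (b (Sum.inl i)) (b (Sum.inl j)) : ℚ) : ℂ)) =
        (Matrix.of fun i j => ((rE 6 (b (Sum.inl (e i))) (φ *ᵥ b (Sum.inl (e j))) : ℚ) : ℂ) +
          s * ((rE 6 (b (Sum.inl (e i))) (b (Sum.inl (e j))) : ℚ) : ℂ)).submatrix e.symm e.symm := by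
      ext i j
      rw [submatrix_apply, Matrix.of_apply, Matrix.of_apply, e.apply_symm_apply,
        e.apply_symm_apply, toLin'_apply]
    change (Matrix.of fun i j : Fin 6 =>
        ((rE 6 (b (Sum.inl i)) (Matrix.toLin' φ (b (Sum.inl j))) : ℚ) : ℂ) +
          s * ((rE 6 (b (Sum.inl i)) (b (Sum.inl j)) : ℚ) : ℂ)).det = _
    rw [h1, Matrix.det_submatrix_equiv_self, ha, hxy']
    push_cast
    ring

end

end Pool.Agent.N994.PG
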