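import Mathlib
import Pool.Agent.N994.PG.Comb

/-!
# Vertex-transitive graphs with six vertices which are not connected
-/

namespace Pool.Agent.N994.PG

open Function

variable {X : Type*} {E : X → X → Prop}

/-- Three edges. -/
theorem three_edges [Fintype X] (hs : ∀ a b, E a b → E b a) (hi : ∀ a, ¬ E a a)
    (hne : ∀ a, ∃ b, E a b) (hX : Fintype.card X = 6) (hu : ∀ x y z, E x y → E x z → y = z) :
    ∃ w : Fin 6 → X, Surjective w ∧ E (w 0) (w 1) ∧ E (w 2) (w 3) ∧ E (w 4) (w 5) := by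
  classical
  choose n hn using hne
  have hnn : ∀ a, n (n a) = a := fun a => hu (n a) _ _ (hn (n a)) (hs _ _ (hn a))
  have hna : ∀ a, n a ≠ a := by
    intro a h
    have h1 := hn a
    rw [h] at h1
    exact hi a h1
  have out : ∀ s : Finset X, s.card < 6 → ∃ x, x ∉ s := by
    intro s hs
    by_contra h
    push Not at h
    have h1 : s = Finset.univ := Finset.eq_univ_iff_forall.2 h
    rw [h1, Finset.card_univ, hX] at hs
    exact lt_irrefl _ hs
  obtain ⟨a, -⟩ := out ∅ (by simp)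
  obtain ⟨b, hb⟩ := out {a, n a} (lt_of_le_of_lt Finset.card_le_two (by norm_num))
  obtain ⟨c, hc⟩ := out {a, n a, b, n b} (lt_of_le_of_lt Finset.card_le_four (by norm_num))
  simp only [Finset.mem_insert, Finset.mem_singleton, not_or] at hb hc
  obtain ⟨b1, b2⟩ := hb
  obtain ⟨c1, c2, c3, c4⟩ := hc
  have inj : ∀ x y, n x = n y → x = y := fun x y h => by rw [← hnn x, h, hnn]
  have b3 : n b ≠ a := fun h => b2 (by rw [← h, hnn])
  have b4 : n b ≠ n a := fun h => b1 (inj _ _ h)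
  have c5 : n c ≠ a := fun h => c2 (by rw [← h, hnn])
  have c6 : n c ≠ n a := fun h => c1 (inj _ _ h)
  have c7 : n c ≠ b := fun h => c4 (by rw [← h, hnn])
  have c8 : n c ≠ n b := fun h => c3 (inj _ _ h)
  let w : Fin 6 → X := ![a, n a, b, n b, c, n c]
  have hw : Injective w := by
    have e0 := hna a
    have e1 := hna b
    have e2 := hna c
    have h1 : List.Nodup [a, n a, b, n b, c, n c] := by
      simp only [List.nodup_cons, List.mem_cons, List.not_mem_nil, or_false, not_or,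
        List.nodup_nil, and_true, not_false_eq_true]
      exact ⟨⟨e0.symm, fun h => b1 h.symm, b3.symm, fun h => c1 h.symm, c5.symm⟩,
        ⟨fun h => b2 h.symm, b4.symm, fun h => c2 h.symm, c6.symm⟩,
        ⟨e1.symm, fun h => c3 h.symm, c7.symm⟩, ⟨fun h => c4 h.symm, c8.symm⟩, e2.symm⟩
    have h2 : (List.ofFn w).Nodup := by
      have h3 : List.ofFn w = [a, n a, b, n b, c, n c] := by
        simp [w]
      rw [h3]
      exact h1
    exact List.nodup_ofFn.1 h2
  have hb : Bijective w := by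
    rw [Fintype.bijective_iff_injective_and_card]
    exact ⟨hw, by rw [Fintype.card_fin, hX]⟩
  exact ⟨w, hb.2, hn a, hn b, hn c⟩

/-- A closed set with three elements in a graph all of whose vertices have two neighbours. -/
theorem triangle (hi : ∀ a, ¬ E a a) (h2 : ∀ a, ∃ x y, x ≠ y ∧ E a x ∧ E a y)
    {S : Finset X} (hS : S.card ≤ 3) (hSn : S.Nonempty) (hc : ∀ a ∈ S, ∀ b, E a b → b ∈ S) :
    ∃ x y z, E x y ∧ E y z ∧ E x z ∧ ∀ s ∈ S, s = x ∨ s = y ∨ s = z := by
  classical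
  obtain ⟨x, hx⟩ := hSn
  obtain ⟨y, z, hyz, hxy, hxz⟩ := h2 x
  have hy := hc x hx y hxy
  have hz := hc x hx z hxz
  have hxy' : x ≠ y := by
    rintro rfl
    exact hi _ hxy
  have hxz' : x ≠ z := by
    rintro rfl
    exact hi _ hxz
  have hS' : ∀ s ∈ S, s = x ∨ s = y ∨ s = z := by
    have h3 : ({x, y, z} : Finset X) ⊆ S := by
      intro t ht
      simp only [Finset.mem_insert, Finset.mem_singleton] at ht
      rcases ht with rfl | rfl | rfl
      · exact hx
      · exact hy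
      · exact hz
    have h4 : ({x, y, z} : Finset X).card = 3 := Finset.card_eq_three.2
      ⟨x, y, z, hxy', hxz', hyz, rfl⟩
    have h5 := Finset.eq_of_subset_of_card_le h3 (by rw [h4]; exact hS)
    intro s hs
    rw [← h5] at hs
    simpa using hs
  refine ⟨x, y, z, hxy, ?_, hxz, hS'⟩
  obtain ⟨u, v, huv, hyu, hyv⟩ := h2 y
  have hu := hS' u (hc y hy u hyu)
  have hv := hS' v (hc y hy v hyv)
  have hu' : u ≠ y := by
    rintro rfl
    exact hi _ hyu
  have hv' : v ≠ y := by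
    rintro rfl
    exact hi _ hyv
  rcases hu with rfl | rfl | rfl
  · rcases hv with rfl | rfl | rfl
    · exact absurd rfl huv
    · exact absurd rfl hv'
    · exact hyv
  · exact absurd rfl hu'
  · exact hyu

/-- **Vertex-transitive graphs with six vertices.** -/
theorem six_or [Fintype X] (hs : ∀ a b, E a b → E b a) (hi : ∀ a, ¬ E a a)
    (hom : ∀ p p', ∃ f : X → X, Injective f ∧ f p = p' ∧ ∀ a b, E a b → E (f a) (f b))
    (hne : ∀ a, ∃ b, E a b) (hX : Fintype.card X = 6) :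
    (∀ S : Set X, S.Nonempty → (∀ a ∈ S, ∀ b, E a b → b ∈ S) → S = Set.univ) ∨
    ((∀ x y z, E x y → E x z → y = z) ∧
      ∃ w : Fin 6 → X, Surjective w ∧ E (w 0) (w 1) ∧ E (w 2) (w 3) ∧ E (w 4) (w 5)) ∨
    (∃ w : Fin 6 → X, Surjective w ∧ E (w 0) (w 1) ∧ E (w 1) (w 2) ∧ E (w 0) (w 2) ∧
      E (w 3) (w 4) ∧ E (w 4) (w 5) ∧ E (w 3) (w 5) ∧
      ∀ i j : Fin 6, E (w i) (w j) → (i.1 < 3 ↔ j.1 < 3)) := by
  classical
  by_cases h1 : ∀ x y z, E x y → E x z → y = z
  · exact Or.inr (Or.inl ⟨h1, three_edges hs hi hne hX h1⟩)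
  have h2 : ∀ a, ∃ x y, x ≠ y ∧ E a x ∧ E a y := by
    push Not at h1
    obtain ⟨x, y, z, hy, hz, hyz⟩ := h1
    intro a
    obtain ⟨f, hf, hfa, hE⟩ := hom x a
    refine ⟨f y, f z, fun h => hyz (hf h), ?_, ?_⟩
    · rw [← hfa]
      exact hE _ _ hy
    · rw [← hfa]
      exact hE _ _ hz
  by_cases h3 : ∀ S : Set X, S.Nonempty → (∀ a ∈ S, ∀ b, E a b → b ∈ S) → S = Set.univ
  · exact Or.inl h3
  right
  right
  push Not at h3
  obtain ⟨S₀, hS₀, hc₀, hne₀⟩ := h3
  -- a closed set with at most three elements whose complement is closed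
  let A : Finset X := Finset.univ.filter fun x => x ∈ S₀
  let B : Finset X := Finset.univ.filter fun x => x ∉ S₀
  have hA : ∀ x, x ∈ A ↔ x ∈ S₀ := fun x => by simp [A]
  have hB : ∀ x, x ∈ B ↔ x ∉ S₀ := fun x => by simp [B]
  have hAB : A.card + B.card = 6 := by
    rw [← hX, ← Finset.card_univ]
    exact Finset.card_filter_add_card_filter_not _
  have hAn : A.Nonempty := by
    obtain ⟨x, hx⟩ := hS₀
    exact ⟨x, (hA x).2 hx⟩
  have hBn : B.Nonempty := by
    obtain ⟨x, hx⟩ := (Set.ne_univ_iff_exists_notMem S₀).1 hne₀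
    exact ⟨x, (hB x).2 hx⟩
  have hAc : ∀ a ∈ A, ∀ b, E a b → b ∈ A := fun a ha b hab => (hA b).2 (hc₀ a ((hA a).1 ha) b hab)
  have hBc : ∀ a ∈ B, ∀ b, E a b → b ∈ B := fun a ha b hab => (hB b).2 fun hb =>
    (hB a).1 ha (hc₀ b hb a (hs _ _ hab))
  -- both have at least three elements
  have three : ∀ S : Finset X, S.Nonempty → (∀ a ∈ S, ∀ b, E a b → b ∈ S) → 3 ≤ S.card := by
    intro S hSn hc
    obtain ⟨x, hx⟩ := hSn
    obtain ⟨y, z, hyz, hxy, hxz⟩ := h2 x
    have hxy' : x ≠ y := by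
      rintro rfl
      exact hi _ hxy
    have hxz' : x ≠ z := by
      rintro rfl
      exact hi _ hxz
    rw [← Finset.card_eq_three.2 ⟨x, y, z, hxy', hxz', hyz, rfl⟩]
    refine Finset.card_le_card fun t ht => ?_
    simp only [Finset.mem_insert, Finset.mem_singleton] at ht
    rcases ht with rfl | rfl | rfl
    · exact hx
    · exact hc x hx _ hxy
    · exact hc x hx _ hxz
  have a3 := three A hAn hAc
  have b3 := three B hBn hBc
  obtain ⟨x, y, z, hxy, hyz, hxz, hxA⟩ := triangle hi h2 (by omega) hAn hAc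
  obtain ⟨x', y', z', hxy', hyz', hxz', hxB⟩ := triangle hi h2 (by omega) hBn hBc
  have mem : ∀ s, (s = x ∨ s = y ∨ s = z) ∨ (s = x' ∨ s = y' ∨ s = z') := by
    intro s
    by_cases h : s ∈ S₀
    · exact Or.inl (hxA s ((hA s).2 h))
    · exact Or.inr (hxB s ((hB s).2 h))
  -- the triangles are contained in the closed sets
  obtain ⟨α, hα⟩ := hAn
  have hclA : x ∈ A ∧ y ∈ A ∧ z ∈ A := by
    rcases hxA α hα with rfl | rfl | rfl
    · exact ⟨hα, hAc _ hα _ hxy, hAc _ hα _ hxz⟩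
    · exact ⟨hAc _ hα _ (hs _ _ hxy), hα, hAc _ hα _ hyz⟩
    · exact ⟨hAc _ hα _ (hs _ _ hxz), hAc _ hα _ (hs _ _ hyz), hα⟩
  obtain ⟨β, hβ⟩ := hBn
  have hclB : x' ∈ B ∧ y' ∈ B ∧ z' ∈ B := by
    rcases hxB β hβ with rfl | rfl | rfl
    · exact ⟨hβ, hBc _ hβ _ hxy', hBc _ hβ _ hxz'⟩
    · exact ⟨hBc _ hβ _ (hs _ _ hxy'), hβ, hBc _ hβ _ hyz'⟩
    · exact ⟨hBc _ hβ _ (hs _ _ hxz'), hBc _ hβ _ (hs _ _ hyz'), hβ⟩
  refine ⟨![x, y, z, x', y', z'], ?_, hxy, hyz, hxz, hxy', hyz', hxz', ?_⟩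
  · intro s
    rcases mem s with (rfl | rfl | rfl) | (rfl | rfl | rfl)
    · exact ⟨0, rfl⟩
    · exact ⟨1, rfl⟩
    · exact ⟨2, rfl⟩
    · exact ⟨3, rfl⟩
    · exact ⟨4, rfl⟩
    · exact ⟨5, rfl⟩
  · have hin : ∀ i : Fin 6, i.1 < 3 ↔ (![x, y, z, x', y', z'] : Fin 6 → X) i ∈ A := by
      have hn : ∀ s, s ∈ B → s ∉ A := fun s hs h => (hB s).1 hs ((hA s).1 h)
      intro i
      fin_cases i
      · exact ⟨fun _ => hclA.1, fun _ => by norm_num⟩
      · exact ⟨fun _ => hclA.2.1, fun _ => by norm_num⟩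
      · exact ⟨fun _ => hclA.2.2, fun _ => by norm_num⟩
      · exact ⟨fun h => absurd h (by norm_num), fun h => absurd h (hn _ hclB.1)⟩
      · exact ⟨fun h => absurd h (by norm_num), fun h => absurd h (hn _ hclB.2.1)⟩
      · exact ⟨fun h => absurd h (by norm_num), fun h => absurd h (hn _ hclB.2.2)⟩
    intro i j hij
    rw [hin, hin]
    exact ⟨fun h => hAc _ h _ hij, fun h => hAc _ h _ (hs _ _ hij)⟩

end Pool.Agent.N994.PG
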