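import Mathlib

/-!
# Skew elements which normalise a Lie algebra

For a list `l` of elements of a ring let `qq l` be the product minus `(-1) ^ n` times the product in
the reversed order. Let `L` be a space which is closed under brackets and which contains three
involutions. Then the bracket of `qq l` with each of the three involutions is contained in `L`, for all
words `l` in the three involutions.
-/

set_option linter.unusedSectionVars false

namespace Pool.Agent.N994.PG

noncomputable section

variable {R : Type*} [Ring R] [Algebra ℂ R]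

/-- The skew element given by a word. -/
def qq (l : List R) : R := l.prod - (-1) ^ l.length * l.reverse.prod

theorem qq_nil : qq ([] : List R) = 0 := by simp [qq]

theorem qq_one (a : R) : qq [a] = (2 : ℂ) • a := by
  unfold qq
  simp only [List.prod_cons, List.prod_nil, mul_one, List.length_cons, List.length_nil, zero_add,
    pow_one, List.reverse_cons, List.reverse_nil, List.nil_append, neg_mul, one_mul]
  module

theorem qq_rot (a : R) (u : List R) : a * qq u - qq u * a = qq (a :: u) - qq (u ++ [a]) := by
  unfold qq
  simp only [List.prod_cons, List.length_cons, List.reverse_cons, List.prod_append, List.prod_nil,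
    mul_one, List.length_append, List.length_nil, zero_add, List.reverse_append, List.reverse_nil,
    List.nil_append, List.cons_append]
  rcases neg_one_pow_eq_or R u.length with h | h
  · rw [pow_succ, h]
    noncomm_ring
  · rw [pow_succ, h]
    noncomm_ring

theorem qq_cons (a : R) (u : List R) :
    qq (a :: u) = a * u.prod + (-1) ^ u.length * (u.reverse.prod * a) := by
  unfold qq
  simp only [List.prod_cons, List.length_cons, List.reverse_cons, List.prod_append, List.prod_nil,
    mul_one]
  rw [pow_succ]
  noncomm_ring

/-- The bracket of `a` with the word `a u`. -/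
theorem qq_brac {a : R} {α : ℂ} (ha : a * a = α • (1 : R)) (u : List R) :
    a * qq (a :: u) - qq (a :: u) * a =
      (1 / 2 : ℂ) • (a * (a * qq u - qq u * a) - (a * qq u - qq u * a) * a) := by
  have h1 : a * (a * qq u - qq u * a) - (a * qq u - qq u * a) * a =
      (2 : ℂ) • (α • qq u - a * qq u * a) := by
    have h2 : a * (a * qq u - qq u * a) - (a * qq u - qq u * a) * a =
        (a * a) * qq u + qq u * (a * a) - (a * qq u * a + a * qq u * a) := by noncomm_ring
    rw [h2, ha, smul_mul_assoc, mul_smul_comm, one_mul, mul_one]
    module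
  rw [h1, smul_smul, qq_cons]
  have h3 : (1 / 2 : ℂ) * 2 = 1 := by norm_num
  rw [h3, one_smul]
  unfold qq
  rcases neg_one_pow_eq_or R u.length with h | h
  · rw [h]
    have h4 : a * (a * u.prod + 1 * (u.reverse.prod * a)) - (a * u.prod + 1 * (u.reverse.prod * a)) * a
        = (a * a) * u.prod - u.reverse.prod * (a * a) - a * (u.prod - 1 * u.reverse.prod) * a := by
      noncomm_ring
    rw [h4, ha, smul_mul_assoc, mul_smul_comm, one_mul, mul_one, one_mul, smul_sub]
  · rw [h]
    have h4 : a * (a * u.prod + -1 * (u.reverse.prod * a)) -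
        (a * u.prod + -1 * (u.reverse.prod * a)) * a
        = (a * a) * u.prod + u.reverse.prod * (a * a) - a * (u.prod - -1 * u.reverse.prod) * a := by
      noncomm_ring
    rw [h4, ha, smul_mul_assoc, mul_smul_comm, one_mul, mul_one, neg_one_mul, sub_neg_eq_add,
      smul_add]

/-- All words of length at most `n` with letters in `S` give elements which normalise `L`. -/
def Good (L : Submodule ℂ R) (S : Set R) (n : ℕ) : Prop :=
  ∀ l : List R, l.length ≤ n → (∀ x ∈ l, x ∈ S) → ∀ t ∈ S, t * qq l - qq l * t ∈ L

section rot

variable {L : Submodule ℂ R} {S : Set R} {n : ℕ}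

/-- Words may be rotated. -/
theorem rot_mem (hG : Good L S n) (s : List R) :
    ∀ t : List R, s.length + t.length ≤ n + 1 → (∀ x ∈ s, x ∈ S) → (∀ x ∈ t, x ∈ S) →
      qq (s ++ t) - qq (t ++ s) ∈ L := by
  induction s with
  | nil =>
    intro t _ _ _
    rw [List.nil_append, List.append_nil, sub_self]
    exact L.zero_mem
  | cons b s ih =>
    intro t hl hs ht
    have h1 := hG (s ++ t) (by rw [List.length_append]; rw [List.length_cons] at hl; omega) (by
      intro x hx
      rcases List.mem_append.1 hx with h | h
      · exact hs x (List.mem_cons_of_mem _ h)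
      · exact ht x h) b (hs b List.mem_cons_self)
    rw [qq_rot] at h1
    have h2 := ih (t ++ [b]) (by
      rw [List.length_append, List.length_singleton]
      rw [List.length_cons] at hl
      omega) (fun x hx => hs x (List.mem_cons_of_mem _ hx)) (by
      intro x hx
      rcases List.mem_append.1 hx with h | h
      · exact ht x h
      · rw [List.mem_singleton.1 h]
        exact hs b List.mem_cons_self)
    have h3 := L.add_mem h1 h2
    have h4 : (s ++ t) ++ [b] = s ++ (t ++ [b]) := List.append_assoc _ _ _
    have h5 : (t ++ [b]) ++ s = t ++ (b :: s) := by rw [List.append_assoc, List.singleton_append]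
    rw [h4, h5, sub_add_sub_cancel, ← List.cons_append] at h3
    exact h3

/-- Words which contain `t` are normalised by `t`, if `t * t` is a scalar. -/
theorem mem_of_letter (hL : ∀ x ∈ L, ∀ y ∈ L, x * y - y * x ∈ L) (hS : S ⊆ L)
    (hG : Good L S n) {l : List R} (hl : l.length ≤ n + 1) (hlS : ∀ x ∈ l, x ∈ S) {t : R}
    (ht : t ∈ l) {α : ℂ} (hα : t * t = α • (1 : R)) : t * qq l - qq l * t ∈ L := by
  obtain ⟨s, u, rfl⟩ := List.append_of_mem ht
  have htS := hlS t ht
  rw [List.length_append, List.length_cons] at hl
  have h1 := rot_mem hG s (t :: u) (by rw [List.length_cons]; omega)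
    (fun x hx => hlS x (List.mem_append_left _ hx)) (fun x hx => hlS x (List.mem_append_right _ hx))
  have hus : ∀ x ∈ u ++ s, x ∈ S := by
    intro x hx
    rcases List.mem_append.1 hx with h | h
    · exact hlS x (List.mem_append_right _ (List.mem_cons_of_mem _ h))
    · exact hlS x (List.mem_append_left _ h)
  have h2 := hG (u ++ s) (by rw [List.length_append]; omega) hus t htS
  have h3 := hL t (hS htS) _ h2
  have h4 := L.smul_mem (1 / 2 : ℂ) h3
  rw [← qq_brac hα] at h4
  have h5 := hL t (hS htS) _ h1
  have h6 := L.add_mem h5 h4
  rw [List.cons_append] at h6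
  have h7 : t * (qq (s ++ t :: u) - qq (t :: (u ++ s))) - (qq (s ++ t :: u) - qq (t :: (u ++ s))) * t +
      (t * qq (t :: (u ++ s)) - qq (t :: (u ++ s)) * t) =
      t * qq (s ++ t :: u) - qq (s ++ t :: u) * t := by noncomm_ring
  rwa [h7] at h6

end rot

/-- Conjugation by an involution preserves the Lie algebra. -/
theorem conj_inv {L : Submodule ℂ R} (hL : ∀ x ∈ L, ∀ y ∈ L, x * y - y * x ∈ L) {t : R}
    (ht : t ∈ L) (htt : t * t = 1) {x : R} (hx : x ∈ L) : t * x * t ∈ L := by
  have h1 := hL t ht _ (hL t ht x hx)
  have h2 : t * (t * x - x * t) - (t * x - x * t) * t = (2 : ℂ) • (x - t * x * t) := by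
    have h3 : t * (t * x - x * t) - (t * x - x * t) * t =
        (t * t) * x + x * (t * t) - (t * x * t + t * x * t) := by noncomm_ring
    rw [h3, htt, one_mul, mul_one]
    module
  rw [h2] at h1
  have h4 := L.sub_mem hx (L.smul_mem (1 / 2 : ℂ) h1)
  rw [smul_smul] at h4
  have h5 : x - ((1 / 2 : ℂ) * 2) • (x - t * x * t) = t * x * t := by
    have h6 : (1 / 2 : ℂ) * 2 = 1 := by norm_num
    rw [h6, one_smul, sub_sub_cancel]
  rwa [h5] at h4

end

end Pool.Agent.N994.PG
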