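import Mathlib
import Pool.Agent.N994.PG.Skew
import Pool.Agent.N994.PG.Cohn

/-!
# The Lie algebra generated by two copies of `sl₂`
-/

set_option linter.unusedSectionVars false

namespace Pool.Agent.N994.PG

noncomputable section

variable {R : Type*} [Ring R] [Algebra ℂ R]

theorem qq_slot (s t : List R) (x : R) : qq (s ++ x :: t) =
    s.prod * x * t.prod - (-1) ^ (s.length + t.length + 1) *
      (t.reverse.prod * x * s.reverse.prod) := by
  unfold qq
  simp only [List.prod_append, List.prod_cons, List.length_append, List.length_cons,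
    List.reverse_append, List.reverse_cons, List.prod_nil, mul_one]
  rw [show s.length + (t.length + 1) = s.length + t.length + 1 by ring]
  congr 1
  · rw [mul_assoc]

/-- Adjacent letters in the same space. -/
theorem qq_adj (s t : List R) {x y v : R} {α : ℂ} (h1 : x * y = α • (1 : R) + v)
    (h2 : y * x = α • (1 : R) - v) :
    qq (s ++ x :: y :: t) = α • qq (s ++ t) + qq (s ++ v :: t) := by
  rw [qq_slot s t v]
  unfold qq
  simp only [List.prod_append, List.prod_cons, List.length_append, List.length_cons,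
    List.reverse_append, List.reverse_cons, List.prod_nil, mul_one]
  have h3 : s.prod * (x * (y * t.prod)) = α • (s.prod * t.prod) + s.prod * v * t.prod := by
    rw [← mul_assoc x y, h1, add_mul, mul_add, smul_mul_assoc, one_mul, mul_smul_comm, mul_assoc]
  have h4 : t.reverse.prod * y * x * s.reverse.prod =
      α • (t.reverse.prod * s.reverse.prod) - t.reverse.prod * v * s.reverse.prod := by
    rw [mul_assoc t.reverse.prod y x, h2, mul_sub, sub_mul, mul_smul_comm, mul_one, smul_mul_assoc]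
  rw [h3]
  rcases neg_one_pow_eq_or R (s.length + t.length) with h | h
  · rw [show s.length + (t.length + 1 + 1) = s.length + t.length + 1 + 1 by ring, pow_succ,
      pow_succ, h]
    rw [show (1 : R) * -1 * -1 = 1 by simp, one_mul]
    rw [show t.reverse.prod * y * x * s.reverse.prod = _ from h4]
    simp only [one_mul, neg_one_mul, mul_neg]
    module
  · rw [show s.length + (t.length + 1 + 1) = s.length + t.length + 1 + 1 by ring, pow_succ,
      pow_succ, h]
    rw [show (-1 : R) * -1 * -1 = -1 by simp, neg_one_mul]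
    rw [show t.reverse.prod * y * x * s.reverse.prod = _ from h4]
    simp only [one_mul, mul_neg, neg_mul, neg_neg]
    module

/-- The bracket of a letter with a word which contains two letters `x₁`, `x₂`. -/
def gg (y : R) (t : List R) (T x₁ x₂ : R) : R :=
  T * qq (x₁ :: y :: x₂ :: t) - qq (x₁ :: y :: x₂ :: t) * T

theorem qq_four (y : R) (t : List R) (x₁ x₂ : R) : qq (x₁ :: y :: x₂ :: t) =
    x₁ * (y * (x₂ * t.prod)) + (-1) ^ t.length * (t.reverse.prod * x₂ * y * x₁) := by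
  unfold qq
  simp only [List.prod_cons, List.length_cons, List.reverse_cons, List.prod_append, List.prod_nil,
    mul_one]
  rw [pow_succ, pow_succ, pow_succ]
  noncomm_ring

theorem gg_add (y : R) (t : List R) (T T' x₁ x₂ : R) :
    gg y t (T + T') x₁ x₂ = gg y t T x₁ x₂ + gg y t T' x₁ x₂ := by
  unfold gg
  noncomm_ring

theorem gg_smul (y : R) (t : List R) (c : ℂ) (T x₁ x₂ : R) :
    gg y t (c • T) x₁ x₂ = c • gg y t T x₁ x₂ := by
  unfold gg
  rw [smul_mul_assoc, mul_smul_comm, smul_sub]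

theorem gg_add1 (y : R) (t : List R) (T x₁ x₁' x₂ : R) :
    gg y t T (x₁ + x₁') x₂ = gg y t T x₁ x₂ + gg y t T x₁' x₂ := by
  unfold gg
  rw [qq_four, qq_four, qq_four]
  noncomm_ring

theorem gg_smul1 (y : R) (t : List R) (c : ℂ) (T x₁ x₂ : R) :
    gg y t T (c • x₁) x₂ = c • gg y t T x₁ x₂ := by
  unfold gg
  rw [qq_four, qq_four]
  simp only [smul_mul_assoc, mul_smul_comm, ← smul_add, ← smul_sub]

theorem gg_add2 (y : R) (t : List R) (T x₁ x₂ x₂' : R) :
    gg y t T x₁ (x₂ + x₂') = gg y t T x₁ x₂ + gg y t T x₁ x₂' := by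
  unfold gg
  rw [qq_four, qq_four, qq_four]
  noncomm_ring

theorem gg_smul2 (y : R) (t : List R) (c : ℂ) (T x₁ x₂ : R) :
    gg y t T x₁ (c • x₂) = c • gg y t T x₁ x₂ := by
  unfold gg
  rw [qq_four, qq_four]
  simp only [smul_mul_assoc, mul_smul_comm, ← smul_add, ← smul_sub]

theorem gg_zero (y : R) (t : List R) (x₁ x₂ : R) : gg y t 0 x₁ x₂ = 0 := by
  unfold gg
  rw [zero_mul, mul_zero, sub_zero]

theorem gg_zero1 (y : R) (t : List R) (T x₂ : R) : gg y t T 0 x₂ = 0 := by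
  have h1 := gg_smul1 y t 0 T 0 x₂
  rwa [zero_smul, zero_smul] at h1

theorem gg_zero2 (y : R) (t : List R) (T x₁ : R) : gg y t T x₁ 0 = 0 := by
  have h1 := gg_smul2 y t 0 T x₁ 0
  rwa [zero_smul, zero_smul] at h1

/-- An alternating expression vanishes on a copy of `sl₂` modulo the Lie algebra. -/
theorem gg_span {L : Submodule ℂ R} (hL : ∀ x ∈ L, ∀ y ∈ L, x * y - y * x ∈ L) {V : Submodule ℂ R}
    (hVL : V ≤ L) {e f : R} (he : e ∈ V) (hf : f ∈ V) (hh : e * f - f * e ∈ V)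
    (hspan : V ≤ Submodule.span ℂ {e, f, e * f - f * e}) (y : R) (t : List R)
    (h1 : ∀ x₁ ∈ V, ∀ x₂ ∈ V, gg y t x₁ x₁ x₂ ∈ L) (h2 : ∀ x₁ ∈ V, ∀ x₂ ∈ V, gg y t x₂ x₁ x₂ ∈ L) :
    ∀ T ∈ V, ∀ x₁ ∈ V, ∀ x₂ ∈ V, gg y t T x₁ x₂ ∈ L := by
  -- alternating
  have p1 : ∀ T ∈ V, ∀ x₁ ∈ V, ∀ x₂ ∈ V, gg y t x₁ T x₂ ∈ L → gg y t T x₁ x₂ ∈ L := by
    intro T hT x₁ hx₁ x₂ hx₂ h
    have h3 := h1 (T + x₁) (V.add_mem hT hx₁) x₂ hx₂
    rw [gg_add, gg_add1, gg_add1] at h3
    have h4 := L.sub_mem (L.sub_mem (L.sub_mem h3 (h1 T hT x₂ hx₂)) (h1 x₁ hx₁ x₂ hx₂)) h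
    have h5 : gg y t T T x₂ + gg y t T x₁ x₂ + (gg y t x₁ T x₂ + gg y t x₁ x₁ x₂) -
        gg y t T T x₂ - gg y t x₁ x₁ x₂ - gg y t x₁ T x₂ = gg y t T x₁ x₂ := by abel
    rwa [h5] at h4
  have p2 : ∀ T ∈ V, ∀ x₁ ∈ V, ∀ x₂ ∈ V, gg y t x₂ x₁ T ∈ L → gg y t T x₁ x₂ ∈ L := by
    intro T hT x₁ hx₁ x₂ hx₂ h
    have h3 := h2 x₁ hx₁ (T + x₂) (V.add_mem hT hx₂)
    rw [gg_add, gg_add2, gg_add2] at h3
    have h4 := L.sub_mem (L.sub_mem (L.sub_mem h3 (h2 x₁ hx₁ T hT)) (h2 x₁ hx₁ x₂ hx₂)) h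
    have h5 : gg y t T x₁ T + gg y t T x₁ x₂ + (gg y t x₂ x₁ T + gg y t x₂ x₁ x₂) -
        gg y t T x₁ T - gg y t x₂ x₁ x₂ - gg y t x₂ x₁ T = gg y t T x₁ x₂ := by abel
    rwa [h5] at h4
  -- brackets
  have j : ∀ a ∈ V, ∀ b ∈ V, gg y t (a * b - b * a) a b ∈ L := by
    intro a ha b hb
    have h3 := hL a (hVL ha) _ (h2 a ha b hb)
    have h4 := hL b (hVL hb) _ (h1 a ha b hb)
    have h5 := L.sub_mem h3 h4
    have h6 : a * gg y t b a b - gg y t b a b * a - (b * gg y t a a b - gg y t a a b * b) =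
        gg y t (a * b - b * a) a b := by
      unfold gg
      noncomm_ring
    rwa [h6] at h5
  set h := e * f - f * e with hhd
  have c1 : gg y t h e f ∈ L := j e he f hf
  have c2 : gg y t h f e ∈ L := by
    have h3 := j f hf e he
    have h4 : f * e - e * f = (-1 : ℂ) • h := by rw [hhd, neg_one_smul, neg_sub]
    rw [h4, gg_smul, neg_one_smul] at h3
    exact (Submodule.neg_mem_iff L).1 h3
  -- the basis elements
  have key : ∀ T ∈ ({e, f, h} : Set R), ∀ x₁ ∈ ({e, f, h} : Set R), ∀ x₂ ∈ ({e, f, h} : Set R),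
      gg y t T x₁ x₂ ∈ L := by
    rintro T (rfl | rfl | rfl) x₁ (rfl | rfl | rfl) x₂ (rfl | rfl | rfl)
    · exact h1 _ he _ he
    · exact h1 _ he _ hf
    · exact h1 _ he _ hh
    · exact h2 _ hf _ he
    · exact p1 _ he _ hf _ hf (h2 _ he _ hf)
    · exact p2 _ he _ hf _ hh c2
    · exact h2 _ hh _ he
    · exact p1 _ he _ hh _ hf c1
    · exact p1 _ he _ hh _ hh (h2 _ he _ hh)
    · exact p1 _ hf _ he _ he (h2 _ hf _ he)
    · exact h2 _ he _ hf
    · exact p2 _ hf _ he _ hh c1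
    · exact h1 _ hf _ he
    · exact h1 _ hf _ hf
    · exact h1 _ hf _ hh
    · exact p1 _ hf _ hh _ he c2
    · exact h2 _ hh _ hf
    · exact p1 _ hf _ hh _ hh (h2 _ hf _ hh)
    · exact p1 _ hh _ he _ he (h2 _ hh _ he)
    · exact c1
    · exact h2 _ he _ hh
    · exact c2
    · exact p1 _ hh _ hf _ hf (h2 _ hh _ hf)
    · exact h2 _ hf _ hh
    · exact h1 _ hh _ he
    · exact h1 _ hh _ hf
    · exact h1 _ hh _ hh
  -- linear extension
  have e1 : ∀ T ∈ Submodule.span ℂ ({e, f, h} : Set R), ∀ x₁ ∈ ({e, f, h} : Set R),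
      ∀ x₂ ∈ ({e, f, h} : Set R), gg y t T x₁ x₂ ∈ L := by
    intro T hT x₁ hx₁ x₂ hx₂
    induction hT using Submodule.span_induction with
    | mem T hT => exact key T hT x₁ hx₁ x₂ hx₂
    | zero => rw [gg_zero]; exact L.zero_mem
    | add a b _ _ ha hb => rw [gg_add]; exact L.add_mem ha hb
    | smul c a _ ha => rw [gg_smul]; exact L.smul_mem c ha
  have e2 : ∀ T ∈ Submodule.span ℂ ({e, f, h} : Set R), ∀ x₁ ∈ Submodule.span ℂ ({e, f, h} : Set R),
      ∀ x₂ ∈ ({e, f, h} : Set R), gg y t T x₁ x₂ ∈ L := by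
    intro T hT x₁ hx₁ x₂ hx₂
    induction hx₁ using Submodule.span_induction with
    | mem x₁ hx₁ => exact e1 T hT x₁ hx₁ x₂ hx₂
    | zero => rw [gg_zero1]; exact L.zero_mem
    | add a b _ _ ha hb => rw [gg_add1]; exact L.add_mem ha hb
    | smul c a _ ha => rw [gg_smul1]; exact L.smul_mem c ha
  have e3 : ∀ T ∈ Submodule.span ℂ ({e, f, h} : Set R), ∀ x₁ ∈ Submodule.span ℂ ({e, f, h} : Set R),
      ∀ x₂ ∈ Submodule.span ℂ ({e, f, h} : Set R), gg y t T x₁ x₂ ∈ L := by
    intro T hT x₁ hx₁ x₂ hx₂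
    induction hx₂ using Submodule.span_induction with
    | mem x₂ hx₂ => exact e2 T hT x₁ hx₁ x₂ hx₂
    | zero => rw [gg_zero2]; exact L.zero_mem
    | add a b _ _ ha hb => rw [gg_add2]; exact L.add_mem ha hb
    | smul c a _ ha => rw [gg_smul2]; exact L.smul_mem c ha
  intro T hT x₁ hx₁ x₂ hx₂
  exact e3 T (hspan hT) x₁ (hspan hx₁) x₂ (hspan hx₂)

/-- A copy of `sl₂` whose associative algebra is the algebra of the matrices of size two. -/
structure IsQ (L : Submodule ℂ R) (V : Submodule ℂ R) : Prop where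
  le : V ≤ L
  mul : ∀ x ∈ V, ∀ y ∈ V, ∃ (α : ℂ) (v : R), v ∈ V ∧ x * y = α • (1 : R) + v ∧
    y * x = α • (1 : R) - v
  gen : ∃ e f : R, e ∈ V ∧ f ∈ V ∧ e * f - f * e ∈ V ∧ V ≤ Submodule.span ℂ {e, f, e * f - f * e}

theorem IsQ.sq {L V : Submodule ℂ R} (h : IsQ L V) {x : R} (hx : x ∈ V) :
    ∃ α : ℂ, x * x = α • (1 : R) := by
  obtain ⟨α, v, -, h1, h2⟩ := h.mul x hx x hx
  refine ⟨α, ?_⟩
  have h3 : (2 : ℂ) • (x * x) = (2 : ℂ) • (α • (1 : R)) := by
    rw [two_smul, two_smul]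
    nth_rw 1 [h1]
    rw [h2]
    abel
  exact smul_right_injective R (two_ne_zero (α := ℂ)) h3

section good

variable {L V₁ V₂ : Submodule ℂ R} (hL : ∀ x ∈ L, ∀ y ∈ L, x * y - y * x ∈ L)
  (h₁ : IsQ L V₁) (h₂ : IsQ L V₂)

/-- A word either alternates or has two adjacent letters in the same space. -/
theorem word_cases (X Y : Set R) (l : List R) (hl : ∀ x ∈ l, x ∈ X ∨ x ∈ Y) :
    Wd X Y l ∨ Wd Y X l ∨ ∃ (s : List R) (x y : R) (t : List R), l = s ++ x :: y :: t ∧
      ((x ∈ X ∧ y ∈ X) ∨ (x ∈ Y ∧ y ∈ Y)) := by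
  induction l with
  | nil => exact Or.inl trivial
  | cons a l ih =>
    have ha := hl a List.mem_cons_self
    rcases ih fun x hx => hl x (List.mem_cons_of_mem _ hx) with h | h | ⟨s, x, y, t, rfl, h⟩
    · cases l with
      | nil =>
        rcases ha with h1 | h1
        · exact Or.inl ⟨h1, trivial⟩
        · exact Or.inr (Or.inl ⟨h1, trivial⟩)
      | cons b l =>
        rcases ha with h1 | h1
        · exact Or.inr (Or.inr ⟨[], a, b, l, rfl, Or.inl ⟨h1, h.1⟩⟩)
        · exact Or.inr (Or.inl ⟨h1, h⟩)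
    · cases l with
      | nil =>
        rcases ha with h1 | h1
        · exact Or.inl ⟨h1, trivial⟩
        · exact Or.inr (Or.inl ⟨h1, trivial⟩)
      | cons b l =>
        rcases ha with h1 | h1
        · exact Or.inl ⟨h1, h⟩
        · exact Or.inr (Or.inr ⟨[], a, b, l, rfl, Or.inr ⟨h1, h.1⟩⟩)
    · exact Or.inr (Or.inr ⟨a :: s, x, y, t, rfl, h⟩)

theorem brac_lin {L : Submodule ℂ R} {T a b : R} (α : ℂ) (ha : T * a - a * T ∈ L)
    (hb : T * b - b * T ∈ L) : T * (α • a + b) - (α • a + b) * T ∈ L := by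
  have h1 := L.add_mem (L.smul_mem α ha) hb
  have h2 : α • (T * a - a * T) + (T * b - b * T) = T * (α • a + b) - (α • a + b) * T := by
    rw [mul_add, add_mul, mul_smul_comm, smul_mul_assoc, smul_sub]
    abel
  rwa [h2] at h1

theorem adj_good {S : Set R} {n : ℕ} (hG : Good L S n) {V : Submodule ℂ R} (hV : IsQ L V)
    (hVS : ∀ v ∈ V, v ∈ S) {s t : List R} {x y : R} (hx : x ∈ V) (hy : y ∈ V)
    (hl : (s ++ x :: y :: t).length ≤ n + 1) (hS : ∀ z ∈ s ++ x :: y :: t, z ∈ S) {T : R}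
    (hT : T ∈ S) : T * qq (s ++ x :: y :: t) - qq (s ++ x :: y :: t) * T ∈ L := by
  obtain ⟨α, v, hv, h1, h2⟩ := hV.mul x hx y hy
  rw [qq_adj s t h1 h2]
  simp only [List.length_append, List.length_cons] at hl
  refine brac_lin α (hG _ ?_ ?_ T hT) (hG _ ?_ ?_ T hT)
  · rw [List.length_append]
    omega
  · intro z hz
    rcases List.mem_append.1 hz with h | h
    · exact hS z (List.mem_append_left _ h)
    · exact hS z (List.mem_append_right _ (List.mem_cons_of_mem _ (List.mem_cons_of_mem _ h)))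
  · rw [List.length_append, List.length_cons]
    omega
  · intro z hz
    rcases List.mem_append.1 hz with h | h
    · exact hS z (List.mem_append_left _ h)
    · rcases List.mem_cons.1 h with h3 | h3
      · rw [h3]
        exact hVS v hv
      · exact hS z (List.mem_append_right _ (List.mem_cons_of_mem _ (List.mem_cons_of_mem _ h3)))

include hL

theorem main_alt {S : Set R} {n : ℕ} (hG : Good L S n) (hSL : S ⊆ L) (hV₁ : ∀ v ∈ V₁, v ∈ S)
    (h₁ : IsQ L V₁) {l : List R} (hl : l.length = n + 1) (he : Even l.length)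
    (hw : Wd (V₁ : Set R) (V₂ : Set R) l) (hlS : ∀ z ∈ l, z ∈ S) {T : R} (hT : T ∈ V₁) :
    T * qq l - qq l * T ∈ L := by
  match l with
  | [] => simp at hl
  | [x] => simp at he
  | [x, y] =>
    have h3 : qq [x, y] = x * y - y * x := by
      unfold qq
      simp
    rw [h3]
    exact hL T (hSL (hV₁ T hT)) _ (hL x (hSL (hlS x (by simp))) y (hSL (hlS y (by simp))))
  | x :: y :: z :: t =>
    obtain ⟨e, f, he', hf', hh, hsp⟩ := h₁.gen
    have hx : x ∈ V₁ := hw.1
    have hz : z ∈ V₁ := hw.2.2.1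
    have hmem : ∀ x₁ ∈ V₁, ∀ x₂ ∈ V₁, ∀ w ∈ x₁ :: y :: x₂ :: t, w ∈ S := by
      intro x₁ hx₁ x₂ hx₂ w hw'
      simp only [List.mem_cons] at hw'
      rcases hw' with rfl | rfl | rfl | hw'
      · exact hV₁ _ hx₁
      · exact hlS w (by simp)
      · exact hV₁ _ hx₂
      · exact hlS w (by simp [hw'])
    have hlen : ∀ x₁ x₂ : R, (x₁ :: y :: x₂ :: t).length ≤ n + 1 := by
      intro x₁ x₂
      simp only [List.length_cons] at hl ⊢
      omega
    refine gg_span hL h₁.le he' hf' hh hsp y t (fun x₁ hx₁ x₂ hx₂ => ?_) (fun x₁ hx₁ x₂ hx₂ => ?_)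
      T hT x hx z hz
    · obtain ⟨α, hα⟩ := h₁.sq hx₁
      exact mem_of_letter hL hSL hG (hlen x₁ x₂) (hmem x₁ hx₁ x₂ hx₂) (by simp) hα
    · obtain ⟨α, hα⟩ := h₁.sq hx₂
      exact mem_of_letter hL hSL hG (hlen x₁ x₂) (hmem x₁ hx₁ x₂ hx₂) (by simp) hα

theorem alt_good {S : Set R} {n : ℕ} (hG : Good L S n) (hS : ∀ v, v ∈ S ↔ v ∈ V₁ ∨ v ∈ V₂)
    (h₁ : IsQ L V₁) (h₂ : IsQ L V₂) {l : List R} (hl : l.length = n + 1)
    (hw : Wd (V₁ : Set R) (V₂ : Set R) l) (hlS : ∀ z ∈ l, z ∈ S) {T : R} (hT : T ∈ S) :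
    T * qq l - qq l * T ∈ L := by
  have hSL : S ⊆ L := by
    intro v hv
    rcases (hS v).1 hv with h | h
    · exact h₁.le h
    · exact h₂.le h
  have hV₁ : ∀ v ∈ V₁, v ∈ S := fun v hv => (hS v).2 (Or.inl hv)
  have hV₂ : ∀ v ∈ V₂, v ∈ S := fun v hv => (hS v).2 (Or.inr hv)
  cases l with
  | nil => simp at hl
  | cons x u =>
    have hx : x ∈ V₁ := hw.1
    have hu : Wd (V₂ : Set R) (V₁ : Set R) u := hw.2
    have huS : ∀ z ∈ u, z ∈ S := fun z hz => hlS z (List.mem_cons_of_mem _ hz)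
    have hlu : u.length = n := by
      rw [List.length_cons] at hl
      omega
    -- rotation
    have hrot : qq (x :: u) - qq (u ++ [x]) ∈ L := by
      rw [← qq_rot]
      exact hG u (by omega) huS x (hV₁ x hx)
    have hred : T * qq (u ++ [x]) - qq (u ++ [x]) * T ∈ L → T * qq (x :: u) - qq (x :: u) * T ∈ L := by
      intro h3
      have h4 := L.add_mem (hL T (hSL hT) _ hrot) h3
      have h5 : T * (qq (x :: u) - qq (u ++ [x])) - (qq (x :: u) - qq (u ++ [x])) * T +
          (T * qq (u ++ [x]) - qq (u ++ [x]) * T) = T * qq (x :: u) - qq (x :: u) * T := by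
        noncomm_ring
      rwa [h5] at h4
    have hux : ∀ z ∈ u ++ [x], z ∈ S := by
      intro z hz
      rcases List.mem_append.1 hz with h | h
      · exact huS z h
      · rw [List.mem_singleton.1 h]
        exact hV₁ x hx
    rcases Nat.even_or_odd (x :: u).length with he | ho
    · rcases (hS T).1 hT with hT1 | hT2
      · exact main_alt hL hG hSL hV₁ h₁ hl he hw hlS hT1
      · refine hred (main_alt hL (V₁ := V₂) (V₂ := V₁) hG hSL hV₂ h₂ ?_ ?_ ?_ hux hT2)
        · rw [List.length_append, List.length_singleton, hlu]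
        · rw [List.length_append, List.length_singleton]
          rwa [List.length_cons] at he
        · rw [List.length_cons, Nat.even_add_one, Nat.not_even_iff_odd] at he
          exact append_wd hu (fun h => absurd h (Nat.not_even_iff_odd.2 he))
            (fun _ => ⟨hx, trivial⟩)
    · -- odd length
      rcases List.eq_nil_or_concat u with rfl | ⟨s, y, rfl⟩
      · rw [qq_one]
        exact hL T (hSL hT) _ (L.smul_mem _ (h₁.le hx))
      · refine hred ?_
        rw [List.concat_eq_append] at hu ho hux hlu ⊢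
        have hy : y ∈ V₁ := by
          have h3 := wd_append hu
          rw [List.length_cons, List.length_append, List.length_singleton] at ho
          have h4 : Odd s.length := by
            rw [Nat.odd_add_one, Nat.not_odd_iff_even, Nat.even_add_one, Nat.not_even_iff_odd] at ho
            exact ho
          exact (h3.2.2 h4).1
        have h3 : (s ++ [y]) ++ [x] = s ++ y :: x :: [] := by simp
        rw [h3] at hux ⊢
        refine adj_good hG h₁ hV₁ hy hx ?_ hux hT
        rw [List.length_append, List.length_singleton] at hlu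
        simp only [List.length_append, List.length_cons, List.length_nil]
        omega

/-- **Two copies of `sl₂`.** -/
theorem quat_good (h₁ : IsQ L V₁) (h₂ : IsQ L V₂) (n : ℕ) : Good L {t | t ∈ V₁ ∨ t ∈ V₂} n := by
  induction n with
  | zero =>
    intro l hl _ t _
    have h1 : l = [] := List.length_eq_zero_iff.1 (by omega)
    rw [h1, qq_nil, mul_zero, zero_mul, sub_zero]
    exact L.zero_mem
  | succ n ih =>
    intro l hl hlS T hT
    by_cases hl' : l.length ≤ n
    · exact ih l hl' hlS T hT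
    have hl1 : l.length = n + 1 := by omega
    rcases word_cases (V₁ : Set R) (V₂ : Set R) l hlS with h | h | ⟨s, x, y, t, rfl, h | h⟩
    · exact alt_good hL ih (fun v => Iff.rfl) h₁ h₂ hl1 h hlS hT
    · exact alt_good hL (V₁ := V₂) (V₂ := V₁) ih (fun v => Or.comm) h₂ h₁ hl1 h hlS hT
    · exact adj_good ih h₁ (fun v hv => Or.inl hv) h.1 h.2 hl hlS hT
    · exact adj_good ih h₂ (fun v hv => Or.inr hv) h.1 h.2 hl hlS hT

end good

end

end Pool.Agent.N994.PG
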