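import Mathlib
import Pool.Agent.N994.PG.Skew

/-!
# The Lie algebra generated by three involutions
-/

set_option linter.unusedSectionVars false

namespace Pool.Agent.N994.PG

noncomputable section

variable {R : Type*} [Ring R] [Algebra ℂ R]

section dihedral

variable {G : Type*} [Group G] {a b : G} (ha : a * a = 1) (hb : b * b = 1)
include ha hb

theorem dih_inv (m : ℤ) : a * (a * b) ^ m = (a * b) ^ (-m) * a := by
  have ha' : a⁻¹ = a := inv_eq_of_mul_eq_one_left ha
  have hb' : b⁻¹ = b := inv_eq_of_mul_eq_one_left hb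
  have h1 : a * (a * b) * a⁻¹ = (a * b)⁻¹ := by
    rw [mul_inv_rev, ha', hb', ← mul_assoc, ha, one_mul]
  have h2 : a * (a * b) ^ m * a⁻¹ = (a * b) ^ (-m) := by
    rw [← conj_zpow, h1, inv_zpow, zpow_neg]
  rw [← h2, inv_mul_cancel_right]

theorem dih_b : b = (a * b) ^ (-1 : ℤ) * a := by
  have ha' : a⁻¹ = a := inv_eq_of_mul_eq_one_left ha
  have hb' : b⁻¹ = b := inv_eq_of_mul_eq_one_left hb
  rw [zpow_neg_one, mul_inv_rev, ha', hb', mul_assoc, ha, mul_one]

end dihedral

/-- Words in two involutions. -/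
theorem two_inv {L : Submodule ℂ R} (hL : ∀ x ∈ L, ∀ y ∈ L, x * y - y * x ∈ L) {a b : R}
    (ha : a ∈ L) (hb : b ∈ L) (haa : a * a = 1) (hbb : b * b = 1) (l : List R)
    (hl : ∀ x ∈ l, x = a ∨ x = b) : qq l ∈ L := by
  let ua : Rˣ := ⟨a, a, haa, haa⟩
  let ub : Rˣ := ⟨b, b, hbb, hbb⟩
  have hua : ua * ua = 1 := Units.ext haa
  have hub : ub * ub = 1 := Units.ext hbb
  set c : Rˣ := ua * ub with hc
  have hai : ∀ m : ℤ, ua * c ^ m = c ^ (-m) * ua := fun m => dih_inv hua hub m
  have hbi : ub = c ^ (-1 : ℤ) * ua := dih_b hua hub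
  -- the reflections
  have key : ∀ m : ℤ, ((c ^ m * ua : Rˣ) : R) ∈ L ∧ ((c ^ (m - 1) * ua : Rˣ) : R) ∈ L := by
    have hA : ∀ m : ℤ, ((c ^ m * ua : Rˣ) : R) ∈ L → ((c ^ (-m) * ua : Rˣ) : R) ∈ L := by
      intro m hm
      have h1 := conj_inv hL ha haa hm
      have h2 : ((ua * (c ^ m * ua) * ua : Rˣ) : R) = a * ((c ^ m * ua : Rˣ) : R) * a := rfl
      rw [← h2] at h1
      have h3 : ua * (c ^ m * ua) * ua = c ^ (-m) * ua := by
        rw [mul_assoc ua, mul_assoc (c ^ m), hua, mul_one, hai]
      rwa [h3] at h1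
    have hB : ∀ m : ℤ, ((c ^ m * ua : Rˣ) : R) ∈ L → ((c ^ (-m - 2) * ua : Rˣ) : R) ∈ L := by
      intro m hm
      have h1 := conj_inv hL hb hbb hm
      have h2 : ((ub * (c ^ m * ua) * ub : Rˣ) : R) = b * ((c ^ m * ua : Rˣ) : R) * b := rfl
      rw [← h2] at h1
      have h3 : ub * (c ^ m * ua) * ub = c ^ (-m - 2) * ua := by
        have h4 : ub * (c ^ m * ua) * ub =
            c ^ (-1 : ℤ) * (ua * c ^ m) * (ua * c ^ (-1 : ℤ)) * ua := by
          rw [hbi]
          group
        rw [h4, hai, hai]
        have h5 : c ^ (-1 : ℤ) * (c ^ (-m) * ua) * (c ^ (- -1 : ℤ) * ua) * ua =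
            c ^ (-1 : ℤ) * c ^ (-m) * (ua * c ^ (1 : ℤ)) * (ua * ua) := by
          rw [neg_neg]
          group
        rw [h5, hai, hua, mul_one]
        group
      rwa [h3] at h1
    intro m
    induction m using Int.induction_on with
    | zero =>
      refine ⟨?_, ?_⟩
      · rw [zpow_zero, one_mul]
        exact ha
      · rw [zero_sub, ← hbi]
        exact hb
    | succ m ih =>
      refine ⟨?_, ?_⟩
      · have h1 := hA _ (hB _ ih.2)
        have h2 : -(-((m : ℤ) - 1) - 2) = (m : ℤ) + 1 := by ring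
        rwa [h2] at h1
      · rw [add_sub_cancel_right]
        exact ih.1
    | pred m ih =>
      refine ⟨ih.2, ?_⟩
      have h1 := hB _ (hA _ ih.1)
      have h2 : -(-(-(m : ℤ))) - 2 = -(m : ℤ) - 1 - 1 := by ring
      rwa [h2] at h1
  -- the words
  have words : ∀ l : List R, (∀ x ∈ l, x = a ∨ x = b) → ∃ m : ℤ,
      ((-1 : R) ^ l.length = 1 ∧ l.prod = ((c ^ m : Rˣ) : R) ∧
        l.reverse.prod = ((c ^ (-m) : Rˣ) : R)) ∨
      ((-1 : R) ^ l.length = -1 ∧ l.prod = ((c ^ m * ua : Rˣ) : R) ∧
        l.reverse.prod = ((c ^ m * ua : Rˣ) : R)) := by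
    intro l
    induction l with
    | nil =>
      intro _
      refine ⟨0, Or.inl ⟨by simp, by simp, by simp⟩⟩
    | cons x l ih =>
      intro hl
      obtain ⟨m, ⟨h0, h1, h2⟩ | ⟨h0, h1, h2⟩⟩ := ih fun y hy => hl y (List.mem_cons_of_mem _ hy)
      · rcases hl x List.mem_cons_self with rfl | rfl
        · refine ⟨-m, Or.inr ⟨?_, ?_, ?_⟩⟩
          · rw [List.length_cons, pow_succ, h0, one_mul]
          · rw [List.prod_cons, h1, ← hai]
            rfl
          · rw [List.reverse_cons, List.prod_append, List.prod_singleton, h2]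
            rfl
        · refine ⟨-m - 1, Or.inr ⟨?_, ?_, ?_⟩⟩
          · rw [List.length_cons, pow_succ, h0, one_mul]
          · rw [List.prod_cons, h1]
            have h3 : ub * c ^ m = c ^ (-m - 1) * ua := by
              rw [hbi, mul_assoc, hai, ← mul_assoc, ← zpow_add]
              congr 2
              ring
            exact congrArg Units.val h3
          · rw [List.reverse_cons, List.prod_append, List.prod_singleton, h2]
            have h3 : c ^ (-m) * ub = c ^ (-m - 1) * ua := by
              rw [hbi, ← mul_assoc, ← zpow_add]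
              congr 2
            exact congrArg Units.val h3
      · rcases hl x List.mem_cons_self with rfl | rfl
        · refine ⟨-m, Or.inl ⟨?_, ?_, ?_⟩⟩
          · rw [List.length_cons, pow_succ, h0, neg_mul_neg, one_mul]
          · rw [List.prod_cons, h1]
            have h3 : ua * (c ^ m * ua) = c ^ (-m) := by
              rw [← mul_assoc, hai, mul_assoc, hua, mul_one]
            exact congrArg Units.val h3
          · rw [List.reverse_cons, List.prod_append, List.prod_singleton, h2]
            have h3 : (c ^ m * ua) * ua = c ^ (- -m) := by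
              rw [mul_assoc, hua, mul_one, neg_neg]
            exact congrArg Units.val h3
        · refine ⟨-m - 1, Or.inl ⟨?_, ?_, ?_⟩⟩
          · rw [List.length_cons, pow_succ, h0, neg_mul_neg, one_mul]
          · rw [List.prod_cons, h1]
            have h3 : ub * (c ^ m * ua) = c ^ (-m - 1) := by
              rw [hbi, ← mul_assoc, mul_assoc (c ^ (-1 : ℤ)), hai, ← mul_assoc, mul_assoc, hua,
                mul_one, ← zpow_add]
              congr 1
              ring
            exact congrArg Units.val h3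
          · rw [List.reverse_cons, List.prod_append, List.prod_singleton, h2]
            have h3 : (c ^ m * ua) * ub = c ^ (-(-m - 1)) := by
              rw [hc, mul_assoc, ← hc, ← zpow_add_one]
              congr 1
              ring
            exact congrArg Units.val h3
  obtain ⟨m, ⟨h0, h1, h2⟩ | ⟨h0, h1, h2⟩⟩ := words l hl
  · have h3 := hL _ (key m).1 a ha
    have h4 : qq l = ((c ^ m * ua : Rˣ) : R) * a - a * ((c ^ m * ua : Rˣ) : R) := by
      unfold qq
      rw [h0, h1, h2, one_mul]
      have h5 : (c ^ m * ua) * ua = c ^ m := by rw [mul_assoc, hua, mul_one]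
      have h6 : ua * (c ^ m * ua) = c ^ (-m) := by
        rw [← mul_assoc, hai, mul_assoc, hua, mul_one]
      have h7 : ((c ^ m * ua : Rˣ) : R) * a = ((c ^ m : Rˣ) : R) := congrArg Units.val h5
      have h8 : a * ((c ^ m * ua : Rˣ) : R) = ((c ^ (-m) : Rˣ) : R) := congrArg Units.val h6
      rw [h7, h8]
    rw [h4]
    exact h3
  · have h4 : qq l = (2 : ℂ) • ((c ^ m * ua : Rˣ) : R) := by
      unfold qq
      rw [h0, h1, h2, neg_one_mul, sub_neg_eq_add, two_smul]
    rw [h4]
    exact L.smul_mem _ (key m).1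

/-- **Three involutions.** -/
theorem tri_good {L : Submodule ℂ R} (hL : ∀ x ∈ L, ∀ y ∈ L, x * y - y * x ∈ L) {a b c : R}
    (hS : ∀ t, t = a ∨ t = b ∨ t = c → t ∈ L ∧ t * t = 1) (n : ℕ) :
    Good L {t | t = a ∨ t = b ∨ t = c} n := by
  have hSL : {t | t = a ∨ t = b ∨ t = c} ⊆ (L : Set R) := fun t ht => (hS t ht).1
  induction n with
  | zero =>
    intro l hl _ t _
    have h1 : l = [] := List.length_eq_zero_iff.1 (by omega)
    rw [h1, qq_nil, mul_zero, zero_mul, sub_zero]
    exact L.zero_mem
  | succ n ih =>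
    intro l hl hlS t ht
    by_cases htl : t ∈ l
    · exact mem_of_letter hL hSL ih hl hlS htl (α := 1) (by rw [one_smul]; exact (hS t ht).2)
    · -- the other two letters
      have h2 : ∀ x y : R, (x = a ∨ x = b ∨ x = c) → (y = a ∨ y = b ∨ y = c) →
          (∀ z ∈ l, z = x ∨ z = y) → t * qq l - qq l * t ∈ L := by
        intro x y hx hy hz
        exact hL t (hSL ht) _ (two_inv hL (hS x hx).1 (hS y hy).1 (hS x hx).2 (hS y hy).2 l hz)
      rcases ht with rfl | rfl | rfl
      · refine h2 b c (by tauto) (by tauto) fun z hz => ?_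
        rcases hlS z hz with h3 | h3 | h3
        · exact absurd (h3 ▸ hz) htl
        · exact Or.inl h3
        · exact Or.inr h3
      · refine h2 a c (by tauto) (by tauto) fun z hz => ?_
        rcases hlS z hz with h3 | h3 | h3
        · exact Or.inl h3
        · exact absurd (h3 ▸ hz) htl
        · exact Or.inr h3
      · refine h2 a b (by tauto) (by tauto) fun z hz => ?_
        rcases hlS z hz with h3 | h3 | h3
        · exact Or.inl h3
        · exact Or.inr h3
        · exact absurd (h3 ▸ hz) htl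

end

end Pool.Agent.N994.PG
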