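import Mathlib
import Pool.Agent.N994.PG.Irr
import Pool.Agent.N994.PG.Quat
import Pool.Agent.N994.PG.Tri

/-!
# Elements of rank one from skew elements which normalise the Lie algebra
-/

set_option linter.unusedSectionVars false

namespace Pool.Agent.N994.PG

open Matrix Module Pool.Agent.W437.HC Pool.Agent.W437.HD Pool.Agent.Y90 Pool.Agent.R915
open Pool.Agent.W548.Odd hiding cv
open Pool.Agent.N994.PF (rs Zk InL Ed Sys PP PP_eq comb card_emb)

noncomputable section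

variable {g : ℕ} {Z : Matrix (Fin g) (Fin g) ℂ} {k : IntermediateField ℚ ℂ}

/-- **Elements of rank one from skew elements.** -/
theorem rk1_skew (h : PM Z) {U : Submodule ℂ (Fin g ⊕ Fin g → ℂ)} (hU : IrS (LZ Z) U)
    (b : (Fin g ⊕ Fin g → ℂ) →ₗ[ℂ] (Fin g ⊕ Fin g → ℂ) →ₗ[ℂ] ℂ)
    (h0 : ∃ u ∈ U, ∃ v ∈ U, b u v ≠ 0)
    (hb : ∀ X ∈ LZ Z, ∀ u ∈ U, ∀ v ∈ U, b (X *ᵥ u) v + b u (X *ᵥ v) = 0)
    (halt : ∀ u ∈ U, ∀ v ∈ U, b u v = -b v u)
    {S : Set (Matrix (Fin g ⊕ Fin g) (Fin g ⊕ Fin g) ℂ)} (hSL : ∀ x ∈ S, x ∈ LZ Z)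
    (hD : DZ Z ∈ S) (hG : ∀ n, Good (LZ Z) S n)
    (hirr : ∀ N ≤ U, (∀ x ∈ S, ∀ u ∈ N, x *ᵥ u ∈ N) → N = ⊥ ∨ N = U) : Rk1 Z U := by
  have hDD := DZ_sq h.det
  let L : Submodule ℂ (Matrix (Fin g ⊕ Fin g) (Fin g ⊕ Fin g) ℂ) := Submodule.span ℂ S
  have hLle : L ≤ LZ Z := Submodule.span_le.2 hSL
  have hUL : IrS L U := by
    refine ⟨hU.1, fun x hx u hu => hU.2.1 x (hLle hx) u hu, fun N hN hs => ?_⟩
    exact hirr N hN fun x hx u hu => hs _ (Submodule.subset_span hx) u hu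
  -- the vector
  have hns : ∀ c : ℂ, ∃ u ∈ U, DZ Z *ᵥ u ≠ c • u := fun c =>
    ns_of_sdu h ⟨b, h0, hb⟩ (RingEquiv.refl ℂ) c
  have hpos := pd_pos h hU.2.1 hns
  obtain ⟨a, ⟨haU, ha1⟩, ha0⟩ := Submodule.exists_mem_ne_zero_of_ne_bot
    (p := (U ⊓ eig Z 1 : Submodule ℂ (Fin g ⊕ Fin g → ℂ))) (by
    intro h1
    unfold pd at hpos
    rw [h1, finrank_bot] at hpos
    exact lt_irrefl _ hpos)
  have hDa : DZ Z *ᵥ a = a := by
    have h1 := mem_eig.1 ha1
    rwa [one_smul] at h1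
  -- the operator of rank one
  let F : U →ₗ[ℂ] U := ((b a).comp U.subtype).smulRight ⟨a, haU⟩
  obtain ⟨N, hN, hNF⟩ := burnside hUL F
  have hNF' : ∀ u ∈ U, N *ᵥ u = b a u • a := fun u hu => hNF ⟨u, hu⟩
  have hN' : N ∈ Submodule.span ℂ ((Submonoid.closure S : Submonoid _) : Set _) := by
    have h1 : Algebra.adjoin ℂ (L : Set (Matrix (Fin g ⊕ Fin g) (Fin g ⊕ Fin g) ℂ)) =
        Algebra.adjoin ℂ S := Algebra.adjoin_span ℂ
    rw [h1] at hN
    rw [← Algebra.adjoin_eq_span]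
    exact hN
  -- the adjoint modulo the normaliser
  have key : ∀ T ∈ Submodule.span ℂ ((Submonoid.closure S : Submonoid
      (Matrix (Fin g ⊕ Fin g) (Fin g ⊕ Fin g) ℂ)) : Set _), ∃ T', (∀ u ∈ U, T' *ᵥ u ∈ U) ∧
      (∀ u ∈ U, ∀ v ∈ U, b (T *ᵥ u) v = b u (T' *ᵥ v)) ∧
      DZ Z * (T - T') - (T - T') * DZ Z ∈ LZ Z := by
    intro T hT
    induction hT using Submodule.span_induction with
    | mem T hT =>
      obtain ⟨l, hl, rfl⟩ := Submonoid.exists_list_of_mem_closure hT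
      have hlL : ∀ a ∈ l, a ∈ LZ Z := fun a ha => hSL a (hl a ha)
      refine ⟨(-1) ^ l.length * l.reverse.prod, fun u hu => ?_, fun u hu v hv => ?_, ?_⟩
      · have h1 := word_mem hU b hb l.reverse (fun a ha => hlL a (by simpa using ha)) u hu
        rcases neg_one_pow_eq_or (Matrix (Fin g ⊕ Fin g) (Fin g ⊕ Fin g) ℂ) l.length with h2 | h2
        · rwa [h2, one_mul]
        · rw [h2, neg_one_mul, neg_mulVec]
          exact U.neg_mem h1
      · rw [b_word hU b hb l hlL u hu v hv]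
        rcases Nat.even_or_odd l.length with h2 | h2
        · rw [h2.neg_one_pow, h2.neg_one_pow, one_mul, one_mul]
        · rw [h2.neg_one_pow, h2.neg_one_pow, neg_one_mul, neg_one_mul, neg_mulVec, map_neg]
      · exact hG l.length l le_rfl hl _ hD
    | zero =>
      refine ⟨0, fun u _ => by rw [zero_mulVec]; exact U.zero_mem, fun u _ v _ => ?_, ?_⟩
      · rw [zero_mulVec, zero_mulVec, map_zero, map_zero, LinearMap.zero_apply]
      · rw [sub_zero, mul_zero, zero_mul, sub_zero]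
        exact Submodule.zero_mem _
    | add x y _ _ hx hy =>
      obtain ⟨x', h1, h2, h3⟩ := hx
      obtain ⟨y', h4, h5, h6⟩ := hy
      refine ⟨x' + y', fun u hu => ?_, fun u hu v hv => ?_, ?_⟩
      · rw [add_mulVec]
        exact U.add_mem (h1 u hu) (h4 u hu)
      · rw [add_mulVec, add_mulVec, map_add, map_add, LinearMap.add_apply, h2 u hu v hv,
          h5 u hu v hv]
      · have h7 := Submodule.add_mem _ h3 h6
        have h8 : DZ Z * (x - x') - (x - x') * DZ Z + (DZ Z * (y - y') - (y - y') * DZ Z) =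
            DZ Z * (x + y - (x' + y')) - (x + y - (x' + y')) * DZ Z := by noncomm_ring
        rwa [h8] at h7
    | smul c x _ hx =>
      obtain ⟨x', h1, h2, h3⟩ := hx
      refine ⟨c • x', fun u hu => ?_, fun u hu v hv => ?_, ?_⟩
      · rw [smul_mulVec]
        exact U.smul_mem _ (h1 u hu)
      · rw [smul_mulVec, smul_mulVec, map_smul, map_smul, LinearMap.smul_apply, h2 u hu v hv]
      · have h7 := Submodule.smul_mem _ c h3
        rwa [smul_sub, ← Matrix.mul_smul, ← Matrix.smul_mul, smul_sub] at h7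
  obtain ⟨N', h1, h2, h3⟩ := key N hN'
  -- the adjoint of the operator
  have hNa : ∀ v ∈ U, N' *ᵥ v = -(b a v • a) := by
    intro v hv
    have h4 : N' *ᵥ v - (-(b a v • a)) = 0 := by
      refine nd_left hU hU.2.1 h0 hb _ (U.sub_mem (h1 v hv) (U.neg_mem (U.smul_mem _ haU)))
        fun u hu => ?_
      rw [halt _ (U.sub_mem (h1 v hv) (U.neg_mem (U.smul_mem _ haU))) u hu, map_sub, ← h2 u hu v hv,
        hNF' u hu, map_smul, LinearMap.smul_apply, map_neg, map_smul, halt u hu a haU]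
      simp only [smul_eq_mul]
      ring
    exact sub_eq_zero.1 h4
  have hDU : ∀ u ∈ U, DZ Z *ᵥ u ∈ U := hU.2.1 _ DZ_mem
  have hbD : ∀ u ∈ U, b a (DZ Z *ᵥ u) = -b a u := by
    intro u hu
    have h4 := hb _ DZ_mem a haU u hu
    rw [hDa] at h4
    linear_combination h4
  have hX : ∀ u ∈ U, (N - N') *ᵥ u = (2 * b a u) • a := by
    intro u hu
    rw [sub_mulVec, hNF' u hu, hNa u hu]
    module
  have hK : ∀ u ∈ U, (DZ Z * (N - N') - (N - N') * DZ Z) *ᵥ u = (4 * b a u) • a := by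
    intro u hu
    rw [sub_mulVec, ← mulVec_mulVec, ← mulVec_mulVec, hX u hu, hX _ (hDU u hu), hbD u hu,
      mulVec_smul, hDa]
    module
  have h5 := up_mem h h3
  have hKa : ∀ u ∈ U, ((1 / 4 : ℂ) • ((1 + DZ Z) * (DZ Z * (N - N') - (N - N') * DZ Z) *
      (1 - DZ Z))) *ᵥ u = (4 * b a u) • a := by
    intro u hu
    have h6 : (1 - DZ Z) *ᵥ u = u - DZ Z *ᵥ u := by rw [sub_mulVec, one_mulVec]
    rw [smul_mulVec, ← mulVec_mulVec, ← mulVec_mulVec, h6, mulVec_sub, hK u hu, hK _ (hDU u hu),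
      hbD u hu, add_mulVec, one_mulVec, mulVec_sub, mulVec_smul, mulVec_smul, hDa]
    module
  refine ⟨DZ Z, Or.inl rfl, _, h5, ?_, ?_, ?_⟩
  · rw [Matrix.mul_smul]
    congr 1
    have h6 : DZ Z * ((1 + DZ Z) * (DZ Z * (N - N') - (N - N') * DZ Z) * (1 - DZ Z)) =
        (DZ Z + DZ Z * DZ Z) * (DZ Z * (N - N') - (N - N') * DZ Z) * (1 - DZ Z) := by noncomm_ring
    rw [h6, hDD, add_comm]
  · rw [Matrix.smul_mul, ← smul_neg]
    congr 1
    have h6 : (1 + DZ Z) * (DZ Z * (N - N') - (N - N') * DZ Z) * (1 - DZ Z) * DZ Z =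
        (1 + DZ Z) * (DZ Z * (N - N') - (N - N') * DZ Z) * (DZ Z - DZ Z * DZ Z) := by noncomm_ring
    rw [h6, hDD, ← mul_neg, neg_sub]
  have h6 : U.map (mulVecLin ((1 / 4 : ℂ) • ((1 + DZ Z) * (DZ Z * (N - N') - (N - N') * DZ Z) *
      (1 - DZ Z)))) = Submodule.span ℂ {a} := by
    apply le_antisymm
    · rintro _ ⟨u, hu, rfl⟩
      rw [mulVecLin_apply, hKa u hu]
      exact Submodule.smul_mem _ _ (Submodule.mem_span_singleton_self a)
    · rw [Submodule.span_singleton_le_iff_mem]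
      obtain ⟨v, hv, hav⟩ : ∃ v ∈ U, b a v ≠ 0 := by
        by_contra hcon
        push Not at hcon
        exact ha0 (nd_left hU hU.2.1 h0 hb a haU hcon)
      refine ⟨(4 * b a v)⁻¹ • v, U.smul_mem _ hv, ?_⟩
      rw [mulVecLin_apply, mulVec_smul, hKa v hv, smul_smul, inv_mul_cancel₀
        (mul_ne_zero (by norm_num) hav), one_smul]
  rw [h6, finrank_span_singleton ha0]

end

end Pool.Agent.N994.PG
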