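import Mathlib
import Pool.Agent.N994.PG.Comb6
import Pool.Agent.N994.PG.Conn
import Pool.Agent.N994.PG.SkewRk
import Pool.Agent.N994.PG.Five

/-!
# Elements of rank one for all fields of degree five or six
-/

set_option linter.unusedSectionVars false

namespace Pool.Agent.N994.PG

open Matrix Module Pool.Agent.W437.HC Pool.Agent.W437.HD Pool.Agent.Y90 Pool.Agent.R915
open Pool.Agent.W548.Odd hiding cv
open Pool.Agent.N994.PF (rs Zk InL Ed Sys PP PP_eq comb card_emb)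
open Pool.Agent.Y4 (exists_aut_emb)

noncomputable section

variable {g : ℕ} {Z : Matrix (Fin g) (Fin g) ℂ} {k : IntermediateField ℚ ℂ}

/-- The involution given by an edge. -/
theorem exists_inv (h : PM Z) (hZ : ∀ i j, Z i j ∈ k) {p q : k →+* ℂ} (he : Ed k p q) :
    ∃ T ∈ LZ Z, T * T = 1 ∧ Lp hZ p = Eg T (-1) ∧ Lp hZ q = Eg T 1 := by
  obtain ⟨σ, h1, h2⟩ := he
  have h2' : rs k (cc.trans σ) = q := h2
  exact ⟨DS Z σ, DS_mem σ, DS_sq h.det σ, by rw [← h1, Lp_neg h], by rw [← h2', Lp_pos h]⟩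

/-- The dimensions of the eigenspaces. -/
theorem eg_add {T : Matrix (Fin g ⊕ Fin g) (Fin g ⊕ Fin g) ℂ} (hT : T * T = 1)
    {N : Submodule ℂ (Fin g ⊕ Fin g → ℂ)} (hN : ∀ u ∈ N, T *ᵥ u ∈ N) :
    finrank ℂ (N ⊓ Eg T (-1) : Submodule ℂ (Fin g ⊕ Fin g → ℂ)) +
      finrank ℂ (N ⊓ Eg T 1 : Submodule ℂ (Fin g ⊕ Fin g → ℂ)) = finrank ℂ N := by
  have h3 := Submodule.finrank_sup_add_finrank_inf_eq (N ⊓ Eg T (-1)) (N ⊓ Eg T 1)
  rw [eg_disj, finrank_bot, add_zero] at h3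
  rw [← h3]
  have h4 : (N ⊓ Eg T (-1)) ⊔ (N ⊓ Eg T 1) = N := by
    refine le_antisymm (sup_le inf_le_left inf_le_left) fun u hu => ?_
    have hD := hN u hu
    have hTT : T *ᵥ (T *ᵥ u) = u := by rw [mulVec_mulVec, hT, one_mulVec]
    have e1 : u = (2 : ℂ)⁻¹ • (u - T *ᵥ u) + (2 : ℂ)⁻¹ • (u + T *ᵥ u) := by module
    rw [e1]
    refine Submodule.add_mem_sup ⟨N.smul_mem _ (N.sub_mem hu hD), mem_Eg.2 ?_⟩
      ⟨N.smul_mem _ (N.add_mem hu hD), mem_Eg.2 ?_⟩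
    · rw [mulVec_smul, mulVec_sub, hTT]
      module
    · rw [mulVec_smul, mulVec_add, hTT]
      module
  rw [h4]

/-- Stability from the dimensions. -/
theorem stab_of_edges (h : PM Z) (hZ : ∀ i j, Z i j ∈ k) {N : Submodule ℂ (Fin g ⊕ Fin g → ℂ)}
    (hd : ∀ p q, Ed k p q → finrank ℂ (N ⊓ Lp hZ p : Submodule ℂ (Fin g ⊕ Fin g → ℂ)) +
      finrank ℂ (N ⊓ Lp hZ q : Submodule ℂ (Fin g ⊕ Fin g → ℂ)) = finrank ℂ N) :
    Stab (LZ Z) N :=
  stab_LZ fun σ => stab_of_dim h hZ σ N (hd _ _ ⟨σ, rfl, rfl⟩)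

theorem DZ_of (h : PM Z) (hZ : ∀ i j, Z i j ∈ k) {T : Matrix (Fin g ⊕ Fin g) (Fin g ⊕ Fin g) ℂ}
    (h1 : Lp hZ (rs k (RingEquiv.refl ℂ)) = Eg T (-1))
    (h2 : Lp hZ (rs k (cc.trans (RingEquiv.refl ℂ))) = Eg T 1) : T = DZ Z := by
  have hDS : DS Z (RingEquiv.refl ℂ) = DZ Z := by
    ext i j
    rfl
  have h3 : ∀ v, DZ Z *ᵥ v = -v ↔ T *ᵥ v = -v := by
    intro v
    have h4 : v ∈ Eg (DZ Z) (-1) ↔ v ∈ Eg T (-1) := by rw [← h1, Lp_neg h, hDS]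
    rwa [mem_Eg, mem_Eg, neg_one_smul] at h4
  have h4 : ∀ v, DZ Z *ᵥ v = v ↔ T *ᵥ v = v := by
    intro v
    have h4 : v ∈ Eg (DZ Z) 1 ↔ v ∈ Eg T 1 := by rw [← h2, Lp_pos h, hDS]
    rwa [mem_Eg, mem_Eg, one_smul] at h4
  have e1 := mul_of_neg (DZ_sq h.det) fun v hv => (h3 v).1 hv
  have e2 := mul_of_pos (DZ_sq h.det) fun v hv => (h4 v).1 hv
  have e3 : T + 1 - DZ Z = 1 + DZ Z - T := e1.symm.trans e2
  have e4 : (2 : ℂ) • (T - DZ Z) = 0 := by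
    have e5 : (2 : ℂ) • (T - DZ Z) = (T + 1 - DZ Z) - (1 + DZ Z - T) := by module
    rw [e5, e3, sub_self]
  exact sub_eq_zero.1 ((smul_eq_zero.1 e4).resolve_left two_ne_zero)

/-- The copy of `sl₂` given by three pairwise transversal subspaces. -/
theorem isQ_tri {A B C : Matrix (Fin g ⊕ Fin g) (Fin g ⊕ Fin g) ℂ} (hA : A ∈ LZ Z)
    (hB : B ∈ LZ Z) (hC : C ∈ LZ Z) (iA : A * A = 1) (iB : B * B = 1) (iC : C * C = 1)
    (h1 : Eg A (-1) = Eg B (-1)) (h2 : Eg A 1 = Eg C (-1)) (h3 : Eg B 1 = Eg C 1) :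
    IsQ (LZ Z) (Submodule.span ℂ {A, B, C}) := by
  have e1 : ∀ v, A *ᵥ v = -v ↔ B *ᵥ v = -v := by
    intro v
    have h4 : v ∈ Eg A (-1) ↔ v ∈ Eg B (-1) := by rw [h1]
    rwa [mem_Eg, mem_Eg, neg_one_smul] at h4
  have e3 : ∀ v, B *ᵥ v = v ↔ C *ᵥ v = v := by
    intro v
    have h4 : v ∈ Eg B 1 ↔ v ∈ Eg C 1 := by rw [h3]
    rwa [mem_Eg, mem_Eg, one_smul] at h4
  have e2 : ∀ v, A *ᵥ v = v ↔ (-C) *ᵥ v = v := by
    intro v
    have h4 : v ∈ Eg A 1 ↔ v ∈ Eg C (-1) := by rw [h2]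
    rw [mem_Eg, mem_Eg, one_smul, neg_one_smul] at h4
    rw [h4, neg_mulVec, neg_eq_iff_eq_neg]
  have iC' : (-C) * (-C) = 1 := by rw [neg_mul_neg, iC]
  have hab := mul_of_neg iB fun v hv => (e1 v).2 hv
  have hba := mul_of_neg iA fun v hv => (e1 v).1 hv
  have hbc := mul_of_pos iC fun v hv => (e3 v).2 hv
  have hcb := mul_of_pos iB fun v hv => (e3 v).1 hv
  have hac := mul_of_pos iC' fun v hv => (e2 v).2 hv
  have hca := mul_of_pos iA fun v hv => (e2 v).1 hv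
  rw [mul_neg, neg_eq_iff_eq_neg] at hac
  rw [neg_mul, neg_eq_iff_eq_neg] at hca
  have mA : A ∈ Submodule.span ℂ ({A, B, C} : Set _) := Submodule.subset_span (by simp)
  have mB : B ∈ Submodule.span ℂ ({A, B, C} : Set _) := Submodule.subset_span (by simp)
  have mC : C ∈ Submodule.span ℂ ({A, B, C} : Set _) := Submodule.subset_span (by simp)
  refine ⟨?_, ?_, ?_⟩
  · rw [Submodule.span_le]
    rintro x (rfl | rfl | rfl)
    · exact hA
    · exact hB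
    · exact hC
  · intro x hx y hy
    obtain ⟨x1, x2, x3, rfl⟩ := Submodule.mem_span_triple.1 hx
    obtain ⟨y1, y2, y3, rfl⟩ := Submodule.mem_span_triple.1 hy
    refine ⟨x1 * y1 + x2 * y2 + x3 * y3 + x1 * y2 + x2 * y1 + x2 * y3 + x3 * y2 - x1 * y3 -
      x3 * y1, (x1 * y2 - x2 * y1) • (A - B) + (x2 * y3 - x3 * y2) • (C - B) +
      (x1 * y3 - x3 * y1) • (A + C), ?_, ?_, ?_⟩
    · exact Submodule.add_mem _ (Submodule.add_mem _ (Submodule.smul_mem _ _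
        (Submodule.sub_mem _ mA mB)) (Submodule.smul_mem _ _ (Submodule.sub_mem _ mC mB)))
        (Submodule.smul_mem _ _ (Submodule.add_mem _ mA mC))
    · simp only [add_mul, mul_add, smul_mul_smul_comm, iA, iB, iC, hab, hba, hbc, hcb, hac, hca]
      module
    · simp only [add_mul, mul_add, smul_mul_smul_comm, iA, iB, iC, hab, hba, hbc, hcb, hac, hca]
      module
  · have h4 : ((1 / 2 : ℂ) • (A - B)) * ((-1 / 2 : ℂ) • (A + C)) -
        ((-1 / 2 : ℂ) • (A + C)) * ((1 / 2 : ℂ) • (A - B)) = -A := by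
      simp only [sub_mul, mul_sub, add_mul, mul_add, smul_mul_smul_comm, iA, hab, hba,
        hbc, hcb, hac, hca]
      module
    refine ⟨(1 / 2 : ℂ) • (A - B), (-1 / 2 : ℂ) • (A + C), Submodule.smul_mem _ _
      (Submodule.sub_mem _ mA mB), Submodule.smul_mem _ _ (Submodule.add_mem _ mA mC), ?_, ?_⟩
    · rw [h4]
      exact Submodule.neg_mem _ mA
    · rw [h4]
      have s1 : (1 / 2 : ℂ) • (A - B) ∈ Submodule.span ℂ
          ({(1 / 2 : ℂ) • (A - B), (-1 / 2 : ℂ) • (A + C), -A} : Set _) :=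
        Submodule.subset_span (by simp)
      have s2 : (-1 / 2 : ℂ) • (A + C) ∈ Submodule.span ℂ
          ({(1 / 2 : ℂ) • (A - B), (-1 / 2 : ℂ) • (A + C), -A} : Set _) :=
        Submodule.subset_span (by simp)
      have s3 : -A ∈ Submodule.span ℂ
          ({(1 / 2 : ℂ) • (A - B), (-1 / 2 : ℂ) • (A + C), -A} : Set _) :=
        Submodule.subset_span (by simp)
      rw [Submodule.span_le]
      rintro x (rfl | rfl | rfl)
      · have h5 := Submodule.neg_mem _ s3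
        rwa [neg_neg] at h5
      · have h6 := Submodule.add_mem _ (Submodule.smul_mem _ (-1 : ℂ) s3)
          (Submodule.smul_mem _ (-2 : ℂ) s1)
        have h5 : (-1 : ℂ) • -A + (-2 : ℂ) • ((1 / 2 : ℂ) • (A - x)) = x := by module
        rwa [h5] at h6
      · have h6 := Submodule.add_mem _ s3 (Submodule.smul_mem _ (-2 : ℂ) s2)
        have h5 : -A + (-2 : ℂ) • ((-1 / 2 : ℂ) • (A + x)) = x := by module
        rwa [h5] at h6

section rk

variable (h : PM Z) (hZ : ∀ i j, Z i j ∈ k) {U : Submodule ℂ (Fin g ⊕ Fin g → ℂ)}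
  (hU : IrS (LZ Z) U) (b : (Fin g ⊕ Fin g → ℂ) →ₗ[ℂ] (Fin g ⊕ Fin g → ℂ) →ₗ[ℂ] ℂ)
  (h0 : ∃ u ∈ U, ∃ v ∈ U, b u v ≠ 0)
  (hb : ∀ X ∈ LZ Z, ∀ u ∈ U, ∀ v ∈ U, b (X *ᵥ u) v + b u (X *ᵥ v) = 0)
  (halt : ∀ u ∈ U, ∀ v ∈ U, b u v = -b v u)

include h hZ hU h0 hb halt in
/-- Three disjoint edges. -/
theorem rk1_three [FiniteDimensional ℚ k] {w : Fin 6 → (k →+* ℂ)} (hs : Function.Surjective w)
    (h01 : Ed k (w 0) (w 1)) (h23 : Ed k (w 2) (w 3)) (h45 : Ed k (w 4) (w 5))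
    (hu : ∀ x y z : k →+* ℂ, Ed k x y → Ed k x z → y = z) : Rk1 Z U := by
  obtain ⟨z, z0, z1, hz, -, hzs⟩ := move_edge w h01
  have hsz := hzs hs
  obtain ⟨T₁, hT₁, i₁, n₁, p₁⟩ := exists_inv h hZ ((hz 0 1).2 h01)
  obtain ⟨T₂, hT₂, i₂, n₂, p₂⟩ := exists_inv h hZ ((hz 2 3).2 h23)
  obtain ⟨T₃, hT₃, i₃, n₃, p₃⟩ := exists_inv h hZ ((hz 4 5).2 h45)
  have hD : T₁ = DZ Z := DZ_of h hZ (by rw [← z0, n₁]) (by rw [← z1, p₁])
  refine rk1_skew h hU b h0 hb halt (S := {t | t = T₁ ∨ t = T₂ ∨ t = T₃}) ?_ (Or.inl hD.symm) ?_ ?_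
  · rintro x (rfl | rfl | rfl)
    · exact hT₁
    · exact hT₂
    · exact hT₃
  · exact tri_good (fun x hx y hy => LZ_br hx hy) (by
      rintro t (rfl | rfl | rfl)
      · exact ⟨hT₁, i₁⟩
      · exact ⟨hT₂, i₂⟩
      · exact ⟨hT₃, i₃⟩)
  intro N hN hst
  refine hU.2.2 N hN (stab_of_edges h hZ ?_)
  have e1 := eg_add i₁ (hst T₁ (Or.inl rfl))
  have e2 := eg_add i₂ (hst T₂ (Or.inr (Or.inl rfl)))
  have e3 := eg_add i₃ (hst T₃ (Or.inr (Or.inr rfl)))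
  rw [← n₁, ← p₁] at e1
  rw [← n₂, ← p₂] at e2
  rw [← n₃, ← p₃] at e3
  have k01 := (hz 0 1).2 h01
  have k23 := (hz 2 3).2 h23
  have k45 := (hz 4 5).2 h45
  intro p q hpq
  obtain ⟨i, rfl⟩ := hsz p
  fin_cases i <;> simp only [Fin.zero_eta, Fin.mk_one, Fin.reduceFinMk] at hpq ⊢
  · rw [hu _ _ _ hpq k01]
    exact e1
  · rw [hu _ _ _ hpq k01.symm, add_comm]
    exact e1
  · rw [hu _ _ _ hpq k23]
    exact e2
  · rw [hu _ _ _ hpq k23.symm, add_comm]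
    exact e2
  · rw [hu _ _ _ hpq k45]
    exact e3
  · rw [hu _ _ _ hpq k45.symm, add_comm]
    exact e3

include h hZ hU h0 hb halt in
/-- Two triangles. -/
theorem rk1_tris [FiniteDimensional ℚ k] {w : Fin 6 → (k →+* ℂ)} (hs : Function.Surjective w)
    (h01 : Ed k (w 0) (w 1)) (h12 : Ed k (w 1) (w 2)) (h02 : Ed k (w 0) (w 2))
    (h34 : Ed k (w 3) (w 4)) (h45 : Ed k (w 4) (w 5)) (h35 : Ed k (w 3) (w 5))
    (hu : ∀ i j : Fin 6, Ed k (w i) (w j) → (i.1 < 3 ↔ j.1 < 3)) (hi : ∀ p, ¬ Ed k p p) :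
    Rk1 Z U := by
  obtain ⟨z, z0, z1, hz, -, hzs⟩ := move_edge w h01
  have hsz := hzs hs
  obtain ⟨A, hA, iA, nA, pA⟩ := exists_inv h hZ ((hz 0 1).2 h01)
  obtain ⟨B, hB, iB, nB, pB⟩ := exists_inv h hZ ((hz 0 2).2 h02)
  obtain ⟨C, hC, iC, nC, pC⟩ := exists_inv h hZ ((hz 1 2).2 h12)
  obtain ⟨A', hA', iA', nA', pA'⟩ := exists_inv h hZ ((hz 3 4).2 h34)
  obtain ⟨B', hB', iB', nB', pB'⟩ := exists_inv h hZ ((hz 3 5).2 h35)
  obtain ⟨C', hC', iC', nC', pC'⟩ := exists_inv h hZ ((hz 4 5).2 h45)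
  have hD : A = DZ Z := DZ_of h hZ (by rw [← z0, nA]) (by rw [← z1, pA])
  have hQ := isQ_tri hA hB hC iA iB iC (nA.symm.trans nB) (pA.symm.trans nC) (pB.symm.trans pC)
  have hQ' := isQ_tri hA' hB' hC' iA' iB' iC' (nA'.symm.trans nB') (pA'.symm.trans nC')
    (pB'.symm.trans pC')
  have memQ : ∀ {A B C : Matrix (Fin g ⊕ Fin g) (Fin g ⊕ Fin g) ℂ},
      A ∈ Submodule.span ℂ {A, B, C} ∧ B ∈ Submodule.span ℂ {A, B, C} ∧
        C ∈ Submodule.span ℂ {A, B, C} := fun {A B C} =>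
    ⟨Submodule.subset_span (by simp), Submodule.subset_span (by simp),
      Submodule.subset_span (by simp)⟩
  obtain ⟨mA, mB, mC⟩ := memQ (A := A) (B := B) (C := C)
  obtain ⟨mA', mB', mC'⟩ := memQ (A := A') (B := B') (C := C')
  refine rk1_skew h hU b h0 hb halt
    (S := {t | t ∈ Submodule.span ℂ {A, B, C} ∨ t ∈ Submodule.span ℂ {A', B', C'}}) ?_ ?_ ?_ ?_
  · rintro x (hx | hx)
    · exact hQ.le hx
    · exact hQ'.le hx
  · rw [← hD]
    exact Or.inl mA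
  · exact quat_good (fun x hx y hy => LZ_br hx hy) hQ hQ'
  intro N hN hst
  refine hU.2.2 N hN (stab_of_edges h hZ ?_)
  have eA := eg_add iA (hst _ (Or.inl mA))
  have eB := eg_add iB (hst _ (Or.inl mB))
  have eC := eg_add iC (hst _ (Or.inl mC))
  have eA' := eg_add iA' (hst _ (Or.inr mA'))
  have eB' := eg_add iB' (hst _ (Or.inr mB'))
  have eC' := eg_add iC' (hst _ (Or.inr mC'))
  rw [← nA, ← pA] at eA
  rw [← nB, ← pB] at eB
  rw [← nC, ← pC] at eC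
  rw [← nA', ← pA'] at eA'
  rw [← nB', ← pB'] at eB'
  rw [← nC', ← pC'] at eC'
  intro p q hpq
  obtain ⟨i, rfl⟩ := hsz p
  obtain ⟨j, rfl⟩ := hsz q
  have hij := hu i j ((hz i j).1 hpq)
  have hne : i ≠ j := by
    rintro rfl
    exact hi _ hpq
  fin_cases i <;> fin_cases j <;>
    simp only [Fin.zero_eta, Fin.mk_one, Fin.reduceFinMk, Fin.isValue, ne_eq, not_true_eq_false]
      at hij hne ⊢
  all_goals first
    | exact absurd rfl hne
    | (exfalso; revert hij; decide)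
    | exact eA
    | exact eB
    | exact eC
    | exact eA'
    | exact eB'
    | exact eC'
    | (rw [add_comm]; first | exact eA | exact eB | exact eC | exact eA' | exact eB' | exact eC')

include h hZ hU h0 hb halt in
/-- **Elements of rank one for the fields of degree five or six.** -/
theorem rk1_deg [FiniteDimensional ℚ k] (hg : 0 < g)
    (hd : finrank ℚ k = 5 ∨ finrank ℚ k = 6) : Rk1 Z U := by
  have nk : NumberField k := ⟨⟩
  have hi := Ed_irr h hZ (exists_ne hg)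
  rcases hd with hd | hd
  · obtain ⟨z, hz⟩ := exists_path (noReal_five hd hi) hi (Or.inl hd)
    exact rk1_path h hZ hU b h0 hb halt hz
  obtain ⟨_, hcard⟩ := card_emb (k := k)
  have hd' := hd
  rw [← hcard] at hd'
  have hom : ∀ p p' : k →+* ℂ, ∃ f : (k →+* ℂ) → (k →+* ℂ), Function.Injective f ∧ f p = p' ∧
      ∀ a b, Ed k a b → Ed k (f a) (f b) := by
    intro p p'
    obtain ⟨ρ, hρ⟩ := exists_aut_emb p p'
    refine ⟨fun q => (ρ : ℂ →+* ℂ).comp q, ?_, hρ, fun a b h => h.comp ρ⟩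
    intro a b hab
    ext x
    have h1 := congrArg (fun t : k →+* ℂ => t x) hab
    exact ρ.injective h1
  have hne : ∀ a : k →+* ℂ, ∃ b, Ed k a b := by
    intro a
    obtain ⟨ρ, hρ⟩ := exists_aut_emb (algebraMap k ℂ) a
    exact ⟨rs k (cc.trans ρ), ρ, hρ, rfl⟩
  rcases six_or (fun _ _ h => h.symm) hi hom hne hd' with h1 | ⟨h1, w, hs, h01, h23, h45⟩ |
    ⟨w, hs, h01, h12, h02, h34, h45, h35, hu⟩
  · obtain ⟨z, hz⟩ := exists_path_gr (⟨fun _ _ h => h.symm, hi, hom, h1⟩ : Gr (Ed k)) (Or.inr hd)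
    exact rk1_path h hZ hU b h0 hb halt hz
  · exact rk1_three h hZ hU b h0 hb halt hs h01 h23 h45 h1
  · exact rk1_tris h hZ hU b h0 hb halt hs h01 h12 h02 h34 h45 h35 hu hi

end rk

end

end Pool.Agent.N994.PG
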