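import Mathlib
import Pool.Agent.N994.PG.Quin
import Pool.Agent.N994.PG.Six
import Pool.Agent.N994.PG.DiscOdd2
import Pool.Agent.N994.PG.OrthTwo

/-!
# The local conditions for fields of degree five and six
-/

set_option linter.unusedSectionVars false

namespace Pool.Agent.N994.PG

open Matrix Module Pool.Agent.W437.HC Pool.Agent.W437.HD Pool.Agent.Y90 Pool.Agent.R915
open Pool.Agent.W548.Odd hiding cv
open Pool.Agent.N994.PF (rs Zk InL Ed Sys PP PP_eq comb card_emb)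
open scoped ComplexOrder

noncomputable section

variable {g : ℕ} {Z : Matrix (Fin g) (Fin g) ℂ} {k : IntermediateField ℚ ℂ}

/-- Two-dimensional submodules on which no conjugate of the complex structure is a scalar carry an
alternating invariant form. -/
theorem altF_of_two (h : PM Z) {U : Submodule ℂ (Fin g ⊕ Fin g → ℂ)}
    (hU : Stab (LZ Z) U) (h2 : finrank ℂ U = 2)
    (hn : ∀ σ, ∃ u ∈ U, u ≠ 0 ∧ DS Z σ *ᵥ u = -u) (hp : ∀ σ, ∃ u ∈ U, u ≠ 0 ∧ DS Z σ *ᵥ u = u) :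
    AltF Z U := by
  obtain ⟨b, h0, hb⟩ := exists_alt U h2
  refine ⟨b, h0, ?_, fun u _ v _ => ?_⟩
  swap
  · have e1 := hb (u + v)
    simp only [map_add, LinearMap.add_apply, hb, zero_add, add_zero] at e1
    linear_combination e1
  -- the eigenspaces are lines
  have key : ∀ σ, ∀ u ∈ U, ∀ v ∈ U, b (DS Z σ *ᵥ u) v + b u (DS Z σ *ᵥ v) = 0 := by
    intro σ u hu v hv
    let E : ℂ → Submodule ℂ (Fin g ⊕ Fin g → ℂ) := fun c =>
      U ⊓ Module.End.eigenspace (mulVecLin (DS Z σ)) c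
    have hE : ∀ c w, w ∈ E c ↔ w ∈ U ∧ DS Z σ *ᵥ w = c • w := by
      intro c w
      change w ∈ U ∧ w ∈ Module.End.eigenspace (mulVecLin (DS Z σ)) c ↔ _
      rw [Module.End.mem_eigenspace_iff]
      rfl
    have hdis : E 1 ⊓ E (-1) = ⊥ := by
      rw [eq_bot_iff]
      rintro w ⟨h1, h1'⟩
      have h3 : DS Z σ *ᵥ w = (1 : ℂ) • w := ((hE _ _).1 h1).2
      have h4 : DS Z σ *ᵥ w = (-1 : ℂ) • w := ((hE _ _).1 h1').2
      rw [h3, ← sub_eq_zero, ← sub_smul] at h4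
      rw [Submodule.mem_bot]
      refine (smul_eq_zero.1 h4).resolve_left (by norm_num)
    have hpos : ∀ c : ℂ, (c = 1 ∨ c = -1) → 0 < finrank ℂ (E c) := by
      intro c hc
      rw [Nat.pos_iff_ne_zero, ne_eq, Submodule.finrank_eq_zero]
      intro h3
      rcases hc with rfl | rfl
      · obtain ⟨w, hw, hw0, hw'⟩ := hp σ
        have h4 : w ∈ E 1 := (hE _ _).2 ⟨hw, by rw [hw', one_smul]⟩
        rw [h3, Submodule.mem_bot] at h4
        exact hw0 h4
      · obtain ⟨w, hw, hw0, hw'⟩ := hn σ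
        have h4 : w ∈ E (-1) := (hE _ _).2 ⟨hw, by rw [hw', neg_one_smul]⟩
        rw [h3, Submodule.mem_bot] at h4
        exact hw0 h4
    have hsum : finrank ℂ (E 1) + finrank ℂ (E (-1)) ≤ 2 := by
      have h3 := Submodule.finrank_sup_add_finrank_inf_eq (E 1) (E (-1))
      rw [hdis, finrank_bot, add_zero] at h3
      rw [← h3, ← h2]
      exact Submodule.finrank_mono (sup_le inf_le_left inf_le_left)
    have hp1 := hpos 1 (Or.inl rfl)
    have hn1 := hpos (-1) (Or.inr rfl)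
    -- decomposition
    have hdec : ∀ w ∈ U, ∃ x ∈ E 1, ∃ y ∈ E (-1), w = x + y := by
      intro w hw
      have hDw := hU _ (DS_mem σ) w hw
      refine ⟨(1 / 2 : ℂ) • (w + DS Z σ *ᵥ w), (hE _ _).2 ⟨U.smul_mem _ (U.add_mem hw hDw), ?_⟩,
        (1 / 2 : ℂ) • (w - DS Z σ *ᵥ w), (hE _ _).2 ⟨U.smul_mem _ (U.sub_mem hw hDw), ?_⟩, ?_⟩
      · rw [mulVec_smul, mulVec_add, DD h]
        module
      · rw [mulVec_smul, mulVec_sub, DD h]
        module
      · module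
    obtain ⟨x, hx, y, hy, rfl⟩ := hdec u hu
    obtain ⟨x', hx', y', hy', rfl⟩ := hdec v hv
    have e1 := alt_line hb (by omega : finrank ℂ (E 1) ≤ 1) hx hx'
    have e2 := alt_line hb (by omega : finrank ℂ (E (-1)) ≤ 1) hy hy'
    have d1 := ((hE _ _).1 hx).2
    have d2 := ((hE _ _).1 hy).2
    have d3 := ((hE _ _).1 hx').2
    have d4 := ((hE _ _).1 hy').2
    rw [mulVec_add, mulVec_add, d1, d2, d3, d4]
    simp only [map_add, map_smul, LinearMap.add_apply, LinearMap.smul_apply, smul_eq_mul]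
    linear_combination 2 * e1 - 2 * e2
  let C : Submodule ℂ (Matrix (Fin g ⊕ Fin g) (Fin g ⊕ Fin g) ℂ) :=
    { carrier := {X | (∀ u ∈ U, X *ᵥ u ∈ U) ∧
        ∀ u ∈ U, ∀ v ∈ U, b (X *ᵥ u) v + b u (X *ᵥ v) = 0}
      zero_mem' := by
        refine ⟨fun u _ => ?_, fun u _ v _ => ?_⟩
        · rw [zero_mulVec]
          exact U.zero_mem
        · rw [zero_mulVec, zero_mulVec, map_zero, map_zero, LinearMap.zero_apply, add_zero]
      add_mem' := fun {X Y} hX hY => by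
        refine ⟨fun u hu => ?_, fun u hu v hv => ?_⟩
        · rw [add_mulVec]
          exact U.add_mem (hX.1 u hu) (hY.1 u hu)
        · rw [add_mulVec, add_mulVec, map_add, map_add, LinearMap.add_apply]
          linear_combination hX.2 u hu v hv + hY.2 u hu v hv
      smul_mem' := fun c X hX => by
        refine ⟨fun u hu => ?_, fun u hu v hv => ?_⟩
        · rw [smul_mulVec]
          exact U.smul_mem c (hX.1 u hu)
        · rw [smul_mulVec, smul_mulVec, map_smul, map_smul, LinearMap.smul_apply, smul_eq_mul,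
            smul_eq_mul]
          linear_combination c * hX.2 u hu v hv }
  have hC : LZ Z ≤ C := by
    refine LZ_le (fun σ => ⟨hU _ (DS_mem σ), key σ⟩) ?_
    rintro X ⟨hX, hX'⟩ Y ⟨hY, hY'⟩
    refine ⟨fun u hu => ?_, fun u hu v hv => ?_⟩
    · rw [sub_mulVec, ← mulVec_mulVec, ← mulVec_mulVec]
      exact U.sub_mem (hX _ (hY u hu)) (hY _ (hX u hu))
    · rw [sub_mulVec, sub_mulVec, ← mulVec_mulVec, ← mulVec_mulVec, ← mulVec_mulVec,
        ← mulVec_mulVec, map_sub, map_sub, LinearMap.sub_apply]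
      have e1 := hX' (Y *ᵥ u) (hY u hu) v hv
      have e2 := hY' u hu (X *ᵥ v) (hX v hv)
      have e3 := hY' (X *ᵥ u) (hX u hu) v hv
      have e4 := hX' u hu (Y *ᵥ v) (hY v hv)
      linear_combination e1 - e2 - e3 + e4
  exact fun X hX => (hC hX).2

theorem two_le_of_sdu (h : PM Z) {U : Submodule ℂ (Fin g ⊕ Fin g → ℂ)} (hU : IrS (LZ Z) U)
    (hs : SDu Z U) : 2 ≤ finrank ℂ U ∧ tr Z U = 0 := by
  obtain ⟨b, h0, hb⟩ := hs
  have htr := tr_dual h hU hU h0 hb
  have hpq := pd_add_qd h hU.2.1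
  unfold tr at htr ⊢
  have h1 : 0 < finrank ℂ U := by
    rw [Nat.pos_iff_ne_zero, ne_eq, Submodule.finrank_eq_zero]
    exact hU.1
  omega

/-- A rank one element for alternating submodules. -/
theorem dlc_alt' [FiniteDimensional ℚ k] (hd : finrank ℚ k = 5 ∨ finrank ℚ k = 6)
    (h : PM Z) (hg : 0 < g) (hZ : ∀ i j, Z i j ∈ k) {U : Submodule ℂ (Fin g ⊕ Fin g → ℂ)}
    (hU : IrS (LZ Z) U) (ha : AltF Z U) : Rk1 Z U ∧ SDu Z U ∧ 2 ≤ finrank ℂ U := by
  refine ⟨?_, ha.sdu, (two_le_of_sdu h hU ha.sdu).1⟩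
  obtain ⟨b, h0, hb, hal⟩ := ha
  exact rk1_deg h hZ hU b h0 hb hal hg hd

/-- The irreducible submodules are alternating for the types I and II. -/
theorem altF_rf (h : PM Z) (hs : IsSimpleAV Z) (hg : 0 < g)
    {M : Matrix (Fin g ⊕ Fin g) (Fin g ⊕ Fin g) ℚ} (kf : RF Z M)
    {U : Submodule ℂ (Fin g ⊕ Fin g → ℂ)} (hU : IrS (LZ Z) U) : AltF Z U := by
  obtain ⟨θ, hθ, hdim, hproj⟩ := VE_main h hs hg kf.comm
  obtain ⟨σ, T, hT, hi, hTU⟩ := hproj U hU
  have hU' := irS_map hU hT hi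
  have hW := kf.irr h hs (θ := σ θ) (fun h1 => hU'.1 (by rwa [h1, le_bot_iff] at hTU))
  have hreal : cc (σ θ) = σ θ := kf.real _ (root_conj hθ σ)
  rcases hW.2.2 _ hTU hU'.2.1 with h1 | h1
  · exact absurd h1 hU'.1
  refine AltF.of_map hT ?_
  rw [h1]
  have h0 : ∃ u ∈ VE M (σ θ), ∃ v ∈ VE M (σ θ), om g u v ≠ 0 := by
    obtain ⟨w, hw, hw0⟩ := Submodule.exists_mem_ne_zero_of_ne_bot hW.1
    refine ⟨cnj w, ?_, DZ Z *ᵥ w, hW.2.1 _ DZ_mem w hw, fun h0 => ?_⟩
    · have h5 : cjS cc (VE M (σ θ)) = VE M (σ θ) := by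
        rw [VE_cj, hreal]
      rw [← h5]
      change (fun i => cc.symm (cnj w i)) ∈ VE M (σ θ)
      have h6 : (fun i => cc.symm (cnj w i)) = w := cnj_cnj w
      rwa [h6]
    · have h5 := h.herm_pos hw0
      rw [h0, mul_zero] at h5
      exact lt_irrefl _ h5
  exact ⟨om g, h0, fun X hX u _ v _ => h.om_sp hX u v, fun u _ v _ => om_anti u v⟩

/-- The local condition. -/
structure LD {a : ℕ} {Z : Matrix (Fin a) (Fin a) ℂ} (h : PM Z)
    (U : Submodule ℂ (Fin a ⊕ Fin a → ℂ)) : Prop where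
  rk : Rk1 Z U
  dim : 2 ≤ finrank ℂ U
  or : SDu Z U ∨ ∃ φ α d, QF Z φ d ∧ KW Z U φ α d ∧ (a = 4 ∨ a = 6) ∧ tr Z U = 0 ∧
    (a = 6 → HasTrivialDisc (AVZ h) d (Matrix.toLin' φ))

/-- **The types I and II, degree five or six.** -/
theorem ld_real [FiniteDimensional ℚ k]
    (hd : finrank ℚ k = 5 ∨ finrank ℚ k = 6) (h : PM Z) (hs : IsSimpleAV Z) (hg : 0 < g)
    (hZ : ∀ i j, Z i j ∈ k) {a : Module.End ℚ (Fin g ⊕ Fin g → ℚ)} (ha : RealMax (AVZ h) a)
    {U : Submodule ℂ (Fin g ⊕ Fin g → ℂ)} (hU : IrS (LZ Z) U) : LD h U := by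
  obtain ⟨h1, h2, h3⟩ := dlc_alt' hd h hg hZ hU (altF_rf h hs hg (ha.rf h) hU)
  exact ⟨h1, h3, Or.inl h2⟩

theorem disc_six [FiniteDimensional ℚ k] (hodd : Odd (finrank ℚ k)) (h : PM Z)
    (hZ : ∀ i j, Z i j ∈ k) {φ : Matrix (Fin g ⊕ Fin g) (Fin g ⊕ Fin g) ℚ} {α : ℂ} {d : ℚ}
    {U : Submodule ℂ (Fin g ⊕ Fin g → ℂ)} (hk : KW Z U φ α d) (h6 : g = 6) :
    HasTrivialDisc (AVZ h) d (Matrix.toLin' φ) := by
  subst h6
  exact disc_odd hodd h hZ hk.pos hk.sq (hk.comm _ DZ_mem) (hk.skewQ h)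

/-- **Fields of degree five, dimension odd or at most seven.** -/
theorem ld_five [FiniteDimensional ℚ k] (hd : finrank ℚ k = 5) (h : PM Z) (hs : IsSimpleAV Z)
    (hg : 0 < g) (hc : Odd g ∨ g ≤ 7) (hZ : ∀ i j, Z i j ∈ k)
    {U : Submodule ℂ (Fin g ⊕ Fin g → ℂ)} (hU : IrS (LZ Z) U) : LD h U := by
  have hi := Ed_irr h hZ (exists_ne hg)
  have hodd : Odd (finrank ℚ k) := by rw [hd]; decide
  by_cases ha : AltF Z U
  · obtain ⟨h1, h2, h3⟩ := dlc_alt' (Or.inl hd) h hg hZ hU ha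
    exact ⟨h1, h3, Or.inl h2⟩
  have h1 := dvd_of_not_alt h hs hU ha
  have h2 := even_five hd h hg hZ hU.2.1 (algebraMap k ℂ)
  have hgo : ¬ Odd g := by
    intro ho
    rw [← h2] at h1
    have h3 : 2 ∣ g := (Dvd.intro _ rfl).trans h1
    exact (Nat.not_even_iff_odd.2 ho) (even_iff_two_dvd.2 h3)
  have hg7 : g ≤ 7 := hc.resolve_left hgo
  have hU0 : 0 < finrank ℂ U := by
    rw [Nat.pos_iff_ne_zero, ne_eq, Submodule.finrank_eq_zero]
    exact hU.1
  have hn2 : finrank ℂ U ≠ 2 := by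
    intro h3
    apply ha
    have hpos : ∀ p : k →+* ℂ, ∃ u ∈ U, u ≠ 0 ∧ u ∈ Lp hZ p := by
      intro p
      have h4 := even_five hd h hg hZ hU.2.1 p
      have h5 : (U ⊓ Lp hZ p : Submodule ℂ (Fin g ⊕ Fin g → ℂ)) ≠ ⊥ := by
        intro h6
        rw [h6, finrank_bot, h3] at h4
        omega
      obtain ⟨u, ⟨hu1, hu2⟩, hu0⟩ := Submodule.exists_mem_ne_zero_of_ne_bot h5
      exact ⟨u, hu1, hu0, hu2⟩
    refine altF_of_two h hU.2.1 h3 (fun σ => ?_) fun σ => ?_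
    · obtain ⟨u, hu, hu0, hu'⟩ := hpos (rs k σ)
      exact ⟨u, hu, hu0, (mem_neg h hZ σ).1 hu'⟩
    · obtain ⟨u, hu, hu0, hu'⟩ := hpos (rs k (cc.trans σ))
      exact ⟨u, hu, hu0, (mem_pos h hZ σ).1 hu'⟩
  have hgU : finrank ℂ U = g ∧ (g = 4 ∨ g = 6) := by
    rw [Nat.odd_iff] at hgo
    obtain ⟨m, hm⟩ := h1
    obtain ⟨j, hj⟩ : ∃ j, finrank ℂ U = 2 * j := ⟨_, h2.symm⟩
    have hj2 : 2 ≤ j := by omega
    have hm1 : m = 1 := by
      by_contra hm1
      have : 2 ≤ m := by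
        rcases m with _ | _ | m
        · omega
        · omega
        · omega
      have h8 : 4 * 2 ≤ finrank ℂ U * m := Nat.mul_le_mul (by omega) this
      omega
    subst hm1
    omega
  obtain ⟨hdim, hg46⟩ := hgU
  by_cases hT : ∃ T, BarI Z U T
  · exfalso
    obtain ⟨T, hT⟩ := hT
    have h4 := hT.four_dvd h hU ha hodd hZ
    have hg4 : g = 4 := by omega
    obtain ⟨z, hz⟩ := exists_path (noReal_five hd hi) hi (Or.inl hd)
    have htr := tr_odd hodd h hZ hU (RingEquiv.refl ℂ)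
    have hcj : cjS (RingEquiv.refl ℂ) U = U := by
      ext v
      exact Iff.rfl
    rw [hcj] at htr
    refine no_orth_four h hU ((om g).compl₂ (mulVecLin T)) ?_ (fun X hX u hu v hv => ?_)
      (fun u hu v hv => ?_) hZ (by omega) (by omega) hz
    · obtain ⟨v, hv, hv0⟩ := hT.ne
      by_contra hcon
      push Not at hcon
      -- the annihilator
      obtain ⟨u, hu, w, hw, huw⟩ := pair_bar h hU
      have hmap : U.map (mulVecLin T) = cjS cc U := by
        refine Submodule.eq_of_le_of_finrank_le ?_ ?_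
        · rintro _ ⟨x, hx, rfl⟩
          exact hT.mem x hx
        · rw [finrank_cjS]
          have h5 : Function.Injective ((mulVecLin T).domRestrict U) := by
            rw [injective_iff_map_eq_zero]
            intro x hx
            exact Subtype.ext (hT.inj hU x x.2 hx)
          have h6 := LinearMap.finrank_range_of_inj h5
          rw [LinearMap.range_domRestrict] at h6
          rw [h6]
      rw [← hmap] at hw
      obtain ⟨x, hx, rfl⟩ := hw
      exact huw (hcon u hu x hx)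
    · change om g (X *ᵥ u) (T *ᵥ v) + om g u (T *ᵥ (X *ᵥ v)) = 0
      have e3 : T *ᵥ (X *ᵥ v) = X *ᵥ (T *ᵥ v) := by
        rw [mulVec_mulVec, mulVec_mulVec, hT.comm X hX]
      rw [e3]
      exact h.om_sp hX u (T *ᵥ v)
    · exact hT.symm h ha u hu v hv
  · obtain ⟨φ, d, kq⟩ := quad_of_no_bar h hU hdim ha hT
    obtain ⟨α, hα, hm⟩ := kq.exists_root h hU
    have hkw := kq.kw h hα hm hU.1
    have hLC : LC h U := by
      refine kq.lc3 h (fun V hV => ?_) (fun h6 => disc_six hodd h hZ hkw h6) hU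
      obtain ⟨β, hβ, hmV⟩ := kq.exists_root h hV
      have e1 := kq.dim h hβ hmV hV.1
      have htr := tr_odd hodd h hZ hV (RingEquiv.refl ℂ)
      have hcj : cjS (RingEquiv.refl ℂ) V = V := by
        ext v
        exact Iff.rfl
      rw [hcj] at htr
      omega
    have htr := tr_odd hodd h hZ hU (RingEquiv.refl ℂ)
    have hcj : cjS (RingEquiv.refl ℂ) U = U := by
      ext v
      exact Iff.rfl
    rw [hcj] at htr
    refine ⟨hLC.rk (by omega), by omega, Or.inr ⟨φ, α, d, kq, hkw, hg46, ?_,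
      fun h6 => disc_six hodd h hZ hkw h6⟩⟩
    unfold tr
    omega

end

end Pool.Agent.N994.PG
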