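import Mathlib
import Pool.Agent.N994.PG.HRing
import Pool.Agent.N994.PG.FiveSeven
import Pool.Agent.R915.QE3

/-!
# Determinant forms of balanced eigenspaces belong to the ring
-/

set_option linter.unusedSectionVars false

namespace Pool.Agent.N994.PG

open Matrix Module Pool.Agent.W437.HC Pool.Agent.W437.HD Pool.Agent.TH504.CB Pool.Agent.Y90
open Pool.Agent.R915
open Pool.Agent.W548.Odd hiding cv
open Pool.Agent.H204R3.CM (IsHodge)
open Pool.Agent.H204R3.SP (Kills bil2 IsTate)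
open Pool.Agent.W437.HP (cK cK_mul cK_one)

noncomputable section

section n1

variable {ι : Type} [Fintype ι] [DecidableEq ι] {B B₁ : Type} [Fintype B] [Fintype B₁]
  (A : (B₁ → ℂ) [⋀^ι]→ₗ[ℂ] ℂ)

/-- The alternation of an alternating form composed with linear maps. -/
def N1 (R : ι → Matrix B₁ B ℂ) (v : ι → B → ℚ) : ℂ :=
  ∑ σ : Equiv.Perm ι, ((Equiv.Perm.sign σ : ℤ) : ℂ) * A (fun y => R y *ᵥ cv (v (σ y)))

/-- The multilinear map. -/
def N1L : MultilinearMap ℂ (fun _ : ι => Matrix B₁ B ℂ) ((ι → B → ℚ) → ℂ) :=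
  MultilinearMap.pi fun v => ∑ σ : Equiv.Perm ι, ((Equiv.Perm.sign σ : ℤ) : ℂ) •
    A.toMultilinearMap.compLinearMap fun y => mvL (cv (v (σ y)))

theorem N1L_apply (R : ι → Matrix B₁ B ℂ) : N1L A R = N1 A R := by
  funext v
  unfold N1L N1
  rw [MultilinearMap.pi_apply, _root_.sum_apply]
  refine Finset.sum_congr rfl fun σ _ => ?_
  rw [_root_.smul_apply, MultilinearMap.compLinearMap_apply, smul_eq_mul]
  rfl

theorem N1_sym (R : ι → Matrix B₁ B ℂ) (τ : Equiv.Perm ι) :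
    N1 A (fun y => R (τ y)) = N1 A R := by
  funext v
  unfold N1
  rw [← Equiv.sum_comp (Equiv.mulRight τ)
    (fun σ : Equiv.Perm ι => ((Equiv.Perm.sign σ : ℤ) : ℂ) *
      A (fun y => R (τ y) *ᵥ cv (v (σ y))))]
  refine Finset.sum_congr rfl fun σ _ => ?_
  have h4 : (Equiv.mulRight τ) σ = σ * τ := rfl
  have e1 : A (fun y => R (τ y) *ᵥ cv (v ((σ * τ) y))) =
      Equiv.Perm.sign τ • A (fun y => R y *ᵥ cv (v (σ y))) := by
    rw [← AlternatingMap.map_perm]
    rfl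
  rw [h4, e1, Equiv.Perm.sign_mul, Units.smul_def, zsmul_eq_mul]
  have s1 : (((Equiv.Perm.sign τ : ℤˣ) : ℤ) : ℂ) * (((Equiv.Perm.sign τ : ℤˣ) : ℤ) : ℂ) = 1 := by
    rw [← Int.cast_mul, ← Units.val_mul, Int.units_mul_self, Units.val_one, Int.cast_one]
  rw [Units.val_mul, Int.cast_mul]
  linear_combination (((Equiv.Perm.sign σ : ℤˣ) : ℤ) : ℂ) * A (fun y => R y *ᵥ cv (v (σ y))) * s1

/-- Reduction to the diagonal. -/
theorem N1_mem (S : Submodule ℂ ((ι → B → ℚ) → ℂ)) (T₁ : AddSubmonoid (Matrix B₁ B ℂ))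
    (h : ∀ R ∈ T₁, N1 A (fun _ => R) ∈ S)
    (R : ι → Matrix B₁ B ℂ) (hR : ∀ y, R y ∈ Submodule.span ℂ (T₁ : Set (Matrix B₁ B ℂ))) :
    N1 A R ∈ S := by
  have h2 : ∀ (x : ι → Matrix B₁ B ℂ) (τ : Equiv.Perm ι),
      N1L A (fun k => x (τ k)) = N1L A x := by
    intro x τ
    rw [N1L_apply, N1L_apply]
    exact N1_sym A x τ
  have h3 : ∀ x ∈ T₁, N1L A (fun _ => x) ∈ S := by
    intro x hx
    rw [N1L_apply]
    exact h x hx
  have h4 := polar_mem (N1L A) S T₁ h2 h3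
  have h5 := multi_span (N1L A) S T₁ h4 R hR
  rwa [N1L_apply] at h5

end n1

section one

variable {a : ℕ} {Z : Matrix (Fin a) (Fin a) ℂ} (h : PM Z)
  {U : Submodule ℂ (Fin a ⊕ Fin a → ℂ)} {φ : Matrix (Fin a ⊕ Fin a) (Fin a ⊕ Fin a) ℚ} {α : ℂ}
  {d : ℚ} (k : KW Z U φ α d) {ι : Type} [Fintype ι] [DecidableEq ι] (f : Basis ι ℂ U)
  (t : tr Z U = 0)

include h t in
theorem dl_kill : ∀ X ∈ LS Z, act X (CF (k.dl f)) = 0 := by
  have h1 : LS Z ≤ LinearMap.ker (actL (CF (k.dl f))) := by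
    refine Submodule.span_le.2 ?_
    rintro _ ⟨σ, rfl⟩
    rw [SetLike.mem_coe, LinearMap.mem_ker, actL_apply]
    refine kill_of_inv (DS_sq h.det σ) fun w => ?_
    have e1 := k.dl_tor h f σ w
    have e2 : tr Z (cjS σ.symm U) = 0 := by
      rcases k.tr_cj σ.symm with ⟨-, h3⟩ | ⟨-, h3⟩ <;> rw [h3, t]
      rfl
    rw [e1, e2, zpow_zero, one_mul]
  intro X hX
  have h2 := h1 hX
  rwa [LinearMap.mem_ker, actL_apply] at h2

include h t in
/-- The rational parts are Hodge classes. -/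
theorem dl_hodge (l : ℂ →ₗ[ℚ] ℚ) : IsHodge (perOne Z) (ratA (k.dl f) l) :=
  h.cht.hodge_rat gal_LS DZ_memS (dl_kill h k f t) l

/-- The endomorphism may be moved in the rational parts. -/
theorem dl_move (l : ℂ →ₗ[ℚ] ℚ) (v : ι → Fin a ⊕ Fin a → ℚ) (j : ι) :
    ratA (k.dl f) l (Function.update v j (φ *ᵥ v j)) =
      ∑ σ : Equiv.Perm ι, ((Equiv.Perm.sign σ : ℤ) : ℚ) *
        l (α * k.dl f (fun j => cv (v (σ j)))) := by
  rw [ratA_apply]
  refine Finset.sum_congr rfl fun σ _ => ?_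
  congr 2
  rw [← k.dl_phi f _ (σ.symm j)]
  congr 1
  funext i
  by_cases hi : i = σ.symm j
  · subst hi
    rw [Function.update_self, Equiv.apply_symm_apply, Function.update_self]
    funext i
    simp [cv, mulVec, dotProduct]
  · rw [Function.update_of_ne hi, Function.update_of_ne]
    intro h
    exact hi (by rw [← h, Equiv.symm_apply_apply])

include h in
theorem endQuad_of_qf (kq : QF Z φ d) : EndQuad (AVZ h) d (Matrix.toLin' φ) where
  pos := kq.pos
  hom := (hom_iff h φ).2 kq.comm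
  sq w := by
    change φ *ᵥ (φ *ᵥ w) = -(d • w)
    rw [mulVec_mulVec, kq.sq, neg_mulVec, smul_mulVec, one_mulVec]
  max ψ hψ := by
    obtain ⟨x, y, hxy⟩ := kq.max (LinearMap.toMatrix' ψ) ((hom_iff' h ψ).1 hψ)
    refine ⟨x, y, ?_⟩
    have h1 := congrArg Matrix.toLin' hxy
    rw [Matrix.toLin'_toMatrix', map_add, map_smul, map_smul, Matrix.toLin'_one] at h1
    exact h1

include k h t in
/-- The rational parts of the determinant form belong to the ring. -/
theorem dl_ring (kq : QF Z φ d) (hs : IsSimple (AVZ h)) (hn : a = 4 ∨ a = 6)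
    (hdisc : a = 6 → HasTrivialDisc (AVZ h) d (Matrix.toLin' φ)) (l : ℂ →ₗ[ℚ] ℚ) :
    PRing (AVZ h) ι (ratA (k.dl f) l) := by
  have hc : Fintype.card ι = a := by rw [← finrank_eq_card_basis f, k.dim]
  let e : ι ≃ Fin a := Fintype.equivFinOfCardEq hc
  have hw : IsWeilClass (AVZ h) a ((ratA (k.dl f) l).domDomCongr e) := by
    refine ⟨?_, isHodge_congr e (dl_hodge h k f t l), d, Matrix.toLin' φ, k.pos,
      (hom_iff h φ).2 kq.comm, fun w => ?_, fun v i j => ?_, fun h6 => hdisc h6⟩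
    · change finrank ℚ (Fin a ⊕ Fin a → ℚ) = 2 * a
      rw [finrank_fintype_fun_eq_card]
      simp only [Fintype.card_sum, Fintype.card_fin]
      omega
    · exact (endQuad_of_qf h kq).sq w
    · have key : ∀ i, (ratA (k.dl f) l).domDomCongr e
          (Function.update v i (Matrix.toLin' φ (v i))) =
          ∑ σ : Equiv.Perm ι, ((Equiv.Perm.sign σ : ℤ) : ℚ) *
            l (α * k.dl f (fun j => cv (v (e (σ j))))) := by
        intro i
        rw [AlternatingMap.domDomCongr_apply, toLin'_apply]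
        have h1 := dl_move k f l (fun j => v (e j)) (e.symm i)
        rw [Equiv.apply_symm_apply] at h1
        rw [← h1]
        congr 1
        funext j
        rw [Function.comp_apply]
        by_cases hj : j = e.symm i
        · subst hj
          rw [Equiv.apply_symm_apply, Function.update_self, Function.update_self]
        · rw [Function.update_of_ne hj, Function.update_of_ne]
          intro h
          exact hj (by rw [← h, Equiv.symm_apply_apply])
      rw [key i, key j]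
  have h3 := PRing.weil (X := AVZ h) hn hs (endQuad_of_qf h kq) _ hw LinearMap.id
    ⟨LinearMap.id, fun v => rfl⟩
  have h4 := h3.reindex e.symm
  have h5 : ((((ratA (k.dl f) l).domDomCongr e).compLinearMap LinearMap.id).domDomCongr e.symm) =
      ratA (k.dl f) l := by
    ext v
    rw [AlternatingMap.domDomCongr_apply, AlternatingMap.compLinearMap_apply,
      AlternatingMap.domDomCongr_apply]
    congr 1
    funext k
    simp
  rw [← h5]
  exact h4

include k h t in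
theorem dl_alt (kq : QF Z φ d) (hs : IsSimple (AVZ h)) (hn : a = 4 ∨ a = 6)
    (hdisc : a = 6 → HasTrivialDisc (AVZ h) d (Matrix.toLin' φ)) :
    altQ (k.dl f) ∈ RP (AVZ h) ι := by
  obtain ⟨m, c, l, hl⟩ := altQ_expand (k.dl f)
  have h1 : altQ (k.dl f) = ∑ j, c j • fun v : ι → (AVZ h).H =>
      ((ratA (k.dl f) (l j) v : ℚ) : ℂ) := by
    funext v
    rw [hl, Finset.sum_apply]
    rfl
  rw [h1]
  refine Submodule.sum_mem _ fun j _ => Submodule.smul_mem _ _ ?_
  exact RP_of (X := AVZ h) (dl_ring h k f t kq hs hn hdisc (l j))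

end one

/-- Pull-backs of the complex span. -/
theorem RP_pull {X Y : AV} {κ : Type} (h : Y.H →ₗ[ℚ] X.H) (hh : IsHom Y X h)
    {g : (κ → X.H) → ℂ} (hg : g ∈ RP X κ) : (fun v => g (fun k => h (v k))) ∈ RP Y κ := by
  unfold RP at hg
  induction hg using Submodule.span_induction with
  | mem g hg =>
    obtain ⟨r, hr, rfl⟩ := hg
    exact RP_of (hr.pull h hh)
  | zero => exact Submodule.zero_mem _
  | add x y _ _ hx hy => exact Submodule.add_mem _ hx hy
  | smul c x _ hx => exact Submodule.smul_mem _ c hx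

section two

variable {G : ℕ} {Z : Matrix (Fin G) (Fin G) ℂ} (h : PM Z)
  {W : Submodule ℂ (Fin G ⊕ Fin G → ℂ)} {a : ℕ} {Z' : Matrix (Fin a) (Fin a) ℂ}
  {E : Matrix (Fin G ⊕ Fin G) (Fin a ⊕ Fin a) ℚ} {F : Matrix (Fin a ⊕ Fin a) (Fin G ⊕ Fin G) ℚ}
  {φ : Matrix (Fin a ⊕ Fin a) (Fin a ⊕ Fin a) ℚ} {α : ℂ} {d : ℚ} (k : KX Z W a Z' E F φ α d)
  {ι : Type} [ι₁ : Fintype ι] [ι₂ : DecidableEq ι] (f : Basis ι ℂ W)

include h in
/-- The determinant forms composed with equivariant maps. -/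
theorem det_memP (kq : QF Z' φ d) (hs : IsSimple (AVZ k.pm)) (t : tr Z' (W.map (ml F)) = 0)
    (hn : a = 4 ∨ a = 6) (q : ι → (Fin G ⊕ Fin G → ℂ) →ₗ[ℂ] W)
    (hq : ∀ y g x, (q y (RZ Z g x) : Fin G ⊕ Fin G → ℂ) = RZ Z g (q y x))
    (ψ : MultilinearMap ℂ (fun _ : ι => Fin G ⊕ Fin G → ℂ) ℂ)
    (hψ : ∀ v, ψ v = f.det (fun y => q y (v y))) : ψ ∈ NP h ι := by
  intro i1 i2
  obtain rfl : i1 = ι₁ := Subsingleton.elim _ _
  obtain rfl : i2 = ι₂ := Subsingleton.elim _ _
  have h1 : altQ ψ = N1 (k.kw.alt (f.map k.eqv)) (fun y => qmat F (q y)) := by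
    funext v
    unfold altQ N1
    refine Finset.sum_congr rfl fun σ _ => ?_
    rw [hψ, k.alt_q f q (fun y => cv (v (σ y)))]
  rw [h1]
  refine N1_mem (k.kw.alt (f.map k.eqv)) (RP (AVZ h) ι) (TT Z Z') ?_ _
    (fun y => exp_mem fun σ => k.qmat_comm h (fun g x => hq y g x) σ)
  rintro _ ⟨R, rfl, hR⟩
  obtain ⟨Ψ, hΨ⟩ := h.cht.hom k.pm.cht (R := R) (by rw [DJ_JR, DJ_JR]; exact hR)
  have h2 := RP_pull (X := AVZ k.pm) (Y := AVZ h) (Matrix.toLin' R)
    ⟨Ψ, fun v => by rw [toLin'_apply]; exact hΨ v⟩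
    (dl_alt k.pm k.kw (f.map k.eqv) t kq hs hn k.disc)
  have h3 : N1 (k.kw.alt (f.map k.eqv)) (fun _ => cK ℂ R) =
      fun v : ι → (AVZ h).H => altQ (k.kw.dl (f.map k.eqv))
        (fun k => Matrix.toLin' R (v k)) := by
    funext v
    unfold altQ N1
    refine Finset.sum_congr rfl fun σ _ => ?_
    congr 1
    change k.kw.dl (f.map k.eqv) _ = k.kw.dl (f.map k.eqv) _
    congr 1
    funext y i
    simp [cv, mulVec, dotProduct, cK]
  rw [h3]
  exact h2

end two

end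

end Pool.Agent.N994.PG
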