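import Mathlib
import Pool.Agent.N994.PG.HDet
import Pool.Agent.N994.PG.DivMain

/-!
# Hodge classes belong to the ring
-/

set_option linter.unusedSectionVars false

namespace Pool.Agent.N994.PG

open Matrix Module Pool.Agent.W437.HC Pool.Agent.W437.HD Pool.Agent.TH504.CB Pool.Agent.Y90
open Pool.Agent.R915
open Pool.Agent.W548.Odd hiding cv
open Pool.Agent.H204R3.CM (IsHodge)
open Pool.Agent.H204R3.SP (Kills bil2 IsTate)
open Pool.Agent.W522.U (exists_reps exists_st Du)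
open Pool.Agent.W437.HP (cK cK_mul cK_one)

noncomputable section

variable {G : ℕ} {Z : Matrix (Fin G) (Fin G) ℂ}

/-- The condition on an irreducible submodule of dimension at least two. -/
structure GU (Z : Matrix (Fin G) (Fin G) ℂ) (U : Submodule ℂ (Fin G ⊕ Fin G → ℂ)) : Prop where
  rk : Rk1 Z U
  ns : ∀ (σ : ℂ ≃+* ℂ) (c : ℂ), ∃ u ∈ U, DS Z σ *ᵥ u ≠ c • u
  or : SDu Z U ∨ ∃ (a : ℕ) (Z' : Matrix (Fin a) (Fin a) ℂ)
    (E : Matrix (Fin G ⊕ Fin G) (Fin a ⊕ Fin a) ℚ) (F : Matrix (Fin a ⊕ Fin a) (Fin G ⊕ Fin G) ℚ)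
    (φ : Matrix (Fin a ⊕ Fin a) (Fin a ⊕ Fin a) ℚ) (α : ℂ) (d : ℚ)
    (k : KX Z U a Z' E F φ α d), QF Z' φ d ∧ IsSimple (AVZ k.pm) ∧
      tr Z' (U.map (ml F)) = 0 ∧ (a = 4 ∨ a = 6)

/-- Transfer from the factors. -/
theorem gu_of_ld (h : PM Z) {a : ℕ} {Z' : Matrix (Fin a) (Fin a) ℂ}
    {E : Matrix (Fin G ⊕ Fin G) (Fin a ⊕ Fin a) ℚ} {F : Matrix (Fin a ⊕ Fin a) (Fin G ⊕ Fin G) ℚ}
    (hf : Fac Z Z' E F) (h' : PM Z') (hs : IsSimpleAV Z') (ha : 0 < a)
    {U : Submodule ℂ (Fin G ⊕ Fin G → ℂ)} (hU : IrS (LZ Z) U) (h0 : ∃ u ∈ U, ml F u ≠ 0)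
    (hL : LD h' (U.map (ml F))) : GU Z U := by
  have hinj := hf.inj hU h0
  have hU' := hf.irr hU h0
  obtain ⟨h1, hn', h2⟩ := hL
  have hns : ∀ (σ : ℂ ≃+* ℂ) (c : ℂ), ∃ u ∈ U.map (ml F), DS Z' σ *ᵥ u ≠ c • u := by
    intro σ c
    rcases h2 with h3 | ⟨φ, α, d, kq, kw, -⟩
    · exact ns_of_sdu h' h3 σ c
    · exact kq.nonscalar h' kw.al kw.mem hU' hn' σ c
  refine ⟨?_, fun σ c => ?_, ?_⟩
  · obtain ⟨D, hD, N', hN', h3, h4, h5⟩ := h1
    obtain ⟨ε, hε, rfl⟩ : ∃ ε : ℂ, (ε = 1 ∨ ε = -1) ∧ D = ε • DZ Z' := by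
      rcases hD with rfl | rfl
      · exact ⟨1, Or.inl rfl, (one_smul _ _).symm⟩
      · exact ⟨-1, Or.inr rfl, (neg_one_smul _ _).symm⟩
    obtain ⟨N, hN, h6, h7, rfl⟩ := hf.lift_rk h h' ε hε hN' h3 h4
    refine ⟨ε • DZ Z, ?_, N, hN, h6, h7, ?_⟩
    · rcases hε with rfl | rfl
      · exact Or.inl (one_smul _ _)
      · exact Or.inr (neg_one_smul _ _)
    · rw [act_mem hf hN hinj (hU.2.1 N hN)]
      exact h5
  · obtain ⟨u', ⟨u, hu, rfl⟩, hu'⟩ := hns σ c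
    refine ⟨u, hu, fun h3 => hu' ?_⟩
    have h4 := hf.act (DS_mem σ) u
    rw [h3, hf.fds, Matrix.mul_assoc, hf.fe', Matrix.mul_one] at h4
    rw [← h4, map_smul]
  · rcases h2 with ⟨b, ⟨u', ⟨u, hu, rfl⟩, v', ⟨v, hv, rfl⟩, huv⟩, hb⟩ |
      ⟨φ, α, d, kq, kw, h46, ht, hdc⟩
    · refine Or.inl ⟨b.compl₁₂ (ml F) (ml F), ⟨u, hu, v, hv, huv⟩, fun X hX u hu v hv => ?_⟩
      rw [LinearMap.compl₁₂_apply, LinearMap.compl₁₂_apply, hf.act hX, hf.act hX]
      exact hb _ (hf.comp hX).1 _ ⟨u, hu, rfl⟩ _ ⟨v, hv, rfl⟩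
    · refine Or.inr ⟨a, Z', E, F, φ, α, d, ⟨hf, h', hinj, kw, ?_, hdc⟩, kq,
        simple_of a h' hs ha, ht, h46⟩
      rw [ht]
      omega

theorem dim_dual (h : PM Z) {U U' : Submodule ℂ (Fin G ⊕ Fin G → ℂ)} (hU : IrS (LZ Z) U)
    (hU' : IrS (LZ Z) U') (hd : Du (RZ Z) 1 U U') : finrank ℂ U' = finrank ℂ U := by
  obtain ⟨b, h0, hb⟩ := (rz_du h hU.2.1 hU'.2.1).1 hd
  have h0' : ∃ u ∈ U', ∃ v ∈ U, b.flip u v ≠ 0 := by
    obtain ⟨u, hu, v, hv, huv⟩ := h0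
    exact ⟨v, hv, u, hu, huv⟩
  have hb' : ∀ X ∈ LZ Z, ∀ u ∈ U', ∀ v ∈ U, b.flip (X *ᵥ u) v + b.flip u (X *ᵥ v) = 0 := by
    intro X hX u hu v hv
    rw [LinearMap.flip_apply, LinearMap.flip_apply, add_comm]
    exact hb X hX v hv u hu
  have e1 := dual_le h hU hU'.2.1 h0 hb (Or.inl rfl)
  have e2 := dual_le h hU hU'.2.1 h0 hb (Or.inr rfl)
  have e3 := dual_le h hU' hU.2.1 h0' hb' (Or.inl rfl)
  have e4 := dual_le h hU' hU.2.1 h0' hb' (Or.inr rfl)
  rw [neg_neg] at e2 e4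
  have p1 := pd_add_qd h hU.2.1
  have p2 := pd_add_qd h hU'.2.1
  unfold pd qd at p1 p2
  omega

variable (h : PM Z) (hloc : ∀ U, IrS (LZ Z) U → 2 ≤ finrank ℂ U → GU Z U)
  (hline : LineCond Z)
include h hloc hline

theorem inv_memP {m : ℕ}
    (φ : MultilinearMap ℂ (fun _ : Fin m × Fin 2 => Fin G ⊕ Fin G → ℂ) ℂ)
    (hφ : ∀ (g : Gam (GG (LZ Z))) v, φ (fun k => RZ Z g (v k)) = φ v) :
    φ ∈ NP h (Fin m × Fin 2) := by
  have hSI : ∀ {U}, W522.U.SI (RZ Z) U ↔ IrS (LZ Z) U := fun {U} => si_iff h.genI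
  obtain ⟨s, W, hW, hWW, hall⟩ := exists_reps (rz_proj h)
  obtain ⟨st, hst, hDu, hDu'⟩ := exists_st (χ := 1) (rz_proj h) (om G) om_nd (rz_om h) W hW hWW hall
  refine forms_mem' (χ := 1) (fun Δ hΔ => fi_top Δ hΔ) (om G) om_nd (rz_om h) ?_ ?_ ?_ (rz_proj h)
    W hW hWW hall st hst hDu hDu' (fun κ _ => NP h κ) (clo_NP h) (pair_memP h) ?_ φ ?_
  · intro U hU hn
    exact rz_unip h (hloc U (hSI.1 hU) hn).rk
  · intro U hU hn
    exact rz_line h (hSI.1 hU) hn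
  · intro U U' hU hU' hn _ ψ hT
    exact rz_twist h (hSI.1 hU) (hSI.1 hU') (hloc U (hSI.1 hU) hn).ns ψ hT
  · intro a ha hag ι _ _ f p hp ψ hψ
    have hsum := bal_sum h W (fun i => hSI.1 (hW i)) st hst hDu a ha hag
    have hpos : ∀ i, 0 < finrank ℂ (W i) := fun i => by
      rw [Nat.pos_iff_ne_zero, ne_eq, Submodule.finrank_eq_zero]
      exact (hSI.1 (hW i)).1
    -- the submodules which are not lines
    have hbig : ∀ i, finrank ℂ (W i) ≠ 1 → a i ≠ 0 → ∃ (b : ℕ) (Z' : Matrix (Fin b) (Fin b) ℂ)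
        (E : Matrix (Fin G ⊕ Fin G) (Fin b ⊕ Fin b) ℚ)
        (F : Matrix (Fin b ⊕ Fin b) (Fin G ⊕ Fin G) ℚ)
        (φ : Matrix (Fin b ⊕ Fin b) (Fin b ⊕ Fin b) ℚ) (α : ℂ) (d : ℚ)
        (k : KX Z (W i) b Z' E F φ α d), QF Z' φ d ∧ IsSimple (AVZ k.pm) ∧
          tr Z' ((W i).map (ml F)) = 0 ∧ (b = 4 ∨ b = 6) := by
      intro i h1 h2
      have h3 := hpos i
      rcases (hloc _ (hSI.1 (hW i)) (by omega)).or with h4 | h4
      · exfalso
        have h5 := hDu' i i ((rz_du h (hSI.1 (hW i)).2.1 (hSI.1 (hW i)).2.1).2 h4)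
        have h6 := ha i
        rw [← h5] at h6
        omega
      · exact h4
    have htr0 : ∀ i, finrank ℂ (W i) ≠ 1 → a i ≠ 0 → ∀ τ : ℂ ≃+* ℂ, tr Z (cjS τ (W i)) = 0 := by
      intro i h1 h2 τ
      obtain ⟨b, Z', E, F, φ, α, d, k, -, -, ht, -⟩ := hbig i h1 h2
      rw [k.tr_rho (hSI.1 (hW i)).2.1 τ, ht, zero_mul]
    let a' : Fin s → ℤ := fun i => if finrank ℂ (W i) = 1 then a i else 0
    have hdimst : ∀ i, finrank ℂ (W (st i)) = finrank ℂ (W i) := by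
      intro i
      exact dim_dual h (hSI.1 (hW i)) (hSI.1 (hW (st i))) (hDu i)
    have hline0 : ∀ i, a' i = 0 := by
      refine hline W (fun i => hSI.1 (hW i)) st hst hDu hDu' a' (fun i => ?_) (fun i hi => ?_)
        (fun τ => ?_)
      · change (if finrank ℂ (W (st i)) = 1 then a (st i) else 0) =
          -(if finrank ℂ (W i) = 1 then a i else 0)
        rw [hdimst, ha]
        split_ifs
        · rfl
        · rw [neg_zero]
      · by_contra h1
        exact hi (if_neg h1)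
      · have h1 := hsum τ
        rw [Fintype.sum_sigma] at h1 ⊢
        rw [← h1]
        refine Finset.sum_congr rfl fun i _ => ?_
        have e1 : ∑ _q : Fin (a' i).toNat, tr Z (cjS τ (W i)) =
            ((a' i).toNat : ℤ) * tr Z (cjS τ (W i)) := by
          rw [Finset.sum_const, Finset.card_univ, Fintype.card_fin, nsmul_eq_mul]
        have e2 : ∑ _q : Fin (a i).toNat, tr Z (cjS τ (W i)) =
            ((a i).toNat : ℤ) * tr Z (cjS τ (W i)) := by
          rw [Finset.sum_const, Finset.card_univ, Fintype.card_fin, nsmul_eq_mul]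
        refine e1.trans (Eq.trans ?_ e2.symm)
        by_cases h2 : finrank ℂ (W i) = 1
        · have h3 : a' i = a i := if_pos h2
          rw [h3]
        · have h3 : a' i = 0 := if_neg h2
          rw [h3]
          by_cases h4 : a i = 0
          · rw [h4]
          · rw [htr0 i h2 h4 τ, mul_zero, mul_zero]
    -- the product
    let P : ∀ q : (Σ i, Fin (a i).toNat), MultilinearMap ℂ (fun _ : ι q => Fin G ⊕ Fin G → ℂ) ℂ :=
      fun q => (f q).det.toMultilinearMap.compLinearMap (fun y => p q y)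
    have hP : ∀ q, P q ∈ NP h (ι q) := by
      rintro ⟨i, q⟩
      have h1 := q.2
      have h2 : a i ≠ 0 := by omega
      have h3 : finrank ℂ (W i) ≠ 1 := by
        intro h4
        have h5 := hline0 i
        have h6 : a' i = a i := if_pos h4
        rw [h6] at h5
        exact h2 h5
      obtain ⟨b, Z', E, F, φ, α, d, k, kq, hs, ht, hb⟩ := hbig i h3 h2
      exact det_memP h k (f ⟨i, q⟩) kq hs ht hb (p ⟨i, q⟩) (hp ⟨i, q⟩) _ fun v => rfl
    obtain ⟨Ψ, hΨ, hΨ'⟩ := (clo_NP h).exists_fam ι P hP (Equiv.refl _)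
    have h1 : ψ = Ψ := by
      refine MultilinearMap.ext fun v => ?_
      rw [hψ, hΨ']
      rfl
    rw [h1]
    exact hΨ
  · refine ⟨⊤, inferInstance, fun g _ v => ?_⟩
    rw [MonoidHom.one_apply, one_pow, one_mul]
    exact hφ g v

/-- Hodge classes belong to the ring. -/
theorem ring_of_hodge {κ : Type} [Finite κ] (f : (Fin G ⊕ Fin G → ℚ) [⋀^κ]→ₗ[ℚ] ℚ)
    (hf : IsHodge (perOne Z) f) : PRing (AVZ h) κ f := by
  classical
  let _ : Fintype κ := Fintype.ofFinite κ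
  refine altQ_altP h f ?_
  set φ := evalM (cst ℂ (CF f.toMultilinearMap)) with hφ
  have hinv := hodge_inv h hf
  rcases Nat.even_or_odd (Fintype.card κ) with he | ho
  · obtain ⟨m, hm⟩ := he
    have e : κ ≃ Fin m × Fin 2 := Fintype.equivOfCardEq (by
      rw [Fintype.card_prod, Fintype.card_fin, Fintype.card_fin, hm]
      ring)
    have h1 := inv_memP h hloc hline (φ.domDomCongr e) (fun g v => by
      rw [MultilinearMap.domDomCongr_apply, MultilinearMap.domDomCongr_apply]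
      exact hinv g _)
    have h2 : φ ∈ NP h κ := (clo_NP h).reindex e.symm h1 φ fun v => by
      rw [MultilinearMap.domDomCongr_apply]
      congr 1
      funext k
      simp
    exact h2 _ _
  · have h0 : φ = 0 := by
      refine MultilinearMap.ext fun v => ?_
      have h1 := hinv (gt (D := ph _ (DZ Z)) (by rw [← map_mul, DZ_sq h.det, map_one])
        (mem_GG.2 DZ_mem) (-1)) v
      have h2 : (fun k => RZ Z (gt (D := ph _ (DZ Z)) (by rw [← map_mul, DZ_sq h.det, map_one])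
        (mem_GG.2 DZ_mem) (-1)) (v k)) = fun k => (-1 : ℂ) • v k := by
        funext k
        change torE (ph _ (DZ Z)) (-1) (v k) = _
        rw [torE_apply]
        simp only [Units.val_neg, Units.val_one, inv_neg]
        module
      rw [h2, MultilinearMap.map_smul_univ, Finset.prod_const, Finset.card_univ,
        Odd.neg_one_pow ho, neg_one_smul] at h1
      rw [← hφ] at h1
      have h3 : φ v = 0 := by linear_combination (-1 / 2 : ℂ) * h1
      rw [h3]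
      rfl
    have h1 : φ ∈ NP h κ := by
      rw [h0]
      exact Submodule.zero_mem _
    exact h1 _ _

end

end Pool.Agent.N994.PG
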