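import Mathlib
import Pool.Agent.R915.D8

/-!
# Ideals of three-graded Lie algebras of matrices
-/

set_option linter.unusedSectionVars false

namespace Pool.Agent.N994.PG

open Matrix Module
open Pool.Agent.Y4.G (Lie trace_idemM)
open Pool.Agent.Y4.G.Lie (pos mem_pos)
open Pool.Agent.R915 (Trp pos_ne_bot eq_of_mulVec)

open scoped ComplexOrder

variable {B : Type*} [Fintype B] [DecidableEq B]

/-- Orthogonal projections of matrices. -/
theorem exists_orthM (J : Submodule ℂ (Matrix B B ℂ)) (X : Matrix B B ℂ) :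
    ∃ Y ∈ J, ∀ W ∈ J, trace ((X - Y) * Wᴴ) = 0 := by
  let L : Matrix B B ℂ ≃ₗ[ℂ] EuclideanSpace ℂ (B × B) :=
    (LinearEquiv.curry ℂ ℂ B B).symm.trans (WithLp.linearEquiv 2 ℂ (B × B → ℂ)).symm
  have hL : ∀ (V : Matrix B B ℂ) (x : B × B), (L V) x = V x.1 x.2 := fun V x => rfl
  obtain ⟨y, hy, z, hz, e⟩ := (J.map L.toLinearMap).exists_add_mem_mem_orthogonal (L X)
  obtain ⟨Y, hY, rfl⟩ := hy
  refine ⟨Y, hY, fun W hW => ?_⟩
  have h1 := (Submodule.mem_orthogonal _ z).1 hz (L W) ⟨W, hW, rfl⟩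
  have h2 : z = L (X - Y) := by
    rw [map_sub, e]
    change z = L Y + z - L Y
    abel
  rw [h2, PiLp.inner_apply] at h1
  have h3 : trace ((X - Y) * Wᴴ) = ∑ x : B × B, (X - Y) x.1 x.2 * star (W x.1 x.2) := by
    rw [trace, Fintype.sum_prod_type]
    refine Finset.sum_congr rfl fun i _ => ?_
    rw [diag_apply, mul_apply]
    rfl
  rw [h3, ← h1]
  refine Finset.sum_congr rfl fun x _ => ?_
  rw [hL, hL, RCLike.inner_apply]
  rfl

variable {G : Submodule ℂ (Matrix B B ℂ)} {P Q : Matrix B B ℂ} {a b : ℕ}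

/-- Ideals. -/
structure IsId (G J : Submodule ℂ (Matrix B B ℂ)) : Prop where
  le : J ≤ G
  br : ∀ X ∈ G, ∀ Y ∈ J, X * Y - Y * X ∈ J

/-- The complement of an ideal. -/
theorem exists_compl (H : Lie G P Q a b) {J : Submodule ℂ (Matrix B B ℂ)} (hJ : IsId G J) :
    ∃ J', IsId G J' ∧ (∀ X ∈ G, ∃ Y ∈ J, ∃ Y' ∈ J', X = Y + Y') ∧
      (∀ Y ∈ J, ∀ Y' ∈ J', Y * Y' = Y' * Y) ∧ ∀ Y ∈ J, Y ∈ J' → Y = 0 := by
  let J' : Submodule ℂ (Matrix B B ℂ) :=
    { carrier := {X | X ∈ G ∧ ∀ Y ∈ J, trace (X * Yᴴ) = 0}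
      zero_mem' := ⟨G.zero_mem, fun Y _ => by rw [zero_mul, trace_zero]⟩
      add_mem' := fun {X X'} hX hX' => ⟨G.add_mem hX.1 hX'.1, fun Y hY => by
        rw [add_mul, trace_add, hX.2 Y hY, hX'.2 Y hY, add_zero]⟩
      smul_mem' := fun c X hX => ⟨G.smul_mem c hX.1, fun Y hY => by
        rw [Matrix.smul_mul, trace_smul, hX.2 Y hY, smul_zero]⟩ }
  have hJ' : ∀ X, X ∈ J' ↔ X ∈ G ∧ ∀ Y ∈ J, trace (X * Yᴴ) = 0 := fun _ => Iff.rfl
  have hdis : ∀ Y ∈ J, Y ∈ J' → Y = 0 := by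
    intro Y hY hY'
    have h1 := ((hJ' Y).1 hY').2 Y hY
    rwa [trace_mul_conjTranspose_self_eq_zero_iff] at h1
  have hid : IsId G J' := by
    refine ⟨fun X hX => ((hJ' X).1 hX).1, fun X hX Y' hY' => ?_⟩
    obtain ⟨h1, h2⟩ := (hJ' Y').1 hY'
    refine (hJ' _).2 ⟨H.br _ hX _ h1, fun Y hY => ?_⟩
    have h3 := h2 _ (hJ.br _ (H.ad X hX) Y hY)
    rw [conjTranspose_sub, conjTranspose_mul, conjTranspose_mul, conjTranspose_conjTranspose] at h3
    rw [← h3, mul_sub, sub_mul, trace_sub, trace_sub]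
    have e1 : trace (X * Y' * Yᴴ) = trace (Y' * (Yᴴ * X)) := by
      rw [mul_assoc, trace_mul_comm, mul_assoc]
    rw [e1, mul_assoc Y' X]
  refine ⟨J', hid, fun X hX => ?_, fun Y hY Y' hY' => ?_, hdis⟩
  · obtain ⟨Y, hY, h1⟩ := exists_orthM J X
    exact ⟨Y, hY, X - Y, (hJ' _).2 ⟨G.sub_mem hX (hJ.le hY), h1⟩, by abel⟩
  · have h1 := hid.br Y (hJ.le hY) Y' hY'
    have h2 := hJ.br Y' (hid.le hY') Y hY
    have h3 : Y * Y' - Y' * Y ∈ J := by
      have := J.neg_mem h2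
      rwa [neg_sub] at this
    exact sub_eq_zero.1 (hdis _ h3 h1)

/-- Two commuting ideals cannot both have elements of positive degree. -/
theorem no_two (H : Lie G P Q a b) {J J' : Submodule ℂ (Matrix B B ℂ)}
    (hJ : IsId G J) (hdec : ∀ X ∈ G, ∃ Y ∈ J, ∃ Y' ∈ J', X = Y + Y')
    (hcomm : ∀ Y ∈ J, ∀ Y' ∈ J', Y * Y' = Y' * Y) {x y : Matrix B B ℂ} (hx : x ∈ J)
    (hxp : x ∈ pos G P Q) (hy : y ∈ J') (hyp : y ∈ pos G P Q) (hy0 : y ≠ 0) : x = 0 := by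
  have hxy : x * y = 0 := by
    rw [← hxp.2.2, ← hyp.2.1, mul_assoc, ← mul_assoc Q, H.QP, zero_mul, mul_zero]
  let A := Algebra.adjoin ℂ (J : Set (Matrix B B ℂ))
  have hA : ∀ M ∈ A, ∀ Y' ∈ J', M * Y' = Y' * M := by
    intro M hM Y' hY'
    induction hM using Algebra.adjoin_induction with
    | mem X hX => exact hcomm X hX Y' hY'
    | algebraMap r => exact Algebra.commutes r Y'
    | add X X' _ _ h1 h2 => rw [add_mul, mul_add, h1, h2]
    | mul X X' _ _ h1 h2 => rw [mul_assoc, h2, ← mul_assoc, h1, mul_assoc]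
  let K : Submodule ℂ (B → ℂ) :=
    { carrier := {v | (P + Q) *ᵥ v = v ∧ ∀ M ∈ A, x *ᵥ (M *ᵥ v) = 0}
      zero_mem' := ⟨mulVec_zero _, fun M _ => by rw [mulVec_zero, mulVec_zero]⟩
      add_mem' := fun {v w} hv hw => ⟨by rw [mulVec_add, hv.1, hw.1], fun M hM => by
        rw [mulVec_add, mulVec_add, hv.2 M hM, hw.2 M hM, add_zero]⟩
      smul_mem' := fun c v hv => ⟨by rw [mulVec_smul, hv.1], fun M hM => by
        rw [mulVec_smul, mulVec_smul, hv.2 M hM, smul_zero]⟩ }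
  have hK : ∀ v, v ∈ K ↔ (P + Q) *ᵥ v = v ∧ ∀ M ∈ A, x *ᵥ (M *ᵥ v) = 0 := fun _ => Iff.rfl
  have hstab : ∀ X ∈ G, ∀ v ∈ K, X *ᵥ v ∈ K := by
    intro X hX v hv
    obtain ⟨h1, h2⟩ := (hK v).1 hv
    refine (hK _).2 ⟨by rw [mulVec_mulVec, H.lel X hX], fun M hM => ?_⟩
    obtain ⟨Y, hY, Y', hY', rfl⟩ := hdec X hX
    rw [add_mulVec, mulVec_add, mulVec_add]
    have e1 : x *ᵥ (M *ᵥ (Y *ᵥ v)) = 0 := by
      have h3 := h2 (M * Y) (A.mul_mem hM (Algebra.subset_adjoin hY))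
      rwa [← mulVec_mulVec] at h3
    have e2 : x *ᵥ (M *ᵥ (Y' *ᵥ v)) = 0 := by
      have h3 : x *ᵥ (M *ᵥ (Y' *ᵥ v)) = Y' *ᵥ (x *ᵥ (M *ᵥ v)) := by
        rw [mulVec_mulVec, mulVec_mulVec, mulVec_mulVec, mulVec_mulVec, mul_assoc, hA M hM Y' hY',
          ← mul_assoc, hcomm x hx Y' hY']
      rw [h3, h2 M hM, mulVec_zero]
    rw [e1, e2, add_zero]
  have hyK : ∀ v, y *ᵥ v ∈ K := by
    intro v
    refine (hK _).2 ⟨by rw [mulVec_mulVec, H.lel y hyp.1], fun M hM => ?_⟩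
    rw [mulVec_mulVec, mulVec_mulVec, mul_assoc, hA M hM y hy, ← mul_assoc, hxy, zero_mul,
      zero_mulVec]
  rcases H.irr K (fun v hv => ((hK v).1 hv).1) hstab with h1 | h1
  · exfalso
    apply hy0
    apply eq_of_mulVec
    intro v
    have h2 := hyK v
    rw [h1, Submodule.mem_bot] at h2
    rw [h2, zero_mulVec]
  · apply eq_of_mulVec
    intro v
    rw [zero_mulVec, ← H.ler x hxp.1, ← mulVec_mulVec]
    have h2 : (P + Q) *ᵥ ((P + Q) *ᵥ v) = (P + Q) *ᵥ v := by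
      rw [mulVec_mulVec, mul_add, add_mul, add_mul, H.PP, H.QP, H.PQ, H.QQ, add_zero, zero_add]
    have h3 := ((hK _).1 (h1 _ h2)).2 1 A.one_mem
    rwa [one_mulVec] at h3

/-- The elements of positive degree of an ideal. -/
theorem IsId.grP (H : Lie G P Q a b) {J : Submodule ℂ (Matrix B B ℂ)} (hJ : IsId G J)
    {Y : Matrix B B ℂ} (hY : Y ∈ J) : P * Y * Q ∈ J := by
  have h1 := hJ.br _ H.D _ hY
  have h2 := hJ.br _ H.D _ h1
  have hG := hJ.le hY
  have h3 : (P - Q) * ((P - Q) * Y - Y * (P - Q)) - ((P - Q) * Y - Y * (P - Q)) * (P - Q) +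
      (2 : ℂ) • ((P - Q) * Y - Y * (P - Q)) = (8 : ℂ) • (P * Y * Q) := by
    obtain ⟨x1, h1⟩ : ∃ x1, x1 = P * Y * P := ⟨_, rfl⟩
    obtain ⟨x2, h2⟩ : ∃ x2, x2 = P * Y * Q := ⟨_, rfl⟩
    obtain ⟨x3, h3⟩ : ∃ x3, x3 = Q * Y * P := ⟨_, rfl⟩
    obtain ⟨x4, h4⟩ : ∃ x4, x4 = Q * Y * Q := ⟨_, rfl⟩
    have hX2 : Y = x1 + x2 + x3 + x4 := by
      nth_rewrite 1 [← H.ler Y hG, ← H.lel Y hG]
      rw [h1, h2, h3, h4]
      noncomm_ring
    have p1 : P * x1 = x1 := by rw [h1, ← mul_assoc, ← mul_assoc, H.PP]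
    have p2 : P * x2 = x2 := by rw [h2, ← mul_assoc, ← mul_assoc, H.PP]
    have p3 : P * x3 = 0 := by rw [h3, ← mul_assoc, ← mul_assoc, H.PQ, zero_mul, zero_mul]
    have p4 : P * x4 = 0 := by rw [h4, ← mul_assoc, ← mul_assoc, H.PQ, zero_mul, zero_mul]
    have q1 : Q * x1 = 0 := by rw [h1, ← mul_assoc, ← mul_assoc, H.QP, zero_mul, zero_mul]
    have q2 : Q * x2 = 0 := by rw [h2, ← mul_assoc, ← mul_assoc, H.QP, zero_mul, zero_mul]
    have q3 : Q * x3 = x3 := by rw [h3, ← mul_assoc, ← mul_assoc, H.QQ]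
    have q4 : Q * x4 = x4 := by rw [h4, ← mul_assoc, ← mul_assoc, H.QQ]
    have r1 : x1 * P = x1 := by rw [h1, mul_assoc _ P P, H.PP]
    have r2 : x2 * P = 0 := by rw [h2, mul_assoc _ Q P, H.QP, mul_zero]
    have r3 : x3 * P = x3 := by rw [h3, mul_assoc _ P P, H.PP]
    have r4 : x4 * P = 0 := by rw [h4, mul_assoc _ Q P, H.QP, mul_zero]
    have s1 : x1 * Q = 0 := by rw [h1, mul_assoc _ P Q, H.PQ, mul_zero]
    have s2 : x2 * Q = x2 := by rw [h2, mul_assoc _ Q Q, H.QQ]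
    have s3 : x3 * Q = 0 := by rw [h3, mul_assoc _ P Q, H.PQ, mul_zero]
    have s4 : x4 * Q = x4 := by rw [h4, mul_assoc _ Q Q, H.QQ]
    have e1 : (P - Q) * Y - Y * (P - Q) = (2 : ℂ) • x2 - (2 : ℂ) • x3 := by
      rw [hX2]
      simp only [mul_add, add_mul, sub_mul, mul_sub, p1, p2, p3, p4, q1, q2, q3, q4, r1, r2, r3,
        r4, s1, s2, s3, s4, two_smul]
      abel
    rw [e1, ← h2]
    simp only [mul_sub, sub_mul, Matrix.mul_smul, Matrix.smul_mul, p2, p3, q2, q3, r2, r3, s2, s3,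
      smul_zero]
    module
  have h4 := Submodule.smul_mem _ (8 : ℂ)⁻¹
    (Submodule.add_mem _ h2 (Submodule.smul_mem _ (2 : ℂ) h1))
  rw [h3, smul_smul, inv_mul_cancel₀ (by norm_num), one_smul] at h4
  exact h4

theorem memP (H : Lie G P Q a b) {X : Matrix B B ℂ} (hX : X ∈ G) : P * X * Q ∈ pos G P Q :=
  ⟨H.grP hX, by rw [← mul_assoc, ← mul_assoc, H.PP], by rw [mul_assoc _ Q Q, H.QQ]⟩

/-- If an ideal has no elements of positive degree then it commutes with the grading element, and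
the other ideal contains all elements of positive degree. -/
theorem comm_of_none (H : Lie G P Q a b) {J J' : Submodule ℂ (Matrix B B ℂ)}
    (hJ : IsId G J) (hJ' : IsId G J') (hdec : ∀ X ∈ G, ∃ Y ∈ J, ∃ Y' ∈ J', X = Y + Y')
    (hcomm : ∀ Y ∈ J, ∀ Y' ∈ J', Y * Y' = Y' * Y)
    (h0 : ∀ Y ∈ J, P * Y * Q = 0) : (∀ Y ∈ J, Y * (P - Q) = (P - Q) * Y) ∧ pos G P Q ≤ J' := by
  have hle : pos G P Q ≤ J' := by
    intro x hx
    obtain ⟨Y, hY, Y', hY', h1⟩ := hdec x hx.1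
    have h2 : x = P * Y' * Q := by
      have h3 : x = P * x * Q := by rw [hx.2.1, hx.2.2]
      rw [h3, h1, mul_add, add_mul, h0 Y hY, zero_add]
    rw [h2]
    exact hJ'.grP H hY'
  refine ⟨fun Y hY => ?_, hle⟩
  -- the negative part
  have h1 : Q * Y * P = 0 := by
    have h2 : Q * Y * P ∈ J := hJ.grP H.symm hY
    obtain ⟨x, hx⟩ : ∃ x, x = Q * Y * P := ⟨_, rfl⟩
    rw [← hx] at h2 ⊢
    have hQx : Q * x = x := by rw [hx, ← mul_assoc, ← mul_assoc, H.QQ]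
    have hxP : x * P = x := by rw [hx, mul_assoc _ P P, H.PP]
    have h3 : xᴴ ∈ pos G P Q := H.symm.star_pos ⟨hJ.le h2, hQx, hxP⟩
    have h4 := hcomm x h2 _ (hle h3)
    have h5 : x * xᴴ = 0 := by
      have h6 : Q * (xᴴ * x) = 0 := by
        rw [← mul_assoc, ← h3.2.1, ← mul_assoc, H.QP, zero_mul, zero_mul]
      have h7 : Q * (x * xᴴ) = x * xᴴ := by rw [← mul_assoc, hQx]
      rw [← h7, h4, h6]
    have h6 : trace (x * xᴴ) = 0 := by rw [h5, trace_zero]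
    rwa [trace_mul_conjTranspose_self_eq_zero_iff] at h6
  have h2 := H.split (hJ.le hY)
  rw [h0 Y hY, h1, add_zero, zero_add] at h2
  have hP := H.gr0_comm Y
  rw [← h2] at hP
  have hl := H.lel Y (hJ.le hY)
  have hr := H.ler Y (hJ.le hY)
  have hQ : Q * Y = Y * Q := by
    have h5 : Q * Y = Y - P * Y := by
      nth_rewrite 2 [← hl]
      noncomm_ring
    have h6 : Y * Q = Y - Y * P := by
      nth_rewrite 2 [← hr]
      noncomm_ring
    rw [h5, h6, hP]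
  rw [mul_sub, sub_mul, hP, hQ]

/-- **Ideals** either commute with the grading element or contain all elements of positive
degree. -/
theorem dich (H : Lie G P Q a b) {J : Submodule ℂ (Matrix B B ℂ)} (hJ : IsId G J) :
    (∀ Y ∈ J, Y * (P - Q) = (P - Q) * Y) ∨ pos G P Q ≤ J := by
  obtain ⟨J', hJ', hdec, hcomm, -⟩ := exists_compl H hJ
  by_cases h0 : ∀ Y ∈ J, P * Y * Q = 0
  · exact Or.inl (comm_of_none H hJ hJ' hdec hcomm h0).1
  · right
    push Not at h0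
    obtain ⟨Y, hY, hY0⟩ := h0
    refine (comm_of_none H hJ' hJ (fun X hX => ?_) (fun Y' hY' Y hY => (hcomm Y hY Y' hY').symm)
      fun Y' hY' => ?_).2
    · obtain ⟨Y, hY, Y', hY', h1⟩ := hdec X hX
      exact ⟨Y', hY', Y, hY, by rw [h1, add_comm]⟩
    · by_contra h1
      exact hY0 (no_two H hJ hdec hcomm (hJ.grP H hY) (memP H (hJ.le hY)) (hJ'.grP H hY')
        (memP H (hJ'.le hY')) h1)

/-- The grading element belongs to the ideal. -/
theorem D_mem_of (H : Lie G P Q a b) (hP : pos G P Q ≠ ⊥) (T0 : ∀ X ∈ G, trace X = 0)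
    {J : Submodule ℂ (Matrix B B ℂ)} (hJ : IsId G J) (hle : pos G P Q ≤ J) : P - Q ∈ J := by
  obtain ⟨J', hJ', hdec, hcomm, hdis⟩ := exists_compl H hJ
  obtain ⟨x, hx, hx0⟩ := Submodule.exists_mem_ne_zero_of_ne_bot hP
  have h1 : ∀ Y' ∈ J', Y' * (P - Q) = (P - Q) * Y' := by
    rcases dich H hJ' with h2 | h2
    · exact h2
    · exact absurd (hdis x (hle hx) (h2 hx)) hx0
  obtain ⟨Y, hY, Y', hY', h2⟩ := hdec _ H.D
  -- `Y'` is central
  have hc : ∀ X ∈ G, Y' * X = X * Y' := by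
    intro X hX
    obtain ⟨W, hW, W', hW', rfl⟩ := hdec X hX
    have e1 : Y' * W' = W' * Y' := by
      have e2 := h1 W' hW'
      rw [h2, mul_add, add_mul, ← hcomm Y hY W' hW'] at e2
      exact (add_left_cancel e2).symm
    rw [mul_add, add_mul, hcomm W hW Y' hY', e1]
  have hYG := hJ'.le hY'
  have hPY : P * Y' = Y' * P := by
    have e2 := hc _ H.D
    have e3 := H.lel Y' hYG
    have e4 := H.ler Y' hYG
    have e5 : (2 : ℂ) • (P * Y') = (2 : ℂ) • (Y' * P) := by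
      have e6 : (2 : ℂ) • (P * Y') = (P + Q) * Y' + (P - Q) * Y' := by
        rw [two_smul]
        noncomm_ring
      have e7 : (2 : ℂ) • (Y' * P) = Y' * (P + Q) + Y' * (P - Q) := by
        rw [two_smul]
        noncomm_ring
      rw [e6, e7, e3, e4, e2]
    exact smul_right_injective _ (two_ne_zero (α := ℂ)) e5
  -- Schur
  have key : ∃ κ : ℂ, Y' = κ • (P + Q) := by
    obtain ⟨κ, hκ⟩ := H.schur (c := P * Y') (by rw [← mul_assoc, H.PP])
      (by rw [mul_assoc, ← hPY, ← mul_assoc, H.PP]) (fun z hz hz' => by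
        rw [mul_assoc, hc z hz, ← mul_assoc, hz', mul_assoc])
    let K : Submodule ℂ (B → ℂ) :=
      { carrier := {v | (P + Q) *ᵥ v = v ∧ Y' *ᵥ v = κ • v}
        zero_mem' := ⟨mulVec_zero _, by rw [mulVec_zero, smul_zero]⟩
        add_mem' := fun {v w} hv hw => ⟨by rw [mulVec_add, hv.1, hw.1],
          by rw [mulVec_add, hv.2, hw.2, smul_add]⟩
        smul_mem' := fun c v hv => ⟨by rw [mulVec_smul, hv.1],
          by rw [mulVec_smul, hv.2, smul_comm]⟩ }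
    have hK : ∀ v, v ∈ K ↔ (P + Q) *ᵥ v = v ∧ Y' *ᵥ v = κ • v := fun _ => Iff.rfl
    refine ⟨κ, ?_⟩
    rcases H.irr K (fun v hv => ((hK v).1 hv).1) (fun X hX v hv => by
      obtain ⟨h3, h4⟩ := (hK v).1 hv
      refine (hK _).2 ⟨by rw [mulVec_mulVec, H.lel X hX], ?_⟩
      rw [mulVec_mulVec, hc X hX, ← mulVec_mulVec, h4, mulVec_smul]) with h3 | h3
    · exfalso
      apply hx0
      apply eq_of_mulVec
      intro v
      have h4 : x *ᵥ v ∈ K := by
        refine (hK _).2 ⟨by rw [mulVec_mulVec, H.lel x hx.1], ?_⟩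
        have h5 : Y' * x = κ • x := by
          have h6 : Y' * x = (P * Y') * x := by
            rw [hPY, mul_assoc, hx.2.1]
          rw [h6, hκ, Matrix.smul_mul, hx.2.1]
        rw [mulVec_mulVec, h5, smul_mulVec]
      rw [h3, Submodule.mem_bot] at h4
      rw [h4, zero_mulVec]
    · apply eq_of_mulVec
      intro v
      have h4 : (P + Q) *ᵥ ((P + Q) *ᵥ v) = (P + Q) *ᵥ v := by
        rw [mulVec_mulVec, mul_add, add_mul, add_mul, H.PP, H.QP, H.PQ, H.QQ, add_zero, zero_add]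
      have h5 := ((hK _).1 (h3 _ h4)).2
      rw [mulVec_mulVec, H.ler Y' hYG] at h5
      rw [h5, smul_mulVec]
  obtain ⟨κ, hκ⟩ := key
  have h3 := T0 _ hYG
  rw [hκ, trace_smul, trace_add, H.trP, H.trQ, smul_eq_mul] at h3
  have hκ0 : Y' = 0 := by
    rcases mul_eq_zero.1 h3 with h4 | h4
    · rw [hκ, h4, zero_smul]
    · exfalso
      have h5 : a + b = 0 := by exact_mod_cast h4
      have h6 : P = 0 := by
        have h7 : (a : ℂ) = 0 := by
          have : a = 0 := by omega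
          rw [this, Nat.cast_zero]
        have h8 := H.trP
        rw [h7] at h8
        exact Pool.Agent.R915.idem_zero H.PP h8
      apply hx0
      rw [← hx.2.1, h6, zero_mul]
  rw [h2, hκ0, add_zero]
  exact hY

/-- The Lie algebra is generated, as an ideal, by the elements of positive degree. -/
def Full (G : Submodule ℂ (Matrix B B ℂ)) (P Q : Matrix B B ℂ) : Prop :=
  ∀ J, IsId G J → pos G P Q ≤ J → G ≤ J

/-- Subspaces which are stable under the elements of positive and negative degree. -/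
theorem Full.stab (H : Lie G P Q a b) (hf : Full G P Q) {W : Submodule ℂ (B → ℂ)}
    (h1 : ∀ x ∈ pos G P Q, ∀ v ∈ W, x *ᵥ v ∈ W) (h2 : ∀ x ∈ pos G Q P, ∀ v ∈ W, x *ᵥ v ∈ W) :
    ∀ X ∈ G, ∀ v ∈ W, X *ᵥ v ∈ W := by
  -- the Lie algebra generated by the elements of positive and negative degree
  let S : Set (Submodule ℂ (Matrix B B ℂ)) := {L | (∀ X ∈ L, ∀ Y ∈ L, X * Y - Y * X ∈ L) ∧
    pos G P Q ≤ L ∧ pos G Q P ≤ L}
  let L0 := sInf S
  have hL0 : ∀ X, X ∈ L0 ↔ ∀ L ∈ S, X ∈ L := fun X => Submodule.mem_sInf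
  have hbr : ∀ X ∈ L0, ∀ Y ∈ L0, X * Y - Y * X ∈ L0 := by
    intro X hX Y hY
    rw [hL0] at hX hY ⊢
    exact fun L hL => hL.1 X (hX L hL) Y (hY L hL)
  have hp : pos G P Q ≤ L0 := fun x hx => (hL0 x).2 fun L hL => hL.2.1 hx
  have hn : pos G Q P ≤ L0 := fun x hx => (hL0 x).2 fun L hL => hL.2.2 hx
  have hmin : ∀ L, (∀ X ∈ L, ∀ Y ∈ L, X * Y - Y * X ∈ L) → pos G P Q ≤ L → pos G Q P ≤ L →
      L0 ≤ L := fun L h3 h4 h5 X hX => (hL0 X).1 hX L ⟨h3, h4, h5⟩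
  have hG : L0 ≤ G := hmin G H.br (fun x hx => hx.1) fun x hx => hx.1
  have hid : IsId G L0 := by
    refine ⟨hG, fun X hX => ?_⟩
    -- the elements of degree zero
    obtain ⟨z, hz⟩ : ∃ z, z = P * X * P + Q * X * Q := ⟨_, rfl⟩
    have hzG : z ∈ G := by rw [hz]; exact H.gr0 hX
    have hzP : P * z = z * P := by rw [hz]; exact H.gr0_comm X
    have hzQ : Q * z = z * Q := by
      have h3 := H.lel z hzG
      have h4 := H.ler z hzG
      have h5 : Q * z = z - P * z := by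
        nth_rewrite 2 [← h3]
        noncomm_ring
      have h6 : z * Q = z - z * P := by
        nth_rewrite 2 [← h4]
        noncomm_ring
      rw [h5, h6, hzP]
    let L1 : Submodule ℂ (Matrix B B ℂ) :=
      { carrier := {Y | Y ∈ L0 ∧ z * Y - Y * z ∈ L0}
        zero_mem' := ⟨L0.zero_mem, by rw [mul_zero, zero_mul, sub_zero]; exact L0.zero_mem⟩
        add_mem' := fun {Y Y'} hY hY' => ⟨L0.add_mem hY.1 hY'.1, by
          have e1 : z * (Y + Y') - (Y + Y') * z = (z * Y - Y * z) + (z * Y' - Y' * z) := by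
            noncomm_ring
          rw [e1]
          exact L0.add_mem hY.2 hY'.2⟩
        smul_mem' := fun c Y hY => ⟨L0.smul_mem c hY.1, by
          rw [Matrix.mul_smul, Matrix.smul_mul, ← smul_sub]
          exact L0.smul_mem c hY.2⟩ }
    have hL1 : ∀ Y, Y ∈ L1 ↔ Y ∈ L0 ∧ z * Y - Y * z ∈ L0 := fun _ => Iff.rfl
    have hz1 : L0 ≤ L1 := by
      refine hmin L1 (fun Y hY Y' hY' => ?_) (fun x hx => ?_) fun x hx => ?_
      · obtain ⟨h3, h4⟩ := (hL1 Y).1 hY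
        obtain ⟨h5, h6⟩ := (hL1 Y').1 hY'
        refine (hL1 _).2 ⟨hbr _ h3 _ h5, ?_⟩
        have e1 : z * (Y * Y' - Y' * Y) - (Y * Y' - Y' * Y) * z =
            ((z * Y - Y * z) * Y' - Y' * (z * Y - Y * z)) +
              (Y * (z * Y' - Y' * z) - (z * Y' - Y' * z) * Y) := by noncomm_ring
        rw [e1]
        exact L0.add_mem (hbr _ h4 _ h5) (hbr _ h3 _ h6)
      · refine (hL1 _).2 ⟨hp hx, hp ⟨H.br _ hzG _ hx.1, ?_, ?_⟩⟩
        · rw [mul_sub, ← mul_assoc, ← mul_assoc, hzP, mul_assoc, hx.2.1]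
        · rw [sub_mul, mul_assoc, mul_assoc, hx.2.2, ← hzQ, ← mul_assoc, hx.2.2]
      · refine (hL1 _).2 ⟨hn hx, hn ⟨H.br _ hzG _ hx.1, ?_, ?_⟩⟩
        · rw [mul_sub, ← mul_assoc, ← mul_assoc, hzQ, mul_assoc, hx.2.1]
        · rw [sub_mul, mul_assoc, mul_assoc, hx.2.2, ← hzP, ← mul_assoc, hx.2.2]
    intro Y hY
    have h3 := H.split hX
    rw [← hz] at h3
    have e1 : X * Y - Y * X = (P * X * Q * Y - Y * (P * X * Q)) +
        (Q * X * P * Y - Y * (Q * X * P)) + (z * Y - Y * z) := by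
      nth_rewrite 1 2 [h3]
      noncomm_ring
    rw [e1]
    exact L0.add_mem (L0.add_mem (hbr _ (hp (memP H hX)) _ hY)
      (hbr _ (hn (memP H.symm hX)) _ hY)) ((hL1 Y).1 (hz1 hY)).2
  have hfull := hf L0 hid hp
  let L2 : Submodule ℂ (Matrix B B ℂ) :=
    { carrier := {X | ∀ v ∈ W, X *ᵥ v ∈ W}
      zero_mem' := fun v _ => by rw [zero_mulVec]; exact W.zero_mem
      add_mem' := fun {X Y} hX hY v hv => by rw [add_mulVec]; exact W.add_mem (hX v hv) (hY v hv)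
      smul_mem' := fun c X hX v hv => by rw [smul_mulVec]; exact W.smul_mem c (hX v hv) }
  have hL2 : ∀ X, X ∈ L2 ↔ ∀ v ∈ W, X *ᵥ v ∈ W := fun _ => Iff.rfl
  have h3 : L0 ≤ L2 := hmin L2 (fun X hX Y hY => (hL2 _).2 fun v hv => by
    rw [sub_mulVec, ← mulVec_mulVec, ← mulVec_mulVec]
    exact W.sub_mem ((hL2 X).1 hX _ ((hL2 Y).1 hY v hv)) ((hL2 Y).1 hY _ ((hL2 X).1 hX v hv)))
    (fun x hx => (hL2 _).2 (h1 x hx)) fun x hx => (hL2 _).2 (h2 x hx)
  exact fun X hX => (hL2 X).1 (h3 (hfull hX))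

end Pool.Agent.N994.PG
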