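import Mathlib
import Pool.Agent.N994.PG.Ideal

/-!
# Tripotents of Lie algebras of symplectic matrices
-/

set_option linter.unusedSectionVars false

namespace Pool.Agent.N994.PG

open Matrix Module
open Pool.Agent.Y4.G (Lie trace_idemM trace_idemOp finrank_eq_one_of finrank_le_of_maps)
open Pool.Agent.Y4.G.Lie (pos mem_pos)
open Pool.Agent.R915 (Trp pos_ne_bot eq_of_mulVec idem_zero)

open scoped ComplexOrder

variable {B : Type*} [Fintype B] [DecidableEq B]
variable {G : Submodule ℂ (Matrix B B ℂ)} {P Q : Matrix B B ℂ} {a b : ℕ}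

theorem star_sym {M : Matrix B B ℂ} (hM : Mᵀ = M) (v : B → ℂ) : star (M *ᵥ v) = Mᴴ *ᵥ star v := by
  rw [star_mulVec, ← mulVec_transpose]
  congr 1
  change (Mᴴ)ᵀ = (Mᵀ).map star
  rw [hM]
  rfl

theorem star_sym' {M : Matrix B B ℂ} (hM : Mᵀ = M) (v : B → ℂ) :
    star (Mᴴ *ᵥ v) = M *ᵥ star v := by
  have h1 := congrArg star (star_sym hM (star v))
  rw [star_star, star_star] at h1
  exact h1.symm

/-- The number `t` is positive. -/
theorem t_pos {e p q : Matrix B B ℂ} {t : ℂ} (k : Trp G P Q e p q t) :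
    ∃ s : ℂ, s ≠ 0 ∧ star s = s ∧ s * s = t := by
  have h1 := trace_idemM k.pp
  obtain ⟨m, hm⟩ : ∃ m, m = finrank ℂ (LinearMap.range (mulVecLin p)) := ⟨_, rfl⟩
  rw [← hm] at h1
  have h2 : trace (e * eᴴ) = t * m := by rw [k.eh, trace_smul, h1, smul_eq_mul]
  have h3 : 0 ≤ trace (e * eᴴ) := (posSemidef_self_mul_conjTranspose e).trace_nonneg
  have hm0 : (m : ℂ) ≠ 0 := by
    intro h4
    have h5 : trace (e * eᴴ) = 0 := by rw [h2, h4, mul_zero]
    rw [trace_mul_conjTranspose_self_eq_zero_iff] at h5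
    exact k.ne h5
  have hmp : 0 < m := by
    rw [Nat.pos_iff_ne_zero]
    rintro rfl
    exact hm0 Nat.cast_zero
  rw [h2] at h3
  rw [Complex.le_def] at h3
  obtain ⟨h4, h5⟩ := h3
  simp only [Complex.zero_re, Complex.zero_im, Complex.mul_re, Complex.mul_im, Complex.natCast_re,
    Complex.natCast_im, mul_zero, sub_zero, zero_add] at h4 h5
  have hmr : (0 : ℝ) < m := by exact_mod_cast hmp
  have him : t.im = 0 := by
    have h6 := h5.symm
    rcases mul_eq_zero.1 h6 with h7 | h7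
    · exact h7
    · exact absurd h7 hmr.ne'
  have hre : 0 ≤ t.re := by
    by_contra h6
    push Not at h6
    have := mul_neg_of_neg_of_pos h6 hmr
    linarith
  have ht : t = ((t.re : ℝ) : ℂ) := by
    apply Complex.ext
    · simp
    · simp [him]
  have hs : ((Real.sqrt t.re : ℝ) : ℂ) * ((Real.sqrt t.re : ℝ) : ℂ) = t := by
    rw [← Complex.ofReal_mul, Real.mul_self_sqrt hre]
    exact ht.symm
  refine ⟨((Real.sqrt t.re : ℝ) : ℂ), fun h6 => ?_, Complex.conj_ofReal _, hs⟩
  rw [h6, mul_zero] at hs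
  exact k.t0 hs.symm

/-- A real vector of the tripotent. -/
theorem exists_v {e p q : Matrix B B ℂ} {t : ℂ} (k : Trp G P Q e p q t)
    (hsym : ∀ x ∈ pos G P Q, xᵀ = x) :
    ∃ v : B → ℂ, q *ᵥ v = v ∧ e *ᵥ v ≠ 0 ∧
      ∀ x ∈ pos G P Q, x *ᵥ v = 0 → xᴴ *ᵥ (e *ᵥ v) = 0 := by
  obtain ⟨s, hs0, hs, hst⟩ := t_pos k
  have hes := hsym e k.mem
  have hev : ∃ w, e *ᵥ w ≠ 0 := by
    by_contra hcon
    push Not at hcon
    exact k.ne (eq_of_mulVec fun v => by rw [hcon, zero_mulVec])
  obtain ⟨w, hw⟩ := hev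
  obtain ⟨u, hu⟩ : ∃ u, u = q *ᵥ w := ⟨_, rfl⟩
  have hqu : q *ᵥ u = u := by rw [hu, mulVec_mulVec, k.qq]
  have hu0 : u ≠ 0 := by
    rintro rfl
    apply hw
    rw [← k.eq, ← mulVec_mulVec, ← hu, mulVec_zero]
  have hτ : ∀ u : B → ℂ, q *ᵥ u = u →
      s⁻¹ • (eᴴ *ᵥ star (s⁻¹ • (eᴴ *ᵥ star u))) = u := by
    intro u hu
    have h1 : star (s⁻¹ • (eᴴ *ᵥ star u)) = s⁻¹ • (e *ᵥ u) := by
      rw [star_smul, star_sym' hes, star_star, star_inv₀, hs]
    rw [h1, mulVec_smul, mulVec_mulVec, k.he, smul_mulVec, hu, smul_smul, smul_smul]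
    have h2 : s⁻¹ * s⁻¹ * t = 1 := by
      rw [← hst]
      field_simp
    rw [mul_assoc, ← mul_assoc, h2, one_smul]
  obtain ⟨v, hqv, hv0, hv⟩ : ∃ v : B → ℂ, q *ᵥ v = v ∧ v ≠ 0 ∧ s⁻¹ • (eᴴ *ᵥ star v) = v := by
    by_cases h1 : u + s⁻¹ • (eᴴ *ᵥ star u) = 0
    · refine ⟨Complex.I • u, by rw [mulVec_smul, hqu], ?_, ?_⟩
      · intro h2
        rcases smul_eq_zero.1 h2 with h3 | h3
        · exact Complex.I_ne_zero h3
        · exact hu0 h3
      · have h2 : s⁻¹ • (eᴴ *ᵥ star u) = -u := (neg_eq_of_add_eq_zero_right h1).symm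
        rw [star_smul, mulVec_smul, smul_comm, h2]
        have h3 : star Complex.I = -Complex.I := Complex.conj_I
        rw [h3, smul_neg, neg_smul, neg_neg]
    · refine ⟨_, ?_, h1, ?_⟩
      · rw [mulVec_add, hqu, mulVec_smul, mulVec_mulVec, k.qe]
      · rw [star_add, mulVec_add, smul_add, hτ u hqu, add_comm]
  have hev : e *ᵥ v = s • star v := by
    have h1 := congrArg star hv
    rw [star_smul, star_sym' hes, star_star, star_inv₀, hs] at h1
    rw [← h1, smul_smul, mul_inv_cancel₀ hs0, one_smul]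
  refine ⟨v, hqv, ?_, fun x hx hxv => ?_⟩
  · rw [hev]
    intro h1
    rcases smul_eq_zero.1 h1 with h2 | h2
    · exact hs0 h2
    · exact hv0 (star_eq_zero.1 h2)
  · rw [hev, mulVec_smul, ← star_sym (hsym x hx), hxv, star_zero, smul_zero]

/-- The relation between the dimensions. -/
theorem rel_sym {e p q : Matrix B B ℂ} {t : ℂ} (k : Trp G P Q e p q t) (H : Lie G P Q a b)
    (hsym : ∀ x ∈ pos G P Q, xᵀ = x) :
    ∃ m c : ℕ, trace p = m ∧ c + m ≤ a ∧
      a * b * (2 + c) = finrank ℂ (pos G P Q) * (b * m + a * m) ∧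
      (finrank ℂ (pos G P Q) ≤ 1 + c → ∀ x ∈ pos G P Q, (P - p) * x * (Q - q) = 0) := by
  obtain ⟨v, hqv, hev, hvx⟩ := exists_v k hsym
  have ht0 := k.t0
  have hone := k.one
  have hpe := k.pe
  have heq := k.eq
  have hpp := k.pp
  have hqq := k.qq
  have hpH := k.pH
  have hqH := k.qH
  have heH := k.eh
  have hHe := k.he
  have hPe : P * e = e := k.mem.2.1
  have heQ : e * Q = e := k.mem.2.2
  have hPp := k.Pp
  have hqQ := k.qQ
  have hpP := k.pP
  have hQ1q := k.Q1q
  have hTmem := k.tmem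
  have h2mem := k.mem2
  obtain ⟨T, hT⟩ : ∃ T : pos G P Q →ₗ[ℂ] pos G P Q, ∀ x : pos G P Q, ((T x : pos G P Q) : Matrix B B ℂ) = p * x + x * q :=
    ⟨{ toFun := fun x => ⟨p * x + x * q, hTmem x x.2⟩
       map_add' := fun x y => Subtype.ext (by
        change p * ((x : Matrix B B ℂ) + y) + (x + y) * q = (p * x + x * q) + (p * y + y * q)
        noncomm_ring)
       map_smul' := fun c x => Subtype.ext (by
        change p * (c • (x : Matrix B B ℂ)) + (c • (x : Matrix B B ℂ)) * q = c • (p * x + x * q)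
        rw [Matrix.mul_smul, Matrix.smul_mul, smul_add]) }, fun _ => rfl⟩
  obtain ⟨π2, hπ2⟩ : ∃ T : pos G P Q →ₗ[ℂ] pos G P Q, ∀ x : pos G P Q, ((T x : pos G P Q) : Matrix B B ℂ) = p * x * q :=
    ⟨{ toFun := fun x => ⟨p * x * q, h2mem x x.2⟩
       map_add' := fun x y => Subtype.ext (by
        change p * ((x : Matrix B B ℂ) + y) * q = p * x * q + p * y * q
        noncomm_ring)
       map_smul' := fun c x => Subtype.ext (by
        change p * (c • (x : Matrix B B ℂ)) * q = c • (p * x * q)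
        rw [Matrix.mul_smul, Matrix.smul_mul]) }, fun _ => rfl⟩
  obtain ⟨π1, hπ1e⟩ : ∃ π1, π1 = T - (2 : ℂ) • π2 := ⟨_, rfl⟩
  have hπ1 : ∀ x : pos G P Q, ((π1 x : pos G P Q) : Matrix B B ℂ) = p * x + x * q - (2 : ℂ) • (p * x * q) := by
    intro x
    rw [hπ1e, ← hT, ← hπ2]
    rfl
  have hTeq : T = (2 : ℂ) • π2 + π1 := by
    rw [hπ1e]
    abel
  have hid2 : ∀ x, π2 (π2 x) = π2 x := by
    intro x
    apply Subtype.ext
    rw [hπ2, hπ2]
    calc p * (p * x * q) * q = (p * p) * x * (q * q) := by noncomm_ring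
    _ = _ := by rw [hpp, hqq]
  have hx1 : ∀ x : pos G P Q, p * ((π1 x : pos G P Q) : Matrix B B ℂ) * q = 0 := by
    intro x
    rw [hπ1]
    have h3 : p * (p * x + x * q - (2 : ℂ) • (p * x * q)) * q =
        (p * p) * x * q + p * x * (q * q) - (2 : ℂ) • ((p * p) * x * (q * q)) := by
      rw [mul_sub, sub_mul, Matrix.mul_smul, Matrix.smul_mul]
      noncomm_ring
    rw [h3, hpp, hqq, two_smul]
    abel
  have hid1 : ∀ x, π1 (π1 x) = π1 x := by
    intro x
    apply Subtype.ext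
    rw [hπ1 (π1 x), hx1, smul_zero, sub_zero, hπ1]
    have h3 : p * (p * x + x * q - (2 : ℂ) • (p * x * q)) +
        (p * x + x * q - (2 : ℂ) • (p * x * q)) * q =
        (p * p) * x + p * x * q - (2 : ℂ) • ((p * p) * x * q) +
        (p * x * q + x * (q * q) - (2 : ℂ) • (p * x * (q * q))) := by
      rw [mul_sub, sub_mul, Matrix.mul_smul, Matrix.smul_mul]
      noncomm_ring
    rw [h3, hpp, hqq, two_smul]
    abel
  have hW1 : ∀ x : pos G P Q, x ∈ LinearMap.range π1 → p * (x : Matrix B B ℂ) * q = 0 ∧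
      p * (x : Matrix B B ℂ) + x * q = x := by
    rintro _ ⟨x, rfl⟩
    refine ⟨hx1 x, ?_⟩
    have h3 := congrArg Subtype.val (hid1 x)
    rw [hπ1 (π1 x), hx1, smul_zero, sub_zero] at h3
    exact h3
  -- the dimensions
  have htr2 : finrank ℂ (LinearMap.range π2) = 1 := by
    refine finrank_eq_one_of _ (e := (⟨e, k.mem⟩ : pos G P Q)) ⟨⟨e, k.mem⟩, Subtype.ext (by
      rw [hπ2]
      change p * e * q = e
      rw [hpe, heq])⟩ (fun h0 => k.ne (congrArg Subtype.val h0)) ?_
    rintro _ ⟨y, rfl⟩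
    obtain ⟨c, hc⟩ := hone _ (π2 y).2 (by
      have h3 := congrArg Subtype.val (hid2 y)
      rw [hπ2 (π2 y)] at h3
      exact h3)
    exact ⟨c, Subtype.ext hc⟩
  obtain ⟨c', hk⟩ : ∃ c', c' = finrank ℂ (LinearMap.range π1) := ⟨_, rfl⟩
  obtain ⟨m, hm⟩ : ∃ m, m = finrank ℂ (LinearMap.range (mulVecLin p)) := ⟨_, rfl⟩
  have htrT : LinearMap.trace ℂ (pos G P Q) T = 2 + c' := by
    rw [hTeq, map_add, map_smul, trace_idemOp hid2, trace_idemOp hid1, htr2, ← hk, smul_eq_mul]
    push_cast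
    ring
  have htrp : trace p = m := by rw [trace_idemM hpp, hm]
  have htrq : trace q = m := by rw [k.trpq, htrp]
  -- the bound
  have hbound : c' + m ≤ a := by
    have hPp2 : (P - p) * (P - p) = P - p := by
      rw [sub_mul, mul_sub, mul_sub, H.PP, hpp, hPp, hpP]
      abel
    obtain ⟨a', ha'⟩ : ∃ a', a' = finrank ℂ (LinearMap.range (mulVecLin (P - p))) := ⟨_, rfl⟩
    have ha2 : a' + m = a := by
      have h1 := trace_idemM hPp2
      rw [← ha', trace_sub, H.trP, htrp, sub_eq_iff_eq_add] at h1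
      exact_mod_cast h1.symm
    let f : LinearMap.range π1 →ₗ[ℂ] LinearMap.range (mulVecLin (P - p)) :=
      { toFun := fun x => ⟨((x : pos G P Q) : Matrix B B ℂ) *ᵥ v, by
          obtain ⟨h1, h2⟩ := hW1 x x.2
          obtain ⟨h3, h4⟩ := (x : pos G P Q).2.2
          refine ⟨((x : pos G P Q) : Matrix B B ℂ) *ᵥ v, ?_⟩
          rw [mulVecLin_apply, sub_mulVec, mulVec_mulVec, h3]
          have h5 : p *ᵥ (((x : pos G P Q) : Matrix B B ℂ) *ᵥ v) = 0 := by
            rw [← hqv, mulVec_mulVec, mulVec_mulVec, h1, zero_mulVec]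
          rw [h5, sub_zero]⟩
        map_add' := fun x y => Subtype.ext (by
          change (((x : pos G P Q) : Matrix B B ℂ) + ((y : pos G P Q) : Matrix B B ℂ)) *ᵥ v =
            _ *ᵥ v + _ *ᵥ v
          rw [add_mulVec])
        map_smul' := fun c x => Subtype.ext (by
          change (c • ((x : pos G P Q) : Matrix B B ℂ)) *ᵥ v = c • (_ *ᵥ v)
          rw [smul_mulVec]) }
    have hinj : Function.Injective f := by
      rw [injective_iff_map_eq_zero]
      intro x hx
      obtain ⟨h1, h2⟩ := hW1 x x.2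
      obtain ⟨X, hX⟩ : ∃ X, X = ((x : pos G P Q) : Matrix B B ℂ) := ⟨_, rfl⟩
      have hXW : X ∈ pos G P Q := by rw [hX]; exact (x : pos G P Q).2
      have hxv : X *ᵥ v = 0 := by
        rw [hX]
        exact congrArg Subtype.val hx
      rw [← hX] at h1 h2
      have hxw2 : Xᴴ *ᵥ (e *ᵥ v) = 0 := hvx X hXW hxv
      obtain ⟨y, hy⟩ : ∃ y, y = X * Xᴴ * e + e * Xᴴ * X := ⟨_, rfl⟩
      have hyW : y ∈ pos G P Q := by rw [hy]; exact H.tri.tri X hXW X hXW e k.mem
      have h5 : q * Xᴴ * e = 0 := by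
        have h6 : q * Xᴴ * p = 0 := by
          have h7 := congrArg conjTranspose h1
          rw [conjTranspose_mul, conjTranspose_mul, hpH, hqH, conjTranspose_zero] at h7
          rw [mul_assoc]
          exact h7
        rw [← hpe, ← mul_assoc, h6, zero_mul]
      have h6 : e * Xᴴ * p = 0 := by
        have h6 : q * Xᴴ * p = 0 := by
          have h7 := congrArg conjTranspose h1
          rw [conjTranspose_mul, conjTranspose_mul, hpH, hqH, conjTranspose_zero] at h7
          rw [mul_assoc]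
          exact h7
        rw [← heq, mul_assoc e, mul_assoc e, h6, mul_zero]
      have h7 : X * Xᴴ * e = p * (X * Xᴴ * e) := by
        nth_rewrite 1 [← h2]
        have h8 : (p * X + X * q) * Xᴴ * e = p * (X * Xᴴ * e) + X * (q * Xᴴ * e) := by
          noncomm_ring
        rw [h8, h5, mul_zero, add_zero]
      have h8 : e * Xᴴ * X = e * Xᴴ * X * q := by
        have h9 : e * Xᴴ * (p * X + X * q) = (e * Xᴴ * p) * X + e * Xᴴ * X * q := by
          noncomm_ring
        rw [h2, h6, zero_mul, zero_add] at h9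
        exact h9
      have hpyq : p * y * q = y := by
        rw [hy]
        have h9 : p * (X * Xᴴ * e + e * Xᴴ * X) * q =
            p * (X * Xᴴ * e) * q + (p * e) * Xᴴ * X * q := by noncomm_ring
        rw [h9, ← h7, hpe, ← h8, mul_assoc _ e q, heq]
      obtain ⟨c, hc⟩ := hone y hyW hpyq
      have hyv : y *ᵥ v = 0 := by
        rw [hy, add_mulVec, ← mulVec_mulVec, ← mulVec_mulVec, hxw2, mulVec_zero, ← mulVec_mulVec,
          hxv, mulVec_zero, add_zero]
      have hc0 : c = 0 := by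
        rw [hc, smul_mulVec] at hyv
        exact (smul_eq_zero.1 hyv).resolve_right hev
      have hy0 : y = 0 := by rw [hc, hc0, zero_smul]
      have htr : trace (y * eᴴ) = t * trace (X * Xᴴ) := by
        rw [hy, add_mul, trace_add]
        have e1 : trace (X * Xᴴ * e * eᴴ) = t * trace (p * (X * Xᴴ)) := by
          rw [mul_assoc, heH, Matrix.mul_smul, trace_smul, smul_eq_mul, trace_mul_comm]
        have e2 : trace (e * Xᴴ * X * eᴴ) = t * trace (X * q * Xᴴ) := by
          rw [trace_mul_comm, mul_assoc e, ← mul_assoc, hHe, Matrix.smul_mul, trace_smul,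
            smul_eq_mul, mul_assoc X, trace_mul_comm X, mul_assoc q]
        rw [e1, e2, ← mul_add, ← trace_add]
        congr 2
        have h9 : (p * X + X * q) * Xᴴ = p * (X * Xᴴ) + X * q * Xᴴ := by noncomm_ring
        rw [h2] at h9
        exact h9.symm
      rw [hy0, zero_mul, trace_zero] at htr
      have h9 := (mul_eq_zero.1 htr.symm).resolve_left ht0
      rw [trace_mul_conjTranspose_self_eq_zero_iff] at h9
      apply Subtype.ext
      apply Subtype.ext
      rw [← hX, h9]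
      rfl
    have h1 := LinearMap.finrank_le_finrank_of_injective hinj
    rw [← hk, ← ha'] at h1
    omega
  have hcas := H.tri.cas p q T hPp hqQ hT
  rw [htrT, htrp, htrq] at hcas
  have hnat : a * b * (2 + c') = finrank ℂ (pos G P Q) * (b * m + a * m) := by exact_mod_cast hcas
  refine ⟨m, c', htrp, hbound, hnat, fun hD x hx => ?_⟩
  have hdis : LinearMap.range π2 ⊓ LinearMap.range π1 = ⊥ := by
    rw [eq_bot_iff]
    rintro y ⟨⟨z, rfl⟩, hy⟩
    obtain ⟨h1, -⟩ := hW1 _ hy
    have h2 := congrArg Subtype.val (hid2 z)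
    rw [hπ2 (π2 z)] at h2
    rw [Submodule.mem_bot]
    apply Subtype.ext
    rw [← h2]
    exact h1
  have hsup : LinearMap.range π2 ⊔ LinearMap.range π1 = ⊤ := by
    have h1 := Submodule.finrank_sup_add_finrank_inf_eq (LinearMap.range π2) (LinearMap.range π1)
    rw [hdis, finrank_bot, htr2, ← hk] at h1
    apply Submodule.eq_top_of_finrank_eq
    apply le_antisymm (Submodule.finrank_le _)
    omega
  have hxm : (⟨x, hx⟩ : pos G P Q) ∈ LinearMap.range π2 ⊔ LinearMap.range π1 := by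
    rw [hsup]
    trivial
  obtain ⟨y, ⟨z, hz⟩, w, hw, hyw⟩ := Submodule.mem_sup.1 hxm
  have h1 : x = (y : Matrix B B ℂ) + (w : Matrix B B ℂ) := by
    have := congrArg Subtype.val hyw
    exact this.symm
  have h2 : (y : Matrix B B ℂ) = p * z * q := by rw [← hz, hπ2]
  obtain ⟨h3, h4⟩ := hW1 w hw
  have h5 := w.2.2.1
  have h6 := w.2.2.2
  rw [h1, h2, mul_add, add_mul]
  have e1 : (P - p) * (p * (z : Matrix B B ℂ) * q) * (Q - q) =
      (P * p - p * p) * z * (q * Q - q * q) := by noncomm_ring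
  have e2 : (P - p) * (w : Matrix B B ℂ) * (Q - q) =
      (P * w) * Q - (P * w) * q - p * (w * Q) + p * w * q := by noncomm_ring
  rw [e1, hPp, hpp, sub_self, zero_mul, zero_mul, zero_add, e2, h5, h6, h3, add_zero, sub_sub,
    add_comm ((w : Matrix B B ℂ) * q), h4, sub_self]

/-- A tripotent of full rank. -/
theorem no_one (H : Lie G P Q a a) (hf : Full G P Q) {e p q : Matrix B B ℂ} {t : ℂ}
    (k : Trp G P Q e p q t) (hp : trace p = a) : a ≤ 1 := by
  have hpP : P = p := by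
    have h1 : (P - p) * (P - p) = P - p := by
      rw [sub_mul, mul_sub, mul_sub, H.PP, k.pp, k.Pp, k.pP]
      abel
    exact sub_eq_zero.1 (idem_zero h1 (by rw [trace_sub, H.trP, hp, sub_self]))
  have hqQ : Q = q := by
    have h1 : (Q - q) * (Q - q) = Q - q := by
      rw [sub_mul, mul_sub, mul_sub, H.QQ, k.qq, k.qQ, k.Q1q]
      abel
    exact sub_eq_zero.1 (idem_zero h1 (by rw [trace_sub, H.trQ, k.trpq, hp, sub_self]))
  by_contra ha
  push Not at ha
  have hone : ∀ x ∈ pos G P Q, ∃ c : ℂ, x = c • e := fun x hx =>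
    k.one x hx (by rw [← hpP, ← hqQ, hx.2.1, hx.2.2])
  obtain ⟨u, hQu, hu0⟩ : ∃ u, Q *ᵥ u = u ∧ u ≠ 0 := by
    by_contra hcon
    push Not at hcon
    have h1 : Q = 0 := eq_of_mulVec fun v => by
      rw [zero_mulVec]
      exact hcon _ (by rw [mulVec_mulVec, H.QQ])
    have h2 := H.trQ
    rw [h1, trace_zero] at h2
    have h3 : a = 0 := by exact_mod_cast h2.symm
    omega
  have hPu : P *ᵥ u = 0 := by rw [← hQu, mulVec_mulVec, H.PQ, zero_mulVec]
  have hPe : P * e = e := k.mem.2.1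
  have heQ : e * Q = e := k.mem.2.2
  have hee : e *ᵥ (e *ᵥ u) = 0 := by
    rw [mulVec_mulVec]
    nth_rewrite 1 [← heQ]
    nth_rewrite 2 [← hPe]
    rw [mul_assoc, ← mul_assoc Q, H.QP, zero_mul, mul_zero, zero_mulVec]
  have hHu : eᴴ *ᵥ u = 0 := by
    rw [← k.ep, ← mulVec_mulVec, ← hpP, hPu, mulVec_zero]
  have hHe : eᴴ *ᵥ (e *ᵥ u) = t • u := by
    rw [mulVec_mulVec, k.he, smul_mulVec, ← hqQ, hQu]
  let W : Submodule ℂ (B → ℂ) := Submodule.span ℂ (Set.range ![u, e *ᵥ u])
  have hWu : u ∈ W := Submodule.subset_span ⟨0, rfl⟩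
  have hWe : e *ᵥ u ∈ W := Submodule.subset_span ⟨1, rfl⟩
  have hW : ∀ (X : Matrix B B ℂ), X *ᵥ u ∈ W → X *ᵥ (e *ᵥ u) ∈ W → ∀ v ∈ W, X *ᵥ v ∈ W := by
    intro X h1 h2 v hv
    have h3 : W ≤ W.comap (mulVecLin X) := by
      refine Submodule.span_le.2 ?_
      rintro _ ⟨i, rfl⟩
      fin_cases i
      · exact h1
      · exact h2
    exact h3 hv
  have hst := hf.stab H (W := W) (fun x hx => by
    obtain ⟨c, rfl⟩ := hone x hx
    refine hW _ ?_ ?_
    · rw [smul_mulVec]
      exact W.smul_mem c hWe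
    · rw [smul_mulVec, hee, smul_zero]
      exact W.zero_mem) (fun x hx => by
    obtain ⟨c, hc⟩ := hone _ (H.symm.star_pos hx)
    have hx' : x = star c • eᴴ := by
      have h1 := congrArg conjTranspose hc
      rwa [conjTranspose_conjTranspose, conjTranspose_smul] at h1
    rw [hx']
    refine hW _ ?_ ?_
    · rw [smul_mulVec, hHu, smul_zero]
      exact W.zero_mem
    · rw [smul_mulVec, hHe]
      exact W.smul_mem _ (W.smul_mem _ hWu))
  have hfix : ∀ w ∈ W, (P + Q) *ᵥ w = w := by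
    intro w hw
    induction hw using Submodule.span_induction with
    | mem w hw =>
      obtain ⟨i, rfl⟩ := hw
      fin_cases i
      · change (P + Q) *ᵥ u = u
        rw [add_mulVec, hPu, hQu, zero_add]
      · change (P + Q) *ᵥ (e *ᵥ u) = e *ᵥ u
        rw [mulVec_mulVec, H.lel e k.mem.1]
    | zero => exact mulVec_zero _
    | add x y _ _ hx hy => rw [mulVec_add, hx, hy]
    | smul r x _ hx => rw [mulVec_smul, hx]
  rcases H.irr W hfix hst with h1 | h1
  · rw [h1, Submodule.mem_bot] at hWu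
    exact hu0 hWu
  · have h2 : LinearMap.range (mulVecLin (P + Q)) ≤ W := by
      rintro _ ⟨v, rfl⟩
      refine h1 _ ?_
      rw [mulVecLin_apply, mulVec_mulVec]
      congr 1
      rw [mul_add, add_mul, add_mul, H.PP, H.QP, H.PQ, H.QQ, add_zero, zero_add]
    have h3 := Submodule.finrank_mono h2
    have h4 := trace_idemM (P := P + Q) (by
      rw [mul_add, add_mul, add_mul, H.PP, H.QP, H.PQ, H.QQ, add_zero, zero_add])
    rw [trace_add, H.trP, H.trQ] at h4
    have h5 : a + a = finrank ℂ (LinearMap.range (mulVecLin (P + Q))) := by exact_mod_cast h4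
    have h6 : finrank ℂ W ≤ 2 := by
      have h0 := finrank_range_le_card (R := ℂ) ![u, e *ᵥ u]
      rw [Fintype.card_fin] at h0
      exact h0
    omega

end Pool.Agent.N994.PG
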