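import Mathlib
import Pool.Agent.N994.PG.Ends

/-!
# Tripotents of rank four in dimension six
-/

set_option linter.unusedSectionVars false

namespace Pool.Agent.N994.PG

open Matrix Module
open Pool.Agent.Y4.G (Lie trace_idemM trace_idemOp finrank_eq_one_of finrank_le_of_maps)
open Pool.Agent.Y4.G.Lie (pos mem_pos)
open Pool.Agent.R915 (Trp pos_ne_bot eq_of_mulVec idem_zero)

open scoped ComplexOrder

variable {B : Type*} [Fintype B] [DecidableEq B]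
variable {G : Submodule ℂ (Matrix B B ℂ)} {P Q : Matrix B B ℂ}

theorem symH {M : Matrix B B ℂ} (hM : Mᵀ = M) : (Mᴴ)ᵀ = Mᴴ := by
  have h1 : (Mᴴ)ᵀ = M.map star := rfl
  rw [h1]
  nth_rewrite 1 [← hM]
  rfl

/-- Tripotents of rank four in dimension six. -/
theorem no_423 (H : Lie G P Q 6 6) (hf : Full G P Q) {e p q : Matrix B B ℂ} {t : ℂ}
    (k : Trp G P Q e p q t) (hp : trace p = 4) (hsym : ∀ x ∈ pos G P Q, xᵀ = x)
    (h0 : ∀ x ∈ pos G P Q, (P - p) * x * (Q - q) = 0) (h3 : finrank ℂ (pos G P Q) = 3) :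
    False := by
  have hq : trace q = 4 := by rw [k.trpq, hp]
  obtain ⟨P', hP'⟩ : ∃ P', P' = P - p := ⟨_, rfl⟩
  obtain ⟨Q', hQ'⟩ : ∃ Q', Q' = Q - q := ⟨_, rfl⟩
  rw [← hP', ← hQ'] at h0
  have ht0 := k.t0
  -- the projectors
  have P'P' : P' * P' = P' := by
    rw [hP', sub_mul, mul_sub, mul_sub, H.PP, k.pp, k.Pp, k.pP]
    abel
  have Q'Q' : Q' * Q' = Q' := by
    rw [hQ', sub_mul, mul_sub, mul_sub, H.QQ, k.qq, k.qQ, k.Q1q]
    abel
  have P'p : P' * p = 0 := by rw [hP', sub_mul, k.Pp, k.pp, sub_self]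
  have pP' : p * P' = 0 := by rw [hP', mul_sub, k.pP, k.pp, sub_self]
  have Q'q : Q' * q = 0 := by rw [hQ', sub_mul, k.Q1q, k.qq, sub_self]
  have qQ' : q * Q' = 0 := by rw [hQ', mul_sub, k.qQ, k.qq, sub_self]
  have P'H : P'ᴴ = P' := by rw [hP', conjTranspose_sub, H.PH, k.pH]
  have Q'H : Q'ᴴ = Q' := by rw [hQ', conjTranspose_sub, H.QH, k.qH]
  have QQ' : Q * Q' = Q' := by rw [hQ', mul_sub, H.QQ, k.Q1q]
  have PP' : P * P' = P' := by rw [hP', mul_sub, H.PP, k.Pp]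
  have heP' : eᴴ * P' = 0 := by
    rw [← k.ep, mul_assoc, pP', mul_zero]
  have heQ' : e * Q' = 0 := by
    rw [← k.eq, mul_assoc, qQ', mul_zero]
  have trQ' : trace Q' = 2 := by
    rw [hQ', trace_sub, H.trQ, hq]
    norm_num
  have hqT : qᵀ = p := by
    have h1 : q = t⁻¹ • (eᴴ * e) := by rw [k.he, smul_smul, inv_mul_cancel₀ ht0, one_smul]
    have h2 : p = t⁻¹ • (e * eᴴ) := by rw [k.eh, smul_smul, inv_mul_cancel₀ ht0, one_smul]
    have h4 : (eᴴ)ᵀ = eᴴ := symH (hsym e k.mem)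
    rw [h1, h2, transpose_smul, transpose_mul, hsym e k.mem, h4]
  -- the space `V1`
  let V1 : Submodule ℂ (Matrix B B ℂ) :=
    { carrier := {y | y ∈ pos G P Q ∧ p * y * q = 0}
      zero_mem' := ⟨Submodule.zero_mem _, by rw [mul_zero, zero_mul]⟩
      add_mem' := fun {x y} hx hy => ⟨Submodule.add_mem _ hx.1 hy.1, by
        rw [mul_add, add_mul, hx.2, hy.2, add_zero]⟩
      smul_mem' := fun c x hx => ⟨Submodule.smul_mem _ _ hx.1, by
        rw [Matrix.mul_smul, Matrix.smul_mul, hx.2, smul_zero]⟩ }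
  have hV1 : ∀ y, y ∈ V1 ↔ y ∈ pos G P Q ∧ p * y * q = 0 := fun _ => Iff.rfl
  have hdec : ∀ x ∈ pos G P Q, ∃ α : ℂ, x - α • e ∈ V1 := by
    intro x hx
    obtain ⟨α, hα⟩ := k.one _ (k.mem2 x hx) (by
      have h1 : p * (p * x * q) * q = (p * p) * x * (q * q) := by noncomm_ring
      rw [h1, k.pp, k.qq])
    refine ⟨α, (hV1 _).2 ⟨Submodule.sub_mem _ hx (Submodule.smul_mem _ _ k.mem), ?_⟩⟩
    rw [mul_sub, sub_mul, hα, Matrix.mul_smul, Matrix.smul_mul, k.pe, k.eq, sub_self]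
  have hV1d : finrank ℂ V1 = 2 := by
    have h1 : Submodule.span ℂ {e} ⊓ V1 = ⊥ := by
      rw [eq_bot_iff]
      rintro y ⟨hy1, hy2⟩
      obtain ⟨c, rfl⟩ := Submodule.mem_span_singleton.1 hy1
      have h2 := ((hV1 _).1 hy2).2
      rw [Matrix.mul_smul, Matrix.smul_mul, k.pe, k.eq] at h2
      rw [Submodule.mem_bot]
      exact h2
    have h2 : Submodule.span ℂ {e} ⊔ V1 = pos G P Q := by
      apply le_antisymm
      · refine sup_le ?_ fun y hy => ((hV1 y).1 hy).1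
        rw [Submodule.span_singleton_le_iff_mem]
        exact k.mem
      · intro x hx
        obtain ⟨α, hα⟩ := hdec x hx
        rw [← sub_add_cancel x (α • e), add_comm]
        exact Submodule.add_mem_sup (Submodule.smul_mem _ _ (Submodule.mem_span_singleton_self e)) hα
    have h4 := Submodule.finrank_sup_add_finrank_inf_eq (Submodule.span ℂ {e}) V1
    rw [h1, h2, finrank_bot, finrank_span_singleton k.ne, h3] at h4
    omega
  -- the blocks
  have b1 : ∀ y ∈ V1, p * y = y * Q' := by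
    intro y hy
    obtain ⟨h1, h2⟩ := (hV1 y).1 hy
    have h4 := h0 y h1
    have e1 : p * y = p * y * Q' := by
      rw [hQ', mul_sub, h2, sub_zero, mul_assoc, h1.2.2]
    have e2 : y * Q' = p * y * Q' := by
      have e3 : P' * y * Q' = P * y * Q' - p * y * Q' := by rw [hP']; noncomm_ring
      rw [h4, h1.2.1] at e3
      exact sub_eq_zero.1 e3.symm
    rw [e1, ← e2]
  have b2 : ∀ y ∈ V1, y * q = P' * y := by
    intro y hy
    obtain ⟨h1, h2⟩ := (hV1 y).1 hy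
    have h4 := h0 y h1
    have e1 : y * q = P' * y * q := by
      rw [hP', sub_mul, sub_mul, h2, sub_zero, h1.2.1]
    have e2 : P' * y = P' * y * q := by
      have e3 : P' * y * Q' = P' * (y * Q) - P' * y * q := by rw [hQ']; noncomm_ring
      rw [h4, h1.2.2] at e3
      exact sub_eq_zero.1 e3.symm
    rw [e1, ← e2]
  have c1 : ∀ y ∈ V1, yᴴ * p = Q' * yᴴ := by
    intro y hy
    have h1 := congrArg conjTranspose (b1 y hy)
    rwa [conjTranspose_mul, conjTranspose_mul, k.pH, Q'H] at h1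
  have c2 : ∀ y ∈ V1, q * yᴴ = yᴴ * P' := by
    intro y hy
    have h1 := congrArg conjTranspose (b2 y hy)
    rwa [conjTranspose_mul, conjTranspose_mul, k.qH, P'H] at h1
  have R0 : ∀ y ∈ V1, ∀ z ∈ V1, y * eᴴ * z + z * eᴴ * y = 0 := by
    intro y hy z hz
    obtain ⟨w, hw⟩ : ∃ w, w = y * eᴴ * z + z * eᴴ * y := ⟨_, rfl⟩
    have hwm : w ∈ pos G P Q := by
      rw [hw]
      exact H.tri.tri y ((hV1 y).1 hy).1 e k.mem z ((hV1 z).1 hz).1
    have e1 : P' * w = w := by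
      have e2 : P' * w = (P' * y) * eᴴ * z + (P' * z) * eᴴ * y := by rw [hw]; noncomm_ring
      rw [e2, ← b2 y hy, ← b2 z hz, mul_assoc y q, k.qe, mul_assoc z q, k.qe, ← hw]
    have e3 : w * Q' = w := by
      have e2 : w * Q' = y * eᴴ * (z * Q') + z * eᴴ * (y * Q') := by rw [hw]; noncomm_ring
      rw [e2, ← b1 y hy, ← b1 z hz, ← mul_assoc, ← mul_assoc, mul_assoc y, k.ep, mul_assoc z,
        k.ep, ← hw]
    have e4 := h0 w hwm
    rw [e1, e3] at e4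
    rw [← hw, e4]
  have R1 : ∀ y ∈ V1, ∀ z ∈ V1, ∃ Λ : ℂ, y * zᴴ * e + e * zᴴ * y = Λ • e := by
    intro y hy z hz
    obtain ⟨w, hw⟩ : ∃ w, w = y * zᴴ * e + e * zᴴ * y := ⟨_, rfl⟩
    have hwm : w ∈ pos G P Q := by
      rw [hw]
      exact H.tri.tri y ((hV1 y).1 hy).1 z ((hV1 z).1 hz).1 e k.mem
    rw [← hw]
    refine k.one w hwm ?_
    have e1 : p * w * q = (p * y) * zᴴ * (e * q) + (p * e) * zᴴ * (y * q) := by
      rw [hw]; noncomm_ring
    have e2 : y * Q' * zᴴ * e = y * zᴴ * e := by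
      rw [mul_assoc y Q', ← c1 z hz, ← mul_assoc, mul_assoc (y * zᴴ), k.pe]
    have e3 : e * zᴴ * (P' * y) = e * zᴴ * y := by
      rw [← mul_assoc, mul_assoc e, ← c2 z hz, ← mul_assoc, k.eq]
    rw [e1, b1 y hy, b2 y hy, k.pe, k.eq, e2, e3, ← hw]
  -- the form on `V1`
  have R2 : ∀ y ∈ V1, ∃ l : ℂ, Q' * yᴴ * y * Q' = l • Q' := by
    intro y hy
    obtain ⟨Λ, hΛ⟩ := R1 y hy y hy
    have hyy : y * eᴴ * y = 0 := by
      have h1 := R0 y hy y hy
      rw [← two_smul ℂ] at h1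
      exact (smul_eq_zero.1 h1).resolve_left two_ne_zero
    have hstar : y * yᴴ * y * Q' = Λ • (y * Q') := by
      have h1 := congrArg (fun M => M * (eᴴ * y * Q')) hΛ
      beta_reduce at h1
      have e1 : (y * yᴴ * e + e * yᴴ * y) * (eᴴ * y * Q') =
          y * yᴴ * ((e * eᴴ) * y * Q') + e * yᴴ * (y * eᴴ * y) * Q' := by noncomm_ring
      have e2 : Λ • e * (eᴴ * y * Q') = Λ • ((e * eᴴ) * y * Q') := by
        rw [Matrix.smul_mul]
        congr 1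
        noncomm_ring
      have e3 : t • p * y * Q' = t • (y * Q') := by
        rw [Matrix.smul_mul, Matrix.smul_mul, b1 y hy, mul_assoc, Q'Q']
      rw [e1, e2, hyy, mul_zero, zero_mul, add_zero, k.eh, e3, Matrix.mul_smul, smul_comm Λ] at h1
      have h2 := smul_right_injective _ ht0 h1
      rw [← h2]
      noncomm_ring
    obtain ⟨C, hC⟩ : ∃ C, C = Q' * yᴴ * y * Q' := ⟨_, rfl⟩
    rw [← hC]
    have hCC : C * C = Λ • C := by
      have e1 : y * Q' * yᴴ * y * Q' = y * yᴴ * y * Q' := by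
        have e2 : y * yᴴ * y * Q' = y * Q * yᴴ * y * Q' := by rw [((hV1 y).1 hy).1.2.2]
        have e3 : y * Q * yᴴ * y * Q' = y * Q' * yᴴ * y * Q' + y * (q * yᴴ) * (y * Q') := by
          rw [hQ']; noncomm_ring
        have e4 : y * (q * yᴴ) * (y * Q') = 0 := by
          rw [c2 y hy, ← b1 y hy]
          have e5 : y * (yᴴ * P') * (p * y) = y * yᴴ * (P' * p) * y := by noncomm_ring
          rw [e5, P'p, mul_zero, zero_mul]
        rw [e2, e3, e4, add_zero]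
      have e6 : C * C = Q' * yᴴ * (y * (Q' * Q') * yᴴ * y * Q') := by
        rw [hC]; noncomm_ring
      rw [e6, Q'Q', e1, hstar, Matrix.mul_smul, hC]
      congr 1
      noncomm_ring
    have hCH : Cᴴ = C := by
      rw [hC, conjTranspose_mul, conjTranspose_mul, conjTranspose_mul, conjTranspose_conjTranspose,
        Q'H]
      noncomm_ring
    have hQC : Q' * C = C := by
      rw [hC, ← mul_assoc, ← mul_assoc, ← mul_assoc, Q'Q']
    have hCQ : C * Q' = C := by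
      rw [hC, mul_assoc _ Q' Q', Q'Q']
    have htr : trace C = 2 * Λ := by
      have h1 := congrArg (fun M => trace (M * eᴴ)) hΛ
      beta_reduce at h1
      have e1 : (y * yᴴ * e + e * yᴴ * y) * eᴴ = y * yᴴ * (e * eᴴ) + e * (yᴴ * y * eᴴ) := by
        noncomm_ring
      have e2 : trace (e * (yᴴ * y * eᴴ)) = t * trace (yᴴ * y * q) := by
        rw [trace_mul_comm, mul_assoc, k.he, Matrix.mul_smul, trace_smul, smul_eq_mul]
      have e3 : trace (y * yᴴ * (e * eᴴ)) = t * trace (p * y * yᴴ) := by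
        rw [k.eh, Matrix.mul_smul, trace_smul, smul_eq_mul, trace_mul_comm, mul_assoc]
      have e4 : trace (yᴴ * y * q) = trace (p * y * yᴴ) := by
        rw [← trace_transpose, transpose_mul, transpose_mul, hqT, hsym y ((hV1 y).1 hy).1,
          mul_assoc p]
        congr 2
        rw [symH (hsym y ((hV1 y).1 hy).1)]
      have e5 : trace (p * y * yᴴ) = trace C := by
        rw [b1 y hy, hC, mul_assoc, trace_mul_comm]
        nth_rewrite 1 [← Q'Q']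
        rw [mul_assoc Q' Q', mul_assoc Q', trace_mul_comm Q']
      rw [e1, trace_add, e2, e3, e4, e5, Matrix.smul_mul, trace_smul, k.eh, trace_smul, hp,
        smul_eq_mul, smul_eq_mul] at h1
      have h2 : t * (2 * trace C) = t * (4 * Λ) := by linear_combination h1
      have h4 := mul_left_cancel₀ ht0 h2
      linear_combination h4 / 2
    refine ⟨Λ, ?_⟩
    by_cases hΛ0 : Λ = 0
    · rw [hΛ0, zero_smul] at hCC ⊢
      have h1 : trace (C * Cᴴ) = 0 := by rw [hCH, hCC, trace_zero]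
      rwa [trace_mul_conjTranspose_self_eq_zero_iff] at h1
    · obtain ⟨c, hc⟩ : ∃ c, c = Λ⁻¹ • C := ⟨_, rfl⟩
      have hcc : c * c = c := by
        rw [hc, Matrix.smul_mul, Matrix.mul_smul, hCC, smul_smul, smul_smul,
          inv_mul_cancel_right₀ hΛ0]
      have h1 : (Q' - c) * (Q' - c) = Q' - c := by
        have e1 : Q' * c = c := by rw [hc, Matrix.mul_smul, hQC]
        have e2 : c * Q' = c := by rw [hc, Matrix.smul_mul, hCQ]
        rw [sub_mul, mul_sub, mul_sub, Q'Q', e1, e2, hcc]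
        abel
      have h2 := idem_zero h1 (by
        rw [trace_sub, trQ', hc, trace_smul, htr, smul_eq_mul]
        field_simp
        norm_num)
      rw [sub_eq_zero.1 h2, hc, smul_smul, mul_inv_cancel₀ hΛ0, one_smul]
  have R3 : ∀ y ∈ V1, ∀ z ∈ V1, ∃ l : ℂ, Q' * yᴴ * z * Q' = l • Q' := by
    intro y hy z hz
    obtain ⟨l1, h1⟩ := R2 y hy
    obtain ⟨l2, h2⟩ := R2 z hz
    obtain ⟨l4, h4⟩ := R2 _ (V1.add_mem hy hz)
    obtain ⟨l5, h5⟩ := R2 _ (V1.add_mem hy (V1.smul_mem Complex.I hz))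
    have e4 : Q' * (y + z)ᴴ * (y + z) * Q' = Q' * yᴴ * y * Q' + Q' * yᴴ * z * Q' +
        (Q' * zᴴ * y * Q' + Q' * zᴴ * z * Q') := by
      rw [conjTranspose_add]
      noncomm_ring
    have e5 : Q' * (y + Complex.I • z)ᴴ * (y + Complex.I • z) * Q' = Q' * yᴴ * y * Q' +
        Complex.I • (Q' * yᴴ * z * Q') + (-Complex.I) • (Q' * zᴴ * y * Q') +
          Q' * zᴴ * z * Q' := by
      rw [conjTranspose_add, conjTranspose_smul, show star Complex.I = -Complex.I from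
        Complex.conj_I]
      simp only [mul_add, add_mul, Matrix.mul_smul, Matrix.smul_mul, smul_smul]
      have : Complex.I * -Complex.I = 1 := by simp
      rw [this, one_smul]
      abel
    rw [h4, h1, h2] at e4
    rw [h5, h1, h2] at e5
    refine ⟨(2 : ℂ)⁻¹ * ((l4 - l1 - l2) - Complex.I * (l5 - l1 - l2)), ?_⟩
    have e6 : (2 : ℂ) • (Q' * yᴴ * z * Q') =
        ((l4 - l1 - l2) - Complex.I * (l5 - l1 - l2)) • Q' := by
      obtain ⟨M, hM⟩ : ∃ M, M = Q' * yᴴ * z * Q' := ⟨_, rfl⟩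
      obtain ⟨N, hN⟩ : ∃ N, N = Q' * zᴴ * y * Q' := ⟨_, rfl⟩
      rw [← hM, ← hN] at e4 e5
      rw [← hM]
      have f1 : (l4 - l1 - l2) • Q' = M + N := by
        rw [sub_smul, sub_smul, e4]
        abel
      have f2 : (l5 - l1 - l2) • Q' = Complex.I • (M - N) := by
        rw [sub_smul, sub_smul, e5, smul_sub, neg_smul]
        abel
      rw [sub_smul, mul_smul, f1, f2, smul_smul, Complex.I_mul_I, neg_one_smul, two_smul]
      abel
    rw [mul_smul, ← e6, smul_smul, inv_mul_cancel₀ two_ne_zero, one_smul]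
  -- the basis
  let bs := finBasisOfFinrankEq ℂ V1 hV1d
  obtain ⟨x2, hx2⟩ : ∃ x, x = (bs 0 : Matrix B B ℂ) := ⟨_, rfl⟩
  obtain ⟨x3, hx3⟩ : ∃ x, x = (bs 1 : Matrix B B ℂ) := ⟨_, rfl⟩
  have m2 : x2 ∈ V1 := by rw [hx2]; exact (bs 0).2
  have m3 : x3 ∈ V1 := by rw [hx3]; exact (bs 1).2
  have hall : ∀ x ∈ pos G P Q, ∃ α β γ : ℂ, x = α • e + β • x2 + γ • x3 := by
    intro x hx
    obtain ⟨α, hα⟩ := hdec x hx
    have h1 := congrArg Subtype.val (bs.sum_repr ⟨_, hα⟩)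
    rw [Fin.sum_univ_two] at h1
    have h2 : bs.repr ⟨_, hα⟩ 0 • x2 + bs.repr ⟨_, hα⟩ 1 • x3 = x - α • e := by
      rw [hx2, hx3]
      exact h1
    exact ⟨α, _, _, by rw [add_assoc, h2]; abel⟩
  -- the vector
  obtain ⟨v, hv, hv0⟩ : ∃ v, Q' *ᵥ v = v ∧ v ≠ 0 := by
    by_contra hcon
    push Not at hcon
    have h1 : Q' = 0 := eq_of_mulVec fun v => by
      rw [zero_mulVec]
      exact hcon _ (by rw [mulVec_mulVec, Q'Q'])
    rw [h1, trace_zero] at trQ'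
    norm_num at trQ'
  have hQv : Q *ᵥ v = v := by
    nth_rewrite 1 [← hv]
    rw [mulVec_mulVec, QQ', hv]
  have Pz : ∀ x ∈ pos G P Q, ∀ w : B → ℂ, P *ᵥ w = w → x *ᵥ w = 0 := by
    intro x hx w hw
    rw [← hw, mulVec_mulVec, ← hx.2.2, mul_assoc, H.QP, mul_zero, zero_mulVec]
  have Qz : ∀ x ∈ pos G Q P, ∀ w : B → ℂ, Q *ᵥ w = w → x *ᵥ w = 0 := by
    intro x hx w hw
    rw [← hw, mulVec_mulVec, ← hx.2.2, mul_assoc, H.PQ, mul_zero, zero_mulVec]
  have toP : ∀ x ∈ pos G P Q, ∀ w : B → ℂ, P *ᵥ (x *ᵥ w) = x *ᵥ w := fun x hx w => by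
    rw [mulVec_mulVec, hx.2.1]
  have toQ : ∀ x ∈ pos G Q P, ∀ w : B → ℂ, Q *ᵥ (x *ᵥ w) = x *ᵥ w := fun x hx w => by
    rw [mulVec_mulVec, hx.2.1]
  have n1 := H.star_pos k.mem
  have n2 := H.star_pos ((hV1 _).1 m2).1
  have n3 := H.star_pos ((hV1 _).1 m3).1
  have p2 := ((hV1 _).1 m2).1
  have p3 := ((hV1 _).1 m3).1
  obtain ⟨s, hs⟩ : ∃ s : Fin 6 → B → ℂ, s = ![v, x2 *ᵥ v, x3 *ᵥ v, eᴴ *ᵥ (x2 *ᵥ v),
    eᴴ *ᵥ (x3 *ᵥ v), x2 *ᵥ (eᴴ *ᵥ (x3 *ᵥ v))] := ⟨_, rfl⟩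
  have s0 : s 0 = v := by rw [hs]; rfl
  have s1 : s 1 = x2 *ᵥ v := by rw [hs]; rfl
  have s2 : s 2 = x3 *ᵥ v := by rw [hs]; rfl
  have s3 : s 3 = eᴴ *ᵥ (x2 *ᵥ v) := by rw [hs]; rfl
  have s4 : s 4 = eᴴ *ᵥ (x3 *ᵥ v) := by rw [hs]; rfl
  have s5 : s 5 = x2 *ᵥ (eᴴ *ᵥ (x3 *ᵥ v)) := by rw [hs]; rfl
  let W : Submodule ℂ (B → ℂ) := Submodule.span ℂ (Set.range s)
  have ms : ∀ i, s i ∈ W := fun i => Submodule.subset_span ⟨i, rfl⟩
  have hWst : ∀ (X : Matrix B B ℂ), (∀ i, X *ᵥ s i ∈ W) → ∀ v ∈ W, X *ᵥ v ∈ W := by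
    intro X h1 v hv
    have h2 : W ≤ W.comap (mulVecLin X) := by
      refine Submodule.span_le.2 ?_
      rintro _ ⟨i, rfl⟩
      exact h1 i
    exact h2 hv
  have F5 : ∀ (X : Matrix B B ℂ), X *ᵥ s 0 ∈ W → X *ᵥ s 1 ∈ W → X *ᵥ s 2 ∈ W → X *ᵥ s 3 ∈ W →
      X *ᵥ s 4 ∈ W → X *ᵥ s 5 ∈ W → ∀ i, X *ᵥ s i ∈ W := by
    intro X h0 h1 h2 h3 h4 h5 i
    fin_cases i
    · exact h0
    · exact h1
    · exact h2
    · exact h3
    · exact h4
    · exact h5
  -- elements of positive degree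
  have gP : ∀ X ∈ pos G P Q, X *ᵥ s 0 ∈ W → X *ᵥ s 3 ∈ W → X *ᵥ s 4 ∈ W → ∀ i, X *ᵥ s i ∈ W := by
    intro X hX h0 h3 h4
    refine F5 X h0 ?_ ?_ h3 h4 ?_
    · rw [s1, Pz X hX _ (toP x2 p2 _)]
      exact W.zero_mem
    · rw [s2, Pz X hX _ (toP x3 p3 _)]
      exact W.zero_mem
    · rw [s5, Pz X hX _ (toP x2 p2 _)]
      exact W.zero_mem
  have gQ : ∀ X ∈ pos G Q P, X *ᵥ s 1 ∈ W → X *ᵥ s 2 ∈ W → X *ᵥ s 5 ∈ W → ∀ i, X *ᵥ s i ∈ W := by
    intro X hX h1 h2 h5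
    refine F5 X ?_ h1 h2 ?_ ?_ h5
    · rw [s0, Qz X hX _ hQv]
      exact W.zero_mem
    · rw [s3, Qz X hX _ (toQ _ n1 _)]
      exact W.zero_mem
    · rw [s4, Qz X hX _ (toQ _ n1 _)]
      exact W.zero_mem
  have pxv : ∀ y ∈ V1, p *ᵥ (y *ᵥ v) = y *ᵥ v := by
    intro y hy
    rw [mulVec_mulVec, b1 y hy, ← mulVec_mulVec, hv]
  have ee : ∀ y ∈ V1, e *ᵥ (eᴴ *ᵥ (y *ᵥ v)) = t • (y *ᵥ v) := by
    intro y hy
    rw [mulVec_mulVec, k.eh, smul_mulVec, pxv y hy]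
  have h22 : x2 * eᴴ * x2 = 0 := by
    have h1 := R0 x2 m2 x2 m2
    rw [← two_smul ℂ] at h1
    exact (smul_eq_zero.1 h1).resolve_left two_ne_zero
  have h33 : x3 * eᴴ * x3 = 0 := by
    have h1 := R0 x3 m3 x3 m3
    rw [← two_smul ℂ] at h1
    exact (smul_eq_zero.1 h1).resolve_left two_ne_zero
  have h32 : x3 * eᴴ * x2 = -(x2 * eᴴ * x3) := eq_neg_of_add_eq_zero_right (R0 x2 m2 x3 m3)
  have ge : ∀ i, e *ᵥ s i ∈ W := by
    refine gP e k.mem ?_ ?_ ?_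
    · rw [s0, ← hv, mulVec_mulVec, heQ', zero_mulVec]
      exact W.zero_mem
    · rw [s3, ee x2 m2, ← s1]
      exact W.smul_mem _ (ms 1)
    · rw [s4, ee x3 m3, ← s2]
      exact W.smul_mem _ (ms 2)
  have g2 : ∀ i, x2 *ᵥ s i ∈ W := by
    refine gP x2 p2 ?_ ?_ ?_
    · rw [s0, ← s1]
      exact ms 1
    · rw [s3, mulVec_mulVec, mulVec_mulVec, h22, zero_mulVec]
      exact W.zero_mem
    · rw [s4, ← s5]
      exact ms 5
  have g3 : ∀ i, x3 *ᵥ s i ∈ W := by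
    refine gP x3 p3 ?_ ?_ ?_
    · rw [s0, ← s2]
      exact ms 2
    · have h1 : x3 *ᵥ (eᴴ *ᵥ (x2 *ᵥ v)) = -(x2 *ᵥ (eᴴ *ᵥ (x3 *ᵥ v))) := by
        rw [mulVec_mulVec, mulVec_mulVec, h32, neg_mulVec, mulVec_mulVec, mulVec_mulVec]
      rw [s3, h1, ← s5]
      exact W.neg_mem (ms 5)
    · rw [s4, mulVec_mulVec, mulVec_mulVec, h33, zero_mulVec]
      exact W.zero_mem
  -- elements of negative degree
  have zx : ∀ z ∈ V1, ∀ x ∈ V1, ∃ l : ℂ, zᴴ *ᵥ (x *ᵥ v) = l • v := by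
    intro z hz x hx
    obtain ⟨l, hl⟩ := R3 z hz x hx
    refine ⟨l, ?_⟩
    rw [← pxv x hx, mulVec_mulVec, c1 z hz, mulVec_mulVec]
    nth_rewrite 1 [← hv]
    rw [mulVec_mulVec, hl, smul_mulVec, hv]
  have z5 : ∀ z ∈ V1, zᴴ *ᵥ s 5 ∈ W := by
    intro z hz
    obtain ⟨Λ, hΛ⟩ := R1 x2 m2 z hz
    obtain ⟨l, hl⟩ := zx z hz x3 m3
    have h1 := congrArg (fun M => (eᴴ * M) *ᵥ (eᴴ *ᵥ (x3 *ᵥ v))) hΛ
    beta_reduce at h1
    have e1 : eᴴ * (x2 * zᴴ * e + e * zᴴ * x2) = eᴴ * x2 * zᴴ * e + (eᴴ * e) * zᴴ * x2 := by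
      noncomm_ring
    have e2 : (eᴴ * x2 * zᴴ * e) *ᵥ (eᴴ *ᵥ (x3 *ᵥ v)) = t • (l • s 3) := by
      rw [← mulVec_mulVec, ee x3 m3, mulVec_smul, ← mulVec_mulVec, hl, mulVec_smul,
        ← mulVec_mulVec, s3]
    have e3 : ((eᴴ * e) * zᴴ * x2) *ᵥ (eᴴ *ᵥ (x3 *ᵥ v)) = t • (zᴴ *ᵥ s 5) := by
      have f1 : t • q * zᴴ * x2 = t • (zᴴ * (x2 * q)) := by
        rw [Matrix.smul_mul, Matrix.smul_mul, c2 z hz, mul_assoc, b2 x2 m2]
      have f2 : q *ᵥ (eᴴ *ᵥ (x3 *ᵥ v)) = eᴴ *ᵥ (x3 *ᵥ v) := by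
        rw [mulVec_mulVec, k.qe]
      rw [k.he, f1, smul_mulVec, ← mulVec_mulVec, ← mulVec_mulVec, f2, s5]
    have e4 : (eᴴ * Λ • e) *ᵥ (eᴴ *ᵥ (x3 *ᵥ v)) = t • (Λ • s 4) := by
      have f2 : q *ᵥ (eᴴ *ᵥ (x3 *ᵥ v)) = eᴴ *ᵥ (x3 *ᵥ v) := by
        rw [mulVec_mulVec, k.qe]
      rw [Matrix.mul_smul, k.he, smul_mulVec, smul_mulVec, f2, ← s4, smul_comm]
    rw [e1, add_mulVec, e2, e3, e4, ← smul_add] at h1
    have h2 := smul_right_injective _ ht0 h1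
    have h4 : zᴴ *ᵥ s 5 = Λ • s 4 - l • s 3 := by
      rw [← h2]
      abel
    rw [h4]
    exact W.sub_mem (W.smul_mem _ (ms 4)) (W.smul_mem _ (ms 3))
  have gz : ∀ z ∈ V1, ∀ i, zᴴ *ᵥ s i ∈ W := by
    intro z hz
    refine gQ _ (H.star_pos ((hV1 _).1 hz).1) ?_ ?_ (z5 z hz)
    · obtain ⟨l, hl⟩ := zx z hz x2 m2
      rw [s1, hl, ← s0]
      exact W.smul_mem _ (ms 0)
    · obtain ⟨l, hl⟩ := zx z hz x3 m3
      rw [s2, hl, ← s0]
      exact W.smul_mem _ (ms 0)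
  have geH : ∀ i, eᴴ *ᵥ s i ∈ W := by
    refine gQ _ n1 ?_ ?_ ?_
    · rw [s1, ← s3]
      exact ms 3
    · rw [s2, ← s4]
      exact ms 4
    · have h1 : s 5 = P' *ᵥ s 5 := by
        have h2 : x2 *ᵥ (eᴴ *ᵥ (x3 *ᵥ v)) = (P' * x2) *ᵥ (eᴴ *ᵥ (x3 *ᵥ v)) := by
          rw [← b2 x2 m2, ← mulVec_mulVec, mulVec_mulVec _ q, k.qe]
        rw [s5, mulVec_mulVec _ P', ← h2]
      rw [h1, mulVec_mulVec, heP', zero_mulVec]
      exact W.zero_mem
  -- the contradiction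
  have hst := hf.stab H (W := W) (fun x hx => by
    obtain ⟨α, β, γ, rfl⟩ := hall x hx
    refine hWst _ fun i => ?_
    rw [add_mulVec, add_mulVec, smul_mulVec, smul_mulVec, smul_mulVec]
    exact W.add_mem (W.add_mem (W.smul_mem _ (ge i)) (W.smul_mem _ (g2 i))) (W.smul_mem _ (g3 i)))
    (fun x hx => by
    obtain ⟨α, β, γ, h1⟩ := hall _ (H.symm.star_pos hx)
    have h2 : x = star α • eᴴ + star β • x2ᴴ + star γ • x3ᴴ := by
      have h4 := congrArg conjTranspose h1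
      rwa [conjTranspose_conjTranspose, conjTranspose_add, conjTranspose_add, conjTranspose_smul,
        conjTranspose_smul, conjTranspose_smul] at h4
    rw [h2]
    refine hWst _ fun i => ?_
    rw [add_mulVec, add_mulVec, smul_mulVec, smul_mulVec, smul_mulVec]
    exact W.add_mem (W.add_mem (W.smul_mem _ (geH i)) (W.smul_mem _ (gz x2 m2 i)))
      (W.smul_mem _ (gz x3 m3 i)))
  have fP : ∀ w : B → ℂ, P *ᵥ w = w → (P + Q) *ᵥ w = w := by
    intro w hw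
    rw [add_mulVec, hw]
    nth_rewrite 2 [← hw]
    rw [mulVec_mulVec, H.QP, zero_mulVec, add_zero]
  have fQ : ∀ w : B → ℂ, Q *ᵥ w = w → (P + Q) *ᵥ w = w := by
    intro w hw
    rw [add_mulVec, hw]
    nth_rewrite 1 [← hw]
    rw [mulVec_mulVec, H.PQ, zero_mulVec, zero_add]
  have hfix : ∀ w ∈ W, (P + Q) *ᵥ w = w := by
    intro w hw
    induction hw using Submodule.span_induction with
    | mem w hw =>
      obtain ⟨i, rfl⟩ := hw
      have hi : s i = s 0 ∨ s i = s 1 ∨ s i = s 2 ∨ s i = s 3 ∨ s i = s 4 ∨ s i = s 5 := by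
        fin_cases i
        · exact Or.inl rfl
        · exact Or.inr (Or.inl rfl)
        · exact Or.inr (Or.inr (Or.inl rfl))
        · exact Or.inr (Or.inr (Or.inr (Or.inl rfl)))
        · exact Or.inr (Or.inr (Or.inr (Or.inr (Or.inl rfl))))
        · exact Or.inr (Or.inr (Or.inr (Or.inr (Or.inr rfl))))
      rcases hi with hi | hi | hi | hi | hi | hi
      · rw [hi, s0]
        exact fQ _ hQv
      · rw [hi, s1]
        exact fP _ (toP x2 p2 _)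
      · rw [hi, s2]
        exact fP _ (toP x3 p3 _)
      · rw [hi, s3]
        exact fQ _ (toQ _ n1 _)
      · rw [hi, s4]
        exact fQ _ (toQ _ n1 _)
      · rw [hi, s5]
        exact fP _ (toP x2 p2 _)
    | zero => exact mulVec_zero _
    | add x y _ _ hx hy => rw [mulVec_add, hx, hy]
    | smul r x _ hx => rw [mulVec_smul, hx]
  rcases H.irr W hfix hst with h1 | h1
  · have h2 := ms 0
    rw [s0, h1, Submodule.mem_bot] at h2
    exact hv0 h2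
  · have h2 : LinearMap.range (mulVecLin (P + Q)) ≤ W := by
      rintro _ ⟨v, rfl⟩
      refine h1 _ ?_
      rw [mulVecLin_apply, mulVec_mulVec]
      congr 1
      rw [mul_add, add_mul, add_mul, H.PP, H.QP, H.PQ, H.QQ, add_zero, zero_add]
    have h3 := Submodule.finrank_mono h2
    have h4 := trace_idemM (P := P + Q) (by
      rw [mul_add, add_mul, add_mul, H.PP, H.QP, H.PQ, H.QQ, add_zero, zero_add])
    rw [trace_add, H.trP, H.trQ] at h4
    have h5 : 6 + 6 = finrank ℂ (LinearMap.range (mulVecLin (P + Q))) := by exact_mod_cast h4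
    have h6 : finrank ℂ W ≤ 6 := by
      have h0 := finrank_range_le_card (R := ℂ) s
      rw [Fintype.card_fin] at h0
      exact h0
    omega

end Pool.Agent.N994.PG
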