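import Mathlib
import Pool.Agent.N994.PG.Ends2

/-!
# The Lie algebra of an abelian variety in real hermitian coordinates
-/

set_option linter.unusedSectionVars false

namespace Pool.Agent.N994.PG

open Matrix Module Pool.Agent.W437.HC Pool.Agent.W437.HD Pool.Agent.TH504.CB Pool.Agent.Y90
  Pool.Agent.R915
open Pool.Agent.W548.Odd hiding cv
open Pool.Agent.Y4.G (Lie lr lr_apply trace_idemM)
open Pool.Agent.Y4.G.Lie (pos mem_pos)
open Pool.Agent.W437.HP (cK cK_mul cK_one)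

noncomputable section

variable {g : ℕ} {Z : Matrix (Fin g) (Fin g) ℂ}

/-- Real hermitian coordinates. -/
theorem exists_Sr (h : PM Z) : ∃ S Si : Matrix (Fin g ⊕ Fin g) (Fin g ⊕ Fin g) ℂ, S * Si = 1 ∧
    Si * S = 1 ∧ (S * DZ Z * Si)ᴴ = S * DZ Z * Si ∧
    (∀ X ∈ LZ Z, S * -(DZ Z * X.map cc * DZ Z) * Si = (S * X * Si)ᴴ) ∧
    S.map cc = S ∧ Si.map cc = Si := by
  obtain ⟨y, hy, hyy⟩ := exists_sqrt (OmJ_posDef h.symm h.pos)
  rw [star_eq_conjTranspose, conjTranspose_eq_transpose_of_trivial] at hyy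
  obtain ⟨yi, hyyi⟩ : ∃ yi, y * yi = 1 := hy.exists_right_inv
  have hSSi : cm y * cm yi = 1 := by rw [← cm_mul, hyyi, cm_one]
  have hSiS : cm yi * cm y = 1 := mul_eq_one_comm.1 hSSi
  have hOS : Om g ℂ * cm (JR Z) = (cm y)ᵀ * cm y := by
    rw [← cm_Om, ← cm_mul, hyy, cm_mul, cm_transpose]
  have hT : (cm y)ᴴ = (cm y)ᵀ := by
    ext i j
    simp [cm]
  have hR : (cm y)ᴴ * cm y = Om g ℂ * cm (JR Z) := by rw [hT, hOS]
  have hcm : ∀ M : Matrix (Fin g ⊕ Fin g) (Fin g ⊕ Fin g) ℝ, (cm M).map cc = cm M := by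
    intro M
    ext i j
    exact Complex.conj_ofReal _
  refine ⟨cm y, cm yi, hSSi, hSiS, sa_conj hSSi hR (D_sa h), fun X hX => ?_, hcm y, hcm yi⟩
  -- the adjoint of X is `J X' J`
  obtain ⟨X', hX'⟩ : ∃ X', X' = X.map cc := ⟨_, rfl⟩
  have hX'm : X' ∈ LZ Z := by
    rw [hX']
    exact gal_LZ cc X hX
  rw [← hX']
  have hJD : cm (JR Z) = Complex.I • DZ Z := by
    change _ = Complex.I • ((-Complex.I) • cm (JR Z))
    rw [smul_smul, show Complex.I * -Complex.I = 1 by simp, one_smul]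
  have hXH : Xᴴ = X'ᵀ := by
    rw [hX']
    rfl
  have hsp : X'ᵀ * Om g ℂ + Om g ℂ * X' = 0 := h.sp hX'm
  have e1 : Om g ℂ * X' = -(X'ᵀ * Om g ℂ) := eq_neg_of_add_eq_zero_right hsp
  -- multiply with the hermitian form
  have e2 : (Om g ℂ * cm (JR Z)) * -(DZ Z * X' * DZ Z) = Xᴴ * (Om g ℂ * cm (JR Z)) := by
    rw [hXH, hJD]
    have e3 : Om g ℂ * Complex.I • DZ Z * -(DZ Z * X' * DZ Z) =
        -(Complex.I • (Om g ℂ * (DZ Z * DZ Z) * X' * DZ Z)) := by
      rw [Matrix.mul_smul, Matrix.smul_mul, mul_neg, smul_neg]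
      congr 2
      noncomm_ring
    rw [e3, DZ_sq h.det, mul_one, e1, Matrix.mul_smul, Matrix.mul_smul, neg_mul, smul_neg, neg_neg,
      mul_assoc]
  rw [conjTranspose_mul, conjTranspose_mul]
  symm
  calc (cm yi)ᴴ * (Xᴴ * (cm y)ᴴ) = (cm yi)ᴴ * (Xᴴ * (cm y)ᴴ) * (cm y * cm yi) := by
        rw [hSSi, mul_one]
  _ = (cm yi)ᴴ * (Xᴴ * ((cm y)ᴴ * cm y)) * cm yi := by noncomm_ring
  _ = (cm yi)ᴴ * (((cm y)ᴴ * cm y) * -(DZ Z * X' * DZ Z)) * cm yi := by rw [hR, e2]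
  _ = ((cm yi)ᴴ * (cm y)ᴴ) * cm y * -(DZ Z * X' * DZ Z) * cm yi := by noncomm_ring
  _ = cm y * -(DZ Z * X' * DZ Z) * cm yi := by
    rw [← conjTranspose_mul, hSSi, conjTranspose_one, one_mul]

theorem lie_of (h : PM Z) {U : Submodule ℂ (Fin g ⊕ Fin g → ℂ)} (hU : IrS (LZ Z) U)
    {S Si e : Matrix (Fin g ⊕ Fin g) (Fin g ⊕ Fin g) ℂ} (hSSi : S * Si = 1) (hSiS : Si * S = 1)
    (hDs : (S * DZ Z * Si)ᴴ = S * DZ Z * Si)
    (had : ∀ X ∈ LZ Z, ∃ Y ∈ LZ Z, S * Y * Si = (S * X * Si)ᴴ)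
    (he1 : ∀ v, e *ᵥ v ∈ U) (he2 : ∀ v ∈ U, e *ᵥ v = v) (he3 : (S * e * Si)ᴴ = S * e * Si)
    (hce : ∀ X ∈ LZ Z, X * e = e * X) :
    Lie ((LZ Z).map (lr S (e * Si))) (S * pP (DZ Z) e 1 * Si) (S * pP (DZ Z) e (-1) * Si)
        (pd Z U) (qd Z U) := by
  have hee : e * e = e := eq_of_mulVec fun v => by rw [← mulVec_mulVec, he2 _ (he1 v)]
  have hD := DZ_sq h.det
  have hDe := hce _ (DZ_mem (Z := Z))
  have hcj : ∀ X Y : Matrix (Fin g ⊕ Fin g) (Fin g ⊕ Fin g) ℂ,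
      (S * X * Si) * (S * Y * Si) = S * (X * Y) * Si := by
    intro X Y
    calc (S * X * Si) * (S * Y * Si) = S * X * (Si * S) * Y * Si := by noncomm_ring
    _ = _ := by rw [hSiS]; noncomm_ring
  have hlr : ∀ X, lr S (e * Si) X = S * (X * e) * Si := by
    intro X
    rw [lr_apply]
    noncomm_ring
  have hpq : pP (DZ Z) e 1 + pP (DZ Z) e (-1) = e := by
    unfold pP
    rw [← smul_add, ← add_mul]
    have : (1 + (1 : ℂ) • DZ Z + (1 + (-1 : ℂ) • DZ Z) :
        Matrix (Fin g ⊕ Fin g) (Fin g ⊕ Fin g) ℂ) = (2 : ℂ) • 1 := by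
      rw [one_smul, neg_one_smul, two_smul]
      abel
    rw [this, Matrix.smul_mul, one_mul, smul_smul]
    norm_num
  have hpmq : pP (DZ Z) e 1 - pP (DZ Z) e (-1) = DZ Z * e := by
    unfold pP
    rw [← smul_sub, ← sub_mul]
    have : (1 + (1 : ℂ) • DZ Z - (1 + (-1 : ℂ) • DZ Z) :
        Matrix (Fin g ⊕ Fin g) (Fin g ⊕ Fin g) ℂ) = (2 : ℂ) • DZ Z := by
      rw [one_smul, neg_one_smul, two_smul]
      abel
    rw [this, Matrix.smul_mul, smul_smul]
    norm_num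
  have hadd : S * pP (DZ Z) e 1 * Si + S * pP (DZ Z) e (-1) * Si = S * e * Si := by
    rw [← add_mul, ← mul_add, hpq]
  have hprod : ∀ c c' : ℂ, pP (DZ Z) e c * pP (DZ Z) e c' =
      (4 : ℂ)⁻¹ • ((1 + c • DZ Z) * (1 + c' • DZ Z) * e) := by
    intro c c'
    unfold pP
    rw [Matrix.smul_mul, Matrix.mul_smul, smul_smul]
    have h5 : e * (1 + c' • DZ Z) = (1 + c' • DZ Z) * e := by
      rw [mul_add, add_mul, mul_one, one_mul, Matrix.mul_smul, Matrix.smul_mul, hDe]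
    have h6 : (1 + c • DZ Z) * e * ((1 + c' • DZ Z) * e) =
        (1 + c • DZ Z) * (1 + c' • DZ Z) * e := by
      calc (1 + c • DZ Z) * e * ((1 + c' • DZ Z) * e) =
          (1 + c • DZ Z) * (e * (1 + c' • DZ Z)) * e := by noncomm_ring
      _ = (1 + c • DZ Z) * (1 + c' • DZ Z) * (e * e) := by rw [h5]; noncomm_ring
      _ = _ := by rw [hee]
    rw [h6]
    norm_num
  have hPP : pP (DZ Z) e 1 * pP (DZ Z) e 1 = pP (DZ Z) e 1 := by
    rw [hprod]
    unfold pP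
    rw [one_add_sq (csq hD (by norm_num)), Matrix.smul_mul, smul_smul]
    norm_num
  have hQQ : pP (DZ Z) e (-1) * pP (DZ Z) e (-1) = pP (DZ Z) e (-1) := by
    rw [hprod]
    unfold pP
    rw [one_add_sq (csq hD (by norm_num)), Matrix.smul_mul, smul_smul]
    norm_num
  have hPQ : pP (DZ Z) e 1 * pP (DZ Z) e (-1) = 0 := by
    rw [hprod]
    have : (1 + (1 : ℂ) • DZ Z) * (1 + (-1 : ℂ) • DZ Z) =
        (0 : Matrix (Fin g ⊕ Fin g) (Fin g ⊕ Fin g) ℂ) := by
      rw [one_smul, neg_one_smul, ← sub_eq_add_neg, one_add_sub hD]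
    rw [this, zero_mul, smul_zero]
  have hQP : pP (DZ Z) e (-1) * pP (DZ Z) e 1 = 0 := by
    rw [hprod]
    have : (1 + (-1 : ℂ) • DZ Z) * (1 + (1 : ℂ) • DZ Z) =
        (0 : Matrix (Fin g ⊕ Fin g) (Fin g ⊕ Fin g) ℂ) := by
      have h1 : (1 + (-1 : ℂ) • DZ Z) * (1 + (1 : ℂ) • DZ Z) = 1 - DZ Z * DZ Z := by
        rw [one_smul, neg_one_smul]
        noncomm_ring
      rw [h1, hD, sub_self]
    rw [this, zero_mul, smul_zero]
  have hPH : ∀ c : ℂ, star c = c → (S * pP (DZ Z) e c * Si)ᴴ = S * pP (DZ Z) e c * Si := by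
    intro c hc
    have h5 : S * pP (DZ Z) e c * Si = (2 : ℂ)⁻¹ • ((1 + c • (S * DZ Z * Si)) * (S * e * Si)) := by
      unfold pP
      have h6 : (1 + c • (S * DZ Z * Si)) * (S * e * Si) = S * ((1 + c • DZ Z) * e) * Si := by
        have h8 : 1 + c • (S * DZ Z * Si) = S * (1 + c • DZ Z) * Si := by
          rw [mul_add, add_mul, mul_one, hSSi, Matrix.mul_smul, Matrix.smul_mul]
        rw [h8, hcj]
      rw [h6, Matrix.mul_smul, Matrix.smul_mul]
    have h7 : (S * DZ Z * Si) * (S * e * Si) = (S * e * Si) * (S * DZ Z * Si) := by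
      rw [hcj, hcj, hDe]
    rw [h5, conjTranspose_smul, conjTranspose_mul, conjTranspose_add, conjTranspose_one,
      conjTranspose_smul, hDs, he3, hc, mul_add, mul_one, add_mul, one_mul, Matrix.mul_smul,
      Matrix.smul_mul, h7]
    congr 1
    simp
  exact {
    br := by
      rintro _ ⟨X, hX, rfl⟩ _ ⟨Y, hY, rfl⟩
      refine ⟨X * Y - Y * X, LZ_br hX hY, ?_⟩
      rw [hlr, hlr, hlr, hcj, hcj]
      have h1 : X * e * (Y * e) = X * Y * e := by
        rw [mul_assoc, ← mul_assoc e, ← hce Y hY, mul_assoc Y, hee, mul_assoc]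
      have h2 : Y * e * (X * e) = Y * X * e := by
        rw [mul_assoc, ← mul_assoc e, ← hce X hX, mul_assoc X, hee, mul_assoc]
      rw [h1, h2]
      noncomm_ring
    ad := by
      rintro _ ⟨X, hX, rfl⟩
      obtain ⟨Y, hY, hYX⟩ := had X hX
      refine ⟨Y, hY, ?_⟩
      rw [hlr, hlr, hce _ hX, ← hcj, ← hcj, hYX, conjTranspose_mul (S * e * Si) (S * X * Si), he3]
    PP := by rw [hcj, hPP]
    QQ := by rw [hcj, hQQ]
    PH := hPH 1 (by simp)
    QH := hPH (-1) (by simp)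
    PQ := by rw [hcj, hPQ, mul_zero, zero_mul]
    QP := by rw [hcj, hQP, mul_zero, zero_mul]
    D := by
      refine ⟨DZ Z, DZ_mem, ?_⟩
      rw [hlr, ← hpmq]
      noncomm_ring
    lel := by
      rintro _ ⟨X, hX, rfl⟩
      have h1 : e * (X * e) = X * e := by
        rw [← mul_assoc, ← hce X hX, mul_assoc, hee]
      rw [hadd, hlr, hcj, h1]
    ler := by
      rintro _ ⟨X, hX, rfl⟩
      rw [hadd, hlr, hcj, mul_assoc X, hee]
    irr := by
      intro V hV hs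
      rw [hadd] at hV ⊢
      have hcv : ∀ u, S *ᵥ (Si *ᵥ u) = u := fun u => by rw [mulVec_mulVec, hSSi, one_mulVec]
      have hcv' : ∀ u, Si *ᵥ (S *ᵥ u) = u := fun u => by rw [mulVec_mulVec, hSiS, one_mulVec]
      have hU1 : ∀ u, (S * e * Si) *ᵥ u = u → Si *ᵥ u ∈ U := by
        intro u hu
        have h1 := congrArg (fun z => Si *ᵥ z) hu
        simp only [mulVec_mulVec] at h1
        have h2 : Si * (S * e * Si) = e * Si := by
          rw [← mul_assoc, ← mul_assoc, hSiS, one_mul]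
        rw [h2, ← mulVec_mulVec] at h1
        rw [← h1]
        exact he1 _
      rcases hU.2.2 (V.comap (mulVecLin S)) (by
        intro u hu
        have h1 := hU1 _ (hV _ (Submodule.mem_comap.1 hu))
        rw [mulVecLin_apply, hcv'] at h1
        exact h1) (by
        intro X hX u hu
        rw [Submodule.mem_comap, mulVecLin_apply] at hu ⊢
        have h1 := hs _ ⟨X, hX, rfl⟩ _ hu
        rw [hlr] at h1
        have h2 : (S * (X * e) * Si) *ᵥ (S *ᵥ u) = S *ᵥ (X *ᵥ (e *ᵥ u)) := by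
          rw [mulVec_mulVec, mulVec_mulVec, mulVec_mulVec, mul_assoc (S * (X * e)), hSiS,
            mul_one, mul_assoc S X]
        have h3 := hU1 _ (hV _ hu)
        rw [hcv'] at h3
        rw [h2, he2 u h3] at h1
        exact h1) with h1 | h1
      · left
        rw [Submodule.eq_bot_iff] at h1 ⊢
        intro u hu
        have h2 := h1 (Si *ᵥ u) (by
          rw [Submodule.mem_comap, mulVecLin_apply, hcv]
          exact hu)
        rw [← hcv u, h2, mulVec_zero]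
      · right
        intro u hu
        have h4 : Si *ᵥ u ∈ V.comap (mulVecLin S) := by
          rw [h1]
          exact hU1 u hu
        rw [Submodule.mem_comap, mulVecLin_apply, hcv] at h4
        exact h4
    trP := by
      rw [trace_mul_comm, ← mul_assoc, hSiS, one_mul]
      exact trace_pP (Or.inl rfl) h hU.2.1 he1 he2 hDe
    trQ := by
      rw [trace_mul_comm, ← mul_assoc, hSiS, one_mul]
      exact trace_pP (Or.inr rfl) h hU.2.1 he1 he2 hDe }


end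

end Pool.Agent.N994.PG
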