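import Mathlib
import Pool.Agent.N994.PG.Top
import Pool.Agent.N994.PG.Alt

/-!
# Ideals of the Lie algebra of an abelian variety
-/

set_option linter.unusedSectionVars false

namespace Pool.Agent.N994.PG

open Matrix Module Pool.Agent.W437.HC Pool.Agent.W437.HD Pool.Agent.TH504.CB Pool.Agent.Y90
  Pool.Agent.R915
open Pool.Agent.W548.Odd hiding cv
open Pool.Agent.Y4.G (Lie lr lr_apply trace_idemM)
open Pool.Agent.Y4.G.Lie (pos mem_pos)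
open Pool.Agent.W437.HP (cK cK_mul cK_one)

noncomputable section

variable {g : ℕ} {Z : Matrix (Fin g) (Fin g) ℂ}

/-- Hermitian coordinates on an irreducible submodule. -/
structure Co (h : PM Z) (U : Submodule ℂ (Fin g ⊕ Fin g → ℂ))
    (S Si e : Matrix (Fin g ⊕ Fin g) (Fin g ⊕ Fin g) ℂ) : Prop where
  SSi : S * Si = 1
  SiS : Si * S = 1
  e1 : ∀ v, e *ᵥ v ∈ U
  e2 : ∀ v ∈ U, e *ᵥ v = v
  ce : ∀ X ∈ LZ Z, X * e = e * X
  H : Lie ((LZ Z).map (lr S (e * Si))) (S * pP (DZ Z) e 1 * Si) (S * pP (DZ Z) e (-1) * Si)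
    (pd Z U) (qd Z U)

theorem exists_co (h : PM Z) {U : Submodule ℂ (Fin g ⊕ Fin g → ℂ)} (hU : IrS (LZ Z) U) :
    ∃ S Si e, Co h U S Si e := by
  obtain ⟨S, Si, e, h1, h2, h3, h4, h5, h6⟩ := lie_irr h hU
  exact ⟨S, Si, e, h1, h2, h3, h4, h5, h6⟩

/-- The Lie algebra is generated, as an ideal, by the elements of positive degree. -/
def FullZ (Z : Matrix (Fin g) (Fin g) ℂ) : Prop :=
  ∀ J, IsId (LZ Z) J → (∀ N ∈ LZ Z, DZ Z * N = N → N * DZ Z = -N → N ∈ J) → LZ Z ≤ J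

theorem two_le_tr (h : PM Z) {U : Submodule ℂ (Fin g ⊕ Fin g → ℂ)} (hU : IrS (LZ Z) U)
    (hs : SDu Z U) : pd Z U = qd Z U ∧ 0 < pd Z U := by
  obtain ⟨b, h0, hb⟩ := hs
  have htr := tr_dual h hU hU h0 hb
  have hpq := pd_add_qd h hU.2.1
  unfold tr at htr
  have h1 : 0 < finrank ℂ U := by
    rw [Nat.pos_iff_ne_zero, ne_eq, Submodule.finrank_eq_zero]
    exact hU.1
  omega

namespace Co

variable {h : PM Z} {U : Submodule ℂ (Fin g ⊕ Fin g → ℂ)}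
  {S Si e : Matrix (Fin g ⊕ Fin g) (Fin g ⊕ Fin g) ℂ} (k : Co h U S Si e)
include k

theorem ee : e * e = e := eq_of_mulVec fun v => by rw [← mulVec_mulVec, k.e2 _ (k.e1 v)]

theorem lr' (X : Matrix (Fin g ⊕ Fin g) (Fin g ⊕ Fin g) ℂ) :
    lr S (e * Si) X = S * (X * e) * Si := by
  rw [lr_apply]
  noncomm_ring

theorem cj (X Y : Matrix (Fin g ⊕ Fin g) (Fin g ⊕ Fin g) ℂ) :
    (S * X * Si) * (S * Y * Si) = S * (X * Y) * Si := by
  calc (S * X * Si) * (S * Y * Si) = S * X * (Si * S) * Y * Si := by noncomm_ring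
  _ = _ := by rw [k.SiS]; noncomm_ring

theorem mul {X Y : Matrix (Fin g ⊕ Fin g) (Fin g ⊕ Fin g) ℂ} (hY : Y ∈ LZ Z) :
    lr S (e * Si) X * lr S (e * Si) Y = lr S (e * Si) (X * Y) := by
  rw [k.lr', k.lr', k.lr', k.cj]
  congr 2
  rw [k.ce Y hY, mul_assoc, ← mul_assoc e, k.ee, ← k.ce Y hY, mul_assoc]

theorem zero {W : Matrix (Fin g ⊕ Fin g) (Fin g ⊕ Fin g) ℂ} (hW : lr S (e * Si) W = 0) :
    ∀ u ∈ U, W *ᵥ u = 0 := by
  intro u hu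
  have h1 : (S * (W * e) * Si) *ᵥ (S *ᵥ u) = S *ᵥ (W *ᵥ u) := by
    rw [← mulVec_mulVec, mulVec_mulVec u Si S, k.SiS, one_mulVec, ← mulVec_mulVec,
      ← mulVec_mulVec, k.e2 u hu]
  rw [← k.lr', hW, zero_mulVec] at h1
  have h2 := congrArg (fun v => Si *ᵥ v) h1
  beta_reduce at h2
  rw [mulVec_zero, mulVec_mulVec, k.SiS, one_mulVec] at h2
  exact h2.symm

theorem D : S * pP (DZ Z) e 1 * Si - S * pP (DZ Z) e (-1) * Si = lr S (e * Si) (DZ Z) := by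
  have h1 : pP (DZ Z) e 1 - pP (DZ Z) e (-1) = DZ Z * e := by
    unfold pP
    rw [← smul_sub, ← sub_mul]
    have : (1 + (1 : ℂ) • DZ Z - (1 + (-1 : ℂ) • DZ Z) :
        Matrix (Fin g ⊕ Fin g) (Fin g ⊕ Fin g) ℂ) = (2 : ℂ) • DZ Z := by
      rw [one_smul, neg_one_smul, two_smul]
      abel
    rw [this, Matrix.smul_mul, smul_smul]
    norm_num
  rw [k.lr', ← h1]
  noncomm_ring

theorem up {X : Matrix (Fin g ⊕ Fin g) (Fin g ⊕ Fin g) ℂ} (hX : X ∈ LZ Z) :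
    (S * pP (DZ Z) e 1 * Si) * lr S (e * Si) X * (S * pP (DZ Z) e (-1) * Si) =
      lr S (e * Si) ((1 / 4 : ℂ) • ((1 + DZ Z) * X * (1 - DZ Z))) := by
  rw [k.lr', k.lr', k.cj, k.cj]
  congr 2
  unfold pP
  rw [one_smul, neg_one_smul, ← sub_eq_add_neg, Matrix.smul_mul, Matrix.smul_mul, Matrix.mul_smul,
    smul_smul, Matrix.smul_mul]
  have h1 : e * (X * e) = X * e := by rw [← mul_assoc, ← k.ce X hX, mul_assoc, k.ee]
  have h2 : e * ((1 - DZ Z) * e) = (1 - DZ Z) * e := by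
    rw [sub_mul, one_mul, mul_sub, k.ee, ← mul_assoc, ← k.ce _ DZ_mem, mul_assoc, k.ee]
  have h3 : (1 + DZ Z) * e * (X * e) * ((1 - DZ Z) * e) =
      (1 + DZ Z) * X * (1 - DZ Z) * e := by
    calc (1 + DZ Z) * e * (X * e) * ((1 - DZ Z) * e) =
        (1 + DZ Z) * (e * (X * e)) * ((1 - DZ Z) * e) := by noncomm_ring
    _ = (1 + DZ Z) * X * (e * ((1 - DZ Z) * e)) := by rw [h1]; noncomm_ring
    _ = _ := by rw [h2]; noncomm_ring
  rw [h3]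
  norm_num

/-- The elements of positive degree. -/
theorem of_pos {x : Matrix (Fin g ⊕ Fin g) (Fin g ⊕ Fin g) ℂ}
    (hx : x ∈ pos ((LZ Z).map (lr S (e * Si))) (S * pP (DZ Z) e 1 * Si)
      (S * pP (DZ Z) e (-1) * Si)) :
    ∃ N ∈ LZ Z, DZ Z * N = N ∧ N * DZ Z = -N ∧ lr S (e * Si) N = x := by
  obtain ⟨⟨X, hX, hXe⟩, hx1, hx2⟩ := hx
  refine ⟨_, up_mem h hX, up_l h X, up_r h X, ?_⟩
  rw [← k.up hX, hXe, hx1, hx2]

theorem to_pos {N : Matrix (Fin g ⊕ Fin g) (Fin g ⊕ Fin g) ℂ} (hN : N ∈ LZ Z)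
    (h1 : DZ Z * N = N) (h2 : N * DZ Z = -N) :
    lr S (e * Si) N ∈ pos ((LZ Z).map (lr S (e * Si))) (S * pP (DZ Z) e 1 * Si)
      (S * pP (DZ Z) e (-1) * Si) := by
  have h3 := memP k.H (X := lr S (e * Si) N) ⟨N, hN, rfl⟩
  rw [k.up hN] at h3
  have h4 : (1 / 4 : ℂ) • ((1 + DZ Z) * N * (1 - DZ Z)) = N := by
    have h5 : (1 + DZ Z) * N = (2 : ℂ) • N := by rw [add_mul, one_mul, h1, two_smul]
    have h6 : N * (1 - DZ Z) = (2 : ℂ) • N := by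
      rw [mul_sub, mul_one, h2, two_smul, sub_neg_eq_add]
    rw [h5, Matrix.smul_mul, h6, smul_smul, smul_smul]
    norm_num
  rwa [h4] at h3

theorem map_id {J : Submodule ℂ (Matrix (Fin g ⊕ Fin g) (Fin g ⊕ Fin g) ℂ)} (hJ : IsId (LZ Z) J) :
    IsId ((LZ Z).map (lr S (e * Si))) (J.map (lr S (e * Si))) where
  le := Submodule.map_mono hJ.le
  br := by
    rintro _ ⟨X, hX, rfl⟩ _ ⟨Y, hY, rfl⟩
    refine ⟨X * Y - Y * X, hJ.br X hX Y hY, ?_⟩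
    rw [map_sub, k.mul (hJ.le hY), k.mul hX]

theorem full (hf : FullZ Z) : Full ((LZ Z).map (lr S (e * Si))) (S * pP (DZ Z) e 1 * Si)
    (S * pP (DZ Z) e (-1) * Si) := by
  intro J' hJ' hle
  let J : Submodule ℂ (Matrix (Fin g ⊕ Fin g) (Fin g ⊕ Fin g) ℂ) :=
    LZ Z ⊓ J'.comap (lr S (e * Si))
  have hJ : IsId (LZ Z) J := by
    refine ⟨inf_le_left, fun X hX Y hY => ⟨LZ_br hX hY.1, ?_⟩⟩
    change lr S (e * Si) (X * Y - Y * X) ∈ J'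
    rw [map_sub, ← k.mul hY.1, ← k.mul hX]
    exact hJ'.br _ ⟨X, hX, rfl⟩ _ hY.2
  have h1 := hf J hJ fun N hN h1 h2 => ⟨hN, hle (k.to_pos hN h1 h2)⟩
  rintro _ ⟨X, hX, rfl⟩
  exact (h1 hX).2

/-- The traces vanish. -/
theorem tr0 (hU : IrS (LZ Z) U) (hs : SDu Z U) :
    ∀ X ∈ (LZ Z).map (lr S (e * Si)), trace X = 0 := by
  rintro _ ⟨X, hX, rfl⟩
  obtain ⟨b, h0, hb⟩ := hs
  have hf : ∀ v, mulVecLin (X * e) v ∈ U := by
    intro v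
    rw [mulVecLin_apply, ← mulVec_mulVec]
    exact hU.2.1 X hX _ (k.e1 v)
  have h1 := LinearMap.trace_restrict_eq_of_forall_mem U (mulVecLin (X * e)) hf
  have h2 : (mulVecLin (X * e)).restrict (fun x _ => hf x) =
      (mulVecLin X).restrict fun u hu => hU.2.1 X hX u hu := by
    refine LinearMap.ext fun u => Subtype.ext ?_
    change (X * e) *ᵥ (u : Fin g ⊕ Fin g → ℂ) = X *ᵥ (u : Fin g ⊕ Fin g → ℂ)
    rw [← mulVec_mulVec, k.e2 _ u.2]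
  rw [h2, trace_sdu hU h0 hb hX] at h1
  rw [k.lr', trace_mul_comm, ← mul_assoc, k.SiS, one_mul, ← Matrix.trace_toLin'_eq]
  exact h1.symm

/-- Ideals either commute with the complex structure or contain all elements of positive
degree. -/
theorem dichZ (hF : ∀ X ∈ LZ Z, (∀ u ∈ U, X *ᵥ u = 0) → X = 0)
    {J : Submodule ℂ (Matrix (Fin g ⊕ Fin g) (Fin g ⊕ Fin g) ℂ)} (hJ : IsId (LZ Z) J) :
    (∀ Y ∈ J, Y * DZ Z = DZ Z * Y) ∨ ∀ N ∈ LZ Z, DZ Z * N = N → N * DZ Z = -N → N ∈ J := by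
  rcases dich k.H (k.map_id hJ) with h1 | h1
  · left
    intro Y hY
    have h2 := h1 _ ⟨Y, hY, rfl⟩
    rw [k.D, k.mul DZ_mem, k.mul (hJ.le hY)] at h2
    have h3 : lr S (e * Si) (Y * DZ Z - DZ Z * Y) = 0 := by rw [map_sub, h2, sub_self]
    exact sub_eq_zero.1 (hF _ (LZ_br (hJ.le hY) DZ_mem) (k.zero h3))
  · right
    intro N hN h2 h3
    obtain ⟨Y, hY, hYN⟩ := h1 (k.to_pos hN h2 h3)
    have h4 : lr S (e * Si) (N - Y) = 0 := by rw [map_sub, hYN, sub_self]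
    have h5 := sub_eq_zero.1 (hF _ ((LZ Z).sub_mem hN (hJ.le hY)) (k.zero h4))
    rw [h5]
    exact hY

theorem D_memZ (hF : ∀ X ∈ LZ Z, (∀ u ∈ U, X *ᵥ u = 0) → X = 0) (hU : IrS (LZ Z) U)
    (hs : SDu Z U) {J : Submodule ℂ (Matrix (Fin g ⊕ Fin g) (Fin g ⊕ Fin g) ℂ)}
    (hJ : IsId (LZ Z) J) (hp : ∀ N ∈ LZ Z, DZ Z * N = N → N * DZ Z = -N → N ∈ J) :
    DZ Z ∈ J := by
  have htr := two_le_tr h hU hs
  have hpq := pd_add_qd h hU.2.1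
  have h0 := pos_ne_bot k.H (by omega) (by omega)
  obtain ⟨Y, hY, hYD⟩ := D_mem_of k.H h0 (k.tr0 hU hs) (k.map_id hJ) fun x hx => by
    obtain ⟨N, hN, h1, h2, rfl⟩ := k.of_pos hx
    exact ⟨N, hp N hN h1 h2, rfl⟩
  rw [k.D] at hYD
  have h4 : lr S (e * Si) (DZ Z - Y) = 0 := by rw [map_sub, hYD, sub_self]
  have h5 := sub_eq_zero.1 (hF _ ((LZ Z).sub_mem DZ_mem (hJ.le hY)) (k.zero h4))
  rw [h5]
  exact hY

end Co

end

end Pool.Agent.N994.PG
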