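import Mathlib
import Pool.Agent.Y4.Aut

/-!
# Automorphisms of the complex numbers over countable subfields
-/

set_option linter.unusedSectionVars false

namespace Pool.Agent.N994.PG

open Module Cardinal IntermediateField Polynomial
open Pool.Agent.Y4 (exists_equiv)

noncomputable section

/-- Number fields are countable. -/
instance countable_of_finite (k : IntermediateField ℚ ℂ) [FiniteDimensional ℚ k] : Countable k :=
  (finBasis ℚ k).equivFun.toEquiv.injective.countable

/-- The automorphisms of the complex numbers act transitively on the embeddings of a countable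
field. -/
theorem exists_aut_emb' {E : Type*} [Field E] [Countable E] (φ ψ : E →+* ℂ) :
    ∃ σ : ℂ ≃+* ℂ, (σ : ℂ →+* ℂ).comp φ = ψ := by
  obtain ⟨σ, hσ⟩ := @exists_equiv E ℂ ℂ _ _ _ _ φ.toAlgebra ψ.toAlgebra _ _
    (by rw [Cardinal.mk_complex]; exact aleph0_lt_continuum) rfl
  exact ⟨σ, RingHom.ext hσ⟩

/-- Finitely generated fields are countable. -/
theorem countable_adjoin {S : Set ℂ} (hS : S.Countable) :
    Countable (IntermediateField.adjoin ℚ S) := by
  rw [← Cardinal.mk_le_aleph0_iff]
  refine (IntermediateField.cardinalMk_adjoin_le ℚ S).trans ?_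
  have h1 : #S ≤ ℵ₀ := by
    rw [Cardinal.mk_le_aleph0_iff]
    exact hS
  have h2 : #ℚ ≤ ℵ₀ := Cardinal.mk_le_aleph0
  exact max_le (max_le h2 h1) le_rfl

/-- Permutations of a transcendence basis. -/
theorem exists_perm {K : Type*} [Field K] [Algebra K ℂ] {s : Set ℂ}
    (hs : IsTranscendenceBasis K ((↑) : s → ℂ)) (e : s ≃ s) :
    ∃ σ : ℂ ≃+* ℂ, (∀ x, σ (algebraMap K ℂ x) = algebraMap K ℂ x) ∧ ∀ y : s, σ y = e y := by
  have _ : IsAlgClosure (Algebra.adjoin K (Set.range (Subtype.val : s → ℂ))) ℂ :=
    IsAlgClosed.isAlgClosure_of_transcendence_basis _ hs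
  let P := hs.1.aevalEquiv
  let f : Algebra.adjoin K (Set.range (Subtype.val : s → ℂ)) ≃ₐ[K]
      Algebra.adjoin K (Set.range (Subtype.val : s → ℂ)) :=
    P.symm.trans ((MvPolynomial.renameEquiv K e).trans P)
  refine ⟨IsAlgClosure.equivOfEquiv ℂ ℂ f.toRingEquiv, fun x => ?_, fun y => ?_⟩
  · have h3 : algebraMap K ℂ x = algebraMap (Algebra.adjoin K (Set.range (Subtype.val : s → ℂ))) ℂ
        (algebraMap K _ x) := rfl
    rw [h3, IsAlgClosure.equivOfEquiv_algebraMap]
    congr 1
    exact f.commutes x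
  · have h1 : ∀ z : s, ((P (MvPolynomial.X z) :
        Algebra.adjoin K (Set.range (Subtype.val : s → ℂ))) : ℂ) = z := by
      intro z
      change ((hs.1.aevalEquiv (MvPolynomial.X z) :
        Algebra.adjoin K (Set.range (Subtype.val : s → ℂ))) : ℂ) = z
      rw [AlgebraicIndependent.aevalEquiv_apply_coe, MvPolynomial.aeval_X]
    have h2 : (y : ℂ) = algebraMap (Algebra.adjoin K (Set.range (Subtype.val : s → ℂ))) ℂ
        (P (MvPolynomial.X y)) := (h1 y).symm
    nth_rewrite 1 [h2]
    rw [IsAlgClosure.equivOfEquiv_algebraMap]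
    have h3 : f.toRingEquiv (P (MvPolynomial.X y)) = P (MvPolynomial.X (e y)) := by
      change P ((MvPolynomial.renameEquiv K e) (P.symm (P (MvPolynomial.X y)))) = _
      rw [AlgEquiv.symm_apply_apply]
      congr 1
      exact MvPolynomial.rename_X _ _
    rw [h3]
    exact h1 (e y)

/-- **The fixed field** of the automorphisms of the complex numbers over a countable subfield. -/
theorem mem_of_fixed (K : IntermediateField ℚ ℂ) [Countable K] {x : ℂ}
    (hx : ∀ σ : ℂ ≃+* ℂ, (∀ y ∈ K, σ y = y) → σ x = x) : x ∈ K := by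
  by_cases hal : IsAlgebraic K x
  · -- algebraic elements
    by_contra hxK
    have hint : IsIntegral K x := hal.isIntegral
    have hdeg : (minpoly K x).natDegree ≠ 1 := by
      intro h1
      rw [minpoly.natDegree_eq_one_iff] at h1
      obtain ⟨y, hy⟩ := h1
      exact hxK (hy ▸ y.2)
    have hirr := minpoly.irreducible hint
    have hsep : (minpoly K x).Separable := hirr.separable
    have h0 : minpoly K x ≠ 0 := minpoly.ne_zero hint
    have hcard : Multiset.card ((minpoly K x).aroots ℂ) = (minpoly K x).natDegree := by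
      have h1 := IsAlgClosed.card_aroots_eq_natDegree_of_isUnit_leadingCoeff (B := ℂ)
        (p := minpoly K x) (by
          rw [(minpoly.monic hint).leadingCoeff]
          exact isUnit_one)
      exact h1
    have hnd : ((minpoly K x).aroots ℂ).Nodup := nodup_aroots_iff_of_splits h0
      (IsAlgClosed.splits _) |>.2 hsep
    have hmem : x ∈ (minpoly K x).aroots ℂ := by
      rw [mem_aroots]
      exact ⟨h0, minpoly.aeval K x⟩
    have hpos : 0 < (minpoly K x).natDegree := minpoly.natDegree_pos hint
    obtain ⟨x', hx', hne⟩ : ∃ x' ∈ (minpoly K x).aroots ℂ, x' ≠ x := by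
      by_contra hcon
      push Not at hcon
      classical
      have h1 : Multiset.count x ((minpoly K x).aroots ℂ) =
          Multiset.card ((minpoly K x).aroots ℂ) :=
        Multiset.count_eq_card.2 fun y hy => (hcon y hy).symm
      have h2 := Multiset.nodup_iff_count_le_one.1 hnd x
      omega
    have hroot : aeval x' (minpoly K x) = 0 := (mem_aroots.1 hx').2
    let pb := IntermediateField.adjoin.powerBasis hint
    have hpb : pb.gen = IntermediateField.AdjoinSimple.gen K x := rfl
    have hmp : aeval x' (minpoly K pb.gen) = 0 := by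
      rw [hpb, IntermediateField.minpoly_gen]
      exact hroot
    let ψ : K⟮x⟯ →ₐ[K] ℂ := pb.lift x' hmp
    have hψ : ψ (IntermediateField.AdjoinSimple.gen K x) = x' := by
      rw [← hpb]
      exact pb.lift_gen x' hmp
    have _ : Countable K⟮x⟯ := by
      rw [← Cardinal.mk_le_aleph0_iff]
      refine (IntermediateField.cardinalMk_adjoin_le K {x}).trans ?_
      have h1 : #({x} : Set ℂ) ≤ ℵ₀ := Cardinal.mk_le_aleph0
      have h2 : #K ≤ ℵ₀ := Cardinal.mk_le_aleph0
      exact max_le (max_le h2 h1) le_rfl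
    obtain ⟨σ, hσ⟩ := exists_aut_emb' (algebraMap K⟮x⟯ ℂ) (ψ : K⟮x⟯ →+* ℂ)
    have h1 : ∀ y : K⟮x⟯, σ (y : ℂ) = ψ y := fun y => congrArg (fun f : K⟮x⟯ →+* ℂ => f y) hσ
    apply hne
    rw [← hψ, ← h1, IntermediateField.AdjoinSimple.coe_gen]
    refine hx σ fun y hy => ?_
    have h2 := h1 (algebraMap K K⟮x⟯ ⟨y, hy⟩)
    rw [ψ.commutes] at h2
    exact h2
  · -- transcendental elements
    exfalso
    have h1 : AlgebraicIndepOn K id ({x} : Set ℂ) :=
      algebraicIndependent_unique_type_iff.2 hal
    obtain ⟨s, hxs, hs⟩ := exists_isTranscendenceBasis_superset h1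
    have hcard : #ℂ = #s := by
      have h := IsAlgClosed.cardinal_eq_cardinal_transcendence_basis_of_aleph0_lt _ hs
        (Cardinal.mk_le_aleph0) (by rw [Cardinal.mk_complex]; exact aleph0_lt_continuum)
      rwa [lift_id, lift_id] at h
    have hxs' : x ∈ s := hxs rfl
    obtain ⟨y, hy⟩ : ∃ y : s, y ≠ ⟨x, hxs'⟩ := by
      by_contra hcon
      push Not at hcon
      have h2 : #s ≤ 1 := by
        rw [Cardinal.le_one_iff_subsingleton]
        exact ⟨fun a b => by rw [hcon a, hcon b]⟩
      rw [← hcard, Cardinal.mk_complex] at h2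
      exact absurd (h2.trans one_lt_aleph0.le) (not_le.2 aleph0_lt_continuum)
    classical
    obtain ⟨σ, hσ1, hσ2⟩ := exists_perm hs (Equiv.swap ⟨x, hxs'⟩ y)
    have h3 := hx σ fun z hz => hσ1 ⟨z, hz⟩
    have h4 := hσ2 ⟨x, hxs'⟩
    rw [Equiv.swap_apply_left] at h4
    apply hy
    apply Subtype.ext
    rw [← h4]
    exact h3

end

end Pool.Agent.N994.PG
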