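import Mathlib
import Pool.Agent.N994.PG.Co
import Pool.Agent.N994.PG.OddDeg
import Pool.Agent.N994.PG.Emb

/-!
# The conjugate ideals for period fields of odd degree
-/

set_option linter.unusedSectionVars false

namespace Pool.Agent.N994.PG

open Matrix Module Pool.Agent.W437.HC Pool.Agent.W437.HD Pool.Agent.TH504.CB Pool.Agent.Y90
  Pool.Agent.R915
open Pool.Agent.W548.Odd hiding cv
open Pool.Agent.N994.PF (rs Zk InL Ed Sys PP PP_eq comb card_emb)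
open Pool.Agent.Y4 (exists_aut_emb)

open scoped ComplexOrder

noncomputable section

section cjM

variable {B : Type*} [Fintype B] [DecidableEq B]

/-- The conjugate of a space of matrices. -/
def cjM (σ : ℂ ≃+* ℂ) (J : Submodule ℂ (Matrix B B ℂ)) : Submodule ℂ (Matrix B B ℂ) where
  carrier := {X | X.map σ.symm ∈ J}
  zero_mem' := by
    have h1 : (0 : Matrix B B ℂ).map σ.symm = 0 := Matrix.map_zero _ (map_zero σ.symm)
    change (0 : Matrix B B ℂ).map σ.symm ∈ J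
    rw [h1]
    exact J.zero_mem
  add_mem' := fun {X Y} hX hY => by
    have h1 : (X + Y).map σ.symm = X.map σ.symm + Y.map σ.symm :=
      Matrix.map_add _ (map_add σ.symm) _ _
    change (X + Y).map σ.symm ∈ J
    rw [h1]
    exact J.add_mem hX hY
  smul_mem' := fun c X hX => by
    have h1 : (c • X).map σ.symm = σ.symm c • X.map σ.symm := by
      ext i j
      exact map_mul σ.symm _ _
    change (c • X).map σ.symm ∈ J
    rw [h1]
    exact J.smul_mem _ hX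

theorem mem_cjM {σ : ℂ ≃+* ℂ} {J : Submodule ℂ (Matrix B B ℂ)} {X : Matrix B B ℂ} :
    X ∈ cjM σ J ↔ X.map σ.symm ∈ J := Iff.rfl

theorem map_symm (σ : ℂ ≃+* ℂ) (X : Matrix B B ℂ) : (X.map σ).map σ.symm = X := by
  ext i j
  exact σ.symm_apply_apply _

theorem map_symm' (σ : ℂ ≃+* ℂ) (X : Matrix B B ℂ) : (X.map σ.symm).map σ = X := by
  ext i j
  exact σ.apply_symm_apply _

theorem mem_cjM' {σ : ℂ ≃+* ℂ} {J : Submodule ℂ (Matrix B B ℂ)} {X : Matrix B B ℂ}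
    (hX : X ∈ J) : X.map σ ∈ cjM σ J := by
  rw [mem_cjM, map_symm]
  exact hX

theorem cjM_mono {σ : ℂ ≃+* ℂ} {J J' : Submodule ℂ (Matrix B B ℂ)} (h : J ≤ J') :
    cjM σ J ≤ cjM σ J' := fun _ hX => h hX

theorem map_bk (σ : ℂ ≃+* ℂ) (X Y : Matrix B B ℂ) :
    (X * Y - Y * X).map σ = X.map σ * Y.map σ - Y.map σ * X.map σ := by
  have h1 : (X * Y - Y * X).map σ = (X * Y).map σ - (Y * X).map σ :=
    Matrix.map_sub _ (map_sub σ) _ _
  rw [h1, Matrix.map_mul, Matrix.map_mul]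

theorem finrank_cjM (σ : ℂ ≃+* ℂ) (J : Submodule ℂ (Matrix B B ℂ)) :
    finrank ℂ (cjM σ J) = finrank ℂ J := by
  let j : cjM σ J ≃+ J :=
    { toFun := fun v => ⟨_, v.2⟩
      invFun := fun v => ⟨_, mem_cjM' (σ := σ) v.2⟩
      left_inv := fun v => Subtype.ext (map_symm' σ _)
      right_inv := fun v => Subtype.ext (map_symm σ _)
      map_add' := fun a b => by
        apply Subtype.ext
        exact Matrix.map_add _ (map_add σ.symm) _ _ }
  have h1 := rank_eq_of_equiv_equiv (fun x => σ.symm x) j σ.symm.bijective (fun r m => by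
    apply Subtype.ext
    ext i j
    exact map_mul σ.symm _ _)
  exact congrArg Cardinal.toNat h1

theorem map_mv (σ : ℂ ≃+* ℂ) (X : Matrix B B ℂ) (v : B → ℂ) :
    (X.map σ) *ᵥ (fun i => σ (v i)) = fun i => σ ((X *ᵥ v) i) := by
  funext i
  simp [mulVec, dotProduct, map_sum]

end cjM

variable {g : ℕ} {Z : Matrix (Fin g) (Fin g) ℂ} {k : IntermediateField ℚ ℂ}

theorem IsId.cj {J : Submodule ℂ (Matrix (Fin g ⊕ Fin g) (Fin g ⊕ Fin g) ℂ)}
    (hJ : IsId (LZ Z) J) (σ : ℂ ≃+* ℂ) : IsId (LZ Z) (cjM σ J) where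
  le := fun X hX => by
    have h1 := gal_LZ σ _ (hJ.le hX)
    rwa [map_symm'] at h1
  br := fun X hX Y hY => by
    rw [mem_cjM, map_bk]
    exact hJ.br _ (gal_LZ σ.symm X hX) _ hY

/-- The nilpotent elements attached to an embedding. -/
def Np (Z : Matrix (Fin g) (Fin g) ℂ) (hZ : ∀ i j, Z i j ∈ k) (p : k →+* ℂ) :
    Submodule ℂ (Matrix (Fin g ⊕ Fin g) (Fin g ⊕ Fin g) ℂ) where
  carrier := {N | N ∈ LZ Z ∧ (∀ v, N *ᵥ v ∈ Lp hZ p) ∧ ∀ v ∈ Lp hZ p, N *ᵥ v = 0}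
  zero_mem' := ⟨(LZ Z).zero_mem, fun v => by rw [zero_mulVec]; exact Submodule.zero_mem _,
    fun v _ => zero_mulVec v⟩
  add_mem' := fun {X Y} hX hY => ⟨(LZ Z).add_mem hX.1 hY.1, fun v => by
    rw [add_mulVec]
    exact Submodule.add_mem _ (hX.2.1 v) (hY.2.1 v), fun v hv => by
    rw [add_mulVec, hX.2.2 v hv, hY.2.2 v hv, add_zero]⟩
  smul_mem' := fun c X hX => ⟨(LZ Z).smul_mem c hX.1, fun v => by
    rw [smul_mulVec]
    exact Submodule.smul_mem _ _ (hX.2.1 v), fun v hv => by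
    rw [smul_mulVec, hX.2.2 v hv, smul_zero]⟩

theorem mem_Np {hZ : ∀ i j, Z i j ∈ k} {p : k →+* ℂ}
    {N : Matrix (Fin g ⊕ Fin g) (Fin g ⊕ Fin g) ℂ} : N ∈ Np Z hZ p ↔
      N ∈ LZ Z ∧ (∀ v, N *ᵥ v ∈ Lp hZ p) ∧ ∀ v ∈ Lp hZ p, N *ᵥ v = 0 := Iff.rfl

theorem mem_Np_pos (h : PM Z) {hZ : ∀ i j, Z i j ∈ k} {σ : ℂ ≃+* ℂ}
    {N : Matrix (Fin g ⊕ Fin g) (Fin g ⊕ Fin g) ℂ} : N ∈ Np Z hZ (rs k (cc.trans σ)) ↔
      N ∈ LZ Z ∧ DS Z σ * N = N ∧ N * DS Z σ = -N := by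
  rw [mem_Np, Lp_pos h]
  constructor
  · rintro ⟨h1, h2, h3⟩
    refine ⟨h1, eq_of_mulVec fun v => ?_, eq_of_mulVec fun v => ?_⟩
    · have h4 := mem_Eg.1 (h2 v)
      rw [← mulVec_mulVec, h4, one_smul]
    · have h4 : v + DS Z σ *ᵥ v ∈ Eg (DS Z σ) 1 := by
        rw [mem_Eg, mulVec_add, DD h, one_smul, add_comm]
      have h5 := h3 _ h4
      rw [mulVec_add] at h5
      rw [← mulVec_mulVec, neg_mulVec]
      exact eq_neg_of_add_eq_zero_right h5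
  · rintro ⟨h1, h2, h3⟩
    refine ⟨h1, fun v => ?_, fun v hv => ?_⟩
    · rw [mem_Eg, mulVec_mulVec, h2, one_smul]
    · have h4 := mem_Eg.1 hv
      rw [one_smul] at h4
      have h5 : N *ᵥ v = -(N *ᵥ v) := by
        nth_rewrite 1 [← h4]
        rw [mulVec_mulVec, h3, neg_mulVec]
      have h6 : (2 : ℂ) • (N *ᵥ v) = 0 := by
        rw [two_smul]
        nth_rewrite 1 [h5]
        rw [neg_add_cancel]
      exact (smul_eq_zero.1 h6).resolve_left two_ne_zero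

theorem Np_cj {hZ : ∀ i j, Z i j ∈ k} {p : k →+* ℂ} (τ : ℂ ≃+* ℂ)
    {N : Matrix (Fin g ⊕ Fin g) (Fin g ⊕ Fin g) ℂ} (hN : N ∈ Np Z hZ p) :
    N.map τ ∈ Np Z hZ ((τ : ℂ →+* ℂ).comp p) := by
  obtain ⟨h1, h2, h3⟩ := mem_Np.1 hN
  refine mem_Np.2 ⟨gal_LZ τ N h1, fun v => ?_, fun v hv => ?_⟩
  · have h4 := Lp_map hZ p τ (h2 fun i => τ.symm (v i))
    rw [← map_mv] at h4
    simpa using h4
  · rw [← Lp_cj] at hv
    have h4 := h3 _ hv
    have h5 := map_mv τ N fun i => τ.symm (v i)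
    rw [h4] at h5
    have h6 : (fun i => τ (τ.symm (v i))) = v := by
      funext i
      exact τ.apply_symm_apply _
    rw [h6] at h5
    rw [h5]
    funext i
    exact map_zero τ

theorem comp_comp (τ ρ : ℂ ≃+* ℂ) (p : k →+* ℂ) :
    (ρ : ℂ →+* ℂ).comp ((τ : ℂ →+* ℂ).comp p) = ((τ.trans ρ : ℂ ≃+* ℂ) : ℂ →+* ℂ).comp p := by
  ext x
  rfl

theorem symm_comp (τ : ℂ ≃+* ℂ) (p : k →+* ℂ) :
    (τ.symm : ℂ →+* ℂ).comp ((τ : ℂ →+* ℂ).comp p) = p := by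
  ext x
  exact τ.symm_apply_apply _

theorem cc_comp (p : k →+* ℂ) : (cc : ℂ →+* ℂ).comp ((cc : ℂ →+* ℂ).comp p) = p := by
  ext x
  exact Complex.conj_conj _

/-- The ideal generated by the nilpotent elements attached to an embedding. -/
def Ip (Z : Matrix (Fin g) (Fin g) ℂ) (hZ : ∀ i j, Z i j ∈ k) (p : k →+* ℂ) :
    Submodule ℂ (Matrix (Fin g ⊕ Fin g) (Fin g ⊕ Fin g) ℂ) :=
  sInf {J | IsId (LZ Z) J ∧ Np Z hZ p ≤ J}

section Ip

variable {hZ : ∀ i j, Z i j ∈ k} {p : k →+* ℂ}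

theorem mem_Ip {X : Matrix (Fin g ⊕ Fin g) (Fin g ⊕ Fin g) ℂ} : X ∈ Ip Z hZ p ↔
    ∀ J, IsId (LZ Z) J → Np Z hZ p ≤ J → X ∈ J := by
  unfold Ip
  rw [Submodule.mem_sInf]
  exact ⟨fun h J h1 h2 => h J ⟨h1, h2⟩, fun h J hJ => h J hJ.1 hJ.2⟩

theorem Np_le : Np Z hZ p ≤ Ip Z hZ p := fun _ hX => mem_Ip.2 fun _ _ h2 => h2 hX

theorem Ip_le {J : Submodule ℂ (Matrix (Fin g ⊕ Fin g) (Fin g ⊕ Fin g) ℂ)} (h1 : IsId (LZ Z) J)
    (h2 : Np Z hZ p ≤ J) : Ip Z hZ p ≤ J := fun _ hX => mem_Ip.1 hX J h1 h2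

theorem Ip_id : IsId (LZ Z) (Ip Z hZ p) where
  le := Ip_le ⟨le_rfl, fun _ hX _ hY => LZ_br hX hY⟩ fun _ hX => (mem_Np.1 hX).1
  br := fun X hX Y hY => mem_Ip.2 fun J h1 h2 => h1.br X hX Y (mem_Ip.1 hY J h1 h2)

theorem Ip_cj_le (τ : ℂ ≃+* ℂ) (p : k →+* ℂ) :
    Ip Z hZ ((τ : ℂ →+* ℂ).comp p) ≤ cjM τ (Ip Z hZ p) := by
  refine Ip_le (Ip_id.cj τ) fun N hN => ?_
  rw [mem_cjM]
  have h1 := Np_cj τ.symm hN
  rw [symm_comp] at h1
  exact Np_le h1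

theorem Ip_cj (τ : ℂ ≃+* ℂ) (p : k →+* ℂ) :
    cjM τ (Ip Z hZ p) = Ip Z hZ ((τ : ℂ →+* ℂ).comp p) := by
  refine le_antisymm (fun X hX => ?_) (Ip_cj_le τ p)
  have h1 := Ip_cj_le (hZ := hZ) (Z := Z) τ.symm ((τ : ℂ →+* ℂ).comp p)
  rw [symm_comp] at h1
  have h2 := h1 (mem_cjM.1 hX)
  rw [mem_cjM, RingEquiv.symm_symm, map_symm'] at h2
  exact h2

theorem Ip_finrank [Countable k] (p q : k →+* ℂ) :
    finrank ℂ (Ip Z hZ p) = finrank ℂ (Ip Z hZ q) := by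
  obtain ⟨τ, hτ⟩ := exists_aut_emb' p q
  rw [← hτ, ← Ip_cj, finrank_cjM]

end Ip

/-- The restrictions of automorphisms. -/
theorem exists_rs [Countable k] (p : k →+* ℂ) : ∃ σ : ℂ ≃+* ℂ, rs k (cc.trans σ) = p := by
  obtain ⟨σ, hσ⟩ := exists_aut_emb' (algebraMap k ℂ) p
  refine ⟨cc.trans σ, ?_⟩
  rw [← hσ]
  ext x
  exact congrArg σ (Complex.conj_conj _)

theorem comp_rs (σ τ : ℂ ≃+* ℂ) : (τ : ℂ →+* ℂ).comp (rs k (cc.trans σ)) =
    rs k (cc.trans (σ.trans τ)) := by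
  ext x
  rfl

/-- Real nilpotent elements which commute with the complex structure vanish. -/
theorem real_nil (h : PM Z) {N : Matrix (Fin g ⊕ Fin g) (Fin g ⊕ Fin g) ℂ} (hN : N ∈ LZ Z)
    (hr : N.map cc = N) (hD : N * DZ Z = DZ Z * N) (h3 : N * N * N = 0) : N = 0 := by
  have hcn : ∀ u : Fin g ⊕ Fin g → ℂ, cnj (N *ᵥ u) = N *ᵥ cnj u := by
    intro u
    have h1 := map_mv cc N u
    rw [hr] at h1
    exact h1.symm
  have key : ∀ u : Fin g ⊕ Fin g → ℂ, N *ᵥ (N *ᵥ u) = 0 → N *ᵥ u = 0 := by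
    intro u hu
    by_contra h0
    have h1 := h.herm_pos h0
    have h2 : om g (cnj (N *ᵥ u)) (DZ Z *ᵥ (N *ᵥ u)) = 0 := by
      have h4 := h.om_sp hN (cnj u) (DZ Z *ᵥ (N *ᵥ u))
      have h5 : N *ᵥ (DZ Z *ᵥ (N *ᵥ u)) = 0 := by
        rw [mulVec_mulVec, hD, ← mulVec_mulVec, hu, mulVec_zero]
      rw [h5, map_zero, add_zero] at h4
      rw [hcn, h4]
    rw [h2, mul_zero] at h1
    exact lt_irrefl _ h1
  apply eq_of_mulVec
  intro u
  rw [zero_mulVec]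
  apply key
  apply key
  rw [mulVec_mulVec, mulVec_mulVec, h3, zero_mulVec]

theorem pos_real (h : PM Z) {X : Matrix (Fin g ⊕ Fin g) (Fin g ⊕ Fin g) ℂ} (hX : X ∈ LZ Z)
    (hD : X * DZ Z = DZ Z * X) (hXX : X * X = 0) (hc : X * X.map cc = X.map cc * X) : X = 0 := by
  obtain ⟨Y, hY⟩ : ∃ Y, Y = X.map cc := ⟨_, rfl⟩
  have hYm : Y ∈ LZ Z := by rw [hY]; exact gal_LZ cc X hX
  have hYX : Y.map cc = X := by
    rw [hY]
    ext i j
    exact Complex.conj_conj _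
  have hYY : Y * Y = 0 := by
    rw [hY, ← Matrix.map_mul, hXX]
    exact Matrix.map_zero _ (map_zero cc)
  have hYD : Y * DZ Z = DZ Z * Y := by
    have h1 := congrArg (fun M => M.map cc) hD
    beta_reduce at h1
    rw [Matrix.map_mul, Matrix.map_mul, Pool.Agent.Y90.DZ_conj, ← hY, mul_neg, neg_mul] at h1
    exact neg_injective h1
  rw [← hY] at hc
  have key : ∀ c : ℂ, c • X + cc c • Y = 0 := by
    intro c
    refine real_nil h ((LZ Z).add_mem ((LZ Z).smul_mem _ hX) ((LZ Z).smul_mem _ hYm)) ?_ ?_ ?_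
    · have h1 : (c • X + cc c • Y).map cc = (c • X).map cc + (cc c • Y).map cc :=
        Matrix.map_add _ (map_add cc) _ _
      have h2 : ∀ (c : ℂ) (M : Matrix (Fin g ⊕ Fin g) (Fin g ⊕ Fin g) ℂ),
          (c • M).map cc = cc c • M.map cc := by
        intro c M
        ext i j
        exact map_mul cc _ _
      have h3 : cc (cc c) = c := Complex.conj_conj _
      rw [h1, h2, h2, ← hY, hYX, h3, add_comm]
    · rw [add_mul, mul_add, Matrix.smul_mul, Matrix.mul_smul, Matrix.smul_mul, Matrix.mul_smul, hD,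
        hYD]
    · have h1 : (c • X + cc c • Y) * (c • X + cc c • Y) = (2 * (c * cc c)) • (X * Y) := by
        rw [add_mul, mul_add, mul_add]
        simp only [Matrix.smul_mul, Matrix.mul_smul, hXX, hYY, smul_zero, zero_add, add_zero,
          smul_smul, ← hc]
        rw [← add_smul]
        congr 1
        ring
      rw [h1, Matrix.smul_mul, mul_add, Matrix.mul_smul, Matrix.mul_smul, mul_assoc X Y Y, hYY,
        mul_zero, smul_zero, add_zero, hc, mul_assoc Y X X, hXX, mul_zero, smul_zero, smul_zero]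
  have h1 := key 1
  have h2 := key Complex.I
  have h3 : cc (1 : ℂ) = 1 := map_one _
  have h4 : cc Complex.I = -Complex.I := Complex.conj_I
  rw [h3, one_smul, one_smul] at h1
  rw [h4, neg_smul, ← sub_eq_add_neg, ← smul_sub] at h2
  have h5 := (smul_eq_zero.1 h2).resolve_left Complex.I_ne_zero
  have h6 : (2 : ℂ) • X = 0 := by
    have h7 : (2 : ℂ) • X = (X + Y) + (X - Y) := by
      rw [two_smul]
      abel
    rw [h7, h1, h5, add_zero]
  exact (smul_eq_zero.1 h6).resolve_left two_ne_zero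

end

end Pool.Agent.N994.PG
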