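import Mathlib
import Pool.Agent.N994.PG.Gal

/-!
# Fields of definition of spaces of matrices
-/

set_option linter.unusedSectionVars false

namespace Pool.Agent.N994.PG

open Matrix Module Pool.Agent.Y90

noncomputable section

variable {B : Type*} [Fintype B] [DecidableEq B]

theorem cjM_trans (σ τ : ℂ ≃+* ℂ) (J : Submodule ℂ (Matrix B B ℂ)) :
    cjM (τ.trans σ) J = cjM σ (cjM τ J) := by
  ext X
  exact Iff.rfl

theorem cjM_symm (σ : ℂ ≃+* ℂ) (J : Submodule ℂ (Matrix B B ℂ)) :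
    cjM σ (cjM σ.symm J) = J := by
  ext X
  rw [mem_cjM, mem_cjM, RingEquiv.symm_symm, map_symm']

theorem cjM_symm' (σ : ℂ ≃+* ℂ) (J : Submodule ℂ (Matrix B B ℂ)) :
    cjM σ.symm (cjM σ J) = J := by
  ext X
  rw [mem_cjM, mem_cjM, RingEquiv.symm_symm, map_symm]

/-- The matrices supported in a set. -/
def Kc (I : Finset (B × B)) : Submodule ℂ (Matrix B B ℂ) where
  carrier := {X | ∀ p : B × B, p ∉ I → X p.1 p.2 = 0}
  zero_mem' := fun _ _ => rfl
  add_mem' := fun {X Y} hX hY p hp => by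
    rw [Matrix.add_apply, hX p hp, hY p hp, add_zero]
  smul_mem' := fun c X hX p hp => by
    rw [Matrix.smul_apply, hX p hp, smul_zero]

theorem mem_Kc {I : Finset (B × B)} {X : Matrix B B ℂ} :
    X ∈ Kc I ↔ ∀ p : B × B, p ∉ I → X p.1 p.2 = 0 := Iff.rfl

theorem Kc_map {I : Finset (B × B)} {X : Matrix B B ℂ} (hX : X ∈ Kc I) (σ : ℂ ≃+* ℂ) :
    X.map σ ∈ Kc I := fun p hp => by
  rw [map_apply, mem_Kc.1 hX p hp, map_zero]

/-- **The field of definition** of a space of matrices. -/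
theorem exists_fod (J : Submodule ℂ (Matrix B B ℂ)) :
    ∃ A : Set ℂ, ∀ σ : ℂ ≃+* ℂ, cjM σ J = J ↔ ∀ a ∈ A, σ a = a := by
  classical
  -- a coordinate complement
  obtain ⟨I, hI, hmax⟩ := Finset.exists_max_image
    ((Finset.univ : Finset (Finset (B × B))).filter fun I => J ⊓ Kc I = ⊥) Finset.card
    ⟨∅, Finset.mem_filter.2 ⟨Finset.mem_univ _, by
      rw [eq_bot_iff]
      rintro X ⟨-, hX⟩
      rw [Submodule.mem_bot]
      ext i j
      exact hX (i, j) (Finset.notMem_empty _)⟩⟩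
  have hI' : J ⊓ Kc I = ⊥ := (Finset.mem_filter.1 hI).2
  have hs : ∀ p : B × B, ∃ Y ∈ J, Matrix.single p.1 p.2 (1 : ℂ) - Y ∈ Kc I := by
    intro p
    by_cases hp : p ∈ I
    · refine ⟨0, J.zero_mem, fun q hq => ?_⟩
      have hne : ¬ (p.1 = q.1 ∧ p.2 = q.2) := fun h1 => hq (by
        rw [← Prod.ext h1.1 h1.2]
        exact hp)
      rw [sub_zero, Matrix.single_apply, if_neg hne]
    · have h1 : J ⊓ Kc (insert p I) ≠ ⊥ := by
        intro h1
        have h2 := hmax (insert p I) (Finset.mem_filter.2 ⟨Finset.mem_univ _, h1⟩)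
        rw [Finset.card_insert_of_notMem hp] at h2
        omega
      obtain ⟨v, ⟨hv1, hv2⟩, hv0⟩ := Submodule.exists_mem_ne_zero_of_ne_bot h1
      obtain ⟨c, hc⟩ : ∃ c, c = v p.1 p.2 := ⟨_, rfl⟩
      have hc0 : c ≠ 0 := by
        intro h2
        apply hv0
        have h3 : v ∈ J ⊓ Kc I := by
          refine ⟨hv1, fun q hq => ?_⟩
          by_cases hqp : q = p
          · rw [hqp, ← hc, h2]
          · exact hv2 q fun h4 => (Finset.mem_insert.1 h4).elim hqp hq
        rw [hI', Submodule.mem_bot] at h3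
        exact h3
      refine ⟨c⁻¹ • v, J.smul_mem _ hv1, fun q hq => ?_⟩
      rw [Matrix.sub_apply, Matrix.smul_apply, Matrix.single_apply]
      by_cases hqp : q = p
      · rw [hqp, if_pos ⟨rfl, rfl⟩, ← hc, smul_eq_mul, inv_mul_cancel₀ hc0, sub_self]
      · have hne : ¬ (p.1 = q.1 ∧ p.2 = q.2) := fun h1 => hqp (Prod.ext h1.1 h1.2).symm
        rw [if_neg hne, hv2 q fun h4 => (Finset.mem_insert.1 h4).elim hqp hq, smul_zero, sub_zero]
  choose y hy1 hy2 using hs
  have hsm : ∀ (σ : ℂ ≃+* ℂ) (p : B × B), (Matrix.single p.1 p.2 (1 : ℂ)).map σ =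
      Matrix.single p.1 p.2 1 := by
    intro σ p
    ext i j
    rw [map_apply, Matrix.single_apply]
    split_ifs
    · exact map_one σ
    · exact map_zero σ
  have hsub : ∀ (σ : ℂ ≃+* ℂ) (X Y : Matrix B B ℂ), (X - Y).map σ = X.map σ - Y.map σ :=
    fun σ X Y => Matrix.map_sub _ (map_sub σ) _ _
  have huniq : ∀ X ∈ J, X ∈ Kc I → X = 0 := fun X h1 h2 => by
    have h3 : X ∈ J ⊓ Kc I := ⟨h1, h2⟩
    rwa [hI', Submodule.mem_bot] at h3
  have hspan : ∀ X ∈ J, X = ∑ p : B × B, X p.1 p.2 • y p := by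
    intro X hX
    rw [← sub_eq_zero]
    refine huniq _ (J.sub_mem hX (J.sum_mem fun p _ => J.smul_mem _ (hy1 p))) ?_
    have h1 : X = ∑ p : B × B, X p.1 p.2 • Matrix.single p.1 p.2 (1 : ℂ) := by
      nth_rewrite 1 [Matrix.matrix_eq_sum_single X]
      rw [Fintype.sum_prod_type]
      refine Finset.sum_congr rfl fun i _ => Finset.sum_congr rfl fun j _ => ?_
      rw [Matrix.smul_single, smul_eq_mul, mul_one]
    have h2 : X - ∑ p : B × B, X p.1 p.2 • y p =
        ∑ p : B × B, X p.1 p.2 • (Matrix.single p.1 p.2 (1 : ℂ) - y p) := by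
      simp only [smul_sub, Finset.sum_sub_distrib]
      rw [← h1]
    rw [h2]
    exact (Kc I).sum_mem fun p _ => (Kc I).smul_mem _ (hy2 p)
  refine ⟨{a | ∃ p q : B × B, a = y p q.1 q.2}, fun σ => ⟨fun h1 => ?_, fun h1 => ?_⟩⟩
  · rintro a ⟨p, q, rfl⟩
    have h2 : (y p).map σ ∈ J := by
      rw [← h1]
      exact mem_cjM' (hy1 p)
    have h3 : y p - (y p).map σ ∈ Kc I := by
      have h4 := Kc_map (hy2 p) σ
      rw [hsub, hsm] at h4
      have h5 := (Kc I).sub_mem h4 (hy2 p)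
      rwa [sub_sub_sub_cancel_left] at h5
    have h4 := sub_eq_zero.1 (huniq _ (J.sub_mem (hy1 p) h2) h3)
    have h5 := congrFun (congrFun h4 q.1) q.2
    exact h5.symm
  · have key : ∀ σ : ℂ ≃+* ℂ, (∀ a, (∃ p q : B × B, a = y p q.1 q.2) → σ a = a) →
        ∀ X ∈ J, X.map σ ∈ J := by
      intro σ h1 X hX
      have h2 : ∀ p, (y p).map σ = y p := fun p => by
        ext i j
        exact h1 _ ⟨p, (i, j), rfl⟩
      have h3 : X.map σ = ∑ p : B × B, σ (X p.1 p.2) • y p := by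
        nth_rewrite 1 [hspan X hX]
        ext i j
        rw [map_apply, Matrix.sum_apply, map_sum, Matrix.sum_apply]
        refine Finset.sum_congr rfl fun p _ => ?_
        rw [Matrix.smul_apply, Matrix.smul_apply, smul_eq_mul, smul_eq_mul, map_mul]
        congr 1
        exact congrFun (congrFun (h2 p) i) j
      rw [h3]
      exact J.sum_mem fun p _ => J.smul_mem _ (hy1 p)
    refine le_antisymm (fun X hX => ?_) fun X hX => ?_
    · have h2 := key σ h1 _ (mem_cjM.1 hX)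
      rwa [map_symm'] at h2
    · exact key σ.symm (fun a ha => by
        have h2 := h1 a ha
        rw [RingEquiv.symm_apply_eq, h2]) X hX

end

end Pool.Agent.N994.PG
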