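import Mathlib
import Pool.Agent.N994.PG.Gal

/-!
# Period fields of odd degree: the Lie algebra is generated, as an ideal, by one conjugate
-/

set_option linter.unusedSectionVars false

namespace Pool.Agent.N994.PG

open Matrix Module Pool.Agent.W437.HC Pool.Agent.W437.HD Pool.Agent.TH504.CB Pool.Agent.Y90
  Pool.Agent.R915
open Pool.Agent.W548.Odd hiding cv
open Pool.Agent.N994.PF (rs Zk InL Ed Sys PP PP_eq comb card_emb)
open Pool.Agent.Y4 (exists_aut_emb)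

open scoped ComplexOrder

noncomputable section

variable {g : ℕ} {Z : Matrix (Fin g) (Fin g) ℂ} {k : IntermediateField ℚ ℂ}

/-- The dichotomy for ideals. -/
def Dich (Z : Matrix (Fin g) (Fin g) ℂ) : Prop :=
  ∀ J, IsId (LZ Z) J → (∀ Y ∈ J, Y * DZ Z = DZ Z * Y) ∨
    ∀ N ∈ LZ Z, DZ Z * N = N → N * DZ Z = -N → N ∈ J

theorem map_neg_mat {B : Type*} (σ : ℂ ≃+* ℂ) (M : Matrix B B ℂ) : (-M).map σ = -M.map σ := by
  ext i j
  exact map_neg σ _

theorem DS_symm (σ : ℂ ≃+* ℂ) : (DS Z σ).map σ.symm = DZ Z := by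
  ext i j
  exact σ.symm_apply_apply _

/-- The dichotomy for the conjugates. -/
theorem Dich.conj (h : PM Z) (hd : Dich Z) {hZ : ∀ i j, Z i j ∈ k}
    {J : Submodule ℂ (Matrix (Fin g ⊕ Fin g) (Fin g ⊕ Fin g) ℂ)} (hJ : IsId (LZ Z) J)
    (σ : ℂ ≃+* ℂ) : (∀ Y ∈ J, Y * DS Z σ = DS Z σ * Y) ∨ Np Z hZ (rs k (cc.trans σ)) ≤ J := by
  rcases hd _ (hJ.cj σ.symm) with h1 | h1
  · left
    intro Y hY
    have h2 := h1 (Y.map σ.symm) (mem_cjM' hY)
    have h3 := congrArg (fun M => M.map σ) h2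
    beta_reduce at h3
    rw [Matrix.map_mul, Matrix.map_mul, map_symm'] at h3
    exact h3
  · right
    intro N hN
    obtain ⟨h2, h3, h4⟩ := (mem_Np_pos h).1 hN
    have h5 := h1 (N.map σ.symm) (gal_LZ σ.symm N h2) (by
      rw [← DS_symm σ, ← Matrix.map_mul, h3]) (by
      rw [← DS_symm σ, ← Matrix.map_mul, h4, map_neg_mat])
    rw [mem_cjM, RingEquiv.symm_symm, map_symm'] at h5
    exact h5

/-- Ideals which commute with a conjugate of the complex structure. -/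
theorem comm_Np (h : PM Z) {hZ : ∀ i j, Z i j ∈ k}
    {J : Submodule ℂ (Matrix (Fin g ⊕ Fin g) (Fin g ⊕ Fin g) ℂ)} (hJ : IsId (LZ Z) J)
    {σ : ℂ ≃+* ℂ} (hc : ∀ Y ∈ J, Y * DS Z σ = DS Z σ * Y)
    {N : Matrix (Fin g ⊕ Fin g) (Fin g ⊕ Fin g) ℂ} (hN : N ∈ Np Z hZ (rs k (cc.trans σ))) :
    ∀ Y ∈ J, N * Y = Y * N := by
  intro Y hY
  obtain ⟨h2, h3, h4⟩ := (mem_Np_pos h).1 hN
  have h5 := hJ.br N h2 Y hY
  have h6 := hc _ h5
  have h7 := hc Y hY
  have e1 : DS Z σ * (N * Y - Y * N) = N * Y - Y * N := by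
    rw [mul_sub, ← mul_assoc, ← mul_assoc, h3, ← h7, mul_assoc Y, h3]
  have e2 : (N * Y - Y * N) * DS Z σ = -(N * Y - Y * N) := by
    rw [sub_mul, mul_assoc, mul_assoc, h4, h7, ← mul_assoc, h4, mul_neg, neg_mul]
    abel
  rw [e1, e2] at h6
  have h8 : (2 : ℂ) • (N * Y - Y * N) = 0 := by
    rw [two_smul]
    nth_rewrite 1 [← h6]
    rw [neg_add_cancel]
  exact sub_eq_zero.1 ((smul_eq_zero.1 h8).resolve_left two_ne_zero)

/-- Two of the ideals agree, or they commute. -/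
theorem Ip_or [Countable k] (h : PM Z) (hd : Dich Z) {hZ : ∀ i j, Z i j ∈ k}
    (p : k →+* ℂ) (σ : ℂ ≃+* ℂ) : Ip Z hZ p = Ip Z hZ (rs k (cc.trans σ)) ∨
      ∀ Y ∈ Ip Z hZ p, Y * DS Z σ = DS Z σ * Y := by
  rcases hd.conj h (hZ := hZ) (Ip_id (hZ := hZ) (p := p)) σ with h1 | h1
  · exact Or.inr h1
  · left
    exact (Submodule.eq_of_le_of_finrank_eq (Ip_le Ip_id h1) (Ip_finrank _ _)).symm

/-- The odd case. -/
theorem odd_fix {α : Type*} [DecidableEq α] (S : Finset α) (hS : Odd S.card) (f : α → α)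
    (hf : ∀ a ∈ S, f a ∈ S) (hff : ∀ a, f (f a) = a) : ∃ a ∈ S, f a = a := by
  by_contra hcon
  push Not at hcon
  have h1 : ∑ _a ∈ S, (1 : ZMod 2) = 0 := by
    refine Finset.sum_involution (fun a _ => f a) (fun a _ => ?_) (fun a ha _ => hcon a ha)
      (fun a ha => hf a ha) fun a _ => hff a
    decide
  rw [Finset.sum_const, nsmul_eq_mul, mul_one] at h1
  have h2 := (ZMod.natCast_eq_zero_iff_even).1 h1
  exact (Nat.not_even_iff_odd.2 hS) h2

/-- The classes have odd cardinality. -/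
theorem odd_class {α β G : Type*} [Fintype α] [DecidableEq α] [DecidableEq β]
    (hα : Odd (Fintype.card α)) (F : α → β) (act : G → α ≃ α)
    (htr : ∀ a b, ∃ τ, act τ a = b) (hF : ∀ τ a b, F a = F b → F (act τ a) = F (act τ b))
    (hF' : ∀ τ a b, F (act τ a) = F (act τ b) → F a = F b) (a : α) :
    Odd (Finset.univ.filter fun b => F b = F a).card := by
  have key : ∀ y ∈ (Finset.univ : Finset α).image F,
      (Finset.univ.filter fun b => F b = y).card = (Finset.univ.filter fun b => F b = F a).card := by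
    intro y hy
    obtain ⟨c, -, rfl⟩ := Finset.mem_image.1 hy
    obtain ⟨τ, hτ⟩ := htr c a
    refine Finset.card_bij (fun b _ => act τ b) (fun b hb => ?_) (fun b _ b' _ hbb => ?_)
      fun b hb => ?_
    · rw [Finset.mem_filter] at hb ⊢
      refine ⟨Finset.mem_univ _, ?_⟩
      rw [← hτ]
      exact hF τ _ _ hb.2
    · exact (act τ).injective hbb
    · rw [Finset.mem_filter] at hb
      refine ⟨(act τ).symm b, ?_, (act τ).apply_symm_apply b⟩
      rw [Finset.mem_filter]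
      refine ⟨Finset.mem_univ _, hF' τ _ _ ?_⟩
      rw [(act τ).apply_symm_apply, hτ, hb.2]
  have h1 := Finset.card_eq_sum_card_image F (Finset.univ : Finset α)
  rw [Finset.sum_const_nat key, Finset.card_univ] at h1
  rw [h1] at hα
  exact (Nat.odd_mul.1 hα).2

section odd

variable [Countable k] (hodd : Odd (finrank ℚ k)) (h : PM Z) (hd : Dich Z)
  (hZ : ∀ i j, Z i j ∈ k) (hne : ∃ N ∈ LZ Z, DZ Z * N = N ∧ N * DZ Z = -N ∧ N ≠ 0)

include h hne in
theorem Np_ne (p : k →+* ℂ) : ∃ N ∈ Np Z hZ p, N ≠ 0 := by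
  obtain ⟨σ, rfl⟩ := exists_rs p
  obtain ⟨N, hN, h1, h2, h3⟩ := hne
  refine ⟨N.map σ, (mem_Np_pos h).2 ⟨gal_LZ σ N hN, ?_, ?_⟩, fun h4 => h3 ?_⟩
  · have h5 : DS Z σ = (DZ Z).map σ := rfl
    rw [h5, ← Matrix.map_mul, h1]
  · have h5 : DS Z σ = (DZ Z).map σ := rfl
    rw [h5, ← Matrix.map_mul, h2, map_neg_mat]
  · rw [← map_symm σ N, h4]
    exact Matrix.map_zero _ (map_zero _)

theorem Np_sq {p : k →+* ℂ} {N : Matrix (Fin g ⊕ Fin g) (Fin g ⊕ Fin g) ℂ}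
    {M : Matrix (Fin g ⊕ Fin g) (Fin g ⊕ Fin g) ℂ}
    (hN : N ∈ Np Z hZ p) (hM : M ∈ Np Z hZ p) : N * M = 0 := by
  apply eq_of_mulVec
  intro v
  rw [← mulVec_mulVec, zero_mulVec]
  exact (mem_Np.1 hN).2.2 _ ((mem_Np.1 hM).2.1 v)

include h hd hne in
theorem Ip_bar0 : Ip Z hZ ((cc : ℂ →+* ℂ).comp (rs k (cc.trans (RingEquiv.refl ℂ)))) =
    Ip Z hZ (rs k (cc.trans (RingEquiv.refl ℂ))) := by
  rcases Ip_or h hd (hZ := hZ) ((cc : ℂ →+* ℂ).comp (rs k (cc.trans (RingEquiv.refl ℂ))))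
    (RingEquiv.refl ℂ) with h1 | h1
  · exact h1
  · exfalso
    obtain ⟨N, hN, hN0⟩ := Np_ne h hZ hne ((cc : ℂ →+* ℂ).comp (rs k (cc.trans
      (RingEquiv.refl ℂ))))
    have h2 := h1 N (Np_le hN)
    have h3 := Np_cj cc hN
    rw [cc_comp] at h3
    obtain ⟨-, h4, h5⟩ := (mem_Np_pos h).1 h3
    rw [DS_refl] at h2 h4 h5
    have h6 := congrArg (fun M => M.map cc) h4
    have h7 := congrArg (fun M => M.map cc) h5
    beta_reduce at h6 h7
    have h8 : (N.map cc).map cc = N := by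
      ext i j
      exact Complex.conj_conj _
    rw [Matrix.map_mul, Pool.Agent.Y90.DZ_conj, h8, neg_mul] at h6
    rw [Matrix.map_mul, Pool.Agent.Y90.DZ_conj, map_neg_mat, h8, mul_neg] at h7
    have h9 := neg_injective h7
    rw [h9] at h2
    rw [← h2] at h6
    have h10 : (2 : ℂ) • N = 0 := by
      rw [two_smul]
      nth_rewrite 1 [← h6]
      rw [neg_add_cancel]
    exact hN0 ((smul_eq_zero.1 h10).resolve_left two_ne_zero)

include h hd hne in
/-- Complex conjugation fixes the ideals. -/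
theorem Ip_bar (p : k →+* ℂ) : Ip Z hZ ((cc : ℂ →+* ℂ).comp p) = Ip Z hZ p := by
  have h0 := Ip_bar0 h hd hZ hne
  have hcc : ∀ p q : k →+* ℂ, Ip Z hZ p = Ip Z hZ q →
      Ip Z hZ ((cc : ℂ →+* ℂ).comp p) = Ip Z hZ ((cc : ℂ →+* ℂ).comp q) := by
    intro p q hpq
    rw [← Ip_cj, ← Ip_cj, hpq]
  rcases Ip_or h hd (hZ := hZ) p (RingEquiv.refl ℂ) with h1 | h1
  · rw [hcc _ _ h1, h0, h1]
  · by_contra hcon
    obtain ⟨σ, hσ⟩ := exists_rs p
    rcases Ip_or h hd (hZ := hZ) ((cc : ℂ →+* ℂ).comp p) σ with h2 | h2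
    · rw [hσ] at h2
      exact hcon h2
    · obtain ⟨X, hX, hX0⟩ := Np_ne h hZ hne p
      apply hX0
      have h3 := h1 X (Np_le hX)
      rw [DS_refl] at h3
      refine pos_real h (mem_Np.1 hX).1 h3 (Np_sq hZ hX hX) ?_
      rw [← hσ] at hX
      have h4 := comm_Np h Ip_id h2 hX _ (Np_le (Np_cj cc (hσ ▸ hX)))
      exact h4

include h hd hne in
/-- The real embeddings. -/
theorem Ip_real {p : k →+* ℂ} (hp : (cc : ℂ →+* ℂ).comp p = p) :
    Ip Z hZ p = Ip Z hZ (rs k (cc.trans (RingEquiv.refl ℂ))) := by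
  rcases Ip_or h hd (hZ := hZ) p (RingEquiv.refl ℂ) with h1 | h1
  · exact h1
  · exfalso
    obtain ⟨X, hX, hX0⟩ := Np_ne h hZ hne p
    apply hX0
    have h3 := h1 X (Np_le hX)
    rw [DS_refl] at h3
    have h4 := Np_cj cc hX
    rw [hp] at h4
    refine pos_real h (mem_Np.1 hX).1 h3 (Np_sq hZ hX hX) ?_
    rw [Np_sq hZ hX h4, Np_sq hZ h4 hX]

include hodd h hd hne in
/-- **Period fields of odd degree:** all the ideals agree. -/
theorem Ip_odd [FiniteDimensional ℚ k] (p : k →+* ℂ) : Ip Z hZ p = Ip Z hZ (rs k (cc.trans (RingEquiv.refl ℂ))) := by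
  classical
  have : NumberField k := ⟨⟩
  have hcard : Fintype.card (k →+* ℂ) = finrank ℚ k := NumberField.Embeddings.card k ℂ
  let act : (ℂ ≃+* ℂ) → (k →+* ℂ) ≃ (k →+* ℂ) := fun τ =>
    { toFun := fun p => (τ : ℂ →+* ℂ).comp p
      invFun := fun p => (τ.symm : ℂ →+* ℂ).comp p
      left_inv := fun p => symm_comp τ p
      right_inv := fun p => by
        ext x
        exact τ.apply_symm_apply _ }
  have hact : ∀ τ p, act τ p = (τ : ℂ →+* ℂ).comp p := fun _ _ => rfl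
  have hF : ∀ τ (a b : k →+* ℂ), Ip Z hZ a = Ip Z hZ b → Ip Z hZ (act τ a) = Ip Z hZ (act τ b) := by
    intro τ a b hab
    rw [hact, hact, ← Ip_cj, ← Ip_cj, hab]
  have hF' : ∀ τ (a b : k →+* ℂ), Ip Z hZ (act τ a) = Ip Z hZ (act τ b) →
      Ip Z hZ a = Ip Z hZ b := by
    intro τ a b hab
    have h1 := hF τ.symm _ _ hab
    rw [hact, hact, hact, hact, symm_comp, symm_comp] at h1
    exact h1
  have h1 := odd_class (by rw [hcard]; exact hodd) (Ip Z hZ) act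
    (fun a b => exists_aut_emb a b) hF hF' p
  obtain ⟨r, hr, hrr⟩ := odd_fix _ h1 (fun q => (cc : ℂ →+* ℂ).comp q) (fun q hq => by
    rw [Finset.mem_filter] at hq ⊢
    exact ⟨Finset.mem_univ _, by rw [Ip_bar h hd hZ hne, hq.2]⟩) fun q => cc_comp q
  rw [Finset.mem_filter] at hr
  rw [← hr.2]
  exact Ip_real h hd hZ hne hrr

include hodd h hd hne hZ in
/-- **Period fields of odd degree:** the Lie algebra is generated, as an ideal, by the elements of
positive degree. -/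
theorem fullZ_odd [FiniteDimensional ℚ k] (hD : ∀ J, IsId (LZ Z) J → (∀ N ∈ LZ Z, DZ Z * N = N → N * DZ Z = -N → N ∈ J) →
    DZ Z ∈ J) : FullZ Z := by
  intro J hJ hp
  have h0 : ∀ N, N ∈ Np Z hZ (rs k (cc.trans (RingEquiv.refl ℂ))) ↔
      N ∈ LZ Z ∧ DZ Z * N = N ∧ N * DZ Z = -N := by
    intro N
    rw [mem_Np_pos h, DS_refl]
  have h1 : Ip Z hZ (rs k (cc.trans (RingEquiv.refl ℂ))) ≤ J := Ip_le hJ fun N hN => by
    obtain ⟨h2, h3, h4⟩ := (h0 N).1 hN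
    exact hp N h2 h3 h4
  have h2 : DZ Z ∈ Ip Z hZ (rs k (cc.trans (RingEquiv.refl ℂ))) :=
    hD _ Ip_id fun N hN h3 h4 => Np_le ((h0 N).2 ⟨hN, h3, h4⟩)
  refine LZ_le (fun σ => h1 ?_) fun X hX Y hY => hJ.br X (hJ.le hX) Y hY
  have h3 : DS Z σ ∈ cjM σ (Ip Z hZ (rs k (cc.trans (RingEquiv.refl ℂ)))) := mem_cjM' h2
  rwa [Ip_cj, Ip_odd hodd h hd hZ hne] at h3

end odd

end

end Pool.Agent.N994.PG
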