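import Mathlib
import Pool.Agent.N994.PG.Gal2
import Pool.Agent.N994.PG.FiveSeven

/-!
# Period fields of odd degree, dimension at most seven
-/

set_option linter.unusedSectionVars false

namespace Pool.Agent.N994.PG

open Matrix Module Pool.Agent.W437.HC Pool.Agent.W437.HD Pool.Agent.TH504.CB Pool.Agent.Y90
  Pool.Agent.R915
open Pool.Agent.W548.Odd hiding cv
open Pool.Agent.Y4.G (Lie lr lr_apply trace_idemM)
open Pool.Agent.Y4.G.Lie (pos mem_pos)
open Pool.Agent.N994.PF (rs Zk InL Ed Sys PP PP_eq comb card_emb)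
open Pool.Agent.Y4 (exists_aut_emb)

open scoped ComplexOrder

noncomputable section

variable {g : ℕ} {Z : Matrix (Fin g) (Fin g) ℂ} {k : IntermediateField ℚ ℂ}

/-- The Lie algebra is generated, as an ideal, by the elements of positive degree. -/
theorem fullZ_of [FiniteDimensional ℚ k] (hodd : Odd (finrank ℚ k)) (h : PM Z)
    (hZ : ∀ i j, Z i j ∈ k) {U : Submodule ℂ (Fin g ⊕ Fin g → ℂ)} (hU : IrS (LZ Z) U)
    (hF : ∀ X ∈ LZ Z, (∀ u ∈ U, X *ᵥ u = 0) → X = 0) (hs : SDu Z U) : FullZ Z := by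
  obtain ⟨S, Si, e, k'⟩ := exists_co h hU
  have htr := two_le_tr h hU hs
  refine fullZ_odd hodd h (fun J hJ => k'.dichZ hF hJ) hZ ?_ fun J hJ hp =>
    k'.D_memZ hF hU hs hJ hp
  obtain ⟨x, hx, hx0⟩ := Submodule.exists_mem_ne_zero_of_ne_bot
    (pos_ne_bot k'.H (by omega) (by omega))
  obtain ⟨N, hN, h1, h2, rfl⟩ := k'.of_pos hx
  exact ⟨N, hN, h1, h2, fun h0 => hx0 (by rw [h0, map_zero])⟩

/-- Real hermitian coordinates. -/
theorem exists_top (h : PM Z) (hU : IrS (LZ Z) (⊤ : Submodule ℂ (Fin g ⊕ Fin g → ℂ))) :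
    ∃ S Si, Co h ⊤ S Si 1 ∧ ∀ x ∈ pos ((LZ Z).map (lr S (1 * Si))) (S * pP (DZ Z) 1 1 * Si)
      (S * pP (DZ Z) 1 (-1) * Si), xᵀ = x := by
  obtain ⟨S, Si, h1, h2, h3, h4, h5, h6⟩ := exists_Sr h
  have k : Co h ⊤ S Si 1 := ⟨h1, h2, fun _ => trivial, fun v _ => one_mulVec v,
    fun X _ => by rw [mul_one, one_mul], lie_of h hU h1 h2 h3 (fun X hX => ⟨_,
      (LZ Z).neg_mem (LA_invol (gal_LZ cc X hX) (DZ_mem (Z := Z)) (DZ_sq h.det)), h4 X hX⟩)
      (fun _ => trivial) (fun v _ => one_mulVec v) (by rw [mul_one, h1, conjTranspose_one])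
      fun X _ => by rw [mul_one, one_mul]⟩
  refine ⟨S, Si, k, fun x hx => ?_⟩
  obtain ⟨N, hN, h7, h8, rfl⟩ := k.of_pos hx
  rw [k.lr', mul_one]
  have h9 := h4 N hN
  have h10 : -(DZ Z * N.map cc * DZ Z) = N.map cc := by
    have e1 := congrArg (fun M => M.map cc) h7
    have e2 := congrArg (fun M => M.map cc) h8
    beta_reduce at e1 e2
    rw [Matrix.map_mul, Pool.Agent.Y90.DZ_conj, neg_mul] at e1
    rw [Matrix.map_mul, Pool.Agent.Y90.DZ_conj, map_neg_mat, mul_neg] at e2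
    have e3 := neg_injective e2
    rw [← neg_mul, e1, e3]
  rw [h10] at h9
  have h11 : S * N.map cc * Si = (S * N * Si).map cc := by
    rw [Matrix.map_mul, Matrix.map_mul, h5, h6]
  rw [h11] at h9
  have h12 : (S * N * Si)ᴴ = ((S * N * Si)ᵀ).map cc := rfl
  rw [h12] at h9
  have h13 := congrArg (fun M => M.map cc) h9
  beta_reduce at h13
  have h14 : ∀ M : Matrix (Fin g ⊕ Fin g) (Fin g ⊕ Fin g) ℂ, (M.map cc).map cc = M := by
    intro M
    ext i j
    exact Complex.conj_conj _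
  rw [h14, h14] at h13
  exact h13.symm

/-- Elements of rank one in the absence of additional endomorphisms. -/
theorem rk1_top (h : PM Z) (hs : IsSimpleAV Z) (hg : g = 4 ∨ g = 6 ∨ g = 7)
    (hU : IrS (LZ Z) (⊤ : Submodule ℂ (Fin g ⊕ Fin g → ℂ))) (hf : FullZ Z) :
    Rk1 Z (⊤ : Submodule ℂ (Fin g ⊕ Fin g → ℂ)) := by
  by_contra hR
  have hone : ∀ e ∈ LZ Z, e.rank ≠ 1 := fun e he he1 => hR (rk1_of_rank_one h he he1)
  have hrk : ∀ N ∈ LZ Z, DZ Z * N = N → N * DZ Z = -N → N ≠ 0 →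
      Even N.rank ∧ 4 ≤ N.rank := by
    intro N hN h1 h2 hN0
    have h5 : N.rank ≠ 0 := fun h0 => hN0 (rank_zero_iff h0)
    have h6 := hone N hN
    have h7 : N.rank ≠ 2 := fun h7 => no_rank_two h hU hone hN h1 h2 h7
    have hNN : N * N = 0 := by
      have h3 : N * N = -(N * N) := by
        calc N * N = N * (DZ Z * N) := by rw [h1]
          _ = -(N * N) := by rw [← mul_assoc, h2, neg_mul]
      have h4 : (2 : ℂ) • (N * N) = 0 := by
        rw [two_smul]
        nth_rewrite 1 [h3]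
        rw [neg_add_cancel]
      exact (smul_eq_zero.1 h4).resolve_left two_ne_zero
    have hodd : ¬Odd N.rank := by
      intro hodd
      obtain ⟨e, he, he1⟩ := exists_rank_one (ε := 1) (N := N) h.isPer (Set.mem_singleton Z) hs
        (fun X _ => by rw [one_mul, mul_one]) (by rw [one_mul])
        (by rw [transpose_one, one_mul, mul_one]) (fun c _ => by rw [one_mul, mul_one])
        (by rw [← img_eq]; exact hN) hNN (by rwa [one_mul])
      rw [← img_eq] at he
      exact hone e he he1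
    rw [Nat.not_odd_iff_even] at hodd
    obtain ⟨r, hr⟩ := hodd
    exact ⟨⟨r, hr⟩, by omega⟩
  obtain ⟨S, Si, k', hsym⟩ := exists_top h hU
  have H := k'.H
  have hpd : pd Z (⊤ : Submodule ℂ (Fin g ⊕ Fin g → ℂ)) = g := by
    unfold pd
    rw [top_inf_eq, (finrank_eig h).1]
  have hqd : qd Z (⊤ : Submodule ℂ (Fin g ⊕ Fin g → ℂ)) = g := by
    unfold qd
    rw [top_inf_eq, (finrank_eig h).2]
  rw [hpd, hqd] at H
  obtain ⟨e0, p, q, t, k⟩ := exists_trp H (by omega) (by omega)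
  obtain ⟨m, c, hm, hc, hrel, hV0⟩ := rel_sym k H hsym
  -- the rank
  obtain ⟨N, hN, h1, h2, hNe⟩ := k'.of_pos k.mem
  rw [k'.lr', mul_one] at hNe
  have hN0 : N ≠ 0 := by
    rintro rfl
    apply k.ne
    rw [← hNe, mul_zero, zero_mul]
  obtain ⟨hev, h4⟩ := hrk N hN h1 h2 hN0
  have hNr : N = Si * e0 * S := by
    have h5 : Si * (S * N * Si) * S = (Si * S) * N * (Si * S) := by noncomm_ring
    rw [← hNe, h5, k'.SiS, one_mul, mul_one]
  have her : e0.rank = N.rank := by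
    apply le_antisymm
    · rw [← hNe]
      exact (Matrix.rank_mul_le_left _ _).trans (Matrix.rank_mul_le_right _ _)
    · nth_rewrite 1 [hNr]
      exact (Matrix.rank_mul_le_left _ _).trans (Matrix.rank_mul_le_right _ _)
  have hpr : p.rank = N.rank := by
    rw [← her]
    apply le_antisymm
    · have h5 : p = t⁻¹ • (e0 * e0ᴴ) := by
        rw [k.eh, smul_smul, inv_mul_cancel₀ k.t0, one_smul]
      have h6 : p = e0 * (t⁻¹ • e0ᴴ) := by rw [h5, Matrix.mul_smul]
      rw [h6]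
      exact Matrix.rank_mul_le_left _ _
    · nth_rewrite 1 [← k.pe]
      exact Matrix.rank_mul_le_left _ _
  have hmr : m = N.rank := by
    have h5 := trace_idemM k.pp
    rw [hm] at h5
    have h6 : m = p.rank := by exact_mod_cast h5
    rw [h6, hpr]
  rw [← hmr] at hev h4
  obtain ⟨r, hr⟩ := hev
  have hG := k'.full hf
  rcases hg with rfl | rfl | rfl
  · -- dimension four
    have : m = 4 := by omega
    subst this
    have h5 := no_one H hG k (by rw [hm])
    omega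
  · -- dimension six
    have hm46 : m = 4 ∨ m = 6 := by omega
    rcases hm46 with rfl | rfl
    · have hcD : c = 2 ∧ finrank ℂ (pos ((LZ Z).map (lr S (1 * Si))) (S * pP (DZ Z) 1 1 * Si)
          (S * pP (DZ Z) 1 (-1) * Si)) = 3 := by
        have : c = 0 ∨ c = 1 ∨ c = 2 := by omega
        rcases this with rfl | rfl | rfl <;> omega
      obtain ⟨hc2, hD3⟩ := hcD
      exact no_423 H hG k (by rw [hm]; norm_num) hsym (hV0 (by omega)) hD3
    · have h5 := no_one H hG k (by rw [hm])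
      omega
  · -- dimension seven
    have hm46 : m = 4 ∨ m = 6 := by omega
    rcases hm46 with rfl | rfl
    · have : c = 0 ∨ c = 1 ∨ c = 2 ∨ c = 3 := by omega
      rcases this with rfl | rfl | rfl | rfl <;> omega
    · have : c = 0 ∨ c = 1 := by omega
      rcases this with rfl | rfl <;> omega

/-- There are no orthogonal submodules of dimension four. -/
theorem no_orth4 (h : PM Z) {U : Submodule ℂ (Fin g ⊕ Fin g → ℂ)} (hU : IrS (LZ Z) U)
    (b : (Fin g ⊕ Fin g → ℂ) →ₗ[ℂ] (Fin g ⊕ Fin g → ℂ) →ₗ[ℂ] ℂ)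
    (h0 : ∃ u ∈ U, ∃ v ∈ U, b u v ≠ 0)
    (hb : ∀ X ∈ LZ Z, ∀ u ∈ U, ∀ v ∈ U, b (X *ᵥ u) v + b u (X *ᵥ v) = 0)
    (hsym : ∀ u ∈ U, ∀ v ∈ U, b u v = b v u)
    (hf : FullZ Z) (hpd : pd Z U = 2) (hqd : qd Z U = 2) : False := by
  obtain ⟨S, Si, e, k'⟩ := exists_co h hU
  have H := k'.H
  rw [hpd, hqd] at H
  have hG := k'.full hf
  obtain ⟨e0, p, q, t, k⟩ := exists_trp H (by norm_num) (by norm_num)
  obtain ⟨m, c, hm, hc, hrel⟩ := k.rel H
  have hm0 : m ≠ 0 := by
    rintro rfl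
    apply k.ne
    rw [← k.pe, idem_zero k.pp (by rw [hm, Nat.cast_zero]), zero_mul]
  have hm12 : m = 1 ∨ m = 2 := by omega
  rcases hm12 with rfl | rfl
  · -- rank one
    obtain ⟨r, ρ, hr1, hr2, hr3, hr4⟩ := exists_frame (n := 1) k.pp hm
    obtain ⟨N, hN, h1, h2, hNe⟩ := k'.of_pos k.mem
    -- the element on `U`
    have hline : ∀ u ∈ U, N *ᵥ u = ρ 0 (e0 *ᵥ (S *ᵥ u)) • (Si *ᵥ r 0) := by
      intro u hu
      have e1 : (S * (N * e) * Si) *ᵥ (S *ᵥ u) = S *ᵥ (N *ᵥ u) := by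
        rw [← mulVec_mulVec, mulVec_mulVec u Si S, k'.SiS, one_mulVec, ← mulVec_mulVec,
          ← mulVec_mulVec, k'.e2 u hu]
      rw [← k'.lr', hNe] at e1
      have e2 : e0 *ᵥ (S *ᵥ u) = ρ 0 (e0 *ᵥ (S *ᵥ u)) • r 0 := by
        have e3 := hr2 (e0 *ᵥ (S *ᵥ u))
        rw [mulVec_mulVec, k.pe, Fin.sum_univ_one] at e3
        exact e3
      have e3 := congrArg (fun v => Si *ᵥ v) e1
      beta_reduce at e3
      rw [mulVec_mulVec _ Si S, k'.SiS, one_mulVec, e2, mulVec_smul] at e3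
      exact e3.symm
    obtain ⟨f, hf'⟩ : ∃ f : (Fin g ⊕ Fin g → ℂ) → ℂ, ∀ u, f u = ρ 0 (e0 *ᵥ (S *ᵥ u)) :=
      ⟨_, fun _ => rfl⟩
    obtain ⟨w, hw⟩ : ∃ w, w = Si *ᵥ r 0 := ⟨_, rfl⟩
    have hNu : ∀ u ∈ U, N *ᵥ u = f u • w := fun u hu => by rw [hline u hu, hf', hw]
    have hfa : ∀ u v, f (u + v) = f u + f v := by
      intro u v
      rw [hf', hf', hf', mulVec_add, mulVec_add, map_add]
    have hN0 : ∃ u ∈ U, f u ≠ 0 := by
      by_contra hcon
      push Not at hcon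
      apply k.ne
      rw [← hNe]
      rw [k'.lr']
      have e1 : N * e = 0 := eq_of_mulVec fun v => by
        rw [← mulVec_mulVec, hNu _ (k'.e1 v), hcon _ (k'.e1 v), zero_smul, zero_mulVec]
      rw [e1, mul_zero, zero_mul]
    obtain ⟨u0, hu0, hfu0⟩ := hN0
    have hwU : w ∈ U := by
      have e1 := hU.2.1 N hN u0 hu0
      rw [hNu u0 hu0] at e1
      have e2 := U.smul_mem (f u0)⁻¹ e1
      rwa [smul_smul, inv_mul_cancel₀ hfu0, one_smul] at e2
    -- the form `b (N u) v` is alternating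
    have halt : ∀ u ∈ U, f u * b w u = 0 := by
      intro u hu
      have e1 := hb N hN u hu u hu
      have e2 := hsym u hu (N *ᵥ u) (hU.2.1 N hN u hu)
      rw [e2, hNu u hu, map_smul, LinearMap.smul_apply, smul_eq_mul] at e1
      have e3 : 2 * (f u * b w u) = 0 := by linear_combination e1
      exact (mul_eq_zero.1 e3).resolve_left two_ne_zero
    have hbw0 : b w u0 = 0 := (mul_eq_zero.1 (halt u0 hu0)).resolve_left hfu0
    have hbw : ∀ v ∈ U, b w v = 0 := by
      intro v hv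
      have e1 := halt (u0 + v) (U.add_mem hu0 hv)
      have e2 := halt v hv
      rw [hfa, map_add] at e1
      have e3 : f u0 * b w v = 0 := by
        linear_combination e1 - e2 - (f u0 + f v) * hbw0
      exact (mul_eq_zero.1 e3).resolve_left hfu0
    -- the radical
    let R : Submodule ℂ (Fin g ⊕ Fin g → ℂ) :=
      { carrier := {u | u ∈ U ∧ ∀ v ∈ U, b u v = 0}
        zero_mem' := ⟨U.zero_mem, fun v _ => by rw [map_zero, LinearMap.zero_apply]⟩
        add_mem' := fun {x y} hx hy => ⟨U.add_mem hx.1 hy.1, fun v hv => by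
          rw [map_add, LinearMap.add_apply, hx.2 v hv, hy.2 v hv, add_zero]⟩
        smul_mem' := fun c x hx => ⟨U.smul_mem c hx.1, fun v hv => by
          rw [map_smul, LinearMap.smul_apply, hx.2 v hv, smul_zero]⟩ }
    have hR : ∀ u, u ∈ R ↔ u ∈ U ∧ ∀ v ∈ U, b u v = 0 := fun _ => Iff.rfl
    rcases hU.2.2 R (fun u hu => hu.1) (fun X hX u hu => by
      obtain ⟨e1, e2⟩ := (hR u).1 hu
      refine (hR _).2 ⟨hU.2.1 X hX u e1, fun v hv => ?_⟩
      have e3 := hb X hX u e1 v hv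
      rw [e2 _ (hU.2.1 X hX v hv), add_zero] at e3
      exact e3) with e1 | e1
    · have e2 : w ∈ R := (hR w).2 ⟨hwU, hbw⟩
      rw [e1, Submodule.mem_bot] at e2
      apply hfu0
      have e3 : N *ᵥ u0 = 0 := by rw [hNu u0 hu0, e2, smul_zero]
      have e4 : (S * (N * e) * Si) *ᵥ (S *ᵥ u0) = S *ᵥ (N *ᵥ u0) := by
        rw [← mulVec_mulVec, mulVec_mulVec u0 Si S, k'.SiS, one_mulVec, ← mulVec_mulVec,
          ← mulVec_mulVec, k'.e2 u0 hu0]
      rw [← k'.lr', hNe, e3, mulVec_zero] at e4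
      rw [hf', e4, map_zero]
    · obtain ⟨u, hu, v, hv, huv⟩ := h0
      rw [← e1] at hu
      exact huv (((hR u).1 hu).2 v hv)
  · have h5 := no_one H hG k (by rw [hm])
    omega

end

end Pool.Agent.N994.PG
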