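import Mathlib
import Pool.Agent.N994.PG.OddSeven

/-!
# The local condition for fields of odd degree
-/

set_option linter.unusedSectionVars false

namespace Pool.Agent.N994.PG

open Matrix Module Pool.Agent.W437.HC Pool.Agent.W437.HD Pool.Agent.Y90 Pool.Agent.R915
open Pool.Agent.W548.Odd hiding cv
open Pool.Agent.N994.PF (rs Zk InL Ed Sys PP PP_eq comb card_emb)
open scoped ComplexOrder

noncomputable section

variable {g : ℕ} {Z : Matrix (Fin g) (Fin g) ℂ} {k : IntermediateField ℚ ℂ}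

/-- Two-dimensional submodules over fields of odd degree are alternating. -/
theorem altF_of_two_odd [FiniteDimensional ℚ k] (hodd : Odd (finrank ℚ k)) (h : PM Z)
    (hZ : ∀ i j, Z i j ∈ k) {U : Submodule ℂ (Fin g ⊕ Fin g → ℂ)} (hU : IrS (LZ Z) U)
    (h3 : finrank ℂ U = 2) : AltF Z U := by
  have hpos : ∀ p : k →+* ℂ, ∃ u ∈ U, u ≠ 0 ∧ u ∈ Lp hZ p := by
    intro p
    have h4 := even_odd hodd h hZ hU p
    have h5 : (U ⊓ Lp hZ p : Submodule ℂ (Fin g ⊕ Fin g → ℂ)) ≠ ⊥ := by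
      intro h6
      rw [h6, finrank_bot, h3] at h4
      omega
    obtain ⟨u, ⟨hu1, hu2⟩, hu0⟩ := Submodule.exists_mem_ne_zero_of_ne_bot h5
    exact ⟨u, hu1, hu0, hu2⟩
  refine altF_of_two h hU.2.1 h3 (fun σ => ?_) fun σ => ?_
  · obtain ⟨u, hu, hu0, hu'⟩ := hpos (rs k σ)
    exact ⟨u, hu, hu0, (mem_neg h hZ σ).1 hu'⟩
  · obtain ⟨u, hu, hu0, hu'⟩ := hpos (rs k (cc.trans σ))
    exact ⟨u, hu, hu0, (mem_pos h hZ σ).1 hu'⟩

/-- The image of `U` is the complex conjugate submodule. -/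
theorem BarI.map_eq' {U : Submodule ℂ (Fin g ⊕ Fin g → ℂ)}
    {T : Matrix (Fin g ⊕ Fin g) (Fin g ⊕ Fin g) ℂ} (hU : IrS (LZ Z) U) (hT : BarI Z U T) :
    U.map (mulVecLin T) = cjS cc U := by
  refine Submodule.eq_of_le_of_finrank_le ?_ ?_
  · rintro _ ⟨x, hx, rfl⟩
    exact hT.mem x hx
  · rw [finrank_cjS]
    have h5 : Function.Injective ((mulVecLin T).domRestrict U) := by
      rw [injective_iff_map_eq_zero]
      intro x hx
      exact Subtype.ext (hT.inj hU x x.2 hx)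
    have h6 := LinearMap.finrank_range_of_inj h5
    rw [LinearMap.range_domRestrict] at h6
    rw [h6]

/-- The form attached to an isomorphism with the complex conjugate submodule. -/
theorem BarI.ne_om {U : Submodule ℂ (Fin g ⊕ Fin g → ℂ)}
    {T : Matrix (Fin g ⊕ Fin g) (Fin g ⊕ Fin g) ℂ} (h : PM Z) (hU : IrS (LZ Z) U)
    (hT : BarI Z U T) : ∃ u ∈ U, ∃ v ∈ U, ((om g).compl₂ (mulVecLin T)) u v ≠ 0 := by
  by_contra hcon
  push Not at hcon
  obtain ⟨u, hu, w, hw, huw⟩ := pair_bar h hU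
  rw [← hT.map_eq' hU] at hw
  obtain ⟨x, hx, rfl⟩ := hw
  exact huw (hcon u hu x hx)

/-- The form attached to an isomorphism with the complex conjugate submodule is invariant. -/
theorem BarI.inv_om {U : Submodule ℂ (Fin g ⊕ Fin g → ℂ)}
    {T : Matrix (Fin g ⊕ Fin g) (Fin g ⊕ Fin g) ℂ} (h : PM Z) (hT : BarI Z U T)
    {X : Matrix (Fin g ⊕ Fin g) (Fin g ⊕ Fin g) ℂ} (hX : X ∈ LZ Z)
    (u v : Fin g ⊕ Fin g → ℂ) : ((om g).compl₂ (mulVecLin T)) (X *ᵥ u) v +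
      ((om g).compl₂ (mulVecLin T)) u (X *ᵥ v) = 0 := by
  change om g (X *ᵥ u) (T *ᵥ v) + om g u (T *ᵥ (X *ᵥ v)) = 0
  have e3 : T *ᵥ (X *ᵥ v) = X *ᵥ (T *ᵥ v) := by
    rw [mulVec_mulVec, mulVec_mulVec, hT.comm X hX]
  rw [e3]
  exact h.om_sp hX u (T *ᵥ v)

/-- Elements which vanish on `U` are zero. -/
theorem BarI.faithful {U : Submodule ℂ (Fin g ⊕ Fin g → ℂ)}
    {T : Matrix (Fin g ⊕ Fin g) (Fin g ⊕ Fin g) ℂ} (h : PM Z) (hU : IrS (LZ Z) U)
    (hd : finrank ℂ U = g) (ha : ¬ AltF Z U) (hT : BarI Z U T)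
    {X : Matrix (Fin g ⊕ Fin g) (Fin g ⊕ Fin g) ℂ} (hX : X ∈ LZ Z)
    (hXU : ∀ u ∈ U, X *ᵥ u = 0) : X = 0 := by
  have hUb := hU.cj gal_LZ cc
  have hinf : U ⊓ cjS cc U = ⊥ := by
    rcases hU.2.2 (U ⊓ cjS cc U) inf_le_left (fun Y hY u hu =>
      ⟨hU.2.1 Y hY u hu.1, hUb.2.1 Y hY u hu.2⟩) with h1 | h1
    · exact h1
    · exfalso
      have h2 : U ≤ cjS cc U := by
        calc U = U ⊓ cjS cc U := h1.symm
          _ ≤ cjS cc U := inf_le_right
      have h3 : U = cjS cc U := Submodule.eq_of_le_of_finrank_le h2 (finrank_cjS cc U).le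
      obtain ⟨u, hu, w, hw, huw⟩ := pair_bar h hU
      rw [← h3] at hw
      exact huw (om_zero h ha u hu w hw)
  have hsup : U ⊔ cjS cc U = ⊤ := by
    refine Submodule.eq_top_of_finrank_eq ?_
    have h1 := Submodule.finrank_sup_add_finrank_inf_eq U (cjS cc U)
    rw [hinf, finrank_bot, finrank_cjS, hd] at h1
    rw [finrank_V]
    omega
  refine eq_of_mulVec fun v => ?_
  have hv : v ∈ U ⊔ cjS cc U := by
    rw [hsup]
    trivial
  obtain ⟨a, ha', b, hb, rfl⟩ := Submodule.mem_sup.1 hv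
  rw [← hT.map_eq' hU] at hb
  obtain ⟨x, hx, rfl⟩ := hb
  have e3 : X *ᵥ (T *ᵥ x) = T *ᵥ (X *ᵥ x) := by
    rw [mulVec_mulVec, mulVec_mulVec, hT.comm X hX]
  change X *ᵥ (a + T *ᵥ x) = _
  rw [mulVec_add, e3, hXU a ha', hXU x hx, mulVec_zero, add_zero, zero_mulVec]

/-- **Fields of odd degree, dimension at most seven.** -/
theorem ld_odd [FiniteDimensional ℚ k] (hodd : Odd (finrank ℚ k)) (h : PM Z) (hs : IsSimpleAV Z)
    (hg : 0 < g) (hg7 : g ≤ 7) (hZ : ∀ i j, Z i j ∈ k)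
    {U : Submodule ℂ (Fin g ⊕ Fin g → ℂ)} (hU : IrS (LZ Z) U) : LD h U := by
  have hcj : ∀ V : Submodule ℂ (Fin g ⊕ Fin g → ℂ), cjS (RingEquiv.refl ℂ) V = V := fun V => by
    ext v
    exact Iff.rfl
  have htr := tr_odd hodd h hZ hU (RingEquiv.refl ℂ)
  rw [hcj] at htr
  have hU0 : 0 < finrank ℂ U := by
    rw [Nat.pos_iff_ne_zero, ne_eq, Submodule.finrank_eq_zero]
    exact hU.1
  by_cases ha : AltF Z U
  · have hsd := ha.sdu
    refine ⟨?_, by omega, Or.inl hsd⟩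
    obtain ⟨b, h0, hb, hal⟩ := ha
    by_cases h3 : finrank ℂ U ≤ 3
    · exact (rk1_two h hU hsd h3).1
    by_cases h4 : finrank ℂ U = 4
    · exact rk1_sp h hU h4 b h0 hb hal
    by_cases h6 : finrank ℂ U = 6
    · exact rk1_sp6 h hU h6 b h0 hb hal
    obtain ⟨m, hm⟩ := finrank_dvd h hs hU
    have hm1 : m = 1 := by
      rcases m with _ | _ | m
      · omega
      · rfl
      · exfalso
        have h8 : 8 * 2 ≤ finrank ℂ U * (m + 1 + 1) := Nat.mul_le_mul (by omega) (by omega)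
        omega
    subst hm1
    have hT : U = ⊤ := Submodule.eq_top_of_finrank_eq (by rw [finrank_V]; omega)
    subst hT
    by_cases h5 : g = 5
    · exact rk1_five h hs h5 hU
    · exact rk1_top h hs (by omega) hU (fullZ_of hodd h hZ hU
        (fun X _ hX => eq_of_mulVec fun v => by rw [hX v trivial, zero_mulVec]) hsd)
  have h1 := dvd_of_not_alt h hs hU ha
  have hgo : ¬ Odd g := by
    intro ho
    rw [← htr.1] at h1
    have h3 : 2 ∣ g := (Dvd.intro _ rfl).trans h1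
    exact (Nat.not_even_iff_odd.2 ho) (even_iff_two_dvd.2 h3)
  have hn2 : finrank ℂ U ≠ 2 := fun h3 => ha (altF_of_two_odd hodd h hZ hU h3)
  have hgU : finrank ℂ U = g ∧ (g = 4 ∨ g = 6) := by
    rw [Nat.odd_iff] at hgo
    obtain ⟨m, hm⟩ := h1
    obtain ⟨j, hj⟩ : ∃ j, finrank ℂ U = 2 * j := ⟨_, htr.1.symm⟩
    have hj2 : 2 ≤ j := by omega
    have hm1 : m = 1 := by
      rcases m with _ | _ | m
      · omega
      · rfl
      · exfalso
        have h8 : 4 * 2 ≤ finrank ℂ U * (m + 1 + 1) := Nat.mul_le_mul (by omega) (by omega)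
        omega
    subst hm1
    omega
  obtain ⟨hdim, hg46⟩ := hgU
  by_cases hT : ∃ T, BarI Z U T
  · exfalso
    obtain ⟨T, hT⟩ := hT
    have h4 := hT.four_dvd h hU ha hodd hZ
    have hg4 : g = 4 := by omega
    have hne := hT.ne_om h hU
    have hinv : ∀ X ∈ LZ Z, ∀ u ∈ U, ∀ v ∈ U, ((om g).compl₂ (mulVecLin T)) (X *ᵥ u) v +
        ((om g).compl₂ (mulVecLin T)) u (X *ᵥ v) = 0 := fun X hX u _ v _ => hT.inv_om h hX u v
    exact no_orth4 h hU ((om g).compl₂ (mulVecLin T)) hne hinv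
      (fun u hu v hv => hT.symm h ha u hu v hv)
      (fullZ_of hodd h hZ hU (fun X hX hXU => hT.faithful h hU hdim ha hX hXU) ⟨_, hne, hinv⟩)
      (by omega) (by omega)
  · obtain ⟨φ, d, kq⟩ := quad_of_no_bar h hU hdim ha hT
    obtain ⟨α, hα, hm⟩ := kq.exists_root h hU
    have hkw := kq.kw h hα hm hU.1
    have hLC : LC h U := by
      refine kq.lc3 h (fun V hV => ?_) (fun h6 => disc_six hodd h hZ hkw h6) hU
      obtain ⟨β, hβ, hmV⟩ := kq.exists_root h hV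
      have e1 := kq.dim h hβ hmV hV.1
      have htr := tr_odd hodd h hZ hV (RingEquiv.refl ℂ)
      rw [hcj] at htr
      omega
    refine ⟨hLC.rk (by omega), by omega, Or.inr ⟨φ, α, d, kq, hkw, hg46, ?_,
      fun h6 => disc_six hodd h hZ hkw h6⟩⟩
    unfold tr
    omega

end

end Pool.Agent.N994.PG
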