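import Mathlib
import Pool.Agent.N994.PG.OddAll
import Pool.Agent.N994.PG.Fod
import Pool.Agent.N994.PG.Stm

/-!
# Number fields with real embeddings: the conjugate ideals
-/

set_option linter.unusedSectionVars false

namespace Pool.Agent.N994.PG

open Matrix Module Pool.Agent.W437.HC Pool.Agent.W437.HD Pool.Agent.TH504.CB Pool.Agent.Y90
  Pool.Agent.R915
open Pool.Agent.W548.Odd hiding cv
open Pool.Agent.N994.PF (rs Zk InL Ed Sys PP PP_eq comb card_emb)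
open Pool.Agent.Y4 (exists_aut_emb)

open scoped ComplexOrder

noncomputable section

variable {g : ℕ} {Z : Matrix (Fin g) (Fin g) ℂ} {k : IntermediateField ℚ ℂ}

/-- The field `k` has a real embedding. -/
def HasReal (k : IntermediateField ℚ ℂ) : Prop :=
  ∃ p : k →+* ℂ, ∀ x, (p x).im = 0

/-- Real embeddings, in terms of complex conjugation. -/
theorem cc_of_im {F : Type*} [Field F] {p : F →+* ℂ} (hp : ∀ x, (p x).im = 0) (x : F) :
    cc (p x) = p x := Complex.conj_eq_iff_im.2 (hp x)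

/-- **All signatures are balanced for period fields with a real embedding.** -/
theorem even_real [Countable k] (hr : HasReal k) (h : PM Z)
    (hZ : ∀ i j, Z i j ∈ k) {U : Submodule ℂ (Fin g ⊕ Fin g → ℂ)} (hU : IrS (LZ Z) U)
    (p : k →+* ℂ) : 2 * finrank ℂ (U ⊓ Lp hZ p : Submodule ℂ (Fin g ⊕ Fin g → ℂ)) =
      finrank ℂ U := by
  obtain ⟨p₀, hp₀⟩ := hr
  -- the real embedding
  have key : ∀ {U : Submodule ℂ (Fin g ⊕ Fin g → ℂ)}, IrS (LZ Z) U →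
      2 * finrank ℂ (U ⊓ Lp hZ p₀ : Submodule ℂ (Fin g ⊕ Fin g → ℂ)) = finrank ℂ U := by
    intro U hU
    obtain ⟨σ, hσ⟩ := exists_aut_emb' (algebraMap k ℂ) p₀
    have hσ' : rs k σ = p₀ := hσ
    have hUb := hU.cj gal_LZ cc
    have h1 := edge_eq h hZ (p := rs k σ) (q := rs k (cc.trans σ)) ⟨σ, rfl, rfl⟩ hU.2.1
    have h2 := edge_eq h hZ (p := rs k σ) (q := rs k (cc.trans σ)) ⟨σ, rfl, rfl⟩ hUb.2.1
    have h3 := tr_st h hU hUb (du_bar h hU) σ.symm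
    unfold tr at h3
    rw [pd_cj h hZ, qd_cj h hZ, pd_cj h hZ, qd_cj h hZ] at h3
    have h4 : finrank ℂ (cjS cc U ⊓ Lp hZ (rs k σ) : Submodule ℂ (Fin g ⊕ Fin g → ℂ)) =
        finrank ℂ (U ⊓ Lp hZ (rs k σ) : Submodule ℂ (Fin g ⊕ Fin g → ℂ)) := by
      have h5 := np_cj hZ (rs k σ) cc U
      have h6 : (cc : ℂ →+* ℂ).comp (rs k σ) = rs k σ := by
        rw [hσ']
        ext x
        exact cc_of_im hp₀ x
      rwa [h6] at h5
    rw [finrank_cjS] at h2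
    rw [← hσ']
    omega
  obtain ⟨ρ, hρ⟩ := exists_aut_emb' p p₀
  have h1 := key (hU.cj gal_LZ ρ)
  rw [finrank_cjS, ← hρ, np_cj] at h1
  exact h1

/-- The traces vanish. -/
theorem tr_real [Countable k] (hr : HasReal k) (h : PM Z)
    (hZ : ∀ i j, Z i j ∈ k) {U : Submodule ℂ (Fin g ⊕ Fin g → ℂ)} (hU : IrS (LZ Z) U) :
    2 * pd Z U = finrank ℂ U ∧ 2 * qd Z U = finrank ℂ U := by
  have h1 := pd_cj h hZ (RingEquiv.refl ℂ).symm U
  have h2 := qd_cj h hZ (RingEquiv.refl ℂ).symm U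
  have hcj : cjS (RingEquiv.refl ℂ) U = U := by
    ext v
    exact Iff.rfl
  rw [RingEquiv.symm_symm, hcj] at h1 h2
  rw [h1, h2]
  exact ⟨even_real hr h hZ hU _, even_real hr h hZ hU _⟩

/-- **Orthogonal submodules, period fields with a real embedding.** -/
theorem BarI.four_dvd' [Countable k] {U : Submodule ℂ (Fin g ⊕ Fin g → ℂ)}
    {T : Matrix (Fin g ⊕ Fin g) (Fin g ⊕ Fin g) ℂ} (h : PM Z) (hU : IrS (LZ Z) U)
    (ha : ¬ AltF Z U) (hT : BarI Z U T) (hr : HasReal k)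
    (hZ : ∀ i j, Z i j ∈ k) : 4 ∣ finrank ℂ U := by
  obtain ⟨p, hp⟩ := id hr
  obtain ⟨σ, hσ⟩ := exists_aut_emb' (algebraMap k ℂ) p
  have hσ' : rs k σ = p := hσ
  obtain ⟨c, hc, hq⟩ := hT.quat h hU ha
  have h1 : Even (finrank ℂ (U ⊓ Lp hZ p : Submodule ℂ (Fin g ⊕ Fin g → ℂ))) := by
    refine even_quat (mulVecLin T) (fun v hv => ?_) hc fun v hv => hq v hv.1
    have h2 : T *ᵥ v ∈ Lp hZ p := by
      have h3 := hv.2
      rw [← hσ', Lp_neg h] at h3 ⊢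
      rw [SetLike.mem_coe, mem_Eg] at h3
      rw [mem_Eg, mulVec_mulVec, hT.comm _ (DS_mem σ), ← mulVec_mulVec, h3, mulVec_smul]
    refine ⟨mem_cc.1 (hT.mem v hv.1), ?_⟩
    have h3 := Lp_map hZ p cc h2
    have h4 : (cc : ℂ →+* ℂ).comp p = p := by
      ext x
      exact cc_of_im hp x
    rwa [h4] at h3
  have h2 := even_real hr h hZ hU p
  obtain ⟨m, hm⟩ := h1
  exact ⟨m, by omega⟩

/-- Families of subspaces which are attached to the embeddings of a field which satisfies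
`RealMoves`. -/
theorem blocks_eq [Countable k] (hE : RealMoves k) {B : Type*} [Fintype B] [DecidableEq B]
    (P : (k →+* ℂ) → Submodule ℂ (Matrix B B ℂ))
    (hP : ∀ (τ : ℂ ≃+* ℂ) (p : k →+* ℂ), P ((τ : ℂ →+* ℂ).comp p) = cjM τ (P p))
    (hbar : ∀ p, P ((cc : ℂ →+* ℂ).comp p) = P p)
    (hreal : ∀ p, (cc : ℂ →+* ℂ).comp p = p → P p = P (rs k (cc.trans (RingEquiv.refl ℂ))))
    (p : k →+* ℂ) : P p = P (rs k (cc.trans (RingEquiv.refl ℂ))) := by
  obtain ⟨A, hA⟩ := exists_fod (P (algebraMap k ℂ))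
  have hι : P (rs k (cc.trans (RingEquiv.refl ℂ))) = P (algebraMap k ℂ) := hbar (algebraMap k ℂ)
  rw [hι] at hreal ⊢
  -- the field of definition
  have hAk : ∀ a ∈ A, a ∈ k := by
    intro a ha
    refine mem_of_fixed k fun σ hσ => (hA σ).1 ?_ a ha
    rw [← hP]
    congr 1
    ext x
    exact hσ x x.2
  let F : IntermediateField ℚ ℂ := IntermediateField.adjoin ℚ A
  have hFk : F ≤ k := IntermediateField.adjoin_le_iff.2 hAk
  have _ : Countable F := (IntermediateField.inclusion hFk).injective.countable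
  have hfix : ∀ σ ρ : ℂ ≃+* ℂ, (∀ a ∈ A, σ a = ρ a) → ∀ x ∈ F, σ x = ρ x := by
    intro σ ρ hσ x hx
    induction hx using IntermediateField.adjoin_induction with
    | mem x hx => exact hσ x hx
    | algebraMap q => simp
    | add x y _ _ h1 h2 => rw [map_add, map_add, h1, h2]
    | inv x _ h1 => rw [map_inv₀, map_inv₀, h1]
    | mul x y _ _ h1 h2 => rw [map_mul, map_mul, h1, h2]
  have hA' : ∀ σ ρ : ℂ ≃+* ℂ, P ((σ : ℂ →+* ℂ).comp (algebraMap k ℂ)) =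
      P ((ρ : ℂ →+* ℂ).comp (algebraMap k ℂ)) → ∀ a ∈ A, σ a = ρ a := by
    intro σ ρ h1 a ha
    rw [hP, hP] at h1
    have h2 := (hA (σ.trans ρ.symm)).1 (by
      rw [cjM_trans, h1, cjM_symm']) a ha
    have h3 : ρ.symm (σ a) = a := h2
    rw [← h3, ρ.apply_symm_apply, h3]
  have htr : ∀ (τ : F →+* ℂ) (x : F), (τ x).im = 0 := by
    intro τ x
    obtain ⟨ρ, hρ⟩ := exists_aut_emb' (algebraMap F ℂ) τ
    have h1 : (cc : ℂ →+* ℂ).comp ((ρ : ℂ →+* ℂ).comp (algebraMap k ℂ)) =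
        ((ρ.trans cc : ℂ ≃+* ℂ) : ℂ →+* ℂ).comp (algebraMap k ℂ) := by
      ext y
      rfl
    have h2 := hbar ((ρ : ℂ →+* ℂ).comp (algebraMap k ℂ))
    rw [h1] at h2
    have h3 := hfix _ _ (hA' (ρ.trans cc) ρ h2) x x.2
    have h4 : τ x = ρ (x : ℂ) := (congrArg (fun f : F →+* ℂ => f x) hρ).symm
    rw [h4]
    exact Complex.conj_eq_iff_im.1 h3
  have hb : F = ⊥ := by
    by_contra hb
    obtain ⟨r, hr, x, hxF, hx⟩ := hE F hFk hb htr
    obtain ⟨ρ, hρ⟩ := exists_aut_emb' (algebraMap k ℂ) r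
    apply hx
    have h1 := hreal r (by
      ext y
      exact cc_of_im hr y)
    rw [← hρ, hP] at h1
    have h2 := hfix ρ (RingEquiv.refl ℂ) ((hA ρ).1 h1) x hxF
    have h4 : r x = ρ x := (congrArg (fun f : k →+* ℂ => f x) hρ).symm
    rw [h4]
    exact h2
  obtain ⟨σ, rfl⟩ := exists_aut_emb' (algebraMap k ℂ) p
  rw [hP]
  refine (hA σ).2 fun a ha => ?_
  have h1 : a ∈ F := IntermediateField.subset_adjoin ℚ A ha
  rw [hb, IntermediateField.mem_bot] at h1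
  obtain ⟨q, rfl⟩ := h1
  simp

/-- **Fields which satisfy the property `RealMoves`:** all the ideals agree. -/
theorem Ip_ext [Countable k] (hE : RealMoves k) (h : PM Z) (hd : Dich Z)
    (hZ : ∀ i j, Z i j ∈ k) (hne : ∃ N ∈ LZ Z, DZ Z * N = N ∧ N * DZ Z = -N ∧ N ≠ 0)
    (p : k →+* ℂ) : Ip Z hZ p = Ip Z hZ (rs k (cc.trans (RingEquiv.refl ℂ))) :=
  blocks_eq hE (Ip Z hZ) (fun τ p => (Ip_cj τ p).symm)
    (fun p => Ip_bar h hd hZ hne p) (fun _ hp => Ip_real h hd hZ hne hp) p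

/-- The Lie algebra is generated, as an ideal, by the elements of positive degree. -/
theorem fullZ_ext [Countable k] (hE : RealMoves k) (h : PM Z)
    (hZ : ∀ i j, Z i j ∈ k) {U : Submodule ℂ (Fin g ⊕ Fin g → ℂ)} (hU : IrS (LZ Z) U)
    (hF : ∀ X ∈ LZ Z, (∀ u ∈ U, X *ᵥ u = 0) → X = 0) (hs : SDu Z U) : FullZ Z := by
  obtain ⟨S, Si, e, k'⟩ := exists_co h hU
  have htr := two_le_tr h hU hs
  have hne : ∃ N ∈ LZ Z, DZ Z * N = N ∧ N * DZ Z = -N ∧ N ≠ 0 := by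
    obtain ⟨x, hx, hx0⟩ := Submodule.exists_mem_ne_zero_of_ne_bot
      (pos_ne_bot k'.H (by omega) (by omega))
    obtain ⟨N, hN, h1, h2, rfl⟩ := k'.of_pos hx
    exact ⟨N, hN, h1, h2, fun h0 => hx0 (by rw [h0, map_zero])⟩
  have hd : Dich Z := fun J hJ => k'.dichZ hF hJ
  intro J hJ hp
  have h0 : ∀ N, N ∈ Np Z hZ (rs k (cc.trans (RingEquiv.refl ℂ))) ↔
      N ∈ LZ Z ∧ DZ Z * N = N ∧ N * DZ Z = -N := by
    intro N
    rw [mem_Np_pos h, DS_refl]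
  have h1 : Ip Z hZ (rs k (cc.trans (RingEquiv.refl ℂ))) ≤ J := Ip_le hJ fun N hN => by
    obtain ⟨h2, h3, h4⟩ := (h0 N).1 hN
    exact hp N h2 h3 h4
  have h2 : DZ Z ∈ Ip Z hZ (rs k (cc.trans (RingEquiv.refl ℂ))) :=
    k'.D_memZ hF hU hs Ip_id fun N hN h3 h4 => Np_le ((h0 N).2 ⟨hN, h3, h4⟩)
  refine LZ_le (fun σ => h1 ?_) fun X hX Y hY => hJ.br X (hJ.le hX) Y hY
  have h3 : DS Z σ ∈ cjM σ (Ip Z hZ (rs k (cc.trans (RingEquiv.refl ℂ)))) := mem_cjM' h2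
  rwa [Ip_cj, Ip_ext hE h hd hZ hne] at h3

end

end Pool.Agent.N994.PG
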