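import Mathlib

/-!
# Jordan algebras of real symmetric matrices: minimal idempotents
-/

set_option linter.unusedSectionVars false

namespace Pool.Agent.N994.PG

open Matrix Module

noncomputable section

variable {A : Type*} [Fintype A] [DecidableEq A]

/-- Jordan algebras of real symmetric matrices with trivial commutant. -/
structure JA (J : Submodule ℝ (Matrix A A ℝ)) : Prop where
  sym : ∀ x ∈ J, xᵀ = x
  sq : ∀ x ∈ J, x * x ∈ J
  comm : ∀ T : Matrix A A ℝ, (∀ x ∈ J, T * x = x * T) → ∃ c : ℝ, T = c • (1 : Matrix A A ℝ)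

theorem eqR {X Y : Matrix A A ℝ} (h : ∀ v, X *ᵥ v = Y *ᵥ v) : X = Y :=
  Matrix.toLin'.injective (LinearMap.ext fun v => by rw [toLin'_apply, toLin'_apply, h])

/-- Eigenvectors of symmetric matrices. -/
theorem exists_eigR {x : Matrix A A ℝ} (hx : xᵀ = x) (hx0 : x ≠ 0) :
    ∃ (c : ℝ) (v : A → ℝ), c ≠ 0 ∧ v ≠ 0 ∧ x *ᵥ v = c • v := by
  have hH : x.IsHermitian := by
    rw [IsHermitian, conjTranspose_eq_transpose_of_trivial, hx]
  have h1 : hH.eigenvalues ≠ 0 := fun h => hx0 (hH.eigenvalues_eq_zero_iff.1 h)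
  obtain ⟨j, hj⟩ := Function.ne_iff.1 h1
  refine ⟨hH.eigenvalues j, hH.eigenvectorBasis j, hj, fun h => ?_, hH.mulVec_eigenvectorBasis j⟩
  have h2 := hH.eigenvectorBasis.orthonormal.ne_zero j
  apply h2
  ext i
  exact congrFun h i

/-- Strict decrease of the rank. -/
theorem rank_ltR {x y z : Matrix A A ℝ} (hy : y = z * x) {v : A → ℝ} (hv : y *ᵥ v = 0)
    (hv' : x *ᵥ v ≠ 0) : y.rank < x.rank := by
  have h1 := LinearMap.finrank_range_add_finrank_ker x.mulVecLin
  have h2 := LinearMap.finrank_range_add_finrank_ker y.mulVecLin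
  have h3 : LinearMap.ker x.mulVecLin < LinearMap.ker y.mulVecLin := by
    refine lt_of_le_of_ne (fun w hw => ?_) fun h => ?_
    · rw [LinearMap.mem_ker, mulVecLin_apply] at hw ⊢
      rw [hy, ← mulVec_mulVec, hw, mulVec_zero]
    · have h4 : v ∈ LinearMap.ker y.mulVecLin := by
        rw [LinearMap.mem_ker, mulVecLin_apply, hv]
      rw [← h, LinearMap.mem_ker, mulVecLin_apply] at h4
      exact hv' h4
  have h4 := Submodule.finrank_lt_finrank_of_lt h3
  rw [Matrix.rank, Matrix.rank]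
  omega

theorem trace_self (b : Matrix A A ℝ) : trace (b * bᵀ) = ∑ i, ∑ j, b i j ^ 2 := by
  rw [trace]
  refine Finset.sum_congr rfl fun i _ => ?_
  rw [diag_apply, mul_apply]
  refine Finset.sum_congr rfl fun j _ => ?_
  rw [transpose_apply, sq]

theorem trace_nonneg' (b : Matrix A A ℝ) : 0 ≤ trace (b * bᵀ) := by
  rw [trace_self]
  exact Finset.sum_nonneg fun i _ => Finset.sum_nonneg fun j _ => sq_nonneg _

theorem mul_self_zero {b : Matrix A A ℝ} (h : b * bᵀ = 0) : b = 0 := by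
  have h1 := trace_self b
  rw [h, trace_zero] at h1
  have h2 := (Finset.sum_eq_zero_iff_of_nonneg fun i _ =>
    Finset.sum_nonneg fun j _ => sq_nonneg _).1 h1.symm
  ext i j
  have h3 := (Finset.sum_eq_zero_iff_of_nonneg fun j _ => sq_nonneg _).1 (h2 i (Finset.mem_univ _))
    j (Finset.mem_univ _)
  exact pow_eq_zero_iff (two_ne_zero) |>.1 h3

/-- Real orthogonal projections. -/
theorem exists_projR (W : Submodule ℝ (A → ℝ)) : ∃ E : Matrix A A ℝ, (∀ v, E *ᵥ v ∈ W) ∧
    (∀ v ∈ W, E *ᵥ v = v) ∧ Eᵀ = E := by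
  let L : (A → ℝ) ≃ₗ[ℝ] EuclideanSpace ℝ A := (WithLp.linearEquiv 2 ℝ (A → ℝ)).symm
  let W' : Submodule ℝ (EuclideanSpace ℝ A) := W.map L.toLinearMap
  let f : (A → ℝ) →ₗ[ℝ] (A → ℝ) :=
    L.symm.toLinearMap ∘ₗ (W'.starProjection : EuclideanSpace ℝ A →ₗ[ℝ] EuclideanSpace ℝ A) ∘ₗ
      L.toLinearMap
  have hf : ∀ v, LinearMap.toMatrix' f *ᵥ v = f v := fun v => LinearMap.toMatrix'_mulVec _ _
  have hin : ∀ v w : EuclideanSpace ℝ A, inner ℝ v w = ∑ i, v i * w i := by
    intro v w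
    rw [PiLp.inner_apply]
    refine Finset.sum_congr rfl fun i _ => ?_
    rw [RCLike.inner_apply]
    simp [mul_comm]
  refine ⟨LinearMap.toMatrix' f, fun v => ?_, fun v hv => ?_, ?_⟩
  · rw [hf]
    obtain ⟨w, hw, hw'⟩ : W'.starProjection (L v) ∈ W' := W'.starProjection_apply_mem _
    have h1 : f v = w := by
      change L.symm (W'.starProjection (L v)) = w
      rw [← hw']
      exact L.symm_apply_apply w
    rw [h1]
    exact hw
  · rw [hf]
    have h1 : L v ∈ W' := ⟨v, hv, rfl⟩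
    change L.symm (W'.starProjection (L v)) = v
    rw [Submodule.starProjection_eq_self_iff.2 h1]
    exact L.symm_apply_apply v
  · ext i j
    have h1 : ∀ i j, LinearMap.toMatrix' f i j =
        inner ℝ (L (Pi.single i 1)) (W'.starProjection (L (Pi.single j 1))) := by
      intro i j
      rw [hin, LinearMap.toMatrix'_apply]
      rw [Finset.sum_eq_single i]
      · have h2 : (L (Pi.single i 1) : EuclideanSpace ℝ A) i = 1 := by
          change (Pi.single i (1 : ℝ) : A → ℝ) i = 1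
          rw [Pi.single_eq_same]
        rw [h2, one_mul]
        rfl
      · intro b _ hb
        have h2 : (L (Pi.single i 1) : EuclideanSpace ℝ A) b = 0 := by
          change (Pi.single i (1 : ℝ) : A → ℝ) b = 0
          rw [Pi.single_eq_of_ne hb]
        rw [h2, zero_mul]
      · intro h
        exact absurd (Finset.mem_univ _) h
    rw [transpose_apply, h1, h1, real_inner_comm]
    exact (W'.inner_starProjection_left_eq_right _ _)

namespace JA

variable {J : Submodule ℝ (Matrix A A ℝ)} (h : JA J)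
include h

theorem anti {x y : Matrix A A ℝ} (hx : x ∈ J) (hy : y ∈ J) : x * y + y * x ∈ J := by
  have h1 := h.sq _ (J.add_mem hx hy)
  have h2 := J.sub_mem (J.sub_mem h1 (h.sq _ hx)) (h.sq _ hy)
  have h3 : (x + y) * (x + y) - x * x - y * y = x * y + y * x := by noncomm_ring
  rwa [h3] at h2

theorem pxp {p x : Matrix A A ℝ} (hp : p ∈ J) (hpp : p * p = p) (hx : x ∈ J) :
    p * x * p ∈ J := by
  have h1 := h.anti hp (h.anti hp hx)
  have h2 := J.sub_mem h1 (h.anti hp hx)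
  have h3 : p * (p * x + x * p) + (p * x + x * p) * p - (p * x + x * p) =
      (2 : ℝ) • (p * x * p) := by
    have e1 : p * (p * x + x * p) = p * x + p * x * p := by
      rw [mul_add, ← mul_assoc, hpp, ← mul_assoc]
    have e2 : (p * x + x * p) * p = p * x * p + x * p := by
      rw [add_mul, mul_assoc x p p, hpp]
    rw [e1, e2, two_smul]
    abel
  rw [h3] at h2
  have h4 := J.smul_mem (2 : ℝ)⁻¹ h2
  rwa [smul_smul, inv_mul_cancel₀ (two_ne_zero), one_smul] at h4

/-- Subspaces which are stable under the Jordan algebra. -/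
theorem irr (W : Submodule ℝ (A → ℝ)) (hW : ∀ x ∈ J, ∀ w ∈ W, x *ᵥ w ∈ W) : W = ⊥ ∨ W = ⊤ := by
  obtain ⟨E, h1, h2, h3⟩ := exists_projR W
  obtain ⟨c, hc⟩ := h.comm E fun x hx => by
    have e1 : E * x * E = x * E := eqR fun v => by
      rw [← mulVec_mulVec, ← mulVec_mulVec, ← mulVec_mulVec]
      exact h2 _ (hW x hx _ (h1 v))
    have e2 := congrArg transpose e1
    rw [transpose_mul, transpose_mul, transpose_mul, h3, h.sym x hx, ← mul_assoc] at e2
    rw [← e2, e1]
  by_cases hc0 : c = 0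
  · left
    rw [Submodule.eq_bot_iff]
    intro w hw
    rw [← h2 w hw, hc, hc0, zero_smul, zero_mulVec]
  · right
    rw [Submodule.eq_top_iff']
    intro v
    have h4 := h1 (c⁻¹ • v)
    rw [hc, smul_mulVec, one_mulVec, smul_smul, mul_inv_cancel₀ hc0, one_smul] at h4
    exact h4

/-- Minimal idempotents. -/
theorem exists_min (hJ : J ≠ ⊥) : ∃ p ∈ J, p * p = p ∧ p ≠ 0 ∧
    ∀ x ∈ J, x ≠ 0 → p.rank ≤ x.rank := by
  classical
  obtain ⟨x₀, hx₀, hx0⟩ := Submodule.exists_mem_ne_zero_of_ne_bot hJ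
  have hex : ∃ n, ∃ x ∈ J, x ≠ 0 ∧ x.rank = n := ⟨_, x₀, hx₀, hx0, rfl⟩
  obtain ⟨x, hx, hxn, hxr⟩ := Nat.find_spec hex
  have hmin : ∀ y ∈ J, y ≠ 0 → x.rank ≤ y.rank := by
    intro y hy hy0
    rw [hxr]
    exact Nat.find_min' hex ⟨y, hy, hy0, rfl⟩
  obtain ⟨c, v, hc, hv, hxv⟩ := exists_eigR (h.sym x hx) hxn
  have h1 : x * x - c • x ∈ J := J.sub_mem (h.sq x hx) (J.smul_mem c hx)
  have h2 : x * x - c • x = 0 := by
    by_contra h3
    have h4 := hmin _ h1 h3
    have h5 := rank_ltR (x := x) (y := x * x - c • x) (z := x - c • 1) (v := v) (by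
      rw [sub_mul, Matrix.smul_mul, one_mul]) (by
      rw [sub_mulVec, ← mulVec_mulVec, hxv, mulVec_smul, hxv, smul_mulVec, hxv, sub_self]) (by
      rw [hxv]
      exact smul_ne_zero hc hv)
    omega
  have h3 : x * x = c • x := sub_eq_zero.1 h2
  refine ⟨c⁻¹ • x, J.smul_mem _ hx, ?_, smul_ne_zero (inv_ne_zero hc) hxn, fun y hy hy0 => ?_⟩
  · rw [Matrix.smul_mul, Matrix.mul_smul, h3, smul_smul, smul_smul]
    congr 1
    field_simp
  · refine le_trans ?_ (hmin y hy hy0)
    have h4 : c⁻¹ • x = x * (c⁻¹ • (1 : Matrix A A ℝ)) := by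
      rw [Matrix.mul_smul, mul_one]
    rw [h4]
    exact Matrix.rank_mul_le_left _ _

end JA

/-- Minimal idempotents. -/
structure Mi (J : Submodule ℝ (Matrix A A ℝ)) (p : Matrix A A ℝ) : Prop where
  mem : p ∈ J
  sym : pᵀ = p
  idem : p * p = p
  ne : p ≠ 0
  min : ∀ x ∈ J, x ≠ 0 → p.rank ≤ x.rank

namespace Mi

variable {J : Submodule ℝ (Matrix A A ℝ)} {p : Matrix A A ℝ} (k : Mi J p) (h : JA J)
include k

theorem trace_pos : 0 < trace p := by
  have h1 : p * pᵀ = p := by rw [k.sym, k.idem]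
  have h2 := trace_nonneg' p
  rw [h1] at h2
  refine lt_of_le_of_ne h2 fun h3 => k.ne (mul_self_zero ?_)
  by_contra h4
  rw [h1] at h4
  have h5 := trace_self p
  rw [h1, ← h3] at h5
  have h6 := (Finset.sum_eq_zero_iff_of_nonneg fun i _ =>
    Finset.sum_nonneg fun j _ => sq_nonneg _).1 h5.symm
  apply h4
  ext i j
  have h7 := (Finset.sum_eq_zero_iff_of_nonneg fun j _ => sq_nonneg _).1 (h6 i (Finset.mem_univ _))
    j (Finset.mem_univ _)
  exact pow_eq_zero_iff (two_ne_zero) |>.1 h7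

include h in
theorem scal {x : Matrix A A ℝ} (hx : x ∈ J) : ∃ c : ℝ, p * x * p = c • p := by
  obtain ⟨y, hy⟩ : ∃ y, y = p * x * p := ⟨_, rfl⟩
  have hyJ : y ∈ J := by rw [hy]; exact h.pxp k.mem k.idem hx
  have hpy : p * y = y := by rw [hy, ← mul_assoc, ← mul_assoc, k.idem]
  have hyp : y * p = y := by rw [hy, mul_assoc _ p p, k.idem]
  rw [← hy]
  by_cases h0 : y = 0
  · exact ⟨0, by rw [h0, zero_smul]⟩
  obtain ⟨c, v, hc, hv, hyv⟩ := exists_eigR (h.sym y hyJ) h0
  have hpv : p *ᵥ v = v := by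
    have h1 : v = c⁻¹ • (y *ᵥ v) := by rw [hyv, smul_smul, inv_mul_cancel₀ hc, one_smul]
    rw [h1, mulVec_smul, mulVec_mulVec, hpy]
  refine ⟨c, ?_⟩
  by_contra h1
  have h2 : y - c • p ≠ 0 := fun h3 => h1 (sub_eq_zero.1 h3)
  have h3 := k.min _ (J.sub_mem hyJ (J.smul_mem c k.mem)) h2
  have h4 := rank_ltR (x := p) (y := y - c • p) (z := y - c • p) (v := v) (by
    rw [sub_mul, hyp, Matrix.smul_mul, k.idem]) (by
    rw [sub_mulVec, hyv, smul_mulVec, hpv, sub_self]) (by rwa [hpv])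
  omega

/-- The norm of a nonzero element is positive. -/
theorem pos_of {b : Matrix A A ℝ} {c : ℝ} (hb : b * bᵀ = c • p) (hb0 : b ≠ 0) : 0 < c := by
  have h1 := trace_nonneg' b
  rw [hb, trace_smul, smul_eq_mul] at h1
  have h2 := k.trace_pos
  have h3 : c ≠ 0 := by
    rintro rfl
    rw [zero_smul] at hb
    exact hb0 (mul_self_zero hb)
  by_contra h4
  have h5 : c < 0 := lt_of_le_of_ne (not_lt.1 h4) h3
  have h6 := mul_neg_of_neg_of_pos h5 h2
  linarith

end Mi

end

end Pool.Agent.N994.PG
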