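import Mathlib
import Pool.Agent.N994.PG.JA

/-!
# Jordan algebras of real symmetric matrices: rank at least three
-/

set_option linter.unusedSectionVars false

namespace Pool.Agent.N994.PG

open Matrix Module

noncomputable section

variable {A : Type*} [Fintype A] [DecidableEq A]

/-- Off-diagonal elements. -/
def Sm (J : Submodule ℝ (Matrix A A ℝ)) (e f : Matrix A A ℝ) : Submodule ℝ (Matrix A A ℝ) where
  carrier := {b | e * b = b ∧ b * f = b ∧ b + bᵀ ∈ J}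
  zero_mem' := ⟨mul_zero _, zero_mul _, by rw [transpose_zero, add_zero]; exact J.zero_mem⟩
  add_mem' := fun {b c} hb hc => ⟨by rw [mul_add, hb.1, hc.1], by rw [add_mul, hb.2.1, hc.2.1], by
    have h1 := J.add_mem hb.2.2 hc.2.2
    have h2 : b + c + (b + c)ᵀ = b + bᵀ + (c + cᵀ) := by
      rw [transpose_add]
      abel
    rwa [h2]⟩
  smul_mem' := fun c b hb => ⟨by rw [Matrix.mul_smul, hb.1], by rw [Matrix.smul_mul, hb.2.1], by
    rw [transpose_smul, ← smul_add]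
    exact J.smul_mem c hb.2.2⟩

theorem mem_Sm {J : Submodule ℝ (Matrix A A ℝ)} {e f b : Matrix A A ℝ} :
    b ∈ Sm J e f ↔ e * b = b ∧ b * f = b ∧ b + bᵀ ∈ J := Iff.rfl

/-- Orthogonal symmetric idempotents. -/
structure Og (e f : Matrix A A ℝ) : Prop where
  l : e * f = 0
  r : f * e = 0

theorem Og.symm {e f : Matrix A A ℝ} (h : Og e f) : Og f e := ⟨h.r, h.l⟩

theorem Sm.tr {J : Submodule ℝ (Matrix A A ℝ)} {e f b : Matrix A A ℝ} (he : eᵀ = e) (hf : fᵀ = f)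
    (hb : b ∈ Sm J e f) : bᵀ ∈ Sm J f e := by
  obtain ⟨h1, h2, h3⟩ := mem_Sm.1 hb
  refine mem_Sm.2 ⟨?_, ?_, ?_⟩
  · have h4 := congrArg transpose h2
    rwa [transpose_mul, hf] at h4
  · have h4 := congrArg transpose h1
    rwa [transpose_mul, he] at h4
  · rw [transpose_transpose, add_comm]
    exact h3

section rules

variable {J : Submodule ℝ (Matrix A A ℝ)} (h : JA J) {e f k : Matrix A A ℝ}
  (he : eᵀ = e) (hf : fᵀ = f) (hk : kᵀ = k)
include h he hf hk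

theorem Sm.mul (hef : Og e f) (hfk : Og f k) (hek : Og e k) {b c : Matrix A A ℝ}
    (hb : b ∈ Sm J e f) (hc : c ∈ Sm J f k) : b * c ∈ Sm J e k := by
  obtain ⟨b1, b2, b3⟩ := mem_Sm.1 hb
  obtain ⟨c1, c2, c3⟩ := mem_Sm.1 hc
  obtain ⟨b4, b5, -⟩ := mem_Sm.1 (Sm.tr he hf hb)
  obtain ⟨c4, c5, -⟩ := mem_Sm.1 (Sm.tr hf hk hc)
  refine mem_Sm.2 ⟨by rw [← mul_assoc, b1], by rw [mul_assoc, c2], ?_⟩
  have h1 := h.anti b3 c3
  have z1 : b * cᵀ = 0 := by rw [← b2, ← c4, mul_assoc, ← mul_assoc f, hfk.l, zero_mul, mul_zero]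
  have z2 : bᵀ * c = 0 := by rw [← b5, ← c1, mul_assoc, ← mul_assoc e, hef.l, zero_mul, mul_zero]
  have z3 : bᵀ * cᵀ = 0 := by rw [← b5, ← c4, mul_assoc, ← mul_assoc e, hek.l, zero_mul, mul_zero]
  have z4 : c * b = 0 := by rw [← c2, ← b1, mul_assoc, ← mul_assoc k, hek.r, zero_mul, mul_zero]
  have z5 : c * bᵀ = 0 := by rw [← c2, ← b4, mul_assoc, ← mul_assoc k, hfk.r, zero_mul, mul_zero]
  have z6 : cᵀ * b = 0 := by rw [← c5, ← b1, mul_assoc, ← mul_assoc f, hef.r, zero_mul, mul_zero]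
  have h2 : (b + bᵀ) * (c + cᵀ) + (c + cᵀ) * (b + bᵀ) = b * c + (b * c)ᵀ := by
    rw [transpose_mul]
    simp only [add_mul, mul_add, z1, z2, z3, z4, z5, z6]
    abel
  rwa [h2] at h1

theorem Sm.mul0 (hef : Og e f) {b z : Matrix A A ℝ}
    (hb : b ∈ Sm J e f) (hz : z ∈ J) (hz1 : f * z = z) (hz2 : z * f = z) : b * z ∈ Sm J e f := by
  obtain ⟨b1, b2, b3⟩ := mem_Sm.1 hb
  obtain ⟨b4, b5, -⟩ := mem_Sm.1 (Sm.tr he hf hb)
  refine mem_Sm.2 ⟨by rw [← mul_assoc, b1], by rw [mul_assoc, hz2], ?_⟩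
  have h1 := h.anti b3 hz
  have z1 : bᵀ * z = 0 := by rw [← b5, ← hz1, mul_assoc, ← mul_assoc e, hef.l, zero_mul, mul_zero]
  have z2 : z * b = 0 := by rw [← hz2, ← b1, mul_assoc, ← mul_assoc f, hef.r, zero_mul, mul_zero]
  have h2 : (b + bᵀ) * z + z * (b + bᵀ) = b * z + (b * z)ᵀ := by
    rw [transpose_mul, h.sym z hz]
    simp only [add_mul, mul_add, z1, z2]
    abel
  rwa [h2] at h1

end rules

/-- The norm. -/
theorem Mi.nrm {J : Submodule ℝ (Matrix A A ℝ)} {p f b : Matrix A A ℝ} (h : JA J) (k : Mi J p)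
    (hf : fᵀ = f) (hpf : Og p f) (hb : b ∈ Sm J p f) : ∃ c : ℝ, b * bᵀ = c • p := by
  obtain ⟨b1, b2, b3⟩ := mem_Sm.1 hb
  obtain ⟨b4, b5, -⟩ := mem_Sm.1 (Sm.tr k.sym hf hb)
  obtain ⟨c, hc⟩ := k.scal h (h.sq _ b3)
  refine ⟨c, ?_⟩
  rw [← hc]
  have z1 : b * b = 0 := by
    nth_rewrite 1 [← b2]
    rw [← b1, mul_assoc, ← mul_assoc f, hpf.r, zero_mul, mul_zero]
  have z2 : bᵀ * bᵀ = 0 := by rw [← transpose_mul, z1, transpose_zero]
  have z3 : p * (bᵀ * b) = 0 := by rw [← b4, ← mul_assoc, ← mul_assoc, hpf.l, zero_mul, zero_mul]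
  have h2 : (b + bᵀ) * (b + bᵀ) = b * bᵀ + bᵀ * b := by
    simp only [add_mul, mul_add, z1, z2]
    abel
  rw [h2, mul_add, add_mul, z3, zero_mul, add_zero, ← mul_assoc, b1, mul_assoc, b5]

/-- The Peirce components. -/
theorem peirce {J : Submodule ℝ (Matrix A A ℝ)} {p f q x : Matrix A A ℝ} (ja : JA J) (kp : Mi J p)
    (kf : Mi J f) (qs : qᵀ = q) (qq : q * q = q) (pf : Og p f) (one : p + f + q = 1) (hx : x ∈ J) :
    p * x * f ∈ Sm J p f ∧ p * x * q ∈ Sm J p q ∧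
    f * x * q ∈ Sm J f q ∧ q * x * q ∈ J := by
  have hxs := ja.sym x hx
  have hef : p + f ∈ J := J.add_mem kp.mem kf.mem
  have hee : (p + f) * (p + f) = p + f := by
    rw [add_mul, mul_add, mul_add, kp.idem, kf.idem, pf.l, pf.r, add_zero, zero_add]
  have h1 := ja.pxp hef hee hx
  have hp := ja.pxp kp.mem kp.idem hx
  have hf := ja.pxp kf.mem kf.idem hx
  have h2 : p * x * f + f * x * p ∈ J := by
    have h3 := J.sub_mem (J.sub_mem h1 hp) hf
    have h4 : (p + f) * x * (p + f) - p * x * p - f * x * f = p * x * f + f * x * p := by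
      noncomm_ring
    rwa [h4] at h3
  have h5 : p * x * q + q * x * p ∈ J := by
    have h3 := J.sub_mem (J.sub_mem (ja.anti kp.mem hx) (J.smul_mem (2 : ℝ) hp)) h2
    have h4 : p * x + x * p - (2 : ℝ) • (p * x * p) - (p * x * f + f * x * p) =
        p * x * q + q * x * p := by
      have e1 : p * x = p * x * p + p * x * f + p * x * q := by
        rw [← mul_add, ← mul_add, one, mul_one]
      have e2 : x * p = p * x * p + f * x * p + q * x * p := by
        rw [← add_mul, ← add_mul, ← add_mul, ← add_mul, one, one_mul]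
      rw [two_smul]
      nth_rewrite 1 [e1]
      nth_rewrite 1 [e2]
      abel
    rwa [h4] at h3
  have h6 : f * x * q + q * x * f ∈ J := by
    have h3 := J.sub_mem (J.sub_mem (ja.anti kf.mem hx) (J.smul_mem (2 : ℝ) hf)) h2
    have h4 : f * x + x * f - (2 : ℝ) • (f * x * f) - (p * x * f + f * x * p) =
        f * x * q + q * x * f := by
      have e1 : f * x = f * x * p + f * x * f + f * x * q := by
        rw [← mul_add, ← mul_add, one, mul_one]
      have e2 : x * f = p * x * f + f * x * f + q * x * f := by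
        rw [← add_mul, ← add_mul, ← add_mul, ← add_mul, one, one_mul]
      rw [two_smul]
      nth_rewrite 1 [e1]
      nth_rewrite 1 [e2]
      abel
    rwa [h4] at h3
  have h7 : q * x * q ∈ J := by
    have h3 := J.add_mem (J.sub_mem hx (ja.anti hef hx)) h1
    have h4 : x - ((p + f) * x + x * (p + f)) + (p + f) * x * (p + f) = q * x * q := by
      have e1 : q = 1 - (p + f) := by rw [← one]; abel
      rw [e1]
      noncomm_ring
    rwa [h4] at h3
  refine ⟨mem_Sm.2 ⟨?_, ?_, ?_⟩, mem_Sm.2 ⟨?_, ?_, ?_⟩, mem_Sm.2 ⟨?_, ?_, ?_⟩, h7⟩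
  · rw [← mul_assoc, ← mul_assoc, kp.idem]
  · rw [mul_assoc _ f f, kf.idem]
  · rw [transpose_mul, transpose_mul, hxs, kp.sym, kf.sym, ← mul_assoc]
    exact h2
  · rw [← mul_assoc, ← mul_assoc, kp.idem]
  · rw [mul_assoc _ q q, qq]
  · rw [transpose_mul, transpose_mul, hxs, kp.sym, qs, ← mul_assoc]
    exact h5
  · rw [← mul_assoc, ← mul_assoc, kf.idem]
  · rw [mul_assoc _ q q, qq]
  · rw [transpose_mul, transpose_mul, hxs, kf.sym, qs, ← mul_assoc]
    exact h6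

/-- Three orthogonal idempotents, the first two of them minimal and connected, the second one
connected with the third one. -/
structure Tr3 (J : Submodule ℝ (Matrix A A ℝ)) (p f q y w : Matrix A A ℝ) : Prop where
  ja : JA J
  kp : Mi J p
  kf : Mi J f
  qs : qᵀ = q
  qq : q * q = q
  pf : Og p f
  pq : Og p q
  fq : Og f q
  one : p + f + q = 1
  hy : y ∈ Sm J p f
  hw : w ∈ Sm J f q
  yy : y * yᵀ = p
  ww : w * wᵀ = f

namespace Tr3

variable {J : Submodule ℝ (Matrix A A ℝ)} {p f q y w : Matrix A A ℝ} (k : Tr3 J p f q y w)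
include k

/-- The triple product. -/
theorem tri {b c d : Matrix A A ℝ} (hb : b ∈ Sm J p f) (hc : c ∈ Sm J p f) (hd : d ∈ Sm J p f) :
    b * (cᵀ * d) ∈ Sm J p f := by
  have h1 : d * w ∈ Sm J p q := Sm.mul k.ja k.kp.sym k.kf.sym k.qs k.pf k.fq k.pq hd k.hw
  have h2 : cᵀ ∈ Sm J f p := Sm.tr k.kp.sym k.kf.sym hc
  have h3 : cᵀ * (d * w) ∈ Sm J f q :=
    Sm.mul k.ja k.kf.sym k.kp.sym k.qs k.pf.symm k.pq k.fq h2 h1
  have h4 : b * (cᵀ * (d * w)) ∈ Sm J p q :=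
    Sm.mul k.ja k.kp.sym k.kf.sym k.qs k.pf k.fq k.pq hb h3
  have h5 : wᵀ ∈ Sm J q f := Sm.tr k.kf.sym k.qs k.hw
  have h6 := Sm.mul k.ja k.kp.sym k.qs k.kf.sym k.pq k.fq.symm k.pf h4 h5
  have h7 : b * (cᵀ * (d * w)) * wᵀ = b * (cᵀ * d) := by
    have h8 : b * (cᵀ * (d * w)) * wᵀ = b * (cᵀ * (d * (w * wᵀ))) := by noncomm_ring
    rw [h8, k.ww, (mem_Sm.1 hd).2.1]
  rwa [h7] at h6

theorem tri' {b c d : Matrix A A ℝ} (hb : b ∈ Sm J p q) (hc : c ∈ Sm J p q) (hd : d ∈ Sm J p f) :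
    b * (cᵀ * d) ∈ Sm J p f := by
  have h2 : cᵀ ∈ Sm J q p := Sm.tr k.kp.sym k.qs hc
  have h3 : cᵀ * d ∈ Sm J q f :=
    Sm.mul k.ja k.qs k.kp.sym k.kf.sym k.pq.symm k.pf k.fq.symm h2 hd
  exact Sm.mul k.ja k.kp.sym k.qs k.kf.sym k.pq k.fq.symm k.pf hb h3

/-- The Peirce components. -/
theorem comp {x : Matrix A A ℝ} (hx : x ∈ J) : p * x * f ∈ Sm J p f ∧ p * x * q ∈ Sm J p q ∧
    f * x * q ∈ Sm J f q ∧ q * x * q ∈ J :=
  peirce k.ja k.kp k.kf k.qs k.qq k.pf k.one hx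

/-- The module. -/
def MM (_ : Tr3 J p f q y w) : Submodule ℝ (Matrix A A ℝ) where
  carrier := {M | p * M = M ∧ M * p * y ∈ Sm J p f ∧ M * f ∈ Sm J p f ∧ M * q ∈ Sm J p q}
  zero_mem' := by
    refine ⟨mul_zero _, ?_, ?_, ?_⟩ <;>
      simp only [zero_mul] <;> exact Submodule.zero_mem _
  add_mem' := fun {M N} hM hN => ⟨by rw [mul_add, hM.1, hN.1],
    by rw [add_mul, add_mul]; exact Submodule.add_mem _ hM.2.1 hN.2.1,
    by rw [add_mul]; exact Submodule.add_mem _ hM.2.2.1 hN.2.2.1,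
    by rw [add_mul]; exact Submodule.add_mem _ hM.2.2.2 hN.2.2.2⟩
  smul_mem' := fun c M hM => ⟨by rw [Matrix.mul_smul, hM.1],
    by rw [Matrix.smul_mul, Matrix.smul_mul]; exact Submodule.smul_mem _ _ hM.2.1,
    by rw [Matrix.smul_mul]; exact Submodule.smul_mem _ _ hM.2.2.1,
    by rw [Matrix.smul_mul]; exact Submodule.smul_mem _ _ hM.2.2.2⟩

theorem mem_MM {M : Matrix A A ℝ} : M ∈ k.MM ↔ p * M = M ∧ M * p * y ∈ Sm J p f ∧
    M * f ∈ Sm J p f ∧ M * q ∈ Sm J p q := Iff.rfl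

theorem p_mem : p ∈ k.MM := by
  refine k.mem_MM.2 ⟨k.kp.idem, ?_, ?_, ?_⟩
  · rw [k.kp.idem, (mem_Sm.1 k.hy).1]
    exact k.hy
  · rw [k.pf.l]
    exact Submodule.zero_mem _
  · rw [k.pq.l]
    exact Submodule.zero_mem _

/-- Elements `M p` written as a product. -/
theorem Mp {M : Matrix A A ℝ} : M * p = (M * p * y) * yᵀ := by
  rw [mul_assoc (M * p), k.yy, mul_assoc, k.kp.idem]

theorem Mf_y {M c : Matrix A A ℝ} : (M * p) * c = (M * p * y) * (yᵀ * c) := by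
  nth_rewrite 1 [k.Mp]
  rw [mul_assoc]

theorem stab_right {M x : Matrix A A ℝ} (hM : M ∈ k.MM) (hx : x ∈ J) : M * x ∈ k.MM := by
  obtain ⟨m1, m2, m3, m4⟩ := k.mem_MM.1 hM
  obtain ⟨x1, x2, x3, x4⟩ := k.comp hx
  obtain ⟨c, hc⟩ := k.kp.scal k.ja hx
  obtain ⟨d, hd⟩ := k.kf.scal k.ja hx
  have hxs := k.ja.sym x hx
  have t1 : (p * x * f)ᵀ = f * x * p := by
    rw [transpose_mul, transpose_mul, hxs, k.kp.sym, k.kf.sym, ← mul_assoc]
  have t2 : (p * x * q)ᵀ = q * x * p := by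
    rw [transpose_mul, transpose_mul, hxs, k.kp.sym, k.qs, ← mul_assoc]
  have t3 : (f * x * q)ᵀ = q * x * f := by
    rw [transpose_mul, transpose_mul, hxs, k.kf.sym, k.qs, ← mul_assoc]
  have hsp : ∀ e : Matrix A A ℝ, M * x * e = M * p * (p * x * e) + M * f * (f * x * e) +
      M * q * (q * x * e) := by
    intro e
    have e1 : M * p * (p * x * e) = M * p * (x * e) := by
      rw [mul_assoc p x e, ← mul_assoc (M * p), mul_assoc M p p, k.kp.idem]
    have e2 : M * f * (f * x * e) = M * f * (x * e) := by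
      rw [mul_assoc f x e, ← mul_assoc (M * f), mul_assoc M f f, k.kf.idem]
    have e3 : M * q * (q * x * e) = M * q * (x * e) := by
      rw [mul_assoc q x e, ← mul_assoc (M * q), mul_assoc M q q, k.qq]
    rw [e1, e2, e3, ← add_mul, ← add_mul, ← mul_add, ← mul_add, k.one, mul_one, mul_assoc]
  refine k.mem_MM.2 ⟨by rw [← mul_assoc, m1], ?_, ?_, ?_⟩
  · rw [hsp p, hc, ← t1, ← t2, add_mul, add_mul]
    refine Submodule.add_mem _ (Submodule.add_mem _ ?_ ?_) ?_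
    · rw [Matrix.mul_smul, Matrix.smul_mul, mul_assoc M p p, k.kp.idem]
      exact Submodule.smul_mem _ _ m2
    · rw [mul_assoc]
      exact k.tri m3 x1 k.hy
    · rw [mul_assoc]
      exact k.tri' m4 x2 k.hy
  · rw [hsp f, hd, ← t3]
    refine Submodule.add_mem _ (Submodule.add_mem _ ?_ ?_) ?_
    · rw [k.Mf_y]
      exact k.tri m2 k.hy x1
    · rw [Matrix.mul_smul, mul_assoc M f f, k.kf.idem]
      exact Submodule.smul_mem _ _ m3
    · exact Sm.mul k.ja k.kp.sym k.qs k.kf.sym k.pq k.fq.symm k.pf m4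
        (Sm.tr k.kf.sym k.qs x3)
  · rw [hsp q]
    refine Submodule.add_mem _ (Submodule.add_mem _ ?_ ?_) ?_
    · have e1 : M * p * (p * x * q) = (M * p * y) * (yᵀ * (p * x * q)) := by
        nth_rewrite 1 [k.Mp]
        rw [mul_assoc]
      rw [e1]
      exact Sm.mul k.ja k.kp.sym k.kf.sym k.qs k.pf k.fq k.pq m2
        (Sm.mul k.ja k.kf.sym k.kp.sym k.qs k.pf.symm k.pq k.fq (Sm.tr k.kp.sym k.kf.sym k.hy) x2)
    · exact Sm.mul k.ja k.kp.sym k.kf.sym k.qs k.pf k.fq k.pq m3 x3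
    · exact Sm.mul0 k.ja k.kp.sym k.qs k.qs k.pq m4 x4 (by
        rw [← mul_assoc, ← mul_assoc, k.qq]) (by rw [mul_assoc _ q q, k.qq])

theorem stab_left {M N : Matrix A A ℝ} (hM : M ∈ k.MM) (hN : N ∈ k.MM) : M * p * N ∈ k.MM := by
  obtain ⟨m1, m2, m3, m4⟩ := k.mem_MM.1 hM
  obtain ⟨n1, n2, n3, n4⟩ := k.mem_MM.1 hN
  refine k.mem_MM.2 ⟨by rw [← mul_assoc, ← mul_assoc, m1], ?_, ?_, ?_⟩
  · have e1 : M * p * N * p * y = (M * p * y) * (yᵀ * (N * p * y)) := by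
      have e2 : M * p * N * p * y = (M * p) * (N * p * y) := by noncomm_ring
      rw [e2]
      nth_rewrite 1 [k.Mp]
      rw [mul_assoc]
    rw [e1]
    exact k.tri m2 k.hy n2
  · have e1 : M * p * N * f = (M * p * y) * (yᵀ * (N * f)) := by
      have e2 : M * p * N * f = (M * p) * (N * f) := by noncomm_ring
      rw [e2]
      nth_rewrite 1 [k.Mp]
      rw [mul_assoc]
    rw [e1]
    exact k.tri m2 k.hy n3
  · have e1 : M * p * N * q = (M * p * y) * (yᵀ * (N * q)) := by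
      have e2 : M * p * N * q = (M * p) * (N * q) := by noncomm_ring
      rw [e2]
      nth_rewrite 1 [k.Mp]
      rw [mul_assoc]
    rw [e1]
    exact Sm.mul k.ja k.kp.sym k.kf.sym k.qs k.pf k.fq k.pq m2
      (Sm.mul k.ja k.kf.sym k.kp.sym k.qs k.pf.symm k.pq k.fq (Sm.tr k.kp.sym k.kf.sym k.hy) n4)

end Tr3

/-- Elements with a norm which is a multiple of `p`. -/
theorem nrm_inj {p b : Matrix A A ℝ} {c : ℝ} (hb : b * bᵀ = c • p) {v : A → ℝ}
    (hpv : p *ᵥ v = v) (hv : v ≠ 0) (hbv : bᵀ *ᵥ v = 0) : b = 0 := by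
  have h1 : (b * bᵀ) *ᵥ v = 0 := by rw [← mulVec_mulVec, hbv, mulVec_zero]
  rw [hb, smul_mulVec, hpv] at h1
  rcases smul_eq_zero.1 h1 with h2 | h2
  · rw [h2, zero_smul] at hb
    exact mul_self_zero hb
  · exact absurd h2 hv

/-- **Rank at least three:** the minimal idempotents have rank one. -/
theorem Tr3.rank_one {J : Submodule ℝ (Matrix A A ℝ)} {p f q y w : Matrix A A ℝ}
    (k : Tr3 J p f q y w) : p.rank = 1 := by
  obtain ⟨v₀, hv₀⟩ : ∃ v₀, p *ᵥ v₀ ≠ 0 := by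
    by_contra hcon
    push Not at hcon
    exact k.kp.ne (eqR fun v => by rw [hcon v, zero_mulVec])
  obtain ⟨v, hv⟩ : ∃ v, v = p *ᵥ v₀ := ⟨_, rfl⟩
  have hv0 : v ≠ 0 := by rwa [hv]
  have hpv : p *ᵥ v = v := by rw [hv, mulVec_mulVec, k.kp.idem]
  -- the evaluation
  let Φ : k.MM →ₗ[ℝ] (A → ℝ) :=
    { toFun := fun M => (M : Matrix A A ℝ)ᵀ *ᵥ v
      map_add' := fun M N => by
        rw [Submodule.coe_add, transpose_add, add_mulVec]
      map_smul' := fun c M => by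
        rw [Submodule.coe_smul, transpose_smul, smul_mulVec, RingHom.id_apply] }
  have hΦ : ∀ M : k.MM, Φ M = (M : Matrix A A ℝ)ᵀ *ᵥ v := fun _ => rfl
  have hsurj : LinearMap.range Φ = ⊤ := by
    rcases k.ja.irr (LinearMap.range Φ) (by
      rintro x hx _ ⟨M, rfl⟩
      refine ⟨⟨_, k.stab_right M.2 hx⟩, ?_⟩
      rw [hΦ, hΦ, mulVec_mulVec, transpose_mul, k.ja.sym x hx]) with h1 | h1
    · exfalso
      have h2 : Φ ⟨p, k.p_mem⟩ ∈ LinearMap.range Φ := ⟨_, rfl⟩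
      rw [h1, Submodule.mem_bot, hΦ, k.kp.sym, hpv] at h2
      exact hv0 h2
    · exact h1
  have hinj : Function.Injective Φ := by
    rw [injective_iff_map_eq_zero]
    intro M hM
    rw [hΦ] at hM
    obtain ⟨m1, m2, m3, m4⟩ := k.mem_MM.1 M.2
    have h1 : ∀ e : Matrix A A ℝ, eᵀ = e → ((M : Matrix A A ℝ) * e)ᵀ *ᵥ v = 0 := by
      intro e he
      rw [transpose_mul, he, ← mulVec_mulVec, hM, mulVec_zero]
    obtain ⟨c1, hc1⟩ := k.kp.nrm k.ja k.kf.sym k.pf m2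
    obtain ⟨c2, hc2⟩ := k.kp.nrm k.ja k.kf.sym k.pf m3
    obtain ⟨c3, hc3⟩ := k.kp.nrm k.ja k.qs k.pq m4
    have e1 : (M : Matrix A A ℝ) * p = 0 := by
      refine nrm_inj (c := c1) ?_ hpv hv0 (h1 p k.kp.sym)
      obtain ⟨N, hN⟩ : ∃ N, N = (M : Matrix A A ℝ) * p := ⟨_, rfl⟩
      have hNp : N * p = N := by rw [hN, mul_assoc, k.kp.idem]
      rw [← hN] at hc1 ⊢
      rw [← hc1, transpose_mul, mul_assoc, ← mul_assoc y, k.yy, ← mul_assoc, hNp]
    have e2 : (M : Matrix A A ℝ) * f = 0 := nrm_inj hc2 hpv hv0 (h1 f k.kf.sym)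
    have e3 : (M : Matrix A A ℝ) * q = 0 := nrm_inj hc3 hpv hv0 (h1 q k.qs)
    apply Subtype.ext
    have e4 : (M : Matrix A A ℝ) = M * p + M * f + M * q := by
      rw [← mul_add, ← mul_add, k.one, mul_one]
    rw [e4, e1, e2, e3, add_zero, add_zero]
    rfl
  let Ψ : k.MM ≃ₗ[ℝ] (A → ℝ) :=
    LinearEquiv.ofBijective Φ ⟨hinj, LinearMap.range_eq_top.1 hsurj⟩
  have hΨ : ∀ M, Ψ M = Φ M := fun _ => rfl
  -- the eigenvector
  have key : ∀ M ∈ k.MM, ∃ c : ℝ, (M * p)ᵀ *ᵥ v = c • v := by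
    intro M hM
    let Lm : k.MM →ₗ[ℝ] k.MM :=
      { toFun := fun N => ⟨M * p * N, k.stab_left hM N.2⟩
        map_add' := fun N N' => Subtype.ext (by
          change M * p * ((N + N' : k.MM) : Matrix A A ℝ) = M * p * N + M * p * N'
          rw [Submodule.coe_add, mul_add])
        map_smul' := fun c N => Subtype.ext (by
          change M * p * ((c • N : k.MM) : Matrix A A ℝ) = c • (M * p * N)
          rw [Submodule.coe_smul, Matrix.mul_smul]) }
    have hLm : ∀ N : k.MM, (Lm N : Matrix A A ℝ) = M * p * N := fun _ => rfl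
    let T : (A → ℝ) →ₗ[ℝ] (A → ℝ) := Φ ∘ₗ Lm ∘ₗ Ψ.symm.toLinearMap
    have hT : ∀ N : k.MM, T (Φ N) = Φ (Lm N) := by
      intro N
      change Φ (Lm (Ψ.symm (Φ N))) = _
      rw [← hΨ N, Ψ.symm_apply_apply]
    obtain ⟨c, hc⟩ := k.ja.comm (LinearMap.toMatrix' T) fun x hx => eqR fun u => by
      have hu : u ∈ LinearMap.range Φ := by rw [hsurj]; trivial
      obtain ⟨N, rfl⟩ := hu
      rw [← mulVec_mulVec, ← mulVec_mulVec, LinearMap.toMatrix'_mulVec, LinearMap.toMatrix'_mulVec,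
        hT]
      have e1 : ∀ N : k.MM, x *ᵥ Φ N = Φ ⟨_, k.stab_right N.2 hx⟩ := by
        intro N
        rw [hΦ, hΦ, mulVec_mulVec, transpose_mul, k.ja.sym x hx]
      rw [e1, hT, e1]
      congr 1
      apply Subtype.ext
      rw [hLm]
      change M * p * ((N : Matrix A A ℝ) * x) = M * p * (N : Matrix A A ℝ) * x
      rw [← mul_assoc]
    refine ⟨c, ?_⟩
    have e1 := hT ⟨p, k.p_mem⟩
    rw [← LinearMap.toMatrix'_mulVec, hc, smul_mulVec, one_mulVec, hΦ, hΦ, hLm] at e1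
    change c • (pᵀ *ᵥ v) = (M * p * p)ᵀ *ᵥ v at e1
    rw [k.kp.sym, hpv, mul_assoc, k.kp.idem] at e1
    exact e1.symm
  -- the range of `p` is a line
  have h1 : LinearMap.range p.mulVecLin = Submodule.span ℝ {v} := by
    apply le_antisymm
    · rintro _ ⟨u, rfl⟩
      have hu : u ∈ LinearMap.range Φ := by rw [hsurj]; trivial
      obtain ⟨M, rfl⟩ := hu
      obtain ⟨c, hc⟩ := key M M.2
      rw [mulVecLin_apply, hΦ, mulVec_mulVec]
      have e1 : p * (M : Matrix A A ℝ)ᵀ = ((M : Matrix A A ℝ) * p)ᵀ := by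
        rw [transpose_mul, k.kp.sym]
      rw [e1, hc]
      exact Submodule.smul_mem _ _ (Submodule.mem_span_singleton_self v)
    · rw [Submodule.span_singleton_le_iff_mem]
      exact ⟨v, by rw [mulVecLin_apply, hpv]⟩
  rw [Matrix.rank, h1, finrank_span_singleton hv0]

end

end Pool.Agent.N994.PG
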