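import Mathlib
import Pool.Agent.N994.PG.JB

/-!
# Anticommuting symmetric involutions
-/

set_option linter.unusedSectionVars false

namespace Pool.Agent.N994.PG

open Matrix Module

noncomputable section

variable {A : Type*} [Fintype A] [DecidableEq A]

/-- The products of anticommuting involutions. -/
theorem cliff_family (n : ℕ) : ∀ s : Fin n → Matrix A A ℝ, (∀ i, s i * s i = 1) →
    (∀ i, (s i)ᵀ = s i) → (∀ i j, i ≠ j → s i * s j = -(s j * s i)) →
    ∃ (ι : Type) (_ : Fintype ι) (e : ι → Matrix A A ℝ), Fintype.card ι = 2 ^ n ∧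
      (∀ i, e i * (e i)ᵀ = 1) ∧
      (∀ j : Fin n, ∃ π : ι ≃ ι, ∀ i, s j * e i = e (π i) ∨ s j * e i = -e (π i)) ∧
      (∀ j i, e i * s j = s j * e i ∨ e i * s j = -(s j * e i)) ∧
      (∀ t, (∀ j, s j * t = -(t * s j)) → ∀ i, e i * t = t * e i ∨ e i * t = -(t * e i)) := by
  induction n with
  | zero =>
    intro s _ _ _
    refine ⟨Unit, inferInstance, fun _ => 1, by simp, fun _ => by rw [transpose_one, mul_one],
      fun j => j.elim0, fun j => j.elim0, fun t _ _ => Or.inl (by rw [one_mul, mul_one])⟩
  | succ n ih =>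
    intro s hs hT ha
    obtain ⟨ι, _, e, hc, h1, h2, h3, h4⟩ := ih (fun i => s i.castSucc) (fun i => hs _)
      (fun i => hT _) fun i j hij => ha _ _ fun h => hij (Fin.castSucc_injective n h)
    obtain ⟨t, ht⟩ : ∃ t, t = s (Fin.last n) := ⟨_, rfl⟩
    have htt : t * t = 1 := by rw [ht, hs]
    have htT : tᵀ = t := by rw [ht, hT]
    have hta : ∀ j : Fin n, s j.castSucc * t = -(t * s j.castSucc) := fun j => by
      rw [ht]
      exact ha _ _ (Fin.castSucc_lt_last j).ne
    have h5 := h4 t hta
    refine ⟨ι × Bool, inferInstance, fun x => if x.2 then t * e x.1 else e x.1, ?_, ?_, ?_, ?_, ?_⟩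
    · rw [Fintype.card_prod, hc, Fintype.card_bool, pow_succ]
    · rintro ⟨i, b⟩
      cases b
      · simpa using h1 i
      · simp only [if_true]
        rw [transpose_mul, htT, mul_assoc, ← mul_assoc (e i), h1, one_mul, htt]
    · intro j
      refine Fin.lastCases ?_ (fun j => ?_) j
      · refine ⟨(Equiv.refl ι).prodCongr Equiv.boolNot, ?_⟩
        rintro ⟨i, b⟩
        rw [← ht]
        cases b
        · left
          simp
        · left
          simp only [if_true, Equiv.prodCongr_apply, Prod.map_apply, Equiv.refl_apply,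
            Equiv.boolNot_apply, Bool.not_true, Bool.false_eq_true, if_false]
          rw [← mul_assoc, htt, one_mul]
      · obtain ⟨π, hπ⟩ := h2 j
        refine ⟨π.prodCongr (Equiv.refl Bool), ?_⟩
        rintro ⟨i, b⟩
        cases b
        · simpa using hπ i
        · simp only [if_true, Equiv.prodCongr_apply, Prod.map_apply, Equiv.refl_apply]
          rw [← mul_assoc, hta, neg_mul, mul_assoc]
          rcases hπ i with h6 | h6
          · right
            rw [h6]
          · left
            rw [h6, mul_neg, neg_neg]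
    · intro j
      refine Fin.lastCases ?_ (fun j => ?_) j
      · rintro ⟨i, b⟩
        rw [← ht]
        cases b
        · simpa using h5 i
        · simp only [if_true]
          rcases h5 i with h6 | h6
          · left
            rw [mul_assoc, h6]
          · right
            rw [mul_assoc, h6, mul_neg]
      · rintro ⟨i, b⟩
        cases b
        · simpa using h3 j i
        · simp only [if_true]
          rcases h3 j i with h6 | h6
          · right
            rw [mul_assoc, h6, ← mul_assoc, ← mul_assoc, hta, neg_mul, neg_neg]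
          · left
            rw [mul_assoc, h6, mul_neg, ← mul_assoc, ← mul_assoc, hta, neg_mul]
    · rintro u hu ⟨i, b⟩
      have h6 := h4 u (fun j => hu j.castSucc) i
      have h7 : t * u = -(u * t) := by rw [ht]; exact hu (Fin.last n)
      cases b
      · simpa using h6
      · simp only [if_true]
        rcases h6 with h8 | h8
        · right
          rw [mul_assoc, h8, ← mul_assoc, ← mul_assoc, h7, neg_mul]
        · left
          rw [mul_assoc, h8, mul_neg, ← mul_assoc, ← mul_assoc, h7, neg_mul, neg_neg]

/-- The square of the size divides a power of two. -/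
theorem cliff_dvd (n : ℕ) (s : Fin n → Matrix A A ℝ) (hs : ∀ i, s i * s i = 1)
    (hT : ∀ i, (s i)ᵀ = s i) (ha : ∀ i j, i ≠ j → s i * s j = -(s j * s i))
    (hcomm : ∀ T : Matrix A A ℝ, (∀ j, T * s j = s j * T) → ∃ c : ℝ, T = c • (1 : Matrix A A ℝ))
    (hA : 0 < Fintype.card A) : Fintype.card A ^ 2 ∣ 2 ^ n := by
  classical
  obtain ⟨ι, _, e, hc, h1, h2, h3, -⟩ := cliff_family n s hs hT ha
  have hN : (Fintype.card A : ℝ) ≠ 0 := by exact_mod_cast hA.ne'
  have h1' : ∀ i, (e i)ᵀ * e i = 1 := fun i => mul_eq_one_comm.1 (h1 i)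
  -- the average
  obtain ⟨T, hTd⟩ : ∃ T : Matrix A A ℝ → Matrix A A ℝ, ∀ X, T X = ∑ i, e i * X * (e i)ᵀ :=
    ⟨_, fun _ => rfl⟩
  have hTc : ∀ X, ∃ c : ℝ, T X = c • (1 : Matrix A A ℝ) := by
    intro X
    refine hcomm _ fun j => ?_
    obtain ⟨π, hπ⟩ := h2 j
    have e1 : s j * T X * s j = T X := by
      rw [hTd, Finset.mul_sum, Finset.sum_mul, ← Equiv.sum_comp π fun i => e i * X * (e i)ᵀ]
      refine Finset.sum_congr rfl fun i _ => ?_
      have e2 : s j * (e i * X * (e i)ᵀ) * s j = (s j * e i) * X * (s j * e i)ᵀ := by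
        rw [transpose_mul, hT]
        noncomm_ring
      rw [e2]
      rcases hπ i with h4 | h4
      · rw [h4]
      · rw [h4, transpose_neg, neg_mul, neg_mul_neg]
    calc T X * s j = (s j * s j) * (T X * s j) := by rw [hs, one_mul]
    _ = s j * (s j * T X * s j) := by noncomm_ring
    _ = s j * T X := by rw [e1]
  have htr : ∀ X, trace (T X) = 2 ^ n * trace X := by
    intro X
    rw [hTd, trace_sum]
    have e1 : ∀ i ∈ (Finset.univ : Finset ι), trace (e i * X * (e i)ᵀ) = trace X := by
      intro i _
      rw [trace_mul_comm, ← mul_assoc, h1', one_mul]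
    rw [Finset.sum_congr rfl e1, Finset.sum_const, Finset.card_univ, hc, nsmul_eq_mul]
    push_cast
    ring
  -- the sum of the squares of the traces
  have hsum : ∑ i, trace (e i) ^ 2 = 2 ^ n := by
    have e1 : ∀ i, trace (e i) ^ 2 =
        ∑ a, ∑ b, (e i * Matrix.single a b (1 : ℝ) * (e i)ᵀ : Matrix A A ℝ) a b := by
      intro i
      rw [sq, trace, Finset.sum_mul_sum]
      refine Finset.sum_congr rfl fun a _ => Finset.sum_congr rfl fun b _ => ?_
      rw [mul_apply, Finset.sum_eq_single b]
      · rw [mul_apply, Finset.sum_eq_single a]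
        · simp
        · intro c _ hca
          rw [Matrix.single_apply_of_row_ne (Ne.symm hca), mul_zero]
        · intro h
          exact absurd (Finset.mem_univ _) h
      · intro c _ hcb
        have e2 : (e i * Matrix.single a b (1 : ℝ)) a c = 0 := by
          rw [mul_apply]
          refine Finset.sum_eq_zero fun d _ => ?_
          rw [Matrix.single_apply_of_col_ne _ _ (Ne.symm hcb), mul_zero]
        rw [e2, zero_mul]
      · intro h
        exact absurd (Finset.mem_univ _) h
    rw [Finset.sum_congr rfl fun i _ => e1 i, Finset.sum_comm]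
    have e2 : ∀ a ∈ (Finset.univ : Finset A),
        ∑ i, ∑ b, (e i * Matrix.single a b (1 : ℝ) * (e i)ᵀ : Matrix A A ℝ) a b =
          2 ^ n / (Fintype.card A : ℝ) := by
      intro a _
      rw [Finset.sum_comm]
      have e3 : ∀ b ∈ (Finset.univ : Finset A),
          ∑ i, (e i * Matrix.single a b (1 : ℝ) * (e i)ᵀ : Matrix A A ℝ) a b = T (Matrix.single a b 1) a b := by
        intro b _
        rw [hTd, Matrix.sum_apply]
      rw [Finset.sum_congr rfl e3, Finset.sum_eq_single a]
      · obtain ⟨c, hc'⟩ := hTc (Matrix.single a a 1)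
        have e4 := htr (Matrix.single a a 1)
        rw [hc', trace_smul, trace_one, smul_eq_mul, Matrix.trace_single_eq_same, mul_one] at e4
        rw [hc', Matrix.smul_apply, one_apply_eq, smul_eq_mul, mul_one, eq_div_iff hN, e4]
      · intro b _ hb
        obtain ⟨c, hc'⟩ := hTc (Matrix.single a b 1)
        rw [hc', Matrix.smul_apply, one_apply_ne (Ne.symm hb), smul_zero]
      · intro h
        exact absurd (Finset.mem_univ _) h
    rw [Finset.sum_congr rfl e2, Finset.sum_const, Finset.card_univ, nsmul_eq_mul]
    field_simp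
  -- the dichotomy
  have hdi : ∀ i, trace (e i) ^ 2 = 0 ∨ trace (e i) ^ 2 = (Fintype.card A : ℝ) ^ 2 := by
    intro i
    by_cases hall : ∀ j, e i * s j = s j * e i
    · right
      obtain ⟨c, hc'⟩ := hcomm _ hall
      have e1 := h1 i
      rw [hc', transpose_smul, transpose_one, Matrix.smul_mul, one_mul, smul_smul] at e1
      have e2 : c * c = 1 := by
        obtain ⟨a⟩ := Fintype.card_pos_iff.1 hA
        have e3 := congrFun (congrFun e1 a) a
        rw [Matrix.smul_apply, one_apply_eq, smul_eq_mul, mul_one] at e3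
        exact e3
      rw [hc', trace_smul, trace_one, smul_eq_mul]
      linear_combination (Fintype.card A : ℝ) ^ 2 * e2
    · left
      push Not at hall
      obtain ⟨j, hj⟩ := hall
      have e1 := (h3 j i).resolve_left hj
      have e2 : trace (e i) = -trace (e i) := by
        calc trace (e i) = trace (e i * (s j * s j)) := by rw [hs, mul_one]
        _ = trace (e i * s j * s j) := by rw [mul_assoc]
        _ = -trace (s j * e i * s j) := by rw [e1, neg_mul, trace_neg]
        _ = -trace (s j * (s j * e i)) := by rw [trace_mul_comm]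
        _ = -trace (e i) := by rw [← mul_assoc, hs, one_mul]
      have e3 : trace (e i) = 0 := by linarith
      rw [e3]
      norm_num
  obtain ⟨K, hK⟩ : ∃ K : ℕ, ∑ i, trace (e i) ^ 2 = K * (Fintype.card A : ℝ) ^ 2 := by
    refine ⟨(Finset.univ.filter fun i => trace (e i) ^ 2 ≠ 0).card, ?_⟩
    rw [← Finset.sum_filter_ne_zero, Finset.sum_congr rfl fun i hi => ?_, Finset.sum_const,
      nsmul_eq_mul]
    exact (hdi i).resolve_left (Finset.mem_filter.1 hi).2
  rw [hsum] at hK
  refine ⟨K, ?_⟩
  have : ((2 ^ n : ℕ) : ℝ) = ((Fintype.card A ^ 2 * K : ℕ) : ℝ) := by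
    push_cast
    rw [hK]
    ring
  exact_mod_cast this

end

end Pool.Agent.N994.PG
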