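import Mathlib
import Pool.Agent.N994.PG.JC

/-!
# Anticommuting symmetric involutions: the symmetric products
-/

set_option linter.unusedSectionVars false

namespace Pool.Agent.N994.PG

open Matrix Module

noncomputable section

/-- The numbers of the symmetric products, minus the numbers of the skew products: the sum with
signs, and the sum weighted by the parity. -/
def cab : ℕ → ℤ × ℤ
  | 0 => (1, 1)
  | n + 1 => ((cab n).1 + (cab n).2, (cab n).2 - (cab n).1)

theorem cab_eight (n : ℕ) : cab (n + 8) = (16 * (cab n).1, 16 * (cab n).2) := by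
  simp only [cab]
  ext <;> ring

theorem cab_mul (q r : ℕ) : cab (r + 8 * q) = (16 ^ q * (cab r).1, 16 ^ q * (cab r).2) := by
  induction q with
  | zero => simp
  | succ q ih =>
    have h1 : r + 8 * (q + 1) = (r + 8 * q) + 8 := by ring
    rw [h1, cab_eight, ih, pow_succ]
    ext <;> simp <;> ring

/-- The sizes of the irreducible real Clifford modules of real type. -/
theorem size_aux {N n : ℕ} (h : (N : ℤ) * (cab n).1 = 2 ^ n) :
    ∃ q, N = 2 ^ (4 * q) ∨ N = 2 ^ (4 * q + 1) := by
  obtain ⟨q, r, hr, rfl⟩ : ∃ q r, r < 8 ∧ n = r + 8 * q :=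
    ⟨n / 8, n % 8, Nat.mod_lt _ (by norm_num), by omega⟩
  rw [cab_mul] at h
  have h16 : (16 : ℤ) ^ q ≠ 0 := pow_ne_zero _ (by norm_num)
  have h2 : (2 : ℤ) ^ (r + 8 * q) = 2 ^ r * (16 ^ q * 2 ^ (4 * q)) := by
    rw [pow_add, pow_mul, pow_mul, ← mul_pow]
    norm_num
  have h3 : (N : ℤ) * (cab r).1 = 2 ^ r * 2 ^ (4 * q) := by
    rw [h2] at h
    have h4 : (16 : ℤ) ^ q * ((N : ℤ) * (cab r).1) = 16 ^ q * (2 ^ r * 2 ^ (4 * q)) := by
      linear_combination h
    exact mul_left_cancel₀ h16 h4
  have hpos : (0 : ℤ) < 2 ^ (4 * q) := by positivity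
  refine ⟨q, ?_⟩
  interval_cases r
  · left
    simp only [cab] at h3
    have : (N : ℤ) = 2 ^ (4 * q) := by linarith
    exact_mod_cast this
  · left
    simp only [cab] at h3
    have : (N : ℤ) = 2 ^ (4 * q) := by linarith
    exact_mod_cast this
  · right
    simp only [cab] at h3
    have : (N : ℤ) = 2 ^ (4 * q + 1) := by
      rw [pow_succ]
      linarith
    exact_mod_cast this
  all_goals
    exfalso
    simp only [cab] at h3
    have hN : (0 : ℤ) ≤ N := Int.natCast_nonneg N
    have h5 : (0 : ℤ) < 2 ^ 3 * 2 ^ (4 * q) := by positivity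
    linarith

variable {A : Type*} [Fintype A] [DecidableEq A]

/-- The products of anticommuting involutions, with signs. -/
theorem cliff_family2 (n : ℕ) : ∀ s : Fin n → Matrix A A ℝ, (∀ i, s i * s i = 1) →
    (∀ i, (s i)ᵀ = s i) → (∀ i j, i ≠ j → s i * s j = -(s j * s i)) →
    ∃ (ι : Type) (_ : Fintype ι) (e : ι → Matrix A A ℝ) (ε π : ι → ℤ), Fintype.card ι = 2 ^ n ∧
      (∀ i, e i * (e i)ᵀ = 1) ∧
      (∀ j : Fin n, ∃ π : ι ≃ ι, ∀ i, s j * e i = e (π i) ∨ s j * e i = -e (π i)) ∧
      (∀ i, (e i)ᵀ = (ε i : ℝ) • e i) ∧ (∀ i, ε i * ε i = 1) ∧ (∀ i, π i * π i = 1) ∧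
      (∀ t, (∀ j, s j * t = -(t * s j)) → ∀ i, e i * t = (π i : ℝ) • (t * e i)) ∧
      ∑ i, ε i = (cab n).1 ∧ ∑ i, ε i * π i = (cab n).2 := by
  induction n with
  | zero =>
    intro s _ _ _
    refine ⟨Unit, inferInstance, fun _ => 1, fun _ => 1, fun _ => 1, by simp, fun _ => by
      rw [transpose_one, mul_one], fun j => j.elim0, fun _ => by simp, fun _ => by simp,
      fun _ => by simp, fun t _ _ => by simp, by simp [cab], by simp [cab]⟩
  | succ n ih =>
    intro s hs hT ha
    obtain ⟨ι, _, e, ε, π, hc, h1, h2, h3, h5, h6, h7, h8, h9⟩ := ih (fun i => s i.castSucc)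
      (fun i => hs _) (fun i => hT _) fun i j hij => ha _ _ fun h => hij (Fin.castSucc_injective n h)
    obtain ⟨t, ht⟩ : ∃ t, t = s (Fin.last n) := ⟨_, rfl⟩
    have htt : t * t = 1 := by rw [ht, hs]
    have htT : tᵀ = t := by rw [ht, hT]
    have hta : ∀ j : Fin n, s j.castSucc * t = -(t * s j.castSucc) := fun j => by
      rw [ht]
      exact ha _ _ (Fin.castSucc_lt_last j).ne
    have h10 := h7 t hta
    refine ⟨ι × Bool, inferInstance, fun x => if x.2 then t * e x.1 else e x.1,
      fun x => if x.2 then ε x.1 * π x.1 else ε x.1, fun x => if x.2 then -π x.1 else π x.1,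
      ?_, ?_, ?_, ?_, ?_, ?_, ?_, ?_, ?_⟩
    · rw [Fintype.card_prod, hc, Fintype.card_bool, pow_succ]
    · rintro ⟨i, b⟩
      cases b
      · simpa using h1 i
      · simp only [if_true]
        rw [transpose_mul, htT, mul_assoc, ← mul_assoc (e i), h1, one_mul, htt]
    · intro j
      refine Fin.lastCases ?_ (fun j => ?_) j
      · refine ⟨(Equiv.refl ι).prodCongr Equiv.boolNot, ?_⟩
        rintro ⟨i, b⟩
        rw [← ht]
        cases b
        · left
          simp
        · left
          simp only [if_true, Equiv.prodCongr_apply, Prod.map_apply, Equiv.refl_apply,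
            Equiv.boolNot_apply, Bool.not_true, Bool.false_eq_true, if_false]
          rw [← mul_assoc, htt, one_mul]
      · obtain ⟨π, hπ⟩ := h2 j
        refine ⟨π.prodCongr (Equiv.refl Bool), ?_⟩
        rintro ⟨i, b⟩
        cases b
        · simpa using hπ i
        · simp only [if_true, Equiv.prodCongr_apply, Prod.map_apply, Equiv.refl_apply]
          rw [← mul_assoc, hta, neg_mul, mul_assoc]
          rcases hπ i with h6 | h6
          · right
            rw [h6]
          · left
            rw [h6, mul_neg, neg_neg]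
    · rintro ⟨i, b⟩
      cases b
      · simpa using h3 i
      · simp only [if_true]
        rw [transpose_mul, htT, h3, Matrix.smul_mul, h10, smul_smul]
        push_cast
        rfl
    · rintro ⟨i, b⟩
      cases b
      · simpa using h5 i
      · simp only [if_true]
        linear_combination (π i * π i) * h5 i + h6 i
    · rintro ⟨i, b⟩
      cases b
      · simpa using h6 i
      · simp only [if_true]
        linear_combination h6 i
    · rintro u hu ⟨i, b⟩
      have h11 := h7 u (fun j => hu j.castSucc) i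
      have h12 : t * u = -(u * t) := by rw [ht]; exact hu (Fin.last n)
      cases b
      · simpa using h11
      · simp only [if_true]
        rw [mul_assoc, h11, Matrix.mul_smul, ← mul_assoc, ← mul_assoc, h12, neg_mul, smul_neg]
        push_cast
        rw [neg_smul]
    · rw [Fintype.sum_prod_type]
      simp only [Fintype.sum_bool, if_true, Bool.false_eq_true, if_false]
      rw [Finset.sum_add_distrib, h8, h9]
      simp only [cab]
      ring
    · rw [Fintype.sum_prod_type]
      simp only [Fintype.sum_bool, if_true, Bool.false_eq_true, if_false]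
      have h13 : ∀ i, ε i * π i * -π i + ε i * π i = -ε i + ε i * π i := by
        intro i
        linear_combination -(ε i) * h6 i
      simp only [h13]
      rw [Finset.sum_add_distrib, Finset.sum_neg_distrib, h8, h9]
      simp only [cab]
      ring

/-- The size of the matrices. -/
theorem cliff_size (n : ℕ) (s : Fin n → Matrix A A ℝ) (hs : ∀ i, s i * s i = 1)
    (hT : ∀ i, (s i)ᵀ = s i) (ha : ∀ i j, i ≠ j → s i * s j = -(s j * s i))
    (hcomm : ∀ T : Matrix A A ℝ, (∀ j, T * s j = s j * T) → ∃ c : ℝ, T = c • (1 : Matrix A A ℝ))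
    (hA : 0 < Fintype.card A) :
    ∃ q, Fintype.card A = 2 ^ (4 * q) ∨ Fintype.card A = 2 ^ (4 * q + 1) := by
  classical
  obtain ⟨ι, _, e, ε, π, hc, h1, h2, h3, h5, -, -, h8, -⟩ := cliff_family2 n s hs hT ha
  have hN : (Fintype.card A : ℝ) ≠ 0 := by exact_mod_cast hA.ne'
  have h1' : ∀ i, (e i)ᵀ * e i = 1 := fun i => mul_eq_one_comm.1 (h1 i)
  -- the average
  obtain ⟨T, hTd⟩ : ∃ T : Matrix A A ℝ → Matrix A A ℝ, ∀ X, T X = ∑ i, e i * X * (e i)ᵀ :=
    ⟨_, fun _ => rfl⟩
  have hTc : ∀ X, ∃ c : ℝ, T X = c • (1 : Matrix A A ℝ) := by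
    intro X
    refine hcomm _ fun j => ?_
    obtain ⟨π, hπ⟩ := h2 j
    have e1 : s j * T X * s j = T X := by
      rw [hTd, Finset.mul_sum, Finset.sum_mul, ← Equiv.sum_comp π fun i => e i * X * (e i)ᵀ]
      refine Finset.sum_congr rfl fun i _ => ?_
      have e2 : s j * (e i * X * (e i)ᵀ) * s j = (s j * e i) * X * (s j * e i)ᵀ := by
        rw [transpose_mul, hT]
        noncomm_ring
      rw [e2]
      rcases hπ i with h4 | h4
      · rw [h4]
      · rw [h4, transpose_neg, neg_mul, neg_mul_neg]
    calc T X * s j = (s j * s j) * (T X * s j) := by rw [hs, one_mul]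
    _ = s j * (s j * T X * s j) := by noncomm_ring
    _ = s j * T X := by rw [e1]
  have htr : ∀ X, trace (T X) = 2 ^ n * trace X := by
    intro X
    rw [hTd, trace_sum]
    have e1 : ∀ i ∈ (Finset.univ : Finset ι), trace (e i * X * (e i)ᵀ) = trace X := by
      intro i _
      rw [trace_mul_comm, ← mul_assoc, h1', one_mul]
    rw [Finset.sum_congr rfl e1, Finset.sum_const, Finset.card_univ, hc, nsmul_eq_mul]
    push_cast
    ring
  have hent : ∀ a b : A, ∑ i, (e i) a b * (e i) b a = T (Matrix.single b a 1) a b := by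
    intro a b
    rw [hTd, Matrix.sum_apply]
    refine Finset.sum_congr rfl fun i _ => ?_
    rw [mul_apply, Finset.sum_eq_single a]
    · rw [mul_apply, Finset.sum_eq_single b]
      · simp
      · intro c _ hcb
        rw [Matrix.single_apply_of_row_ne (Ne.symm hcb), mul_zero]
      · intro h
        exact absurd (Finset.mem_univ _) h
    · intro c _ hca
      have e2 : (e i * Matrix.single b a (1 : ℝ)) a c = 0 := by
        rw [mul_apply]
        refine Finset.sum_eq_zero fun d _ => ?_
        rw [Matrix.single_apply_of_col_ne _ _ (Ne.symm hca), mul_zero]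
      rw [e2, zero_mul]
    · intro h
      exact absurd (Finset.mem_univ _) h
  have hsum : ∑ i, trace (e i * e i) = 2 ^ n := by
    have e1 : ∀ i, trace (e i * e i) = ∑ a, ∑ b, (e i) a b * (e i) b a := by
      intro i
      rw [trace]
      refine Finset.sum_congr rfl fun a _ => ?_
      rw [diag_apply, mul_apply]
    simp only [e1]
    rw [Finset.sum_comm]
    have e2 : ∀ a ∈ (Finset.univ : Finset A), ∑ i, ∑ b, (e i) a b * (e i) b a =
        2 ^ n / (Fintype.card A : ℝ) := by
      intro a _
      rw [Finset.sum_comm]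
      simp only [hent]
      rw [Finset.sum_eq_single a]
      · obtain ⟨c, hc'⟩ := hTc (Matrix.single a a 1)
        have e4 := htr (Matrix.single a a 1)
        rw [hc', trace_smul, trace_one, smul_eq_mul, Matrix.trace_single_eq_same, mul_one] at e4
        rw [hc', Matrix.smul_apply, one_apply_eq, smul_eq_mul, mul_one, eq_div_iff hN, e4]
      · intro b _ hb
        obtain ⟨c, hc'⟩ := hTc (Matrix.single b a 1)
        rw [hc', Matrix.smul_apply, one_apply_ne (Ne.symm hb), smul_zero]
      · intro h
        exact absurd (Finset.mem_univ _) h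
    rw [Finset.sum_congr rfl e2, Finset.sum_const, Finset.card_univ, nsmul_eq_mul]
    field_simp
  have hsq : ∀ i, trace (e i * e i) = (ε i : ℝ) * Fintype.card A := by
    intro i
    have e1 : e i = (ε i : ℝ) • (e i)ᵀ := by
      rw [h3, smul_smul]
      have : ((ε i : ℝ) * (ε i : ℝ)) = 1 := by exact_mod_cast h5 i
      rw [this, one_smul]
    nth_rewrite 2 [e1]
    rw [Matrix.mul_smul, h1, trace_smul, trace_one, smul_eq_mul]
  have hfin : (Fintype.card A : ℤ) * (cab n).1 = 2 ^ n := by
    rw [← h8]
    have e1 : (∑ i, (ε i : ℝ)) * Fintype.card A = 2 ^ n := by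
      rw [Finset.sum_mul, ← hsum]
      exact Finset.sum_congr rfl fun i _ => (hsq i).symm
    have e2 : ((Fintype.card A : ℤ) : ℝ) * ((∑ i, ε i : ℤ) : ℝ) = ((2 ^ n : ℤ) : ℝ) := by
      push_cast
      rw [mul_comm, e1]
    exact_mod_cast e2
  exact size_aux hfin

theorem cliff_both (n : ℕ) (s : Fin n → Matrix A A ℝ) (hs : ∀ i, s i * s i = 1)
    (hT : ∀ i, (s i)ᵀ = s i) (ha : ∀ i j, i ≠ j → s i * s j = -(s j * s i))
    (hcomm : ∀ T : Matrix A A ℝ, (∀ j, T * s j = s j * T) → ∃ c : ℝ, T = c • (1 : Matrix A A ℝ))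
    (hA : 0 < Fintype.card A) : Fintype.card A ^ 2 ∣ 2 ^ n ∧
      ∃ q, Fintype.card A = 2 ^ (4 * q) ∨ Fintype.card A = 2 ^ (4 * q + 1) :=
  ⟨cliff_dvd n s hs hT ha hcomm hA, cliff_size n s hs hT ha hcomm hA⟩

end

end Pool.Agent.N994.PG
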