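import Mathlib
import Pool.Agent.N994.PG.JC2

/-!
# Jordan algebras of real symmetric matrices: the classification
-/

set_option linter.unusedSectionVars false

namespace Pool.Agent.N994.PG

open Matrix Module

noncomputable section

variable {A : Type*} [Fintype A] [DecidableEq A]

theorem trace_self' (b c : Matrix A A ℝ) : trace (b * cᵀ) = ∑ x : A × A, b x.1 x.2 * c x.1 x.2 := by
  rw [trace, Fintype.sum_prod_type]
  refine Finset.sum_congr rfl fun i _ => ?_
  rw [diag_apply, mul_apply]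
  rfl

/-- Orthonormal bases with respect to the trace form. -/
theorem exists_onb (S : Submodule ℝ (Matrix A A ℝ)) (r : ℝ) (hr : 0 < r) :
    ∃ b : Fin (finrank ℝ S) → Matrix A A ℝ, (∀ i, b i ∈ S) ∧
      (∀ i j, trace (b i * (b j)ᵀ) = if i = j then r else 0) ∧
      ∀ x ∈ S, ∃ t : Fin (finrank ℝ S) → ℝ, x = ∑ i, t i • b i := by
  let L : Matrix A A ℝ ≃ₗ[ℝ] EuclideanSpace ℝ (A × A) :=
    (LinearEquiv.curry ℝ ℝ A A).symm.trans (WithLp.linearEquiv 2 ℝ (A × A → ℝ)).symm
  have hL : ∀ (V : Matrix A A ℝ) (x : A × A), (L V) x = V x.1 x.2 := fun V x => rfl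
  let S' : Submodule ℝ (EuclideanSpace ℝ (A × A)) := S.map L.toLinearMap
  have hfin : finrank ℝ S' = finrank ℝ S := LinearEquiv.finrank_map_eq L S
  let o : OrthonormalBasis (Fin (finrank ℝ S)) ℝ S' :=
    (stdOrthonormalBasis ℝ S').reindex (finCongr hfin)
  have hsq : Real.sqrt r * Real.sqrt r = r := Real.mul_self_sqrt hr.le
  have hsq0 : Real.sqrt r ≠ 0 := (Real.sqrt_pos.2 hr).ne'
  have hmem : ∀ i, L.symm (o i : EuclideanSpace ℝ (A × A)) ∈ S := by
    intro i
    obtain ⟨x, hx, hx'⟩ := (o i).2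
    rw [← hx']
    change L.symm (L x) ∈ S
    rw [L.symm_apply_apply]
    exact hx
  have hin : ∀ b c : Matrix A A ℝ, trace (b * cᵀ) = inner ℝ (L b) (L c) := by
    intro b c
    rw [trace_self', PiLp.inner_apply]
    refine Finset.sum_congr rfl fun x _ => ?_
    rw [RCLike.inner_apply, hL, hL]
    simp [mul_comm]
  refine ⟨fun i => Real.sqrt r • L.symm (o i), fun i => S.smul_mem _ (hmem i), fun i j => ?_,
    fun x hx => ?_⟩
  · rw [hin, map_smul, map_smul, L.apply_symm_apply, L.apply_symm_apply, inner_smul_left,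
      inner_smul_right]
    have h1 := orthonormal_iff_ite.1 o.orthonormal i j
    rw [Submodule.coe_inner] at h1
    rw [h1]
    split_ifs
    · rw [mul_one]
      simpa using hsq
    · rw [mul_zero, mul_zero]
  · have h1 : L x ∈ S' := ⟨x, hx, rfl⟩
    have h2 := o.sum_repr ⟨L x, h1⟩
    refine ⟨fun i => (Real.sqrt r)⁻¹ * o.repr ⟨L x, h1⟩ i, ?_⟩
    apply L.injective
    have h3 := congrArg (fun v : S' => (v : EuclideanSpace ℝ (A × A))) h2
    beta_reduce at h3
    rw [Submodule.coe_sum] at h3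
    rw [map_sum]
    refine h3.symm.trans (Finset.sum_congr rfl fun i _ => ?_)
    rw [map_smul, map_smul, L.apply_symm_apply, smul_smul, Submodule.coe_smul]
    congr 1
    field_simp

/-- Numbers. -/
theorem num_aux {m N n : ℕ} (h1 : N ^ 2 ∣ 2 ^ (n + 1)) (h2 : n ≤ m) (h3 : 2 * m ≤ N)
    (hm : 0 < m) (hq : ∃ q, N = 2 ^ (4 * q) ∨ N = 2 ^ (4 * q + 1)) :
    m = 1 ∨ ∃ j, 4 ≤ j ∧ j % 4 ≤ 1 ∧ N = 2 ^ j := by
  have hN : N ∣ 2 ^ (n + 1) := (Dvd.intro_left (N ^ 1) (by ring)).trans h1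
  obtain ⟨j, -, hj⟩ := (Nat.dvd_prime_pow Nat.prime_two).1 hN
  have h4 : N ^ 2 ≤ 2 ^ (m + 1) :=
    (Nat.le_of_dvd (by positivity) h1).trans (Nat.pow_le_pow_right (by norm_num) (by omega))
  have h5 : (2 * m) ^ 2 ≤ 2 ^ (m + 1) := (Nat.pow_le_pow_left h3 2).trans h4
  by_cases h6 : m ≤ 6
  · left
    interval_cases m
    · rfl
    · norm_num at h5
    · norm_num at h5
    · norm_num at h5
    · norm_num at h5
    · norm_num at h5
  · right
    have hjm : j % 4 ≤ 1 := by
      obtain ⟨q, hq | hq⟩ := hq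
      · rw [hj] at hq
        have := Nat.pow_right_injective (le_refl 2) hq
        omega
      · rw [hj] at hq
        have := Nat.pow_right_injective (le_refl 2) hq
        omega
    refine ⟨j, ?_, hjm, hj⟩
    by_contra h7
    have h8 : j ≤ 3 := by omega
    have h9 : 2 ^ j ≤ 2 ^ 3 := Nat.pow_le_pow_right (by norm_num) h8
    rw [← hj] at h9
    omega

/-- Spin factors: the squares are linear combinations of the element and the unit. -/
def SpinJ (J : Submodule ℝ (Matrix A A ℝ)) : Prop :=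
  ∀ x ∈ J, ∃ β : ℝ, x * x = (2 * trace x / (Fintype.card A : ℝ)) • x + β • (1 : Matrix A A ℝ)

/-- **Rank two.** -/
theorem rank_two {J : Submodule ℝ (Matrix A A ℝ)} {p f y : Matrix A A ℝ} (h : JA J) (kp : Mi J p)
    (kf : Mi J f) (pf : Og p f) (one : p + f = 1) (hyy : y * yᵀ = p) (hyy' : yᵀ * y = f) :
    p.rank = 1 ∨ ((∃ j, 4 ≤ j ∧ j % 4 ≤ 1 ∧ Fintype.card A = 2 ^ j) ∧ SpinJ J) := by
  classical
  obtain ⟨r, hr⟩ : ∃ r, r = trace p := ⟨_, rfl⟩
  have hr0 : 0 < r := by rw [hr]; exact kp.trace_pos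
  have hrf : trace f = r := by rw [hr, ← hyy, ← hyy', trace_mul_comm]
  obtain ⟨b, hb, hbt, hspan⟩ := exists_onb (Sm J p f) r hr0
  -- norms
  have hn1 : ∀ x ∈ Sm J p f, ∀ z ∈ Sm J p f, x * zᵀ + z * xᵀ = (2 * trace (x * zᵀ) / r) • p := by
    intro x hx z hz
    obtain ⟨c1, e1⟩ := kp.nrm h kf.sym pf hx
    obtain ⟨c2, e2⟩ := kp.nrm h kf.sym pf hz
    obtain ⟨c3, e3⟩ := kp.nrm h kf.sym pf (Submodule.add_mem _ hx hz)
    have e4 : x * zᵀ + z * xᵀ = (c3 - c1 - c2) • p := by
      rw [sub_smul, sub_smul, ← e1, ← e2, ← e3, transpose_add]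
      noncomm_ring
    have e5 := congrArg trace e4
    rw [trace_add, trace_smul, smul_eq_mul, ← hr] at e5
    have e6 : trace (z * xᵀ) = trace (x * zᵀ) := by
      rw [← trace_transpose (z * xᵀ), transpose_mul, transpose_transpose]
    rw [e4]
    congr 1
    rw [eq_div_iff hr0.ne']
    linarith
  have hn2 : ∀ x ∈ Sm J p f, ∀ z ∈ Sm J p f, xᵀ * z + zᵀ * x = (2 * trace (x * zᵀ) / r) • f := by
    intro x hx z hz
    have tx := Sm.tr kp.sym kf.sym hx
    have tz := Sm.tr kp.sym kf.sym hz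
    obtain ⟨c1, e1⟩ := kf.nrm h kp.sym pf.symm tx
    obtain ⟨c2, e2⟩ := kf.nrm h kp.sym pf.symm tz
    obtain ⟨c3, e3⟩ := kf.nrm h kp.sym pf.symm (Submodule.add_mem _ tx tz)
    rw [transpose_transpose] at e1 e2
    rw [transpose_add, transpose_transpose, transpose_transpose] at e3
    have e4 : xᵀ * z + zᵀ * x = (c3 - c1 - c2) • f := by
      rw [sub_smul, sub_smul, ← e1, ← e2, ← e3]
      noncomm_ring
    have e5 := congrArg trace e4
    rw [trace_add, trace_smul, smul_eq_mul, hrf] at e5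
    have e6 : trace (zᵀ * x) = trace (x * zᵀ) := trace_mul_comm _ _
    have e7 : trace (xᵀ * z) = trace (x * zᵀ) := by
      rw [← trace_transpose (xᵀ * z), transpose_mul, transpose_transpose, trace_mul_comm]
    rw [e4]
    congr 1
    rw [eq_div_iff hr0.ne']
    linarith
  have hzz : ∀ x ∈ Sm J p f, ∀ z ∈ Sm J p f, x * z = 0 := by
    intro x hx z hz
    rw [← (mem_Sm.1 hx).2.1, ← (mem_Sm.1 hz).1, mul_assoc, ← mul_assoc f, pf.r, zero_mul, mul_zero]
  have hzt : ∀ x ∈ Sm J p f, ∀ z ∈ Sm J p f, xᵀ * zᵀ = 0 := by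
    intro x hx z hz
    rw [← transpose_mul, hzz z hz x hx, transpose_zero]
  -- the involutions
  have hmul : ∀ x ∈ Sm J p f, ∀ z ∈ Sm J p f, (x + xᵀ) * (z + zᵀ) + (z + zᵀ) * (x + xᵀ) =
      (2 * trace (x * zᵀ) / r) • (1 : Matrix A A ℝ) := by
    intro x hx z hz
    rw [← one, smul_add, ← hn1 x hx z hz, ← hn2 x hx z hz]
    simp only [add_mul, mul_add, hzz x hx z hz, hzz z hz x hx, hzt x hx z hz, hzt z hz x hx]
    abel
  have hf1 : ∀ x ∈ Sm J p f, (p - f) * (x + xᵀ) = x - xᵀ := by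
    intro x hx
    obtain ⟨x1, x2, -⟩ := mem_Sm.1 hx
    obtain ⟨x3, x4, -⟩ := mem_Sm.1 (Sm.tr kp.sym kf.sym hx)
    have e1 : p * xᵀ = 0 := by rw [← x3, ← mul_assoc, pf.l, zero_mul]
    have e2 : f * x = 0 := by rw [← x1, ← mul_assoc, pf.r, zero_mul]
    rw [sub_mul, mul_add, mul_add, x1, x3, e1, e2]
    abel
  have hf2 : ∀ x ∈ Sm J p f, (x + xᵀ) * (p - f) = -(x - xᵀ) := by
    intro x hx
    have e1 := congrArg transpose (hf1 x hx)
    rw [transpose_mul, transpose_add, transpose_sub, transpose_sub, transpose_transpose, kp.sym,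
      kf.sym, add_comm xᵀ x] at e1
    rw [e1]
    abel
  let s : Fin (finrank ℝ (Sm J p f) + 1) → Matrix A A ℝ :=
    Fin.cons (p - f) fun i => b i + (b i)ᵀ
  have hs0 : s 0 = p - f := rfl
  have hsS : ∀ i : Fin (finrank ℝ (Sm J p f)), s i.succ = b i + (b i)ᵀ := fun _ => rfl
  have hpp : (p - f) * (p - f) = 1 := by
    rw [sub_mul, mul_sub, mul_sub, kp.idem, kf.idem, pf.l, pf.r, ← one]
    abel
  have hbb : ∀ i, (b i + (b i)ᵀ) * (b i + (b i)ᵀ) = 1 := by
    intro i
    have e1 := hmul _ (hb i) _ (hb i)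
    rw [hbt, if_pos rfl, mul_div_assoc, div_self hr0.ne', mul_one, ← two_smul ℝ] at e1
    exact smul_right_injective _ (two_ne_zero (α := ℝ)) e1
  have hboth := cliff_both _ s (fun i => by
    refine Fin.cases ?_ (fun i => ?_) i
    · rw [hs0, hpp]
    · rw [hsS, hbb]) (fun i => by
    refine Fin.cases ?_ (fun i => ?_) i
    · rw [hs0, transpose_sub, kp.sym, kf.sym]
    · rw [hsS, transpose_add, transpose_transpose, add_comm]) (fun i j hij => by
    revert hij
    refine Fin.cases ?_ (fun i => ?_) i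
    · refine Fin.cases ?_ (fun j => ?_) j
      · intro hij
        exact absurd rfl hij
      · intro _
        rw [hs0, hsS, hf1 _ (hb j), hf2 _ (hb j), neg_neg]
    · refine Fin.cases ?_ (fun j => ?_) j
      · intro _
        rw [hs0, hsS, hf1 _ (hb i), hf2 _ (hb i)]
      · intro hij
        rw [hsS, hsS]
        have e1 := hmul _ (hb i) _ (hb j)
        rw [hbt, if_neg (fun h => hij (by rw [h])), mul_zero, zero_div, zero_smul] at e1
        exact eq_neg_of_add_eq_zero_left e1) (fun T hT => by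
    -- the commutant
    have t0 := hT 0
    rw [hs0] at t0
    have hTp : T * p = p * T := by
      have e1 : (2 : ℝ) • p = 1 + (p - f) := by rw [← one, two_smul]; abel
      have e2 : T * ((2 : ℝ) • p) = ((2 : ℝ) • p) * T := by
        rw [e1, mul_add, add_mul, mul_one, one_mul, t0]
      rw [Matrix.mul_smul, Matrix.smul_mul] at e2
      exact smul_right_injective _ (two_ne_zero (α := ℝ)) e2
    have hTf : T * f = f * T := by
      have e1 : f = 1 - p := by rw [← one]; abel
      rw [e1, mul_sub, sub_mul, mul_one, one_mul, hTp]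
    have hTb : ∀ x ∈ Sm J p f, T * (x + xᵀ) = (x + xᵀ) * T := by
      intro x hx
      obtain ⟨t, rfl⟩ := hspan x hx
      rw [transpose_sum, ← Finset.sum_add_distrib, Finset.mul_sum, Finset.sum_mul]
      refine Finset.sum_congr rfl fun i _ => ?_
      rw [transpose_smul, ← smul_add, Matrix.mul_smul, Matrix.smul_mul]
      have e1 := hT i.succ
      rw [hsS] at e1
      rw [e1]
    refine h.comm T fun x hx => ?_
    obtain ⟨c, hc⟩ := kp.scal h hx
    obtain ⟨d, hd⟩ := kf.scal h hx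
    have hxs := h.sym x hx
    have hx1 : p * x * f ∈ Sm J p f := by
      refine mem_Sm.2 ⟨?_, ?_, ?_⟩
      · rw [← mul_assoc, ← mul_assoc, kp.idem]
      · rw [mul_assoc _ f f, kf.idem]
      · rw [transpose_mul, transpose_mul, hxs, kp.sym, kf.sym, ← mul_assoc]
        have e1 := J.sub_mem (J.sub_mem hx (h.pxp kp.mem kp.idem hx)) (h.pxp kf.mem kf.idem hx)
        have e2 : x - p * x * p - f * x * f = p * x * f + f * x * p := by
          have e3 : x = (p + f) * x * (p + f) := by rw [one, one_mul, mul_one]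
          nth_rewrite 1 [e3]
          noncomm_ring
        rwa [e2] at e1
    have e1 : x = c • p + d • f + (p * x * f + (p * x * f)ᵀ) := by
      rw [transpose_mul, transpose_mul, hxs, kp.sym, kf.sym, ← hc, ← hd, ← mul_assoc]
      have e3 : x = (p + f) * x * (p + f) := by rw [one, one_mul, mul_one]
      nth_rewrite 1 [e3]
      noncomm_ring
    rw [e1, mul_add, mul_add, add_mul, add_mul, hTb _ hx1, Matrix.mul_smul, Matrix.mul_smul,
      Matrix.smul_mul, Matrix.smul_mul, hTp, hTf]) (by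
    rw [Fintype.card_pos_iff]
    by_contra hcon
    rw [not_nonempty_iff] at hcon
    exact kp.ne (by ext i; exact hcon.elim i))
  obtain ⟨hdvd, hsz⟩ := hboth
  -- the squares
  have hspin : SpinJ J := by
    intro x hx
    obtain ⟨c, hc⟩ := kp.scal h hx
    obtain ⟨d, hd⟩ := kf.scal h hx
    have hxs := h.sym x hx
    have hx1 : p * x * f ∈ Sm J p f := by
      refine mem_Sm.2 ⟨?_, ?_, ?_⟩
      · rw [← mul_assoc, ← mul_assoc, kp.idem]
      · rw [mul_assoc _ f f, kf.idem]
      · rw [transpose_mul, transpose_mul, hxs, kp.sym, kf.sym, ← mul_assoc]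
        have e1 := J.sub_mem (J.sub_mem hx (h.pxp kp.mem kp.idem hx)) (h.pxp kf.mem kf.idem hx)
        have e2 : x - p * x * p - f * x * f = p * x * f + f * x * p := by
          have e3 : x = (p + f) * x * (p + f) := by rw [one, one_mul, mul_one]
          nth_rewrite 1 [e3]
          noncomm_ring
        rwa [e2] at e1
    have e1 : x = c • p + d • f + (p * x * f + (p * x * f)ᵀ) := by
      rw [transpose_mul, transpose_mul, hxs, kp.sym, kf.sym, ← hc, ← hd, ← mul_assoc]
      have e3 : x = (p + f) * x * (p + f) := by rw [one, one_mul, mul_one]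
      nth_rewrite 1 [e3]
      noncomm_ring
    obtain ⟨z, hz⟩ : ∃ z, z = p * x * f := ⟨_, rfl⟩
    rw [← hz] at hx1 e1
    obtain ⟨z1, z2, -⟩ := mem_Sm.1 hx1
    obtain ⟨z3, z4, -⟩ := mem_Sm.1 (Sm.tr kp.sym kf.sym hx1)
    have fz : f * z = 0 := by rw [← z1, ← mul_assoc, pf.r, zero_mul]
    have zp : z * p = 0 := by rw [← z2, mul_assoc, pf.r, mul_zero]
    have pz : p * zᵀ = 0 := by rw [← z3, ← mul_assoc, pf.l, zero_mul]
    have zf : zᵀ * f = 0 := by rw [← z4, mul_assoc, pf.l, mul_zero]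
    have e4 := hmul _ hx1 _ hx1
    obtain ⟨γ, hγ⟩ : ∃ γ, γ = trace (z * zᵀ) / r := ⟨_, rfl⟩
    have e5 : (z + zᵀ) * (z + zᵀ) = γ • (1 : Matrix A A ℝ) := by
      have e6 : (2 : ℝ) • ((z + zᵀ) * (z + zᵀ)) = (2 : ℝ) • (γ • (1 : Matrix A A ℝ)) := by
        rw [two_smul ℝ ((z + zᵀ) * (z + zᵀ)), e4, smul_smul, hγ, mul_div_assoc]
      exact smul_right_injective _ (two_ne_zero (α := ℝ)) e6
    -- the trace
    have tz : trace z = 0 := by
      have e6 : z = z * f := z2.symm
      rw [e6, trace_mul_comm, fz, trace_zero]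
    have tx : trace x = (c + d) * r := by
      rw [e1, trace_add, trace_add, trace_add, trace_transpose, trace_smul, trace_smul, tz, hrf,
        ← hr, smul_eq_mul, smul_eq_mul]
      ring
    have hcard : (Fintype.card A : ℝ) = 2 * r := by
      have e6 := congrArg trace one
      rw [trace_add, trace_one, hrf, ← hr] at e6
      rw [← e6]
      ring
    have hcd : 2 * trace x / (Fintype.card A : ℝ) = c + d := by
      rw [tx, hcard]
      field_simp
    refine ⟨γ - c * d, ?_⟩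
    rw [hcd]
    have e7 : x * x = (c • p + d • f) * (c • p + d • f) + ((c • p + d • f) * (z + zᵀ) +
        (z + zᵀ) * (c • p + d • f)) + (z + zᵀ) * (z + zᵀ) := by
      obtain ⟨m, hm⟩ : ∃ m, m = c • p + d • f := ⟨_, rfl⟩
      obtain ⟨z', hz'⟩ : ∃ z', z' = z + zᵀ := ⟨_, rfl⟩
      rw [← hm, ← hz'] at e1 ⊢
      calc x * x = (m + z') * (m + z') := by rw [← e1]
      _ = m * m + (m * z' + z' * m) + z' * z' := by
        rw [add_mul, mul_add, mul_add]
        abel
    have e8 : (c • p + d • f) * (c • p + d • f) = (c * c) • p + (d * d) • f := by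
      rw [add_mul, mul_add, mul_add, Matrix.smul_mul, Matrix.smul_mul, Matrix.smul_mul,
        Matrix.smul_mul, Matrix.mul_smul, Matrix.mul_smul, Matrix.mul_smul, Matrix.mul_smul,
        kp.idem, kf.idem, pf.l, pf.r]
      simp only [smul_zero, smul_smul, add_zero, zero_add]
    have e9 : (c • p + d • f) * (z + zᵀ) + (z + zᵀ) * (c • p + d • f) = (c + d) • (z + zᵀ) := by
      simp only [add_mul, mul_add, Matrix.smul_mul, Matrix.mul_smul, z1, z2, z3, z4, fz, zp, pz, zf,
        smul_zero, add_zero, zero_add]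
      module
    have e10 : (c + d) • x = (c + d) • (c • p + d • f + (z + zᵀ)) := congrArg _ e1
    rw [e7, e8, e9, e5, e10, ← one]
    module
  -- the bounds
  have hrank0 : 0 < p.rank := by
    rw [Nat.pos_iff_ne_zero]
    intro h0
    apply kp.ne
    rw [Matrix.rank, Submodule.finrank_eq_zero] at h0
    refine eqR fun v => ?_
    have h1 : p *ᵥ v ∈ LinearMap.range p.mulVecLin := ⟨v, rfl⟩
    rw [h0, Submodule.mem_bot] at h1
    rw [h1, zero_mulVec]
  have hrk : f.rank = p.rank := by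
    rw [← hyy, ← hyy', Matrix.rank_self_mul_transpose, Matrix.rank_transpose_mul_self]
  have h2m : 2 * p.rank ≤ Fintype.card A := by
    have h1 : LinearMap.range p.mulVecLin ⊓ LinearMap.range f.mulVecLin = ⊥ := by
      rw [eq_bot_iff]
      rintro _ ⟨⟨v, rfl⟩, ⟨w, hw⟩⟩
      rw [mulVecLin_apply, mulVecLin_apply] at hw
      rw [Submodule.mem_bot, mulVecLin_apply]
      have h3 : p *ᵥ (p *ᵥ v) = p *ᵥ v := by rw [mulVec_mulVec, kp.idem]
      rw [← h3, ← hw, mulVec_mulVec, pf.l, zero_mulVec]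
    have h3 := Submodule.finrank_sup_add_finrank_inf_eq (LinearMap.range p.mulVecLin)
      (LinearMap.range f.mulVecLin)
    rw [h1, finrank_bot, add_zero] at h3
    have h4 := Submodule.finrank_le (LinearMap.range p.mulVecLin ⊔ LinearMap.range f.mulVecLin)
    rw [h3, Module.finrank_fintype_fun_eq_card] at h4
    change p.rank + f.rank ≤ Fintype.card A at h4
    omega
  have hcm : finrank ℝ (Sm J p f) ≤ p.rank := by
    obtain ⟨v₀, hv₀⟩ : ∃ v₀, p *ᵥ v₀ ≠ 0 := by
      by_contra hcon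
      push Not at hcon
      exact kp.ne (eqR fun v => by rw [hcon v, zero_mulVec])
    have hpv : p *ᵥ (p *ᵥ v₀) = p *ᵥ v₀ := by rw [mulVec_mulVec, kp.idem]
    let F : Sm J p f →ₗ[ℝ] LinearMap.range f.mulVecLin :=
      { toFun := fun x => ⟨(x : Matrix A A ℝ)ᵀ *ᵥ (p *ᵥ v₀), (x : Matrix A A ℝ)ᵀ *ᵥ (p *ᵥ v₀), by
          rw [mulVecLin_apply, mulVec_mulVec, (mem_Sm.1 (Sm.tr kp.sym kf.sym x.2)).1]⟩
        map_add' := fun x z => Subtype.ext (by
          change ((x + z : Sm J p f) : Matrix A A ℝ)ᵀ *ᵥ _ = (x : Matrix A A ℝ)ᵀ *ᵥ _ +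
            (z : Matrix A A ℝ)ᵀ *ᵥ _
          rw [Submodule.coe_add, transpose_add, add_mulVec])
        map_smul' := fun c x => Subtype.ext (by
          change ((c • x : Sm J p f) : Matrix A A ℝ)ᵀ *ᵥ _ = c • ((x : Matrix A A ℝ)ᵀ *ᵥ _)
          rw [Submodule.coe_smul, transpose_smul, smul_mulVec]) }
    have hF : Function.Injective F := by
      rw [injective_iff_map_eq_zero]
      intro x hx
      have h1 : (x : Matrix A A ℝ)ᵀ *ᵥ (p *ᵥ v₀) = 0 := congrArg Subtype.val hx
      obtain ⟨c, hc⟩ := kp.nrm h kf.sym pf x.2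
      exact Subtype.ext (nrm_inj hc hpv hv₀ h1)
    have h1 := LinearMap.finrank_le_finrank_of_injective hF
    change finrank ℝ (Sm J p f) ≤ f.rank at h1
    omega
  exact (num_aux hdvd hcm h2m hrank0 hsz).imp_right fun h1 => ⟨h1, hspin⟩

end

end Pool.Agent.N994.PG
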