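import Mathlib
import Pool.Agent.N994.PG.JD

/-!
# Jordan algebras of real symmetric matrices with trivial commutant
-/

set_option linter.unusedSectionVars false

namespace Pool.Agent.N994.PG

open Matrix Module

noncomputable section

variable {A : Type*} [Fintype A] [DecidableEq A]

/-- Scaling. -/
theorem scale_norm {p b : Matrix A A ℝ} {c : ℝ} (hc : 0 < c) (hb : b * bᵀ = c • p) :
    ((Real.sqrt c)⁻¹ • b) * ((Real.sqrt c)⁻¹ • b)ᵀ = p := by
  have h1 : Real.sqrt c * Real.sqrt c = c := Real.mul_self_sqrt hc.le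
  have h2 : Real.sqrt c ≠ 0 := (Real.sqrt_pos.2 hc).ne'
  rw [transpose_smul, Matrix.smul_mul, Matrix.mul_smul, hb, smul_smul, smul_smul]
  have h3 : (Real.sqrt c)⁻¹ * (Real.sqrt c)⁻¹ * c = 1 := by
    rw [← mul_inv, h1, inv_mul_cancel₀ hc.ne']
  rw [h3, one_smul]

/-- **Jordan algebras of real symmetric matrices with trivial commutant** contain matrices of rank
one, or the size of the matrices is a power of two and at least sixteen. -/
theorem JA.main {J : Submodule ℝ (Matrix A A ℝ)} (h : JA J) (hJ : J ≠ ⊥) :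
    (∃ x ∈ J, x.rank = 1) ∨
      ((∃ j, 4 ≤ j ∧ j % 4 ≤ 1 ∧ Fintype.card A = 2 ^ j) ∧ SpinJ J) := by
  classical
  obtain ⟨p, hp, hpp, hp0, hmin⟩ := h.exists_min hJ
  have kp : Mi J p := ⟨hp, h.sym p hp, hpp, hp0, hmin⟩
  suffices hsuff : p.rank = 1 ∨
      ((∃ j, 4 ≤ j ∧ j % 4 ≤ 1 ∧ Fintype.card A = 2 ^ j) ∧ SpinJ J) from
    hsuff.imp (fun h1 => ⟨p, hp, h1⟩) id
  by_cases hcomm : ∀ x ∈ J, p * x = x * p
  · -- scalars
    left
    obtain ⟨c, hc⟩ := h.comm p hcomm
    have hc1 : p = 1 := by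
      have h1 : (c * c) • (1 : Matrix A A ℝ) = c • 1 := by
        have h2 := hpp
        rw [hc, Matrix.smul_mul, one_mul, smul_smul] at h2
        exact h2
      have h3 : c ≠ 0 := by
        rintro rfl
        rw [zero_smul] at hc
        exact hp0 hc
      have h4 : c • ((c - 1) • (1 : Matrix A A ℝ)) = 0 := by
        rw [smul_smul, mul_sub, mul_one, sub_smul, h1, sub_self]
      have h5 := (smul_eq_zero.1 h4).resolve_left h3
      rw [sub_smul, one_smul, sub_eq_zero] at h5
      rw [hc, h5]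
    have hall : ∀ T : Matrix A A ℝ, ∃ c : ℝ, T = c • (1 : Matrix A A ℝ) := by
      intro T
      refine h.comm T fun x hx => ?_
      obtain ⟨d, hd⟩ := kp.scal h hx
      rw [hc1, one_mul, mul_one] at hd
      rw [hd, Matrix.mul_smul, Matrix.smul_mul, mul_one, one_mul]
    rw [hc1, Matrix.rank_one]
    have hne : Nonempty A := by
      by_contra hcon
      rw [not_nonempty_iff] at hcon
      exact hp0 (by ext i; exact hcon.elim i)
    rw [Fintype.card_eq_one_iff]
    obtain ⟨a⟩ := hne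
    refine ⟨a, fun b => ?_⟩
    by_contra hba
    obtain ⟨c, hc⟩ := hall (Matrix.single a b 1)
    have h1 := congrFun (congrFun hc a) b
    rw [Matrix.single_apply_same, Matrix.smul_apply, one_apply_ne (Ne.symm hba), smul_zero] at h1
    exact one_ne_zero h1
  push Not at hcomm
  obtain ⟨x, hx, hpx⟩ := hcomm
  have hxs := h.sym x hx
  obtain ⟨e, he⟩ : ∃ e, e = 1 - p := ⟨_, rfl⟩
  have hes : eᵀ = e := by rw [he, transpose_sub, transpose_one, kp.sym]
  have hpe : Og p e := by
    refine ⟨?_, ?_⟩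
    · rw [he, mul_sub, mul_one, hpp, sub_self]
    · rw [he, sub_mul, one_mul, hpp, sub_self]
  have hee : e * e = e := by
    nth_rewrite 2 [he]
    rw [mul_sub, mul_one, hpe.r, sub_zero]
  obtain ⟨b, hbd⟩ : ∃ b, b = p * x * e := ⟨_, rfl⟩
  have hbt : bᵀ = e * x * p := by
    rw [hbd, transpose_mul, transpose_mul, hxs, kp.sym, hes, ← mul_assoc]
  have hb : b ∈ Sm J p e := by
    refine mem_Sm.2 ⟨?_, ?_, ?_⟩
    · rw [hbd, ← mul_assoc, ← mul_assoc, hpp]
    · rw [hbd, mul_assoc _ e e, hee]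
    · rw [hbt, hbd]
      have h1 := J.sub_mem (h.anti hp hx) (J.smul_mem (2 : ℝ) (h.pxp hp hpp hx))
      have h2 : p * x + x * p - (2 : ℝ) • (p * x * p) = p * x * e + e * x * p := by
        rw [he, two_smul]
        noncomm_ring
      rwa [h2] at h1
  have hb0 : b ≠ 0 := by
    intro h0
    apply hpx
    have h1 : p * x = p * x * p := by
      have h2 : b = p * x - p * x * p := by
        rw [hbd, he]
        noncomm_ring
      rw [h0] at h2
      exact (sub_eq_zero.1 h2.symm)
    have h2 := congrArg transpose h1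
    rw [transpose_mul, transpose_mul, transpose_mul, hxs, kp.sym, ← mul_assoc] at h2
    rw [h1, h2]
  obtain ⟨c, hc⟩ := kp.nrm h hes hpe hb
  have hc0 := kp.pos_of hc hb0
  obtain ⟨y, hyd⟩ : ∃ y, y = (Real.sqrt c)⁻¹ • b := ⟨_, rfl⟩
  have hyy : y * yᵀ = p := by rw [hyd]; exact scale_norm hc0 hc
  have hy : y ∈ Sm J p e := by rw [hyd]; exact Submodule.smul_mem _ _ hb
  obtain ⟨y1, y2, y3⟩ := mem_Sm.1 hy
  obtain ⟨y4, y5, -⟩ := mem_Sm.1 (Sm.tr kp.sym hes hy)
  obtain ⟨f, hf⟩ : ∃ f, f = yᵀ * y := ⟨_, rfl⟩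
  have hfs : fᵀ = f := by rw [hf, transpose_mul, transpose_transpose]
  have hff : f * f = f := by
    rw [hf]
    calc yᵀ * y * (yᵀ * y) = yᵀ * (y * yᵀ) * y := by noncomm_ring
    _ = yᵀ * y := by rw [hyy, y5]
  have hyz : y * y = 0 := by
    nth_rewrite 1 [← y2]
    rw [← y1, mul_assoc, ← mul_assoc e, hpe.r, zero_mul, mul_zero]
  have hfJ : f ∈ J := by
    have h1 := J.sub_mem (h.sq _ y3) hp
    have h2 : (y + yᵀ) * (y + yᵀ) - p = f := by
      have h3 : yᵀ * yᵀ = 0 := by rw [← transpose_mul, hyz, transpose_zero]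
      rw [hf, ← hyy]
      simp only [add_mul, mul_add, hyz, h3]
      abel
    rwa [h2] at h1
  have hpf : Og p f := by
    refine ⟨?_, ?_⟩
    · rw [hf, ← y4, ← mul_assoc, ← mul_assoc, hpe.l, zero_mul, zero_mul]
    · rw [hf, mul_assoc]
      nth_rewrite 2 [← y2]
      rw [mul_assoc, hpe.r, mul_zero, mul_zero]
  have hrk : f.rank = p.rank := by
    rw [← hyy, hf, Matrix.rank_self_mul_transpose, Matrix.rank_transpose_mul_self]
  have hf0 : f ≠ 0 := by
    rintro h0
    apply hp0
    have h1 : y * f = y := by rw [hf, ← mul_assoc, hyy, y1]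
    rw [h0, mul_zero] at h1
    rw [← hyy, ← h1, zero_mul]
  have kf : Mi J f := ⟨hfJ, hfs, hff, hf0, fun z hz hz0 => by rw [hrk]; exact hmin z hz hz0⟩
  have hyf : y ∈ Sm J p f := mem_Sm.2 ⟨y1, by rw [hf, ← mul_assoc, hyy, y1], y3⟩
  by_cases hone : p + f = 1
  · exact rank_two h kp kf hpf hone hyy hf.symm
  left
  obtain ⟨q, hq⟩ : ∃ q, q = 1 - p - f := ⟨_, rfl⟩
  have hqs : qᵀ = q := by rw [hq, transpose_sub, transpose_sub, transpose_one, kp.sym, hfs]
  have hpq : Og p q := by
    refine ⟨?_, ?_⟩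
    · rw [hq, mul_sub, mul_sub, mul_one, hpp, hpf.l, sub_self, sub_zero]
    · rw [hq, sub_mul, sub_mul, one_mul, hpp, hpf.r, sub_self, sub_zero]
  have hfq : Og f q := by
    refine ⟨?_, ?_⟩
    · rw [hq, mul_sub, mul_sub, mul_one, hff, hpf.r, sub_zero, sub_self]
    · rw [hq, sub_mul, sub_mul, one_mul, hff, hpf.l, sub_zero, sub_self]
  have hqq : q * q = q := by
    nth_rewrite 2 [hq]
    rw [mul_sub, mul_sub, mul_one, hpq.r, hfq.r, sub_zero, sub_zero]
  have hsum : p + f + q = 1 := by rw [hq]; abel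
  have hgg : (p + f) * (p + f) = p + f := by
    rw [add_mul, mul_add, mul_add, hpp, hff, hpf.l, hpf.r, add_zero, zero_add]
  -- the third idempotent is connected
  obtain ⟨w₀, hw₀, hw0⟩ : ∃ w ∈ Sm J f q, w ≠ 0 := by
    by_contra hcon
    push Not at hcon
    have key : ∀ z ∈ J, (p + f) * z = z * (p + f) := by
      intro z hz
      obtain ⟨z1, z2, z3, z4⟩ := peirce h kp kf hqs hqq hpf hsum hz
      have e1 := hcon _ z3
      have e2 : p * z * q = 0 := by
        have e3 := hcon _ (Sm.mul h hfs kp.sym hqs hpf.symm hpq hfq (Sm.tr kp.sym hfs hyf) z2)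
        have e4 : y * (yᵀ * (p * z * q)) = p * z * q := by
          rw [← mul_assoc, hyy, ← mul_assoc, ← mul_assoc, hpp]
        rw [← e4, e3, mul_zero]
      have e5 : (p + f) * z * q = 0 := by rw [add_mul, add_mul, e1, e2, add_zero]
      have e6 : (p + f) * z = (p + f) * z * (p + f) := by
        have e7 : (p + f) * z = (p + f) * z * (p + f + q) := by rw [hsum, mul_one]
        rw [mul_add ((p + f) * z), e5, add_zero] at e7
        exact e7
      have e8 := congrArg transpose e6
      rw [transpose_mul, transpose_mul, transpose_mul, transpose_add, h.sym z hz, kp.sym, hfs,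
        ← mul_assoc] at e8
      rw [e6, e8]
    obtain ⟨d, hd⟩ := h.comm _ key
    apply hone
    have h1 : (d * d) • (1 : Matrix A A ℝ) = d • 1 := by
      have h2 := hgg
      rw [hd, Matrix.smul_mul, one_mul, smul_smul] at h2
      exact h2
    have h3 : d ≠ 0 := by
      rintro rfl
      rw [zero_smul] at hd
      apply hp0
      have h4 : p * (p + f) = p := by rw [mul_add, hpp, hpf.l, add_zero]
      rw [← h4, hd, mul_zero]
    have h4 : d • ((d - 1) • (1 : Matrix A A ℝ)) = 0 := by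
      rw [smul_smul, mul_sub, mul_one, sub_smul, h1, sub_self]
    have h5 := (smul_eq_zero.1 h4).resolve_left h3
    rw [sub_smul, one_smul, sub_eq_zero] at h5
    rw [hd, h5]
  obtain ⟨d, hd⟩ := kf.nrm h hqs hfq hw₀
  have hd0 := kf.pos_of hd hw0
  have k : Tr3 J p f q y ((Real.sqrt d)⁻¹ • w₀) :=
    { ja := h
      kp := kp
      kf := kf
      qs := hqs
      qq := hqq
      pf := hpf
      pq := hpq
      fq := hfq
      one := hsum
      hy := hyf
      hw := Submodule.smul_mem _ _ hw₀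
      yy := hyy
      ww := scale_norm hd0 hd }
  exact k.rank_one

end

end Pool.Agent.N994.PG
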