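import Mathlib
import Pool.Agent.N994.PG.Ideal
import Pool.Agent.N994.PG.JE
import Pool.Agent.Y90.Ppav

/-!
# Real points of three-graded Lie algebras
-/

set_option linter.unusedSectionVars false

namespace Pool.Agent.N994.PG

open Matrix Module
open Pool.Agent.Y4.G (Lie trace_idemM)
open Pool.Agent.Y4.G.Lie (pos mem_pos)
open Pool.Agent.R915 (pos_ne_bot eq_of_mulVec idem_zero)
open Pool.Agent.Y90 (cc)

open scoped ComplexOrder

noncomputable section

variable {B : Type*} [Fintype B] [DecidableEq B]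

/-- The complexification of a real matrix. -/
def cx {A A' : Type*} (E : Matrix A A' ℝ) : Matrix A A' ℂ := E.map Complex.ofReal

theorem cx_mul {A A' A'' : Type*} [Fintype A'] (E : Matrix A A' ℝ) (F : Matrix A' A'' ℝ) :
    cx (E * F) = cx E * cx F := by
  ext i j
  simp [cx, mul_apply]

theorem cx_transpose {A A' : Type*} (E : Matrix A A' ℝ) : cx Eᵀ = (cx E)ᵀ := by
  ext i j
  rfl

theorem cx_one {A : Type*} [DecidableEq A] : cx (1 : Matrix A A ℝ) = 1 := by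
  ext i j
  simp [cx, one_apply, apply_ite]

theorem cx_cc {A A' : Type*} (E : Matrix A A' ℝ) : (cx E).map cc = cx E := by
  ext i j
  exact Complex.conj_ofReal _

theorem cx_inj {A A' : Type*} {E F : Matrix A A' ℝ} (h : cx E = cx F) : E = F := by
  ext i j
  exact Complex.ofReal_injective (congrFun (congrFun h i) j)

theorem trace_cx (E : Matrix B B ℝ) : trace (cx E) = ((trace E : ℝ) : ℂ) := by
  rw [trace, trace]
  push_cast
  rfl

theorem map_cc_mul {A A' A'' : Type*} [Fintype A'] (X : Matrix A A' ℂ) (Y : Matrix A' A'' ℂ) :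
    (X * Y).map cc = X.map cc * Y.map cc := Matrix.map_mul

theorem map_cc_cc {A A' : Type*} (X : Matrix A A' ℂ) : (X.map cc).map cc = X := by
  ext i j
  exact Complex.conj_conj _

/-- The components with respect to a pair of orthogonal idempotents. -/
theorem gr_formula {P Q X : Matrix B B ℂ} (PP : P * P = P) (QQ : Q * Q = Q) (PQ : P * Q = 0)
    (QP : Q * P = 0) (hl : (P + Q) * X = X) (hr : X * (P + Q) = X) :
    (P - Q) * ((P - Q) * X - X * (P - Q)) - ((P - Q) * X - X * (P - Q)) * (P - Q) +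
      (2 : ℂ) • ((P - Q) * X - X * (P - Q)) = (8 : ℂ) • (P * X * Q) := by
  obtain ⟨x1, h1⟩ : ∃ x1, x1 = P * X * P := ⟨_, rfl⟩
  obtain ⟨x2, h2⟩ : ∃ x2, x2 = P * X * Q := ⟨_, rfl⟩
  obtain ⟨x3, h3⟩ : ∃ x3, x3 = Q * X * P := ⟨_, rfl⟩
  obtain ⟨x4, h4⟩ : ∃ x4, x4 = Q * X * Q := ⟨_, rfl⟩
  have hX2 : X = x1 + x2 + x3 + x4 := by
    nth_rewrite 1 [← hr, ← hl]
    rw [h1, h2, h3, h4]
    noncomm_ring
  have p1 : P * x1 = x1 := by rw [h1, ← mul_assoc, ← mul_assoc, PP]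
  have p2 : P * x2 = x2 := by rw [h2, ← mul_assoc, ← mul_assoc, PP]
  have p3 : P * x3 = 0 := by rw [h3, ← mul_assoc, ← mul_assoc, PQ, zero_mul, zero_mul]
  have p4 : P * x4 = 0 := by rw [h4, ← mul_assoc, ← mul_assoc, PQ, zero_mul, zero_mul]
  have q1 : Q * x1 = 0 := by rw [h1, ← mul_assoc, ← mul_assoc, QP, zero_mul, zero_mul]
  have q2 : Q * x2 = 0 := by rw [h2, ← mul_assoc, ← mul_assoc, QP, zero_mul, zero_mul]
  have q3 : Q * x3 = x3 := by rw [h3, ← mul_assoc, ← mul_assoc, QQ]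
  have q4 : Q * x4 = x4 := by rw [h4, ← mul_assoc, ← mul_assoc, QQ]
  have r1 : x1 * P = x1 := by rw [h1, mul_assoc _ P P, PP]
  have r2 : x2 * P = 0 := by rw [h2, mul_assoc _ Q P, QP, mul_zero]
  have r3 : x3 * P = x3 := by rw [h3, mul_assoc _ P P, PP]
  have r4 : x4 * P = 0 := by rw [h4, mul_assoc _ Q P, QP, mul_zero]
  have s1 : x1 * Q = 0 := by rw [h1, mul_assoc _ P Q, PQ, mul_zero]
  have s2 : x2 * Q = x2 := by rw [h2, mul_assoc _ Q Q, QQ]
  have s3 : x3 * Q = 0 := by rw [h3, mul_assoc _ P Q, PQ, mul_zero]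
  have s4 : x4 * Q = x4 := by rw [h4, mul_assoc _ Q Q, QQ]
  have e1 : (P - Q) * X - X * (P - Q) = (2 : ℂ) • x2 - (2 : ℂ) • x3 := by
    rw [hX2]
    simp only [mul_add, add_mul, sub_mul, mul_sub, p1, p2, p3, p4, q1, q2, q3, q4, r1, r2, r3,
      r4, s1, s2, s3, s4, two_smul]
    abel
  rw [e1, ← h2]
  simp only [mul_sub, sub_mul, Matrix.mul_smul, Matrix.smul_mul, p2, p3, q2, q3, r2, r3, s2, s3,
    smul_zero]
  module

/-- A three-graded Lie algebra of matrices with a real point: `D'` is a grading element and `M` is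
the orthogonal projection to its eigenspace for `-1`. -/
structure RPt (G : Submodule ℂ (Matrix B B ℂ)) (P Q : Matrix B B ℂ) (a : ℕ)
    (D' M : Matrix B B ℂ) : Prop where
  H : Lie G P Q a a
  DG : D' ∈ G
  DD : D' * D' = P + Q
  eM : (P + Q) * M = M
  Me : M * (P + Q) = M
  DM : D' * M = -M
  fix : ∀ v, (P + Q) *ᵥ v = v → D' *ᵥ v = -v → M *ᵥ v = v
  sum : M + (P - Q) * M * (P - Q) = P + Q
  MDM : M * (P - Q) * M = 0

namespace RPt

variable {G : Submodule ℂ (Matrix B B ℂ)} {P Q D' M : Matrix B B ℂ} {a : ℕ} (k : RPt G P Q a D' M)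
include k

theorem symm : RPt G Q P a D' M where
  H := k.H.symm
  DG := k.DG
  DD := by rw [add_comm]; exact k.DD
  eM := by rw [add_comm]; exact k.eM
  Me := by rw [add_comm]; exact k.Me
  DM := k.DM
  fix := by rw [add_comm]; exact k.fix
  sum := by
    rw [add_comm Q P, ← k.sum]
    noncomm_ring
  MDM := by
    have h1 : M * (Q - P) * M = -(M * (P - Q) * M) := by noncomm_ring
    rw [h1, k.MDM, neg_zero]

theorem MM : M * M = M := eq_of_mulVec fun v => by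
  rw [← mulVec_mulVec]
  exact k.fix _ (by rw [mulVec_mulVec, k.eM]) (by rw [mulVec_mulVec, k.DM, neg_mulVec])

theorem PMP : P * M * P = (2 : ℂ)⁻¹ • P := by
  have h1 := congrArg (fun X => P * X * P) k.sum
  beta_reduce at h1
  have h2 : P * (M + (P - Q) * M * (P - Q)) * P = (2 : ℂ) • (P * M * P) := by
    have e1 : P * (P - Q) = P := by rw [mul_sub, k.H.PP, k.H.PQ, sub_zero]
    have e2 : (P - Q) * P = P := by rw [sub_mul, k.H.PP, k.H.QP, sub_zero]
    calc P * (M + (P - Q) * M * (P - Q)) * P =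
        P * M * P + (P * (P - Q)) * M * ((P - Q) * P) := by noncomm_ring
    _ = _ := by rw [e1, e2, two_smul]
  have h3 : P * (P + Q) * P = P := by
    rw [mul_add, k.H.PP, k.H.PQ, add_zero, k.H.PP]
  rw [h2, h3] at h1
  calc P * M * P = (2 : ℂ)⁻¹ • ((2 : ℂ) • (P * M * P)) := by
        rw [smul_smul]
        norm_num
  _ = _ := by rw [h1]

theorem QMQ : Q * M * Q = (2 : ℂ)⁻¹ • Q := k.symm.PMP

theorem MPM : M * P * M = (2 : ℂ)⁻¹ • M := by
  have h1 : (2 : ℂ) • (M * P * M) = M := by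
    have h2 : (2 : ℂ) • (M * P * M) = M * (P + Q) * M + M * (P - Q) * M := by
      rw [two_smul]
      noncomm_ring
    rw [h2, k.Me, k.MDM, add_zero, k.MM]
  calc M * P * M = (2 : ℂ)⁻¹ • ((2 : ℂ) • (M * P * M)) := by
        rw [smul_smul]
        norm_num
  _ = _ := by rw [h1]

theorem MQM : M * Q * M = (2 : ℂ)⁻¹ • M := k.symm.MPM

/-- The elements of the nilradical attached to the real point. -/
theorem nil {X : Matrix B B ℂ} (hX : X ∈ G) (h1 : D' * X = -X) (h2 : X * D' = X) :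
    X = (4 : ℂ) • (M * (Q * X * P) * (P + Q - M)) := by
  have hMX : M * X = X := eq_of_mulVec fun v => by
    rw [← mulVec_mulVec]
    exact k.fix _ (by rw [mulVec_mulVec, k.H.lel X hX]) (by rw [mulVec_mulVec, h1, neg_mulVec])
  have hXM : X * M = 0 := by
    have h3 : X * M = -(X * M) := by
      nth_rewrite 1 [← h2]
      rw [mul_assoc, k.DM, mul_neg]
    have h4 : (2 : ℂ) • (X * M) = 0 := by
      rw [two_smul]
      nth_rewrite 1 [h3]
      rw [neg_add_cancel]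
    exact (smul_eq_zero.1 h4).resolve_left two_ne_zero
  have e1 : M * Q * X = (2 : ℂ)⁻¹ • X := by
    nth_rewrite 1 [← hMX]
    rw [← mul_assoc, k.MQM, Matrix.smul_mul, hMX]
  have e2 : X * P * (P + Q - M) = (2 : ℂ)⁻¹ • X := by
    have e3 : X * (P + Q - M) = X := by rw [mul_sub, k.H.ler X hX, hXM, sub_zero]
    have e4 : (P + Q - M) * P * (P + Q - M) = (2 : ℂ)⁻¹ • (P + Q - M) := by
      have e5 : P + Q - M = (P - Q) * M * (P - Q) := by rw [← k.sum, add_sub_cancel_left]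
      have e6 : (P - Q) * P * (P - Q) = P := by
        rw [sub_mul, k.H.PP, k.H.QP, sub_zero, mul_sub, k.H.PP, k.H.PQ, sub_zero]
      rw [e5]
      calc (P - Q) * M * (P - Q) * P * ((P - Q) * M * (P - Q)) =
          (P - Q) * (M * ((P - Q) * P * (P - Q)) * M) * (P - Q) := by noncomm_ring
      _ = (P - Q) * ((2 : ℂ)⁻¹ • M) * (P - Q) := by rw [e6, k.MPM]
      _ = _ := by rw [Matrix.mul_smul, Matrix.smul_mul]
    nth_rewrite 1 [← e3]
    calc X * (P + Q - M) * P * (P + Q - M) = X * ((P + Q - M) * P * (P + Q - M)) := by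
          noncomm_ring
    _ = _ := by rw [e4, Matrix.mul_smul, e3]
  calc X = (4 : ℂ) • ((2 : ℂ)⁻¹ • ((2 : ℂ)⁻¹ • X)) := by
        rw [smul_smul, smul_smul]
        norm_num
  _ = (4 : ℂ) • ((2 : ℂ)⁻¹ • (X * P * (P + Q - M))) := by rw [e2]
  _ = (4 : ℂ) • (((2 : ℂ)⁻¹ • X) * P * (P + Q - M)) := by rw [Matrix.smul_mul, Matrix.smul_mul]
  _ = (4 : ℂ) • (M * (Q * X * P) * (P + Q - M)) := by
        rw [← e1]
        congr 1
        noncomm_ring

/-- The idempotents attached to the real point. -/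
theorem idem : ((2 : ℂ)⁻¹ • (P + Q + D')) * ((2 : ℂ)⁻¹ • (P + Q + D')) = (2 : ℂ)⁻¹ • (P + Q + D') ∧
    ((2 : ℂ)⁻¹ • (P + Q - D')) * ((2 : ℂ)⁻¹ • (P + Q - D')) = (2 : ℂ)⁻¹ • (P + Q - D') ∧
    ((2 : ℂ)⁻¹ • (P + Q + D')) * ((2 : ℂ)⁻¹ • (P + Q - D')) = 0 ∧
    ((2 : ℂ)⁻¹ • (P + Q - D')) * ((2 : ℂ)⁻¹ • (P + Q + D')) = 0 := by
  have ee : (P + Q) * (P + Q) = P + Q := by
    rw [mul_add, add_mul, add_mul, k.H.PP, k.H.QP, k.H.PQ, k.H.QQ, add_zero, zero_add]
  have e1 := k.H.lel D' k.DG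
  have e2 := k.H.ler D' k.DG
  have e3 := k.DD
  obtain ⟨e, he⟩ : ∃ e, e = P + Q := ⟨_, rfl⟩
  rw [← he] at ee e1 e2 e3 ⊢
  refine ⟨?_, ?_, ?_, ?_⟩ <;>
    rw [Matrix.smul_mul, Matrix.mul_smul, smul_smul]
  · have h1 : (e + D') * (e + D') = (2 : ℂ) • (e + D') := by
      rw [mul_add, add_mul, add_mul, ee, e1, e2, e3, two_smul]
      abel
    rw [h1, smul_smul]
    norm_num
  · have h1 : (e - D') * (e - D') = (2 : ℂ) • (e - D') := by
      rw [mul_sub, sub_mul, sub_mul, ee, e1, e2, e3, two_smul]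
      abel
    rw [h1, smul_smul]
    norm_num
  · have h1 : (e + D') * (e - D') = 0 := by
      rw [mul_sub, add_mul, add_mul, ee, e1, e2, e3]
      abel
    rw [h1, smul_zero]
  · have h1 : (e - D') * (e + D') = 0 := by
      rw [mul_add, sub_mul, sub_mul, ee, e1, e2, e3]
      abel
    rw [h1, smul_zero]

/-- The components with respect to the real point. -/
theorem grG {X : Matrix B B ℂ} (hX : X ∈ G) :
    ((2 : ℂ)⁻¹ • (P + Q + D')) * X * ((2 : ℂ)⁻¹ • (P + Q - D')) ∈ G ∧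
    ((2 : ℂ)⁻¹ • (P + Q - D')) * X * ((2 : ℂ)⁻¹ • (P + Q + D')) ∈ G := by
  obtain ⟨h1, h2, h3, h4⟩ := k.idem
  obtain ⟨F, hF⟩ : ∃ F, F = (2 : ℂ)⁻¹ • (P + Q + D') := ⟨_, rfl⟩
  obtain ⟨E, hE⟩ : ∃ E, E = (2 : ℂ)⁻¹ • (P + Q - D') := ⟨_, rfl⟩
  have hsum : F + E = P + Q := by
    rw [hF, hE, ← smul_add]
    have : P + Q + D' + (P + Q - D') = (2 : ℂ) • (P + Q) := by
      rw [two_smul]
      abel
    rw [this, smul_smul]
    norm_num
  have hdif : F - E = D' := by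
    rw [hF, hE, ← smul_sub]
    have : P + Q + D' - (P + Q - D') = (2 : ℂ) • D' := by
      rw [two_smul]
      abel
    rw [this, smul_smul]
    norm_num
  rw [← hF] at h1 h3 h4 ⊢
  rw [← hE] at h2 h3 h4 ⊢
  have key : ∀ (F' E' : Matrix B B ℂ), F' * F' = F' → E' * E' = E' → F' * E' = 0 → E' * F' = 0 →
      F' + E' = P + Q → F' - E' ∈ G → F' * X * E' ∈ G := by
    intro F' E' g1 g2 g3 g4 g5 g6
    have e1 := gr_formula (X := X) g1 g2 g3 g4 (by rw [g5, k.H.lel X hX])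
      (by rw [g5, k.H.ler X hX])
    have e2 := k.H.br _ g6 _ hX
    have e3 := G.smul_mem (8 : ℂ)⁻¹ (G.add_mem (k.H.br _ g6 _ e2) (G.smul_mem (2 : ℂ) e2))
    rw [e1, smul_smul, inv_mul_cancel₀ (by norm_num), one_smul] at e3
    exact e3
  refine ⟨key F E h1 h2 h3 h4 hsum (by rw [hdif]; exact k.DG),
    key E F h2 h1 h4 h3 (by rw [add_comm, hsum]) ?_⟩
  have h5 : E - F = -D' := by rw [← hdif, neg_sub]
  rw [h5]
  exact G.neg_mem k.DG

end RPt

end

end Pool.Agent.N994.PG
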