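import Mathlib
import Pool.Agent.N994.PG.JF

/-!
# Opposite involutions in a Lie algebra of matrices
-/

set_option linter.unusedSectionVars false

namespace Pool.Agent.N994.PG

open Matrix Module
open Pool.Agent.R915 (eq_of_mulVec)
open Pool.Agent.Y90 (cc)

noncomputable section

variable {B : Type*} [Fintype B] [DecidableEq B]

/-- The halves of an involution. -/
def hp (T : Matrix B B ℂ) : Matrix B B ℂ := (2 : ℂ)⁻¹ • (1 + T)

theorem hp_add (T : Matrix B B ℂ) : hp T + hp (-T) = 1 := by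
  unfold hp
  rw [← smul_add]
  have : (1 + T + (1 + -T) : Matrix B B ℂ) = (2 : ℂ) • 1 := by
    rw [two_smul]
    abel
  rw [this, smul_smul, inv_mul_cancel₀ (by norm_num), one_smul]

theorem hp_sub (T : Matrix B B ℂ) : hp T - hp (-T) = T := by
  unfold hp
  rw [← smul_sub]
  have : (1 + T - (1 + -T) : Matrix B B ℂ) = (2 : ℂ) • T := by
    rw [two_smul]
    abel
  rw [this, smul_smul, inv_mul_cancel₀ (by norm_num), one_smul]

theorem hp_idem {T : Matrix B B ℂ} (h : T * T = 1) : hp T * hp T = hp T := by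
  unfold hp
  rw [Matrix.smul_mul, Matrix.mul_smul, smul_smul]
  have : ((1 + T) * (1 + T) : Matrix B B ℂ) = (2 : ℂ) • (1 + T) := by
    rw [mul_add, add_mul, add_mul, h, one_mul, one_mul, mul_one, two_smul]
    abel
  rw [this, smul_smul]
  norm_num

theorem hp_orth {T : Matrix B B ℂ} (h : T * T = 1) : hp T * hp (-T) = 0 := by
  unfold hp
  rw [Matrix.smul_mul, Matrix.mul_smul, smul_smul]
  have : ((1 + T) * (1 + -T) : Matrix B B ℂ) = 0 := by
    rw [mul_add, add_mul, add_mul, mul_neg, mul_neg, h, one_mul, one_mul, mul_one]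
    abel
  rw [this, smul_zero]

theorem hp_mulT {T : Matrix B B ℂ} (h : T * T = 1) : T * hp T = hp T := by
  unfold hp
  rw [Matrix.mul_smul, mul_add, h, mul_one, add_comm]

theorem hp_Tmul {T : Matrix B B ℂ} (h : T * T = 1) : hp T * T = hp T := by
  unfold hp
  rw [Matrix.smul_mul, add_mul, h, one_mul, add_comm]

/-- The components with respect to an involution. -/
theorem comp_mem {L : Submodule ℂ (Matrix B B ℂ)} (hbr : ∀ X ∈ L, ∀ Y ∈ L, X * Y - Y * X ∈ L)
    {T : Matrix B B ℂ} (hT : T ∈ L) (hTT : T * T = 1) {X : Matrix B B ℂ} (hX : X ∈ L) :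
    hp T * X * hp (-T) ∈ L := by
  have hTT' : (-T) * (-T) = 1 := by rw [neg_mul_neg, hTT]
  have e1 := gr_formula (P := hp T) (Q := hp (-T)) (X := X) (hp_idem hTT) (hp_idem hTT')
    (hp_orth hTT) (by
      have := hp_orth hTT'
      rwa [neg_neg] at this) (by rw [hp_add, one_mul]) (by rw [hp_add, mul_one])
  rw [hp_sub] at e1
  have e2 := hbr _ hT _ hX
  have e3 := L.smul_mem (8 : ℂ)⁻¹ (L.add_mem (hbr _ hT _ e2) (L.smul_mem (2 : ℂ) e2))
  rw [e1, smul_smul, inv_mul_cancel₀ (by norm_num), one_smul] at e3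
  exact e3

/-- **Opposite involutions.** -/
theorem exists_unip {L : Submodule ℂ (Matrix B B ℂ)}
    (hbr : ∀ X ∈ L, ∀ Y ∈ L, X * Y - Y * X ∈ L) {T T₃ : Matrix B B ℂ} (hT : T ∈ L)
    (hTT : T * T = 1) (hT₃ : T₃ ∈ L) (hTT₃ : T₃ * T₃ = 1)
    (h1 : ∀ v, T *ᵥ v = -v → T₃ *ᵥ v = -v → v = 0)
    (h2 : ∀ v, T *ᵥ v = v → T₃ *ᵥ v = v → v = 0) :
    ∃ x ∈ L, T * x = -x ∧ x * T = x ∧
      ∀ v, T₃ *ᵥ v = -v ↔ ∃ w, T *ᵥ w = w ∧ v = w + x *ᵥ w := by
  have hTT' : (-T) * (-T) = 1 := by rw [neg_mul_neg, hTT]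
  have hTT₃' : (-T₃) * (-T₃) = 1 := by rw [neg_mul_neg, hTT₃]
  obtain ⟨P, hP⟩ : ∃ P, P = hp T := ⟨_, rfl⟩
  obtain ⟨M, hM⟩ : ∃ M, M = hp (-T) := ⟨_, rfl⟩
  obtain ⟨Q, hQ⟩ : ∃ Q, Q = hp (-T₃) := ⟨_, rfl⟩
  have hPP : P * P = P := by rw [hP, hp_idem hTT]
  have hMM : M * M = M := by rw [hM, hp_idem hTT']
  have hPM : P * M = 0 := by rw [hP, hM, hp_orth hTT]
  have hMP : M * P = 0 := by
    have := hp_orth hTT'
    rw [neg_neg] at this
    rw [hP, hM, this]
  have hPMa : P + M = 1 := by rw [hP, hM, hp_add]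
  have hPMs : P - M = T := by rw [hP, hM, hp_sub]
  have hQQ : Q * Q = Q := by rw [hQ, hp_idem hTT₃']
  have hTQ : T₃ = 1 - (2 : ℂ) • Q := by
    have e1 := hp_add T₃
    have e2 := hp_sub T₃
    rw [← hQ] at e1 e2
    rw [← e2, ← e1, two_smul]
    abel
  have hTP : T * P = P := by rw [hP, hp_mulT hTT]
  have hTM : T * M = -M := by
    have := hp_mulT hTT'
    rw [← hM, neg_mul] at this
    rw [← this, neg_neg, this]
  have hMT : M * T = -M := by
    have := hp_Tmul hTT'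
    rw [← hM, mul_neg] at this
    rw [← this, neg_neg, this]
  have hPT : P * T = P := by rw [hP, hp_Tmul hTT]
  -- the invertible matrix
  obtain ⟨δ, hδ⟩ : ∃ δ, δ = P * Q * P + M := ⟨_, rfl⟩
  have hMδ : M * δ = M := by
    rw [hδ, mul_add, hMM, ← mul_assoc, ← mul_assoc, hMP, zero_mul, zero_mul, zero_add]
  have hδM : δ * M = M := by
    rw [hδ, add_mul, hMM, mul_assoc, hPM, mul_zero, zero_add]
  have hinj : ∀ v, δ *ᵥ v = 0 → v = 0 := by
    intro v hv
    have e1 : M *ᵥ v = 0 := by rw [← hMδ, ← mulVec_mulVec, hv, mulVec_zero]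
    have e2 : P *ᵥ v = v := by
      have : (P + M) *ᵥ v = v := by rw [hPMa, one_mulVec]
      rwa [add_mulVec, e1, add_zero] at this
    have e3 : P *ᵥ (Q *ᵥ v) = 0 := by
      rw [hδ, add_mulVec, e1, add_zero, ← mulVec_mulVec, ← mulVec_mulVec, e2] at hv
      exact hv
    have e4 : T *ᵥ (Q *ᵥ v) = -(Q *ᵥ v) := by
      have : (P + M) *ᵥ (Q *ᵥ v) = Q *ᵥ v := by rw [hPMa, one_mulVec]
      rw [add_mulVec, e3, zero_add] at this
      rw [← hPMs, sub_mulVec, e3, this, zero_sub]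
    have e5 : T₃ *ᵥ (Q *ᵥ v) = -(Q *ᵥ v) := by
      rw [hTQ, sub_mulVec, one_mulVec, smul_mulVec, mulVec_mulVec, hQQ, two_smul]
      abel
    have e6 := h1 _ e4 e5
    refine h2 v (by rw [← e2, mulVec_mulVec, hTP]) ?_
    rw [hTQ, sub_mulVec, one_mulVec, smul_mulVec, e6, smul_zero, sub_zero]
  have hdet : IsUnit δ.det := by
    rw [isUnit_iff_ne_zero]
    intro h0
    obtain ⟨v, hv, hv'⟩ := Matrix.exists_mulVec_eq_zero_iff.2 h0
    exact hv (hinj v hv')
  have hδi : δ * δ⁻¹ = 1 := Matrix.mul_nonsing_inv δ hdet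
  have hδi' : δ⁻¹ * δ = 1 := Matrix.nonsing_inv_mul δ hdet
  obtain ⟨γ, hγ⟩ : ∃ γ, γ = M * Q * P := ⟨_, rfl⟩
  obtain ⟨x, hx⟩ : ∃ x, x = γ * δ⁻¹ := ⟨_, rfl⟩
  have hxδ : x * δ = γ := by rw [hx, mul_assoc, hδi', mul_one]
  have hMγ : M * γ = γ := by rw [hγ, ← mul_assoc, ← mul_assoc, hMM]
  have hMx : M * x = x := by rw [hx, ← mul_assoc, hMγ]
  have hγM : γ * M = 0 := by rw [hγ, mul_assoc, hPM, mul_zero]
  have hxM : x * M = 0 := by
    have : δ⁻¹ * M = M := by
      nth_rewrite 1 [← hδM]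
      rw [← mul_assoc, hδi', one_mul]
    rw [hx, mul_assoc, this, hγM]
  have hPx : P * x = 0 := by rw [← hMx, ← mul_assoc, hPM, zero_mul]
  have hxP : x * P = x := by
    have : x * (P + M) = x := by rw [hPMa, mul_one]
    rwa [mul_add, hxM, add_zero] at this
  have hPQP : P * Q * P = δ - M := by rw [hδ, add_sub_cancel_right]
  -- the second identity
  have hid : M * Q * M * x = x - γ := by
    have e1 : γ * (P * Q * P) + M * Q * M * γ = γ := by
      have : M * Q * (P + M) * Q * P = M * Q * P := by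
        rw [hPMa, mul_one, mul_assoc M Q Q, hQQ]
      calc γ * (P * Q * P) + M * Q * M * γ = M * Q * (P * P) * Q * P + M * Q * (M * M) * Q * P := by
            rw [hγ]
            noncomm_ring
      _ = M * Q * (P + M) * Q * P := by
            rw [hPP, hMM]
            noncomm_ring
      _ = γ := by rw [this, hγ]
    have e2 : (M * Q * M * x - (x - γ)) * δ = 0 := by
      rw [hPQP, mul_sub, hγM, sub_zero] at e1
      rw [sub_mul, mul_assoc (M * Q * M), hxδ, sub_mul, hxδ]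
      rw [sub_eq_zero, eq_sub_iff_add_eq, add_comm]
      exact e1
    have e3 := congrArg (fun X => X * δ⁻¹) e2
    beta_reduce at e3
    rw [mul_assoc, hδi, mul_one, zero_mul, sub_eq_zero] at e3
    exact e3
  -- powers
  have hdiag : 1 - (2 : ℂ) • (P * Q * P + M * Q * M) ∈ L := by
    have e1 := comp_mem hbr hT hTT hT₃
    have e2 := comp_mem hbr (L.neg_mem hT) hTT' hT₃
    rw [neg_neg, ← hM, ← hP] at e2
    rw [← hM, ← hP] at e1
    have e3 := L.sub_mem (L.sub_mem hT₃ e1) e2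
    have e4 : T₃ - P * T₃ * M - M * T₃ * P = 1 - (2 : ℂ) • (P * Q * P + M * Q * M) := by
      have a1 : T₃ = (P + M) * T₃ * (P + M) := by rw [hPMa, one_mul, mul_one]
      have a2 : (P + M) * T₃ * (P + M) - P * T₃ * M - M * T₃ * P = P * T₃ * P + M * T₃ * M := by
        noncomm_ring
      have a3 : T₃ - P * T₃ * M - M * T₃ * P =
          (P + M) * T₃ * (P + M) - P * T₃ * M - M * T₃ * P := by rw [← a1]
      rw [a3, a2, hTQ]
      have a4 : P * (1 - (2 : ℂ) • Q) * P + M * (1 - (2 : ℂ) • Q) * M =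
          P * P + M * M - (2 : ℂ) • (P * Q * P + M * Q * M) := by
        simp only [mul_sub, sub_mul, mul_one, Matrix.mul_smul, Matrix.smul_mul, smul_add]
        abel
      rw [a4, hPP, hMM, hPMa]
    rwa [e4] at e3
  have hγL : γ ∈ L := by
    have e2 := comp_mem hbr (L.neg_mem hT) hTT' hT₃
    rw [neg_neg, ← hM, ← hP] at e2
    have e3 := L.smul_mem (-(2 : ℂ)⁻¹) e2
    have e4 : -(2 : ℂ)⁻¹ • (M * T₃ * P) = γ := by
      rw [hTQ, hγ, mul_sub, sub_mul, mul_one, hMP, zero_sub, Matrix.mul_smul, Matrix.smul_mul,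
        smul_neg, neg_smul, neg_neg, smul_smul]
      norm_num
    rwa [e4] at e3
  have hδn : ∀ n : ℕ, δ ^ n * M = M := by
    intro n
    induction n with
    | zero => rw [pow_zero, one_mul]
    | succ n ih => rw [pow_succ, mul_assoc, hδM, ih]
  have hpow : ∀ n : ℕ, x * δ ^ (n + 1) ∈ L := by
    intro n
    induction n with
    | zero => rw [zero_add, pow_one, hxδ]; exact hγL
    | succ n ih =>
      obtain ⟨v, hv⟩ : ∃ v, v = x * δ ^ (n + 1) := ⟨_, rfl⟩
      rw [← hv] at ih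
      have hPv : P * v = 0 := by rw [hv, ← mul_assoc, hPx, zero_mul]
      have hvM : v * M = 0 := by rw [hv, mul_assoc, hδn, hxM]
      have e1 : v * (P * Q * P) = x * δ ^ (n + 1 + 1) := by
        rw [hPQP, mul_sub, hvM, sub_zero, hv, mul_assoc, ← pow_succ]
      have e2 : M * Q * M * v = v - x * δ ^ (n + 1 + 1) := by
        rw [hv, ← mul_assoc, hid, sub_mul, ← hxδ, mul_assoc x δ, ← pow_succ']
      have e3 := hbr _ hdiag _ ih
      have e4 : (1 - (2 : ℂ) • (P * Q * P + M * Q * M)) * v -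
          v * (1 - (2 : ℂ) • (P * Q * P + M * Q * M)) =
          (4 : ℂ) • (x * δ ^ (n + 1 + 1)) - (2 : ℂ) • v := by
        have a1 : P * Q * P * v = 0 := by rw [mul_assoc, hPv, mul_zero]
        have a2 : v * (M * Q * M) = 0 := by rw [← mul_assoc, ← mul_assoc, hvM, zero_mul, zero_mul]
        have a3 : (1 - (2 : ℂ) • (P * Q * P + M * Q * M)) * v -
          v * (1 - (2 : ℂ) • (P * Q * P + M * Q * M)) =
            (2 : ℂ) • (v * (P * Q * P) + v * (M * Q * M) - P * Q * P * v - M * Q * M * v) := by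
          rw [sub_mul, mul_sub, one_mul, mul_one, Matrix.smul_mul, Matrix.mul_smul, add_mul, mul_add]
          module
        rw [a3, a1, a2, e1, e2]
        module
      rw [e4] at e3
      have e5 := L.smul_mem (4 : ℂ)⁻¹ (L.add_mem e3 (L.smul_mem (2 : ℂ) ih))
      rw [sub_add_cancel, smul_smul, inv_mul_cancel₀ (by norm_num), one_smul] at e5
      exact e5
  have hxL : x ∈ L := by
    have hpoly : ∀ q : Polynomial ℂ, x * (Polynomial.aeval δ q * δ) ∈ L := by
      intro q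
      induction q using Polynomial.induction_on' with
      | add q r hq hr => rw [map_add, add_mul, mul_add]; exact L.add_mem hq hr
      | monomial n c =>
        rw [Polynomial.aeval_monomial, mul_assoc, ← pow_succ, ← Algebra.smul_def,
          Matrix.mul_smul]
        exact L.smul_mem _ (hpow n)
    have hc0 : δ.charpoly.coeff 0 ≠ 0 := by
      intro h0
      have h3 := Matrix.det_eq_sign_charpoly_coeff δ
      rw [h0, mul_zero] at h3
      exact hdet.ne_zero h3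
    have e1 := Matrix.aeval_self_charpoly δ
    rw [← Polynomial.divX_mul_X_add δ.charpoly, map_add, map_mul, Polynomial.aeval_X,
      Polynomial.aeval_C] at e1
    have e2 : x * (Polynomial.aeval δ δ.charpoly.divX * δ) = -(δ.charpoly.coeff 0 • x) := by
      have e3 := congrArg (fun X => x * X) e1
      beta_reduce at e3
      rw [mul_add, mul_zero, ← Algebra.commutes, ← Algebra.smul_def] at e3
      exact eq_neg_of_add_eq_zero_left e3
    have e3 := L.smul_mem (-(δ.charpoly.coeff 0)⁻¹) (hpoly δ.charpoly.divX)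
    rw [e2, smul_neg, neg_smul, neg_neg, smul_smul, inv_mul_cancel₀ hc0, one_smul] at e3
    exact e3
  refine ⟨x, hxL, ?_, ?_, fun v => ?_⟩
  · rw [← hMx, ← mul_assoc, hTM, neg_mul]
  · rw [← hxP, mul_assoc, hPT]
  have hgr : ∀ w, T *ᵥ w = w → T₃ *ᵥ (w + x *ᵥ w) = -(w + x *ᵥ w) := by
    intro w hw
    have hPw : P *ᵥ w = w := by
      rw [hP, hp, smul_mulVec, add_mulVec, one_mulVec, hw, ← two_smul ℂ w, smul_smul,
        inv_mul_cancel₀ (by norm_num), one_smul]
    have hMw : M *ᵥ w = 0 := by rw [← hPw, mulVec_mulVec, hMP, zero_mulVec]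
    obtain ⟨w', hw'⟩ : ∃ w', w' = δ⁻¹ *ᵥ w := ⟨_, rfl⟩
    have hδw : δ *ᵥ w' = w := by rw [hw', mulVec_mulVec, hδi, one_mulVec]
    have hMw' : M *ᵥ w' = 0 := by
      have : M *ᵥ (δ *ᵥ w') = M *ᵥ w' := by rw [mulVec_mulVec, hMδ]
      rw [← this, hδw, hMw]
    have hPw' : P *ᵥ w' = w' := by
      have : (P + M) *ᵥ w' = w' := by rw [hPMa, one_mulVec]
      rwa [add_mulVec, hMw', add_zero] at this
    have e1 : w + x *ᵥ w = Q *ᵥ w' := by
      have a1 : w = P *ᵥ (Q *ᵥ w') := by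
        rw [← hδw, hδ, add_mulVec, hMw', add_zero, ← mulVec_mulVec, ← mulVec_mulVec, hPw']
      have a2 : x *ᵥ w = M *ᵥ (Q *ᵥ w') := by
        rw [← hδw, mulVec_mulVec, hxδ, hγ, ← mulVec_mulVec, ← mulVec_mulVec, hPw']
      calc w + x *ᵥ w = P *ᵥ (Q *ᵥ w') + M *ᵥ (Q *ᵥ w') := by rw [← a1, a2]
      _ = (P + M) *ᵥ (Q *ᵥ w') := by rw [add_mulVec]
      _ = Q *ᵥ w' := by rw [hPMa, one_mulVec]
    rw [e1, hTQ, sub_mulVec, one_mulVec, smul_mulVec, mulVec_mulVec, hQQ, two_smul]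
    abel
  constructor
  · intro hv
    obtain ⟨w, hw⟩ : ∃ w, w = P *ᵥ v := ⟨_, rfl⟩
    have hTw : T *ᵥ w = w := by rw [hw, mulVec_mulVec, hTP]
    refine ⟨w, hTw, ?_⟩
    have e1 := hgr w hTw
    rw [← sub_eq_zero]
    refine h1 _ ?_ ?_
    · have e2 : P *ᵥ (v - (w + x *ᵥ w)) = 0 := by
        have a1 : P *ᵥ (x *ᵥ w) = 0 := by rw [mulVec_mulVec, hPx, zero_mulVec]
        rw [mulVec_sub, mulVec_add, a1, add_zero, hw, mulVec_mulVec, hPP, sub_self]
      have e3 : (P + M) *ᵥ (v - (w + x *ᵥ w)) = v - (w + x *ᵥ w) := by rw [hPMa, one_mulVec]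
      rw [add_mulVec, e2, zero_add] at e3
      rw [← hPMs, sub_mulVec, e2, e3, zero_sub]
    · rw [mulVec_sub, hv, e1, neg_sub_neg, neg_sub]
  · rintro ⟨w, hw, rfl⟩
    exact hgr w hw

end

end Pool.Agent.N994.PG
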