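import Mathlib
import Pool.Agent.N994.PG.KA
import Pool.Agent.N994.PG.Fod

/-!
# Orbits of subspaces and their Pluecker coordinates
-/

set_option linter.unusedSectionVars false

namespace Pool.Agent.N994.PG

open Matrix Module
open Pool.Agent.R915 (eq_of_mulVec)
open Pool.Agent.Y90 (cc)

noncomputable section

variable {B : Type*} [Fintype B] [DecidableEq B]

/-- Unipotent elements and involutions. -/
def Gen (L : Submodule ℂ (Matrix B B ℂ)) : Set (Matrix B B ℂ) :=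
  {γ | (γ - 1 ∈ L ∧ (γ - 1) * (γ - 1) = 0) ∨
    ∃ T ∈ L, T * T = 1 ∧ ∃ a b : ℂ, a * a - b * b ≠ 0 ∧ γ = a • 1 + b • T}

/-- The group generated by the unipotent elements and the involutions. -/
def GrU (L : Submodule ℂ (Matrix B B ℂ)) : Submonoid (Matrix B B ℂ) := Submonoid.closure (Gen L)

variable {L : Submodule ℂ (Matrix B B ℂ)}

/-- Linear combinations of the unit and an involution. -/
theorem lin_invol {T : Matrix B B ℂ} (hTT : T * T = 1) {a b : ℂ} (hab : a * a - b * b ≠ 0) :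
    (a • 1 + b • T) * ((a * (a * a - b * b)⁻¹) • 1 + (-b * (a * a - b * b)⁻¹) • T) = 1 ∧
    ((a * (a * a - b * b)⁻¹) • 1 + (-b * (a * a - b * b)⁻¹) • T) * (a • 1 + b • T) = 1 := by
  obtain ⟨c, hc⟩ : ∃ c, c = (a * a - b * b)⁻¹ := ⟨_, rfl⟩
  have h1 : (a * a - b * b) * c = 1 := by rw [hc, mul_inv_cancel₀ hab]
  rw [← hc]
  have e1 : (a • 1 + b • T) * ((a * c) • 1 + (-b * c) • T) = ((a * a - b * b) * c) • 1 := by
    simp only [mul_add, add_mul, Matrix.smul_mul, Matrix.mul_smul, one_mul, mul_one, smul_smul, hTT]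
    module
  have e2 : ((a * c) • 1 + (-b * c) • T) * (a • 1 + b • T) = ((a * a - b * b) * c) • 1 := by
    simp only [mul_add, add_mul, Matrix.smul_mul, Matrix.mul_smul, one_mul, mul_one, smul_smul, hTT]
    module
  rw [e1, e2, h1, one_smul]
  exact ⟨rfl, rfl⟩

theorem Gen_inv {γ : Matrix B B ℂ} (h : γ ∈ Gen L) : ∃ γ' ∈ Gen L, γ * γ' = 1 ∧ γ' * γ = 1 := by
  rcases h with ⟨h1, h2⟩ | ⟨T, hT, hTT, a, b, hab, rfl⟩
  · have h3 : γ * γ - γ - γ + 1 = 0 := by
      rw [← h2]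
      noncomm_ring
    refine ⟨1 - (γ - 1), Or.inl ⟨?_, ?_⟩, ?_, ?_⟩
    · have : 1 - (γ - 1) - 1 = -(γ - 1) := by abel
      rw [this]
      exact L.neg_mem h1
    · have : (1 - (γ - 1) - 1) * (1 - (γ - 1) - 1) = (γ - 1) * (γ - 1) := by noncomm_ring
      rw [this, h2]
    · have : γ * (1 - (γ - 1)) = 1 - (γ * γ - γ - γ + 1) := by noncomm_ring
      rw [this, h3, sub_zero]
    · have : (1 - (γ - 1)) * γ = 1 - (γ * γ - γ - γ + 1) := by noncomm_ring
      rw [this, h3, sub_zero]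
  · obtain ⟨h1, h2⟩ := lin_invol hTT hab
    refine ⟨_, Or.inr ⟨T, hT, hTT, a * (a * a - b * b)⁻¹, -b * (a * a - b * b)⁻¹, ?_, rfl⟩, h1, h2⟩
    have : a * (a * a - b * b)⁻¹ * (a * (a * a - b * b)⁻¹) -
        -b * (a * a - b * b)⁻¹ * (-b * (a * a - b * b)⁻¹) =
        (a * a - b * b) * (a * a - b * b)⁻¹ * (a * a - b * b)⁻¹ := by ring
    rw [this, mul_inv_cancel₀ hab, one_mul]
    exact inv_ne_zero hab

theorem GrU_inv {γ : Matrix B B ℂ} (h : γ ∈ GrU L) : ∃ γ' ∈ GrU L, γ * γ' = 1 ∧ γ' * γ = 1 := by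
  unfold GrU at h
  induction h using Submonoid.closure_induction with
  | mem x hx =>
    obtain ⟨y, hy, h1, h2⟩ := Gen_inv hx
    exact ⟨y, Submonoid.subset_closure hy, h1, h2⟩
  | one => exact ⟨1, Submonoid.one_mem _, mul_one _, mul_one _⟩
  | mul x y _ _ hx hy =>
    obtain ⟨x', hx', h1, h2⟩ := hx
    obtain ⟨y', hy', h3, h4⟩ := hy
    refine ⟨y' * x', Submonoid.mul_mem _ hy' hx', ?_, ?_⟩
    · calc x * y * (y' * x') = x * (y * y') * x' := by noncomm_ring
      _ = 1 := by rw [h3, mul_one, h1]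
    · calc y' * x' * (x * y) = y' * (x' * x) * y := by noncomm_ring
      _ = 1 := by rw [h2, mul_one, h4]

theorem GrU_map (hg : ∀ (σ : ℂ ≃+* ℂ), ∀ X ∈ L, X.map σ ∈ L) (σ : ℂ ≃+* ℂ) {γ : Matrix B B ℂ}
    (h : γ ∈ GrU L) : γ.map σ ∈ GrU L := by
  have hone : (1 : Matrix B B ℂ).map σ = 1 := Matrix.map_one _ (map_zero σ) (map_one σ)
  have hsub : ∀ X Y : Matrix B B ℂ, (X - Y).map σ = X.map σ - Y.map σ :=
    fun X Y => Matrix.map_sub _ (map_sub σ) _ _
  unfold GrU at h ⊢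
  induction h using Submonoid.closure_induction with
  | mem x hx =>
    refine Submonoid.subset_closure ?_
    rcases hx with ⟨h1, h2⟩ | ⟨T, hT, hTT, a, b, hab, rfl⟩
    · left
      have h3 := hg σ _ h1
      rw [hsub, hone] at h3
      refine ⟨h3, ?_⟩
      have h4 := congrArg (fun X => X.map σ) h2
      beta_reduce at h4
      rw [Matrix.map_mul, hsub, hone, Matrix.map_zero _ (map_zero σ)] at h4
      exact h4
    · right
      refine ⟨T.map σ, hg σ _ hT, by rw [← Matrix.map_mul, hTT, hone], σ a, σ b, fun h0 => hab ?_,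
        ?_⟩
      · apply σ.injective
        rw [map_sub, map_mul, map_mul, h0, map_zero]
      · ext i j
        simp only [map_apply, Matrix.add_apply, Matrix.smul_apply, smul_eq_mul, map_add, map_mul,
          Matrix.one_apply]
        split_ifs <;> simp
  | one => rw [hone]; exact Submonoid.one_mem _
  | mul x y _ _ hx hy => rw [Matrix.map_mul]; exact Submonoid.mul_mem _ hx hy

/-! ### Pluecker coordinates -/

variable {d : ℕ}

/-- The Pluecker coordinates of the span of the columns. -/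
def pl (A : Matrix B (Fin d) ℂ) : (Fin d → B) → ℂ := fun f => det (A.submatrix f id)

theorem pl_mul (A : Matrix B (Fin d) ℂ) (C : Matrix (Fin d) (Fin d) ℂ) :
    pl (A * C) = C.det • pl A := by
  funext f
  have h1 : (A * C).submatrix f id = A.submatrix f id * C := by
    ext i j
    rfl
  rw [pl, h1, det_mul, mul_comm, Pi.smul_apply, smul_eq_mul, pl]

theorem pl_map (σ : ℂ ≃+* ℂ) (A : Matrix B (Fin d) ℂ) (f : Fin d → B) :
    pl (A.map σ) f = σ (pl A f) := by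
  have h1 : (A.map σ).submatrix f id = ((A.submatrix f id).map (σ : ℂ →+* ℂ)) := rfl
  rw [pl, h1, pl]
  exact (RingHom.map_det (σ : ℂ →+* ℂ) (A.submatrix f id)).symm

theorem det_pl (R : Matrix (Fin d) B ℂ) (A : Matrix B (Fin d) ℂ) :
    det (R * A) = ∑ f : Fin d → B, (∏ i, R i (f i)) * pl A f := by
  have h1 : det (R * A) = (detRowAlternating : (Fin d → ℂ) [⋀^Fin d]→ₗ[ℂ] ℂ).toMultilinearMap
      fun i => ∑ b, R i b • A b := by
    change det (R * A) = det (Matrix.of fun i => ∑ b, R i b • A b)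
    congr 1
    ext i j
    rw [mul_apply, of_apply, Finset.sum_apply]
    rfl
  rw [h1, MultilinearMap.map_sum]
  refine Finset.sum_congr rfl fun f _ => ?_
  rw [MultilinearMap.map_smul_univ, smul_eq_mul]
  rfl

/-- The span of the Pluecker coordinates of the translates. -/
def Epl (L : Submodule ℂ (Matrix B B ℂ)) (A : Matrix B (Fin d) ℂ) :
    Submodule ℂ (Matrix (Fin d → B) (Fin d → B) ℂ) :=
  Submodule.span ℂ {X | ∃ γ ∈ GrU L, X = diagonal (pl (γ * A))}

theorem Epl_mem (A : Matrix B (Fin d) ℂ) : diagonal (pl A) ∈ Epl L A :=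
  Submodule.subset_span ⟨1, Submonoid.one_mem _, by rw [Matrix.one_mul]⟩

theorem Epl_mul_le (A : Matrix B (Fin d) ℂ) (C : Matrix (Fin d) (Fin d) ℂ) :
    Epl L (A * C) ≤ Epl L A := by
  refine Submodule.span_le.2 ?_
  rintro _ ⟨γ, hγ, rfl⟩
  rw [← Matrix.mul_assoc, pl_mul, diagonal_smul]
  exact (Epl L A).smul_mem _ (Submodule.subset_span ⟨γ, hγ, rfl⟩)

theorem Epl_left_le (A : Matrix B (Fin d) ℂ) {γ : Matrix B B ℂ} (hγ : γ ∈ GrU L) :
    Epl L (γ * A) ≤ Epl L A := by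
  refine Submodule.span_le.2 ?_
  rintro _ ⟨γ', hγ', rfl⟩
  rw [← Matrix.mul_assoc]
  exact Submodule.subset_span ⟨γ' * γ, Submonoid.mul_mem _ hγ' hγ, rfl⟩

/-- Subspaces in the same orbit. -/
theorem Epl_eq {A A' : Matrix B (Fin d) ℂ} {γ : Matrix B B ℂ} (hγ : γ ∈ GrU L)
    {C : Matrix (Fin d) (Fin d) ℂ} (hC : C.det ≠ 0) (h : γ * A = A' * C) :
    Epl L A = Epl L A' := by
  obtain ⟨γ', hγ', h1, h2⟩ := GrU_inv hγ
  have hC' : C * C⁻¹ = 1 := Matrix.mul_nonsing_inv C (isUnit_iff_ne_zero.2 hC)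
  refine le_antisymm ?_ ?_
  · have h3 : A = γ' * (A' * C) := by rw [← h, ← Matrix.mul_assoc, h2, Matrix.one_mul]
    rw [h3]
    exact (Epl_left_le _ hγ').trans (Epl_mul_le _ _)
  · have h3 : A' = (γ * A) * C⁻¹ := by rw [h, Matrix.mul_assoc, hC', Matrix.mul_one]
    rw [h3]
    exact (Epl_mul_le _ _).trans (Epl_left_le _ hγ)

theorem Epl_map_le (hg : ∀ (σ : ℂ ≃+* ℂ), ∀ X ∈ L, X.map σ ∈ L) (σ : ℂ ≃+* ℂ)
    (A : Matrix B (Fin d) ℂ) : Epl L (A.map σ) ≤ cjM σ (Epl L A) := by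
  refine Submodule.span_le.2 ?_
  rintro _ ⟨γ, hγ, rfl⟩
  refine Submodule.subset_span ⟨γ.map σ.symm, GrU_map hg σ.symm hγ, ?_⟩
  have h1 : γ.map σ.symm * A = (γ * A.map σ).map σ.symm := by
    have h2 : (A.map σ).map σ.symm = A := by
      ext i j
      exact σ.symm_apply_apply _
    rw [Matrix.map_mul, h2]
  rw [h1]
  ext f f'
  rw [map_apply, diagonal_apply, diagonal_apply]
  split_ifs with h2
  · rw [pl_map]
  · exact map_zero _

theorem Epl_map (hg : ∀ (σ : ℂ ≃+* ℂ), ∀ X ∈ L, X.map σ ∈ L) (σ : ℂ ≃+* ℂ)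
    (A : Matrix B (Fin d) ℂ) : cjM σ (Epl L A) = Epl L (A.map σ) := by
  refine le_antisymm ?_ (Epl_map_le hg σ A)
  have h1 := Epl_map_le (L := L) hg σ.symm (A.map σ)
  have h2 : (A.map σ).map σ.symm = A := by
    ext i j
    exact σ.symm_apply_apply _
  rw [h2] at h1
  have h3 := cjM_mono (σ := σ) h1
  rwa [cjM_symm] at h3

/-- Subspaces with the same span of the translates. -/
theorem exists_transl {A A' : Matrix B (Fin d) ℂ} (h : Epl L A = Epl L A')
    {R : Matrix (Fin d) B ℂ} (hR : det (R * A') ≠ 0) : ∃ γ ∈ GrU L, det (R * (γ * A)) ≠ 0 := by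
  by_contra hcon
  push Not at hcon
  apply hR
  have key : ∀ X ∈ Epl L A, ∑ f : Fin d → B, (∏ i, R i (f i)) * X f f = 0 := by
    intro X hX
    unfold Epl at hX
    induction hX using Submodule.span_induction with
    | mem x hx =>
      obtain ⟨γ, hγ, rfl⟩ := hx
      have h1 := hcon γ hγ
      rw [det_pl] at h1
      rw [← h1]
      refine Finset.sum_congr rfl fun f _ => ?_
      rw [diagonal_apply_eq]
    | zero => simp
    | add x y _ _ hx hy =>
      simp only [Matrix.add_apply, mul_add, Finset.sum_add_distrib, hx, hy, add_zero]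
    | smul c x _ hx =>
      have h1 : ∀ f : Fin d → B, (∏ i, R i (f i)) * (c • x) f f =
          c * ((∏ i, R i (f i)) * x f f) := by
        intro f
        rw [Matrix.smul_apply, smul_eq_mul]
        ring
      simp only [h1]
      rw [← Finset.mul_sum, hx, mul_zero]
  have h1 := key (diagonal (pl A')) (by rw [h]; exact Epl_mem A')
  rw [det_pl, ← h1]
  refine Finset.sum_congr rfl fun f _ => ?_
  rw [diagonal_apply_eq]

/-! ### Paths -/

/-- Invertible elements which normalize the Lie algebra and preserve the stable subspaces. -/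
def NN (L : Submodule ℂ (Matrix B B ℂ)) (γ : Matrix B B ℂ) : Prop :=
  ∃ δ, γ * δ = 1 ∧ δ * γ = 1 ∧ (∀ X ∈ L, γ * X * δ ∈ L) ∧
    ∀ V : Submodule ℂ (B → ℂ), (∀ X ∈ L, ∀ v ∈ V, X *ᵥ v ∈ V) → ∀ v ∈ V, γ *ᵥ v ∈ V ∧ δ *ᵥ v ∈ V

theorem NN.mul {γ γ' : Matrix B B ℂ} (h : NN L γ) (h' : NN L γ') : NN L (γ * γ') := by
  obtain ⟨δ, h1, h2, h3, h3'⟩ := h
  obtain ⟨δ', h4, h5, h6, h6'⟩ := h'
  refine ⟨δ' * δ, ?_, ?_, fun X hX => ?_, fun V hV v hv => ?_⟩
  · calc γ * γ' * (δ' * δ) = γ * (γ' * δ') * δ := by noncomm_ring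
    _ = 1 := by rw [h4, mul_one, h1]
  · calc δ' * δ * (γ * γ') = δ' * (δ * γ) * γ' := by noncomm_ring
    _ = 1 := by rw [h2, mul_one, h5]
  · have h7 := h3 _ (h6 X hX)
    have h8 : γ * γ' * X * (δ' * δ) = γ * (γ' * X * δ') * δ := by noncomm_ring
    rwa [h8]
  · rw [← mulVec_mulVec, ← mulVec_mulVec]
    exact ⟨(h3' V hV _ (h6' V hV v hv).1).1, (h6' V hV _ (h3' V hV v hv).2).2⟩

theorem conj_unip (hbr : ∀ X ∈ L, ∀ Y ∈ L, X * Y - Y * X ∈ L) {N : Matrix B B ℂ} (hN : N ∈ L)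
    (hNN : N * N = 0) : NN L (1 + N) := by
  refine ⟨1 - N, ?_, ?_, fun X hX => ?_, fun V hV v hv => ?_⟩
  · have : (1 + N) * (1 - N) = 1 - N * N := by noncomm_ring
    rw [this, hNN, sub_zero]
  · have : (1 - N) * (1 + N) = 1 - N * N := by noncomm_ring
    rw [this, hNN, sub_zero]
  · have h1 := hbr _ hN _ (hbr _ hN _ hX)
    have h2 : N * (N * X - X * N) - (N * X - X * N) * N = -(2 : ℂ) • (N * X * N) := by
      have : N * (N * X - X * N) - (N * X - X * N) * N =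
          (N * N) * X + X * (N * N) - (N * X * N + N * X * N) := by noncomm_ring
      rw [this, hNN, zero_mul, mul_zero, add_zero, zero_sub, neg_smul, two_smul]
    rw [h2] at h1
    have h3 := L.smul_mem (2 : ℂ)⁻¹ h1
    rw [smul_smul] at h3
    have h4 : (1 + N) * X * (1 - N) = X + (N * X - X * N) +
        (((2 : ℂ)⁻¹ * -(2 : ℂ)) • (N * X * N)) := by
      have : ((2 : ℂ)⁻¹ * -(2 : ℂ)) = -1 := by norm_num
      rw [this, neg_one_smul]
      noncomm_ring
    rw [h4]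
    exact L.add_mem (L.add_mem hX (hbr _ hN _ hX)) h3
  · rw [add_mulVec, sub_mulVec, one_mulVec]
    exact ⟨V.add_mem hv (hV N hN v hv), V.sub_mem hv (hV N hN v hv)⟩

theorem invol_mem (hbr : ∀ X ∈ L, ∀ Y ∈ L, X * Y - Y * X ∈ L) {T X : Matrix B B ℂ} (hT : T ∈ L)
    (hTT : T * T = 1) (hX : X ∈ L) : T * X * T ∈ L := by
  have h1 := hbr _ hT _ (hbr _ hT _ hX)
  have h2 : T * (T * X - X * T) - (T * X - X * T) * T = (2 : ℂ) • X - (2 : ℂ) • (T * X * T) := by
    have : T * (T * X - X * T) - (T * X - X * T) * T =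
        (T * T) * X + X * (T * T) - (T * X * T + T * X * T) := by noncomm_ring
    rw [this, hTT, one_mul, mul_one, two_smul, two_smul]
  rw [h2] at h1
  have h3 := L.sub_mem hX (L.smul_mem (2 : ℂ)⁻¹ h1)
  have h4 : X - (2 : ℂ)⁻¹ • ((2 : ℂ) • X - (2 : ℂ) • (T * X * T)) = T * X * T := by
    rw [smul_sub, smul_smul, smul_smul, inv_mul_cancel₀ (by norm_num), one_smul, one_smul]
    abel
  rwa [h4] at h3

theorem conj_invol (hbr : ∀ X ∈ L, ∀ Y ∈ L, X * Y - Y * X ∈ L) {T : Matrix B B ℂ} (hT : T ∈ L)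
    (hTT : T * T = 1) {a b : ℂ} (hs : a * a - b * b ≠ 0) : NN L (a • 1 + b • T) := by
  obtain ⟨h1, h2⟩ := lin_invol hTT hs
  obtain ⟨c, hc⟩ : ∃ c, c = (a * a - b * b)⁻¹ := ⟨_, rfl⟩
  rw [← hc] at h1 h2
  refine ⟨_, h1, h2, fun X hX => ?_, fun V hV v hv => ?_⟩
  · have e3 : (a • 1 + b • T) * X * ((a * c) • 1 + (-b * c) • T) =
        c • ((a * a) • X + (b * a) • (T * X - X * T) - (b * b) • (T * X * T)) := by
      simp only [mul_add, add_mul, Matrix.smul_mul, Matrix.mul_smul, one_mul, mul_one, smul_smul]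
      module
    rw [e3]
    exact L.smul_mem _ (L.sub_mem (L.add_mem (L.smul_mem _ hX) (L.smul_mem _ (hbr _ hT _ hX)))
      (L.smul_mem _ (invol_mem hbr hT hTT hX)))
  · rw [add_mulVec, add_mulVec, smul_mulVec, smul_mulVec, smul_mulVec, smul_mulVec, one_mulVec]
    exact ⟨V.add_mem (V.smul_mem _ hv) (V.smul_mem _ (hV T hT v hv)),
      V.add_mem (V.smul_mem _ hv) (V.smul_mem _ (hV T hT v hv))⟩

open Polynomial in
/-- Endpoints of paths. -/
def PC (L : Submodule ℂ (Matrix B B ℂ)) (γ : Matrix B B ℂ) : Prop :=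
  ∃ (Φ : Matrix B B ℂ[X]) (q : ℂ[X]), q.eval 0 ≠ 0 ∧ q.eval 1 ≠ 0 ∧
    Φ.map (evalRingHom 0) = 1 ∧ Φ.map (evalRingHom 1) = γ ∧
      ∀ s, q.eval s ≠ 0 → NN L (Φ.map (evalRingHom s))

open Polynomial in
theorem PC.mul {γ γ' : Matrix B B ℂ} (h : PC L γ) (h' : PC L γ') : PC L (γ * γ') := by
  obtain ⟨Φ, q, h1, h1', h2, h3, h4⟩ := h
  obtain ⟨Φ', q', h5, h5', h6, h7, h8⟩ := h'
  refine ⟨Φ * Φ', q * q', ?_, ?_, ?_, ?_, fun s hs => ?_⟩
  · rw [eval_mul]
    exact mul_ne_zero h1 h5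
  · rw [eval_mul]
    exact mul_ne_zero h1' h5'
  · rw [Matrix.map_mul, h2, h6, mul_one]
  · rw [Matrix.map_mul, h3, h7]
  · rw [eval_mul] at hs
    rw [Matrix.map_mul]
    exact (h4 s (left_ne_zero_of_mul hs)).mul (h8 s (right_ne_zero_of_mul hs))

open Polynomial in
theorem PC.one : PC L (1 : Matrix B B ℂ) := by
  have hone : ∀ s : ℂ, (1 : Matrix B B ℂ[X]).map (evalRingHom s) = 1 := fun s =>
    Matrix.map_one _ (map_zero _) (map_one _)
  refine ⟨1, 1, by simp, by simp, hone 0, hone 1, fun s _ => ?_⟩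
  rw [hone]
  exact ⟨1, mul_one _, mul_one _, fun X hX => by rwa [one_mul, mul_one], fun V _ v hv => by
    rw [one_mulVec]
    exact ⟨hv, hv⟩⟩

open Polynomial in
/-- Paths in the group. -/
theorem exists_path' (hbr : ∀ X ∈ L, ∀ Y ∈ L, X * Y - Y * X ∈ L) {γ : Matrix B B ℂ}
    (h : γ ∈ GrU L) : PC L γ := by
  unfold GrU at h
  induction h using Submonoid.closure_induction with
  | mem x hx =>
    have e0 : ∀ s : ℂ, (((1 - X : ℂ[X]) • (1 : Matrix B B ℂ[X]) + (X : ℂ[X]) • x.map C).map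
        (evalRingHom s)) = (1 - s) • 1 + s • x := by
      intro s
      ext i j
      rw [map_apply, Matrix.add_apply, Matrix.smul_apply, Matrix.smul_apply, map_apply,
        Matrix.add_apply, Matrix.smul_apply, Matrix.smul_apply, Matrix.one_apply, Matrix.one_apply]
      split_ifs <;>
      · simp
        ring
    have e1 : (((1 - X : ℂ[X]) • (1 : Matrix B B ℂ[X]) + (X : ℂ[X]) • x.map C).map
        (evalRingHom 0)) = 1 := by
      rw [e0, sub_zero, one_smul, zero_smul, add_zero]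
    have e2 : (((1 - X : ℂ[X]) • (1 : Matrix B B ℂ[X]) + (X : ℂ[X]) • x.map C).map
        (evalRingHom 1)) = x := by
      rw [e0, sub_self, zero_smul, one_smul, zero_add]
    rcases hx with ⟨h1, h2⟩ | ⟨T, hT, hTT, a, b, hab, hx⟩
    · refine ⟨_, 1, by simp, by simp, e1, e2, fun s _ => ?_⟩
      rw [e0]
      have h3 : (1 - s) • 1 + s • x = 1 + s • (x - 1) := by module
      rw [h3]
      refine conj_unip hbr (L.smul_mem _ h1) ?_
      rw [Matrix.smul_mul, Matrix.mul_smul, h2, smul_zero, smul_zero]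
    · refine ⟨_, (1 - X + X * C a) * (1 - X + X * C a) - (X * C b) * (X * C b), by simp,
        by simpa using hab, e1, e2, fun s hs => ?_⟩
      rw [e0]
      have h3 : (1 - s) • 1 + s • x = (1 - s + s * a) • 1 + (s * b) • T := by
        rw [hx]
        module
      rw [h3]
      refine conj_invol hbr hT hTT fun h0 => hs ?_
      simp only [eval_sub, eval_mul, eval_add, eval_one, eval_X, eval_C]
      linear_combination h0
  | one => exact PC.one
  | mul x y _ _ hx hy => exact hx.mul hy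

open Polynomial in
theorem PC.gen {γ : Matrix B B ℂ} (h : PC L γ) : ∃ (Φ : Matrix B B ℂ[X]) (q : ℂ[X]),
    q.eval 0 ≠ 0 ∧ q.eval 1 ≠ 0 ∧ Φ.map (evalRingHom 0) = 1 ∧ Φ.map (evalRingHom 1) = γ ∧
      ∀ s, q.eval s ≠ 0 → PC L (Φ.map (evalRingHom s)) := by
  obtain ⟨Φ, q, h1, h1', h2, h3, h4⟩ := h
  refine ⟨Φ, q, h1, h1', h2, h3, fun s hs => ?_⟩
  have key : ∀ t : ℂ, (Φ.map (compRingHom (C s * X))).map (evalRingHom t) =
      Φ.map (evalRingHom (s * t)) := by
    intro t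
    ext i j
    simp [eval_comp]
  refine ⟨Φ.map (compRingHom (C s * X)), q.comp (C s * X), ?_, ?_, ?_, ?_, fun t ht => ?_⟩
  · rw [eval_comp]
    simpa using h1
  · rw [eval_comp]
    simpa using hs
  · rw [key, mul_zero, h2]
  · rw [key, mul_one]
  · rw [key]
    refine h4 _ ?_
    rw [eval_comp] at ht
    simpa using ht

open Polynomial in
/-- **Translates in general position.** -/
theorem exists_general (hbr : ∀ X ∈ L, ∀ Y ∈ L, X * Y - Y * X ∈ L)
    {A₁ A₂ : Matrix B (Fin d) ℂ} {R₁ R₂ : Matrix (Fin d) B ℂ} (h1 : det (R₂ * A₁) ≠ 0)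
    (h2 : det (R₁ * A₂) ≠ 0) {γ : Matrix B B ℂ} (h : γ ∈ GrU L)
    (h3 : det (R₁ * (γ * A₁)) ≠ 0) : ∃ γ', NN L γ' ∧ det (R₂ * (γ' * A₁)) ≠ 0 ∧
      det (R₁ * (γ' * A₂)) ≠ 0 ∧ det (R₁ * (γ' * A₁)) ≠ 0 := by
  obtain ⟨Φ, q, hq0, -, hΦ0, hΦ1, hN⟩ := exists_path' hbr h
  have hq : q ≠ 0 := fun h0 => hq0 (by rw [h0, eval_zero])
  have key : ∀ (R : Matrix (Fin d) B ℂ) (A : Matrix B (Fin d) ℂ), ∃ p : ℂ[X], ∀ s : ℂ,
      p.eval s = det (R * (Φ.map (evalRingHom s) * A)) := by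
    intro R A
    refine ⟨det (R.map C * (Φ * A.map C)), fun s => ?_⟩
    have e1 := RingHom.map_det (evalRingHom s) (R.map C * (Φ * A.map C))
    have e2 : (evalRingHom s).mapMatrix (R.map C * (Φ * A.map C)) =
        R * (Φ.map (evalRingHom s) * A) := by
      rw [RingHom.mapMatrix_apply, Matrix.map_mul, Matrix.map_mul]
      congr 1
      · ext i j
        simp
      · congr 1
        ext i j
        simp
    rw [e2] at e1
    exact e1
  obtain ⟨p1, hp1⟩ := key R₂ A₁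
  obtain ⟨p2, hp2⟩ := key R₁ A₂
  obtain ⟨p3, hp3⟩ := key R₁ A₁
  have hp1' : p1 ≠ 0 := by
    intro h0
    have := hp1 0
    rw [hΦ0, Matrix.one_mul, h0, eval_zero] at this
    exact h1 this.symm
  have hp2' : p2 ≠ 0 := by
    intro h0
    have := hp2 0
    rw [hΦ0, Matrix.one_mul, h0, eval_zero] at this
    exact h2 this.symm
  have hp3' : p3 ≠ 0 := by
    intro h0
    have := hp3 1
    rw [hΦ1, h0, eval_zero] at this
    exact h3 this.symm
  have hprod : p1 * p2 * p3 * q ≠ 0 := mul_ne_zero (mul_ne_zero (mul_ne_zero hp1' hp2') hp3') hq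
  obtain ⟨s, hs⟩ : ∃ s, (p1 * p2 * p3 * q).eval s ≠ 0 := by
    by_contra hcon
    push Not at hcon
    exact hprod (Polynomial.funext fun s => by rw [hcon s, eval_zero])
  rw [eval_mul, eval_mul, eval_mul, hp1, hp2, hp3] at hs
  exact ⟨_, hN s (right_ne_zero_of_mul hs),
    left_ne_zero_of_mul (left_ne_zero_of_mul (left_ne_zero_of_mul hs)),
    right_ne_zero_of_mul (left_ne_zero_of_mul (left_ne_zero_of_mul hs)),
    right_ne_zero_of_mul (left_ne_zero_of_mul hs)⟩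

end

end Pool.Agent.N994.PG
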