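import Mathlib
import Pool.Agent.N994.PG.KB
import Pool.Agent.N994.PG.Ext
import Pool.Agent.W437.HD.Var

/-!
# Period fields without imaginary quadratic subfields: the conjugate subspaces are opposite to
themselves
-/

set_option linter.unusedSectionVars false

namespace Pool.Agent.N994.PG

open Matrix Module Pool.Agent.W437.HC Pool.Agent.W437.HD Pool.Agent.TH504.CB Pool.Agent.Y90
  Pool.Agent.R915
open Pool.Agent.W548.Odd hiding cv
open Pool.Agent.N994.PF (rs Zk InL Ed Sys PP PP_eq comb card_emb)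
open Pool.Agent.Y4 (exists_aut_emb)

open scoped ComplexOrder

noncomputable section

variable {g : ℕ} {Z : Matrix (Fin g) (Fin g) ℂ} {k : IntermediateField ℚ ℂ}

/-- **Reflex fields.** Families of subspaces for which the complex conjugation commutes with the
automorphisms. -/
theorem blocks_cm [Countable k] (hE : RealMoves k) (hN : NoImagQuad k) {B : Type*} [Fintype B]
    [DecidableEq B] (P : (k →+* ℂ) → Submodule ℂ (Matrix B B ℂ))
    (hP : ∀ (τ : ℂ ≃+* ℂ) (p : k →+* ℂ), P ((τ : ℂ →+* ℂ).comp p) = cjM τ (P p))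
    (hbar : ∀ σ : ℂ ≃+* ℂ, P (rs k (cc.trans σ)) = P ((cc : ℂ →+* ℂ).comp (rs k σ))) :
    P (rs k cc) = P (rs k (RingEquiv.refl ℂ)) := by
  obtain ⟨A, hA⟩ := exists_fod (P (rs k (RingEquiv.refl ℂ)))
  have hrs : ∀ σ : ℂ ≃+* ℂ, rs k σ = (σ : ℂ →+* ℂ).comp (rs k (RingEquiv.refl ℂ)) := fun σ => rfl
  -- the field of definition
  have hAk : ∀ a ∈ A, a ∈ k := by
    intro a ha
    refine mem_of_fixed k fun σ hσ => (hA σ).1 ?_ a ha
    rw [← hP]
    congr 1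
    ext x
    exact hσ x x.2
  let F : IntermediateField ℚ ℂ := IntermediateField.adjoin ℚ A
  have hFk : F ≤ k := IntermediateField.adjoin_le_iff.2 hAk
  have _ : Countable F := (IntermediateField.inclusion hFk).injective.countable
  have hfix : ∀ σ ρ : ℂ ≃+* ℂ, (∀ a ∈ A, σ a = ρ a) → ∀ x ∈ F, σ x = ρ x := by
    intro σ ρ hσ x hx
    induction hx using IntermediateField.adjoin_induction with
    | mem x hx => exact hσ x hx
    | algebraMap q => simp
    | add x y _ _ h1 h2 => rw [map_add, map_add, h1, h2]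
    | inv x _ h1 => rw [map_inv₀, map_inv₀, h1]
    | mul x y _ _ h1 h2 => rw [map_mul, map_mul, h1, h2]
  have hA' : ∀ σ ρ : ℂ ≃+* ℂ, P (rs k σ) = P (rs k ρ) → ∀ a ∈ A, σ a = ρ a := by
    intro σ ρ h1 a ha
    rw [hrs σ, hrs ρ, hP, hP] at h1
    have h2 := (hA (σ.trans ρ.symm)).1 (by
      rw [cjM_trans, h1, cjM_symm']) a ha
    have h3 : ρ.symm (σ a) = a := h2
    rw [← h3, ρ.apply_symm_apply, h3]
  -- the complex conjugation commutes with the automorphisms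
  have hcomm : ∀ (σ : ℂ ≃+* ℂ), ∀ x ∈ F, σ (cc x) = cc (σ x) := by
    intro σ x hx
    have h1 : P (rs k (cc.trans σ)) = P (rs k (σ.trans cc)) := by
      rw [hbar σ]
      rfl
    exact hfix _ _ (hA' _ _ h1) x hx
  -- the real subfield
  let F₀ : IntermediateField ℚ ℂ :=
    { carrier := {x | x ∈ F ∧ cc x = x}
      mul_mem' := fun {x y} hx hy => ⟨F.mul_mem hx.1 hy.1, by rw [map_mul, hx.2, hy.2]⟩
      add_mem' := fun {x y} hx hy => ⟨F.add_mem hx.1 hy.1, by rw [map_add, hx.2, hy.2]⟩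
      algebraMap_mem' := fun q => ⟨F.algebraMap_mem q, by simp⟩
      inv_mem' := fun x hx => ⟨F.inv_mem hx.1, by rw [map_inv₀, hx.2]⟩ }
  have hF₀m : ∀ x, x ∈ F₀ ↔ x ∈ F ∧ cc x = x := fun _ => Iff.rfl
  have hF₀ : F₀ ≤ F := fun x hx => hx.1
  have _ : Countable F₀ := (IntermediateField.inclusion hF₀).injective.countable
  have htr : ∀ (τ : F₀ →+* ℂ) (x : F₀), (τ x).im = 0 := by
    intro τ x
    obtain ⟨ρ, hρ⟩ := exists_aut_emb' (algebraMap F₀ ℂ) τ
    have h4 : τ x = ρ (x : ℂ) := (congrArg (fun f : F₀ →+* ℂ => f x) hρ).symm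
    rw [h4]
    have h5 := hcomm ρ x x.2.1
    rw [x.2.2] at h5
    exact Complex.conj_eq_iff_im.1 h5.symm
  have hreal : ∀ x ∈ F, cc x = x := by
    by_cases hr : ∃ r : k →+* ℂ, ∀ x, (r x).im = 0
    · obtain ⟨r, hr⟩ := hr
      obtain ⟨ρ, hρ⟩ := exists_aut_emb' (algebraMap k ℂ) r
      intro x hx
      have h1 := hcomm ρ x hx
      have h2 : ρ x = r ⟨x, hFk hx⟩ :=
        congrArg (fun f : k →+* ℂ => f ⟨x, hFk hx⟩) hρ
      have h3 : cc (ρ x) = ρ x := by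
        rw [h2]
        exact Complex.conj_eq_iff_im.2 (hr _)
      rw [h3] at h1
      exact ρ.injective h1
    · have hb : F₀ = ⊥ := by
        by_contra hb
        obtain ⟨r, hr', -⟩ := hE F₀ (hF₀.trans hFk) hb htr
        exact hr ⟨r, hr'⟩
      intro x hx
      have hcx : cc x ∈ F := by
        refine mem_of_fixed F fun σ hσ => ?_
        rw [hcomm σ x hx, hσ x hx]
      obtain ⟨y, hy⟩ : ∃ y, y = x - cc x := ⟨_, rfl⟩
      have hccx : cc (cc x) = x := Complex.conj_conj x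
      have hyF : y ∈ F := by rw [hy]; exact F.sub_mem hx hcx
      have hcy : cc y = -y := by rw [hy, map_sub, hccx, neg_sub]
      have hyy : y ^ 2 ∈ F₀ := ⟨F.pow_mem hyF 2, by rw [map_pow, hcy, neg_sq]⟩
      rw [hb, IntermediateField.mem_bot] at hyy
      obtain ⟨q, hq⟩ := hyy
      have hq' : (y : ℂ) ^ 2 = (q : ℂ) := by
        rw [← hq]
        simp
      have hyre : y.re = 0 := by
        have h1 := congrArg Complex.re hcy
        rw [Complex.neg_re] at h1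
        have h2 : (cc y).re = y.re := Complex.conj_re y
        rw [h2] at h1
        linarith
      have hqre : -(y.im * y.im) = (q : ℝ) := by
        have h1 := congrArg Complex.re hq'
        rw [pow_two, Complex.mul_re, hyre, Complex.ratCast_re] at h1
        linarith
      have hq0 : 0 ≤ q := by
        by_contra hcon
        push Not at hcon
        exact hN y (hFk hyF) q hcon hq'
      have him : y.im = 0 := by
        have h1 : (0 : ℝ) ≤ (q : ℝ) := by exact_mod_cast hq0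
        rw [← hqre] at h1
        have h2 : y.im * y.im = 0 := le_antisymm (by linarith) (mul_self_nonneg _)
        exact mul_self_eq_zero.1 h2
      have hy0 : y = 0 := Complex.ext hyre him
      rw [hy, sub_eq_zero] at hy0
      exact hy0.symm
  have h1 := (hA cc).2 fun a ha => hreal a (IntermediateField.subset_adjoin ℚ A ha)
  rw [hrs cc, hP, h1]

/-! ### The Pluecker spans of the conjugate subspaces -/

/-- The equations of a Lagrangian subspace. -/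
def RM (M : Matrix (Fin g) (Fin g) ℂ) : Matrix (Fin g) (Fin g ⊕ Fin g) ℂ := fromCols 1 M

theorem RM_LM (M N : Matrix (Fin g) (Fin g) ℂ) : RM M * LM N = M - N := by
  unfold RM LM
  rw [fromCols_mul_fromRows, Matrix.one_mul, Matrix.mul_one]
  abel

theorem LM_map (σ : ℂ ≃+* ℂ) (M : Matrix (Fin g) (Fin g) ℂ) : (LM M).map σ = LM (M.map σ) := by
  ext i j
  rcases i with i | i
  · simp [LM]
  · simp [LM, Matrix.one_apply, apply_ite]

theorem LM_inj {M : Matrix (Fin g) (Fin g) ℂ} {b : Fin g → ℂ} (h : LM M *ᵥ b = 0) : b = 0 := by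
  rw [LM_mulVec] at h
  funext i
  exact congrFun h (Sum.inr i)

theorem det_sub_ne (h : PM Z) : det (Z - Z.map cc) ≠ 0 := by
  have h1 := (isUnit_bar_sub h.det).ne_zero
  have h2 : Z - Z.map cc = -(Z.map (starRingEnd ℂ) - Z) := by
    rw [neg_sub]
    rfl
  rw [h2, det_neg]
  exact mul_ne_zero (pow_ne_zero _ (neg_ne_zero.2 one_ne_zero)) h1

theorem det_sub_ne' (h : PM Z) : det (Z.map cc - Z) ≠ 0 := (isUnit_bar_sub h.det).ne_zero

/-- The span attached to an embedding. -/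
def Ep (Z : Matrix (Fin g) (Fin g) ℂ) (hZ : ∀ i j, Z i j ∈ k) (p : k →+* ℂ) :
    Submodule ℂ (Matrix (Fin g → Fin g ⊕ Fin g) (Fin g → Fin g ⊕ Fin g) ℂ) :=
  Epl (LZ Z) (LM ((Zk k hZ).map p))

theorem LZ_gal : ∀ (σ : ℂ ≃+* ℂ), ∀ X ∈ LZ Z, X.map σ ∈ LZ Z := fun σ X hX => gal_LZ σ X hX

theorem Ep_cj (hZ : ∀ i j, Z i j ∈ k) (τ : ℂ ≃+* ℂ) (p : k →+* ℂ) :
    Ep Z hZ ((τ : ℂ →+* ℂ).comp p) = cjM τ (Ep Z hZ p) := by
  unfold Ep
  rw [Epl_map LZ_gal, LM_map]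
  rfl

/-- The eigenspaces of elements of the Lie algebra are isotropic. -/
theorem om_iso (h : PM Z) {T : Matrix (Fin g ⊕ Fin g) (Fin g ⊕ Fin g) ℂ} (hT : T ∈ LZ Z) {c : ℂ}
    (hc : c ≠ 0) {u v : Fin g ⊕ Fin g → ℂ} (hu : T *ᵥ u = c • u) (hv : T *ᵥ v = c • v) :
    om g u v = 0 := by
  have h1 := h.om_sp hT u v
  rw [hu, hv, map_smul, LinearMap.smul_apply, map_smul, smul_eq_mul, ← two_mul] at h1
  exact (mul_eq_zero.1 ((mul_eq_zero.1 h1).resolve_left two_ne_zero)).resolve_left hc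

theorem opp_aux (h : PM Z) {T : Matrix (Fin g ⊕ Fin g) (Fin g ⊕ Fin g) ℂ} (hT : T ∈ LZ Z) {c : ℂ}
    (hc : c ≠ 0) (hcc : cc c = c) {v : Fin g ⊕ Fin g → ℂ} (h1 : T *ᵥ v = c • v)
    (h2 : (DZ Z * T.map cc * DZ Z) *ᵥ v = c • v) : v = 0 := by
  by_contra hv
  have h3 := h.herm_pos hv
  obtain ⟨w, hw⟩ : ∃ w, w = DZ Z *ᵥ cnj v := ⟨_, rfl⟩
  have h4 : T *ᵥ w = c • w := by
    have e1 : (T.map cc) *ᵥ (DZ Z *ᵥ v) = c • (DZ Z *ᵥ v) := by
      have e2 := congrArg (fun u => DZ Z *ᵥ u) h2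
      beta_reduce at e2
      rw [mulVec_mulVec, ← mul_assoc, ← mul_assoc, DZ_sq h.det, one_mul, ← mulVec_mulVec,
        mulVec_smul] at e2
      exact e2
    have e2 := congrArg cnj e1
    have e3 : ∀ (M : Matrix (Fin g ⊕ Fin g) (Fin g ⊕ Fin g) ℂ) (u : Fin g ⊕ Fin g → ℂ),
        cnj (M *ᵥ u) = M.map cc *ᵥ cnj u := fun M u => (map_mv cc M u).symm
    have e4 : cnj (c • (DZ Z *ᵥ v)) = c • cnj (DZ Z *ᵥ v) := by
      funext i
      change cc (c * _) = c * cc _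
      rw [map_mul, hcc]
    rw [e4, e3, e3, map_cc_cc, Pool.Agent.Y90.DZ_conj, neg_mulVec, mulVec_neg, smul_neg] at e2
    rw [hw]
    exact neg_injective e2
  have h5 := om_iso h hT hc h4 h1
  have h6 := h.om_sp DZ_mem (cnj v) v
  rw [← hw, h5, zero_add] at h6
  rw [h6, mul_zero] at h3
  exact lt_irrefl _ h3

/-- **The opposite of a conjugate subspace** and its complex conjugate lie in the same orbit. -/
theorem Ep_bar (h : PM Z) (hZ : ∀ i j, Z i j ∈ k) (σ : ℂ ≃+* ℂ) :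
    Ep Z hZ (rs k (cc.trans σ)) = Ep Z hZ ((cc : ℂ →+* ℂ).comp (rs k σ)) := by
  obtain ⟨T, hT⟩ : ∃ T, T = DS Z σ := ⟨_, rfl⟩
  have hTL : T ∈ LZ Z := by rw [hT]; exact DS_mem σ
  have hTT : T * T = 1 := by rw [hT]; exact DS_sq h.det σ
  have hbr : ∀ X ∈ LZ Z, ∀ Y ∈ LZ Z, X * Y - Y * X ∈ LZ Z := fun X hX Y hY => LZ_br hX hY
  have hTc : T.map cc ∈ LZ Z := gal_LZ cc T hTL
  have hTTc : T.map cc * T.map cc = 1 := by
    rw [← map_cc_mul, hTT, Matrix.map_one _ (map_zero cc) (map_one cc)]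
  have hDD : DZ Z * DZ Z = 1 := DZ_sq h.det
  have hT₃ : DZ Z * T.map cc * DZ Z ∈ LZ Z := invol_mem hbr DZ_mem hDD hTc
  have hTT₃ : (DZ Z * T.map cc * DZ Z) * (DZ Z * T.map cc * DZ Z) = 1 := by
    calc (DZ Z * T.map cc * DZ Z) * (DZ Z * T.map cc * DZ Z) =
        DZ Z * T.map cc * (DZ Z * DZ Z) * T.map cc * DZ Z := by noncomm_ring
    _ = DZ Z * (T.map cc * T.map cc) * DZ Z := by rw [hDD]; noncomm_ring
    _ = 1 := by rw [hTTc, mul_one, hDD]
  have hcc1 : cc (-1 : ℂ) = -1 := by rw [map_neg, map_one]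
  obtain ⟨x, hx, hTx, hxT, hgr⟩ := exists_unip hbr hTL hTT hT₃ hTT₃
    (fun v h1 h2 => opp_aux h hTL (neg_ne_zero.2 one_ne_zero) hcc1
      (by rw [h1, neg_one_smul]) (by rw [h2, neg_one_smul]))
    (fun v h1 h2 => opp_aux h hTL one_ne_zero (map_one cc)
      (by rw [h1, one_smul]) (by rw [h2, one_smul]))
  have hxx : x * x = 0 := by
    have e1 : x * x = -(x * x) := by
      calc x * x = (x * T) * x := by rw [hxT]
      _ = x * (T * x) := by rw [mul_assoc]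
      _ = -(x * x) := by rw [hTx, mul_neg]
    have e2 : (2 : ℂ) • (x * x) = 0 := by
      rw [two_smul]
      nth_rewrite 1 [e1]
      rw [neg_add_cancel]
    exact (smul_eq_zero.1 e2).resolve_left two_ne_zero
  -- the element of the group
  have hγ : (1 - x) * DZ Z ∈ GrU (LZ Z) := by
    refine Submonoid.mul_mem _ (Submonoid.subset_closure (Or.inl ⟨?_, ?_⟩))
      (Submonoid.subset_closure (Or.inr ⟨DZ Z, DZ_mem, hDD, 0, 1, by norm_num, by simp⟩))
    · have : 1 - x - 1 = -x := by abel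
      rw [this]
      exact (LZ Z).neg_mem hx
    · have : (1 - x - 1) * (1 - x - 1) = x * x := by noncomm_ring
      rw [this, hxx]
  -- the columns
  have hcol : ∀ b : Fin g → ℂ, ∃ b', ((1 - x) * DZ Z) *ᵥ
      (LM ((Zk k hZ).map ((cc : ℂ →+* ℂ).comp (rs k σ))) *ᵥ b) =
      LM ((Zk k hZ).map (rs k (cc.trans σ))) *ᵥ b' := by
    intro b
    obtain ⟨u, hu⟩ : ∃ u, u = LM ((Zk k hZ).map ((cc : ℂ →+* ℂ).comp (rs k σ))) *ᵥ b := ⟨_, rfl⟩
    have huL : u ∈ Lp hZ ((cc : ℂ →+* ℂ).comp (rs k σ)) := by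
      rw [mem_Lp]
      exact ⟨b, by rw [hu, LM_mulVec]⟩
    have hTu : T.map cc *ᵥ u = -u := by
      have e1 : T.map cc = DS Z (σ.trans cc) := by rw [hT, DS_map]
      rw [e1, ← mem_neg h hZ]
      exact huL
    have e1 : (DZ Z * T.map cc * DZ Z) *ᵥ (DZ Z *ᵥ u) = -(DZ Z *ᵥ u) := by
      rw [mulVec_mulVec, mul_assoc (DZ Z * T.map cc), hDD, mul_one, ← mulVec_mulVec, hTu,
        mulVec_neg]
    obtain ⟨w, hw1, hw2⟩ := (hgr _).1 e1
    have hw3 : w ∈ Lp hZ (rs k (cc.trans σ)) := (mem_pos h hZ σ).2 (by rw [← hT]; exact hw1)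
    obtain ⟨b', hb'⟩ := mem_Lp.1 hw3
    refine ⟨b', ?_⟩
    rw [← hu, ← mulVec_mulVec, hw2, LM_mulVec, ← hb', sub_mulVec, one_mulVec, mulVec_add,
      mulVec_mulVec w x x, hxx, zero_mulVec, add_zero, add_sub_cancel_right]
  choose f hf using fun j : Fin g => hcol (Pi.single j 1)
  have hAC : (1 - x) * DZ Z * LM ((Zk k hZ).map ((cc : ℂ →+* ℂ).comp (rs k σ))) =
      LM ((Zk k hZ).map (rs k (cc.trans σ))) * Matrix.of fun i j => f j i := by
    refine Matrix.ext fun i j => ?_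
    have e1 := congrFun (hf j) i
    rw [mulVec_mulVec, mulVec_single_one] at e1
    exact e1
  symm
  refine Epl_eq hγ ?_ hAC
  intro h0
  obtain ⟨v, hv, hv'⟩ := Matrix.exists_mulVec_eq_zero_iff.2 h0
  apply hv
  obtain ⟨γ', -, -, hγ'⟩ := GrU_inv hγ
  have e1 := congrArg (fun X => X *ᵥ v) hAC
  beta_reduce at e1
  rw [← mulVec_mulVec v (LM _) (Matrix.of _), hv', mulVec_zero, ← mulVec_mulVec] at e1
  have e2 := congrArg (fun X => γ' *ᵥ X) e1
  beta_reduce at e2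
  rw [mulVec_mulVec, hγ', one_mulVec, mulVec_zero] at e2
  exact LM_inj e2

/-- **Invertible elements of positive degree.** -/
theorem exists_inj [Countable k] (hE : RealMoves k) (hN : NoImagQuad k) (h : PM Z)
    (hZ : ∀ i j, Z i j ∈ k) : ∃ x ∈ LZ Z, DZ Z * x = x ∧ x * DZ Z = -x ∧
      ∀ w, DZ Z *ᵥ w = -w → x *ᵥ w = 0 → w = 0 := by
  have hbr : ∀ X ∈ LZ Z, ∀ Y ∈ LZ Z, X * Y - Y * X ∈ LZ Z := fun X hX Y hY => LZ_br hX hY
  have hDD : DZ Z * DZ Z = 1 := DZ_sq h.det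
  have h1 := blocks_cm hE hN (Ep Z hZ) (Ep_cj hZ) (Ep_bar h hZ)
  have hz1 : (Zk k hZ).map (rs k (RingEquiv.refl ℂ)) = Z := by
    ext i j
    rfl
  have hz2 : (Zk k hZ).map (rs k cc) = Z.map cc := by
    ext i j
    rfl
  unfold Ep at h1
  rw [hz1, hz2] at h1
  obtain ⟨γ, hγ, hdet⟩ := exists_transl h1.symm (R := RM Z) (by
    rw [RM_LM]
    exact det_sub_ne h)
  obtain ⟨γ', ⟨δ, hγδ, hδγ, hnorm, -⟩, c1, c2, c3⟩ := exists_general hbr (A₁ := LM Z)
    (A₂ := LM (Z.map cc)) (R₁ := RM Z) (R₂ := RM (Z.map cc)) (by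
      rw [RM_LM]
      exact det_sub_ne' h) (by
      rw [RM_LM]
      exact det_sub_ne h) hγ hdet
  have hT₃ := hnorm _ DZ_mem
  have hTT₃ : (γ' * DZ Z * δ) * (γ' * DZ Z * δ) = 1 := by
    calc (γ' * DZ Z * δ) * (γ' * DZ Z * δ) = γ' * DZ Z * (δ * γ') * DZ Z * δ := by noncomm_ring
    _ = γ' * (DZ Z * DZ Z) * δ := by rw [hδγ]; noncomm_ring
    _ = 1 := by rw [hDD, mul_one, hγδ]
  have hneg : ∀ v, DZ Z *ᵥ v = -v → ∃ b, v = LM Z *ᵥ b := by
    intro v hv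
    obtain ⟨b, b', hb⟩ := exists_decomp Z (Z.map cc) (isUnit_bar_sub h.det) v
    refine ⟨b, ?_⟩
    rw [hb, mulVec_add, DZ_vecL h.det] at hv
    have e1 : DZ Z *ᵥ vecL (Z.map cc) b' = vecL (Z.map cc) b' := DZ_vecL_bar h.det b'
    rw [e1, neg_add, add_right_inj] at hv
    have e2 : vecL (Z.map cc) b' = 0 := by
      have e3 : (2 : ℂ) • vecL (Z.map cc) b' = 0 := by
        rw [two_smul]
        nth_rewrite 1 [hv]
        exact neg_add_cancel _
      exact (smul_eq_zero.1 e3).resolve_left two_ne_zero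
    rw [hb, e2, add_zero, LM_mulVec]
  have hpos : ∀ v, DZ Z *ᵥ v = v → ∃ b, v = LM (Z.map cc) *ᵥ b := by
    intro v hv
    obtain ⟨b, b', hb⟩ := exists_decomp Z (Z.map cc) (isUnit_bar_sub h.det) v
    refine ⟨b', ?_⟩
    rw [hb, mulVec_add, DZ_vecL h.det] at hv
    have e1 : DZ Z *ᵥ vecL (Z.map cc) b' = vecL (Z.map cc) b' := DZ_vecL_bar h.det b'
    rw [e1, add_left_inj] at hv
    have e2 : vecL Z b = 0 := by
      have e3 : (2 : ℂ) • vecL Z b = 0 := by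
        rw [two_smul]
        nth_rewrite 1 [← hv]
        exact neg_add_cancel _
      exact (smul_eq_zero.1 e3).resolve_left two_ne_zero
    rw [hb, e2, zero_add, LM_mulVec]
  have hback : ∀ (v : Fin g ⊕ Fin g → ℂ) (c : ℂ), (γ' * DZ Z * δ) *ᵥ v = c • v →
      DZ Z *ᵥ (δ *ᵥ v) = c • (δ *ᵥ v) ∧ v = γ' *ᵥ (δ *ᵥ v) := by
    intro v c hv
    have e1 := congrArg (fun u => δ *ᵥ u) hv
    beta_reduce at e1
    rw [mulVec_mulVec, ← mul_assoc, ← mul_assoc, hδγ, one_mul, ← mulVec_mulVec, mulVec_smul] at e1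
    exact ⟨e1, by rw [mulVec_mulVec, hγδ, one_mulVec]⟩
  have hdet0 : ∀ (R : Matrix (Fin g) (Fin g ⊕ Fin g) ℂ) (A : Matrix (Fin g ⊕ Fin g) (Fin g) ℂ),
      det (R * A) ≠ 0 → ∀ b, R *ᵥ (A *ᵥ b) = 0 → b = 0 := by
    intro R A hRA b hb
    rw [mulVec_mulVec] at hb
    by_contra hb0
    exact hRA (Matrix.exists_mulVec_eq_zero_iff.1 ⟨b, hb0, hb⟩)
  have hRL : ∀ (M : Matrix (Fin g) (Fin g) ℂ) (b : Fin g → ℂ), RM M *ᵥ (LM M *ᵥ b) = 0 := by
    intro M b
    rw [mulVec_mulVec, RM_LM, sub_self, zero_mulVec]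
  have hTT : (-DZ Z) * (-DZ Z) = 1 := by rw [neg_mul_neg, hDD]
  obtain ⟨x, hx, hTx, hxT, hgr⟩ := exists_unip hbr ((LZ Z).neg_mem DZ_mem) hTT hT₃ hTT₃
    (fun v g1 g2 => by
      rw [neg_mulVec] at g1
      obtain ⟨b, hb⟩ := hpos v (neg_injective g1)
      obtain ⟨e1, e2⟩ := hback v (-1) (by rw [g2, neg_one_smul])
      rw [neg_one_smul] at e1
      obtain ⟨b', hb'⟩ := hneg _ e1
      have e3 : RM (Z.map cc) *ᵥ v = 0 := by rw [hb, hRL]
      rw [e2, hb', mulVec_mulVec b'] at e3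
      have e4 := hdet0 _ _ c1 b' e3
      rw [e2, hb', e4, mulVec_zero, mulVec_zero])
    (fun v g1 g2 => by
      rw [neg_mulVec] at g1
      obtain ⟨b, hb⟩ := hneg v (by rw [← g1, neg_neg, g1])
      obtain ⟨e1, e2⟩ := hback v 1 (by rw [g2, one_smul])
      rw [one_smul] at e1
      obtain ⟨b', hb'⟩ := hpos _ e1
      have e3 : RM Z *ᵥ v = 0 := by rw [hb, hRL]
      rw [e2, hb', mulVec_mulVec b'] at e3
      have e4 := hdet0 _ _ c2 b' e3
      rw [e2, hb', e4, mulVec_zero, mulVec_zero])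
  refine ⟨x, hx, ?_, ?_, fun w hw hxw => ?_⟩
  · rw [neg_mul] at hTx
    exact neg_injective hTx
  · rw [mul_neg] at hxT
    rw [← hxT, neg_neg, hxT]
  · have e1 : (γ' * DZ Z * δ) *ᵥ w = -w :=
      (hgr w).2 ⟨w, by rw [neg_mulVec, hw, neg_neg], by rw [hxw, add_zero]⟩
    obtain ⟨e1, e2⟩ := hback w (-1) (by rw [e1, neg_one_smul])
    rw [neg_one_smul] at e1
    obtain ⟨b', hb'⟩ := hneg _ e1
    obtain ⟨b, hb⟩ := hneg w hw
    have e3 : RM Z *ᵥ w = 0 := by rw [hb, hRL]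
    rw [e2, hb', mulVec_mulVec b'] at e3
    have e4 := hdet0 _ _ c3 b' e3
    rw [e2, hb', e4, mulVec_zero, mulVec_zero]

end

end Pool.Agent.N994.PG
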