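import Mathlib
import Pool.Agent.N994.PG.KC

/-!
# Real points from invertible elements of positive degree
-/

set_option linter.unusedSectionVars false

namespace Pool.Agent.N994.PG

open Matrix Module Pool.Agent.W437.HC Pool.Agent.W437.HD Pool.Agent.TH504.CB Pool.Agent.Y90
  Pool.Agent.R915
open Pool.Agent.W548.Odd hiding cv
open Pool.Agent.N994.PF (rs Zk InL Ed Sys PP PP_eq comb card_emb)

open scoped ComplexOrder
open Polynomial (aeval)

noncomputable section

variable {g : ℕ} {Z : Matrix (Fin g) (Fin g) ℂ} {k : IntermediateField ℚ ℂ}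

/-- Inverse square roots as polynomials. -/
theorem exists_sqrt_poly {B : Type*} [Fintype B] [DecidableEq B] (lam : B → ℝ)
    (hlam : ∀ i, 0 ≤ lam i) :
    ∃ p : Polynomial ℝ, ∀ i, lam i ≠ 0 → lam i * (p.eval (lam i) * p.eval (lam i)) = 1 := by
  classical
  refine ⟨Lagrange.interpolate (Finset.univ.image lam) id fun t => (Real.sqrt t)⁻¹, fun i hi => ?_⟩
  have h1 : (Lagrange.interpolate (Finset.univ.image lam) id fun t => (Real.sqrt t)⁻¹).eval
      (lam i) = (Real.sqrt (lam i))⁻¹ :=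
    Lagrange.eval_interpolate_at_node (v := id) (fun t : ℝ => (Real.sqrt t)⁻¹)
      (Set.injOn_id _) (Finset.mem_image_of_mem _ (Finset.mem_univ i))
  rw [h1]
  have h2 := Real.mul_self_sqrt (hlam i)
  have h3 : Real.sqrt (lam i) ≠ 0 := fun h0 => hi (by rw [← h2, h0, mul_zero])
  nth_rewrite 1 [← h2]
  field_simp

/-- Two-sided polynomials. -/
theorem aeval_swap {B : Type*} [Fintype B] [DecidableEq B] (x y : Matrix B B ℂ)
    (q : Polynomial ℂ) : aeval (x * y) q * x = x * aeval (y * x) q := by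
  induction q using Polynomial.induction_on' with
  | add q r hq hr => rw [map_add, map_add, add_mul, mul_add, hq, hr]
  | monomial n c =>
    rw [Polynomial.aeval_monomial, Polynomial.aeval_monomial]
    have h1 : (x * y) ^ n * x = x * (y * x) ^ n := by
      induction n with
      | zero => simp
      | succ n ih =>
        rw [pow_succ', mul_assoc, ih, pow_succ', mul_assoc x y, ← mul_assoc y x]
    rw [mul_assoc, h1, ← mul_assoc, Algebra.commutes, mul_assoc]

theorem aeval_cc {B : Type*} [Fintype B] [DecidableEq B] (A : Matrix B B ℂ) (p : Polynomial ℝ) :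
    (aeval A (p.map (algebraMap ℝ ℂ))).map cc = aeval (A.map cc) (p.map (algebraMap ℝ ℂ)) := by
  induction p using Polynomial.induction_on' with
  | add q r hq hr =>
    rw [Polynomial.map_add, map_add, map_add, ← hq, ← hr]
    exact Matrix.map_add _ (map_add cc) _ _
  | monomial n c =>
    rw [Polynomial.map_monomial, Polynomial.aeval_monomial, Polynomial.aeval_monomial,
      ← Algebra.smul_def, ← Algebra.smul_def]
    have h1 : ∀ n : ℕ, (A ^ n).map cc = (A.map cc) ^ n := by
      intro n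
      induction n with
      | zero => rw [pow_zero, pow_zero, Matrix.map_one _ (map_zero cc) (map_one cc)]
      | succ n ih => rw [pow_succ, pow_succ, map_cc_mul, ih]
    rw [← h1]
    ext i j
    change cc (((c : ℝ) : ℂ) * (A ^ n) i j) = ((c : ℝ) : ℂ) * cc ((A ^ n) i j)
    rw [map_mul]
    congr 1
    exact Complex.conj_ofReal c

theorem aeval_mulVec {B : Type*} [Fintype B] [DecidableEq B] {A : Matrix B B ℂ} {v : B → ℂ}
    {c : ℂ} (hv : A *ᵥ v = c • v) (q : Polynomial ℂ) : (aeval A q) *ᵥ v = q.eval c • v := by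
  induction q using Polynomial.induction_on' with
  | add q r hq hr => rw [map_add, add_mulVec, hq, hr, Polynomial.eval_add, add_smul]
  | monomial n d =>
    rw [Polynomial.aeval_monomial, ← Algebra.smul_def, smul_mulVec, Polynomial.eval_monomial]
    have h1 : (A ^ n) *ᵥ v = c ^ n • v := by
      induction n with
      | zero => rw [pow_zero, one_mulVec, pow_zero, one_smul]
      | succ n ih => rw [pow_succ, ← mulVec_mulVec, hv, mulVec_smul, ih, smul_smul, pow_succ']
    rw [h1, smul_smul]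

/-- **Unitary elements of positive degree.** -/
theorem exists_tri (h : PM Z) {x : Matrix (Fin g ⊕ Fin g) (Fin g ⊕ Fin g) ℂ} (hx : x ∈ LZ Z)
    (hDx : DZ Z * x = x) (hxD : x * DZ Z = -x)
    (hinj : ∀ w, DZ Z *ᵥ w = -w → x *ᵥ w = 0 → w = 0) :
    ∃ e ∈ LZ Z, DZ Z * e = e ∧ e * DZ Z = -e ∧ e.map cc * e = (2 : ℂ)⁻¹ • (1 - DZ Z) := by
  obtain ⟨S, Si, hSSi, hSiS, -, had', hSc, hSic⟩ := exists_Sr h
  obtain ⟨y, hy⟩ : ∃ y, y = x.map cc := ⟨_, rfl⟩
  have hyL : y ∈ LZ Z := by rw [hy]; exact gal_LZ cc x hx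
  have hyc : y.map cc = x := by rw [hy, map_cc_cc]
  have hDy : DZ Z * y = -y := by
    have h1 := congrArg (fun X => X.map cc) hDx
    beta_reduce at h1
    rw [map_cc_mul, Pool.Agent.Y90.DZ_conj, ← hy, neg_mul] at h1
    rw [← h1, neg_neg, h1]
  have hyD : y * DZ Z = y := by
    have h1 := congrArg (fun X => X.map cc) hxD
    beta_reduce at h1
    rw [map_cc_mul, Pool.Agent.Y90.DZ_conj, map_neg_mat, ← hy, mul_neg] at h1
    exact neg_injective h1
  obtain ⟨A, hA⟩ : ∃ A, A = y * x := ⟨_, rfl⟩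
  have had : (S * x * Si)ᴴ = S * y * Si := by
    rw [← had' x hx, ← hy]
    congr 2
    rw [hDy, neg_mul, hyD, neg_neg]
  obtain ⟨H, hH⟩ : ∃ H, H = (S * x * Si)ᴴ * (S * x * Si) := ⟨_, rfl⟩
  have hHA : H = S * A * Si := by
    rw [hH, had, hA]
    calc S * y * Si * (S * x * Si) = S * y * (Si * S) * x * Si := by noncomm_ring
    _ = S * (y * x) * Si := by rw [hSiS, mul_one, mul_assoc S y x]
  have hps : H.PosSemidef := by rw [hH]; exact Matrix.posSemidef_conjTranspose_mul_self _
  have hHh := hps.isHermitian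
  obtain ⟨p, hp⟩ := exists_sqrt_poly hHh.eigenvalues hps.eigenvalues_nonneg
  obtain ⟨q, hq⟩ : ∃ q : Polynomial ℂ, q = p.map (algebraMap ℝ ℂ) := ⟨_, rfl⟩
  -- commutation
  have hxx : x * x = 0 := by
    have e1 : x * x = -(x * x) := by
      calc x * x = x * (DZ Z * x) := by rw [hDx]
      _ = (x * DZ Z) * x := by rw [mul_assoc]
      _ = -(x * x) := by rw [hxD, neg_mul]
    have e2 : (2 : ℂ) • (x * x) = 0 := by
      rw [two_smul]
      nth_rewrite 1 [e1]
      rw [neg_add_cancel]
    exact (smul_eq_zero.1 e2).resolve_left two_ne_zero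
  have hpow : ∀ n : ℕ, x * A ^ n ∈ LZ Z ∧ (x * A ^ n) * DZ Z = -(x * A ^ n) := by
    intro n
    induction n with
    | zero => rw [pow_zero, mul_one]; exact ⟨hx, hxD⟩
    | succ n ih =>
      obtain ⟨ih1, ih2⟩ := ih
      obtain ⟨v, hv⟩ : ∃ v, v = x * A ^ n := ⟨_, rfl⟩
      rw [← hv] at ih1 ih2
      have hDv : DZ Z * v = v := by rw [hv, ← mul_assoc, hDx]
      have hxv : x * v = 0 := by rw [hv, ← mul_assoc, hxx, zero_mul]
      have hvx : v * x = 0 := by
        have e1 : v * x = -(v * x) := by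
          calc v * x = v * (DZ Z * x) := by rw [hDx]
          _ = (v * DZ Z) * x := by rw [mul_assoc]
          _ = -(v * x) := by rw [ih2, neg_mul]
        have e2 : (2 : ℂ) • (v * x) = 0 := by
          rw [two_smul]
          nth_rewrite 1 [e1]
          rw [neg_add_cancel]
        exact (smul_eq_zero.1 e2).resolve_left two_ne_zero
      have e1 := LZ_br (LZ_br hx hyL) ih1
      have e2 : (x * y - y * x) * v - v * (x * y - y * x) = x * y * v + v * y * x := by
        have : (x * y - y * x) * v - v * (x * y - y * x) =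
            x * y * v - y * (x * v) - (v * x) * y + v * y * x := by noncomm_ring
        rw [this, hxv, hvx, mul_zero, zero_mul, sub_zero, sub_zero]
      have e3 : v * y * x = x * A ^ (n + 1) := by
        rw [hv, pow_succ, hA]
        noncomm_ring
      have e4 : x * y * v = x * A ^ (n + 1) := by
        rw [hv, pow_succ', hA]
        noncomm_ring
      rw [e2, e3, e4, ← two_smul ℂ] at e1
      have e5 := (LZ Z).smul_mem (2 : ℂ)⁻¹ e1
      rw [smul_smul, inv_mul_cancel₀ (by norm_num), one_smul] at e5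
      refine ⟨e5, ?_⟩
      rw [← e3, mul_assoc (v * y) x, hxD, mul_neg]
  have hpoly : ∀ r : Polynomial ℂ, x * aeval A r ∈ LZ Z ∧
      (x * aeval A r) * DZ Z = -(x * aeval A r) := by
    intro r
    induction r using Polynomial.induction_on' with
    | add q r hq hr =>
      rw [map_add, mul_add]
      exact ⟨(LZ Z).add_mem hq.1 hr.1, by rw [add_mul, hq.2, hr.2, neg_add]⟩
    | monomial n c =>
      rw [Polynomial.aeval_monomial, ← Algebra.smul_def, Matrix.mul_smul]
      exact ⟨(LZ Z).smul_mem _ (hpow n).1, by rw [Matrix.smul_mul, (hpow n).2, smul_neg]⟩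
  obtain ⟨e, he⟩ : ∃ e, e = x * aeval A q := ⟨_, rfl⟩
  have hec : e.map cc = y * aeval (x * y) q := by
    rw [he, map_cc_mul, ← hy, hq, aeval_cc, hA, map_cc_mul, hyc, ← hy]
  have hee : e.map cc * e = A * (aeval A q * aeval A q) := by
    rw [hec, he]
    calc y * aeval (x * y) q * (x * aeval A q) = y * (aeval (x * y) q * x) * aeval A q := by
          noncomm_ring
    _ = y * (x * aeval (y * x) q) * aeval A q := by rw [aeval_swap]
    _ = A * (aeval A q * aeval A q) := by
          rw [← hA, hA]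
          noncomm_ring
  obtain ⟨he1, he2⟩ := hpoly q
  rw [← he] at he1 he2
  refine ⟨e, he1, by rw [he, ← mul_assoc, hDx], he2, ?_⟩
  rw [hee]
  -- the eigenvectors
  have hconj : ∀ r : Polynomial ℂ, S * aeval A r * Si = aeval H r := by
    intro r
    induction r using Polynomial.induction_on' with
    | add q r hq hr => rw [map_add, map_add, mul_add, add_mul, hq, hr]
    | monomial n c =>
      rw [Polynomial.aeval_monomial, Polynomial.aeval_monomial, ← Algebra.smul_def,
        ← Algebra.smul_def, Matrix.mul_smul, Matrix.smul_mul]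
      congr 1
      rw [hHA]
      induction n with
      | zero => rw [pow_zero, pow_zero, mul_one, hSSi]
      | succ n ih =>
        rw [pow_succ, pow_succ, ← ih]
        calc S * (A ^ n * A) * Si = S * A ^ n * (1 : Matrix _ _ ℂ) * A * Si := by noncomm_ring
        _ = S * A ^ n * Si * (S * A * Si) := by
          rw [← hSiS]
          noncomm_ring
  have hyinj : ∀ u, DZ Z *ᵥ u = u → y *ᵥ u = 0 → u = 0 := by
    intro u hu hyu
    have e1 := congrArg cnj hyu
    have e2 : cnj (y *ᵥ u) = x *ᵥ cnj u := by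
      have := (map_mv cc y u).symm
      rw [hyc] at this
      exact this
    have e3 : cnj (0 : Fin g ⊕ Fin g → ℂ) = 0 := by
      funext i
      exact map_zero cc
    rw [e2, e3] at e1
    have e4 : DZ Z *ᵥ cnj u = -cnj u := by
      have e5 := (map_mv cc (DZ Z) u).symm
      rw [Pool.Agent.Y90.DZ_conj] at e5
      have e6 : cnj (DZ Z *ᵥ u) = (-DZ Z) *ᵥ cnj u := e5
      rw [hu, neg_mulVec] at e6
      rw [e6, neg_neg, ← e6]
    have e5 := hinj _ e4 e1
    rw [← cnj_cnj u, e5, e3]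
  have hmain : H * (aeval H q * aeval H q) = S * ((2 : ℂ)⁻¹ • (1 - DZ Z)) * Si := by
    -- compare on the eigenvectors
    have hb : ∀ j, (H * (aeval H q * aeval H q)) *ᵥ ⇑(hHh.eigenvectorBasis j) =
        (S * ((2 : ℂ)⁻¹ • (1 - DZ Z)) * Si) *ᵥ ⇑(hHh.eigenvectorBasis j) := by
      intro j
      obtain ⟨v, hv⟩ : ∃ v : Fin g ⊕ Fin g → ℂ, v = ⇑(hHh.eigenvectorBasis j) := ⟨_, rfl⟩
      obtain ⟨c, hc⟩ : ∃ c : ℝ, c = hHh.eigenvalues j := ⟨_, rfl⟩
      have h1 : H *ᵥ v = (c : ℂ) • v := by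
        have := hHh.mulVec_eigenvectorBasis j
        rw [← hv, ← hc] at this
        rw [this]
        rfl
      have h2 : q.eval (c : ℂ) = ((p.eval c : ℝ) : ℂ) := by
        rw [hq, Polynomial.eval_map]
        exact (Polynomial.eval₂_at_apply (algebraMap ℝ ℂ) c)
      have h3 : (H * (aeval H q * aeval H q)) *ᵥ v =
          ((c * (p.eval c * p.eval c) : ℝ) : ℂ) • v := by
        rw [← mulVec_mulVec, ← mulVec_mulVec, aeval_mulVec h1, mulVec_smul, aeval_mulVec h1,
          mulVec_smul, mulVec_smul, h1, h2, smul_smul, smul_smul]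
        congr 1
        push_cast
        ring
      rw [← hv, h3]
      by_cases hc0 : c = 0
      · rw [hc0, zero_mul, Complex.ofReal_zero, zero_smul]
        rw [hc0, Complex.ofReal_zero, zero_smul, hHA] at h1
        obtain ⟨u, hu⟩ : ∃ u, u = Si *ᵥ v := ⟨_, rfl⟩
        have h4 : A *ᵥ u = 0 := by
          have e1 := congrArg (fun w => Si *ᵥ w) h1
          beta_reduce at e1
          rw [mulVec_mulVec, ← mul_assoc, ← mul_assoc, hSiS, one_mul, mulVec_zero,
            ← mulVec_mulVec, ← hu] at e1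
          exact e1
        rw [hA, ← mulVec_mulVec] at h4
        have h5 := hyinj _ (by rw [mulVec_mulVec, hDx]) h4
        obtain ⟨w, hw⟩ : ∃ w, w = ((2 : ℂ)⁻¹ • (1 - DZ Z)) *ᵥ u := ⟨_, rfl⟩
        have h6 : DZ Z *ᵥ w = -w := by
          rw [hw, mulVec_mulVec, Matrix.mul_smul, mul_sub, mul_one, DZ_sq h.det, ← neg_mulVec,
            ← smul_neg, neg_sub]
        have h7 : x *ᵥ w = 0 := by
          rw [hw, mulVec_mulVec, Matrix.mul_smul, mul_sub, mul_one, hxD, sub_neg_eq_add,
            ← two_smul ℂ, smul_smul, inv_mul_cancel₀ (by norm_num), one_smul, h5]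
        have h8 := hinj w h6 h7
        rw [← mulVec_mulVec, ← hu, ← mulVec_mulVec, ← hw, h8, mulVec_zero]
      · have h4 := hp j (by rw [← hc]; exact hc0)
        rw [← hc] at h4
        rw [h4, Complex.ofReal_one, one_smul]
        have h5 : (S * ((2 : ℂ)⁻¹ • (1 - DZ Z)) * Si) * H = H := by
          rw [hHA, hA]
          have h6 : ((2 : ℂ)⁻¹ • (1 - DZ Z)) * y = y := by
            rw [Matrix.smul_mul, sub_mul, one_mul, hDy, sub_neg_eq_add, ← two_smul ℂ, smul_smul,
              inv_mul_cancel₀ (by norm_num), one_smul]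
          calc (S * ((2 : ℂ)⁻¹ • (1 - DZ Z)) * Si) * (S * (y * x) * Si) =
              S * ((2 : ℂ)⁻¹ • (1 - DZ Z)) * (Si * S) * y * x * Si := by noncomm_ring
          _ = S * (((2 : ℂ)⁻¹ • (1 - DZ Z)) * y) * x * Si := by
              rw [hSiS, mul_one]
              noncomm_ring
          _ = S * (y * x) * Si := by
              rw [h6]
              noncomm_ring
        have h6 : v = ((c : ℂ)⁻¹) • (H *ᵥ v) := by
          rw [h1, smul_smul, inv_mul_cancel₀ (Complex.ofReal_ne_zero.2 hc0), one_smul]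
        symm
        calc (S * ((2 : ℂ)⁻¹ • (1 - DZ Z)) * Si) *ᵥ v =
            ((c : ℂ)⁻¹) • ((S * ((2 : ℂ)⁻¹ • (1 - DZ Z)) * Si) *ᵥ (H *ᵥ v)) := by
              nth_rewrite 1 [h6]
              rw [mulVec_smul]
        _ = v := by rw [mulVec_mulVec, h5, ← h6]
    apply Matrix.toLin'.injective
    refine (hHh.eigenvectorBasis.toBasis.map
      (WithLp.linearEquiv 2 ℂ (Fin g ⊕ Fin g → ℂ))).ext fun j => ?_
    rw [Basis.map_apply, OrthonormalBasis.coe_toBasis, toLin'_apply, toLin'_apply]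
    exact hb j
  have e1 := congrArg (fun X => Si * X * S) hmain
  beta_reduce at e1
  have e2 : ∀ M : Matrix (Fin g ⊕ Fin g) (Fin g ⊕ Fin g) ℂ, Si * (S * M * Si) * S = M := by
    intro M
    calc Si * (S * M * Si) * S = (Si * S) * M * (Si * S) := by noncomm_ring
    _ = M := by rw [hSiS, one_mul, mul_one]
  rw [e2] at e1
  rw [← e1, ← hconj q, hHA]
  calc A * (aeval A q * aeval A q) = 1 * A * 1 * aeval A q * 1 * aeval A q * 1 := by
        noncomm_ring
  _ = Si * (S * A * Si * (S * aeval A q * Si * (S * aeval A q * Si))) * S := by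
        rw [← hSiS]
        noncomm_ring

/-- **The real point.** -/
theorem exists_rp' [Countable k] (hE : RealMoves k) (hN : NoImagQuad k) (h : PM Z)
    (hZ : ∀ i j, Z i j ∈ k) : ∃ e ∈ LZ Z, DZ Z * e = e ∧ e * DZ Z = -e ∧ e * e = 0 ∧
      (DZ Z - (2 : ℂ) • e) * (DZ Z - (2 : ℂ) • e) = 1 ∧
      ∀ v, (DZ Z - (2 : ℂ) • e) *ᵥ v = -v →
        (DZ Z - (2 : ℂ) • e) *ᵥ (fun i => cc (v i)) = -(fun i => cc (v i)) := by
  obtain ⟨x, hx, h1, h2, h3⟩ := exists_inj hE hN h hZ
  obtain ⟨e, he, hDe, heD, hee⟩ := exists_tri h hx h1 h2 h3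
  have hDD : DZ Z * DZ Z = 1 := DZ_sq h.det
  have he2 : e * e = 0 := by
    have e1 : e * e = -(e * e) := by
      calc e * e = e * (DZ Z * e) := by rw [hDe]
      _ = (e * DZ Z) * e := by rw [mul_assoc]
      _ = -(e * e) := by rw [heD, neg_mul]
    have e2 : (2 : ℂ) • (e * e) = 0 := by
      rw [two_smul]
      nth_rewrite 1 [e1]
      rw [neg_add_cancel]
    exact (smul_eq_zero.1 e2).resolve_left two_ne_zero
  refine ⟨e, he, hDe, heD, he2, ?_, fun v hv => ?_⟩
  · have : (DZ Z - (2 : ℂ) • e) * (DZ Z - (2 : ℂ) • e) =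
        DZ Z * DZ Z - (2 : ℂ) • (DZ Z * e) - (2 : ℂ) • (e * DZ Z) + (4 : ℂ) • (e * e) := by
      simp only [mul_sub, sub_mul, Matrix.mul_smul, Matrix.smul_mul]
      module
    rw [this, hDD, hDe, heD, he2, smul_neg, sub_neg_eq_add, smul_zero, add_zero, sub_add_cancel]
  · obtain ⟨a, ha⟩ : ∃ a, a = (2 : ℂ)⁻¹ • (v - DZ Z *ᵥ v) := ⟨_, rfl⟩
    obtain ⟨b, hb⟩ : ∃ b, b = (2 : ℂ)⁻¹ • (v + DZ Z *ᵥ v) := ⟨_, rfl⟩
    have hab : v = a + b := by
      rw [ha, hb]
      module
    have hDDv : DZ Z *ᵥ (DZ Z *ᵥ v) = v := by rw [mulVec_mulVec, hDD, one_mulVec]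
    have hDa : DZ Z *ᵥ a = -a := by
      rw [ha, mulVec_smul, mulVec_sub, hDDv]
      module
    have hDb : DZ Z *ᵥ b = b := by
      rw [hb, mulVec_smul, mulVec_add, hDDv, add_comm]
    have heb : e *ᵥ b = 0 := by
      have e1 : e *ᵥ b = -(e *ᵥ b) := by
        nth_rewrite 1 [← hDb]
        rw [mulVec_mulVec, heD, neg_mulVec]
      have e2 : (2 : ℂ) • (e *ᵥ b) = 0 := by
        rw [two_smul]
        nth_rewrite 1 [e1]
        rw [neg_add_cancel]
      exact (smul_eq_zero.1 e2).resolve_left two_ne_zero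
    have hbe : b = e *ᵥ a := by
      rw [hab, sub_mulVec, smul_mulVec, mulVec_add, mulVec_add, hDa, hDb, heb, add_zero] at hv
      have e1 : (2 : ℂ) • (b - e *ᵥ a) = 0 := by
        have e2 : (2 : ℂ) • (b - e *ᵥ a) = (-a + b - (2 : ℂ) • (e *ᵥ a)) + (a + b) := by module
        rw [e2, hv, neg_add_cancel]
      exact sub_eq_zero.1 ((smul_eq_zero.1 e1).resolve_left two_ne_zero)
    -- conjugation
    have hcm : ∀ (M : Matrix (Fin g ⊕ Fin g) (Fin g ⊕ Fin g) ℂ) (u : Fin g ⊕ Fin g → ℂ),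
        cnj (M *ᵥ u) = M.map cc *ᵥ cnj u := fun M u => (map_mv cc M u).symm
    have hadd : cnj (a + b) = cnj a + cnj b := by
      funext i
      exact map_add cc _ _
    have hDca : DZ Z *ᵥ cnj a = cnj a := by
      have e1 := hcm (DZ Z) a
      have e2 : cnj (-a) = -cnj a := by
        funext i
        exact map_neg cc _
      rw [hDa, e2, Pool.Agent.Y90.DZ_conj, neg_mulVec] at e1
      exact (neg_injective e1).symm
    have hDcb : DZ Z *ᵥ cnj b = -cnj b := by
      have e1 := hcm (DZ Z) b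
      rw [hDb, Pool.Agent.Y90.DZ_conj, neg_mulVec] at e1
      exact (neg_eq_iff_eq_neg.2 e1).symm
    have heca : e *ᵥ cnj a = 0 := by
      have e1 : e *ᵥ cnj a = -(e *ᵥ cnj a) := by
        nth_rewrite 1 [← hDca]
        rw [mulVec_mulVec, heD, neg_mulVec]
      have e2 : (2 : ℂ) • (e *ᵥ cnj a) = 0 := by
        rw [two_smul]
        nth_rewrite 1 [e1]
        rw [neg_add_cancel]
      exact (smul_eq_zero.1 e2).resolve_left two_ne_zero
    have hecb : e *ᵥ cnj b = cnj a := by
      -- e * conj e is the projection to the eigenspace for one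
      have e1 : e * e.map cc = (2 : ℂ)⁻¹ • (1 + DZ Z) := by
        have e2 := congrArg (fun X => X.map cc) hee
        beta_reduce at e2
        rw [map_cc_mul, map_cc_cc] at e2
        rw [e2]
        ext i j
        have e3 : cc ((2 : ℂ)⁻¹) = (2 : ℂ)⁻¹ := by
          rw [map_inv₀]
          exact congrArg _ (map_ofNat cc 2)
        have e4 : ((DZ Z).map cc) i j = (-DZ Z) i j := by rw [Pool.Agent.Y90.DZ_conj]
        have e5 : cc (DZ Z i j) = -(DZ Z i j) := e4
        have e6 : cc ((1 : Matrix (Fin g ⊕ Fin g) (Fin g ⊕ Fin g) ℂ) i j) =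
            (1 : Matrix (Fin g ⊕ Fin g) (Fin g ⊕ Fin g) ℂ) i j := by
          rw [Matrix.one_apply]
          split_ifs
          · exact map_one cc
          · exact map_zero cc
        change cc ((2 : ℂ)⁻¹ * ((1 : Matrix (Fin g ⊕ Fin g) (Fin g ⊕ Fin g) ℂ) i j - DZ Z i j)) =
          (2 : ℂ)⁻¹ * ((1 : Matrix (Fin g ⊕ Fin g) (Fin g ⊕ Fin g) ℂ) i j + DZ Z i j)
        rw [map_mul, map_sub, e3, e5, e6, sub_neg_eq_add]
      have e2 : cnj b = e.map cc *ᵥ cnj a := by
        nth_rewrite 1 [hbe]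
        exact hcm e a
      rw [e2, mulVec_mulVec, e1, smul_mulVec, add_mulVec, one_mulVec, hDca, ← two_smul ℂ,
        smul_smul, inv_mul_cancel₀ (by norm_num), one_smul]
    change (DZ Z - (2 : ℂ) • e) *ᵥ cnj v = -cnj v
    rw [hab, hadd, sub_mulVec, smul_mulVec, mulVec_add, mulVec_add, hDca, hDcb, heca, hecb,
      zero_add]
    module

/-- **The real point.** -/
theorem exists_rp [Countable k] (hE : RealMoves k) (hN : NoImagQuad k) (h : PM Z)
    (hZ : ∀ i j, Z i j ∈ k) : ∃ T ∈ LZ Z, T * T = 1 ∧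
      ∀ v, T *ᵥ v = -v → T *ᵥ (fun i => cc (v i)) = -(fun i => cc (v i)) := by
  obtain ⟨e, he, -, -, -, h1, h2⟩ := exists_rp' hE hN h hZ
  exact ⟨_, (LZ Z).sub_mem DZ_mem ((LZ Z).smul_mem _ he), h1, h2⟩

end

end Pool.Agent.N994.PG
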