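import Mathlib
import Pool.Agent.N994.PG.KD

/-!
# Balanced signatures for period fields without imaginary quadratic subfields
-/

set_option linter.unusedSectionVars false

namespace Pool.Agent.N994.PG

open Matrix Module Pool.Agent.W437.HC Pool.Agent.W437.HD Pool.Agent.Y90 Pool.Agent.R915
open Pool.Agent.W548.Odd hiding cv
open Pool.Agent.N994.PF (rs Zk InL Ed Sys PP PP_eq comb card_emb)

open scoped ComplexOrder

noncomputable section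

section iso

variable {B : Type*} [Fintype B] [DecidableEq B] {L : Submodule ℂ (Matrix B B ℂ)}

/-- Irreducible submodules of sums of irreducible submodules. -/
theorem exists_iso_of_le (h : CRed L) {U : Submodule ℂ (B → ℂ)} (hU : IrS L U)
    {S : Set (Submodule ℂ (B → ℂ))} (hS : ∀ U' ∈ S, IrS L U') (hle : U ≤ sSup S) :
    ∃ U' ∈ S, ∃ π : (B → ℂ) →ₗ[ℂ] (B → ℂ), (∀ X ∈ L, ∀ w, π (X *ᵥ w) = X *ᵥ π w) ∧
      (∀ u ∈ U', π u = 0 → u = 0) ∧ U'.map π = U := by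
  obtain ⟨π, h1, h2, h3⟩ := h U hU.2.1
  obtain ⟨U', hU', u, hu, hu0⟩ : ∃ U' ∈ S, ∃ u ∈ U', π u ≠ 0 := by
    by_contra hcon
    push Not at hcon
    have h4 : sSup S ≤ LinearMap.ker π := sSup_le fun U' hU' u hu => hcon U' hU' u hu
    apply hU.1
    rw [eq_bot_iff]
    intro u hu
    rw [Submodule.mem_bot, ← h3 u hu]
    exact h4 (hle hu)
  exact ⟨U', hU', π, h1, (hS U' hU').inj (fun X hX u _ => h1 X hX u) ⟨u, hu, hu0⟩,
    (hS U' hU').map_eq hU (fun X hX u _ => h1 X hX u) ⟨u, hu, hu0⟩ fun u _ => h2 u⟩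

theorem finrank_eg_iso {T : Matrix B B ℂ} {π : (B → ℂ) →ₗ[ℂ] (B → ℂ)}
    (hT : ∀ w, π (T *ᵥ w) = T *ᵥ π w) {U' : Submodule ℂ (B → ℂ)} (hs : ∀ u ∈ U', T *ᵥ u ∈ U')
    (hi : ∀ u ∈ U', π u = 0 → u = 0) (c : ℂ) :
    finrank ℂ (U'.map π ⊓ Eg T c : Submodule ℂ (B → ℂ)) =
      finrank ℂ (U' ⊓ Eg T c : Submodule ℂ (B → ℂ)) := by
  have h1 : U'.map π ⊓ Eg T c = (U' ⊓ Eg T c).map π := by
    ext v
    constructor
    · rintro ⟨⟨u, hu, rfl⟩, hv⟩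
      refine ⟨u, ⟨hu, ?_⟩, rfl⟩
      rw [SetLike.mem_coe, mem_Eg] at hv ⊢
      rw [← hT, ← map_smul, ← sub_eq_zero, ← map_sub] at hv
      exact sub_eq_zero.1 (hi _ (U'.sub_mem (hs u hu) (U'.smul_mem _ hu)) hv)
    · rintro ⟨u, ⟨hu, hu'⟩, rfl⟩
      refine ⟨⟨u, hu, rfl⟩, ?_⟩
      rw [SetLike.mem_coe, mem_Eg] at hu' ⊢
      rw [← hT, hu', map_smul]
  rw [h1]
  exact finrank_map_of_inj fun u hu hu0 => hi u hu.1 hu0

end iso

variable {g : ℕ} {Z : Matrix (Fin g) (Fin g) ℂ} {k : IntermediateField ℚ ℂ}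

/-- The sum of the irreducible submodules with a given number of periods. -/
def Sgm (hZ : ∀ i j, Z i j ∈ k) (m : ℕ) (p : k →+* ℂ) : Submodule ℂ (Fin g ⊕ Fin g → ℂ) :=
  sSup {U | IrS (LZ Z) U ∧ finrank ℂ (U ⊓ Lp hZ p : Submodule ℂ (Fin g ⊕ Fin g → ℂ)) = m}

theorem cjS_mono {B : Type*} {σ : ℂ ≃+* ℂ} {U V : Submodule ℂ (B → ℂ)} (h : U ≤ V) :
    cjS σ U ≤ cjS σ V := fun _ hv => h hv

theorem Sgm_cj_le (hZ : ∀ i j, Z i j ∈ k) (m : ℕ) (τ : ℂ ≃+* ℂ) (p : k →+* ℂ) :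
    Sgm hZ m ((τ : ℂ →+* ℂ).comp p) ≤ cjS τ (Sgm hZ m p) := by
  refine sSup_le ?_
  rintro U ⟨hU, hm⟩
  have h1 : cjS τ.symm U ≤ Sgm hZ m p := by
    refine le_sSup ⟨hU.cj gal_LZ τ.symm, ?_⟩
    have h2 := np_cj hZ ((τ : ℂ →+* ℂ).comp p) τ.symm U
    have h3 : (τ.symm : ℂ →+* ℂ).comp ((τ : ℂ →+* ℂ).comp p) = p := by
      ext x
      exact τ.symm_apply_apply _
    rw [h3] at h2
    rw [h2, hm]
  have h2 := cjS_mono (σ := τ) h1
  rwa [cjS_symm'] at h2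

theorem Sgm_cj (hZ : ∀ i j, Z i j ∈ k) (m : ℕ) (τ : ℂ ≃+* ℂ) (p : k →+* ℂ) :
    Sgm hZ m ((τ : ℂ →+* ℂ).comp p) = cjS τ (Sgm hZ m p) := by
  refine le_antisymm (Sgm_cj_le hZ m τ p) ?_
  have h1 := Sgm_cj_le hZ m τ.symm ((τ : ℂ →+* ℂ).comp p)
  have h3 : (τ.symm : ℂ →+* ℂ).comp ((τ : ℂ →+* ℂ).comp p) = p := by
    ext x
    exact τ.symm_apply_apply _
  rw [h3] at h1
  have h2 := cjS_mono (σ := τ) h1
  rwa [cjS_symm'] at h2

/-- The matrices with image in a subspace. -/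
def IM {B : Type*} [Fintype B] (S : Submodule ℂ (B → ℂ)) : Submodule ℂ (Matrix B B ℂ) where
  carrier := {X | ∀ v, X *ᵥ v ∈ S}
  zero_mem' := fun v => by
    rw [zero_mulVec]
    exact S.zero_mem
  add_mem' := fun {X Y} hX hY v => by
    rw [add_mulVec]
    exact S.add_mem (hX v) (hY v)
  smul_mem' := fun c X hX v => by
    rw [smul_mulVec]
    exact S.smul_mem _ (hX v)

theorem mem_IM {B : Type*} [Fintype B] {S : Submodule ℂ (B → ℂ)} {X : Matrix B B ℂ} :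
    X ∈ IM S ↔ ∀ v, X *ᵥ v ∈ S := Iff.rfl

theorem IM_cj {B : Type*} [Fintype B] [DecidableEq B] (τ : ℂ ≃+* ℂ) (S : Submodule ℂ (B → ℂ)) :
    IM (cjS τ S) = cjM τ (IM S) := by
  ext X
  rw [mem_IM, mem_cjM, mem_IM]
  have key : ∀ v : B → ℂ, (fun i => τ.symm ((X *ᵥ fun j => τ (v j)) i)) = X.map τ.symm *ᵥ v := by
    intro v
    have h1 := map_mv τ (X.map τ.symm) v
    rw [map_symm'] at h1
    rw [h1]
    funext i
    exact τ.symm_apply_apply _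
  constructor
  · intro h1 v
    have h2 := mem_cjS.1 (h1 fun j => τ (v j))
    rwa [key] at h2
  · intro h1 v
    rw [mem_cjS]
    have h2 := h1 fun j => τ.symm (v j)
    rw [← key] at h2
    have h3 : (fun j => τ (τ.symm (v j))) = v := by
      funext j
      exact τ.apply_symm_apply _
    rwa [h3] at h2

theorem IM_inj {B : Type*} [Fintype B] [DecidableEq B] {S S' : Submodule ℂ (B → ℂ)}
    (h : IM S = IM S') : S = S' := by
  have key : ∀ {S S' : Submodule ℂ (B → ℂ)}, IM S = IM S' → S ≤ S' := by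
    intro S S' h v hv
    by_cases h0 : v = 0
    · rw [h0]
      exact S'.zero_mem
    obtain ⟨i, -⟩ := Function.ne_iff.1 h0
    have h1 : (Matrix.of fun a _ => v a : Matrix B B ℂ) ∈ IM S := by
      intro w
      have h2 : (Matrix.of fun a _ => v a : Matrix B B ℂ) *ᵥ w = (∑ j, w j) • v := by
        funext a
        rw [mulVec, dotProduct, Pi.smul_apply, smul_eq_mul, Finset.sum_mul]
        refine Finset.sum_congr rfl fun j _ => ?_
        rw [of_apply, mul_comm]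
      rw [h2]
      exact S.smul_mem _ hv
    rw [h] at h1
    have h2 := h1 (Pi.single i 1)
    rw [mulVec_single_one] at h2
    exact h2
  exact le_antisymm (key h) (key h.symm)

/-- The parts in the opposite and in the complex conjugate subspace. -/
theorem fp_bar (h : PM Z) (hZ : ∀ i j, Z i j ∈ k) {U : Submodule ℂ (Fin g ⊕ Fin g → ℂ)}
    (hU : IrS (LZ Z) U) (σ : ℂ ≃+* ℂ) :
    finrank ℂ (U ⊓ Lp hZ (rs k (cc.trans σ)) : Submodule ℂ (Fin g ⊕ Fin g → ℂ)) =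
      finrank ℂ (U ⊓ Lp hZ ((cc : ℂ →+* ℂ).comp (rs k σ)) :
        Submodule ℂ (Fin g ⊕ Fin g → ℂ)) := by
  have hUb := hU.cj gal_LZ cc
  have h1 := edge_eq h hZ (p := rs k σ) (q := rs k (cc.trans σ)) ⟨σ, rfl, rfl⟩ hU.2.1
  have h2 := edge_eq h hZ (p := rs k σ) (q := rs k (cc.trans σ)) ⟨σ, rfl, rfl⟩ hUb.2.1
  have h3 := tr_st h hU hUb (du_bar h hU) σ.symm
  unfold tr at h3
  rw [pd_cj h hZ, qd_cj h hZ, pd_cj h hZ, qd_cj h hZ] at h3
  have h4 := np_cj hZ (rs k σ) cc (cjS cc U)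
  have h5 : cjS cc (cjS cc U) = U := cjS_symm' cc U
  rw [h5] at h4
  rw [finrank_cjS] at h2
  omega

theorem Sgm_bar (h : PM Z) (hZ : ∀ i j, Z i j ∈ k) (m : ℕ) (σ : ℂ ≃+* ℂ) :
    Sgm hZ m (rs k (cc.trans σ)) = Sgm hZ m ((cc : ℂ →+* ℂ).comp (rs k σ)) := by
  unfold Sgm
  congr 1
  ext U
  constructor
  · rintro ⟨hU, hm⟩
    exact ⟨hU, by rw [← fp_bar h hZ hU, hm]⟩
  · rintro ⟨hU, hm⟩
    exact ⟨hU, by rw [fp_bar h hZ hU, hm]⟩

/-- **All signatures are balanced.** -/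
theorem tr_cm [Countable k] (hE : RealMoves k) (hN : NoImagQuad k) (h : PM Z)
    (hZ : ∀ i j, Z i j ∈ k) {U : Submodule ℂ (Fin g ⊕ Fin g → ℂ)} (hU : IrS (LZ Z) U) :
    2 * pd Z U = finrank ℂ U ∧ 2 * qd Z U = finrank ℂ U := by
  have h1 := pd_cj h hZ (RingEquiv.refl ℂ).symm U
  have h2 := qd_cj h hZ (RingEquiv.refl ℂ).symm U
  have hcj : cjS (RingEquiv.refl ℂ) U = U := by
    ext v
    exact Iff.rfl
  rw [RingEquiv.symm_symm, hcj] at h1 h2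
  have h3 : rs k (RingEquiv.refl ℂ).symm = rs k (RingEquiv.refl ℂ) := rfl
  have h4 : rs k (cc.trans (RingEquiv.refl ℂ).symm) = rs k cc := rfl
  rw [h4] at h1
  rw [h3] at h2
  have h5 := edge_eq h hZ (p := rs k (RingEquiv.refl ℂ)) (q := rs k cc)
    ⟨RingEquiv.refl ℂ, rfl, rfl⟩ hU.2.1
  obtain ⟨m, hm⟩ : ∃ m, m = finrank ℂ (U ⊓ Lp hZ (rs k (RingEquiv.refl ℂ)) :
    Submodule ℂ (Fin g ⊕ Fin g → ℂ)) := ⟨_, rfl⟩
  have h6 := IM_inj (blocks_cm hE hN (fun p => IM (Sgm hZ m p))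
    (fun τ p => by rw [Sgm_cj, IM_cj])
    (fun σ => by rw [Sgm_bar h hZ]))
  have h7 : U ≤ Sgm hZ m (rs k cc) := by
    rw [h6]
    exact le_sSup ⟨hU, hm.symm⟩
  obtain ⟨U', ⟨hU', hm'⟩, π, g1, g2, g3⟩ := exists_iso_of_le h.cred hU (fun U' hU' => hU'.1) h7
  have h8 : Lp hZ (rs k cc) = Eg (DS Z (RingEquiv.refl ℂ)) 1 := Lp_pos h hZ (RingEquiv.refl ℂ)
  have h9 := finrank_eg_iso (T := DS Z (RingEquiv.refl ℂ)) (π := π) (fun w => g1 _ (DS_mem _) w)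
    (U' := U') (fun u hu => hU'.2.1 _ (DS_mem _) u hu) g2 1
  rw [g3, ← h8, hm'] at h9
  omega

/-- All signatures are balanced, for all embeddings. -/
theorem even_cm [Countable k] (hE : RealMoves k) (hN : NoImagQuad k) (h : PM Z)
    (hZ : ∀ i j, Z i j ∈ k) {U : Submodule ℂ (Fin g ⊕ Fin g → ℂ)} (hU : IrS (LZ Z) U)
    (p : k →+* ℂ) : 2 * finrank ℂ (U ⊓ Lp hZ p : Submodule ℂ (Fin g ⊕ Fin g → ℂ)) =
      finrank ℂ U := by
  obtain ⟨σ, hσ⟩ := exists_aut_emb' (algebraMap k ℂ) p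
  have hσ' : rs k σ = p := hσ
  rw [← hσ', ← qd_cj h hZ, (tr_cm hE hN h hZ (hU.cj gal_LZ σ.symm)).2, finrank_cjS]

/-- **Orthogonal submodules.** -/
theorem BarI.four_dvd_cm [Countable k] {U : Submodule ℂ (Fin g ⊕ Fin g → ℂ)}
    {T : Matrix (Fin g ⊕ Fin g) (Fin g ⊕ Fin g) ℂ} (h : PM Z) (hU : IrS (LZ Z) U)
    (ha : ¬ AltF Z U) (hT : BarI Z U T) (hE : RealMoves k) (hN : NoImagQuad k)
    (hZ : ∀ i j, Z i j ∈ k) : 4 ∣ finrank ℂ U := by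
  obtain ⟨e, he, hDe, heD, hee, hTT, hr⟩ := exists_rp' hE hN h hZ
  obtain ⟨R, hR⟩ : ∃ R, R = DZ Z - (2 : ℂ) • e := ⟨_, rfl⟩
  rw [← hR] at hTT hr
  have hRL : R ∈ LZ Z := by
    rw [hR]
    exact (LZ Z).sub_mem DZ_mem ((LZ Z).smul_mem _ he)
  obtain ⟨c, hc, hq⟩ := hT.quat h hU ha
  have h1 : Even (finrank ℂ (U ⊓ Eg R (-1) : Submodule ℂ (Fin g ⊕ Fin g → ℂ))) := by
    refine even_quat (mulVecLin T) (fun v hv => ?_) hc fun v hv => hq v hv.1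
    have h3 : R *ᵥ (T *ᵥ v) = -(T *ᵥ v) := by
      have h4 := mem_Eg.1 hv.2
      rw [mulVec_mulVec, hT.comm _ hRL, ← mulVec_mulVec, h4, neg_one_smul, mulVec_neg]
    refine ⟨mem_cc.1 (hT.mem v hv.1), ?_⟩
    rw [SetLike.mem_coe, mem_Eg, neg_one_smul]
    exact hr _ h3
  have h2 : finrank ℂ (U ⊓ Eg R (-1) : Submodule ℂ (Fin g ⊕ Fin g → ℂ)) =
      finrank ℂ (U ⊓ Eg (DZ Z) (-1) : Submodule ℂ (Fin g ⊕ Fin g → ℂ)) := by
    refine finrank_transfer (γ := 1 + e) (γ' := 1 - e) ?_ ?_ ?_ (fun u hu => ?_) (fun u hu => ?_) _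
    · rw [hR]
      have : (DZ Z - (2 : ℂ) • e) * (1 + e) =
          DZ Z + DZ Z * e - (2 : ℂ) • e - (2 : ℂ) • (e * e) := by
        simp only [sub_mul, mul_add, mul_one, Matrix.smul_mul]
        abel
      rw [this, hDe, hee, add_mul, one_mul, heD]
      module
    · have : (1 + e) * (1 - e) = 1 - e * e := by noncomm_ring
      rw [this, hee, sub_zero]
    · have : (1 - e) * (1 + e) = 1 - e * e := by noncomm_ring
      rw [this, hee, sub_zero]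
    · rw [add_mulVec, one_mulVec]
      exact U.add_mem hu (hU.2.1 e he u hu)
    · rw [sub_mulVec, one_mulVec]
      exact U.sub_mem hu (hU.2.1 e he u hu)
  have h3 : U ⊓ Eg (DZ Z) (-1) = U ⊓ eig Z (-1) := by
    ext v
    rw [Submodule.mem_inf, Submodule.mem_inf, mem_eig, mem_Eg]
  have h4 := (tr_cm hE hN h hZ hU).2
  rw [h2, h3] at h1
  obtain ⟨m, hm⟩ := h1
  have h5 : qd Z U = finrank ℂ (U ⊓ eig Z (-1) : Submodule ℂ (Fin g ⊕ Fin g → ℂ)) := rfl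
  exact ⟨m, by omega⟩

end

end Pool.Agent.N994.PG
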