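import Mathlib
import Pool.Agent.N994.PG.KE
import Pool.Agent.N994.PG.HDet

/-!
# The local condition for fields which satisfy `RealMoves`
-/

set_option linter.unusedSectionVars false

namespace Pool.Agent.N994.PG

open Matrix Module Pool.Agent.W437.HC Pool.Agent.W437.HD Pool.Agent.Y90 Pool.Agent.R915
open Pool.Agent.W548.Odd hiding cv
open Pool.Agent.N994.PF (rs Zk InL Ed Sys PP PP_eq comb card_emb)
open scoped ComplexOrder

noncomputable section

variable {g : ℕ} {Z : Matrix (Fin g) (Fin g) ℂ} {k : IntermediateField ℚ ℂ}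

/-- Two-dimensional submodules are alternating. -/
theorem altF_of_two_cm [Countable k] (hE : RealMoves k) (hN : NoImagQuad k) (h : PM Z)
    (hZ : ∀ i j, Z i j ∈ k) {U : Submodule ℂ (Fin g ⊕ Fin g → ℂ)} (hU : IrS (LZ Z) U)
    (h3 : finrank ℂ U = 2) : AltF Z U := by
  have hpos : ∀ p : k →+* ℂ, ∃ u ∈ U, u ≠ 0 ∧ u ∈ Lp hZ p := by
    intro p
    have h4 := even_cm hE hN h hZ hU p
    have h5 : (U ⊓ Lp hZ p : Submodule ℂ (Fin g ⊕ Fin g → ℂ)) ≠ ⊥ := by
      intro h6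
      rw [h6, finrank_bot, h3] at h4
      omega
    obtain ⟨u, ⟨hu1, hu2⟩, hu0⟩ := Submodule.exists_mem_ne_zero_of_ne_bot h5
    exact ⟨u, hu1, hu0, hu2⟩
  refine altF_of_two h hU.2.1 h3 (fun σ => ?_) fun σ => ?_
  · obtain ⟨u, hu, hu0, hu'⟩ := hpos (rs k σ)
    exact ⟨u, hu, hu0, (mem_neg h hZ σ).1 hu'⟩
  · obtain ⟨u, hu, hu0, hu'⟩ := hpos (rs k (cc.trans σ))
    exact ⟨u, hu, hu0, (mem_pos h hZ σ).1 hu'⟩

/-- The local condition for alternating submodules. -/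
theorem ld_alt (h : PM Z) (hs : IsSimpleAV Z) (hg : 0 < g) (hg7 : g ≤ 7)
    {U : Submodule ℂ (Fin g ⊕ Fin g → ℂ)} (hU : IrS (LZ Z) U) (ha : AltF Z U)
    (hf : U = ⊤ → FullZ Z) : LD h U := by
  have hsd := ha.sdu
  obtain ⟨htr, hpos⟩ := two_le_tr h hU hsd
  have hpq := pd_add_qd h hU.2.1
  refine ⟨?_, by omega, Or.inl hsd⟩
  obtain ⟨b, h0, hb, hal⟩ := ha
  by_cases h3 : finrank ℂ U ≤ 3
  · exact (rk1_two h hU hsd h3).1
  by_cases h4 : finrank ℂ U = 4
  · exact rk1_sp h hU h4 b h0 hb hal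
  by_cases h6 : finrank ℂ U = 6
  · exact rk1_sp6 h hU h6 b h0 hb hal
  obtain ⟨m, hm⟩ := finrank_dvd h hs hU
  have hm1 : m = 1 := by
    rcases m with _ | _ | m
    · omega
    · rfl
    · exfalso
      have h8 : 8 * 2 ≤ finrank ℂ U * (m + 1 + 1) := Nat.mul_le_mul (by omega) (by omega)
      omega
  subst hm1
  have hT : U = ⊤ := Submodule.eq_top_of_finrank_eq (by rw [finrank_V]; omega)
  have hf' := hf hT
  subst hT
  by_cases h5 : g = 5
  · exact rk1_five h hs h5 hU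
  · exact rk1_top h hs (by omega) hU hf'

/-- **Fields which satisfy `RealMoves`, dimension at most seven.** -/
theorem ld_ext [Countable k] (hE : RealMoves k) (h : PM Z) (hs : IsSimpleAV Z)
    (hg : 0 < g) (hg7 : g ≤ 7) (hZ : ∀ i j, Z i j ∈ k)
    (hc : (∃ a, RealMax (AVZ h) a) ∨ (NoImagQuad k ∧ (g = 6 → ∀ (d : ℚ)
      (φ : (AVZ h).H →ₗ[ℚ] (AVZ h).H), EndQuad (AVZ h) d φ → HasTrivialDisc (AVZ h) d φ)))
    {U : Submodule ℂ (Fin g ⊕ Fin g → ℂ)} (hU : IrS (LZ Z) U) : LD h U := by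
  by_cases ha : AltF Z U
  · exact ld_alt h hs hg hg7 hU ha fun hT => by
      subst hT
      exact fullZ_ext hE h hZ hU
        (fun X _ hX => eq_of_mulVec fun v => by rw [hX v trivial, zero_mulVec]) ha.sdu
  obtain ⟨hN, hdisc⟩ := hc.resolve_left fun ⟨a, hra⟩ => ha (altF_rf h hs hg (hra.rf h) hU)
  have htr := tr_cm hE hN h hZ hU
  have hU0 : 0 < finrank ℂ U := by
    rw [Nat.pos_iff_ne_zero, ne_eq, Submodule.finrank_eq_zero]
    exact hU.1
  have h1 := dvd_of_not_alt h hs hU ha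
  have hgo : ¬ Odd g := by
    intro ho
    rw [← htr.1] at h1
    have h3 : 2 ∣ g := (Dvd.intro _ rfl).trans h1
    exact (Nat.not_even_iff_odd.2 ho) (even_iff_two_dvd.2 h3)
  have hn2 : finrank ℂ U ≠ 2 := fun h3 => ha (altF_of_two_cm hE hN h hZ hU h3)
  have hgU : finrank ℂ U = g ∧ (g = 4 ∨ g = 6) := by
    rw [Nat.odd_iff] at hgo
    obtain ⟨m, hm⟩ := h1
    obtain ⟨j, hj⟩ : ∃ j, finrank ℂ U = 2 * j := ⟨_, htr.1.symm⟩
    have hj2 : 2 ≤ j := by omega
    have hm1 : m = 1 := by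
      rcases m with _ | _ | m
      · omega
      · rfl
      · exfalso
        have h8 : 4 * 2 ≤ finrank ℂ U * (m + 1 + 1) := Nat.mul_le_mul (by omega) (by omega)
        omega
    subst hm1
    omega
  obtain ⟨hdim, hg46⟩ := hgU
  by_cases hT : ∃ T, BarI Z U T
  · exfalso
    obtain ⟨T, hT⟩ := hT
    have h4 := hT.four_dvd_cm h hU ha hE hN hZ
    have hg4 : g = 4 := by omega
    have hne := hT.ne_om h hU
    have hinv : ∀ X ∈ LZ Z, ∀ u ∈ U, ∀ v ∈ U, ((om g).compl₂ (mulVecLin T)) (X *ᵥ u) v +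
        ((om g).compl₂ (mulVecLin T)) u (X *ᵥ v) = 0 := fun X hX u _ v _ => hT.inv_om h hX u v
    exact no_orth4 h hU ((om g).compl₂ (mulVecLin T)) hne hinv
      (fun u hu v hv => hT.symm h ha u hu v hv)
      (fullZ_ext hE h hZ hU (fun X hX hXU => hT.faithful h hU hdim ha hX hXU) ⟨_, hne, hinv⟩)
      (by omega) (by omega)
  · obtain ⟨φ, d, kq⟩ := quad_of_no_bar h hU hdim ha hT
    obtain ⟨α, hα, hm⟩ := kq.exists_root h hU
    have hkw := kq.kw h hα hm hU.1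
    have hd6 : g = 6 → HasTrivialDisc (AVZ h) d (Matrix.toLin' φ) := fun h6 =>
      hdisc h6 d _ (endQuad_of_qf h kq)
    have hLC : LC h U := by
      refine kq.lc3 h (fun V hV => ?_) hd6 hU
      obtain ⟨β, hβ, hmV⟩ := kq.exists_root h hV
      have e1 := kq.dim h hβ hmV hV.1
      have htr := tr_cm hE hN h hZ hV
      omega
    refine ⟨hLC.rk (by omega), by omega, Or.inr ⟨φ, α, d, kq, hkw, hg46, ?_, hd6⟩⟩
    unfold tr
    omega

end

end Pool.Agent.N994.PG
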