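import Mathlib
import Pool.Agent.N994.PG.HMain

/-!
# Relations between lines of simple factors with complex multiplication
-/

set_option linter.unusedSectionVars false

namespace Pool.Agent.N994.PG

open Matrix Module Pool.Agent.W437.HC Pool.Agent.W437.HD Pool.Agent.TH504.CB Pool.Agent.Y90
open Pool.Agent.R915
open Pool.Agent.W548.Odd hiding cv
open Pool.Agent.N994.PF (rs Zk InL Ed)
open Pool.Agent.W522.U (exists_reps exists_st Du)
open Pool.Agent.Y4 (conjEq)

noncomputable section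

variable {g : ℕ} {Z : Matrix (Fin g) (Fin g) ℂ} {k : IntermediateField ℚ ℂ}

/-- The conjugates of `U` depend only on the restrictions of the automorphisms to `k`. -/
def KLine (k : IntermediateField ℚ ℂ) (Z : Matrix (Fin g) (Fin g) ℂ)
    (U : Submodule ℂ (Fin g ⊕ Fin g → ℂ)) : Prop :=
  ∀ h : ℂ ≃+* ℂ, (∀ x ∈ k, h x = x) → ∀ τ : ℂ ≃+* ℂ,
    tr Z (cjS (τ.trans h) U) = tr Z (cjS τ U)

/-- The conjugates of `U` are given by a quadratic character. -/
def QLine (Z : Matrix (Fin g) (Fin g) ℂ) (U : Submodule ℂ (Fin g ⊕ Fin g → ℂ)) : Prop :=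
  ∃ χ : (ℂ ≃+* ℂ) →* ℂ, (∀ h, χ h = 1 ∨ χ h = -1) ∧ ∀ h τ : ℂ ≃+* ℂ,
    ((tr Z (cjS (τ.trans h) U) : ℤ) : ℂ) = χ h * ((tr Z (cjS τ U) : ℤ) : ℂ)

/-- The colouring defined by a line. -/
theorem KLine.col {U₀ : Submodule ℂ (Fin g ⊕ Fin g → ℂ)} (hk : KLine k Z U₀) (h : PM Z) (hU : IrS (LZ Z) U₀) (h1 : finrank ℂ U₀ = 1) :
    ∃ c : (k →+* ℂ) → Prop, (∀ p q, Ed k p q → (c p ↔ ¬ c q)) ∧
      ∀ σ : ℂ ≃+* ℂ, c (rs k σ) ↔ tr Z (cjS σ.symm U₀) = -1 := by
  have key : ∀ σ σ' : ℂ ≃+* ℂ, rs k σ = rs k σ' →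
      tr Z (cjS σ'.symm U₀) = tr Z (cjS σ.symm U₀) := by
    intro σ σ' hσ
    have h2 := hk (σ.trans σ'.symm) (fun x hx => by
      have h3 : σ x = σ' x := congrArg (fun p : k →+* ℂ => p ⟨x, hx⟩) hσ
      rw [RingEquiv.trans_apply, h3, RingEquiv.symm_apply_apply]) σ.symm
    have h4 : σ.symm.trans (σ.trans σ'.symm) = σ'.symm := by
      ext x
      simp
    rw [h4] at h2
    exact h2
  have hc : ∀ σ : ℂ ≃+* ℂ, (∃ σ', rs k σ' = rs k σ ∧ tr Z (cjS σ'.symm U₀) = -1) ↔
      tr Z (cjS σ.symm U₀) = -1 := by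
    intro σ
    constructor
    · rintro ⟨σ', h2, h3⟩
      rw [← h3]
      exact key σ' σ h2
    · intro h2
      exact ⟨σ, rfl, h2⟩
  refine ⟨fun p => ∃ σ', rs k σ' = p ∧ tr Z (cjS σ'.symm U₀) = -1, ?_, hc⟩
  rintro p q ⟨σ, rfl, rfl⟩
  have e1 := hc σ
  have e2 := hc (conjEq.trans σ)
  have e3 : cjS (conjEq.trans σ).symm U₀ = cjS cc (cjS σ.symm U₀) := by
    rw [cjS_trans]
    rfl
  have e4 : tr Z (cjS (conjEq.trans σ).symm U₀) = -tr Z (cjS σ.symm U₀) := by
    rw [e3]
    unfold tr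
    rw [pd_cc, qd_cc]
    ring
  rw [e4] at e2
  have e5 := tr_one h hU h1 σ.symm
  change (∃ σ', rs k σ' = rs k σ ∧ tr Z (cjS σ'.symm U₀) = -1) ↔
    ¬ (∃ σ', rs k σ' = rs k (conjEq.trans σ) ∧ tr Z (cjS σ'.symm U₀) = -1)
  rw [e1, e2]
  omega

/-- **There are no exceptional relations between lines.** -/
theorem bal_one' [FiniteDimensional ℚ k] (hk : finrank ℚ k ≤ 4) (h : PM Z)
    {s : ℕ} (W : Fin s → Submodule ℂ (Fin g ⊕ Fin g → ℂ))
    (hW : ∀ i, IrS (LZ Z) (W i)) (st : Fin s → Fin s) (hst : ∀ i, st (st i) = i)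
    (hDu : ∀ i, Du (RZ Z) 1 (W i) (W (st i))) (hDu' : ∀ i j, Du (RZ Z) 1 (W i) (W j) → j = st i)
    (a : Fin s → ℤ) (ha : ∀ i, a (st i) = -a i)
    (hone : ∀ i, a i ≠ 0 → finrank ℂ (W i) = 1)
    (hkl : ∀ i, a i ≠ 0 → KLine k Z (W i))
    (hsum : ∀ τ : ℂ ≃+* ℂ, ∑ q : (Σ i, Fin (a i).toNat), tr Z (cjS τ (W q.1)) = 0) (i : Fin s) :
    a i = 0 := by
  -- the sum
  have hS : ∀ τ : ℂ ≃+* ℂ, ∑ i, ((a i).toNat : ℤ) * tr Z (cjS τ (W i)) = 0 := by
    intro τ
    have h1 := hsum τ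
    rw [Fintype.sum_sigma] at h1
    rw [← h1]
    refine Finset.sum_congr rfl fun i _ => ?_
    have h2 : ∑ _q : Fin (a i).toNat, tr Z (cjS τ (W i)) =
        ((a i).toNat : ℤ) * tr Z (cjS τ (W i)) := by
      rw [Finset.sum_const, Finset.card_univ, Fintype.card_fin, nsmul_eq_mul]
    exact h2.symm
  -- reduction to positive coefficients
  suffices hpos : ∀ i, ¬ 0 < a i by
    have h1 := hpos i
    have h2 := hpos (st i)
    rw [ha] at h2
    omega
  intro i hai
  have hi1 := hone i (by omega)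
  obtain ⟨c, hc, hc'⟩ := (hkl i (by omega)).col h (hW i) hi1
  obtain ⟨σ, σ', hcol⟩ := two_edges hk (fun p hp => by
    have h1 := hc p p hp
    tauto)
  set x := tr Z (cjS σ.symm (W i)) with hx
  set y := tr Z (cjS σ'.symm (W i)) with hy
  have hx1 : x = 1 ∨ x = -1 := tr_one h (hW i) hi1 _
  have hy1 : y = 1 ∨ y = -1 := tr_one h (hW i) hi1 _
  -- equality of the traces
  have key : ∀ j, a j ≠ 0 → tr Z (cjS σ.symm (W j)) = x →
      tr Z (cjS σ'.symm (W j)) = y → j = i := by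
    intro j hj0 h1 h2
    have hj := hone j hj0
    obtain ⟨e, he, he'⟩ := (hkl j hj0).col h (hW j) hj
    have h3 := hcol e c he hc (by rw [he', hc', h1]) (by rw [he', hc', h2])
    have h4 : ∀ τ : ℂ ≃+* ℂ, tr Z (cjS τ (W j)) = tr Z (cjS τ (W i)) := by
      intro τ
      have h5 := h3 τ.symm
      rw [he', hc'] at h5
      change tr Z (cjS τ (W j)) = -1 ↔ tr Z (cjS τ (W i)) = -1 at h5
      have h6 := tr_one h (hW j) hj τ
      have h7 := tr_one h (hW i) hi1 τ
      omega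
    have h5 : Du (RZ Z) 1 (W j) (W (st i)) := by
      have hsi : finrank ℂ (W (st i)) = 1 := hone (st i) (by rw [ha]; omega)
      refine du_one h (hW j) (hW (st i)) hj hsi fun τ => ?_
      rw [h4, tr_st h (hW i) (hW (st i)) (hDu i) τ]
      ring
    have h6 := hDu' _ _ h5
    rw [← hst i, h6, hst]
  have h1 : ∑ j, ((a j).toNat : ℤ) * (x * tr Z (cjS σ.symm (W j)) +
      y * tr Z (cjS σ'.symm (W j))) = 0 := by
    have h2 : ∀ j, ((a j).toNat : ℤ) * (x * tr Z (cjS σ.symm (W j)) +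
        y * tr Z (cjS σ'.symm (W j))) = x * (((a j).toNat : ℤ) * tr Z (cjS σ.symm (W j))) +
        y * (((a j).toNat : ℤ) * tr Z (cjS σ'.symm (W j))) := fun j => by ring
    rw [Finset.sum_congr rfl fun j _ => h2 j, Finset.sum_add_distrib, ← Finset.mul_sum,
      ← Finset.mul_sum, hS, hS]
    ring
  rw [Finset.sum_eq_single i] at h1
  · have h2 : x * x = 1 := by rcases hx1 with h3 | h3 <;> rw [h3] <;> norm_num
    have h3 : y * y = 1 := by rcases hy1 with h3 | h3 <;> rw [h3] <;> norm_num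
    rw [← hx, ← hy, h2, h3] at h1
    omega
  · intro j _ hji
    by_cases hj0 : 0 < a j
    swap
    · have h2 : (a j).toNat = 0 := by omega
      rw [h2]
      simp
    have hj := hone j (by omega)
    have h2 := tr_one h (hW j) hj σ.symm
    have h3 := tr_one h (hW j) hj σ'.symm
    -- the opposite traces
    have h4 : ¬ (tr Z (cjS σ.symm (W j)) = -x ∧ tr Z (cjS σ'.symm (W j)) = -y) := by
      rintro ⟨e1, e2⟩
      have hsj : finrank ℂ (W (st j)) = 1 := hone (st j) (by rw [ha]; omega)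
      have h5 := key (st j) (by rw [ha]; omega)
        (by rw [tr_st h (hW j) (hW (st j)) (hDu j), e1, neg_neg])
        (by rw [tr_st h (hW j) (hW (st j)) (hDu j), e2, neg_neg])
      have h6 := ha j
      rw [h5] at h6
      omega
    have h5 : ¬ (tr Z (cjS σ.symm (W j)) = x ∧ tr Z (cjS σ'.symm (W j)) = y) :=
      fun e => hji (key j (by omega) e.1 e.2)
    have h6 : x * tr Z (cjS σ.symm (W j)) + y * tr Z (cjS σ'.symm (W j)) = 0 := by
      rcases hx1 with e1 | e1 <;> rcases hy1 with e2 | e2 <;> rw [e1, e2] at h4 h5 ⊢ <;> omega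
    rw [h6, mul_zero]
  · intro h2
    exact absurd (Finset.mem_univ i) h2

/-- Elimination of characters. -/
theorem kill_chars {ι : Type*} (H : Set (ℂ ≃+* ℂ)) (f χ : ι → (ℂ ≃+* ℂ) → ℂ) (J : Finset ι)
    (hf : ∀ i ∈ J, ∀ h τ : ℂ ≃+* ℂ, f i (τ.trans h) = χ i h * f i τ)
    (hχ : ∀ i ∈ J, ∃ h ∈ H, χ i h = -1) :
    ∀ (c : ι → ℂ) (K : (ℂ ≃+* ℂ) → ℂ), (∀ h ∈ H, ∀ τ : ℂ ≃+* ℂ, K (τ.trans h) = K τ) →
      (∀ τ, K τ + ∑ i ∈ J, c i * f i τ = 0) → ∀ τ, K τ = 0 := by
  classical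
  induction J using Finset.induction_on with
  | empty =>
    intro c K _ h0 τ
    have h1 := h0 τ
    rwa [Finset.sum_empty, add_zero] at h1
  | insert j J hj ih =>
    intro c K hK h0 τ
    obtain ⟨h₀, hh₀, hj0⟩ := hχ j (Finset.mem_insert_self j J)
    have h1 := ih (fun i hi => hf i (Finset.mem_insert_of_mem hi))
      (fun i hi => hχ i (Finset.mem_insert_of_mem hi)) (fun i => c i * (1 + χ i h₀))
      (fun τ => 2 * K τ) (fun h hh τ => by
        beta_reduce
        rw [hK h hh]) (fun τ => ?_) τ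
    · exact (mul_eq_zero.1 h1).resolve_left two_ne_zero
    · have e1 := h0 τ
      have e2 := h0 (τ.trans h₀)
      rw [hK h₀ hh₀, Finset.sum_insert hj] at e2
      rw [Finset.sum_insert hj] at e1
      rw [hf j (Finset.mem_insert_self j J), hj0] at e2
      have e3 : ∑ i ∈ J, c i * f i (τ.trans h₀) = ∑ i ∈ J, c i * (χ i h₀ * f i τ) :=
        Finset.sum_congr rfl fun i hi => by rw [hf i (Finset.mem_insert_of_mem hi)]
      have e4 : ∑ i ∈ J, c i * (1 + χ i h₀) * f i τ =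
          ∑ i ∈ J, c i * f i τ + ∑ i ∈ J, c i * (χ i h₀ * f i τ) := by
        rw [← Finset.sum_add_distrib]
        exact Finset.sum_congr rfl fun i _ => by ring
      beta_reduce
      rw [e3] at e2
      rw [e4]
      linear_combination e1 + e2

/-- **There are no exceptional relations between lines of the two kinds.** -/
theorem bal_gen [FiniteDimensional ℚ k] (hk : finrank ℚ k ≤ 4) (h : PM Z)
    {s : ℕ} (W : Fin s → Submodule ℂ (Fin g ⊕ Fin g → ℂ))
    (hW : ∀ i, IrS (LZ Z) (W i)) (st : Fin s → Fin s) (hst : ∀ i, st (st i) = i)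
    (hDu : ∀ i, Du (RZ Z) 1 (W i) (W (st i))) (hDu' : ∀ i j, Du (RZ Z) 1 (W i) (W j) → j = st i)
    (a : Fin s → ℤ) (ha : ∀ i, a (st i) = -a i)
    (hone : ∀ i, a i ≠ 0 → finrank ℂ (W i) = 1)
    (hkl : ∀ i, a i ≠ 0 → KLine k Z (W i) ∨ QLine Z (W i))
    (hsum : ∀ τ : ℂ ≃+* ℂ, ∑ q : (Σ i, Fin (a i).toNat), tr Z (cjS τ (W q.1)) = 0) (i : Fin s) :
    a i = 0 := by
  classical
  have hS : ∀ τ : ℂ ≃+* ℂ, ∑ i, ((a i).toNat : ℤ) * tr Z (cjS τ (W i)) = 0 := by
    intro τ
    have h1 := hsum τ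
    rw [Fintype.sum_sigma] at h1
    rw [← h1]
    refine Finset.sum_congr rfl fun i _ => ?_
    have h2 : ∑ _q : Fin (a i).toNat, tr Z (cjS τ (W i)) =
        ((a i).toNat : ℤ) * tr Z (cjS τ (W i)) := by
      rw [Finset.sum_const, Finset.card_univ, Fintype.card_fin, nsmul_eq_mul]
    exact h2.symm
  let kl : Fin s → Prop := fun i => KLine k Z (W i)
  have hklst : ∀ i, kl (st i) ↔ kl i := by
    have h1 : ∀ i, kl i → kl (st i) := by
      intro i hi h' hh' τ
      rw [tr_st h (hW i) (hW (st i)) (hDu i), tr_st h (hW i) (hW (st i)) (hDu i), hi h' hh' τ]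
    intro i
    refine ⟨fun h2 => ?_, h1 i⟩
    have h3 := h1 _ h2
    rwa [hst] at h3
  have hq : ∀ i, ¬ kl i → a i ≠ 0 → QLine Z (W i) := fun i h1 h2 => (hkl i h2).resolve_left h1
  -- the first kind
  let a' : Fin s → ℤ := fun i => if kl i then a i else 0
  have ha'0 : ∀ i, a' i = 0 := by
    let χ : Fin s → (ℂ ≃+* ℂ) → ℂ := fun i => if hi : QLine Z (W i) then hi.choose else 0
    have hχ : ∀ i, QLine Z (W i) → (∀ h, χ i h = 1 ∨ χ i h = -1) ∧ ∀ h τ : ℂ ≃+* ℂ,
        ((tr Z (cjS (τ.trans h) (W i)) : ℤ) : ℂ) = χ i h * ((tr Z (cjS τ (W i)) : ℤ) : ℂ) := by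
      intro i hi
      have h1 : χ i = hi.choose := dif_pos hi
      rw [h1]
      exact hi.choose_spec
    have hK := kill_chars {h : ℂ ≃+* ℂ | ∀ x ∈ k, h x = x}
      (fun i τ => ((tr Z (cjS τ (W i)) : ℤ) : ℂ)) χ
      (Finset.univ.filter fun i => ¬ kl i ∧ a i ≠ 0) (fun i hi h' τ => by
        rw [Finset.mem_filter] at hi
        exact (hχ i (hq i hi.2.1 hi.2.2)).2 h' τ) (fun i hi => by
        rw [Finset.mem_filter] at hi
        obtain ⟨-, h1, h2⟩ := hi
        have h3 : ¬ KLine k Z (W i) := h1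
        unfold KLine at h3
        push Not at h3
        obtain ⟨h', hh', τ, h4⟩ := h3
        refine ⟨h', hh', ?_⟩
        have h5 := hχ i (hq i h1 h2)
        rcases h5.1 h' with h6 | h6
        · exfalso
          have h7 := h5.2 h' τ
          rw [h6, one_mul] at h7
          exact h4 (by exact_mod_cast h7)
        · exact h6) (fun i => (((a i).toNat : ℤ) : ℂ))
      (fun τ => ((∑ i, ((a' i).toNat : ℤ) * tr Z (cjS τ (W i)) : ℤ) : ℂ)) (fun h' hh' τ => by
        beta_reduce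
        congr 1
        refine Finset.sum_congr rfl fun i _ => ?_
        by_cases hi : kl i
        · rw [hi h' hh' τ]
        · have h1 : a' i = 0 := if_neg hi
          rw [h1]
          simp) (fun τ => by
        beta_reduce
        rw [Finset.sum_filter]
        have h1 : ∀ i, (if ¬ kl i ∧ a i ≠ 0 then (((a i).toNat : ℤ) : ℂ) *
            ((tr Z (cjS τ (W i)) : ℤ) : ℂ) else 0) =
            ((((a i).toNat : ℤ) - ((a' i).toNat : ℤ) : ℤ) : ℂ) * ((tr Z (cjS τ (W i)) : ℤ) : ℂ) := by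
          intro i
          by_cases hi : kl i
          · have h1 : a' i = a i := if_pos hi
            rw [h1, if_neg (fun h2 => h2.1 hi), sub_self]
            simp
          · have h1 : a' i = 0 := if_neg hi
            rw [h1]
            by_cases h2 : a i = 0
            · rw [if_neg (fun h3 => h3.2 h2), h2]
              simp
            · rw [if_pos ⟨hi, h2⟩]
              simp
        rw [Finset.sum_congr rfl fun i _ => h1 i]
        have h2 := hS τ
        have h3 : ∑ i, ((a' i).toNat : ℤ) * tr Z (cjS τ (W i)) +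
            ∑ i, (((a i).toNat : ℤ) - ((a' i).toNat : ℤ)) * tr Z (cjS τ (W i)) = 0 := by
          rw [← h2, ← Finset.sum_add_distrib]
          exact Finset.sum_congr rfl fun i _ => by ring
        exact_mod_cast h3)
    refine bal_one' hk h W hW st hst hDu hDu' a' (fun i => ?_) (fun i hi => ?_) (fun i hi => ?_)
      (fun τ => ?_)
    · change (if kl (st i) then a (st i) else 0) = -(if kl i then a i else 0)
      by_cases hi : kl i
      · rw [if_pos hi, if_pos ((hklst i).2 hi), ha]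
      · rw [if_neg hi, if_neg fun h1 => hi ((hklst i).1 h1), neg_zero]
    · by_cases hi' : kl i
      · have h1 : a' i = a i := if_pos hi'
        exact hone i (by rwa [h1] at hi)
      · exact absurd (if_neg hi') hi
    · by_contra hi'
      exact hi (if_neg hi')
    · have h1 : (∑ i, ((a' i).toNat : ℤ) * tr Z (cjS τ (W i)) : ℤ) = 0 := by
        exact_mod_cast hK τ
      rw [Fintype.sum_sigma, ← h1]
      refine Finset.sum_congr rfl fun i _ => ?_
      have h2 : ∑ _q : Fin (a' i).toNat, tr Z (cjS τ (W i)) =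
          ((a' i).toNat : ℤ) * tr Z (cjS τ (W i)) := by
        rw [Finset.sum_const, Finset.card_univ, Fintype.card_fin, nsmul_eq_mul]
      exact h2
  have hnk : ∀ i, a i ≠ 0 → QLine Z (W i) := by
    intro i hi
    refine hq i (fun h1 => hi ?_) hi
    have h2 : a' i = a i := if_pos h1
    rw [← h2]
    exact ha'0 i
  -- the second kind
  suffices hpos : ∀ i, ¬ 0 < a i by
    have h1 := hpos i
    have h2 := hpos (st i)
    rw [ha] at h2
    omega
  intro i₀ hi₀
  choose χ hχ1 hχ2 using fun i : {i // 0 < a i} => hnk i.1 (by have := i.2; omega)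
  have hinj : Function.Injective χ := by
    intro i j hij
    have hi1 := hone i.1 (by have := i.2; omega)
    have hj1 := hone j.1 (by have := j.2; omega)
    have hval : ∀ (i : {i // 0 < a i}) (τ : ℂ ≃+* ℂ), ((tr Z (cjS τ (W i.1)) : ℤ) : ℂ) =
        χ i τ * ((tr Z (cjS (RingEquiv.refl ℂ) (W i.1)) : ℤ) : ℂ) := fun i τ =>
      hχ2 i τ (RingEquiv.refl ℂ)
    have ti := tr_one h (hW i.1) hi1 (RingEquiv.refl ℂ)
    have tj := tr_one h (hW j.1) hj1 (RingEquiv.refl ℂ)
    have hcase : (∀ τ : ℂ ≃+* ℂ, tr Z (cjS τ (W i.1)) = tr Z (cjS τ (W j.1))) ∨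
        ∀ τ : ℂ ≃+* ℂ, tr Z (cjS τ (W i.1)) + tr Z (cjS τ (W j.1)) = 0 := by
      by_cases hc : tr Z (cjS (RingEquiv.refl ℂ) (W i.1)) = tr Z (cjS (RingEquiv.refl ℂ) (W j.1))
      · left
        intro τ
        have h1 := hval i τ
        rw [hij, hc, ← hval j τ] at h1
        exact_mod_cast h1
      · right
        intro τ
        have hc' : tr Z (cjS (RingEquiv.refl ℂ) (W i.1)) =
            -tr Z (cjS (RingEquiv.refl ℂ) (W j.1)) := by omega
        have h1 := hval i τ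
        rw [hij, hc'] at h1
        push_cast at h1
        rw [mul_neg, ← hval j τ] at h1
        have h2 : ((tr Z (cjS τ (W i.1)) + tr Z (cjS τ (W j.1)) : ℤ) : ℂ) = 0 := by
          push_cast
          linear_combination h1
        exact_mod_cast h2
    have hi := i.2
    have hj := j.2
    rcases hcase with h1 | h1
    · have hsi : finrank ℂ (W (st i.1)) = 1 := hone (st i.1) (by rw [ha]; omega)
      have h2 : Du (RZ Z) 1 (W (st i.1)) (W j.1) := by
        refine du_one h (hW (st i.1)) (hW j.1) hsi hj1 fun τ => ?_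
        rw [tr_st h (hW i.1) (hW (st i.1)) (hDu i.1), h1]
        ring
      have h3 := hDu' _ _ h2
      rw [hst] at h3
      exact Subtype.ext h3.symm
    · exfalso
      have h2 : Du (RZ Z) 1 (W i.1) (W j.1) := du_one h (hW i.1) (hW j.1) hi1 hj1 h1
      have h3 := hDu' _ _ h2
      have h4 := ha i.1
      rw [← h3] at h4
      omega
  have hli := (linearIndependent_monoidHom (ℂ ≃+* ℂ) ℂ).comp χ hinj
  rw [Fintype.linearIndependent_iff] at hli
  have h1 := hli (fun i => ((a i.1 : ℤ) : ℂ) * ((tr Z (cjS (RingEquiv.refl ℂ) (W i.1)) : ℤ) : ℂ))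
    (by
      funext τ
      rw [Finset.sum_apply, Pi.zero_apply]
      have e1 : ∀ i : {i // 0 < a i}, ((((a i.1 : ℤ) : ℂ) *
          ((tr Z (cjS (RingEquiv.refl ℂ) (W i.1)) : ℤ) : ℂ)) • ((fun f : (ℂ ≃+* ℂ) →* ℂ =>
            (f : (ℂ ≃+* ℂ) → ℂ)) ∘ χ) i) τ =
          ((((a i.1).toNat : ℤ) * tr Z (cjS τ (W i.1)) : ℤ) : ℂ) := by
        intro i
        have e2 : ((tr Z (cjS τ (W i.1)) : ℤ) : ℂ) =
            χ i τ * ((tr Z (cjS (RingEquiv.refl ℂ) (W i.1)) : ℤ) : ℂ) :=
          hχ2 i τ (RingEquiv.refl ℂ)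
        have e3 : ((a i.1).toNat : ℤ) = a i.1 := Int.toNat_of_nonneg i.2.le
        rw [e3]
        push_cast
        rw [e2, Pi.smul_apply, smul_eq_mul, Function.comp_apply]
        ring
      rw [Finset.sum_congr rfl fun i _ => e1 i, ← Int.cast_sum]
      have e4 : ∑ i : {i // 0 < a i}, ((a i.1).toNat : ℤ) * tr Z (cjS τ (W i.1)) = 0 := by
        have e5 := Finset.sum_subtype (p := fun i => 0 < a i) (F := inferInstance)
          (Finset.univ.filter fun i => 0 < a i) (fun i => by simp)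
          (fun i => ((a i).toNat : ℤ) * tr Z (cjS τ (W i)))
        rw [← e5, Finset.sum_filter]
        refine Eq.trans (Finset.sum_congr rfl fun i _ => ?_) (hS τ)
        split_ifs with hi
        · rfl
        · have h2 : (a i).toNat = 0 := by omega
          rw [h2]
          simp
      rw [e4]
      simp) ⟨i₀, hi₀⟩
  have h2 := tr_one h (hW i₀) (hone i₀ (by omega)) (RingEquiv.refl ℂ)
  rcases mul_eq_zero.1 h1 with h3 | h3
  · have h4 : a i₀ = 0 := by exact_mod_cast h3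
    omega
  · have h4 : tr Z (cjS (RingEquiv.refl ℂ) (W i₀)) = 0 := by exact_mod_cast h3
    omega

end

end Pool.Agent.N994.PG
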