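import Mathlib
import Pool.Agent.N994.PG.Line
import Pool.Agent.R915.L1
import Pool.Agent.R915.T1

/-!
# The classes of simple factors
-/

set_option linter.unusedSectionVars false

namespace Pool.Agent.N994.PG

open Matrix Module Pool.Agent.W437.HC Pool.Agent.W437.HD Pool.Agent.TH504.CB Pool.Agent.Y90
open Pool.Agent.R915
open Pool.Agent.W548.Odd hiding cv
open Pool.Agent.N994.PF (rs Zk InL Ed)
open Pool.Agent.H204R3.CM (IsHodge)
open Pool.Agent.W437.HP (cK cK_mul cK_one)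

noncomputable section

variable {g : ℕ} {Z : Matrix (Fin g) (Fin g) ℂ} {k : IntermediateField ℚ ℂ}

/-- Imaginary quadratic endomorphism fields, odd degree. -/
theorem ld_quad [FiniteDimensional ℚ k] (hodd : Odd (finrank ℚ k)) (h : PM Z) (hg : g ≤ 6)
    (hZ : ∀ i j, Z i j ∈ k) {φ : Matrix (Fin g ⊕ Fin g) (Fin g ⊕ Fin g) ℚ} {d : ℚ}
    (kq : QF Z φ d) {U : Submodule ℂ (Fin g ⊕ Fin g → ℂ)} (hU : IrS (LZ Z) U) : LD h U := by
  obtain ⟨α, hα, hm⟩ := kq.exists_root h hU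
  have hkw := kq.kw h hα hm hU.1
  have hdim := kq.dim h hα hm hU.1
  have hcj : ∀ V : Submodule ℂ (Fin g ⊕ Fin g → ℂ), cjS (RingEquiv.refl ℂ) V = V := fun V => by
    ext v
    exact Iff.rfl
  have hLC : LC h U := by
    refine kq.lc3 h (fun V hV => ?_) (fun h6 => disc_six hodd h hZ hkw h6) hU
    obtain ⟨β, hβ, hmV⟩ := kq.exists_root h hV
    have e1 := kq.dim h hβ hmV hV.1
    have htr := tr_odd hodd h hZ hV (RingEquiv.refl ℂ)
    rw [hcj] at htr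
    omega
  have htr := tr_odd hodd h hZ hU (RingEquiv.refl ℂ)
  rw [hcj] at htr
  have hU0 : 0 < finrank ℂ U := by
    rw [Nat.pos_iff_ne_zero, ne_eq, Submodule.finrank_eq_zero]
    exact hU.1
  by_cases h46 : g = 4 ∨ g = 6
  · refine ⟨hLC.rk (by omega), by omega, Or.inr ⟨φ, α, d, kq, hkw, h46, ?_,
      fun h6 => disc_six hodd h hZ hkw h6⟩⟩
    unfold tr
    omega
  · have hn2 : finrank ℂ U = 2 := by omega
    refine ⟨hLC.rk (by omega), by omega, Or.inl (AltF.sdu ?_)⟩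
    have hpos : ∀ p : k →+* ℂ, ∃ u ∈ U, u ≠ 0 ∧ u ∈ Lp hZ p := by
      intro p
      have h4 := even_odd hodd h hZ hU p
      have h5 : (U ⊓ Lp hZ p : Submodule ℂ (Fin g ⊕ Fin g → ℂ)) ≠ ⊥ := by
        intro h6
        rw [h6, finrank_bot, hn2] at h4
        omega
      obtain ⟨u, ⟨hu1, hu2⟩, hu0⟩ := Submodule.exists_mem_ne_zero_of_ne_bot h5
      exact ⟨u, hu1, hu0, hu2⟩
    refine altF_of_two h hU.2.1 hn2 (fun σ => ?_) fun σ => ?_
    · obtain ⟨u, hu, hu0, hu'⟩ := hpos (rs k σ)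
      exact ⟨u, hu, hu0, (mem_neg h hZ σ).1 hu'⟩
    · obtain ⟨u, hu, hu0, hu'⟩ := hpos (rs k (cc.trans σ))
      exact ⟨u, hu, hu0, (mem_pos h hZ σ).1 hu'⟩

/-- Fields of degree at most four. -/
theorem ld_four [FiniteDimensional ℚ k] (hk : finrank ℚ k ≤ 4) (h : PM Z)
    (hZ : ∀ i j, Z i j ∈ k) {U : Submodule ℂ (Fin g ⊕ Fin g → ℂ)} (hU : IrS (LZ Z) U) :
    LD h U ∨ finrank ℂ U = 1 := by
  rcases one_or_two hk h hZ hU with h3 | ⟨h3, h4⟩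
  · exact Or.inr h3
  · exact Or.inl ⟨(rk1_two h hU h4 (by omega)).1, by omega, Or.inl h4⟩

theorem kline_of (h : PM Z) (hZ : ∀ i j, Z i j ∈ k) {U : Submodule ℂ (Fin g ⊕ Fin g → ℂ)}
    (hU : IrS (LZ Z) U) (h1 : finrank ℂ U = 1) : KLine k Z U := by
  obtain ⟨c, hc, hc'⟩ := col_one h hZ hU h1
  intro h' hh' τ
  have e1 := hc' (τ.trans h').symm
  have e2 := hc' τ.symm
  have e3 : rs k (τ.trans h').symm = rs k τ.symm := by
    ext x
    change τ.symm (h'.symm x) = τ.symm x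
    congr 1
    rw [RingEquiv.symm_apply_eq]
    exact (hh' x x.2).symm
  rw [e3, e2] at e1
  change tr Z (cjS τ U) = -1 ↔ tr Z (cjS (τ.trans h') U) = -1 at e1
  have h6 := tr_one h hU h1 τ
  have h7 := tr_one h hU h1 (τ.trans h')
  omega

theorem KLine.of_factor {G : ℕ} {Z₀ : Matrix (Fin G) (Fin G) ℂ}
    {E : Matrix (Fin G ⊕ Fin G) (Fin g ⊕ Fin g) ℚ} {F : Matrix (Fin g ⊕ Fin g) (Fin G ⊕ Fin G) ℚ}
    (hf : Fac Z₀ Z E F) {U : Submodule ℂ (Fin G ⊕ Fin G → ℂ)} (hinj : ∀ u ∈ U, ml F u = 0 → u = 0)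
    (hU : Stab (LZ Z₀) U) (hk : KLine k Z (U.map (ml F))) : KLine k Z₀ U := by
  have key : ∀ τ : ℂ ≃+* ℂ, tr Z (cjS τ (U.map (ml F))) = tr Z₀ (cjS τ U) := fun τ => by
    rw [cjS_ml]
    exact hf.tr_map (inj_cj hinj τ) (hU.cj gal_LZ τ)
  intro h hh τ
  rw [← key, ← key]
  exact hk h hh τ

theorem QLine.of_factor {G : ℕ} {Z₀ : Matrix (Fin G) (Fin G) ℂ}
    {E : Matrix (Fin G ⊕ Fin G) (Fin g ⊕ Fin g) ℚ} {F : Matrix (Fin g ⊕ Fin g) (Fin G ⊕ Fin G) ℚ}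
    (hf : Fac Z₀ Z E F) {U : Submodule ℂ (Fin G ⊕ Fin G → ℂ)} (hinj : ∀ u ∈ U, ml F u = 0 → u = 0)
    (hU : Stab (LZ Z₀) U) (hk : QLine Z (U.map (ml F))) : QLine Z₀ U := by
  have key : ∀ τ : ℂ ≃+* ℂ, tr Z (cjS τ (U.map (ml F))) = tr Z₀ (cjS τ U) := fun τ => by
    rw [cjS_ml]
    exact hf.tr_map (inj_cj hinj τ) (hU.cj gal_LZ τ)
  obtain ⟨χ, h1, h2⟩ := hk
  refine ⟨χ, h1, fun h τ => ?_⟩
  rw [← key, ← key]
  exact h2 h τ

theorem KW.qline {U : Submodule ℂ (Fin g ⊕ Fin g → ℂ)}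
    {φ : Matrix (Fin g ⊕ Fin g) (Fin g ⊕ Fin g) ℚ} {α : ℂ} {d : ℚ} (k : KW Z U φ α d) :
    QLine Z U := by
  classical
  have h0 := k.al_ne
  have hne : α ≠ -α := fun h1 => h0 (by
    have h2 : (2 : ℂ) * α = 0 := by linear_combination h1
    exact (mul_eq_zero.1 h2).resolve_left two_ne_zero)
  have hv : ∀ τ : ℂ ≃+* ℂ, (τ α = α ∧ (if τ α = α then (1 : ℂ) else -1) = 1) ∨
      (τ α = -α ∧ (if τ α = α then (1 : ℂ) else -1) = -1) := by
    intro τ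
    rcases aut_pm k.al τ with h1 | h1
    · exact Or.inl ⟨h1, if_pos h1⟩
    · exact Or.inr ⟨h1, if_neg fun h2 => hne (by rw [← h1, h2])⟩
  let χ : (ℂ ≃+* ℂ) →* ℂ :=
    { toFun := fun τ => if τ α = α then 1 else -1
      map_one' := if_pos rfl
      map_mul' := fun σ τ => by
        have e1 : (σ * τ) α = σ (τ α) := rfl
        rcases hv τ with ⟨h1, h2⟩ | ⟨h1, h2⟩
        · rw [h2, mul_one, e1, h1]
        · rw [h2, e1, h1, map_neg]
          rcases hv σ with ⟨h3, h4⟩ | ⟨h3, h4⟩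
          · rw [h4, h3, if_neg fun h5 => hne h5.symm]
            norm_num
          · rw [h4, h3, neg_neg, if_pos rfl]
            norm_num }
  have hχ : ∀ τ, χ τ = if τ α = α then 1 else -1 := fun τ => rfl
  have hval : ∀ τ : ℂ ≃+* ℂ, ((tr Z (cjS τ U) : ℤ) : ℂ) = χ τ * ((tr Z U : ℤ) : ℂ) := by
    intro τ
    rw [hχ]
    rcases k.tr_cj τ with ⟨h1, h2⟩ | ⟨h1, h2⟩
    · rw [if_pos h1, h2, one_mul]
    · rw [if_neg fun h3 => hne (by rw [← h1, h3]), h2]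
      push_cast
      ring
  refine ⟨χ, fun h => ?_, fun h τ => ?_⟩
  · rw [hχ]
    rcases hv h with ⟨-, h2⟩ | ⟨-, h2⟩
    · exact Or.inl h2
    · exact Or.inr h2
  · have e1 : χ (τ.trans h) = χ h * χ τ := map_mul χ h τ
    rw [hval, hval, e1, mul_assoc]

/-- Elliptic curves. -/
theorem ld_ell (h : PM Z) (hs : IsSimpleAV Z) (h1 : g = 1)
    {U : Submodule ℂ (Fin g ⊕ Fin g → ℂ)} (hU : IrS (LZ Z) U) :
    LD h U ∨ (finrank ℂ U = 1 ∧ QLine Z U) := by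
  have hL := lc_small h hs (by omega) (by omega) (fun _ => h1) hU
  rcases hL.or with ⟨h2, h3⟩ | ⟨φ, α, d, kw, -⟩
  · exact Or.inl ⟨hL.rk h3, h3, Or.inl h2⟩
  · exact Or.inr ⟨by rw [kw.dim, h1], KW.qline kw⟩

end

end Pool.Agent.N994.PG
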