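import Mathlib
import Pool.Agent.N994.PG.Cls

/-!
# The main theorem in terms of the irreducible submodules of the simple factors
-/

set_option linter.unusedSectionVars false

namespace Pool.Agent.N994.PG

open Matrix Module Pool.Agent.W437.HC Pool.Agent.W437.HD Pool.Agent.TH504.CB Pool.Agent.Y90
open Pool.Agent.R915
open Pool.Agent.W548.Odd hiding cv
open Pool.Agent.H204R3.CM (IsHodge)
open Pool.Agent.W437.HP (cK cK_mul cK_one)

noncomputable section

/-- Transfer to the model. -/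
theorem ring_model {X : AV} {G : ℕ} {Z : Matrix (Fin G) (Fin G) ℂ} (h : PM Z)
    (A : X.H ≃ₗ[ℚ] (AVZ h).H) (h1 : IsHom X (AVZ h) A.toLinearMap)
    (h2 : IsHom (AVZ h) X A.symm.toLinearMap)
    (H : ∀ (κ : Type) [Finite κ] (f : (AVZ h).H [⋀^κ]→ₗ[ℚ] ℚ), IsHodge (AVZ h).per f →
      PRing (AVZ h) κ f) {κ : Type} [Finite κ] (f : X.H [⋀^κ]→ₗ[ℚ] ℚ) :
    IsHodge X.per f ↔ PRing X κ f := by
  refine ⟨fun hf => ?_, fun hf => hf.isHodge⟩
  obtain ⟨Ψ, hΨ⟩ := id h2
  have h3 : IsHodge (AVZ h).per (f.compLinearMap A.symm.toLinearMap) :=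
    isHodge_comp A.symm.toLinearMap Ψ hΨ hf
  have h4 := (H κ _ h3).pull A.toLinearMap h1
  have h5 : (f.compLinearMap A.symm.toLinearMap).compLinearMap A.toLinearMap = f := by
    ext v
    rw [AlternatingMap.compLinearMap_apply, AlternatingMap.compLinearMap_apply]
    congr 1
    funext k
    exact A.symm_apply_apply (v k)
  rwa [h5] at h4

/-- **Abelian varieties all of whose simple factors satisfy the local conditions.** -/
theorem main_all {k₀ : IntermediateField ℚ ℂ} [FiniteDimensional ℚ k₀] (hk₀ : finrank ℚ k₀ ≤ 4)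
    (X : AV)
    (hs : ∀ (a : ℕ) (Z' : Matrix (Fin a) (Fin a) ℂ) (h' : PM Z') (i : (AVZ h').H →ₗ[ℚ] X.H),
      IsHom (AVZ h') X i → Function.Injective i → IsSimpleAV Z' → IsSimple (AVZ h') → 0 < a →
      ∀ U, IrS (LZ Z') U → LD h' U ∨ (finrank ℂ U = 1 ∧ (KLine k₀ Z' U ∨ QLine Z' U)))
    {κ : Type} [Finite κ] (f : X.H [⋀^κ]→ₗ[ℚ] ℚ) : IsHodge X.per f ↔ PRing X κ f := by
  obtain ⟨G, Z, h, A, hA1, hA2⟩ := exists_model X
  refine ring_model h A hA1 hA2 (fun κ _ f hf => ?_) f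
  have hloc : ∀ U, IrS (LZ Z) U → GU Z U ∨ (finrank ℂ U = 1 ∧ (KLine k₀ Z U ∨ QLine Z U)) := by
    intro U hU
    obtain ⟨a, Z', E, F, hfac, h', hsim, ha, h0⟩ := exists_fac h hU.1
    have hinj := hfac.inj hU h0
    have hU' := hfac.irr hU h0
    obtain ⟨Ψ₁, h₁⟩ := h'.cht.hom h.cht (R := E) (by rw [DJ_JR, DJ_JR]; exact hfac.de.symm)
    have h2 : IsHom (AVZ h') (AVZ h) (Matrix.mulVecLin E) := ⟨Ψ₁, fun v => h₁ v⟩
    have hi : Function.Injective (A.symm.toLinearMap.comp (Matrix.mulVecLin E)) := by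
      intro x y hxy
      have h3 : E *ᵥ x = E *ᵥ y := A.symm.injective hxy
      have h4 := congrArg (fun v => F *ᵥ v) h3
      beta_reduce at h4
      rw [mulVec_mulVec, mulVec_mulVec, hfac.fe, one_mulVec, one_mulVec] at h4
      exact h4
    rcases hs a Z' h' (A.symm.toLinearMap.comp (Matrix.mulVecLin E)) (IsHom.comp' hA2 h2) hi hsim
      (simple_of a h' hsim ha) ha _ hU' with h3 | ⟨h3, h4⟩
    · exact Or.inl (gu_of_ld h hfac h' hsim ha hU h0 h3)
    · refine Or.inr ⟨by rw [← h3, finrank_ml hinj], ?_⟩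
      rcases h4 with h4 | h4
      · exact Or.inl (h4.of_factor hfac hinj hU.2.1)
      · exact Or.inr (h4.of_factor hfac hinj hU.2.1)
  refine ring_of_hodge h (fun U hU hn => ?_) ?_ f hf
  · rcases hloc U hU with h1 | ⟨h1, -⟩
    · exact h1
    · omega
  · intro s W hW st hst hDu hDu' a ha hone hsum i
    refine bal_gen hk₀ h W hW st hst hDu hDu' a ha hone (fun i hi => ?_) hsum i
    rcases hloc (W i) (hW i) with h1 | ⟨-, h1⟩
    · exfalso
      obtain ⟨μ, -, hμD⟩ := exists_mu h (hW i) (hone i hi)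
      have h2 := hone i hi
      obtain ⟨w, hw⟩ := finrank_eq_one_iff'.1 h2
      obtain ⟨hw0, hw'⟩ := hw
      obtain ⟨c, hc⟩ := hw' ⟨DZ Z *ᵥ (w : Fin G ⊕ Fin G → ℂ), (hW i).2.1 _ DZ_mem w w.2⟩
      obtain ⟨u, hu, hu'⟩ := h1.ns (RingEquiv.refl ℂ) c
      apply hu'
      obtain ⟨d, hd⟩ := hw' ⟨u, hu⟩
      have hc' : c • (w : Fin G ⊕ Fin G → ℂ) = DZ Z *ᵥ (w : Fin G ⊕ Fin G → ℂ) :=
        congrArg Subtype.val hc
      have hd' : d • (w : Fin G ⊕ Fin G → ℂ) = u := congrArg Subtype.val hd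
      rw [DS_refl, ← hd', mulVec_smul, ← hc', smul_comm]
    · exact h1

end

end Pool.Agent.N994.PG
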