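import Mathlib
import Pool.Agent.N994.PG.JF

/-!
# The Jordan algebra attached to a real point
-/

set_option linter.unusedSectionVars false

namespace Pool.Agent.N994.PG

open Matrix Module
open Pool.Agent.Y4.G (Lie trace_idemM)
open Pool.Agent.Y4.G.Lie (pos mem_pos)
open Pool.Agent.R915 (pos_ne_bot eq_of_mulVec idem_zero)
open Pool.Agent.Y90 (cc)

open scoped ComplexOrder

noncomputable section

variable {B : Type*} [Fintype B] [DecidableEq B]

/-- The elements of degree `± 1`. -/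
def gD (G : Submodule ℂ (Matrix B B ℂ)) (D' : Matrix B B ℂ) (c : ℂ) :
    Submodule ℂ (Matrix B B ℂ) where
  carrier := {X | X ∈ G ∧ D' * X = c • X ∧ X * D' = -(c • X)}
  zero_mem' := ⟨G.zero_mem, by rw [mul_zero, smul_zero], by rw [zero_mul, smul_zero, neg_zero]⟩
  add_mem' := fun {X Y} hX hY => ⟨G.add_mem hX.1 hY.1, by rw [mul_add, hX.2.1, hY.2.1, smul_add],
    by rw [add_mul, hX.2.2, hY.2.2, smul_add, neg_add]⟩
  smul_mem' := fun d X hX => ⟨G.smul_mem d hX.1, by rw [Matrix.mul_smul, hX.2.1, smul_comm],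
    by rw [Matrix.smul_mul, hX.2.2, smul_neg, smul_comm]⟩

theorem mem_gD {G : Submodule ℂ (Matrix B B ℂ)} {D' X : Matrix B B ℂ} {c : ℂ} :
    X ∈ gD G D' c ↔ X ∈ G ∧ D' * X = c • X ∧ X * D' = -(c • X) := Iff.rfl

namespace RPt

variable {G : Submodule ℂ (Matrix B B ℂ)} {P Q D' M : Matrix B B ℂ} {a : ℕ} (k : RPt G P Q a D' M)
include k

/-- The elements of degree `- 1` are determined by one of their components. -/
theorem surj {c : Matrix B B ℂ} (hc : c ∈ pos G Q P) : (4 : ℂ) • (M * c * (P + Q - M)) ∈ G := by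
  obtain ⟨i1, i2, i3, i4⟩ := k.idem
  have d1 := k.H.lel D' k.DG
  have d2 := k.H.ler D' k.DG
  obtain ⟨F, hF⟩ : ∃ F, F = (2 : ℂ)⁻¹ • (P + Q + D') := ⟨_, rfl⟩
  obtain ⟨E, hE⟩ : ∃ E, E = (2 : ℂ)⁻¹ • (P + Q - D') := ⟨_, rfl⟩
  have hsum : F + E = P + Q := by
    rw [hF, hE, ← smul_add]
    have : P + Q + D' + (P + Q - D') = (2 : ℂ) • (P + Q) := by
      rw [two_smul]
      abel
    rw [this, smul_smul]
    norm_num
  have hDF : D' * F = F := by
    rw [hF, Matrix.mul_smul, mul_add, d2, k.DD, add_comm]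
  have hFD : F * D' = F := by
    rw [hF, Matrix.smul_mul, add_mul, d1, k.DD, add_comm]
  have hDE : D' * E = -E := by
    rw [hE, Matrix.mul_smul, mul_sub, d2, k.DD, ← smul_neg]
    congr 1
    abel
  have hED : E * D' = -E := by
    rw [hE, Matrix.smul_mul, sub_mul, d1, k.DD, ← smul_neg]
    congr 1
    abel
  have hEM : E * M = M := by
    rw [hE, Matrix.smul_mul, sub_mul, k.eM, k.DM, sub_neg_eq_add, ← two_smul ℂ, smul_smul]
    norm_num
  rw [← hF] at i1 i3 i4
  rw [← hE] at i2 i3 i4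
  have hgr : ∀ X ∈ G, F * X * E ∈ G ∧ E * X * F ∈ G := fun X hX => by
    have h1 := k.grG hX
    rwa [← hF, ← hE] at h1
  -- the first map
  let f1 : gD G D' (-1) →ₗ[ℂ] pos G Q P :=
    { toFun := fun X => ⟨Q * X * P, memP k.H.symm X.2.1⟩
      map_add' := fun X Y => Subtype.ext (by
        change Q * ((X + Y : gD G D' (-1)) : Matrix B B ℂ) * P = Q * X * P + Q * Y * P
        rw [Submodule.coe_add, mul_add, add_mul])
      map_smul' := fun d X => Subtype.ext (by
        change Q * ((d • X : gD G D' (-1)) : Matrix B B ℂ) * P = d • (Q * X * P)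
        rw [Submodule.coe_smul, Matrix.mul_smul, Matrix.smul_mul]) }
  have hf1 : ∀ X, (f1 X : Matrix B B ℂ) = Q * X * P := fun _ => rfl
  have hnil : ∀ X : gD G D' (-1), (X : Matrix B B ℂ) =
      (4 : ℂ) • (M * (Q * X * P) * (P + Q - M)) := by
    intro X
    obtain ⟨h1, h2, h3⟩ := mem_gD.1 X.2
    rw [neg_one_smul] at h2
    rw [neg_one_smul, neg_neg] at h3
    exact k.nil h1 h2 h3
  have inj1 : Function.Injective f1 := by
    rw [injective_iff_map_eq_zero]
    intro X hX
    have h1 : Q * (X : Matrix B B ℂ) * P = 0 := congrArg Subtype.val hX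
    apply Subtype.ext
    rw [hnil X, h1, mul_zero, zero_mul, smul_zero]
    rfl
  -- the second map
  let f2 : pos G Q P →ₗ[ℂ] gD G D' 1 :=
    { toFun := fun x => ⟨F * x * E, mem_gD.2 ⟨(hgr _ x.2.1).1, by
        rw [← mul_assoc, ← mul_assoc, hDF, one_smul], by
        rw [mul_assoc, hED, mul_neg, one_smul]⟩⟩
      map_add' := fun X Y => Subtype.ext (by
        change F * ((X + Y : pos G Q P) : Matrix B B ℂ) * E = F * X * E + F * Y * E
        rw [Submodule.coe_add, mul_add, add_mul])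
      map_smul' := fun d X => Subtype.ext (by
        change F * ((d • X : pos G Q P) : Matrix B B ℂ) * E = d • (F * X * E)
        rw [Submodule.coe_smul, Matrix.mul_smul, Matrix.smul_mul]) }
  have inj2 : Function.Injective f2 := by
    rw [injective_iff_map_eq_zero]
    intro X hX
    obtain ⟨x, hx⟩ := X
    obtain ⟨hxG, hQx, hxP⟩ := hx
    have h1 : F * x * E = 0 := congrArg Subtype.val hX
    have h2 : F * (x * M) = 0 := by rw [← hEM, ← mul_assoc, ← mul_assoc, h1, zero_mul]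
    have h3 : D' * (x * M) = -(x * M) := by
      rw [hF, Matrix.smul_mul] at h2
      have h4 := (smul_eq_zero.1 h2).resolve_left (by norm_num)
      rw [add_mul, ← mul_assoc (P + Q), k.H.lel x hxG] at h4
      exact eq_neg_of_add_eq_zero_right h4
    have h4 : M * (x * M) = x * M := eq_of_mulVec fun v => by
      rw [← mulVec_mulVec]
      exact k.fix _ (by rw [mulVec_mulVec, ← mul_assoc, k.H.lel x hxG])
        (by rw [mulVec_mulVec, h3, neg_mulVec])
    have h5 : x * M = (2 : ℂ)⁻¹ • (x * M) := by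
      calc x * M = M * (x * M) := h4.symm
      _ = M * (Q * (x * M)) := by rw [← mul_assoc Q, hQx]
      _ = M * (Q * (M * (x * M))) := by rw [h4]
      _ = (M * Q * M) * (x * M) := by noncomm_ring
      _ = (2 : ℂ)⁻¹ • (x * M) := by rw [k.MQM, Matrix.smul_mul, h4]
    have h6 : x * M = 0 := by
      have h7 : (1 - (2 : ℂ)⁻¹) • (x * M) = 0 := by rw [sub_smul, one_smul, ← h5, sub_self]
      exact (smul_eq_zero.1 h7).resolve_left (by norm_num)
    have h7 : x * (P * M * P) = 0 := by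
      calc x * (P * M * P) = (x * P) * M * P := by noncomm_ring
      _ = 0 := by rw [hxP, h6, zero_mul]
    rw [k.PMP, Matrix.mul_smul, hxP] at h7
    exact Subtype.ext ((smul_eq_zero.1 h7).resolve_left (by norm_num))
  -- the trace form
  let f3 : gD G D' 1 →ₗ[ℂ] Module.Dual ℂ (gD G D' (-1)) :=
    { toFun := fun Y =>
        { toFun := fun X => trace ((X : Matrix B B ℂ) * (Y : Matrix B B ℂ))
          map_add' := fun X X' => by rw [Submodule.coe_add, add_mul, trace_add]
          map_smul' := fun d X => by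
            rw [Submodule.coe_smul, Matrix.smul_mul, trace_smul, RingHom.id_apply] }
      map_add' := fun Y Y' => LinearMap.ext fun X => by
        change trace ((X : Matrix B B ℂ) * ((Y + Y' : gD G D' 1) : Matrix B B ℂ)) =
          trace ((X : Matrix B B ℂ) * (Y : Matrix B B ℂ)) + trace ((X : Matrix B B ℂ) * (Y' : Matrix B B ℂ))
        rw [Submodule.coe_add, mul_add, trace_add]
      map_smul' := fun d Y => LinearMap.ext fun X => by
        change trace ((X : Matrix B B ℂ) * ((d • Y : gD G D' 1) : Matrix B B ℂ)) =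
          d • trace ((X : Matrix B B ℂ) * (Y : Matrix B B ℂ))
        rw [Submodule.coe_smul, Matrix.mul_smul, trace_smul] }
  have inj3 : Function.Injective f3 := by
    rw [injective_iff_map_eq_zero]
    intro Y' hY'
    obtain ⟨Y, hY⟩ := Y'
    obtain ⟨h1, h2, h3⟩ := mem_gD.1 hY
    rw [one_smul] at h2 h3
    have hFY : F * Y = Y := by
      rw [hF, Matrix.smul_mul, add_mul, k.H.lel Y h1, h2, ← two_smul ℂ, smul_smul]
      norm_num
    have hYE : Y * E = Y := by
      rw [hE, Matrix.mul_smul, mul_sub, k.H.ler Y h1, h3, sub_neg_eq_add, ← two_smul ℂ, smul_smul]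
      norm_num
    have h4 : E * Yᴴ * F ∈ gD G D' (-1) := by
      refine mem_gD.2 ⟨(hgr _ (k.H.ad Y h1)).2, ?_, ?_⟩
      · rw [← mul_assoc, ← mul_assoc, hDE, neg_mul, neg_mul, neg_one_smul]
      · rw [mul_assoc, hFD, neg_one_smul, neg_neg]
    have h5 : trace ((E * Yᴴ * F) * Y) = 0 := congrArg (fun f => f ⟨_, h4⟩) hY'
    have h6 : trace ((E * Yᴴ * F) * Y) = trace (Yᴴ * Y) := by
      calc trace ((E * Yᴴ * F) * Y) = trace (E * (Yᴴ * (F * Y))) := by
            congr 1
            noncomm_ring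
      _ = trace (Yᴴ * (F * Y) * E) := trace_mul_comm _ _
      _ = trace (Yᴴ * Y) := by rw [hFY, mul_assoc, hYE]
    rw [h6] at h5
    rw [trace_conjTranspose_mul_self_eq_zero_iff] at h5
    exact Subtype.ext h5
  have r1 := LinearMap.finrank_le_finrank_of_injective inj1
  have r2 := LinearMap.finrank_le_finrank_of_injective inj2
  have r3 := LinearMap.finrank_le_finrank_of_injective inj3
  rw [Subspace.dual_finrank_eq] at r3
  have hfin : finrank ℂ (gD G D' (-1)) = finrank ℂ (pos G Q P) := by omega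
  have hs : Function.Surjective f1 :=
    (LinearMap.injective_iff_surjective_of_finrank_eq_finrank hfin).1 inj1
  obtain ⟨X, hX⟩ := hs ⟨c, hc⟩
  have h1 : Q * (X : Matrix B B ℂ) * P = c := congrArg Subtype.val hX
  rw [← h1, ← hnil X]
  exact X.2.1

theorem flip {c : Matrix B B ℂ} (hc : c ∈ pos G Q P) :
    (4 : ℂ) • (P * M * c * M * Q) ∈ pos G P Q := by
  have h1 := memP k.H (k.surj hc)
  have hcQ : c * Q = 0 := by rw [← hc.2.2, mul_assoc, k.H.PQ, mul_zero]
  have h2 : P * ((4 : ℂ) • (M * c * (P + Q - M))) * Q = -((4 : ℂ) • (P * M * c * M * Q)) := by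
    rw [Matrix.mul_smul, Matrix.smul_mul, ← smul_neg]
    congr 1
    have h3 : P * (M * c * (P + Q - M)) * Q =
        P * M * (c * (P * Q)) + P * M * (c * Q) * Q - P * M * c * M * Q := by noncomm_ring
    rw [h3, k.H.PQ, hcQ]
    simp
  rw [h2] at h1
  have h3 := (pos G P Q).neg_mem h1
  rwa [neg_neg] at h3

/-- **The Jordan product.** -/
theorem jordan {x y : Matrix B B ℂ} (hx : x ∈ pos G P Q) (hy : y ∈ pos G P Q) :
    (2 : ℂ) • (x * M * y + y * M * x) ∈ pos G P Q := by
  obtain ⟨hxG, hPx, hxQ⟩ := hx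
  obtain ⟨hyG, hPy, hyQ⟩ := hy
  obtain ⟨c, hcd⟩ : ∃ c, c = (4 : ℂ) • (Q * M * y * M * P) := ⟨_, rfl⟩
  have hc : c ∈ pos G Q P := by rw [hcd]; exact k.symm.flip ⟨hyG, hPy, hyQ⟩
  obtain ⟨X, hXd⟩ : ∃ X, X = (4 : ℂ) • (M * c * (P + Q - M)) := ⟨_, rfl⟩
  have hX : X ∈ G := by rw [hXd]; exact k.surj hc
  obtain ⟨hcG, hQc, hcP⟩ := hc
  have hPXP : P * X * P = (2 : ℂ) • (P * M * c) := by
    rw [hXd, Matrix.mul_smul, Matrix.smul_mul]
    have h1 : P * (M * c * (P + Q - M)) * P = P * M * (c * P) * P + P * M * c * (Q * P) -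
        P * M * (c * P) * M * P := by
      have : P * (M * c * (P + Q - M)) * P = P * M * (c * P) * P + P * M * c * (Q * P) -
        P * M * c * M * P := by noncomm_ring
      rw [this, hcP]
    have h2 : P * M * (c * P) * M * P = P * M * c * (P * M * P) := by noncomm_ring
    rw [h1, h2, k.PMP, k.H.QP, hcP, Matrix.mul_smul, mul_zero, add_zero, mul_assoc (P * M) c P, hcP]
    module
  have hQXQ : Q * X * Q = -((2 : ℂ) • (c * M * Q)) := by
    have hcQ : c * Q = 0 := by rw [← hcP, mul_assoc, k.H.PQ, mul_zero]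
    have h4 : Q * M * c = (2 : ℂ)⁻¹ • c := by
      nth_rewrite 1 [← hQc]
      rw [← mul_assoc, k.QMQ, Matrix.smul_mul, hQc]
    rw [hXd, Matrix.mul_smul, Matrix.smul_mul]
    have h1 : Q * (M * c * (P + Q - M)) * Q = Q * M * c * (P * Q) + Q * M * (c * Q) * Q -
        (Q * M * c) * M * Q := by noncomm_ring
    rw [h1, k.H.PQ, hcQ, h4, mul_zero, mul_zero, zero_mul, add_zero, zero_sub, Matrix.smul_mul,
      Matrix.smul_mul]
    module
  have h0 := k.H.gr0 hX
  rw [hPXP, hQXQ] at h0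
  have h1 := k.H.br _ h0 _ hxG
  have hQx : Q * x = 0 := by rw [← hPx, ← mul_assoc, k.H.QP, zero_mul]
  have hxP : x * P = 0 := by rw [← hxQ, mul_assoc, k.H.QP, mul_zero]
  -- the products
  have e1 : P * M * c * x = (2 : ℂ) • ((2 : ℂ)⁻¹ • (y * M * x)) := by
    have a1 : P * M * y = (2 : ℂ)⁻¹ • y := by
      nth_rewrite 1 [← hPy]
      rw [← mul_assoc, k.PMP, Matrix.smul_mul, hPy]
    rw [hcd, Matrix.mul_smul, Matrix.smul_mul]
    have a2 : P * M * (Q * M * y * M * P) * x = P * (M * Q * M) * y * M * (P * x) := by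
      noncomm_ring
    rw [a2, k.MQM, hPx, Matrix.mul_smul, Matrix.smul_mul, Matrix.smul_mul, Matrix.smul_mul, a1,
      Matrix.smul_mul, Matrix.smul_mul]
    module
  have e2 : x * c * M * Q = (2 : ℂ) • ((2 : ℂ)⁻¹ • (x * M * y)) := by
    have a1 : y * M * Q = (2 : ℂ)⁻¹ • y := by
      nth_rewrite 1 [← hyQ]
      rw [mul_assoc, mul_assoc, ← mul_assoc Q, k.QMQ, Matrix.mul_smul, hyQ]
    rw [hcd, Matrix.mul_smul, Matrix.smul_mul, Matrix.smul_mul]
    have a2 : x * (Q * M * y * M * P) * M * Q = (x * Q) * M * y * (M * P * M) * Q := by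
      noncomm_ring
    have a3 : x * M * y * M * Q = x * M * (y * M * Q) := by noncomm_ring
    rw [a2, k.MPM, hxQ, Matrix.mul_smul, Matrix.smul_mul, a3, a1, Matrix.mul_smul]
    module
  have e3 : ((2 : ℂ) • (P * M * c) + -((2 : ℂ) • (c * M * Q))) * x -
      x * ((2 : ℂ) • (P * M * c) + -((2 : ℂ) • (c * M * Q))) =
      (2 : ℂ) • (x * M * y + y * M * x) := by
    have a1 : ((2 : ℂ) • (P * M * c) + -((2 : ℂ) • (c * M * Q))) * x -
        x * ((2 : ℂ) • (P * M * c) + -((2 : ℂ) • (c * M * Q))) =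
        (2 : ℂ) • (P * M * c * x) - (2 : ℂ) • (c * M * (Q * x)) -
          (2 : ℂ) • ((x * P) * M * c) + (2 : ℂ) • (x * c * M * Q) := by
      simp only [add_mul, mul_add, neg_mul, mul_neg, Matrix.smul_mul, Matrix.mul_smul, mul_assoc]
      abel
    rw [a1, hQx, hxP, e1, e2, mul_zero, zero_mul, zero_mul]
    module
  rw [e3] at h1
  refine ⟨h1, ?_, ?_⟩
  · rw [Matrix.mul_smul, mul_add, ← mul_assoc, ← mul_assoc, ← mul_assoc, ← mul_assoc, hPx, hPy]
  · rw [Matrix.smul_mul, add_mul, mul_assoc _ y, mul_assoc _ x, hxQ, hyQ]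

end RPt

end

end Pool.Agent.N994.PG
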