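import Mathlib
import Pool.Agent.N994.PG.JG

/-!
# Spin factors: inverses
-/

set_option linter.unusedSectionVars false

namespace Pool.Agent.N994.PG

open Matrix Module

noncomputable section

/-- The polarization. -/
theorem SpinJ.pol {A : Type*} [Fintype A] [DecidableEq A] {J : Submodule ℝ (Matrix A A ℝ)}
    (h : SpinJ J) {x y : Matrix A A ℝ} (hx : x ∈ J) (hy : y ∈ J) : ∃ c : ℝ,
      x * y + y * x = (2 * trace x / (Fintype.card A : ℝ)) • y +
        (2 * trace y / (Fintype.card A : ℝ)) • x + c • (1 : Matrix A A ℝ) := by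
  obtain ⟨a, ha⟩ := h x hx
  obtain ⟨b, hb⟩ := h y hy
  obtain ⟨c, hc⟩ := h (x + y) (J.add_mem hx hy)
  refine ⟨c - a - b, ?_⟩
  have e1 : x * y + y * x = (x + y) * (x + y) - x * x - y * y := by noncomm_ring
  have e2 : 2 * trace (x + y) / (Fintype.card A : ℝ) = 2 * trace x / (Fintype.card A : ℝ) +
      2 * trace y / (Fintype.card A : ℝ) := by
    rw [trace_add]
    ring
  rw [e1, ha, hb, hc, e2]
  module

/-- The complexification. -/
theorem SpinJ.cx {n : ℕ} {J : Submodule ℝ (Matrix (Fin n) (Fin n) ℝ)}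
    (h : SpinJ J) {X Y : Matrix (Fin n) (Fin n) ℂ}
    (hX : ∃ N1 ∈ J, ∃ N2 ∈ J, X = PG.cx N1 + Complex.I • PG.cx N2)
    (hY : ∃ N1 ∈ J, ∃ N2 ∈ J, Y = PG.cx N1 + Complex.I • PG.cx N2) : ∃ c : ℂ,
      X * Y + Y * X = (2 * trace X / (n : ℂ)) • Y + (2 * trace Y / (n : ℂ)) • X +
        c • (1 : Matrix (Fin n) (Fin n) ℂ) := by
  have key : ∀ N ∈ J, ∀ M ∈ J, ∃ c : ℂ, PG.cx N * PG.cx M + PG.cx M * PG.cx N =
      (2 * trace (PG.cx N) / (n : ℂ)) • PG.cx M + (2 * trace (PG.cx M) / (n : ℂ)) • PG.cx N +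
        c • (1 : Matrix (Fin n) (Fin n) ℂ) := by
    intro N hN M hM
    obtain ⟨c, hc⟩ := h.pol hN hM
    refine ⟨c, ?_⟩
    have e1 := congrArg PG.cx hc
    have hadd : ∀ A B : Matrix (Fin n) (Fin n) ℝ, PG.cx (A + B) = PG.cx A + PG.cx B := by
      intro A B
      ext i j
      simp [PG.cx]
    have hsm : ∀ (r : ℝ) (B : Matrix (Fin n) (Fin n) ℝ), PG.cx (r • B) = (r : ℂ) • PG.cx B := by
      intro r B
      ext i j
      simp [PG.cx]
    have htr : ∀ B : Matrix (Fin n) (Fin n) ℝ, trace (PG.cx B) = ((trace B : ℝ) : ℂ) := by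
      intro B
      simp [PG.cx, trace]
    rw [hadd, hadd, hadd, hsm, hsm, hsm, cx_mul, cx_mul, cx_one, Fintype.card_fin] at e1
    rw [e1, htr, htr]
    push_cast
    rfl
  obtain ⟨N1, h1, N2, h2, rfl⟩ := hX
  obtain ⟨M1, h3, M2, h4, rfl⟩ := hY
  obtain ⟨c11, e11⟩ := key N1 h1 M1 h3
  obtain ⟨c12, e12⟩ := key N1 h1 M2 h4
  obtain ⟨c21, e21⟩ := key N2 h2 M1 h3
  obtain ⟨c22, e22⟩ := key N2 h2 M2 h4
  refine ⟨c11 + Complex.I * c12 + Complex.I * c21 - c22, ?_⟩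
  have hI : Complex.I * Complex.I = -1 := Complex.I_mul_I
  have e1 : (PG.cx N1 + Complex.I • PG.cx N2) * (PG.cx M1 + Complex.I • PG.cx M2) +
      (PG.cx M1 + Complex.I • PG.cx M2) * (PG.cx N1 + Complex.I • PG.cx N2) =
      (PG.cx N1 * PG.cx M1 + PG.cx M1 * PG.cx N1) + Complex.I • (PG.cx N1 * PG.cx M2 +
        PG.cx M2 * PG.cx N1) + Complex.I • (PG.cx N2 * PG.cx M1 + PG.cx M1 * PG.cx N2) +
        (Complex.I * Complex.I) • (PG.cx N2 * PG.cx M2 + PG.cx M2 * PG.cx N2) := by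
    simp only [add_mul, mul_add, Matrix.smul_mul, Matrix.mul_smul, smul_smul]
    module
  rw [e1, e11, e12, e21, e22, hI, trace_add, trace_add, trace_smul, trace_smul, smul_eq_mul,
    smul_eq_mul]
  have e2 : Complex.I • Complex.I • PG.cx N2 = (-1 : ℂ) • PG.cx N2 := by rw [smul_smul, hI]
  have e3 : Complex.I • Complex.I • PG.cx M2 = (-1 : ℂ) • PG.cx M2 := by rw [smul_smul, hI]
  have f1 : (2 * (trace (PG.cx N1) + Complex.I * trace (PG.cx N2)) / (n : ℂ)) =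
      2 * trace (PG.cx N1) / (n : ℂ) + (2 * trace (PG.cx N2) / (n : ℂ)) * Complex.I := by ring
  have f2 : (2 * (trace (PG.cx M1) + Complex.I * trace (PG.cx M2)) / (n : ℂ)) =
      2 * trace (PG.cx M1) / (n : ℂ) + (2 * trace (PG.cx M2) / (n : ℂ)) * Complex.I := by ring
  rw [f1, f2]
  obtain ⟨a1, ha1⟩ : ∃ a, a = 2 * trace (PG.cx N1) / (n : ℂ) := ⟨_, rfl⟩
  obtain ⟨a2, ha2⟩ : ∃ a, a = 2 * trace (PG.cx N2) / (n : ℂ) := ⟨_, rfl⟩
  obtain ⟨b1, hb1⟩ : ∃ a, a = 2 * trace (PG.cx M1) / (n : ℂ) := ⟨_, rfl⟩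
  obtain ⟨b2, hb2⟩ : ∃ a, a = 2 * trace (PG.cx M2) / (n : ℂ) := ⟨_, rfl⟩
  rw [← ha1, ← ha2, ← hb1, ← hb2]
  have g1 : (a1 + a2 * Complex.I) • (PG.cx M1 + Complex.I • PG.cx M2) =
      a1 • PG.cx M1 + (a1 * Complex.I) • PG.cx M2 + (a2 * Complex.I) • PG.cx M1 +
        (a2 * (Complex.I * Complex.I)) • PG.cx M2 := by module
  have g2 : (b1 + b2 * Complex.I) • (PG.cx N1 + Complex.I • PG.cx N2) =
      b1 • PG.cx N1 + (b1 * Complex.I) • PG.cx N2 + (b2 * Complex.I) • PG.cx N1 +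
        (b2 * (Complex.I * Complex.I)) • PG.cx N2 := by module
  rw [g1, g2, hI]
  module

/-- Inverses in spin factors. -/
theorem spin_inv {N : Type*} [Fintype N] [DecidableEq N] {X Y : Matrix N N ℂ} {s t : ℂ}
    (hxy : ∃ c : ℂ, X * Y + Y * X = s • Y + t • X + c • (1 : Matrix N N ℂ))
    (hxx : ∃ c : ℂ, X * X = s • X + c • (1 : Matrix N N ℂ))
    (hyy : ∃ c : ℂ, Y * Y = t • Y + c • (1 : Matrix N N ℂ)) {W : Matrix N N ℂ}
    (h1 : Y * W = 1) (h2 : W * Y = 1) : ∃ α β : ℂ, X * W * X = α • X + β • Y := by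
  obtain ⟨c, hxy⟩ := hxy
  obtain ⟨c', hxx⟩ := hxx
  obtain ⟨c'', hyy⟩ := hyy
  by_cases h0 : c'' = 0
  · rw [h0, zero_smul, add_zero] at hyy
    have e1 : Y = t • 1 := by
      calc Y = Y * Y * W := by rw [mul_assoc, h1, mul_one]
      _ = t • 1 := by rw [hyy, Matrix.smul_mul, h1]
    have e2 : t • W = 1 := by
      rw [← h1, e1, Matrix.smul_mul, one_mul]
    by_cases ht : t = 0
    · rw [ht, zero_smul] at e2
      have e3 : ∀ M : Matrix N N ℂ, M = 0 := fun M => by rw [← mul_one M, ← e2, mul_zero]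
      exact ⟨0, 0, by rw [e3 (X * W * X), zero_smul, zero_smul, add_zero]⟩
    · have e3 : W = t⁻¹ • 1 := by rw [← e2, smul_smul, inv_mul_cancel₀ ht, one_smul]
      refine ⟨t⁻¹ * s, t⁻¹ * c' * t⁻¹, ?_⟩
      rw [e3, Matrix.mul_smul, mul_one, Matrix.smul_mul, hxx, e1, smul_add, smul_smul, smul_smul,
        smul_smul]
      congr 2
      field_simp
  · have e1 : W = c''⁻¹ • (Y - t • 1) := by
      have e2 : W * (Y * Y) = Y := by rw [← mul_assoc, h2, one_mul]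
      rw [hyy, mul_add, Matrix.mul_smul, Matrix.mul_smul, mul_one, h2] at e2
      have e3 : c'' • W = Y - t • 1 := by
        rw [eq_sub_iff_add_eq, add_comm]
        exact e2
      rw [← e3, smul_smul, inv_mul_cancel₀ h0, one_smul]
    have e4 : X * Y * X = t • (X * X) + c • X - c' • Y := by
      have e5 : X * Y * X = (X * Y + Y * X) * X - Y * (X * X) := by noncomm_ring
      rw [e5, hxy, hxx]
      simp only [add_mul, mul_add, Matrix.smul_mul, Matrix.mul_smul, one_mul, mul_one]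
      rw [hxx]
      module
    refine ⟨c''⁻¹ * c, -(c''⁻¹ * c'), ?_⟩
    rw [e1, Matrix.mul_smul, Matrix.smul_mul, mul_sub, sub_mul, e4, Matrix.mul_smul, mul_one,
      Matrix.smul_mul]
    module

end

end Pool.Agent.N994.PG
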