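import Mathlib
import Pool.Agent.N994.PG.JS

/-!
# Elements of rank one in real symplectic three-graded Lie algebras with a real point
-/

set_option linter.unusedSectionVars false
set_option linter.unusedSimpArgs false

namespace Pool.Agent.N994.PG

open Matrix Module
open Pool.Agent.Y4.G (Lie trace_idemM)
open Pool.Agent.Y4.G.Lie (pos mem_pos)
open Pool.Agent.R915 (pos_ne_bot eq_of_mulVec idem_zero)
open Pool.Agent.Y90 (cc)

open scoped ComplexOrder

noncomputable section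

variable {B : Type*} [Fintype B] [DecidableEq B]

theorem c22 (c : ℂ) : c * 2 * (2 : ℂ)⁻¹ = c := by
  rw [mul_assoc, mul_inv_cancel₀ two_ne_zero, mul_one]

/-- Orthonormal coordinates on a real subspace. -/
theorem exists_R (W : Submodule ℝ (B → ℝ)) {E : Matrix B B ℝ} (hE : ∀ v, E *ᵥ v ∈ W)
    (hW : ∀ v ∈ W, E *ᵥ v = v) (hT : Eᵀ = E) :
    ∃ (n : ℕ) (R : Matrix B (Fin n) ℝ), Rᵀ * R = 1 ∧ R * Rᵀ = E := by
  let L : (B → ℝ) ≃ₗ[ℝ] EuclideanSpace ℝ B := (WithLp.linearEquiv 2 ℝ (B → ℝ)).symm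
  let W' : Submodule ℝ (EuclideanSpace ℝ B) := W.map L.toLinearMap
  let b := stdOrthonormalBasis ℝ W'
  have hin : ∀ v w : EuclideanSpace ℝ B, inner ℝ v w = ∑ i, v i * w i := by
    intro v w
    rw [PiLp.inner_apply]
    refine Finset.sum_congr rfl fun i _ => ?_
    rw [RCLike.inner_apply]
    simp [mul_comm]
  obtain ⟨R, hR⟩ : ∃ R : Matrix B (Fin (finrank ℝ W')) ℝ, ∀ i j, R i j =
      ((b j : W') : EuclideanSpace ℝ B) i := ⟨fun i j => ((b j : W') : EuclideanSpace ℝ B) i,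
        fun _ _ => rfl⟩
  refine ⟨finrank ℝ W', R, ?_, ?_⟩
  · ext i j
    rw [mul_apply]
    have h1 := (orthonormal_iff_ite.1 b.orthonormal) i j
    rw [one_apply, ← h1, Submodule.coe_inner, hin]
    refine Finset.sum_congr rfl fun k _ => ?_
    rw [transpose_apply, hR, hR]
  · have hER : E * R = R := by
      ext i j
      have h1 : (fun i => R i j) ∈ W := by
        obtain ⟨w, hw, hw'⟩ : ((b j : W') : EuclideanSpace ℝ B) ∈ W' := (b j).2
        have h2 : (fun i => R i j) = w := by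
          funext i
          rw [hR, ← hw']
          rfl
        rw [h2]
        exact hw
      exact congrFun (hW _ h1) i
    have hRR : ∀ w ∈ W, (R * Rᵀ) *ᵥ w = w := by
      intro w hw
      have h1 : L w ∈ W' := ⟨w, hw, rfl⟩
      have h2 := b.sum_repr ⟨L w, h1⟩
      have h3 : w = R *ᵥ (fun j => b.repr ⟨L w, h1⟩ j) := by
        funext i
        have h4 := congrArg (fun z : W' => (z : EuclideanSpace ℝ B) i) h2
        beta_reduce at h4
        have h5 : ((⟨L w, h1⟩ : W') : EuclideanSpace ℝ B) i = w i := rfl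
        rw [h5] at h4
        rw [← h4]
        rw [mulVec, dotProduct, Submodule.coe_sum, WithLp.ofLp_sum, Finset.sum_apply]
        refine Finset.sum_congr rfl fun j _ => ?_
        rw [hR, mul_comm]
        rfl
      have hRtR : Rᵀ * R = 1 := by
        ext i j
        rw [mul_apply]
        have h1 := (orthonormal_iff_ite.1 b.orthonormal) i j
        rw [one_apply, ← h1, Submodule.coe_inner, hin]
        refine Finset.sum_congr rfl fun k _ => ?_
        rw [transpose_apply, hR, hR]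
      rw [h3, mulVec_mulVec, Matrix.mul_assoc, hRtR, Matrix.mul_one]
    have h1 : R * Rᵀ * E = E := eqR fun v => by
      rw [← mulVec_mulVec, hRR _ (hE v)]
    have h2 := congrArg transpose h1
    rw [transpose_mul, transpose_mul, transpose_transpose, hT, ← Matrix.mul_assoc, hER] at h2
    exact h2

/-- The inverses of the elements of positive degree. -/
def SpinP (G : Submodule ℂ (Matrix B B ℂ)) (P Q : Matrix B B ℂ) : Prop :=
  ∀ x ∈ pos G P Q, ∀ u ∈ pos G P Q, (∀ v, Q *ᵥ v = v → u *ᵥ v = 0 → v = 0) →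
    ∃ α β : ℂ, ∀ v v', Q *ᵥ v = v → Q *ᵥ v' = v' → u *ᵥ v' = x *ᵥ v →
      x *ᵥ v' = α • (x *ᵥ v) + β • (u *ᵥ v)

/-- Real symplectic three-graded Lie algebras with a real point. -/
structure RS (G : Submodule ℂ (Matrix B B ℂ)) (P Q : Matrix B B ℂ) (a : ℕ)
    (D' : Matrix B B ℂ) : Prop where
  H : Lie G P Q a a
  cj : ∀ X ∈ G, X.map cc ∈ G
  PQc : P.map cc = Q
  sp : ∀ X ∈ G, Xᵀ * (P - Q) + (P - Q) * X = 0
  full : Full G P Q
  DG : D' ∈ G
  DD : D' * D' = P + Q
  real : ∀ v, (P + Q) *ᵥ v = v → D' *ᵥ v = -v → D' *ᵥ (fun i => cc (v i)) = -(fun i => cc (v i))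

namespace RS

variable {G : Submodule ℂ (Matrix B B ℂ)} {P Q D' : Matrix B B ℂ} {a : ℕ} (k : RS G P Q a D')
include k

theorem QPc : Q.map cc = P := by
  rw [← k.PQc, map_cc_cc]

theorem PT : Pᵀ = Q := by
  rw [← k.PQc]
  have h1 : Pᵀ = (Pᴴ).map cc := by
    ext i j
    exact (Complex.conj_conj _).symm
  rw [h1, k.H.PH]

theorem QT : Qᵀ = P := by rw [← k.PT, transpose_transpose]

theorem ee : (P + Q) * (P + Q) = P + Q := by
  rw [mul_add, add_mul, add_mul, k.H.PP, k.H.QP, k.H.PQ, k.H.QQ, add_zero, zero_add]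

theorem ecc : (P + Q).map cc = P + Q := by
  have h1 : (P + Q).map cc = P.map cc + Q.map cc := Matrix.map_add _ (map_add cc) _ _
  rw [h1, k.PQc, k.QPc, add_comm]

theorem eT : (P + Q)ᵀ = P + Q := by rw [transpose_add, k.PT, k.QT, add_comm]

theorem DT : (P - Q)ᵀ = -(P - Q) := by rw [transpose_sub, k.PT, k.QT, neg_sub]

theorem D2 : (P - Q) * (P - Q) = P + Q := by
  rw [mul_sub, sub_mul, sub_mul, k.H.PP, k.H.QP, k.H.PQ, k.H.QQ]
  abel

theorem eD : (P + Q) * (P - Q) = P - Q := k.H.lel _ k.H.D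

theorem De : (P - Q) * (P + Q) = P - Q := k.H.ler _ k.H.D

theorem conj_e {v : B → ℂ} (hv : (P + Q) *ᵥ v = v) :
    (P + Q) *ᵥ (fun i => cc (v i)) = fun i => cc (v i) := by
  have h1 : ((P + Q).map cc) *ᵥ (fun i => cc (v i)) = fun i => cc (((P + Q) *ᵥ v) i) := by
    funext i
    simp [mulVec, dotProduct, map_sum]
  rw [k.ecc, hv] at h1
  exact h1

theorem trD' : trace D' = 0 := by
  have h1 := k.sp D' k.DG
  have h2 : (D')ᵀ * (P + Q) = -((P - Q) * D' * (P - Q)) := by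
    have h3 := congrArg (fun X => X * (P - Q)) h1
    beta_reduce at h3
    rw [add_mul, zero_mul, mul_assoc, k.D2] at h3
    exact eq_neg_of_add_eq_zero_left h3
  have h4 : (D')ᵀ * (P + Q) = (D')ᵀ := by
    have h5 := congrArg transpose (k.H.lel D' k.DG)
    rwa [transpose_mul, k.eT] at h5
  rw [h4] at h2
  have h5 := congrArg trace h2
  rw [trace_transpose, trace_neg, trace_mul_comm, ← mul_assoc, k.D2, k.H.lel D' k.DG] at h5
  have h6 : (2 : ℂ) * trace D' = 0 := by
    rw [two_mul]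
    nth_rewrite 1 [h5]
    rw [neg_add_cancel]
  exact (mul_eq_zero.1 h6).resolve_left two_ne_zero

/-- The real point. -/
theorem exists_RP : ∃ (E : Matrix B B ℝ) (n : ℕ) (R : Matrix B (Fin n) ℝ),
    RPt G P Q a D' (cx E) ∧ Rᵀ * R = 1 ∧ R * Rᵀ = E := by
  let W : Submodule ℝ (B → ℝ) :=
    { carrier := {w | (P + Q) *ᵥ (fun i => (w i : ℂ)) = (fun i => (w i : ℂ)) ∧
        D' *ᵥ (fun i => (w i : ℂ)) = -(fun i => (w i : ℂ))}
      zero_mem' := by
        have h1 : (fun i => (((0 : B → ℝ) i : ℝ) : ℂ)) = (0 : B → ℂ) := by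
          funext i
          simp
        change _ ∧ _
        rw [h1, mulVec_zero, mulVec_zero, neg_zero]
        exact ⟨rfl, rfl⟩
      add_mem' := fun {v w} hv hw => by
        have h1 : (fun i => (((v + w) i : ℝ) : ℂ)) = (fun i => (v i : ℂ)) + fun i => (w i : ℂ) := by
          funext i
          simp
        change _ ∧ _
        rw [h1, mulVec_add, mulVec_add, hv.1, hv.2, hw.1, hw.2, neg_add]
        exact ⟨rfl, rfl⟩
      smul_mem' := fun c v hv => by
        have h1 : (fun i => (((c • v) i : ℝ) : ℂ)) = (c : ℂ) • (fun i => (v i : ℂ)) := by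
          funext i
          simp
        change _ ∧ _
        rw [h1, mulVec_smul, mulVec_smul, hv.1, hv.2, smul_neg]
        exact ⟨rfl, rfl⟩ }
  have hW : ∀ w, w ∈ W ↔ (P + Q) *ᵥ (fun i => (w i : ℂ)) = (fun i => (w i : ℂ)) ∧
      D' *ᵥ (fun i => (w i : ℂ)) = -(fun i => (w i : ℂ)) := fun _ => Iff.rfl
  obtain ⟨E, hE1, hE2, hE3⟩ := exists_projR W
  obtain ⟨n, R, hR1, hR2⟩ := exists_R W hE1 hE2 hE3
  refine ⟨E, n, R, ?_, hR1, hR2⟩
  have hcol : ∀ (v : B → ℂ), ∃ w1 ∈ W, ∃ w2 ∈ W, (cx E) *ᵥ v =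
      (fun i => (w1 i : ℂ)) + Complex.I • fun i => (w2 i : ℂ) := by
    intro v
    refine ⟨_, hE1 (fun i => (v i).re), _, hE1 (fun i => (v i).im), ?_⟩
    funext i
    simp only [mulVec, dotProduct, cx, map_apply, Pi.add_apply, Pi.smul_apply, smul_eq_mul]
    push_cast
    rw [Finset.mul_sum, ← Finset.sum_add_distrib]
    refine Finset.sum_congr rfl fun j _ => ?_
    nth_rewrite 1 [← Complex.re_add_im (v j)]
    ring
  have heM : (P + Q) * cx E = cx E := eq_of_mulVec fun v => by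
    obtain ⟨w1, h1, w2, h2, h3⟩ := hcol v
    rw [← mulVec_mulVec, h3, mulVec_add, mulVec_smul, ((hW _).1 h1).1, ((hW _).1 h2).1]
  have hDM : D' * cx E = -cx E := eq_of_mulVec fun v => by
    obtain ⟨w1, h1, w2, h2, h3⟩ := hcol v
    rw [neg_mulVec, ← mulVec_mulVec, h3, mulVec_add, mulVec_smul, ((hW _).1 h1).2, ((hW _).1 h2).2,
      smul_neg, neg_add]
  have hMT : (cx E)ᵀ = cx E := by rw [← cx_transpose, hE3]
  have hMe : cx E * (P + Q) = cx E := by
    have h1 := congrArg transpose heM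
    rwa [transpose_mul, hMT, k.eT] at h1
  have hfix : ∀ v, (P + Q) *ᵥ v = v → D' *ᵥ v = -v → cx E *ᵥ v = v := by
    intro v h1 h2
    have h3 := k.conj_e h1
    have h4 := k.real v h1 h2
    have hre : (fun i => (v i).re) ∈ W := by
      have e1 : (fun i => ((v i).re : ℂ)) = (2 : ℂ)⁻¹ • (v + fun i => cc (v i)) := by
        funext i
        have : cc (v i) = (starRingEnd ℂ) (v i) := rfl
        simp only [Pi.smul_apply, Pi.add_apply, smul_eq_mul, this, Complex.add_conj]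
        push_cast
        ring
      refine (hW _).2 ⟨?_, ?_⟩
      · rw [e1, mulVec_smul, mulVec_add, h1, h3]
      · rw [e1, mulVec_smul, mulVec_add, h2, h4, ← neg_add, smul_neg]
    have him : (fun i => (v i).im) ∈ W := by
      have e1 : (fun i => ((v i).im : ℂ)) = (2 * Complex.I)⁻¹ • (v - fun i => cc (v i)) := by
        funext i
        have : cc (v i) = (starRingEnd ℂ) (v i) := rfl
        simp only [Pi.smul_apply, Pi.sub_apply, smul_eq_mul, this, Complex.sub_conj]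
        have hI := Complex.I_ne_zero
        field_simp
        push_cast
        ring
      refine (hW _).2 ⟨?_, ?_⟩
      · rw [e1, mulVec_smul, mulVec_sub, h1, h3]
      · rw [e1, mulVec_smul, mulVec_sub, h2, h4, ← smul_neg, neg_sub]
        congr 1
        abel
    funext i
    have h5 := congrFun (hE2 _ hre) i
    have h6 := congrFun (hE2 _ him) i
    simp only [mulVec, dotProduct] at h5 h6
    simp only [mulVec, dotProduct, cx, map_apply]
    rw [← Complex.re_add_im (v i), ← h5, ← h6]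
    push_cast
    rw [Finset.sum_mul, ← Finset.sum_add_distrib]
    refine Finset.sum_congr rfl fun j _ => ?_
    nth_rewrite 1 [← Complex.re_add_im (v j)]
    ring
  have hMM : cx E * cx E = cx E := eq_of_mulVec fun v => by
    rw [← mulVec_mulVec]
    exact hfix _ (by rw [mulVec_mulVec, heM]) (by rw [mulVec_mulVec, hDM, neg_mulVec])
  have hMDM : cx E * (P - Q) * cx E = 0 := by
    have e1 : cx E * (D')ᵀ = -cx E := by
      have h1 := congrArg transpose hDM
      rwa [transpose_mul, hMT, transpose_neg, hMT] at h1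
    have e2 : (D')ᵀ * (P - Q) = -((P - Q) * D') := eq_neg_of_add_eq_zero_left (k.sp D' k.DG)
    have e3 : cx E * ((D')ᵀ * (P - Q)) * cx E = -(cx E * (P - Q) * cx E) := by
      rw [← mul_assoc, e1, neg_mul, neg_mul]
    have e4 : cx E * ((D')ᵀ * (P - Q)) * cx E = cx E * (P - Q) * cx E := by
      rw [e2]
      calc cx E * -((P - Q) * D') * cx E = -(cx E * (P - Q) * (D' * cx E)) := by noncomm_ring
      _ = _ := by rw [hDM]; noncomm_ring
    rw [e3] at e4
    have h8 : (2 : ℂ) • (cx E * (P - Q) * cx E) = 0 := by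
      rw [two_smul]
      nth_rewrite 1 [← e4]
      rw [neg_add_cancel]
    exact (smul_eq_zero.1 h8).resolve_left two_ne_zero
  -- the trace
  have htr : trace (cx E) = a := by
    obtain ⟨E', hE'⟩ : ∃ E', E' = (2 : ℂ)⁻¹ • (P + Q - D') := ⟨_, rfl⟩
    have t1 : trace E' = a := by
      rw [hE', trace_smul, trace_sub, trace_add, k.H.trP, k.H.trQ, k.trD', smul_eq_mul]
      ring
    have d1 := k.H.lel D' k.DG
    have t2 : cx E * E' = E' := eq_of_mulVec fun v => by
      rw [← mulVec_mulVec]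
      refine hfix _ ?_ ?_
      · rw [mulVec_mulVec, hE', Matrix.mul_smul, mul_sub, k.ee, d1]
      · rw [mulVec_mulVec, hE', Matrix.mul_smul, mul_sub, k.H.ler D' k.DG, k.DD, ← neg_mulVec,
          ← smul_neg, neg_sub]
    have t3 : E' * cx E = cx E := by
      rw [hE', Matrix.smul_mul, sub_mul, heM, hDM, sub_neg_eq_add, ← two_smul ℂ, smul_smul]
      norm_num
    rw [← t1, ← t2, trace_mul_comm, t3]
  exact {
    H := k.H
    DG := k.DG
    DD := k.DD
    eM := heM
    Me := hMe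
    DM := hDM
    fix := hfix
    MDM := hMDM
    sum := by
      obtain ⟨X, hX⟩ : ∃ X, X = P + Q - (cx E + (P - Q) * cx E * (P - Q)) := ⟨_, rfl⟩
      have e1 : (P - Q) * cx E * (P - Q) * ((P - Q) * cx E * (P - Q)) =
          (P - Q) * cx E * (P - Q) := by
        calc (P - Q) * cx E * (P - Q) * ((P - Q) * cx E * (P - Q)) =
            (P - Q) * (cx E * ((P - Q) * (P - Q)) * cx E) * (P - Q) := by noncomm_ring
        _ = _ := by rw [k.D2, hMe, hMM]
      have e2 : cx E * ((P - Q) * cx E * (P - Q)) = 0 := by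
        rw [← mul_assoc, ← mul_assoc, hMDM, zero_mul]
      have e3 : ((P - Q) * cx E * (P - Q)) * cx E = 0 := by
        rw [mul_assoc, mul_assoc, ← mul_assoc (cx E), hMDM, mul_zero]
      have e4 : (P + Q) * ((P - Q) * cx E * (P - Q)) = (P - Q) * cx E * (P - Q) := by
        rw [← mul_assoc, ← mul_assoc, k.eD]
      have e5 : ((P - Q) * cx E * (P - Q)) * (P + Q) = (P - Q) * cx E * (P - Q) := by
        rw [mul_assoc, k.De]
      have hXX : X * X = X := by
        obtain ⟨Y, hY⟩ : ∃ Y, Y = (P - Q) * cx E * (P - Q) := ⟨_, rfl⟩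
        obtain ⟨e, he⟩ : ∃ e, e = P + Q := ⟨_, rfl⟩
        have ee := k.ee
        rw [← hY] at e1 e2 e3 e4 e5 hX
        rw [← he] at e4 e5 hX ee
        have heM' := heM
        have hMe' := hMe
        rw [← he] at heM' hMe'
        rw [hX]
        simp only [mul_sub, sub_mul, mul_add, add_mul, ee, heM', hMe', hMM, e1, e2, e3, e4, e5]
        abel
      have hX0 : trace X = 0 := by
        rw [hX, trace_sub, trace_add, trace_add, k.H.trP, k.H.trQ, htr]
        have e6 : trace ((P - Q) * cx E * (P - Q)) = a := by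
          rw [trace_mul_comm, ← mul_assoc, k.D2, heM, htr]
        rw [e6, sub_self]
      have h1 := idem_zero hXX hX0
      rw [hX, sub_eq_zero] at h1
      exact h1.symm }

/-- **Elements of rank one.** -/
theorem rank_one (ha : 0 < a) : (∃ u w : B → ℂ, vecMulVec u w ∈ pos G P Q ∧ vecMulVec u w ≠ 0) ∨
    ((∃ j, 4 ≤ j ∧ j % 4 ≤ 1 ∧ a = 2 ^ j) ∧ SpinP G P Q) := by
  obtain ⟨E, n, R, r, hR1, hR2⟩ := k.exists_RP
  obtain ⟨Rc, hRc⟩ : ∃ Rc, Rc = cx R := ⟨_, rfl⟩
  obtain ⟨M, hM⟩ : ∃ M, M = cx E := ⟨_, rfl⟩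
  rw [← hM] at r
  have q1 : Rcᵀ * Rc = 1 := by rw [hRc, ← cx_transpose, ← cx_mul, hR1, cx_one]
  have q2 : Rc * Rcᵀ = M := by rw [hRc, hM, ← cx_transpose, ← cx_mul, hR2]
  have q3 : Rcᵀ * M = Rcᵀ := by rw [← q2, ← Matrix.mul_assoc, q1, Matrix.one_mul]
  have q4 : M * Rc = Rc := by rw [← q2, Matrix.mul_assoc, q1, Matrix.mul_one]
  have q5 : Rcᵀ * P * Rc = (2 : ℂ)⁻¹ • 1 := by
    calc Rcᵀ * P * Rc = (Rcᵀ * M) * P * (M * Rc) := by rw [q3, q4]
    _ = Rcᵀ * (M * P * M) * Rc := by simp only [Matrix.mul_assoc]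
    _ = _ := by rw [r.MPM, Matrix.mul_smul, Matrix.smul_mul, q3, q1]
  have q6 : Rcᵀ * Q * Rc = (2 : ℂ)⁻¹ • 1 := by
    calc Rcᵀ * Q * Rc = (Rcᵀ * M) * Q * (M * Rc) := by rw [q3, q4]
    _ = Rcᵀ * (M * Q * M) * Rc := by simp only [Matrix.mul_assoc]
    _ = _ := by rw [r.MQM, Matrix.mul_smul, Matrix.smul_mul, q3, q1]
  -- the coordinates
  let θ : Matrix B B ℂ →ₗ[ℂ] Matrix (Fin n) (Fin n) ℂ :=
    { toFun := fun x => (2 : ℂ) • (Rcᵀ * x * Rc)
      map_add' := fun x y => by rw [Matrix.mul_add, Matrix.add_mul, smul_add]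
      map_smul' := fun c x => by
        rw [Matrix.mul_smul, Matrix.smul_mul, smul_comm, RingHom.id_apply] }
  have hθ : ∀ x, θ x = (2 : ℂ) • (Rcᵀ * x * Rc) := fun _ => rfl
  have hback : ∀ x ∈ pos G P Q, x = (2 : ℂ) • (P * Rc * θ x * Rcᵀ * Q) := by
    intro x hx
    rw [hθ]
    calc x = (2 : ℂ) • (2 : ℂ) • ((2 : ℂ)⁻¹ • (2 : ℂ)⁻¹ • (P * x * Q)) := by
          rw [hx.2.1, hx.2.2, smul_smul, smul_smul, smul_smul]
          norm_num
    _ = (2 : ℂ) • (2 : ℂ) • ((P * M * P) * x * (Q * M * Q)) := by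
          rw [r.PMP, r.QMQ]
          simp only [Matrix.smul_mul, Matrix.mul_smul]
    _ = (2 : ℂ) • (2 : ℂ) • ((P * M) * (P * x * Q) * (M * Q)) := by
          congr 2
          simp only [Matrix.mul_assoc, Matrix.mul_add, Matrix.add_mul]
    _ = (2 : ℂ) • (2 : ℂ) • ((P * (Rc * Rcᵀ)) * x * ((Rc * Rcᵀ) * Q)) := by
          rw [q2, hx.2.1, hx.2.2]
    _ = _ := by
          simp only [Matrix.smul_mul, Matrix.mul_smul]
          congr 2
          simp only [Matrix.mul_assoc, Matrix.mul_add, Matrix.add_mul]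
  have hbackQ : ∀ x ∈ pos G Q P, x = (2 : ℂ) • (Q * Rc * θ x * Rcᵀ * P) := by
    intro x hx
    rw [hθ]
    calc x = (2 : ℂ) • (2 : ℂ) • ((2 : ℂ)⁻¹ • (2 : ℂ)⁻¹ • (Q * x * P)) := by
          rw [hx.2.1, hx.2.2, smul_smul, smul_smul, smul_smul]
          norm_num
    _ = (2 : ℂ) • (2 : ℂ) • ((Q * M * Q) * x * (P * M * P)) := by
          rw [r.PMP, r.QMQ]
          simp only [Matrix.smul_mul, Matrix.mul_smul]
    _ = (2 : ℂ) • (2 : ℂ) • ((Q * M) * (Q * x * P) * (M * P)) := by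
          congr 2
          simp only [Matrix.mul_assoc, Matrix.mul_add, Matrix.add_mul]
    _ = (2 : ℂ) • (2 : ℂ) • ((Q * (Rc * Rcᵀ)) * x * ((Rc * Rcᵀ) * P)) := by
          rw [q2, hx.2.1, hx.2.2]
    _ = _ := by
          simp only [Matrix.smul_mul, Matrix.mul_smul]
          congr 2
          simp only [Matrix.mul_assoc, Matrix.mul_add, Matrix.add_mul]
  have hmul : ∀ x ∈ pos G P Q, ∀ y ∈ pos G P Q, θ x * θ y + θ y * θ x =
      θ ((2 : ℂ) • (x * M * y + y * M * x)) := by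
    intro x _ y _
    have e1 : ∀ x y, θ x * θ y = (2 : ℂ) • (2 : ℂ) • (Rcᵀ * (x * M * y) * Rc) := by
      intro x y
      rw [hθ, hθ, Matrix.smul_mul, Matrix.mul_smul, ← q2]
      congr 2
      simp only [Matrix.mul_assoc, Matrix.mul_add, Matrix.add_mul]
    rw [e1, e1, hθ, ← smul_add, ← smul_add, Matrix.mul_smul, Matrix.smul_mul, Matrix.mul_add, Matrix.add_mul]
  have hsym : ∀ x ∈ pos G P Q, xᵀ = x := by
    intro x hx
    have h1 := k.sp x hx.1
    have h2 : (P - Q) * x = x := by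
      rw [Matrix.sub_mul, hx.2.1, ← hx.2.1, ← Matrix.mul_assoc, k.H.QP, Matrix.zero_mul, sub_zero]
    have h3 : xᵀ * (P - Q) = -xᵀ := by
      have h4 := congrArg transpose h2
      rw [transpose_mul, k.DT, mul_neg] at h4
      exact neg_eq_iff_eq_neg.1 h4
    rw [h2, h3] at h1
    exact (neg_add_eq_zero.1 h1)
  have hθT : ∀ x ∈ pos G P Q, (θ x)ᵀ = θ x := by
    intro x hx
    rw [hθ, transpose_smul, transpose_mul, transpose_mul, transpose_transpose, hsym x hx, Matrix.mul_assoc]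
  have hθc : ∀ x, (θ x).map cc = θ (x.map cc) := by
    intro x
    have h1 : Rc.map cc = Rc := by rw [hRc, cx_cc]
    have h2 : (Rcᵀ).map cc = Rcᵀ := by rw [hRc, ← cx_transpose, cx_cc]
    have h3 : ∀ N : Matrix (Fin n) (Fin n) ℂ, ((2 : ℂ) • N).map cc = (2 : ℂ) • N.map cc := by
      intro N
      ext i j
      have h4 : cc (2 : ℂ) = 2 := map_ofNat cc 2
      change cc (2 * N i j) = 2 * cc (N i j)
      rw [map_mul, h4]
    rw [hθ, hθ, h3, map_cc_mul, map_cc_mul, h1, h2]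
  -- complex conjugation
  have hz : ∀ x ∈ pos G P Q, ∃ z ∈ pos G P Q, θ z = (θ x).map cc := by
    intro x hx
    have hx' : x.map cc ∈ pos G Q P := by
      refine ⟨k.cj x hx.1, ?_, ?_⟩
      · rw [← k.PQc, ← map_cc_mul, hx.2.1]
      · rw [← k.QPc, ← map_cc_mul, hx.2.2]
    refine ⟨_, r.flip hx', ?_⟩
    rw [hθc, hθ, hθ]
    calc (2 : ℂ) • (Rcᵀ * ((4 : ℂ) • (P * M * x.map cc * M * Q)) * Rc) =
        (2 : ℂ) • (4 : ℂ) • ((Rcᵀ * M) * (P * M * x.map cc * M * Q) * (M * Rc)) := by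
          rw [q3, q4, Matrix.mul_smul, Matrix.smul_mul]
    _ = (2 : ℂ) • (4 : ℂ) • (Rcᵀ * (M * P * M) * x.map cc * (M * Q * M) * Rc) := by
          congr 2
          simp only [Matrix.mul_assoc, Matrix.mul_add, Matrix.add_mul]
    _ = (2 : ℂ) • (4 : ℂ) • ((2 : ℂ)⁻¹ • (2 : ℂ)⁻¹ • ((Rcᵀ * M) * x.map cc * (M * Rc))) := by
          rw [r.MPM, r.MQM]
          simp only [Matrix.smul_mul, Matrix.mul_smul, Matrix.mul_assoc]
    _ = _ := by
          rw [q3, q4, smul_smul (4 : ℂ), smul_smul (4 * _ : ℂ)]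
          norm_num
  -- the Jordan algebra
  let 𝒥 : Submodule ℝ (Matrix (Fin n) (Fin n) ℝ) :=
    { carrier := {N | ∃ x ∈ pos G P Q, cx N = θ x}
      zero_mem' := ⟨0, (pos G P Q).zero_mem, by
        rw [map_zero]
        ext i j
        simp [cx]⟩
      add_mem' := fun {N N'} hN hN' => by
        obtain ⟨x, hx, h1⟩ := hN
        obtain ⟨y, hy, h2⟩ := hN'
        refine ⟨x + y, (pos G P Q).add_mem hx hy, ?_⟩
        rw [map_add, ← h1, ← h2]
        ext i j
        simp [cx]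
      smul_mem' := fun c N hN => by
        obtain ⟨x, hx, h1⟩ := hN
        refine ⟨(c : ℂ) • x, (pos G P Q).smul_mem _ hx, ?_⟩
        rw [map_smul, ← h1]
        ext i j
        simp [cx] }
  have hJ : ∀ N, N ∈ 𝒥 ↔ ∃ x ∈ pos G P Q, cx N = θ x := fun _ => Iff.rfl
  have hri : ∀ x ∈ pos G P Q, ∃ N1 ∈ 𝒥, ∃ N2 ∈ 𝒥, θ x = cx N1 + Complex.I • cx N2 := by
    intro x hx
    obtain ⟨z, hz1, hz2⟩ := hz x hx
    refine ⟨(θ x).map Complex.re, ⟨(2 : ℂ)⁻¹ • (x + z), (pos G P Q).smul_mem _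
      ((pos G P Q).add_mem hx hz1), ?_⟩, (θ x).map Complex.im, ⟨(2 * Complex.I)⁻¹ • (x - z),
      (pos G P Q).smul_mem _ ((pos G P Q).sub_mem hx hz1), ?_⟩, ?_⟩
    · rw [map_smul, map_add, hz2]
      ext i j
      have : cc ((θ x) i j) = (starRingEnd ℂ) ((θ x) i j) := rfl
      simp only [cx, map_apply, Matrix.smul_apply, Matrix.add_apply, smul_eq_mul, this, Complex.add_conj]
      push_cast
      ring
    · rw [map_smul, map_sub, hz2]
      ext i j
      have : cc ((θ x) i j) = (starRingEnd ℂ) ((θ x) i j) := rfl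
      simp only [cx, map_apply, Matrix.smul_apply, Matrix.sub_apply, smul_eq_mul, this, Complex.sub_conj]
      have hI := Complex.I_ne_zero
      field_simp
      push_cast
      ring
    · ext i j
      simp only [cx, map_apply, Matrix.smul_apply, Matrix.add_apply, smul_eq_mul]
      rw [mul_comm Complex.I]
      exact (Complex.re_add_im _).symm
  have hJA : JA 𝒥 := by
    refine ⟨fun N hN => ?_, fun N hN => ?_, fun T hT => ?_⟩
    · obtain ⟨x, hx, h1⟩ := hN
      apply cx_inj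
      rw [cx_transpose, h1, hθT x hx]
    · obtain ⟨x, hx, h1⟩ := hN
      refine ⟨(2 : ℂ)⁻¹ • ((2 : ℂ) • (x * M * x + x * M * x)), (pos G P Q).smul_mem _
        (r.jordan hx hx), ?_⟩
      rw [map_smul, ← hmul x hx x hx, cx_mul, h1, ← two_smul ℂ, smul_smul]
      norm_num
    · -- the commutant
      obtain ⟨Tc, hTc⟩ : ∃ Tc, Tc = cx T := ⟨_, rfl⟩
      have hcp : ∀ x ∈ pos G P Q, Tc * θ x = θ x * Tc := by
        intro x hx
        obtain ⟨N1, h1, N2, h2, h3⟩ := hri x hx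
        rw [h3, Matrix.mul_add, Matrix.add_mul, Matrix.mul_smul, Matrix.smul_mul, hTc, ← cx_mul, ← cx_mul,
          ← cx_mul, ← cx_mul, hT N1 h1, hT N2 h2]
      have hcq : ∀ x ∈ pos G Q P, Tc * θ x = θ x * Tc := by
        intro x hx
        have hx' : x.map cc ∈ pos G P Q := by
          refine ⟨k.cj x hx.1, ?_, ?_⟩
          · rw [← k.QPc, ← map_cc_mul, hx.2.1]
          · rw [← k.PQc, ← map_cc_mul, hx.2.2]
        have h1 := congrArg (fun N => N.map cc) (hcp _ hx')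
        beta_reduce at h1
        have h2 : Tc.map cc = Tc := by rw [hTc, cx_cc]
        rw [map_cc_mul, map_cc_mul, h2, hθc, map_cc_cc] at h1
        exact h1
      obtain ⟨Θ, hΘ⟩ : ∃ Θ, Θ = (2 : ℂ) • (P * Rc * Tc * Rcᵀ * P + Q * Rc * Tc * Rcᵀ * Q) :=
        ⟨_, rfl⟩
      have key : ∀ P Q : Matrix B B ℂ, P * P = P → Q * Q = Q → P * Q = 0 → Q * P = 0 →
          Rcᵀ * P * Rc = (2 : ℂ)⁻¹ • 1 → Rcᵀ * Q * Rc = (2 : ℂ)⁻¹ • 1 →
          ∀ X : Matrix (Fin n) (Fin n) ℂ, Tc * X = X * Tc →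
          (2 : ℂ) • (P * Rc * Tc * Rcᵀ * P + Q * Rc * Tc * Rcᵀ * Q) *
            ((2 : ℂ) • (P * Rc * X * Rcᵀ * Q)) = ((2 : ℂ) • (P * Rc * X * Rcᵀ * Q)) *
            ((2 : ℂ) • (P * Rc * Tc * Rcᵀ * P + Q * Rc * Tc * Rcᵀ * Q)) := by
        intro P Q PP QQ PQ QP qP qQ X hX
        have e1 : (P * Rc * Tc * Rcᵀ * P + Q * Rc * Tc * Rcᵀ * Q) * (P * Rc * X * Rcᵀ * Q) =
            (2 : ℂ)⁻¹ • (P * Rc * (Tc * X) * Rcᵀ * Q) := by
          calc (P * Rc * Tc * Rcᵀ * P + Q * Rc * Tc * Rcᵀ * Q) * (P * Rc * X * Rcᵀ * Q) =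
              P * Rc * Tc * (Rcᵀ * (P * P) * Rc) * X * Rcᵀ * Q +
                Q * Rc * Tc * Rcᵀ * (Q * P) * Rc * X * Rcᵀ * Q := by simp only [Matrix.mul_assoc, Matrix.mul_add, Matrix.add_mul]
          _ = _ := by
              rw [PP, QP, qP]
              simp only [Matrix.mul_smul, Matrix.smul_mul, Matrix.mul_one, Matrix.mul_zero, Matrix.zero_mul, add_zero,
                Matrix.mul_assoc]
        have e2 : (P * Rc * X * Rcᵀ * Q) * (P * Rc * Tc * Rcᵀ * P + Q * Rc * Tc * Rcᵀ * Q) =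
            (2 : ℂ)⁻¹ • (P * Rc * (X * Tc) * Rcᵀ * Q) := by
          calc (P * Rc * X * Rcᵀ * Q) * (P * Rc * Tc * Rcᵀ * P + Q * Rc * Tc * Rcᵀ * Q) =
              P * Rc * X * (Rcᵀ * (Q * Q) * Rc) * Tc * Rcᵀ * Q +
                P * Rc * X * Rcᵀ * (Q * P) * Rc * Tc * Rcᵀ * P := by
                  simp only [Matrix.mul_assoc, Matrix.mul_add, Matrix.add_mul]
                  rw [add_comm]
          _ = _ := by
              rw [QQ, QP, qQ]
              simp only [Matrix.mul_smul, Matrix.smul_mul, Matrix.mul_one, Matrix.mul_zero, Matrix.zero_mul, add_zero,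
                Matrix.mul_assoc]
        rw [Matrix.smul_mul, Matrix.mul_smul, e1, Matrix.smul_mul, Matrix.mul_smul, e2, hX]
      have hcP : ∀ x ∈ pos G P Q, Θ * x = x * Θ := by
        intro x hx
        rw [hback x hx, hΘ]
        exact key P Q k.H.PP k.H.QQ k.H.PQ k.H.QP q5 q6 _ (hcp x hx)
      have hcQ : ∀ x ∈ pos G Q P, Θ * x = x * Θ := by
        intro x hx
        rw [hbackQ x hx, hΘ, add_comm (P * Rc * Tc * Rcᵀ * P)]
        exact key Q P k.H.QQ k.H.PP k.H.QP k.H.PQ q6 q5 _ (hcq x hx)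
      rcases Nat.eq_zero_or_pos n with hn | hn
      · subst hn
        exact ⟨0, by ext i; exact i.elim0⟩
      have hne : Nonempty (Fin n) := ⟨⟨0, hn⟩⟩
      obtain ⟨c, hc⟩ := Module.End.exists_eigenvalue (Matrix.toLin' Tc)
      obtain ⟨w, hw⟩ := hc.exists_hasEigenvector
      have hw1 : Tc *ᵥ w = c • w := by
        have h1 := hw.apply_eq_smul
        rwa [toLin'_apply] at h1
      have hw0 := hw.2
      let K : Submodule ℂ (B → ℂ) :=
        { carrier := {v | (P + Q) *ᵥ v = v ∧ Θ *ᵥ v = c • v}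
          zero_mem' := ⟨mulVec_zero _, by rw [mulVec_zero, smul_zero]⟩
          add_mem' := fun {v w} hv hw => ⟨by rw [mulVec_add, hv.1, hw.1],
            by rw [mulVec_add, hv.2, hw.2, smul_add]⟩
          smul_mem' := fun d v hv => ⟨by rw [mulVec_smul, hv.1],
            by rw [mulVec_smul, hv.2, smul_comm]⟩ }
      have hK : ∀ v, v ∈ K ↔ (P + Q) *ᵥ v = v ∧ Θ *ᵥ v = c • v := fun _ => Iff.rfl
      have hst := Full.stab k.H k.full (W := K) (fun x hx v hv => by
        obtain ⟨h3, h4⟩ := (hK v).1 hv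
        refine (hK _).2 ⟨by rw [mulVec_mulVec, k.H.lel x hx.1], ?_⟩
        rw [mulVec_mulVec, hcP x hx, ← mulVec_mulVec, h4, mulVec_smul]) (fun x hx v hv => by
        obtain ⟨h3, h4⟩ := (hK v).1 hv
        refine (hK _).2 ⟨by rw [mulVec_mulVec, k.H.lel x hx.1], ?_⟩
        rw [mulVec_mulVec, hcQ x hx, ← mulVec_mulVec, h4, mulVec_smul])
      have hΘe : Θ * (P + Q) = c • (P + Q) := by
        rcases k.H.irr K (fun v hv => ((hK v).1 hv).1) hst with h3 | h3
        · exfalso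
          have h4 : (P * Rc) *ᵥ w ∈ K := by
            refine (hK _).2 ⟨?_, ?_⟩
            · rw [mulVec_mulVec, ← Matrix.mul_assoc, Matrix.add_mul, k.H.PP, k.H.QP, add_zero]
            · have h5 : Θ * (P * Rc) = P * Rc * Tc := by
                rw [hΘ]
                calc (2 : ℂ) • (P * Rc * Tc * Rcᵀ * P + Q * Rc * Tc * Rcᵀ * Q) * (P * Rc) =
                    (2 : ℂ) • (P * Rc * Tc * (Rcᵀ * (P * P) * Rc) +
                      Q * Rc * Tc * Rcᵀ * (Q * P) * Rc) := by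
                      rw [Matrix.smul_mul]
                      congr 1
                      simp only [Matrix.mul_assoc, Matrix.mul_add, Matrix.add_mul]
                _ = _ := by
                    rw [k.H.PP, k.H.QP, q5, Matrix.mul_zero, Matrix.zero_mul, add_zero, Matrix.mul_smul,
                      Matrix.mul_one, smul_smul]
                    norm_num
              rw [mulVec_mulVec, h5, ← mulVec_mulVec, hw1, mulVec_smul]
          rw [h3, Submodule.mem_bot] at h4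
          have h5 := congrArg (fun v => Rcᵀ *ᵥ v) h4
          beta_reduce at h5
          rw [mulVec_mulVec, ← Matrix.mul_assoc, q5, mulVec_zero, smul_mulVec, Matrix.one_mulVec] at h5
          exact hw0 ((smul_eq_zero.1 h5).resolve_left (by norm_num))
        · apply eq_of_mulVec
          intro v
          have h4 := ((hK _).1 (h3 ((P + Q) *ᵥ v) (by rw [mulVec_mulVec, k.ee]))).2
          rw [← mulVec_mulVec, h4, smul_mulVec]
      have hTcc : Tc = c • 1 := by
        have h3 := congrArg (fun X => Rcᵀ * X * Rc) hΘe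
        beta_reduce at h3
        have h4 : Rcᵀ * (Θ * (P + Q)) * Rc = Tc := by
          have h5 : Θ * (P + Q) = Θ := by
            rw [hΘ]
            calc (2 : ℂ) • (P * Rc * Tc * Rcᵀ * P + Q * Rc * Tc * Rcᵀ * Q) * (P + Q) =
                (2 : ℂ) • (P * Rc * Tc * Rcᵀ * (P * P) + P * Rc * Tc * Rcᵀ * (P * Q) +
                  Q * Rc * Tc * Rcᵀ * (Q * P) + Q * Rc * Tc * Rcᵀ * (Q * Q)) := by
                  rw [Matrix.smul_mul]
                  congr 1
                  simp only [Matrix.mul_assoc, Matrix.mul_add, Matrix.add_mul]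
                  abel
            _ = _ := by
                rw [k.H.PP, k.H.QP, k.H.PQ, k.H.QQ, Matrix.mul_zero, Matrix.mul_zero, add_zero, add_zero]
          rw [h5, hΘ]
          calc Rcᵀ * ((2 : ℂ) • (P * Rc * Tc * Rcᵀ * P + Q * Rc * Tc * Rcᵀ * Q)) * Rc =
              (2 : ℂ) • ((Rcᵀ * P * Rc) * Tc * (Rcᵀ * P * Rc) +
                (Rcᵀ * Q * Rc) * Tc * (Rcᵀ * Q * Rc)) := by
                rw [Matrix.mul_smul, Matrix.smul_mul]
                congr 1
                simp only [Matrix.mul_assoc, Matrix.mul_add, Matrix.add_mul]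
          _ = _ := by
              rw [q5, q6]
              simp only [Matrix.mul_smul, Matrix.smul_mul, Matrix.mul_one, Matrix.one_mul, smul_smul]
              rw [← two_smul ℂ, smul_smul, smul_smul]
              norm_num
        have h5 : Rcᵀ * (c • (P + Q)) * Rc = c • 1 := by
          rw [Matrix.mul_smul, Matrix.smul_mul, Matrix.mul_add, Matrix.add_mul, q5, q6,
            ← two_smul ℂ, smul_smul, smul_smul, Pool.Agent.N994.PG.c22]
        rw [← h4, h3, h5]
      refine ⟨c.re, ?_⟩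
      ext i j
      have h6 := congrFun (congrFun hTcc i) j
      rw [hTc] at h6
      have h7 : ((T i j : ℝ) : ℂ) = (c • (1 : Matrix (Fin n) (Fin n) ℂ)) i j := h6
      have h8 := congrArg Complex.re h7
      rw [Complex.ofReal_re, Matrix.smul_apply, smul_eq_mul, one_apply] at h8
      rw [h8, Matrix.smul_apply, smul_eq_mul, one_apply]
      split_ifs <;> simp
  have hn : n = a := by
    have h1 : trace (Rcᵀ * Rc) = trace (Rc * Rcᵀ) := trace_mul_comm _ _
    rw [q1, q2, trace_one, Fintype.card_fin] at h1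
    have h2 := congrArg trace r.sum
    rw [trace_add, trace_add, k.H.trP, k.H.trQ] at h2
    have h3 : trace ((P - Q) * M * (P - Q)) = trace M := by
      rw [trace_mul_comm, ← Matrix.mul_assoc, k.D2, r.eM]
    rw [h3, ← h1, ← two_mul, ← two_mul] at h2
    have h4 := mul_left_cancel₀ (two_ne_zero (α := ℂ)) h2
    exact_mod_cast h4
  have hne : 𝒥 ≠ ⊥ := by
    intro h0
    obtain ⟨x, hx, hx0⟩ := Submodule.exists_mem_ne_zero_of_ne_bot (pos_ne_bot k.H ha ha)
    apply hx0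
    obtain ⟨N1, h1, N2, h2, h3⟩ := hri x hx
    rw [h0, Submodule.mem_bot] at h1 h2
    have h4 : cx (0 : Matrix (Fin n) (Fin n) ℝ) = 0 := by
      ext i j
      simp [cx]
    rw [h1, h2, h4, smul_zero, add_zero] at h3
    rw [hback x hx, h3, Matrix.mul_zero, Matrix.zero_mul, Matrix.zero_mul, smul_zero]
  rcases hJA.main hne with ⟨N, hN, hr⟩ | ⟨⟨j, hj, hjm, hj'⟩, hspin⟩
  · left
    obtain ⟨x, hx, h1⟩ := hN
    -- rank one matrices
    obtain ⟨u, w, huw⟩ : ∃ u w, N = vecMulVec u w := by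
      have h2 : finrank ℝ (LinearMap.range N.mulVecLin) = 1 := hr
      obtain ⟨⟨u, hu⟩, -, hu'⟩ := finrank_eq_one_iff'.1 h2
      choose c hc using fun j => hu' ⟨N *ᵥ Pi.single j 1, ⟨Pi.single j 1, rfl⟩⟩
      refine ⟨u, c, ?_⟩
      ext i j
      have h3 := congrArg (fun z : LinearMap.range N.mulVecLin => (z : Fin n → ℝ) i) (hc j)
      beta_reduce at h3
      have h4 : (N *ᵥ Pi.single j 1) i = N i j := by
        rw [mulVec_single_one]
        rfl
      rw [vecMulVec_apply, ← h4, mul_comm]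
      exact h3.symm
    have hx0 : x ≠ 0 := by
      rintro rfl
      rw [map_zero] at h1
      have h5 : N = 0 := by
        apply cx_inj
        rw [h1]
        ext i j
        simp [cx]
      rw [h5, Matrix.rank_zero] at hr
      omega
    have h6 : x = vecMulVec ((2 : ℂ) • ((P * Rc) *ᵥ fun i => (u i : ℂ)))
        ((fun i => (w i : ℂ)) ᵥ* (Rcᵀ * Q)) := by
      rw [hback x hx, ← h1, huw]
      have h7 : cx (vecMulVec u w) = vecMulVec (fun i => (u i : ℂ)) (fun i => (w i : ℂ)) := by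
        ext i j
        simp [cx, vecMulVec_apply]
      rw [h7, Matrix.mul_assoc, mul_vecMulVec, vecMulVec_mul, smul_vecMulVec]
    rw [h6] at hx hx0
    exact ⟨_, _, hx, hx0⟩
  · right
    rw [Fintype.card_fin, hn] at hj'
    refine ⟨⟨j, hj, hjm, hj'⟩, fun x hx u hu hinj => ?_⟩
    have hxx := hspin.cx (hri x hx) (hri x hx)
    have huu := hspin.cx (hri u hu) (hri u hu)
    have hxu := hspin.cx (hri x hx) (hri u hu)
    have hhalf : ∀ (X : Matrix (Fin n) (Fin n) ℂ) (t : ℂ), (∃ c : ℂ, X * X + X * X = t • X + t • X +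
        c • (1 : Matrix (Fin n) (Fin n) ℂ)) → ∃ c : ℂ, X * X = t • X +
        c • (1 : Matrix (Fin n) (Fin n) ℂ) := by
      rintro X t ⟨c, hc⟩
      refine ⟨(2 : ℂ)⁻¹ * c, ?_⟩
      have e1 : (2 : ℂ) • (X * X) = (2 : ℂ) • (t • X + ((2 : ℂ)⁻¹ * c) • 1) := by
        rw [two_smul, hc]
        module
      exact smul_right_injective _ (two_ne_zero (α := ℂ)) e1
    -- the second element is invertible
    have hQM : ∀ v, Q *ᵥ v = v → v = (2 : ℂ) • ((Q * Rc) *ᵥ (Rcᵀ *ᵥ v)) := by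
      intro v hv
      have e1 : Q * M * Q = (2 : ℂ)⁻¹ • Q := r.QMQ
      have e2 : (Q * Rc) *ᵥ (Rcᵀ *ᵥ v) = (2 : ℂ)⁻¹ • v := by
        nth_rewrite 1 [← hv]
        rw [mulVec_mulVec, mulVec_mulVec, Matrix.mul_assoc Q Rc, q2, e1, smul_mulVec, hv]
      rw [e2, smul_smul, mul_inv_cancel₀ two_ne_zero, one_smul]
    have hx1 : ∀ x ∈ pos G P Q, ∀ v, x *ᵥ v = (2 : ℂ) • ((P * Rc) *ᵥ (θ x *ᵥ (Rcᵀ *ᵥ
        (Q *ᵥ v)))) := by
      intro x hx v
      nth_rewrite 1 [hback x hx]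
      rw [smul_mulVec, mulVec_mulVec, mulVec_mulVec, mulVec_mulVec]
    have hRP : ∀ w, Rcᵀ *ᵥ ((P * Rc) *ᵥ w) = (2 : ℂ)⁻¹ • w := by
      intro w
      rw [mulVec_mulVec, ← Matrix.mul_assoc, q5, smul_mulVec, one_mulVec]
    have hdet : IsUnit (θ u).det := by
      rw [isUnit_iff_ne_zero]
      intro h0
      obtain ⟨z, hz, hz'⟩ := Matrix.exists_mulVec_eq_zero_iff.2 h0
      apply hz
      have e1 : Q *ᵥ ((Q * Rc) *ᵥ z) = (Q * Rc) *ᵥ z := by
        rw [mulVec_mulVec, ← Matrix.mul_assoc, k.H.QQ]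
      have e2 := hinj _ e1 (by
        rw [hx1 u hu, e1]
        have e3 : Rcᵀ *ᵥ ((Q * Rc) *ᵥ z) = (2 : ℂ)⁻¹ • z := by
          rw [mulVec_mulVec, ← Matrix.mul_assoc, q6, smul_mulVec, one_mulVec]
        rw [e3, mulVec_smul, hz', smul_zero, mulVec_zero, smul_zero])
      have e3 : Rcᵀ *ᵥ ((Q * Rc) *ᵥ z) = (2 : ℂ)⁻¹ • z := by
        rw [mulVec_mulVec, ← Matrix.mul_assoc, q6, smul_mulVec, one_mulVec]
      rw [e2, mulVec_zero] at e3
      exact (smul_eq_zero.1 e3.symm).resolve_left (by norm_num)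
    obtain ⟨α, β, hαβ⟩ := spin_inv hxu (hhalf _ _ hxx) (hhalf _ _ huu)
      (Matrix.mul_nonsing_inv _ hdet) (Matrix.nonsing_inv_mul _ hdet)
    refine ⟨α, β, fun v v' hv hv' huv => ?_⟩
    have e1 : θ u *ᵥ (Rcᵀ *ᵥ v') = θ x *ᵥ (Rcᵀ *ᵥ v) := by
      have e2 := congrArg (fun w => Rcᵀ *ᵥ w) huv
      beta_reduce at e2
      rw [hx1 u hu, hx1 x hx, hv, hv', mulVec_smul, mulVec_smul, hRP, hRP, smul_smul, smul_smul,
        mul_inv_cancel₀ two_ne_zero, one_smul, one_smul] at e2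
      exact e2
    have e2 : Rcᵀ *ᵥ v' = (θ u)⁻¹ *ᵥ (θ x *ᵥ (Rcᵀ *ᵥ v)) := by
      rw [← e1, mulVec_mulVec, Matrix.nonsing_inv_mul _ hdet, one_mulVec]
    have e3 : θ x *ᵥ ((θ u)⁻¹ *ᵥ (θ x *ᵥ (Rcᵀ *ᵥ v))) = α • (θ x *ᵥ (Rcᵀ *ᵥ v)) +
        β • (θ u *ᵥ (Rcᵀ *ᵥ v)) := by
      rw [mulVec_mulVec (θ x *ᵥ (Rcᵀ *ᵥ v)), mulVec_mulVec (Rcᵀ *ᵥ v) (θ x * (θ u)⁻¹), hαβ,
        add_mulVec, smul_mulVec, smul_mulVec]
    rw [hx1 x hx, hx1 x hx, hx1 u hu, hv, hv', e2, e3, mulVec_add, mulVec_smul, mulVec_smul]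
    module

end RS

end

end Pool.Agent.N994.PG
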