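import Mathlib
import Pool.Agent.N994.PG.Ext

/-!
# Period fields with real embeddings: ideals modulo the annihilator of a real submodule
-/

set_option linter.unusedSectionVars false

namespace Pool.Agent.N994.PG

open Matrix Module Pool.Agent.W437.HC Pool.Agent.W437.HD Pool.Agent.TH504.CB Pool.Agent.Y90
  Pool.Agent.R915
open Pool.Agent.W548.Odd hiding cv
open Pool.Agent.N994.PF (rs Zk InL Ed Sys PP PP_eq comb card_emb)
open Pool.Agent.Y4 (exists_aut_emb)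
open Pool.Agent.Y4.G (Lie lr lr_apply trace_idemM)
open Pool.Agent.Y4.G.Lie (pos mem_pos)

open scoped ComplexOrder

noncomputable section

variable {g : ℕ} {Z : Matrix (Fin g) (Fin g) ℂ} {k : IntermediateField ℚ ℂ}

/-- The elements which vanish on `U`. -/
def KU (Z : Matrix (Fin g) (Fin g) ℂ) (U : Submodule ℂ (Fin g ⊕ Fin g → ℂ)) :
    Submodule ℂ (Matrix (Fin g ⊕ Fin g) (Fin g ⊕ Fin g) ℂ) where
  carrier := {X | X ∈ LZ Z ∧ ∀ u ∈ U, X *ᵥ u = 0}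
  zero_mem' := ⟨(LZ Z).zero_mem, fun u _ => zero_mulVec u⟩
  add_mem' := fun {X Y} hX hY => ⟨(LZ Z).add_mem hX.1 hY.1, fun u hu => by
    rw [add_mulVec, hX.2 u hu, hY.2 u hu, add_zero]⟩
  smul_mem' := fun c X hX => ⟨(LZ Z).smul_mem c hX.1, fun u hu => by
    rw [smul_mulVec, hX.2 u hu, smul_zero]⟩

theorem mem_KU {U : Submodule ℂ (Fin g ⊕ Fin g → ℂ)}
    {X : Matrix (Fin g ⊕ Fin g) (Fin g ⊕ Fin g) ℂ} :
    X ∈ KU Z U ↔ X ∈ LZ Z ∧ ∀ u ∈ U, X *ᵥ u = 0 := Iff.rfl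

theorem KU_id {U : Submodule ℂ (Fin g ⊕ Fin g → ℂ)} (hU : Stab (LZ Z) U) :
    IsId (LZ Z) (KU Z U) where
  le := fun _ hX => hX.1
  br := fun X hX Y hY => ⟨LZ_br hX hY.1, fun u hu => by
    rw [sub_mulVec, ← mulVec_mulVec, ← mulVec_mulVec, hY.2 u hu, mulVec_zero,
      hY.2 _ (hU X hX u hu), sub_zero]⟩

theorem KU_cj_le (σ : ℂ ≃+* ℂ) (U : Submodule ℂ (Fin g ⊕ Fin g → ℂ)) :
    cjM σ (KU Z U) ≤ KU Z (cjS σ U) := by
  intro X hX
  obtain ⟨h1, h2⟩ := mem_KU.1 (mem_cjM.1 hX)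
  have h3 := gal_LZ σ _ h1
  rw [map_symm'] at h3
  refine mem_KU.2 ⟨h3, fun v hv => ?_⟩
  have h4 := h2 _ (mem_cjS.1 hv)
  have h5 := map_mv σ (X.map σ.symm) fun i => σ.symm (v i)
  rw [map_symm', h4] at h5
  have h6 : (fun i => σ (σ.symm (v i))) = v := by
    funext i
    exact σ.apply_symm_apply _
  rw [h6] at h5
  rw [h5]
  funext i
  exact map_zero σ

theorem KU_cj (σ : ℂ ≃+* ℂ) (U : Submodule ℂ (Fin g ⊕ Fin g → ℂ)) :
    cjM σ (KU Z U) = KU Z (cjS σ U) := by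
  refine le_antisymm (KU_cj_le σ U) ?_
  have h1 := KU_cj_le (Z := Z) σ.symm (cjS σ U)
  rw [cjS_symm] at h1
  have h2 := cjM_mono (σ := σ) h1
  rwa [cjM_symm] at h2

theorem cjM_sup (σ : ℂ ≃+* ℂ) (J J' : Submodule ℂ (Matrix (Fin g ⊕ Fin g) (Fin g ⊕ Fin g) ℂ)) :
    cjM σ (J ⊔ J') = cjM σ J ⊔ cjM σ J' := by
  refine le_antisymm (fun X hX => ?_) (sup_le (cjM_mono le_sup_left) (cjM_mono le_sup_right))
  obtain ⟨Y, hY, Y', hY', h1⟩ := Submodule.mem_sup.1 (mem_cjM.1 hX)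
  refine Submodule.mem_sup.2 ⟨Y.map σ, mem_cjM' hY, Y'.map σ, mem_cjM' hY', ?_⟩
  rw [← map_symm' σ X, ← h1]
  exact (Matrix.map_add _ (map_add σ) _ _).symm

theorem IsId.sup {J J' : Submodule ℂ (Matrix (Fin g ⊕ Fin g) (Fin g ⊕ Fin g) ℂ)}
    (hJ : IsId (LZ Z) J) (hJ' : IsId (LZ Z) J') : IsId (LZ Z) (J ⊔ J') where
  le := sup_le hJ.le hJ'.le
  br := by
    intro X hX W hW
    obtain ⟨Y, hY, Y', hY', rfl⟩ := Submodule.mem_sup.1 hW
    have h1 : X * (Y + Y') - (Y + Y') * X = (X * Y - Y * X) + (X * Y' - Y' * X) := by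
      noncomm_ring
    rw [h1]
    exact Submodule.add_mem_sup (hJ.br X hX Y hY) (hJ'.br X hX Y' hY')

/-- The ideal attached to an embedding, modulo the annihilator of `U`. -/
def RU (Z : Matrix (Fin g) (Fin g) ℂ) (hZ : ∀ i j, Z i j ∈ k)
    (U : Submodule ℂ (Fin g ⊕ Fin g → ℂ)) (p : k →+* ℂ) :
    Submodule ℂ (Matrix (Fin g ⊕ Fin g) (Fin g ⊕ Fin g) ℂ) := Ip Z hZ p ⊔ KU Z U

section RU

variable {hZ : ∀ i j, Z i j ∈ k} {U : Submodule ℂ (Fin g ⊕ Fin g → ℂ)}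

theorem RU_id (hU : Stab (LZ Z) U) (p : k →+* ℂ) : IsId (LZ Z) (RU Z hZ U p) :=
  Ip_id.sup (KU_id hU)

theorem RU_cj (τ : ℂ ≃+* ℂ) (U : Submodule ℂ (Fin g ⊕ Fin g → ℂ)) (p : k →+* ℂ) :
    cjM τ (RU Z hZ U p) = RU Z hZ (cjS τ U) ((τ : ℂ →+* ℂ).comp p) := by
  unfold RU
  rw [cjM_sup, Ip_cj, KU_cj]

theorem RU_le {J : Submodule ℂ (Matrix (Fin g ⊕ Fin g) (Fin g ⊕ Fin g) ℂ)} (hJ : IsId (LZ Z) J)
    {p : k →+* ℂ} (h1 : Np Z hZ p ≤ J) (h2 : KU Z U ≤ J) : RU Z hZ U p ≤ J :=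
  sup_le (Ip_le hJ h1) h2

/-- The dichotomy. -/
theorem dichU (h : PM Z) (hU : IrS (LZ Z) U)
    {J : Submodule ℂ (Matrix (Fin g ⊕ Fin g) (Fin g ⊕ Fin g) ℂ)} (hJ : IsId (LZ Z) J) :
    (∀ Y ∈ J, ∀ u ∈ U, Y *ᵥ (DZ Z *ᵥ u) = DZ Z *ᵥ (Y *ᵥ u)) ∨
      ∀ N ∈ LZ Z, DZ Z * N = N → N * DZ Z = -N → N ∈ J ⊔ KU Z U := by
  obtain ⟨S, Si, e, k⟩ := exists_co h hU
  rcases dich k.H (k.map_id hJ) with h1 | h1
  · left
    intro Y hY u hu
    have h2 := h1 _ ⟨Y, hY, rfl⟩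
    rw [k.D, k.mul DZ_mem, k.mul (hJ.le hY)] at h2
    have h3 : lr S (e * Si) (Y * DZ Z - DZ Z * Y) = 0 := by rw [map_sub, h2, sub_self]
    have h4 := k.zero h3 u hu
    rw [sub_mulVec, ← mulVec_mulVec, ← mulVec_mulVec, sub_eq_zero] at h4
    exact h4
  · right
    intro N hN h2 h3
    obtain ⟨Y, hY, hYN⟩ := h1 (k.to_pos hN h2 h3)
    have h4 : lr S (e * Si) (N - Y) = 0 := by rw [map_sub, hYN, sub_self]
    refine Submodule.mem_sup.2 ⟨Y, hY, N - Y, mem_KU.2 ⟨(LZ Z).sub_mem hN (hJ.le hY),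
      k.zero h4⟩, by abel⟩

/-- The dichotomy for the conjugates. -/
theorem dichU_conj (h : PM Z) (hU : IrS (LZ Z) U)
    {J : Submodule ℂ (Matrix (Fin g ⊕ Fin g) (Fin g ⊕ Fin g) ℂ)} (hJ : IsId (LZ Z) J)
    (σ : ℂ ≃+* ℂ) : (∀ Y ∈ J, ∀ u ∈ U, Y *ᵥ (DS Z σ *ᵥ u) = DS Z σ *ᵥ (Y *ᵥ u)) ∨
      Np Z hZ (rs k (cc.trans σ)) ≤ J ⊔ KU Z U := by
  rcases dichU h (hU.cj gal_LZ σ.symm) (hJ.cj σ.symm) with h1 | h1
  · left
    intro Y hY u hu
    have h2 := h1 (Y.map σ.symm) (mem_cjM' hY) _ (cj_mem_cjS hu)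
    have h3 : ∀ (X : Matrix (Fin g ⊕ Fin g) (Fin g ⊕ Fin g) ℂ) (v : Fin g ⊕ Fin g → ℂ),
        (fun i => σ ((X *ᵥ fun i => σ.symm (v i)) i)) = X.map σ *ᵥ v := by
      intro X v
      rw [← map_mv σ X]
      congr 1
      funext i
      exact σ.apply_symm_apply _
    have h4 := congrArg (fun w : Fin g ⊕ Fin g → ℂ => fun i => σ (w i)) h2
    beta_reduce at h4
    rw [← map_mv σ (Y.map σ.symm), ← map_mv σ (DZ Z), ← map_mv σ (DZ Z),
      ← map_mv σ (Y.map σ.symm), map_symm'] at h4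
    have h5 : (fun i => σ (σ.symm (u i))) = u := by
      funext i
      exact σ.apply_symm_apply _
    rw [h5] at h4
    exact h4
  · right
    intro N hN
    obtain ⟨h2, h3, h4⟩ := (mem_Np_pos h).1 hN
    have h5 := h1 (N.map σ.symm) (gal_LZ σ.symm N h2) (by
      rw [← DS_symm σ, ← Matrix.map_mul, h3]) (by
      rw [← DS_symm σ, ← Matrix.map_mul, h4, map_neg_mat])
    rw [← KU_cj, ← cjM_sup, mem_cjM, RingEquiv.symm_symm, map_symm'] at h5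
    exact h5

/-- Ideals which commute with a conjugate of the complex structure. -/
theorem comm_NpU (h : PM Z) (hU : Stab (LZ Z) U)
    {J : Submodule ℂ (Matrix (Fin g ⊕ Fin g) (Fin g ⊕ Fin g) ℂ)} (hJ : IsId (LZ Z) J)
    {σ : ℂ ≃+* ℂ} (hc : ∀ Y ∈ J, ∀ u ∈ U, Y *ᵥ (DS Z σ *ᵥ u) = DS Z σ *ᵥ (Y *ᵥ u))
    {N : Matrix (Fin g ⊕ Fin g) (Fin g ⊕ Fin g) ℂ} (hN : N ∈ Np Z hZ (rs k (cc.trans σ))) :
    ∀ Y ∈ J, ∀ u ∈ U, N *ᵥ (Y *ᵥ u) = Y *ᵥ (N *ᵥ u) := by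
  intro Y hY u hu
  obtain ⟨h2, h3, h4⟩ := (mem_Np_pos h).1 hN
  have h3' : ∀ v, DS Z σ *ᵥ (N *ᵥ v) = N *ᵥ v := fun v => by rw [mulVec_mulVec, h3]
  have h4' : ∀ v, N *ᵥ (DS Z σ *ᵥ v) = -(N *ᵥ v) := fun v => by
    rw [mulVec_mulVec, h4, neg_mulVec]
  have h5 := hJ.br N h2 Y hY
  have h6 := hc _ h5 u hu
  have e1 : DS Z σ *ᵥ ((N * Y - Y * N) *ᵥ u) = (N * Y - Y * N) *ᵥ u := by
    rw [sub_mulVec, ← mulVec_mulVec, ← mulVec_mulVec, mulVec_sub, h3',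
      ← hc Y hY _ (hU N h2 u hu), h3']
  have e2 : (N * Y - Y * N) *ᵥ (DS Z σ *ᵥ u) = -((N * Y - Y * N) *ᵥ u) := by
    rw [sub_mulVec, ← mulVec_mulVec, ← mulVec_mulVec, hc Y hY u hu, h4', h4', mulVec_neg,
      sub_mulVec, ← mulVec_mulVec, ← mulVec_mulVec]
    abel
  rw [e1, e2] at h6
  have h8 : (2 : ℂ) • ((N * Y - Y * N) *ᵥ u) = 0 := by
    rw [two_smul]
    nth_rewrite 1 [← h6]
    rw [neg_add_cancel]
  have h9 := (smul_eq_zero.1 h8).resolve_left two_ne_zero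
  rw [sub_mulVec, ← mulVec_mulVec, ← mulVec_mulVec] at h9
  exact sub_eq_zero.1 h9

/-- The ideal generated by the elements of positive degree is not commutative. -/
theorem noncomm0 (h : PM Z) {V : Submodule ℂ (Fin g ⊕ Fin g → ℂ)} (hV : IrS (LZ Z) V)
    (hp : 0 < pd Z V) (hq : 0 < qd Z V) : ∃ N ∈ LZ Z, DZ Z * N = N ∧ N * DZ Z = -N ∧
      ∃ N' ∈ LZ Z, ∃ u ∈ V, N *ᵥ ((N' * N - N * N') *ᵥ u) ≠ (N' * N - N * N') *ᵥ (N *ᵥ u) := by
  obtain ⟨S, Si, e, k⟩ := exists_co h hV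
  obtain ⟨x, hx, hx0⟩ := Submodule.exists_mem_ne_zero_of_ne_bot (pos_ne_bot k.H hp hq)
  obtain ⟨N, hN, h1, h2, hNx⟩ := k.of_pos hx
  obtain ⟨N', hN', hNx'⟩ := k.H.ad x hx.1
  refine ⟨N, hN, h1, h2, N', hN', ?_⟩
  by_contra hcon
  push Not at hcon
  apply hx0
  have h3 : lr S (e * Si) (N * (N' * N - N * N')) = lr S (e * Si) ((N' * N - N * N') * N) := by
    rw [k.lr', k.lr']
    congr 2
    apply eq_of_mulVec
    intro v
    rw [← mulVec_mulVec, ← mulVec_mulVec, ← mulVec_mulVec, ← mulVec_mulVec]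
    exact hcon _ (k.e1 v)
  have hNN : N' * N - N * N' ∈ LZ Z := LZ_br hN' hN
  rw [← k.mul hNN, ← k.mul hN, map_sub, ← k.mul hN, ← k.mul hN', hNx, hNx'] at h3
  have hxx : x * x = 0 := by
    calc x * x = (x * (S * pP (DZ Z) e (-1) * Si)) * ((S * pP (DZ Z) e 1 * Si) * x) := by
          rw [hx.2.2, hx.2.1]
    _ = x * ((S * pP (DZ Z) e (-1) * Si) * (S * pP (DZ Z) e 1 * Si)) * x := by noncomm_ring
    _ = 0 := by rw [k.H.QP, mul_zero, zero_mul]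
  have h4 : x * xᴴ * x = 0 := by
    have e1 : x * (xᴴ * x - x * xᴴ) = x * xᴴ * x := by
      rw [mul_sub, ← mul_assoc, ← mul_assoc, hxx, zero_mul, sub_zero]
    have e2 : (xᴴ * x - x * xᴴ) * x = -(x * xᴴ * x) := by
      rw [sub_mul, mul_assoc, hxx, mul_zero, zero_sub]
    rw [e1, e2] at h3
    have h8 : (2 : ℂ) • (x * xᴴ * x) = 0 := by
      rw [two_smul]
      nth_rewrite 1 [h3]
      rw [neg_add_cancel]
    exact (smul_eq_zero.1 h8).resolve_left two_ne_zero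
  have h5 : (xᴴ * x)ᴴ * (xᴴ * x) = 0 := by
    rw [conjTranspose_mul, conjTranspose_conjTranspose]
    calc xᴴ * x * (xᴴ * x) = xᴴ * (x * xᴴ * x) := by noncomm_ring
    _ = 0 := by rw [h4, mul_zero]
  exact conjTranspose_mul_self_eq_zero.1 (conjTranspose_mul_self_eq_zero.1 h5)

theorem cjS_refl (V : Submodule ℂ (Fin g ⊕ Fin g → ℂ)) : cjS (RingEquiv.refl ℂ) V = V := by
  ext v
  exact Iff.rfl

/-- Paired submodules have the same annihilator. -/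
theorem KU_pair (h : PM Z) {A C : Submodule ℂ (Fin g ⊕ Fin g → ℂ)} (hA : Stab (LZ Z) A)
    (hC : IrS (LZ Z) C) (hp : ∃ p ∈ A, ∃ q ∈ C, om g p q ≠ 0) : KU Z A ≤ KU Z C := by
  let S : Submodule ℂ (Fin g ⊕ Fin g → ℂ) :=
    { carrier := {y | y ∈ C ∧ ∀ u ∈ A, om g u y = 0}
      add_mem' := fun {a b} ha hb => ⟨C.add_mem ha.1 hb.1, fun u hu => by
        rw [map_add, ha.2 u hu, hb.2 u hu, add_zero]⟩
      zero_mem' := ⟨C.zero_mem, fun u _ => map_zero _⟩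
      smul_mem' := fun c a ha => ⟨C.smul_mem c ha.1, fun u hu => by
        rw [map_smul, ha.2 u hu, smul_zero]⟩ }
  have hS : Stab (LZ Z) S := by
    rintro X hX y ⟨hy, hy'⟩
    refine ⟨hC.2.1 X hX y hy, fun u hu => ?_⟩
    have h1 := h.om_sp hX u y
    rw [hy' _ (hA X hX u hu), zero_add] at h1
    exact h1
  have hS0 : S = ⊥ := by
    rcases hC.2.2 S (fun y hy => hy.1) hS with h1 | h1
    · exact h1
    · exfalso
      obtain ⟨p, hp, q, hq, hpq⟩ := hp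
      have h2 : q ∈ S := by rw [h1]; exact hq
      exact hpq (h2.2 p hp)
  rintro X ⟨hX, hXA⟩
  refine ⟨hX, fun c hc => ?_⟩
  have h1 : X *ᵥ c ∈ S := by
    refine ⟨hC.2.1 X hX c hc, fun u hu => ?_⟩
    have h2 := h.om_sp hX u c
    rw [hXA u hu, map_zero, LinearMap.zero_apply, zero_add] at h2
    exact h2
  rwa [hS0, Submodule.mem_bot] at h1

/-- The conjugate submodule has the same annihilator. -/
theorem KU_bar (h : PM Z) (hU : IrS (LZ Z) U) : KU Z (cjS cc U) = KU Z U := by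
  obtain ⟨p, hp, q, hq, hpq⟩ := pair_bar h hU
  refine le_antisymm (KU_pair h (hU.cj gal_LZ cc).2.1 hU ⟨q, hq, p, hp, ?_⟩)
    (KU_pair h hU.2.1 (hU.cj gal_LZ cc) ⟨p, hp, q, hq, hpq⟩)
  rw [om_anti]
  exact neg_ne_zero.2 hpq

theorem sdu_real (h : PM Z) (hU : IrS (LZ Z) U) (hUc : cjS cc U = U) : SDu Z U := by
  obtain ⟨u, hu, v, hv, huv⟩ := pair_bar h hU
  rw [hUc] at hv
  exact ⟨om g, ⟨u, hu, v, hv, huv⟩, fun X hX u _ v _ => h.om_sp hX u v⟩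

theorem altF_real (h : PM Z) (hU : IrS (LZ Z) U) (hUc : cjS cc U = U) : AltF Z U := by
  obtain ⟨u, hu, v, hv, huv⟩ := pair_bar h hU
  rw [hUc] at hv
  exact ⟨om g, ⟨u, hu, v, hv, huv⟩, fun X hX u _ v _ => h.om_sp hX u v, fun u _ v _ => om_anti u v⟩

section odd

variable [Countable k] (h : PM Z)

include h in
theorem noncommU (hU : IrS (LZ Z) U) (hr : AltF Z U) (p : k →+* ℂ) : ∃ N ∈ Np Z hZ p,
    ∃ Y ∈ Ip Z hZ p, ∃ u ∈ U, N *ᵥ (Y *ᵥ u) ≠ Y *ᵥ (N *ᵥ u) := by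
  obtain ⟨σ, rfl⟩ := exists_rs p
  have hV := hU.cj gal_LZ σ.symm
  have htr := two_le_tr h hV (hr.cj σ.symm).sdu
  obtain ⟨N, hN, h1, h2, N', hN', u, hu, hne⟩ := noncomm0 h hV (by omega) (by omega)
  have hNp : N.map σ ∈ Np Z hZ (rs k (cc.trans σ)) := by
    refine (mem_Np_pos h).2 ⟨gal_LZ σ N hN, ?_, ?_⟩
    · have h5 : DS Z σ = (DZ Z).map σ := rfl
      rw [h5, ← Matrix.map_mul, h1]
    · have h5 : DS Z σ = (DZ Z).map σ := rfl
      rw [h5, ← Matrix.map_mul, h2, map_neg_mat]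
  have hYI : (N' * N - N * N').map σ ∈ Ip Z hZ (rs k (cc.trans σ)) := by
    rw [map_bk]
    exact Ip_id.br _ (gal_LZ σ N' hN') _ (Np_le hNp)
  refine ⟨N.map σ, hNp, _, hYI, fun i => σ (u i), ?_, fun h3 => hne ?_⟩
  · have h4 := cj_mem_cjS (σ := σ) hu
    rwa [cjS_symm'] at h4
  · rw [map_mv, map_mv, map_mv, map_mv] at h3
    funext i
    exact σ.injective (congrFun h3 i)

theorem centralizer_id (hU : Stab (LZ Z) U)
    {J : Submodule ℂ (Matrix (Fin g ⊕ Fin g) (Fin g ⊕ Fin g) ℂ)} (hJ : IsId (LZ Z) J) :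
    ∃ C, IsId (LZ Z) C ∧ ∀ X, X ∈ C ↔ X ∈ LZ Z ∧ ∀ Y ∈ J, ∀ u ∈ U,
      X *ᵥ (Y *ᵥ u) = Y *ᵥ (X *ᵥ u) := by
  let C : Submodule ℂ (Matrix (Fin g ⊕ Fin g) (Fin g ⊕ Fin g) ℂ) :=
    { carrier := {X | X ∈ LZ Z ∧ ∀ Y ∈ J, ∀ u ∈ U, X *ᵥ (Y *ᵥ u) = Y *ᵥ (X *ᵥ u)}
      zero_mem' := ⟨(LZ Z).zero_mem, fun Y _ u _ => by
        rw [zero_mulVec, zero_mulVec, mulVec_zero]⟩
      add_mem' := fun {X X'} hX hX' => ⟨(LZ Z).add_mem hX.1 hX'.1, fun Y hY u hu => by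
        rw [add_mulVec, add_mulVec, mulVec_add, hX.2 Y hY u hu, hX'.2 Y hY u hu]⟩
      smul_mem' := fun c X hX => ⟨(LZ Z).smul_mem c hX.1, fun Y hY u hu => by
        rw [smul_mulVec, smul_mulVec, mulVec_smul, hX.2 Y hY u hu]⟩ }
  have hC : ∀ X, X ∈ C ↔ X ∈ LZ Z ∧ ∀ Y ∈ J, ∀ u ∈ U, X *ᵥ (Y *ᵥ u) = Y *ᵥ (X *ᵥ u) :=
    fun _ => Iff.rfl
  refine ⟨C, ⟨fun X hX => ((hC X).1 hX).1, fun W hW X hX => ?_⟩, hC⟩
  obtain ⟨h1, h2⟩ := (hC X).1 hX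
  refine (hC _).2 ⟨LZ_br hW h1, fun Y hY u hu => ?_⟩
  have h3 := h2 _ (hJ.br W hW Y hY) u hu
  simp only [sub_mulVec, mulVec_sub, ← mulVec_mulVec] at h3 ⊢
  have e1 := h2 Y hY (W *ᵥ u) (hU W hW u hu)
  have e2 := h2 Y hY u hu
  rw [e1] at h3
  rw [e2]
  calc W *ᵥ (Y *ᵥ (X *ᵥ u)) - X *ᵥ (W *ᵥ (Y *ᵥ u)) =
      (W *ᵥ (Y *ᵥ (X *ᵥ u)) - Y *ᵥ (W *ᵥ (X *ᵥ u))) -
        (X *ᵥ (W *ᵥ (Y *ᵥ u)) - Y *ᵥ (X *ᵥ (W *ᵥ u))) +
        (Y *ᵥ (W *ᵥ (X *ᵥ u)) - Y *ᵥ (X *ᵥ (W *ᵥ u))) := by abel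
  _ = _ := by rw [h3, sub_self, zero_add]

include h in
/-- Two of the ideals agree, or they commute. -/
theorem RU_or (hU : IrS (LZ Z) U) (hr : AltF Z U) (p : k →+* ℂ) (σ : ℂ ≃+* ℂ) :
    RU Z hZ U p = RU Z hZ U (rs k (cc.trans σ)) ∨
      ∀ Y ∈ Ip Z hZ p, ∀ u ∈ U, Y *ᵥ (DS Z σ *ᵥ u) = DS Z σ *ᵥ (Y *ᵥ u) := by
  rcases dichU_conj h hU (hZ := hZ) (Ip_id (hZ := hZ) (p := p)) σ with h1 | h1
  · exact Or.inr h1
  left
  have hq : RU Z hZ U (rs k (cc.trans σ)) ≤ RU Z hZ U p :=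
    RU_le (RU_id hU.2.1 p) h1 le_sup_right
  refine le_antisymm ?_ hq
  obtain ⟨τ, hτ⟩ := exists_rs p
  rcases dichU_conj h hU (hZ := hZ) (Ip_id (hZ := hZ) (p := rs k (cc.trans σ))) τ with h2 | h2
  · exfalso
    obtain ⟨C, hC, hCm⟩ := centralizer_id hU.2.1 (Ip_id (hZ := hZ) (p := rs k (cc.trans σ)))
    have h3 : RU Z hZ U p ≤ C := by
      refine RU_le hC (fun N hN => (hCm N).2 ⟨(mem_Np.1 hN).1, ?_⟩) fun X hX => (hCm X).2
        ⟨hX.1, fun Y hY u hu => ?_⟩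
      · exact comm_NpU h hU.2.1 Ip_id h2 (hτ ▸ hN)
      · rw [hX.2 _ (hU.2.1 Y (Ip_id.le hY) u hu), hX.2 u hu, mulVec_zero]
    obtain ⟨N, hN, Y, hY, u, hu, hne⟩ := noncommU h (hZ := hZ) hU hr (rs k (cc.trans σ))
    exact hne (((hCm N).1 (h3 (hq (Submodule.mem_sup_left (Np_le hN))))).2 Y hY u hu)
  · rw [hτ] at h2
    exact RU_le (RU_id hU.2.1 _) h2 le_sup_right

include h in
theorem Np_neU (hU : IrS (LZ Z) U) (hr : AltF Z U) (p : k →+* ℂ) : ∃ N ∈ Np Z hZ p, ∃ u ∈ U, N *ᵥ u ≠ 0 := by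
  obtain ⟨N, hN, Y, hY, u, hu, hne⟩ := noncommU h (hZ := hZ) hU hr p
  by_contra hcon
  push Not at hcon
  apply hne
  rw [hcon N hN u hu, hcon N hN _ (hU.2.1 Y (Ip_id.le hY) u hu), mulVec_zero]

end odd

/-- Real nilpotent elements which commute with the complex structure on a real submodule. -/
theorem real_nilU (h : PM Z) (hU : Stab (LZ Z) U) {N : Matrix (Fin g ⊕ Fin g) (Fin g ⊕ Fin g) ℂ}
    (hN : N ∈ LZ Z) (hr : N.map cc = N) (hD : ∀ u ∈ U, N *ᵥ (DZ Z *ᵥ u) = DZ Z *ᵥ (N *ᵥ u))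
    (h3 : ∀ u ∈ U, N *ᵥ (N *ᵥ (N *ᵥ u)) = 0) : ∀ u ∈ U, N *ᵥ u = 0 := by
  have hcn : ∀ u : Fin g ⊕ Fin g → ℂ, cnj (N *ᵥ u) = N *ᵥ cnj u := by
    intro u
    have h1 := map_mv cc N u
    rw [hr] at h1
    exact h1.symm
  have key : ∀ u ∈ U, N *ᵥ (N *ᵥ u) = 0 → N *ᵥ u = 0 := by
    intro u hu hu0
    by_contra h0
    have h1 := h.herm_pos h0
    have h2 : om g (cnj (N *ᵥ u)) (DZ Z *ᵥ (N *ᵥ u)) = 0 := by
      have h4 := h.om_sp hN (cnj u) (DZ Z *ᵥ (N *ᵥ u))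
      have h5 : N *ᵥ (DZ Z *ᵥ (N *ᵥ u)) = 0 := by
        rw [hD _ (hU N hN u hu), hu0, mulVec_zero]
      rw [h5, map_zero, add_zero] at h4
      rw [hcn, h4]
    rw [h2, mul_zero] at h1
    exact lt_irrefl _ h1
  intro u hu
  exact key u hu (key _ (hU N hN u hu) (h3 u hu))

theorem pos_realU (h : PM Z) (hUi : IrS (LZ Z) U)
    {X : Matrix (Fin g ⊕ Fin g) (Fin g ⊕ Fin g) ℂ} (hX : X ∈ LZ Z)
    (hD : ∀ u ∈ U, X *ᵥ (DZ Z *ᵥ u) = DZ Z *ᵥ (X *ᵥ u)) (hXX : X * X = 0)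
    (hc : ∀ u ∈ U, X *ᵥ (X.map cc *ᵥ u) = X.map cc *ᵥ (X *ᵥ u)) : ∀ u ∈ U, X *ᵥ u = 0 := by
  have hU := hUi.2.1
  obtain ⟨Y, hY⟩ : ∃ Y, Y = X.map cc := ⟨_, rfl⟩
  have hYm : Y ∈ LZ Z := by rw [hY]; exact gal_LZ cc X hX
  have hYX : Y.map cc = X := by
    rw [hY]
    ext i j
    exact Complex.conj_conj _
  have hYY : Y * Y = 0 := by
    rw [hY, ← Matrix.map_mul, hXX]
    exact Matrix.map_zero _ (map_zero cc)
  have hDb : ∀ v ∈ cjS cc U, X *ᵥ (DZ Z *ᵥ v) = DZ Z *ᵥ (X *ᵥ v) := by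
    have h1 : X * DZ Z - DZ Z * X ∈ KU Z U := by
      refine ⟨LZ_br hX DZ_mem, fun u hu => ?_⟩
      rw [sub_mulVec, ← mulVec_mulVec, ← mulVec_mulVec, hD u hu, sub_self]
    rw [← KU_bar h hUi] at h1
    intro v hv
    have h2 := h1.2 v hv
    rw [sub_mulVec, ← mulVec_mulVec, ← mulVec_mulVec, sub_eq_zero] at h2
    exact h2
  have hYD : ∀ u ∈ U, Y *ᵥ (DZ Z *ᵥ u) = DZ Z *ᵥ (Y *ᵥ u) := by
    intro u hu
    have h1 := hDb (cnj u) (cj_mem_cjS hu)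
    have h2 := congrArg cnj h1
    have e1 : ∀ (M : Matrix (Fin g ⊕ Fin g) (Fin g ⊕ Fin g) ℂ) (v : Fin g ⊕ Fin g → ℂ),
        cnj (M *ᵥ v) = M.map cc *ᵥ cnj v := fun M v => (map_mv cc M v).symm
    rw [e1, e1, e1, e1, ← hY, Pool.Agent.Y90.DZ_conj, cnj_cnj, neg_mulVec, mulVec_neg,
      neg_mulVec] at h2
    exact neg_injective h2
  rw [← hY] at hc
  have hXX' : ∀ u, X *ᵥ (X *ᵥ u) = 0 := fun u => by rw [mulVec_mulVec, hXX, zero_mulVec]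
  have hYY' : ∀ u, Y *ᵥ (Y *ᵥ u) = 0 := fun u => by rw [mulVec_mulVec, hYY, zero_mulVec]
  have key : ∀ c : ℂ, ∀ u ∈ U, c • (X *ᵥ u) + cc c • (Y *ᵥ u) = 0 := by
    intro c
    have h1 := real_nilU h hU (N := c • X + cc c • Y) ((LZ Z).add_mem ((LZ Z).smul_mem _ hX)
      ((LZ Z).smul_mem _ hYm)) ?_ ?_ ?_
    · intro u hu
      have h2 := h1 u hu
      rwa [add_mulVec, smul_mulVec, smul_mulVec] at h2
    · have h1 : (c • X + cc c • Y).map cc = (c • X).map cc + (cc c • Y).map cc :=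
        Matrix.map_add _ (map_add cc) _ _
      have h2 : ∀ (c : ℂ) (M : Matrix (Fin g ⊕ Fin g) (Fin g ⊕ Fin g) ℂ),
          (c • M).map cc = cc c • M.map cc := by
        intro c M
        ext i j
        exact map_mul cc _ _
      have h3 : cc (cc c) = c := Complex.conj_conj _
      rw [h1, h2, h2, ← hY, hYX, h3, add_comm]
    · intro u hu
      rw [add_mulVec, add_mulVec, smul_mulVec, smul_mulVec, smul_mulVec, smul_mulVec, hD u hu,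
        hYD u hu, mulVec_add, mulVec_smul, mulVec_smul]
    · intro u hu
      have hXu := hU X hX u hu
      have hYu := hU Y hYm u hu
      have h2 : (c • X + cc c • Y) *ᵥ ((c • X + cc c • Y) *ᵥ u) =
          (2 * (c * cc c)) • (X *ᵥ (Y *ᵥ u)) := by
        simp only [add_mulVec, smul_mulVec, mulVec_add, mulVec_smul, hXX', hYY', ← hc u hu,
          smul_zero, zero_add, add_zero, smul_smul]
        rw [← add_smul]
        congr 1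
        ring
      rw [h2, mulVec_smul, add_mulVec, smul_mulVec, smul_mulVec, hXX', ← hc _ hYu, hYY',
        mulVec_zero, smul_zero, smul_zero, add_zero, smul_zero]
  intro u hu
  have h1 := key 1 u hu
  have h2 := key Complex.I u hu
  have h3 : cc (1 : ℂ) = 1 := map_one _
  have h4 : cc Complex.I = -Complex.I := Complex.conj_I
  rw [h3, one_smul, one_smul] at h1
  rw [h4, neg_smul, ← sub_eq_add_neg, ← smul_sub] at h2
  have h5 := (smul_eq_zero.1 h2).resolve_left Complex.I_ne_zero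
  have h6 : (2 : ℂ) • (X *ᵥ u) = 0 := by
    have h7 : (2 : ℂ) • (X *ᵥ u) = (X *ᵥ u + Y *ᵥ u) + (X *ᵥ u - Y *ᵥ u) := by
      rw [two_smul]
      abel
    rw [h7, h1, h5, add_zero]
  exact (smul_eq_zero.1 h6).resolve_left two_ne_zero

section odd

variable [Countable k] (h : PM Z)

include h in
theorem RU_bar0 (hU : IrS (LZ Z) U) (hr : AltF Z U) :
    RU Z hZ U ((cc : ℂ →+* ℂ).comp (rs k (cc.trans (RingEquiv.refl ℂ)))) =
      RU Z hZ U (rs k (cc.trans (RingEquiv.refl ℂ))) := by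
  rcases RU_or h (hZ := hZ) hU hr ((cc : ℂ →+* ℂ).comp (rs k (cc.trans (RingEquiv.refl ℂ))))
    (RingEquiv.refl ℂ) with h1 | h1
  · exact h1
  · exfalso
    obtain ⟨N, hN, u, hu, hN0⟩ := Np_neU h (hZ := hZ) hU hr ((cc : ℂ →+* ℂ).comp (rs k (cc.trans
      (RingEquiv.refl ℂ))))
    have h2 := h1 N (Np_le hN) u hu
    have h3 := Np_cj cc hN
    rw [cc_comp] at h3
    obtain ⟨-, h4, h5⟩ := (mem_Np_pos h).1 h3
    rw [DS_refl] at h2 h4 h5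
    have h6 := congrArg (fun M => M.map cc) h4
    have h7 := congrArg (fun M => M.map cc) h5
    beta_reduce at h6 h7
    have h8 : (N.map cc).map cc = N := by
      ext i j
      exact Complex.conj_conj _
    rw [Matrix.map_mul, Pool.Agent.Y90.DZ_conj, h8, neg_mul] at h6
    rw [Matrix.map_mul, Pool.Agent.Y90.DZ_conj, map_neg_mat, h8, mul_neg] at h7
    have h9 := neg_injective h7
    rw [mulVec_mulVec, mulVec_mulVec, h9] at h2
    have h10 : (2 : ℂ) • (N *ᵥ u) = 0 := by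
      rw [two_smul]
      nth_rewrite 1 [h2]
      rw [← h6, neg_mulVec, ← neg_mulVec, h6]
      nth_rewrite 2 [← h6]
      rw [neg_mulVec, add_neg_cancel]
    exact hN0 ((smul_eq_zero.1 h10).resolve_left two_ne_zero)

include h in
/-- Complex conjugation fixes the ideals. -/
theorem RU_bar (hU : IrS (LZ Z) U) (hr : AltF Z U) (p : k →+* ℂ) :
    RU Z hZ U ((cc : ℂ →+* ℂ).comp p) = RU Z hZ U p := by
  have h0 := RU_bar0 h (hZ := hZ) hU hr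
  have hcc : ∀ p q : k →+* ℂ, RU Z hZ U p = RU Z hZ U q →
      RU Z hZ U ((cc : ℂ →+* ℂ).comp p) = RU Z hZ U ((cc : ℂ →+* ℂ).comp q) := by
    intro p q hpq
    have h1 := RU_cj (hZ := hZ) cc U p
    have h2 := RU_cj (hZ := hZ) cc U q
    have h3 : ∀ q : k →+* ℂ, RU Z hZ (cjS cc U) q = RU Z hZ U q := fun q => by
      unfold RU
      rw [KU_bar h hU]
    rw [h3] at h1 h2
    rw [← h1, ← h2, hpq]
  rcases RU_or h (hZ := hZ) hU hr p (RingEquiv.refl ℂ) with h1 | h1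
  · rw [hcc _ _ h1, h0, h1]
  · by_contra hcon
    obtain ⟨σ, hσ⟩ := exists_rs p
    rcases RU_or h (hZ := hZ) hU hr ((cc : ℂ →+* ℂ).comp p) σ with h2 | h2
    · rw [hσ] at h2
      exact hcon h2
    · obtain ⟨X, hX, u, hu, hX0⟩ := Np_neU h (hZ := hZ) hU hr p
      apply hX0
      have h3 := h1 X (Np_le hX)
      rw [DS_refl] at h3
      refine pos_realU h hU (mem_Np.1 hX).1 h3 (Np_sq hZ hX hX) (fun v hv => ?_) u hu
      rw [← hσ] at hX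
      exact comm_NpU h hU.2.1 Ip_id h2 hX _ (Np_le (Np_cj cc (hσ ▸ hX))) v hv

include h in
/-- The real embeddings. -/
theorem RU_real (hU : IrS (LZ Z) U) (hr : AltF Z U) {p : k →+* ℂ}
    (hp : (cc : ℂ →+* ℂ).comp p = p) :
    RU Z hZ U p = RU Z hZ U (rs k (cc.trans (RingEquiv.refl ℂ))) := by
  rcases RU_or h (hZ := hZ) hU hr p (RingEquiv.refl ℂ) with h1 | h1
  · exact h1
  · exfalso
    obtain ⟨X, hX, u, hu, hX0⟩ := Np_neU h (hZ := hZ) hU hr p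
    apply hX0
    have h3 := h1 X (Np_le hX)
    rw [DS_refl] at h3
    have h4 := Np_cj cc hX
    rw [hp] at h4
    refine pos_realU h hU (mem_Np.1 hX).1 h3 (Np_sq hZ hX hX) (fun v _ => ?_) u hu
    rw [mulVec_mulVec, mulVec_mulVec, Np_sq hZ hX h4, Np_sq hZ h4 hX]

theorem hasReal_odd (hodd : Odd (finrank ℚ k)) : HasReal k := by
  have : FiniteDimensional ℚ k := Module.finite_of_finrank_pos hodd.pos
  obtain ⟨p, hp⟩ := exists_real hodd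
  exact ⟨p, fun x => Complex.conj_eq_iff_im.1 (hp x)⟩

variable (hodd : Odd (finrank ℚ k))

include hodd h in
/-- The class of the distinguished embedding is odd. -/
theorem odd_cls (hU : IrS (LZ Z) U) (hr : AltF Z U) : ∃ S : Finset (k →+* ℂ), Odd S.card ∧
    ∀ p, p ∈ S ↔ RU Z hZ U p = RU Z hZ U (rs k (cc.trans (RingEquiv.refl ℂ))) := by
  classical
  have : FiniteDimensional ℚ k := Module.finite_of_finrank_pos hodd.pos
  have : NumberField k := ⟨⟩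
  have hcard : Fintype.card (k →+* ℂ) = finrank ℚ k := NumberField.Embeddings.card k ℂ
  refine ⟨Finset.univ.filter fun p => RU Z hZ U p =
    RU Z hZ U (rs k (cc.trans (RingEquiv.refl ℂ))), ?_, fun p => by
      rw [Finset.mem_filter]
      exact ⟨fun h1 => h1.2, fun h1 => ⟨Finset.mem_univ _, h1⟩⟩⟩
  have h1 := Finset.card_filter_add_card_filter_not (s := (Finset.univ : Finset (k →+* ℂ)))
    fun p => RU Z hZ U p = RU Z hZ U (rs k (cc.trans (RingEquiv.refl ℂ)))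
  rw [Finset.card_univ, hcard] at h1
  have h2 : ¬ Odd (Finset.univ.filter fun p : k →+* ℂ => ¬ RU Z hZ U p =
      RU Z hZ U (rs k (cc.trans (RingEquiv.refl ℂ)))).card := by
    intro h3
    obtain ⟨r, hr', hrr⟩ := odd_fix _ h3 (fun q => (cc : ℂ →+* ℂ).comp q) (fun q hq => by
      rw [Finset.mem_filter] at hq ⊢
      exact ⟨Finset.mem_univ _, by rw [RU_bar h hU hr]; exact hq.2⟩) fun q => cc_comp q
    rw [Finset.mem_filter] at hr'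
    exact hr'.2 (RU_real h hU hr hrr)
  rw [Nat.not_odd_iff_even] at h2
  by_contra h3
  rw [Nat.not_odd_iff_even] at h3
  rw [← h1] at hodd
  exact (Nat.not_even_iff_odd.2 hodd) (h3.add h2)

include hodd h in
/-- **All the ideals agree.** -/
theorem RU_odd (hU : IrS (LZ Z) U) (hr : AltF Z U) (p : k →+* ℂ) :
    RU Z hZ U p = RU Z hZ U (rs k (cc.trans (RingEquiv.refl ℂ))) := by
  classical
  have : FiniteDimensional ℚ k := Module.finite_of_finrank_pos hodd.pos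
  have : NumberField k := ⟨⟩
  obtain ⟨τ, hτ⟩ := exists_aut_emb' (rs k (cc.trans (RingEquiv.refl ℂ))) p
  obtain ⟨S, hS, hSm⟩ := odd_cls h hodd (hZ := hZ) (hU.cj gal_LZ τ.symm) (hr.cj τ.symm)
  have hb : ∀ q, RU Z hZ (cjS τ.symm U) q = RU Z hZ (cjS τ.symm U)
      (rs k (cc.trans (RingEquiv.refl ℂ))) ↔
      RU Z hZ U ((τ : ℂ →+* ℂ).comp q) = RU Z hZ U p := by
    intro q
    have h1 : ∀ q : k →+* ℂ, cjM τ (RU Z hZ (cjS τ.symm U) q) =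
        RU Z hZ U ((τ : ℂ →+* ℂ).comp q) := fun q => by
      rw [RU_cj, cjS_symm']
    rw [← h1, ← hτ, ← h1]
    refine ⟨fun h2 => by rw [h2], fun h2 => ?_⟩
    rw [← cjM_symm' τ (RU Z hZ (cjS τ.symm U) q), h2, cjM_symm']
  have hinj : Function.Injective fun q : k →+* ℂ => (τ : ℂ →+* ℂ).comp q := by
    intro q q' hq
    rw [← symm_comp τ q, ← symm_comp τ q']
    exact congrArg (fun q : k →+* ℂ => (τ.symm : ℂ →+* ℂ).comp q) hq
  have hS' : Odd (S.image fun q => (τ : ℂ →+* ℂ).comp q).card := by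
    rwa [Finset.card_image_of_injective _ hinj]
  have hmem : ∀ q, q ∈ (S.image fun q => (τ : ℂ →+* ℂ).comp q) ↔ RU Z hZ U q = RU Z hZ U p := by
    intro q
    rw [Finset.mem_image]
    constructor
    · rintro ⟨q', hq', rfl⟩
      exact (hb q').1 ((hSm q').1 hq')
    · intro hq
      have h2 : (τ : ℂ →+* ℂ).comp ((τ.symm : ℂ →+* ℂ).comp q) = q := by
        ext x
        exact τ.apply_symm_apply _
      exact ⟨(τ.symm : ℂ →+* ℂ).comp q, (hSm _).2 ((hb _).2 (by rw [h2, hq])), h2⟩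
  obtain ⟨r, hr1, hrr⟩ := odd_fix _ hS' (fun q => (cc : ℂ →+* ℂ).comp q) (fun q hq => by
    rw [hmem] at hq ⊢
    rw [RU_bar h hU hr, hq]) fun q => cc_comp q
  rw [hmem] at hr1
  rw [← hr1]
  exact RU_real h hU hr hrr

/-- The intersection over the conjugates of the submodule. -/
def JT (Z : Matrix (Fin g) (Fin g) ℂ) (hZ : ∀ i j, Z i j ∈ k)
    (U : Submodule ℂ (Fin g ⊕ Fin g → ℂ)) (p : k →+* ℂ) :
    Submodule ℂ (Matrix (Fin g ⊕ Fin g) (Fin g ⊕ Fin g) ℂ) :=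
  ⨅ ρ : ℂ ≃+* ℂ, RU Z hZ (cjS ρ U) p

theorem RU_JT (p : k →+* ℂ) : RU Z hZ U p = JT Z hZ U p ⊔ KU Z U := by
  refine le_antisymm (sup_le ((le_iInf fun ρ => le_sup_left).trans le_sup_left) le_sup_right)
    (sup_le ?_ le_sup_right)
  have h1 : JT Z hZ U p ≤ RU Z hZ (cjS (RingEquiv.refl ℂ) U) p := iInf_le _ _
  rwa [cjS_refl] at h1

include h in
/-- **All the ideals agree.** -/
theorem RU_mov (hE : RealMoves k) (hU : IrS (LZ Z) U) (hr : AltF Z U)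
    (p : k →+* ℂ) : RU Z hZ U p = RU Z hZ U (rs k (cc.trans (RingEquiv.refl ℂ))) := by
  rw [RU_JT, RU_JT]
  congr 1
  refine blocks_eq hE (JT Z hZ U) (fun τ p => ?_)
    (fun p => iInf_congr fun ρ => RU_bar h (hU.cj gal_LZ ρ) (hr.cj ρ) p)
    (fun p hp => iInf_congr fun ρ => RU_real h (hU.cj gal_LZ ρ) (hr.cj ρ) hp) p
  have h3 : ∀ ρ : ℂ ≃+* ℂ, RU Z hZ (cjS ρ U) ((τ : ℂ →+* ℂ).comp p) =
      cjM τ (RU Z hZ (cjS (ρ.trans τ.symm) U) p) := fun ρ => by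
    rw [RU_cj, ← cjS_trans, cjS_symm']
  ext X
  unfold JT
  rw [mem_cjM, Submodule.mem_iInf, Submodule.mem_iInf]
  constructor
  · intro h1 ρ
    have h2 := h1 (ρ.trans τ)
    have h4 : (ρ.trans τ).trans τ.symm = ρ := by
      ext x
      exact τ.symm_apply_apply _
    rw [h3, h4] at h2
    exact h2
  · intro h1 ρ
    rw [h3]
    exact h1 _

include h in
/-- **All the ideals agree.** -/
theorem RU_all (hE : Odd (finrank ℚ k) ∨ RealMoves k) (hU : IrS (LZ Z) U)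
    (hr : AltF Z U) (p : k →+* ℂ) :
    RU Z hZ U p = RU Z hZ U (rs k (cc.trans (RingEquiv.refl ℂ))) := by
  rcases hE with h1 | h1
  · exact RU_odd h h1 hU hr p
  · exact RU_mov h h1 hU hr p

include h in
theorem D_memU (hU : IrS (LZ Z) U) (hs : SDu Z U) :
    DZ Z ∈ RU Z hZ U (rs k (cc.trans (RingEquiv.refl ℂ))) := by
  obtain ⟨S, Si, e, k⟩ := exists_co h hU
  have htr := two_le_tr h hU hs
  have h0 := pos_ne_bot k.H (by omega) (by omega)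
  obtain ⟨Y, hY, hYD⟩ := D_mem_of k.H h0 (k.tr0 hU hs) (k.map_id (Ip_id (hZ := hZ)
    (p := rs _ (cc.trans (RingEquiv.refl ℂ))))) fun x hx => by
    obtain ⟨N, hN, h1, h2, rfl⟩ := k.of_pos hx
    refine ⟨N, Np_le ((mem_Np_pos h).2 ⟨hN, ?_, ?_⟩), rfl⟩
    · rw [DS_refl, h1]
    · rw [DS_refl, h2]
  rw [k.D] at hYD
  have h4 : lr S (e * Si) (DZ Z - Y) = 0 := by rw [map_sub, hYD, sub_self]
  exact Submodule.mem_sup.2 ⟨Y, hY, DZ Z - Y, mem_KU.2 ⟨(LZ Z).sub_mem DZ_mem (Ip_id.le hY),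
    k.zero h4⟩, by abel⟩

include h hZ in
/-- **The Lie algebra acting on `U` is generated, as an ideal, by the elements of positive
degree.** -/
theorem fullU (hE : Odd (finrank ℚ k) ∨ RealMoves k) (hU : IrS (LZ Z) U)
    (hr : AltF Z U)
    {S Si e : Matrix (Fin g ⊕ Fin g) (Fin g ⊕ Fin g) ℂ} (c : Co h U S Si e) :
    Full ((LZ Z).map (lr S (e * Si))) (S * pP (DZ Z) e 1 * Si) (S * pP (DZ Z) e (-1) * Si) := by
  intro J' hJ' hle
  let J : Submodule ℂ (Matrix (Fin g ⊕ Fin g) (Fin g ⊕ Fin g) ℂ) :=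
    LZ Z ⊓ J'.comap (lr S (e * Si))
  have hJ : IsId (LZ Z) J := by
    refine ⟨inf_le_left, fun X hX Y hY => ⟨LZ_br hX hY.1, ?_⟩⟩
    change lr S (e * Si) (X * Y - Y * X) ∈ J'
    rw [map_sub, ← c.mul hY.1, ← c.mul hX]
    exact hJ'.br _ ⟨X, hX, rfl⟩ _ hY.2
  have h1 : RU Z hZ U (rs k (cc.trans (RingEquiv.refl ℂ))) ≤ J := by
    refine RU_le hJ (fun N hN => ?_) fun X hX => ⟨hX.1, ?_⟩
    · obtain ⟨h1, h2, h3⟩ := (mem_Np_pos h).1 hN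
      rw [DS_refl] at h2 h3
      exact ⟨h1, hle (c.to_pos h1 h2 h3)⟩
    · change lr S (e * Si) X ∈ J'
      have h2 : lr S (e * Si) X = 0 := by
        rw [c.lr']
        have h3 : X * e = 0 := eq_of_mulVec fun v => by
          rw [← mulVec_mulVec, hX.2 _ (c.e1 v), zero_mulVec]
        rw [h3, mul_zero, zero_mul]
      rw [h2]
      exact J'.zero_mem
  have h2 : LZ Z ≤ RU Z hZ U (rs k (cc.trans (RingEquiv.refl ℂ))) := by
    refine LZ_le (fun σ => ?_) fun X hX Y hY => (RU_id hU.2.1 _).br X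
      ((RU_id hU.2.1 _).le hX) Y hY
    have h3 := D_memU h (hZ := hZ) (hU.cj gal_LZ σ.symm) (hr.cj σ.symm).sdu
    have h4 : DS Z σ ∈ cjM σ (RU Z hZ (cjS σ.symm U) (rs k (cc.trans (RingEquiv.refl ℂ)))) :=
      mem_cjM' h3
    rw [RU_cj, cjS_symm', RU_all h hE hU hr] at h4
    exact h4
  rintro _ ⟨X, hX, rfl⟩
  exact (h1 (h2 hX)).2

end odd

end RU

end

end Pool.Agent.N994.PG
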