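import Mathlib
import Pool.Agent.N994.PG.JH
import Pool.Agent.N994.PG.JI
import Pool.Agent.N994.PG.KD
import Pool.Agent.N994.PG.FiveSeven

/-!
# Period fields with real embeddings: elements of rank one on real submodules
-/

set_option linter.unusedSectionVars false

namespace Pool.Agent.N994.PG

open Matrix Module Pool.Agent.W437.HC Pool.Agent.W437.HD Pool.Agent.TH504.CB Pool.Agent.Y90
  Pool.Agent.R915
open Pool.Agent.W548.Odd hiding cv
open Pool.Agent.N994.PF (rs Zk InL Ed Sys PP PP_eq comb card_emb)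
open Pool.Agent.Y4 (exists_aut_emb)
open Pool.Agent.Y4.G (Lie lr lr_apply trace_idemM)
open Pool.Agent.Y4.G.Lie (pos mem_pos)

open scoped ComplexOrder

noncomputable section

variable {g : ℕ} {Z : Matrix (Fin g) (Fin g) ℂ} {k : IntermediateField ℚ ℂ}

/-- Hermitian projections with the same image agree. -/
theorem proj_uniq {B : Type*} [Fintype B] [DecidableEq B] {E F : Matrix B B ℂ} (hE : Eᴴ = E)
    (hF : Fᴴ = F) (h1 : E * F = F) (h2 : F * E = E) : E = F := by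
  have h3 := congrArg conjTranspose h1
  rw [conjTranspose_mul, hE, hF, h2] at h3
  exact h3

/-- **The real point.** -/
theorem exists_pt [Countable k] (hE : Odd (finrank ℚ k) ∨ (RealMoves k ∧ NoImagQuad k)) (h : PM Z)
    (hZ : ∀ i j, Z i j ∈ k) : ∃ T ∈ LZ Z, T * T = 1 ∧
      ∀ v, T *ᵥ v = -v → T *ᵥ (fun i => cc (v i)) = -(fun i => cc (v i)) := by
  rcases hE with hodd | ⟨h1, h2⟩
  · obtain ⟨p₀, hp₀⟩ := hasReal_odd hodd
    obtain ⟨σ, hσ⟩ := exists_aut_emb' (algebraMap k ℂ) p₀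
    have hσ' : rs k σ = p₀ := hσ
    refine ⟨DS Z σ, DS_mem σ, DS_sq h.det σ, fun w hw2 => ?_⟩
    have hwL : w ∈ Lp hZ (rs k σ) := by
      rw [Lp_neg h, mem_Eg, hw2, neg_one_smul]
    have hwL' := Lp_map hZ _ cc hwL
    have hp : (cc : ℂ →+* ℂ).comp (rs k σ) = rs k σ := by
      rw [hσ']
      ext x
      exact cc_of_im hp₀ x
    rw [hp, Lp_neg h, mem_Eg, neg_one_smul] at hwL'
    exact hwL'
  · exact exists_rp h1 h2 h hZ

/-- Real hermitian coordinates on a real submodule. -/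
theorem exists_rs_co [Countable k]
    (hE : Odd (finrank ℚ k) ∨ (RealMoves k ∧ NoImagQuad k)) (h : PM Z)
    (hZ : ∀ i j, Z i j ∈ k) {U : Submodule ℂ (Fin g ⊕ Fin g → ℂ)} (hU : IrS (LZ Z) U)
    (hUc : cjS cc U = U) : ∃ (S Si e : Matrix (Fin g ⊕ Fin g) (Fin g ⊕ Fin g) ℂ) (a : ℕ)
      (D' : Matrix (Fin g ⊕ Fin g) (Fin g ⊕ Fin g) ℂ), Co h U S Si e ∧ 2 * a = finrank ℂ U ∧
      RS ((LZ Z).map (lr S (e * Si))) (S * pP (DZ Z) e 1 * Si) (S * pP (DZ Z) e (-1) * Si) a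
        D' := by
  obtain ⟨S, Si, hSSi, hSiS, hDs, had', hSc, hSic⟩ := exists_Sr h
  have had : ∀ X ∈ LZ Z, ∃ Y ∈ LZ Z, S * Y * Si = (S * X * Si)ᴴ := fun X hX =>
    ⟨-(DZ Z * X.map cc * DZ Z), Submodule.neg_mem _ (LA_invol (gal_LZ cc X hX) (DZ_mem (Z := Z))
      (DZ_sq h.det)), had' X hX⟩
  obtain ⟨e, he1, he2, he3, hce⟩ := exists_projU h hU.2.1 hSSi hSiS had
  have hL := lie_of h hU hSSi hSiS hDs had he1 he2 he3 hce
  have c : Co h U S Si e := ⟨hSSi, hSiS, he1, he2, hce, hL⟩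
  have htr := two_le_tr h hU (sdu_real h hU hUc)
  have hpq : qd Z U = pd Z U := htr.1.symm
  have hdim := pd_add_qd h hU.2.1
  have hfull := fullU h (hZ := hZ) (hE.imp_right And.left) hU (altF_real h hU hUc) c
  rw [hpq] at hL
  have hcU : ∀ u ∈ U, (fun i => cc (u i)) ∈ U := fun u hu => by
    have h1 := cj_mem_cjS (σ := cc) hu
    rw [hUc] at h1
    exact h1
  have hee : e * e = e := c.ee
  -- the projection is real
  have hmm : ∀ X Y : Matrix (Fin g ⊕ Fin g) (Fin g ⊕ Fin g) ℂ,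
      (X * Y).map cc = X.map cc * Y.map cc := fun X Y => Matrix.map_mul
  have hcc : ∀ X : Matrix (Fin g ⊕ Fin g) (Fin g ⊕ Fin g) ℂ, (X.map cc).map cc = X := fun X => by
    ext i j
    exact Complex.conj_conj _
  have hmv : ∀ (X : Matrix (Fin g ⊕ Fin g) (Fin g ⊕ Fin g) ℂ) (v : Fin g ⊕ Fin g → ℂ),
      (X.map cc) *ᵥ v = fun i => cc ((X *ᵥ fun i => cc (v i)) i) := by
    intro X v
    rw [← map_mv cc X]
    congr 1
    funext i
    exact (Complex.conj_conj _).symm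
  have hec : e.map cc = e := by
    have h1 : ∀ v, e.map cc *ᵥ v ∈ U := fun v => by
      rw [hmv]
      exact hcU _ (he1 _)
    have h2 : ∀ v ∈ U, e.map cc *ᵥ v = v := fun v hv => by
      rw [hmv, he2 _ (hcU v hv)]
      funext i
      exact Complex.conj_conj _
    have h3 : (S * e.map cc * Si)ᴴ = S * e.map cc * Si := by
      have h4 := congrArg (fun X => X.map cc) he3
      beta_reduce at h4
      have h5 : ∀ X : Matrix (Fin g ⊕ Fin g) (Fin g ⊕ Fin g) ℂ, (Xᴴ).map cc = (X.map cc)ᴴ :=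
        fun X => rfl
      rw [h5, hmm, hmm, hSc, hSic] at h4
      exact h4
    have h4 : S * e.map cc * Si = S * e * Si := by
      refine proj_uniq h3 he3 ?_ ?_
      · rw [c.cj]
        congr 2
        exact eq_of_mulVec fun v => by rw [← mulVec_mulVec, h2 _ (he1 v)]
      · rw [c.cj]
        congr 2
        exact eq_of_mulVec fun v => by rw [← mulVec_mulVec, he2 _ (h1 v)]
    have h5 := congrArg (fun X => Si * X * S) h4
    beta_reduce at h5
    have h6 : ∀ M : Matrix (Fin g ⊕ Fin g) (Fin g ⊕ Fin g) ℂ, Si * (S * M * Si) * S = M := by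
      intro M
      calc Si * (S * M * Si) * S = (Si * S) * M * (Si * S) := by noncomm_ring
      _ = M := by rw [hSiS, one_mul, mul_one]
    rw [h6, h6] at h5
    exact h5
  have hadd : S * pP (DZ Z) e 1 * Si + S * pP (DZ Z) e (-1) * Si = S * e * Si := by
    have hpq : pP (DZ Z) e 1 + pP (DZ Z) e (-1) = e := by
      unfold pP
      rw [← smul_add, ← add_mul]
      have : (1 + (1 : ℂ) • DZ Z + (1 + (-1 : ℂ) • DZ Z) :
          Matrix (Fin g ⊕ Fin g) (Fin g ⊕ Fin g) ℂ) = (2 : ℂ) • 1 := by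
        rw [one_smul, neg_one_smul, two_smul]
        abel
      rw [this, Matrix.smul_mul, one_mul, smul_smul]
      norm_num
    rw [← add_mul, ← mul_add, hpq]
  obtain ⟨T, hT, hTT, hTr⟩ := exists_pt hE h hZ
  refine ⟨S, Si, e, pd Z U, lr S (e * Si) T, c, by omega, ?_⟩
  exact {
    H := hL
    cj := by
      rintro _ ⟨X, hX, rfl⟩
      refine ⟨X.map cc, gal_LZ cc X hX, ?_⟩
      rw [c.lr', c.lr', hmm, hmm, hmm, hSc, hSic, hec]
    PQc := by
      rw [hmm, hmm, hSc, hSic]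
      congr 2
      unfold pP
      have h1 : ∀ X : Matrix (Fin g ⊕ Fin g) (Fin g ⊕ Fin g) ℂ,
          ((2 : ℂ)⁻¹ • X).map cc = (2 : ℂ)⁻¹ • X.map cc := by
        intro X
        ext i j
        have h2 : cc ((2 : ℂ)⁻¹) = (2 : ℂ)⁻¹ := by
          rw [map_inv₀]
          exact congrArg _ (map_ofNat cc 2)
        change cc ((2 : ℂ)⁻¹ * X i j) = (2 : ℂ)⁻¹ * cc (X i j)
        rw [map_mul, h2]
      rw [h1, hmm, hec, one_smul, neg_one_smul]
      congr 2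
      have h3 : (1 + DZ Z).map cc = (1 : Matrix (Fin g ⊕ Fin g) (Fin g ⊕ Fin g) ℂ).map cc +
          (DZ Z).map cc := Matrix.map_add _ (map_add cc) _ _
      rw [h3, Pool.Agent.Y90.DZ_conj, Matrix.map_one _ (map_zero cc) (map_one cc)]
    sp := by
      rintro _ ⟨X, hX, rfl⟩
      rw [c.D, c.lr', c.lr']
      have h1 : (S * (X * e) * Si)ᵀ = -(S * (e * (DZ Z * X * DZ Z)) * Si) := by
        have h2 : (S * (X * e) * Si)ᴴ = S * e * Si * (S * X * Si)ᴴ := by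
          rw [← c.cj, conjTranspose_mul, he3]
        have h3 : (S * (X * e) * Si)ᵀ = ((S * (X * e) * Si)ᴴ).map cc := by
          ext i j
          exact (Complex.conj_conj _).symm
        rw [h3, h2, ← had' X hX, c.cj, hmm, hmm, hmm, hSc, hSic, hec, map_neg_mat, hmm, hmm, hcc,
          Pool.Agent.Y90.DZ_conj]
        noncomm_ring
      rw [h1, neg_mul, c.cj, c.cj]
      have h2 : e * (DZ Z * X * DZ Z) * (DZ Z * e) = DZ Z * e * (X * e) := by
        calc e * (DZ Z * X * DZ Z) * (DZ Z * e) =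
            e * DZ Z * X * (DZ Z * DZ Z) * e := by noncomm_ring
        _ = DZ Z * e * (X * e) := by
          rw [DZ_sq h.det, mul_one, ← hce _ DZ_mem]
          noncomm_ring
      rw [h2, neg_add_cancel]
    full := hfull
    DG := ⟨T, hT, rfl⟩
    DD := by
      rw [c.mul hT, hTT, hadd, c.lr', one_mul]
    real := by
      intro v h1 h2
      rw [hadd] at h1
      have hw1 : e *ᵥ (Si *ᵥ v) = Si *ᵥ v := by
        have h3 := congrArg (fun w => Si *ᵥ w) h1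
        beta_reduce at h3
        rw [mulVec_mulVec, ← mul_assoc, ← mul_assoc, hSiS, one_mul, ← mulVec_mulVec] at h3
        exact h3
      have hwU : Si *ᵥ v ∈ U := by
        rw [← hw1]
        exact he1 _
      have hw2 : T *ᵥ (Si *ᵥ v) = -(Si *ᵥ v) := by
        have h3 := congrArg (fun w => Si *ᵥ w) h2
        beta_reduce at h3
        rw [c.lr', mulVec_mulVec, ← mul_assoc, ← mul_assoc, hSiS, one_mul, ← mulVec_mulVec,
          ← mulVec_mulVec, hw1, mulVec_neg] at h3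
        exact h3
      obtain ⟨w, hw⟩ : ∃ w, w = Si *ᵥ v := ⟨_, rfl⟩
      rw [← hw] at hw1 hw2 hwU
      have hv : v = S *ᵥ w := by rw [hw, mulVec_mulVec, hSSi, one_mulVec]
      have hwL' := hTr w hw2
      have hcv : (fun i => cc (v i)) = S *ᵥ fun i => cc (w i) := by
        have h3 := map_mv cc S w
        rw [hSc, ← hv] at h3
        exact h3.symm
      rw [hcv, c.lr', mulVec_mulVec]
      have h4 : S * (T * e) * Si * S = S * (T * e) := by
        rw [mul_assoc, hSiS, mul_one]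
      rw [h4, ← mulVec_mulVec, ← mulVec_mulVec, he2 _ (hcU w hwU), hwL', mulVec_neg] }

/-- The elements of positive degree form a spin factor on `U`. -/
def SpinRel (Z : Matrix (Fin g) (Fin g) ℂ) (U : Submodule ℂ (Fin g ⊕ Fin g → ℂ)) : Prop :=
  ∀ x ∈ LZ Z, DZ Z * x = x → x * DZ Z = -x → ∀ u ∈ LZ Z, DZ Z * u = u → u * DZ Z = -u →
    (∀ v ∈ U, DZ Z *ᵥ v = -v → u *ᵥ v = 0 → v = 0) → ∃ α β : ℂ, ∀ v ∈ U, ∀ v' ∈ U,
      DZ Z *ᵥ v = -v → DZ Z *ᵥ v' = -v' → u *ᵥ v' = x *ᵥ v →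
      x *ᵥ v' = α • (x *ᵥ v) + β • (u *ᵥ v)

theorem Co.spinRel {h : PM Z} {U : Submodule ℂ (Fin g ⊕ Fin g → ℂ)}
    {S Si e : Matrix (Fin g ⊕ Fin g) (Fin g ⊕ Fin g) ℂ} (c : Co h U S Si e)
    (hs : SpinP ((LZ Z).map (lr S (e * Si))) (S * pP (DZ Z) e 1 * Si)
      (S * pP (DZ Z) e (-1) * Si)) : SpinRel Z U := by
  have hact : ∀ (X : Matrix (Fin g ⊕ Fin g) (Fin g ⊕ Fin g) ℂ), ∀ v ∈ U,
      (lr S (e * Si) X) *ᵥ (S *ᵥ v) = S *ᵥ (X *ᵥ v) := by
    intro X v hv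
    rw [c.lr', mulVec_mulVec, mul_assoc, c.SiS, mul_one, ← mulVec_mulVec, ← mulVec_mulVec,
      c.e2 v hv]
  have hSi : ∀ v w, S *ᵥ v = S *ᵥ w → v = w := by
    intro v w h1
    have h2 := congrArg (fun z => Si *ᵥ z) h1
    beta_reduce at h2
    rwa [mulVec_mulVec, mulVec_mulVec, c.SiS, one_mulVec, one_mulVec] at h2
  have hQ1 : ∀ v ∈ U, DZ Z *ᵥ v = -v → (S * pP (DZ Z) e (-1) * Si) *ᵥ (S *ᵥ v) = S *ᵥ v := by
    intro v hv hD
    have h1 : pP (DZ Z) e (-1) *ᵥ v = v := by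
      unfold pP
      rw [smul_mulVec, ← mulVec_mulVec, c.e2 v hv, add_mulVec, one_mulVec, neg_one_smul,
        neg_mulVec, hD, neg_neg, ← two_smul ℂ v, smul_smul, inv_mul_cancel₀ two_ne_zero, one_smul]
    rw [mulVec_mulVec, mul_assoc, c.SiS, mul_one, ← mulVec_mulVec, h1]
  have hQ2 : ∀ w, (S * pP (DZ Z) e (-1) * Si) *ᵥ w = w → ∃ v ∈ U, DZ Z *ᵥ v = -v ∧
      w = S *ᵥ v := by
    intro w hw
    have h1 : ∀ z ∈ U, pP (DZ Z) e (-1) *ᵥ z ∈ U := by
      intro z hz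
      unfold pP
      rw [smul_mulVec, ← mulVec_mulVec, add_mulVec, one_mulVec, neg_one_smul, neg_mulVec, c.e2 z hz]
      exact U.smul_mem _ (U.add_mem hz (U.neg_mem (by
        have h2 := congrArg (fun M => M *ᵥ z) (c.ce _ (DZ_mem (Z := Z)))
        beta_reduce at h2
        rw [← mulVec_mulVec, ← mulVec_mulVec, c.e2 z hz] at h2
        rw [h2]
        exact c.e1 _)))
    have h3 : pP (DZ Z) e (-1) * e = pP (DZ Z) e (-1) := by
      unfold pP
      rw [Matrix.smul_mul, mul_assoc, c.ee]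
    refine ⟨pP (DZ Z) e (-1) *ᵥ (Si *ᵥ w), ?_, ?_, ?_⟩
    · rw [← h3, ← mulVec_mulVec]
      exact h1 _ (c.e1 _)
    · unfold pP
      rw [smul_mulVec, mulVec_smul, ← smul_neg]
      congr 1
      rw [mulVec_mulVec (Si *ᵥ w), ← neg_mulVec, neg_one_smul]
      congr 1
      rw [← mul_assoc (DZ Z), mul_add, mul_one, mul_neg, DZ_sq h.det]
      noncomm_ring
    · rw [mulVec_mulVec, mulVec_mulVec, hw]
  intro x hx hx1 hx2 u hu hu1 hu2 hinj
  obtain ⟨α, β, hαβ⟩ := hs _ (c.to_pos hx hx1 hx2) _ (c.to_pos hu hu1 hu2) (fun w hw hw0 => by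
    obtain ⟨v, hv, hD, rfl⟩ := hQ2 w hw
    rw [hact u v hv] at hw0
    have h1 : u *ᵥ v = 0 := hSi _ _ (by rw [hw0, mulVec_zero])
    rw [hinj v hv hD h1, mulVec_zero])
  refine ⟨α, β, fun v hv v' hv' hD hD' huv => ?_⟩
  have h1 := hαβ (S *ᵥ v) (S *ᵥ v') (hQ1 v hv hD) (hQ1 v' hv' hD') (by
    rw [hact u v' hv', hact x v hv, huv])
  rw [hact x v' hv', hact x v hv, hact u v hv] at h1
  apply hSi
  rw [h1, mulVec_add, mulVec_smul S α (x *ᵥ v), mulVec_smul S β (u *ᵥ v)]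

/-- Isomorphic submodules. -/
theorem SpinRel.of_map {U : Submodule ℂ (Fin g ⊕ Fin g → ℂ)}
    {T : (Fin g ⊕ Fin g → ℂ) →ₗ[ℂ] (Fin g ⊕ Fin g → ℂ)} (hU : Stab (LZ Z) U)
    (hT : ∀ X ∈ LZ Z, ∀ u ∈ U, T (X *ᵥ u) = X *ᵥ T u) (hi : ∀ u ∈ U, T u = 0 → u = 0)
    (hs : SpinRel Z (U.map T)) : SpinRel Z U := by
  intro x hx hx1 hx2 u hu hu1 hu2 hinj
  obtain ⟨α, β, hαβ⟩ := hs x hx hx1 hx2 u hu hu1 hu2 (by
    rintro _ ⟨v, hv, rfl⟩ hD h0
    rw [← hT u hu v hv] at h0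
    rw [← hT _ DZ_mem v hv, ← map_neg, ← sub_eq_zero, ← map_sub] at hD
    have h1 := sub_eq_zero.1 (hi _ (U.sub_mem (hU _ DZ_mem v hv) (U.neg_mem hv)) hD)
    rw [hinj v hv h1 (hi _ (hU u hu v hv) h0), map_zero])
  refine ⟨α, β, fun v hv v' hv' hD hD' huv => ?_⟩
  have h1 := hαβ (T v) ⟨v, hv, rfl⟩ (T v') ⟨v', hv', rfl⟩ (by rw [← hT _ DZ_mem v hv, hD, map_neg])
    (by rw [← hT _ DZ_mem v' hv', hD', map_neg]) (by rw [← hT u hu v' hv', huv, hT x hx v hv])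
  rw [← hT x hx v' hv', ← hT x hx v hv, ← hT u hu v hv, ← map_smul, ← map_smul, ← map_add,
    ← sub_eq_zero, ← map_sub] at h1
  exact sub_eq_zero.1 (hi _ (U.sub_mem (hU x hx v' hv') (U.add_mem (U.smul_mem _ (hU x hx v hv))
    (U.smul_mem _ (hU u hu v hv)))) h1)

/-- **Elements of rank one on real submodules.** -/
theorem rk1_real [Countable k]
    (hE : Odd (finrank ℚ k) ∨ (RealMoves k ∧ NoImagQuad k)) (h : PM Z)
    (hZ : ∀ i j, Z i j ∈ k) {U : Submodule ℂ (Fin g ⊕ Fin g → ℂ)} (hU : IrS (LZ Z) U)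
    (hUc : cjS cc U = U) : Rk1 Z U ∨
      ((∃ j, 4 ≤ j ∧ j % 4 ≤ 1 ∧ finrank ℂ U = 2 * 2 ^ j) ∧ SpinRel Z U) := by
  obtain ⟨S, Si, e, a, D', c, ha, r⟩ := exists_rs_co hE h hZ hU hUc
  have hU0 : 0 < finrank ℂ U := by
    rw [Nat.pos_iff_ne_zero, ne_eq, Submodule.finrank_eq_zero]
    exact hU.1
  rcases r.rank_one (by omega) with ⟨u, w, hx, hx0⟩ | ⟨⟨j, hj, hjm, hj'⟩, hsp⟩
  · left
    obtain ⟨N, hN, h1, h2, hNx⟩ := c.of_pos hx
    refine ⟨DZ Z, Or.inl rfl, N, hN, h1, h2, ?_⟩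
    have h3 : ∀ v ∈ U, N *ᵥ v = (w ⬝ᵥ (S *ᵥ v)) • (Si *ᵥ u) := by
      intro v hv
      have h4 : (lr S (e * Si) N) *ᵥ (S *ᵥ v) = S *ᵥ (N *ᵥ v) := by
        rw [c.lr', mulVec_mulVec, mul_assoc, c.SiS, mul_one, ← mulVec_mulVec, ← mulVec_mulVec,
          c.e2 v hv]
      rw [hNx] at h4
      have h5 := congrArg (fun z => Si *ᵥ z) h4
      beta_reduce at h5
      rw [mulVec_mulVec (N *ᵥ v), c.SiS, one_mulVec] at h5
      rw [← h5, vecMulVec_mulVec, op_smul_eq_smul, mulVec_smul]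
    have h4 : U.map (mulVecLin N) ≤ Submodule.span ℂ {Si *ᵥ u} := by
      rintro _ ⟨v, hv, rfl⟩
      rw [mulVecLin_apply, h3 v hv]
      exact Submodule.smul_mem _ _ (Submodule.mem_span_singleton_self _)
    have h5 := Submodule.finrank_mono h4
    have h6 : finrank ℂ (Submodule.span ℂ {Si *ᵥ u}) ≤ 1 := by
      by_cases h0 : Si *ᵥ u = 0
      · rw [h0, Submodule.span_zero_singleton, finrank_bot]
        exact Nat.zero_le _
      · rw [finrank_span_singleton h0]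
    have h7 : finrank ℂ (U.map (mulVecLin N)) ≠ 0 := by
      rw [ne_eq, Submodule.finrank_eq_zero]
      intro h8
      apply hx0
      rw [← hNx, c.lr']
      have h9 : N * e = 0 := eq_of_mulVec fun v => by
        rw [← mulVec_mulVec, zero_mulVec]
        have h10 : mulVecLin N (e *ᵥ v) ∈ U.map (mulVecLin N) := ⟨_, c.e1 v, rfl⟩
        rw [h8, Submodule.mem_bot] at h10
        exact h10
      rw [h9, mul_zero, zero_mul]
    omega
  · right
    exact ⟨⟨j, hj, hjm, by rw [← ha, hj']⟩, c.spinRel hsp⟩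

/-- Elements of rank one and isomorphisms. -/
theorem Rk1.of_map' {U : Submodule ℂ (Fin g ⊕ Fin g → ℂ)}
    {T : (Fin g ⊕ Fin g → ℂ) →ₗ[ℂ] (Fin g ⊕ Fin g → ℂ)} (hU : Stab (LZ Z) U)
    (hT : ∀ X ∈ LZ Z, ∀ u ∈ U, T (X *ᵥ u) = X *ᵥ T u) (hi : ∀ u ∈ U, T u = 0 → u = 0)
    (hk : Rk1 Z (U.map T)) : Rk1 Z U := by
  obtain ⟨D, hD, N, hN, h1, h2, h3⟩ := hk
  refine ⟨D, hD, N, hN, h1, h2, ?_⟩
  have h4 : (U.map T).map (mulVecLin N) = (U.map (mulVecLin N)).map T := by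
    ext v
    constructor
    · rintro ⟨_, ⟨u, hu, rfl⟩, rfl⟩
      exact ⟨_, ⟨u, hu, rfl⟩, hT N hN u hu⟩
    · rintro ⟨_, ⟨u, hu, rfl⟩, rfl⟩
      exact ⟨_, ⟨u, hu, rfl⟩, (hT N hN u hu).symm⟩
  rw [h4] at h3
  rw [← h3]
  symm
  have h5 : Function.Injective (T.domRestrict (U.map (mulVecLin N))) := by
    rw [injective_iff_map_eq_zero]
    rintro ⟨_, ⟨u, hu, rfl⟩⟩ hv
    exact Subtype.ext (hi _ (hU N hN u hu) hv)
  have h6 := LinearMap.finrank_range_of_inj h5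
  rw [LinearMap.range_domRestrict] at h6
  exact h6

theorem finrank_sup_finset {ι : Type*} (S : Finset ι) (F : ι → Submodule ℂ (Fin g ⊕ Fin g → ℂ))
    {n : ℕ} (hn : ∀ i ∈ S, finrank ℂ (F i) ≤ n) : finrank ℂ (S.sup F :
      Submodule ℂ (Fin g ⊕ Fin g → ℂ)) ≤ S.card * n := by
  classical
  induction S using Finset.induction_on with
  | empty =>
    rw [Finset.sup_empty, finrank_bot]
    exact Nat.zero_le _
  | insert i S hi ih =>
    rw [Finset.sup_insert, Finset.card_insert_of_notMem hi, add_mul, one_mul]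
    have h1 := Submodule.finrank_add_le_finrank_add_finrank (F i) (S.sup F)
    have h2 := ih fun j hj => hn j (Finset.mem_insert_of_mem hj)
    have h3 := hn i (Finset.mem_insert_self _ _)
    have h4 : finrank ℂ (F i ⊔ S.sup F : Submodule ℂ (Fin g ⊕ Fin g → ℂ)) ≤
      finrank ℂ (F i) + finrank ℂ (S.sup F : Submodule ℂ (Fin g ⊕ Fin g → ℂ)) := h1
    omega

/-- The dimensions of the eigenspaces. -/
theorem VE_dim (h : PM Z) (hs : IsSimpleAV Z) {M : Matrix (Fin g ⊕ Fin g) (Fin g ⊕ Fin g) ℚ}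
    (hM : qm M * DZ Z = DZ Z * qm M) {θ : ℂ} (hne : VE M θ ≠ ⊥)
    (hθ : Polynomial.aeval θ (minpoly ℚ M) = 0) :
    2 * g ≤ (minpoly ℚ M).natDegree * finrank ℂ (VE M θ) := by
  classical
  have hspan := conj_span h hs (VE_stab hM θ) hne
  have hMint : IsIntegral ℚ M := Algebra.IsIntegral.isIntegral M
  have h0 : minpoly ℚ M ≠ 0 := minpoly.ne_zero hMint
  let S : Finset ℂ := ((minpoly ℚ M).aroots ℂ).toFinset.filter fun r => ∃ σ : ℂ ≃+* ℂ, σ θ = r
  have hcard : S.card ≤ (minpoly ℚ M).natDegree := by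
    calc S.card ≤ ((minpoly ℚ M).aroots ℂ).toFinset.card := Finset.card_filter_le _ _
    _ ≤ Multiset.card ((minpoly ℚ M).aroots ℂ) := Multiset.toFinset_card_le _
    _ ≤ ((minpoly ℚ M).map (algebraMap ℚ ℂ)).natDegree := Polynomial.card_roots' _
    _ = (minpoly ℚ M).natDegree := Polynomial.natDegree_map _
  have h1 : S.sup (VE M) = ⊤ := by
    rw [eq_top_iff, ← hspan, iSup_le_iff]
    intro σ
    rw [VE_cj]
    refine Finset.le_sup (f := VE M) (Finset.mem_filter.2 ⟨?_, σ, rfl⟩)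
    rw [Multiset.mem_toFinset, Polynomial.mem_aroots]
    exact ⟨h0, root_conj hθ σ⟩
  have h2 := finrank_sup_finset S (VE M) (n := finrank ℂ (VE M θ)) (fun r hr => by
    obtain ⟨-, σ, rfl⟩ := Finset.mem_filter.1 hr
    rw [← VE_cj, finrank_cjS])
  rw [h1, finrank_top, finrank_V] at h2
  exact h2.trans (Nat.mul_le_mul_right _ hcard)

/-- **Types I and II over fields with real embeddings.** -/
theorem ld_jord [Countable k]
    (hE : Odd (finrank ℚ k) ∨ (RealMoves k ∧ NoImagQuad k)) (h : PM Z) (hs : IsSimpleAV Z)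
    (hg : 0 < g) (hZ : ∀ i j, Z i j ∈ k) {a : Module.End ℚ (Fin g ⊕ Fin g → ℚ)}
    (ha : RealMax (AVZ h) a) {cond : ℕ → Prop}
    (hcond : ∀ W : Submodule ℂ (Fin g ⊕ Fin g → ℂ), IrS (LZ Z) W → SpinRel Z W →
      ∀ j, finrank ℂ W = 2 * 2 ^ j → cond j)
    (hj : ∀ j, 4 ≤ j → j % 4 ≤ 1 → cond j → 2 * g ≠ 2 * 2 ^ j * (minpoly ℚ a).natDegree)
    {U : Submodule ℂ (Fin g ⊕ Fin g → ℂ)} (hU : IrS (LZ Z) U) : LD h U := by
  have hk := ha.rf h
  have halt := altF_rf h hs hg hk hU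
  have htwo := (two_le_of_sdu h hU halt.sdu).1
  refine ⟨?_, htwo, Or.inl halt.sdu⟩
  obtain ⟨M, hM⟩ : ∃ M, M = LinearMap.toMatrix' a := ⟨_, rfl⟩
  have hmp : minpoly ℚ M = minpoly ℚ a := by
    let e : Matrix (Fin g ⊕ Fin g) (Fin g ⊕ Fin g) ℚ ≃ₐ[ℚ] Module.End ℚ (Fin g ⊕ Fin g → ℚ) :=
      Matrix.toLinAlgEquiv'
    have hea : e (LinearMap.toMatrix' a) = a := Matrix.toLin'_toMatrix' a
    have h4 := minpoly.algEquiv_eq e (LinearMap.toMatrix' a)
    rw [hea] at h4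
    rw [hM]
    exact h4.symm
  rw [← hM] at hk
  obtain ⟨θ, hθ, hdim, hproj⟩ := VE_main h hs hg hk.comm
  obtain ⟨σ, T, hT, hi, hTU⟩ := hproj U hU
  have hU' := irS_map hU hT hi
  have hW0 : VE M (σ θ) ≠ ⊥ := fun h1 => hU'.1 (by rwa [h1, le_bot_iff] at hTU)
  have hW := hk.irr h hs (θ := σ θ) hW0
  rcases hW.2.2 _ hTU hU'.2.1 with h1 | h1
  · exact absurd h1 hU'.1
  have hreal : cjS cc (VE M (σ θ)) = VE M (σ θ) := by
    rw [VE_cj, hk.real _ (root_conj hθ σ)]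
  refine Rk1.of_map' hU.2.1 hT hi ?_
  rw [h1]
  rcases rk1_real hE h hZ hW hreal with h2 | ⟨⟨j, hj1, hjm, hj2⟩, hsp⟩
  · exact h2
  · exfalso
    have h3 := VE_dim h hs hk.comm hW0 (root_conj hθ σ)
    have h4 : finrank ℂ (VE M (σ θ)) = finrank ℂ (VE M θ) := by
      rw [← VE_cj, finrank_cjS]
    rw [← h4] at hdim
    apply hj j hj1 hjm (hcond _ hW hsp j hj2)
    rw [← hj2, ← hmp, mul_comm (finrank ℂ _)]
    exact le_antisymm h3 hdim

end

end Pool.Agent.N994.PG
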