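import Mathlib
import Pool.Agent.N994.PG.JJ
import Pool.Agent.N994.PG.KE

/-!
# Real copies of the alternating submodules, and abelian varieties of odd dimension
-/

set_option linter.unusedSectionVars false

namespace Pool.Agent.N994.PG

open Matrix Module Pool.Agent.W437.HC Pool.Agent.W437.HD Pool.Agent.TH504.CB Pool.Agent.Y90
  Pool.Agent.R915
open Pool.Agent.W548.Odd hiding cv
open Pool.Agent.N994.PF (rs Zk InL Ed Sys PP PP_eq comb card_emb)
open Pool.Agent.Y4 (exists_aut_emb)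
open Pool.Agent.W522.U (Du SI)

open scoped ComplexOrder

noncomputable section

variable {g : ℕ} {Z : Matrix (Fin g) (Fin g) ℂ} {k : IntermediateField ℚ ℂ}
  {U : Submodule ℂ (Fin g ⊕ Fin g → ℂ)}

/-- Self-dual submodules are isomorphic to their conjugates. -/
theorem exists_bar (h : PM Z) (hU : IrS (LZ Z) U) (hs : SDu Z U) : ∃ T, BarI Z U T := by
  have hSI : ∀ {U}, SI (RZ Z) U ↔ IrS (LZ Z) U := fun {U} => si_iff h.genI
  have hUb := hU.cj gal_LZ cc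
  have h1 : Du (RZ Z) 1 U U := (rz_du h hU.2.1 hU.2.1).2 hs
  obtain ⟨Δ, hΔ, T, hTm, hT0, hTc⟩ := h1.tw (hSI.2 hU) (hSI.2 hU) (hSI.2 hUb) (du_bar h hU)
  obtain rfl := fi_top Δ hΔ
  have h2 : ∀ X ∈ LZ Z, ∀ u ∈ U, T (X *ᵥ u) = X *ᵥ T u :=
    (rz_equiv h hU.2.1 T).1 fun g u hu => by
      have := hTc g (Subgroup.mem_top g) u hu
      rwa [one_smul] at this
  obtain ⟨π, p1, p2, p3⟩ := h.cred U hU.2.1
  refine ⟨LinearMap.toMatrix' (T ∘ₗ π), fun X hX => ?_, fun u hu => ?_, ?_⟩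
  · apply eq_of_mulVec
    intro v
    rw [← mulVec_mulVec, ← mulVec_mulVec, LinearMap.toMatrix'_mulVec, LinearMap.toMatrix'_mulVec,
      LinearMap.comp_apply, LinearMap.comp_apply, p1 X hX v, h2 X hX _ (p2 v)]
  · rw [LinearMap.toMatrix'_mulVec, LinearMap.comp_apply, p3 u hu]
    exact hTm u hu
  · obtain ⟨u, hu, hu0⟩ := hT0
    refine ⟨u, hu, ?_⟩
    rw [LinearMap.toMatrix'_mulVec, LinearMap.comp_apply, p3 u hu]
    exact hu0

/-- The invariant form is alternating. -/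
theorem BarI.alt (h : PM Z) (hU : IrS (LZ Z) U) (ha : AltF Z U)
    {T : Matrix (Fin g ⊕ Fin g) (Fin g ⊕ Fin g) ℂ} (hT : BarI Z U T) :
    ∀ u ∈ U, ∀ v ∈ U, om g u (T *ᵥ v) = -om g v (T *ᵥ u) := by
  obtain ⟨b, h0, hb, hba⟩ := ha
  obtain ⟨c, hc⟩ := bil_unique (b' := (om g).compl₂ (mulVecLin T)) hU h0 hb
    fun X hX u _ v _ => hT.inv_om h hX u v
  intro u hu v hv
  have h1 : om g u (T *ᵥ v) = c * b u v := hc u hu v hv
  have h2 : om g v (T *ᵥ u) = c * b v u := hc v hv u hu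
  rw [h1, h2, hba u hu v hv]
  ring

/-- **The real structure.** -/
theorem BarI.real (h : PM Z) (hU : IrS (LZ Z) U) (ha : AltF Z U)
    {T : Matrix (Fin g ⊕ Fin g) (Fin g ⊕ Fin g) ℂ} (hT : BarI Z U T) :
    ∃ c : ℝ, 0 < c ∧ ∀ u ∈ U, cnj (T *ᵥ cnj (T *ᵥ u)) = (c : ℂ) • u := by
  have hTc : ∀ v, cnj (T *ᵥ v) = T.map cc *ᵥ cnj v := fun v => cnj_mulVec T v
  have hS : ∀ u, (T.map cc * T) *ᵥ u = cnj (T *ᵥ cnj (T *ᵥ u)) := by
    intro u
    rw [hTc, cnj_cnj, mulVec_mulVec]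
  have hcomm : ∀ X ∈ LZ Z, X * (T.map cc * T) = (T.map cc * T) * X := by
    intro X hX
    have h1 : X * T.map cc = T.map cc * X := by
      have h2 := hT.comm _ (gal_LZ cc X hX)
      have h3 := congrArg (fun M : Matrix (Fin g ⊕ Fin g) (Fin g ⊕ Fin g) ℂ => M.map cc) h2
      beta_reduce at h3
      rw [Matrix.map_mul, Matrix.map_mul] at h3
      have h4 : (X.map cc).map cc = X := by
        ext i j
        exact Complex.conj_conj _
      rwa [h4] at h3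
    rw [← Matrix.mul_assoc, h1, Matrix.mul_assoc, hT.comm X hX, Matrix.mul_assoc]
  have hmem : ∀ u ∈ U, cnj (T *ᵥ u) ∈ U := fun u hu => mem_cc.1 (hT.mem u hu)
  obtain ⟨c, hc⟩ := schur_scalar hU hcomm fun u hu => by
    rw [hS]
    exact hmem _ (hmem u hu)
  obtain ⟨u, hu, hu0, ε, hε, hε0, hDu⟩ := exists_eigvec h hU
  set w := cnj (T *ᵥ u) with hw
  have hwU : w ∈ U := hmem u hu
  have hcw : cnj w = T *ᵥ u := by rw [hw, cnj_cnj]
  have hw0 : w ≠ 0 := by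
    intro h1
    have h2 : T *ᵥ u = 0 := by
      rw [← hcw, h1]
      funext i
      exact map_zero _
    exact hu0 (hT.inj hU u hu h2)
  have hDT : DZ Z *ᵥ (T *ᵥ u) = ε • (T *ᵥ u) := by
    rw [mulVec_mulVec, hT.comm _ DZ_mem, ← mulVec_mulVec, hDu, mulVec_smul]
  have hDw : DZ Z *ᵥ w = (-ε) • w := cnj_eig _ ε hε hDT
  have p1 := h.herm_pos hu0
  have p2 := h.herm_pos hw0
  rw [hDu, map_smul, smul_eq_mul] at p1
  rw [hDw, map_smul, smul_eq_mul] at p2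
  -- the relation
  have hTw : T *ᵥ w = cc c • cnj u := by
    have h1 := hc u hu
    rw [hS] at h1
    have h2 := congrArg cnj h1
    rwa [cnj_cnj, cnj_smul] at h2
  have hrel : om g (cnj w) w = -(cc c * om g (cnj u) u) := by
    have h1 := hT.alt h hU ha u hu w hwU
    rw [hTw, map_smul, smul_eq_mul, ← hcw] at h1
    rw [om_anti (cnj w) w, om_anti (cnj u) u]
    linear_combination -h1
  rw [hrel] at p2
  obtain ⟨A, hA⟩ : ∃ A, A = Complex.I * (ε * om g (cnj u) u) := ⟨_, rfl⟩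
  rw [← hA] at p1
  have p2' : 0 < cc c * A := by
    have h1 : Complex.I * (-ε * -(cc c * om g (cnj u) u)) = cc c * A := by
      rw [hA]
      ring
    rwa [h1] at p2
  rw [Complex.lt_def] at p1 p2'
  obtain ⟨a1, a2⟩ := p1
  obtain ⟨b1, b2⟩ := p2'
  rw [Complex.zero_re] at a1 b1
  rw [Complex.zero_im] at a2 b2
  have hcr : (cc c).re = c.re := Complex.conj_re c
  have hci : (cc c).im = -c.im := Complex.conj_im c
  rw [Complex.mul_re, hcr, hci, ← a2] at b1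
  rw [Complex.mul_im, hcr, hci, ← a2] at b2
  have hre : 0 < c.re := by
    by_contra h1
    push Not at h1
    have h2 : c.re * A.re ≤ 0 := mul_nonpos_of_nonpos_of_nonneg h1 a1.le
    linarith
  have him : c.im = 0 := by
    have h2 : c.im * A.re = 0 := by linarith
    exact (mul_eq_zero.1 h2).resolve_right a1.ne'
  refine ⟨c.re, hre, fun v hv => ?_⟩
  rw [← hS, hc v hv]
  congr 1
  apply Complex.ext
  · rw [Complex.ofReal_re]
  · rw [Complex.ofReal_im, him]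

/-- **Real copies.** -/
theorem exists_real_copy (h : PM Z) (hU : IrS (LZ Z) U) (ha : AltF Z U) :
    ∃ M : Matrix (Fin g ⊕ Fin g) (Fin g ⊕ Fin g) ℂ, (∀ X ∈ LZ Z, X * M = M * X) ∧
      (∀ u ∈ U, M *ᵥ u = 0 → u = 0) ∧
      cjS cc (U.map (mulVecLin M)) = U.map (mulVecLin M) := by
  obtain ⟨T, hT⟩ := exists_bar h hU ha.sdu
  obtain ⟨c, hc0, hc⟩ := hT.real h hU ha
  obtain ⟨s, hs⟩ : ∃ s : ℝ, s = (Real.sqrt c)⁻¹ := ⟨_, rfl⟩
  have hsc : s * s * c = 1 := by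
    rw [hs, ← mul_inv, Real.mul_self_sqrt hc0.le, inv_mul_cancel₀ hc0.ne']
  have hccs : cc (s : ℂ) = (s : ℂ) := Complex.conj_ofReal s
  have hmem : ∀ u ∈ U, cnj (T *ᵥ u) ∈ U := fun u hu => mem_cc.1 (hT.mem u hu)
  -- the two submodules
  have key : ∀ ε : ℂ, ε * ε = 1 → cc ε = ε →
      ∀ u ∈ U, ∃ u' ∈ U, cnj ((1 + (ε * s) • T) *ᵥ u) = (1 + (ε * s) • T) *ᵥ u' := by
    intro ε hε hcε u hu
    refine ⟨(ε * s) • cnj (T *ᵥ u), U.smul_mem _ (hmem u hu), ?_⟩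
    have e1 : T *ᵥ cnj (T *ᵥ u) = (c : ℂ) • cnj u := by
      have h1 := congrArg cnj (hc u hu)
      rw [cnj_cnj, cnj_smul] at h1
      have h2 : cc (c : ℂ) = (c : ℂ) := Complex.conj_ofReal c
      rwa [h2] at h1
    have e2 : cnj ((1 + (ε * s) • T) *ᵥ u) = cnj u + (ε * s) • cnj (T *ᵥ u) := by
      rw [add_mulVec, one_mulVec, smul_mulVec]
      have h1 : cnj (u + (ε * s) • T *ᵥ u) = cnj u + cnj ((ε * s) • T *ᵥ u) := by
        funext i
        exact map_add cc _ _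
      rw [h1, cnj_smul, map_mul, hcε, hccs]
    rw [e2, add_mulVec, one_mulVec, smul_mulVec, mulVec_smul, e1, smul_smul, smul_smul]
    have e3 : ε * s * (ε * s) * (c : ℂ) = 1 := by
      have h1 : ((s * s * c : ℝ) : ℂ) = 1 := by rw [hsc, Complex.ofReal_one]
      push_cast at h1
      calc ε * s * (ε * s) * (c : ℂ) = (ε * ε) * (s * s * c) := by ring
      _ = 1 := by rw [hε, h1, one_mul]
    rw [e3, one_smul, add_comm]
  have hcomm : ∀ ε : ℂ, ∀ X ∈ LZ Z, X * (1 + (ε * s) • T) = (1 + (ε * s) • T) * X := by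
    intro ε X hX
    rw [mul_add, add_mul, mul_one, one_mul, Matrix.mul_smul, Matrix.smul_mul, hT.comm X hX]
  have hfin : ∀ ε : ℂ, ε * ε = 1 → cc ε = ε → (∃ u ∈ U, (1 + (ε * s) • T) *ᵥ u ≠ 0) →
      ∃ M : Matrix (Fin g ⊕ Fin g) (Fin g ⊕ Fin g) ℂ, (∀ X ∈ LZ Z, X * M = M * X) ∧
      (∀ u ∈ U, M *ᵥ u = 0 → u = 0) ∧
      cjS cc (U.map (mulVecLin M)) = U.map (mulVecLin M) := by
    intro ε hε hcε hne
    refine ⟨1 + (ε * s) • T, hcomm ε, ?_, ?_⟩
    · have h1 : ∀ X ∈ LZ Z, ∀ u ∈ U, mulVecLin (1 + (ε * s) • T) (X *ᵥ u) =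
          X *ᵥ mulVecLin (1 + (ε * s) • T) u := by
        intro X hX u _
        rw [mulVecLin_apply, mulVecLin_apply, mulVec_mulVec, mulVec_mulVec, hcomm ε X hX]
      exact hU.inj h1 hne
    · have hle : ∀ v ∈ U.map (mulVecLin (1 + (ε * s) • T)), cnj v ∈
          U.map (mulVecLin (1 + (ε * s) • T)) := by
        rintro _ ⟨u, hu, rfl⟩
        obtain ⟨u', hu', h1⟩ := key ε hε hcε u hu
        exact ⟨u', hu', h1.symm⟩
      ext v
      constructor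
      · intro hv
        have h1 := hle _ hv
        have h2 : cnj (fun i => (cc : ℂ ≃+* ℂ).symm (v i)) = v := cnj_cnj v
        rwa [h2] at h1
      · intro hv
        exact hle v hv
  by_cases h1 : ∃ u ∈ U, (1 + ((1 : ℂ) * s) • T) *ᵥ u ≠ 0
  · exact hfin 1 (one_mul 1) (map_one cc) h1
  · refine hfin (-1) (by norm_num) (by rw [map_neg, map_one]) ?_
    push Not at h1
    obtain ⟨u, hu, hu0⟩ := Submodule.exists_mem_ne_zero_of_ne_bot hU.1
    refine ⟨u, hu, fun h2 => hu0 ?_⟩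
    have h3 := h1 u hu
    have h4 : (2 : ℂ) • u = (1 + ((1 : ℂ) * s) • T) *ᵥ u + (1 + ((-1 : ℂ) * s) • T) *ᵥ u := by
      rw [add_mulVec, add_mulVec, one_mulVec, smul_mulVec, smul_mulVec]
      module
    rw [h3, h2, add_zero] at h4
    exact (smul_eq_zero.1 h4).resolve_left two_ne_zero

/-- **Elements of rank one on alternating submodules.** -/
theorem rk1_alt [Countable k]
    (hE : Odd (finrank ℚ k) ∨ (RealMoves k ∧ NoImagQuad k)) (h : PM Z)
    (hZ : ∀ i j, Z i j ∈ k) (hU : IrS (LZ Z) U) (ha : AltF Z U) :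
    Rk1 Z U ∨ ((∃ j, 4 ≤ j ∧ j % 4 ≤ 1 ∧ finrank ℂ U = 2 * 2 ^ j) ∧ SpinRel Z U) := by
  obtain ⟨M, hM, hi, hc⟩ := exists_real_copy h hU ha
  have hT : ∀ X ∈ LZ Z, ∀ u ∈ U, mulVecLin M (X *ᵥ u) = X *ᵥ mulVecLin M u := by
    intro X hX u _
    rw [mulVecLin_apply, mulVecLin_apply, mulVec_mulVec, mulVec_mulVec, hM X hX]
  have hi' : ∀ u ∈ U, mulVecLin M u = 0 → u = 0 := hi
  have hU' := irS_map hU hT hi'
  rcases rk1_real hE h hZ hU' hc with h1 | ⟨⟨j, h1, h2, h3⟩, h4⟩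
  · exact Or.inl (Rk1.of_map' hU.2.1 hT hi' h1)
  · exact Or.inr ⟨⟨j, h1, h2, by rw [← finrank_map_of_inj hi', h3]⟩,
      h4.of_map hU.2.1 hT hi'⟩

/-- **Abelian varieties of odd dimension.** -/
theorem ld_oddg [Countable k]
    (hE : Odd (finrank ℚ k) ∨ (RealMoves k ∧ NoImagQuad k)) (h : PM Z) (hs : IsSimpleAV Z)
    (hg : Odd g) (hZ : ∀ i j, Z i j ∈ k) (hU : IrS (LZ Z) U) : LD h U := by
  have heven : 2 ∣ finrank ℂ U := by
    rcases hE with h1 | ⟨h1, h2⟩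
    · have : FiniteDimensional ℚ k := Module.finite_of_finrank_pos h1.pos
      exact ⟨_, (even_odd h1 h hZ hU (algebraMap k ℂ)).symm⟩
    · exact ⟨_, (even_cm h1 h2 h hZ hU (algebraMap k ℂ)).symm⟩
  have hng : ¬ 2 ∣ g := fun h1 => (Nat.not_even_iff_odd.2 hg) (even_iff_two_dvd.2 h1)
  have ha : AltF Z U := by
    by_contra h1
    exact hng (heven.trans (dvd_of_not_alt h hs hU h1))
  refine ⟨?_, (two_le_of_sdu h hU ha.sdu).1, Or.inl ha.sdu⟩
  rcases rk1_alt hE h hZ hU ha with h1 | ⟨⟨j, h1, -, h2⟩, -⟩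
  · exact h1
  · exfalso
    have h3 := finrank_dvd h hs hU
    rw [h2] at h3
    have h4 : 2 ^ j ∣ g := (Nat.mul_dvd_mul_iff_left two_pos).1 h3
    exact hng ((dvd_pow_self 2 (by omega)).trans h4)

end

end Pool.Agent.N994.PG
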