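import Mathlib
import Pool.Agent.N994.PG.KC
import Pool.Agent.N994.PG.JI

/-!
# Limits of translates: the conjugate subspaces have the same Pluecker span
-/

set_option linter.unusedSectionVars false

namespace Pool.Agent.N994.PG

open Matrix Module Pool.Agent.W437.HC Pool.Agent.W437.HD Pool.Agent.TH504.CB Pool.Agent.Y90
  Pool.Agent.R915
open Pool.Agent.W548.Odd hiding cv
open Pool.Agent.N994.PF (rs Zk InL Ed Sys PP PP_eq comb card_emb)
open Pool.Agent.Y4 (exists_aut_emb)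

open scoped ComplexOrder

noncomputable section

section lim

variable {B : Type*} [Fintype B] [DecidableEq B] {L : Submodule ℂ (Matrix B B ℂ)} {d : ℕ}

/-- Limits of translates. -/
theorem Epl_lim {T : Matrix B B ℂ} (hT : T ∈ L) (hTT : T * T = 1) {A E : Matrix B (Fin d) ℂ}
    {C : Matrix (Fin d) (Fin d) ℂ} (hC : C.det ≠ 0) (h : hp T * A = E * C) :
    Epl L E ≤ Epl L A := by
  refine Submodule.span_le.2 ?_
  rintro _ ⟨γ, hγ, rfl⟩
  obtain ⟨f, hf⟩ : ∃ f : ℂ → Matrix (Fin d → B) (Fin d → B) ℂ, f = fun s =>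
    diagonal (pl (γ * ((hp T + s • hp (-T)) * A))) := ⟨_, rfl⟩
  have hcont : Continuous f := by
    rw [hf]
    refine Continuous.matrix_diagonal (continuous_pi fun e => ?_)
    unfold pl
    refine Continuous.matrix_det ?_
    refine Continuous.matrix_submatrix ?_ _ _
    refine Continuous.matrix_mul continuous_const (Continuous.matrix_mul ?_ continuous_const)
    exact continuous_const.add (continuous_id.smul continuous_const)
  have hclosed : IsClosed ((Epl L A : Submodule ℂ _) : Set (Matrix (Fin d → B) (Fin d → B) ℂ)) :=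
    Submodule.closed_of_finiteDimensional _
  have hne : ∀ s : ℂ, s ≠ 0 → f s ∈ Epl L A := by
    intro s hs
    have h1 : hp T + s • hp (-T) = ((1 + s) / 2) • 1 + ((1 - s) / 2) • T := by
      unfold hp
      module
    have h2 : (1 + s) / 2 * ((1 + s) / 2) - (1 - s) / 2 * ((1 - s) / 2) ≠ 0 := by
      have : (1 + s) / 2 * ((1 + s) / 2) - (1 - s) / 2 * ((1 - s) / 2) = s := by ring
      rwa [this]
    have h3 : ((1 + s) / 2) • 1 + ((1 - s) / 2) • T ∈ GrU L :=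
      Submonoid.subset_closure (Or.inr ⟨T, hT, hTT, _, _, h2, rfl⟩)
    rw [hf]
    refine Submodule.subset_span ⟨γ * (hp T + s • hp (-T)), Submonoid.mul_mem _ hγ ?_, ?_⟩
    · rw [h1]
      exact h3
    · rw [Matrix.mul_assoc]
  have h0 : f 0 ∈ Epl L A := by
    have h1 : Dense {s : ℂ | s ≠ 0} := dense_compl_singleton 0
    have h2 : f ⁻¹' ((Epl L A : Submodule ℂ _) : Set (Matrix (Fin d → B) (Fin d → B) ℂ)) =
        Set.univ := by
      refine (hclosed.preimage hcont).closure_eq ▸ ?_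
      refine Set.eq_univ_of_univ_subset ?_
      rw [← h1.closure_eq]
      exact closure_mono fun s hs => hne s hs
    have h3 : (0 : ℂ) ∈ f ⁻¹' ((Epl L A : Submodule ℂ _) :
        Set (Matrix (Fin d → B) (Fin d → B) ℂ)) := by rw [h2]; trivial
    exact h3
  rw [hf] at h0
  beta_reduce at h0
  rw [zero_smul, add_zero, h, ← Matrix.mul_assoc, pl_mul, diagonal_smul] at h0
  have h4 := (Epl L A).smul_mem (C.det)⁻¹ h0
  rw [smul_smul, inv_mul_cancel₀ hC, one_smul] at h4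
  exact h4

/-- Opposite subspaces. -/
theorem Epl_opp {T : Matrix B B ℂ} (hT : T ∈ L) (hTT : T * T = 1) {A E : Matrix B (Fin d) ℂ}
    (hE : ∀ v, T *ᵥ v = v → ∃ b, v = E *ᵥ b)
    (hA : ∀ b, T *ᵥ (A *ᵥ b) = -(A *ᵥ b) → b = 0) : Epl L E ≤ Epl L A := by
  have h1 : ∀ b, ∃ b', hp T *ᵥ (A *ᵥ b) = E *ᵥ b' := fun b => hE _ (by
    rw [mulVec_mulVec, hp_mulT hTT])
  choose c hc using fun j : Fin d => h1 (Pi.single j 1)
  have h2 : hp T * A = E * Matrix.of fun i j => c j i := by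
    refine Matrix.ext fun i j => ?_
    have e1 := congrFun (hc j) i
    rw [mulVec_mulVec, mulVec_single_one] at e1
    exact e1
  refine Epl_lim hT hTT (C := Matrix.of fun i j => c j i) ?_ h2
  intro h0
  obtain ⟨v, hv, hv'⟩ := Matrix.exists_mulVec_eq_zero_iff.2 h0
  apply hv
  refine hA v ?_
  have e1 : hp T *ᵥ (A *ᵥ v) = 0 := by
    rw [mulVec_mulVec, h2, ← mulVec_mulVec, hv', mulVec_zero]
  have e2 : (2 : ℂ) • (hp T *ᵥ (A *ᵥ v)) = A *ᵥ v + T *ᵥ (A *ᵥ v) := by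
    unfold hp
    rw [smul_mulVec, smul_smul, mul_inv_cancel₀ two_ne_zero, one_smul, add_mulVec, one_mulVec]
  rw [e1, smul_zero] at e2
  exact (neg_eq_of_add_eq_zero_right e2.symm).symm

end lim

variable {g : ℕ} {Z : Matrix (Fin g) (Fin g) ℂ} {k : IntermediateField ℚ ℂ}

theorem hneg (h : PM Z) : ∀ v, DZ Z *ᵥ v = -v → ∃ b, v = LM Z *ᵥ b := by
  intro v hv
  obtain ⟨b, b', hb⟩ := exists_decomp Z (Z.map cc) (isUnit_bar_sub h.det) v
  refine ⟨b, ?_⟩
  rw [hb, mulVec_add, DZ_vecL h.det] at hv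
  have e1 : DZ Z *ᵥ vecL (Z.map cc) b' = vecL (Z.map cc) b' := DZ_vecL_bar h.det b'
  rw [e1, neg_add, add_right_inj] at hv
  have e2 : vecL (Z.map cc) b' = 0 := by
    have e3 : (2 : ℂ) • vecL (Z.map cc) b' = 0 := by
      rw [two_smul]
      nth_rewrite 1 [hv]
      exact neg_add_cancel _
    exact (smul_eq_zero.1 e3).resolve_left two_ne_zero
  rw [hb, e2, add_zero, LM_mulVec]

theorem hpos (h : PM Z) : ∀ v, DZ Z *ᵥ v = v → ∃ b, v = LM (Z.map cc) *ᵥ b := by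
  intro v hv
  obtain ⟨b, b', hb⟩ := exists_decomp Z (Z.map cc) (isUnit_bar_sub h.det) v
  refine ⟨b', ?_⟩
  rw [hb, mulVec_add, DZ_vecL h.det] at hv
  have e1 : DZ Z *ᵥ vecL (Z.map cc) b' = vecL (Z.map cc) b' := DZ_vecL_bar h.det b'
  rw [e1, add_left_inj] at hv
  have e2 : vecL Z b = 0 := by
    have e3 : (2 : ℂ) • vecL Z b = 0 := by
      rw [two_smul]
      nth_rewrite 1 [← hv]
      exact neg_add_cancel _
    exact (smul_eq_zero.1 e3).resolve_left two_ne_zero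
  rw [hb, e2, zero_add, LM_mulVec]

/-- Real embeddings are opposite to the complex structure. -/
theorem real_opp (h : PM Z) (hZ : ∀ i j, Z i j ∈ k) [Countable k] {r : k →+* ℂ}
    (hr : (cc : ℂ →+* ℂ).comp r = r) {v : Fin g ⊕ Fin g → ℂ} (hv : v ∈ Lp hZ r) {c : ℂ}
    (hD : DZ Z *ᵥ v = c • v) : v = 0 := by
  by_contra hv0
  have h1 := Lp_map hZ r cc hv
  rw [hr] at h1
  obtain ⟨σ, hσ⟩ := exists_aut_emb' (algebraMap k ℂ) r
  have hσ' : rs k σ = r := hσ
  rw [← hσ', Lp_neg h, mem_Eg] at h1 hv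
  have h2 := om_iso h (DS_mem σ) (neg_ne_zero.2 one_ne_zero) h1 hv
  have h3 := h.herm_pos hv0
  have h4 : om g (cnj v) v = 0 := h2
  rw [hD, map_smul, h4, smul_zero, mul_zero] at h3
  exact lt_irrefl _ h3

theorem Ep_one (hZ : ∀ i j, Z i j ∈ k) : Ep Z hZ (rs k (RingEquiv.refl ℂ)) = Epl (LZ Z) (LM Z) := by
  unfold Ep
  congr 2

theorem Ep_cc (hZ : ∀ i j, Z i j ∈ k) : Ep Z hZ (rs k cc) = Epl (LZ Z) (LM (Z.map cc)) := by
  unfold Ep
  congr 2

theorem Ep_rank [Countable k] (hZ : ∀ i j, Z i j ∈ k) (p : k →+* ℂ) :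
    finrank ℂ (Ep Z hZ p) = finrank ℂ (Ep Z hZ (rs k (RingEquiv.refl ℂ))) := by
  obtain ⟨τ, hτ⟩ := exists_aut_emb' (rs k (RingEquiv.refl ℂ)) p
  rw [← hτ, Ep_cj, finrank_cjM]

/-- The Pluecker spans of the real embeddings. -/
theorem Ep_real [Countable k] (h : PM Z) (hZ : ∀ i j, Z i j ∈ k) {r : k →+* ℂ}
    (hr : (cc : ℂ →+* ℂ).comp r = r) : Ep Z hZ r = Ep Z hZ (rs k (RingEquiv.refl ℂ)) ∧
      Ep Z hZ r = Ep Z hZ (rs k cc) := by
  have hDD : DZ Z * DZ Z = 1 := DZ_sq h.det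
  have hmem : ∀ b, LM ((Zk k hZ).map r) *ᵥ b ∈ Lp hZ r := fun b => by
    rw [mem_Lp]
    exact ⟨b, by rw [LM_mulVec]⟩
  have h1 : Ep Z hZ (rs k cc) ≤ Ep Z hZ r := by
    rw [Ep_cc]
    refine Epl_opp (T := DZ Z) DZ_mem hDD (hpos h) fun b hb => ?_
    exact LM_inj (real_opp h hZ hr (hmem b) (c := -1) (by rw [hb, neg_one_smul]))
  have h2 : Ep Z hZ (rs k (RingEquiv.refl ℂ)) ≤ Ep Z hZ r := by
    rw [Ep_one]
    refine Epl_opp (T := -DZ Z) ((LZ Z).neg_mem DZ_mem) (by rw [neg_mul_neg, hDD])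
      (fun v hv => hneg h v (by rw [← hv, neg_mulVec, neg_neg, ← neg_mulVec, hv])) fun b hb => ?_
    refine LM_inj (real_opp h hZ hr (hmem b) (c := 1) ?_)
    rw [neg_mulVec] at hb
    rw [one_smul]
    exact neg_injective hb
  exact ⟨(Submodule.eq_of_le_of_finrank_eq h2 (Ep_rank hZ r).symm).symm,
    (Submodule.eq_of_le_of_finrank_eq h1 (by rw [Ep_rank hZ r, Ep_rank hZ (rs k cc)])).symm⟩

/-- Families of subspaces over fields of odd degree. -/
theorem blocks_odd [Countable k] (hodd : Odd (finrank ℚ k)) {B : Type*} [Fintype B]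
    [DecidableEq B] (P : (k →+* ℂ) → Submodule ℂ (Matrix B B ℂ))
    (hP : ∀ (τ : ℂ ≃+* ℂ) (p : k →+* ℂ), P ((τ : ℂ →+* ℂ).comp p) = cjM τ (P p))
    (hbar : ∀ p, P ((cc : ℂ →+* ℂ).comp p) = P p)
    (hreal : ∀ p, (cc : ℂ →+* ℂ).comp p = p → P p = P (rs k (RingEquiv.refl ℂ)))
    (p : k →+* ℂ) : P p = P (rs k (RingEquiv.refl ℂ)) := by
  classical
  have : FiniteDimensional ℚ k := Module.finite_of_finrank_pos hodd.pos
  have : NumberField k := ⟨⟩
  have hcard : Fintype.card (k →+* ℂ) = finrank ℚ k := NumberField.Embeddings.card k ℂ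
  obtain ⟨ι, hι⟩ : ∃ ι, ι = rs k (RingEquiv.refl ℂ) := ⟨_, rfl⟩
  rw [← hι] at hreal ⊢
  -- the class of the identity is odd
  have hodd1 : Odd (Finset.univ.filter fun q : k →+* ℂ => P q = P ι).card := by
    have h1 := Finset.card_filter_add_card_filter_not (s := (Finset.univ : Finset (k →+* ℂ)))
      fun q => P q = P ι
    rw [Finset.card_univ, hcard] at h1
    have h2 : ¬ Odd (Finset.univ.filter fun q : k →+* ℂ => ¬ P q = P ι).card := by
      intro h3
      obtain ⟨r, hr', hrr⟩ := odd_fix _ h3 (fun q => (cc : ℂ →+* ℂ).comp q) (fun q hq => by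
        rw [Finset.mem_filter] at hq ⊢
        exact ⟨Finset.mem_univ _, by rw [hbar]; exact hq.2⟩) fun q => cc_comp q
      rw [Finset.mem_filter] at hr'
      exact hr'.2 (hreal r hrr)
    rw [Nat.not_odd_iff_even] at h2
    by_contra h3
    rw [Nat.not_odd_iff_even] at h3
    rw [← h1] at hodd
    exact (Nat.not_even_iff_odd.2 hodd) (h3.add h2)
  obtain ⟨τ, hτ⟩ := exists_aut_emb' ι p
  have hinj : Function.Injective fun q : k →+* ℂ => (τ : ℂ →+* ℂ).comp q := by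
    intro q q' hq
    rw [← symm_comp τ q, ← symm_comp τ q']
    exact congrArg (fun q : k →+* ℂ => (τ.symm : ℂ →+* ℂ).comp q) hq
  have hS' : Odd ((Finset.univ.filter fun q : k →+* ℂ => P q = P ι).image
      fun q => (τ : ℂ →+* ℂ).comp q).card := by
    rwa [Finset.card_image_of_injective _ hinj]
  have hmem : ∀ q, q ∈ ((Finset.univ.filter fun q : k →+* ℂ => P q = P ι).image
      fun q => (τ : ℂ →+* ℂ).comp q) ↔ P q = P p := by
    intro q
    rw [Finset.mem_image]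
    constructor
    · rintro ⟨q', hq', rfl⟩
      rw [hP, (Finset.mem_filter.1 hq').2, ← hP, hτ]
    · intro hq
      have h2 : (τ : ℂ →+* ℂ).comp ((τ.symm : ℂ →+* ℂ).comp q) = q := by
        ext x
        exact τ.apply_symm_apply _
      refine ⟨(τ.symm : ℂ →+* ℂ).comp q, Finset.mem_filter.2 ⟨Finset.mem_univ _, ?_⟩, h2⟩
      rw [hP, hq, ← hP, ← hτ, symm_comp]
  obtain ⟨r, hr1, hrr⟩ := odd_fix _ hS' (fun q => (cc : ℂ →+* ℂ).comp q) (fun q hq => by
    rw [hmem] at hq ⊢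
    rw [hbar, hq]) fun q => cc_comp q
  rw [hmem] at hr1
  rw [← hr1]
  exact hreal r hrr

/-- **All the Pluecker spans agree.** -/
theorem Ep_all [Countable k] (hE : Odd (finrank ℚ k) ∨ (RealMoves k ∧ NoImagQuad k)) (h : PM Z)
    (hZ : ∀ i j, Z i j ∈ k) (p : k →+* ℂ) :
    Ep Z hZ p = Ep Z hZ (rs k (RingEquiv.refl ℂ)) := by
  have h0 : Ep Z hZ (rs k cc) = Ep Z hZ (rs k (RingEquiv.refl ℂ)) := by
    rcases hE with hodd | ⟨h1, h2⟩
    · obtain ⟨r, hr⟩ := hasReal_odd hodd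
      have hr' : (cc : ℂ →+* ℂ).comp r = r := by
        ext x
        exact cc_of_im hr x
      obtain ⟨h1, h2⟩ := Ep_real h hZ hr'
      rw [← h2, h1]
    · exact blocks_cm h1 h2 (Ep Z hZ) (Ep_cj hZ) (Ep_bar h hZ)
  have hbar : ∀ p, Ep Z hZ ((cc : ℂ →+* ℂ).comp p) = Ep Z hZ p := by
    intro p
    obtain ⟨σ, hσ⟩ := exists_aut_emb' (rs k (RingEquiv.refl ℂ)) p
    have h1 : rs k σ = p := hσ
    rw [← h1, ← Ep_bar h hZ]
    have h2 : rs k (cc.trans σ) = (σ : ℂ →+* ℂ).comp (rs k cc) := rfl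
    have h3 : rs k σ = (σ : ℂ →+* ℂ).comp (rs k (RingEquiv.refl ℂ)) := rfl
    rw [h2, h3, Ep_cj, Ep_cj, h0]
  rcases hE with hodd | ⟨h1, h2⟩
  · exact blocks_odd hodd _ (Ep_cj hZ) hbar (fun r hr => (Ep_real h hZ hr).1) p
  · have h3 := fun p => blocks_eq h1 _ (Ep_cj hZ) hbar (fun r hr => by
      rw [(Ep_real h hZ hr).1]
      exact h0.symm) p
    rw [h3 p, ← h0]
    exact (h3 _).symm

end

end Pool.Agent.N994.PG
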