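import Mathlib
import Pool.Agent.N994.PG.KF

/-!
# Simultaneous translates in general position
-/

set_option linter.unusedSectionVars false

namespace Pool.Agent.N994.PG

open Matrix Module Pool.Agent.W437.HC Pool.Agent.W437.HD Pool.Agent.TH504.CB Pool.Agent.Y90
  Pool.Agent.R915
open Pool.Agent.W548.Odd hiding cv
open Pool.Agent.N994.PF (rs Zk InL Ed Sys PP PP_eq comb card_emb)
open Pool.Agent.Y4 (exists_aut_emb)

open scoped ComplexOrder

noncomputable section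

section path

variable {B : Type*} [Fintype B] [DecidableEq B] {L : Submodule ℂ (Matrix B B ℂ)} {d : ℕ}

open Polynomial in
theorem eval_det_poly (Ψ : Matrix B B ℂ[X]) (R : Matrix (Fin d) B ℂ) (A : Matrix B (Fin d) ℂ) :
    ∃ p : ℂ[X], ∀ s : ℂ, p.eval s = det (R * (Ψ.map (evalRingHom s) * A)) := by
  refine ⟨det (R.map C * (Ψ * A.map C)), fun s => ?_⟩
  have e1 := RingHom.map_det (evalRingHom s) (R.map C * (Ψ * A.map C))
  have e2 : (evalRingHom s).mapMatrix (R.map C * (Ψ * A.map C)) =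
      R * (Ψ.map (evalRingHom s) * A) := by
    rw [RingHom.mapMatrix_apply, Matrix.map_mul, Matrix.map_mul]
    congr 1
    · ext i j
      simp
    · congr 1
      ext i j
      simp
  rw [e2] at e1
  exact e1

open Polynomial in
/-- Finitely many open conditions. -/
theorem exists_finset {ι : Type*} [DecidableEq ι] (hbr : ∀ X ∈ L, ∀ Y ∈ L, X * Y - Y * X ∈ L)
    (S : Finset ι) (R : ι → Matrix (Fin d) B ℂ) (A : ι → Matrix B (Fin d) ℂ)
    (hγ : ∀ i, ∃ γ ∈ GrU L, det (R i * (γ * A i)) ≠ 0) :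
    ∃ γ, PC L γ ∧ ∀ i ∈ S, det (R i * (γ * A i)) ≠ 0 := by
  induction S using Finset.induction_on with
  | empty => exact ⟨1, PC.one, fun i hi => absurd hi (Finset.notMem_empty _)⟩
  | insert i S hi ih =>
    obtain ⟨γ₀, h₀, g₀⟩ := ih
    obtain ⟨γ₁, h₁, g₁⟩ := hγ i
    obtain ⟨Φ₀, q₀, a1, a2, a3, a4, a5⟩ := h₀.gen
    obtain ⟨Φ₁, q₁, b1, b2, b3, b4, b5⟩ := (exists_path' hbr h₁).gen
    obtain ⟨Ψ, hΨ⟩ : ∃ Ψ, Ψ = Φ₁ * Φ₀.map (compRingHom (1 - X)) := ⟨_, rfl⟩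
    have key : ∀ t : ℂ, Ψ.map (evalRingHom t) = Φ₁.map (evalRingHom t) *
        Φ₀.map (evalRingHom (1 - t)) := by
      intro t
      rw [hΨ, Matrix.map_mul]
      congr 1
      ext i j
      simp [eval_comp]
    choose P hP using fun j : ι => eval_det_poly Ψ (R j) (A j)
    have hP0 : ∀ j ∈ insert i S, P j ≠ 0 := by
      intro j hj h0
      rw [Finset.mem_insert] at hj
      rcases hj with rfl | hj
      · have h1 := hP j 1
        rw [h0, eval_zero, key, b4, sub_self, a3, mul_one] at h1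
        exact g₁ h1.symm
      · have h1 := hP j 0
        rw [h0, eval_zero, key, b3, sub_zero, a4, one_mul] at h1
        exact g₀ j hj h1.symm
    have hq0 : q₁ * q₀.comp (1 - X) ≠ 0 := by
      intro h0
      have h1 := congrArg (eval 0) h0
      rw [eval_mul, eval_comp, eval_zero] at h1
      have h2 : eval 0 (1 - X : ℂ[X]) = 1 := by simp
      rw [h2] at h1
      exact mul_ne_zero b1 a2 h1
    have hprod : (q₁ * q₀.comp (1 - X)) * ∏ j ∈ insert i S, P j ≠ 0 :=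
      mul_ne_zero hq0 (Finset.prod_ne_zero_iff.2 hP0)
    obtain ⟨t, ht⟩ : ∃ t, ((q₁ * q₀.comp (1 - X)) * ∏ j ∈ insert i S, P j).eval t ≠ 0 := by
      by_contra hcon
      push Not at hcon
      exact hprod (Polynomial.funext fun s => by rw [hcon s, eval_zero])
    rw [eval_mul, eval_mul, eval_comp, eval_prod] at ht
    have h2 : eval t (1 - X : ℂ[X]) = 1 - t := by simp
    rw [h2] at ht
    refine ⟨Ψ.map (evalRingHom t), ?_, fun j hj => ?_⟩
    · rw [key]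
      exact (b5 t (left_ne_zero_of_mul (left_ne_zero_of_mul ht))).mul
        (a5 _ (right_ne_zero_of_mul (left_ne_zero_of_mul ht)))
    · rw [← hP]
      exact Finset.prod_ne_zero_iff.1 (right_ne_zero_of_mul ht) j hj

open Polynomial in
theorem PC.nn {γ : Matrix B B ℂ} (h : PC L γ) : NN L γ := by
  obtain ⟨Φ, q, h1, h1', h2, h3, h4⟩ := h
  rw [← h3]
  exact h4 1 h1'

end path

variable {g : ℕ} {Z : Matrix (Fin g) (Fin g) ℂ} {k : IntermediateField ℚ ℂ}

/-- Translates of the conjugate subspaces in general position. -/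
structure GT (Z : Matrix (Fin g) (Fin g) ℂ) (hZ : ∀ i j, Z i j ∈ k)
    (γ δ : Matrix (Fin g ⊕ Fin g) (Fin g ⊕ Fin g) ℂ)
    (x : (k →+* ℂ) → Matrix (Fin g ⊕ Fin g) (Fin g ⊕ Fin g) ℂ) : Prop where
  gd : γ * δ = 1
  dg : δ * γ = 1
  st : ∀ V : Submodule ℂ (Fin g ⊕ Fin g → ℂ), Stab (LZ Z) V → ∀ v ∈ V, γ *ᵥ v ∈ V ∧ δ *ᵥ v ∈ V
  mem : ∀ p, x p ∈ LZ Z
  xl : ∀ p, DZ Z * x p = x p
  xr : ∀ p, x p * DZ Z = -x p
  gr : ∀ p v, δ *ᵥ v ∈ Lp hZ p ↔ ∃ w, DZ Z *ᵥ w = -w ∧ v = w + x p *ᵥ w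

/-- **Translates of the conjugate subspaces in general position.** -/
theorem exists_GT [Countable k] [Finite (k →+* ℂ)]
    (hE : Odd (finrank ℚ k) ∨ (RealMoves k ∧ NoImagQuad k)) (h : PM Z) (hZ : ∀ i j, Z i j ∈ k) :
    ∃ γ δ x, GT Z hZ γ δ x := by
  classical
  have _ := Fintype.ofFinite (k →+* ℂ)
  have hbr : ∀ X ∈ LZ Z, ∀ Y ∈ LZ Z, X * Y - Y * X ∈ LZ Z := fun X hX Y hY => LZ_br hX hY
  have hDD : DZ Z * DZ Z = 1 := DZ_sq h.det
  obtain ⟨γ, hγ, hdet⟩ := exists_finset hbr (Finset.univ : Finset ((k →+* ℂ) × Bool))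
    (fun i => if i.2 then RM Z else RM (Z.map cc)) (fun i => LM ((Zk k hZ).map i.1)) (by
      rintro ⟨p, b⟩
      have h1 : Epl (LZ Z) (LM ((Zk k hZ).map p)) = Epl (LZ Z) (LM Z) := by
        rw [← Ep_one hZ]
        exact Ep_all hE h hZ p
      have h2 : Epl (LZ Z) (LM ((Zk k hZ).map p)) = Epl (LZ Z) (LM (Z.map cc)) := by
        rw [h1, ← Ep_one hZ, ← Ep_cc hZ, Ep_all hE h hZ (rs k cc)]
      cases b
      · refine exists_transl h1 ?_
        change det (RM (Z.map cc) * LM Z) ≠ 0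
        rw [RM_LM]
        exact det_sub_ne' h
      · refine exists_transl h2 ?_
        change det (RM Z * LM (Z.map cc)) ≠ 0
        rw [RM_LM]
        exact det_sub_ne h)
  obtain ⟨δ, hγδ, hδγ, hnorm, hst⟩ := hγ.nn
  have hdet0 : ∀ (R : Matrix (Fin g) (Fin g ⊕ Fin g) ℂ) (A : Matrix (Fin g ⊕ Fin g) (Fin g) ℂ),
      det (R * A) ≠ 0 → ∀ b, R *ᵥ (A *ᵥ b) = 0 → b = 0 := by
    intro R A hRA b hb
    rw [mulVec_mulVec] at hb
    by_contra hb0
    exact hRA (Matrix.exists_mulVec_eq_zero_iff.1 ⟨b, hb0, hb⟩)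
  have hRL : ∀ (M : Matrix (Fin g) (Fin g) ℂ) (b : Fin g → ℂ), RM M *ᵥ (LM M *ᵥ b) = 0 := by
    intro M b
    rw [mulVec_mulVec, RM_LM, sub_self, zero_mulVec]
  have key : ∀ p : k →+* ℂ, ∃ x ∈ LZ Z, DZ Z * x = x ∧ x * DZ Z = -x ∧
      ∀ v, δ *ᵥ v ∈ Lp hZ p ↔ ∃ w, DZ Z *ᵥ w = -w ∧ v = w + x *ᵥ w := by
    intro p
    obtain ⟨σ, hσ⟩ := exists_aut_emb' (rs k (RingEquiv.refl ℂ)) p
    have hσ' : rs k σ = p := hσ
    have hT₃ := hnorm _ (DS_mem (Z := Z) σ)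
    have hTT₃ : (γ * DS Z σ * δ) * (γ * DS Z σ * δ) = 1 := by
      calc (γ * DS Z σ * δ) * (γ * DS Z σ * δ) = γ * DS Z σ * (δ * γ) * DS Z σ * δ := by
            noncomm_ring
      _ = γ * (DS Z σ * DS Z σ) * δ := by rw [hδγ]; noncomm_ring
      _ = 1 := by rw [DS_sq h.det, mul_one, hγδ]
    have hback : ∀ (v : Fin g ⊕ Fin g → ℂ) (c : ℂ), (γ * DS Z σ * δ) *ᵥ v = c • v →
        DS Z σ *ᵥ (δ *ᵥ v) = c • (δ *ᵥ v) ∧ v = γ *ᵥ (δ *ᵥ v) := by
      intro v c hv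
      have e1 := congrArg (fun u => δ *ᵥ u) hv
      beta_reduce at e1
      rw [mulVec_mulVec, ← mul_assoc, ← mul_assoc, hδγ, one_mul, ← mulVec_mulVec,
        mulVec_smul] at e1
      exact ⟨e1, by rw [mulVec_mulVec, hγδ, one_mulVec]⟩
    have hTT : (-DZ Z) * (-DZ Z) = 1 := by rw [neg_mul_neg, hDD]
    obtain ⟨x, hx, hTx, hxT, hgr⟩ := exists_unip hbr ((LZ Z).neg_mem DZ_mem) hTT hT₃ hTT₃
      (fun v g1 g2 => by
        rw [neg_mulVec] at g1
        obtain ⟨b, hb⟩ := hpos h v (neg_injective g1)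
        obtain ⟨e1, e2⟩ := hback v (-1) (by rw [g2, neg_one_smul])
        rw [neg_one_smul, ← mem_neg h hZ, mem_Lp] at e1
        obtain ⟨b', hb'⟩ := e1
        rw [← LM_mulVec] at hb'
        have e3 : RM (Z.map cc) *ᵥ v = 0 := by rw [hb, hRL]
        rw [e2, hb', mulVec_mulVec b'] at e3
        have e4 := hdet0 _ _ (hdet (rs k σ, false) (Finset.mem_univ _)) b' e3
        rw [e2, hb', e4, mulVec_zero, mulVec_zero])
      (fun v g1 g2 => by
        rw [neg_mulVec] at g1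
        obtain ⟨b, hb⟩ := hneg h v (by rw [← g1, neg_neg, g1])
        obtain ⟨e1, e2⟩ := hback v 1 (by rw [g2, one_smul])
        rw [one_smul, ← mem_pos h hZ, mem_Lp] at e1
        obtain ⟨b', hb'⟩ := e1
        rw [← LM_mulVec] at hb'
        have e3 : RM Z *ᵥ v = 0 := by rw [hb, hRL]
        rw [e2, hb', mulVec_mulVec b'] at e3
        have e4 := hdet0 _ _ (hdet (rs k (cc.trans σ), true) (Finset.mem_univ _)) b' e3
        rw [e2, hb', e4, mulVec_zero, mulVec_zero])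
    refine ⟨x, hx, ?_, ?_, fun v => ?_⟩
    · rw [neg_mul] at hTx
      exact neg_injective hTx
    · rw [mul_neg] at hxT
      rw [← hxT, neg_neg, hxT]
    · rw [← hσ', mem_neg h hZ]
      constructor
      · intro hv
        have e1 : (γ * DS Z σ * δ) *ᵥ v = -v := by
          rw [← mulVec_mulVec, ← mulVec_mulVec, hv, mulVec_neg, mulVec_mulVec, hγδ, one_mulVec]
        obtain ⟨w, hw, hv'⟩ := (hgr v).1 e1
        refine ⟨w, ?_, hv'⟩
        rw [neg_mulVec] at hw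
        rw [← hw, neg_neg, hw]
      · rintro ⟨w, hw, hv⟩
        have e1 := (hgr v).2 ⟨w, by rw [neg_mulVec, hw, neg_neg], hv⟩
        have e2 := (hback v (-1) (by rw [e1, neg_one_smul])).1
        rw [e2, neg_one_smul]
  choose x h1 h2 h3 h4 using key
  exact ⟨γ, δ, x, hγδ, hδγ, hst, h1, h2, h3, h4⟩

end

end Pool.Agent.N994.PG
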