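import Mathlib
import Pool.Agent.R915.E5

/-!
# Irreducible representations of algebras with quadratic relations
-/

set_option linter.unusedSectionVars false

namespace Pool.Agent.N994.PG

open Matrix Module Pool.Agent.Y90 Pool.Agent.R915

noncomputable section

variable {E : Type*} [AddCommGroup E] [Module ℂ E] [FiniteDimensional ℂ E] {ι : Type*}
  [DecidableEq ι]

/-- The span of the monomials. -/
theorem exists_mono (S : Finset ι) (y : ι → Module.End ℂ E)
    (hrel : ∀ i ∈ S, ∀ j ∈ S, ∃ α β c : ℂ, y i * y j + y j * y i =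
      α • y i + β • y j + c • (1 : Module.End ℂ E)) :
    ∃ V : Submodule ℂ (Module.End ℂ E), (1 : Module.End ℂ E) ∈ V ∧
      (∀ i ∈ S, ∀ M ∈ V, y i * M ∈ V) ∧ finrank ℂ V ≤ 2 ^ S.card := by
  induction S using Finset.induction_on with
  | empty =>
    refine ⟨Submodule.span ℂ {1}, Submodule.mem_span_singleton_self _,
      fun i hi => absurd hi (Finset.notMem_empty _), ?_⟩
    rw [Finset.card_empty, pow_zero]
    exact (finrank_span_le_card _).trans (by simp)
  | insert i S hi ih =>
    obtain ⟨V, h1, h2, h3⟩ := ih fun i hi j hj => hrel i (Finset.mem_insert_of_mem hi) j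
      (Finset.mem_insert_of_mem hj)
    refine ⟨V ⊔ V.map (LinearMap.mulLeft ℂ (y i)), Submodule.mem_sup_left h1, ?_, ?_⟩
    · have hV : ∀ M ∈ V, M ∈ V ⊔ V.map (LinearMap.mulLeft ℂ (y i)) := fun M hM =>
        Submodule.mem_sup_left hM
      have hV' : ∀ M ∈ V, y i * M ∈ V ⊔ V.map (LinearMap.mulLeft ℂ (y i)) := fun M hM =>
        Submodule.mem_sup_right ⟨M, hM, rfl⟩
      have hyy : ∀ M ∈ V, y i * (y i * M) ∈ V ⊔ V.map (LinearMap.mulLeft ℂ (y i)) := by
        intro M hM
        obtain ⟨α, β, c, h4⟩ := hrel i (Finset.mem_insert_self _ _) i (Finset.mem_insert_self _ _)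
        have h5 : y i * (y i * M) = (2 : ℂ)⁻¹ • ((α + β) • (y i * M) + c • M) := by
          have h6 : (2 : ℂ) • (y i * y i) = (α + β) • y i + c • (1 : Module.End ℂ E) := by
            rw [two_smul, h4, add_smul]
          have h7 : y i * (y i * M) = (2 : ℂ)⁻¹ • (((2 : ℂ) • (y i * y i)) * M) := by
            rw [smul_mul_assoc, smul_smul, inv_mul_cancel₀ two_ne_zero, one_smul, mul_assoc]
          rw [h7, h6, add_mul, smul_mul_assoc, smul_mul_assoc, one_mul]
        rw [h5]
        exact Submodule.smul_mem _ _ (Submodule.add_mem _ (Submodule.smul_mem _ _ (hV' M hM))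
          (Submodule.smul_mem _ _ (hV M hM)))
      have hyj : ∀ j ∈ S, ∀ M ∈ V, y j * (y i * M) ∈ V ⊔ V.map (LinearMap.mulLeft ℂ (y i)) := by
        intro j hj M hM
        obtain ⟨α, β, c, h4⟩ := hrel j (Finset.mem_insert_of_mem hj) i (Finset.mem_insert_self _ _)
        have h5 : y j * (y i * M) = α • (y j * M) + β • (y i * M) + c • M - y i * (y j * M) := by
          have h6 : y j * y i = α • y j + β • y i + c • (1 : Module.End ℂ E) - y i * y j := by
            rw [← h4, add_sub_cancel_right]
          rw [← mul_assoc, h6, sub_mul, add_mul, add_mul, smul_mul_assoc, smul_mul_assoc,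
            smul_mul_assoc, one_mul, mul_assoc]
        rw [h5]
        exact Submodule.sub_mem _ (Submodule.add_mem _ (Submodule.add_mem _
          (Submodule.smul_mem _ _ (hV _ (h2 j hj M hM))) (Submodule.smul_mem _ _ (hV' M hM)))
          (Submodule.smul_mem _ _ (hV M hM))) (hV' _ (h2 j hj M hM))
      intro j hj M hM
      obtain ⟨A, hA, _, ⟨C, hC, rfl⟩, rfl⟩ := Submodule.mem_sup.1 hM
      rw [LinearMap.mulLeft_apply, mul_add]
      rw [Finset.mem_insert] at hj
      rcases hj with rfl | hj
      · exact Submodule.add_mem _ (hV' A hA) (hyy C hC)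
      · exact Submodule.add_mem _ (hV _ (h2 j hj A hA)) (hyj j hj C hC)
    · have h4 := Submodule.finrank_add_le_finrank_add_finrank V
        (V.map (LinearMap.mulLeft ℂ (y i)))
      have h5 := Submodule.finrank_map_le (LinearMap.mulLeft ℂ (y i)) V
      rw [Finset.card_insert_of_notMem hi, pow_succ]
      have h6 : finrank ℂ (V ⊔ V.map (LinearMap.mulLeft ℂ (y i)) :
          Submodule ℂ (Module.End ℂ E)) ≤ finrank ℂ V +
          finrank ℂ (V.map (LinearMap.mulLeft ℂ (y i))) := h4
      omega

/-- **Irreducible representations**. -/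
theorem cliff_end [Nontrivial E] (S : Finset ι) (y : ι → Module.End ℂ E)
    (hrel : ∀ i ∈ S, ∀ j ∈ S, ∃ α β c : ℂ, y i * y j + y j * y i =
      α • y i + β • y j + c • (1 : Module.End ℂ E))
    (hirr : ∀ T : Submodule ℂ E, (∀ i ∈ S, ∀ v ∈ T, y i v ∈ T) → T = ⊥ ∨ T = ⊤) :
    finrank ℂ E * finrank ℂ E ≤ 2 ^ S.card := by
  obtain ⟨V, h1, h2, h3⟩ := exists_mono S y hrel
  -- Burnside's theorem
  let b := finBasis ℂ E
  let Λ := LinearMap.toMatrixAlgEquiv b
  have hΛ : ∀ (f : Module.End ℂ E) (v : E), Λ f *ᵥ b.equivFun v = b.equivFun (f v) := by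
    intro f v
    exact LinearMap.toMatrix_mulVec_repr b b f v
  let L : Submodule ℂ (Matrix (Fin (finrank ℂ E)) (Fin (finrank ℂ E)) ℂ) :=
    Submodule.span ℂ {X | ∃ i ∈ S, X = Λ (y i)}
  have hI : IrS L (⊤ : Submodule ℂ (Fin (finrank ℂ E) → ℂ)) := by
    refine ⟨?_, fun X _ u _ => Submodule.mem_top, fun N _ hN => ?_⟩
    · intro h0
      obtain ⟨v, hv⟩ := exists_ne (0 : E)
      have h4 : b.equivFun v ∈ (⊤ : Submodule ℂ (Fin (finrank ℂ E) → ℂ)) := Submodule.mem_top
      rw [h0, Submodule.mem_bot] at h4
      exact hv (b.equivFun.injective (by rw [h4, map_zero]))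
    · rcases hirr (N.comap b.equivFun.toLinearMap) (fun i hi v hv => by
        change b.equivFun (y i v) ∈ N
        rw [← hΛ]
        exact hN _ (Submodule.subset_span ⟨i, hi, rfl⟩) _ hv) with h4 | h4
      · left
        rw [Submodule.eq_bot_iff]
        intro w hw
        have h5 : b.equivFun.symm w ∈ N.comap b.equivFun.toLinearMap := by
          change b.equivFun (b.equivFun.symm w) ∈ N
          rwa [LinearEquiv.apply_symm_apply]
        rw [h4, Submodule.mem_bot] at h5
        rw [← b.equivFun.apply_symm_apply w, h5, map_zero]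
      · right
        rw [Submodule.eq_top_iff']
        intro w
        have h5 : b.equivFun.symm w ∈ N.comap b.equivFun.toLinearMap := by
          rw [h4]
          exact Submodule.mem_top
        change b.equivFun (b.equivFun.symm w) ∈ N at h5
        rwa [LinearEquiv.apply_symm_apply] at h5
  have hadj : ∀ X ∈ Algebra.adjoin ℂ (L : Set (Matrix (Fin (finrank ℂ E))
      (Fin (finrank ℂ E)) ℂ)), ∀ M ∈ V, Λ.symm X * M ∈ V := by
    intro X hX
    induction hX using Algebra.adjoin_induction with
    | mem X hX =>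
      intro M hM
      have hX' : X ∈ Submodule.span ℂ {X | ∃ i ∈ S, X = Λ (y i)} := hX
      induction hX' using Submodule.span_induction with
      | mem X h4 =>
        obtain ⟨i, hi, rfl⟩ := h4
        rw [AlgEquiv.symm_apply_apply]
        exact h2 i hi M hM
      | zero => rw [map_zero, zero_mul]; exact V.zero_mem
      | add X Y hX0 hY0 hX1 hY1 =>
        rw [map_add, add_mul]
        exact V.add_mem (hX1 hX0) (hY1 hY0)
      | smul c X hX0 hX1 =>
        rw [map_smul, smul_mul_assoc]
        exact V.smul_mem _ (hX1 hX0)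
    | algebraMap c =>
      intro M hM
      rw [AlgEquiv.commutes, Algebra.algebraMap_eq_smul_one, smul_mul_assoc, one_mul]
      exact V.smul_mem _ hM
    | add X Y _ _ hX hY =>
      intro M hM
      rw [map_add, add_mul]
      exact V.add_mem (hX M hM) (hY M hM)
    | mul X Y _ _ hX hY =>
      intro M hM
      rw [map_mul, mul_assoc]
      exact hX _ (hY M hM)
  have htop : V = ⊤ := by
    rw [Submodule.eq_top_iff']
    intro f
    obtain ⟨N, hN, hNf⟩ := burnside hI ((mulVecLin (Λ f)).restrict fun u _ => Submodule.mem_top)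
    have h4 : N = Λ f := by
      refine Matrix.toLin'.injective (LinearMap.ext fun v => ?_)
      rw [toLin'_apply, toLin'_apply]
      exact hNf ⟨v, Submodule.mem_top⟩
    have h5 := hadj N hN 1 h1
    rwa [h4, AlgEquiv.symm_apply_apply, mul_one] at h5
  rw [htop, finrank_top, Module.finrank_linearMap] at h3
  exact h3

end

end Pool.Agent.N994.PG
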