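import Mathlib
import Pool.Agent.N994.PG.KG
import Pool.Agent.N994.PG.KH
import Pool.Agent.N994.PG.JJ

/-!
# Spin factors and the degree of the period field
-/

set_option linter.unusedSectionVars false

namespace Pool.Agent.N994.PG

open Matrix Module Pool.Agent.W437.HC Pool.Agent.W437.HD Pool.Agent.TH504.CB Pool.Agent.Y90
  Pool.Agent.R915
open Pool.Agent.W548.Odd hiding cv
open Pool.Agent.N994.PF (rs Zk InL Ed Sys PP PP_eq comb card_emb)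
open Pool.Agent.Y4 (exists_aut_emb)

open scoped ComplexOrder

noncomputable section

variable {g : ℕ} {Z : Matrix (Fin g) (Fin g) ℂ} {k : IntermediateField ℚ ℂ}
  {U : Submodule ℂ (Fin g ⊕ Fin g → ℂ)}

/-- The elements of positive degree. -/
def Ps (Z : Matrix (Fin g) (Fin g) ℂ) : Submodule ℂ (Matrix (Fin g ⊕ Fin g) (Fin g ⊕ Fin g) ℂ) where
  carrier := {X | X ∈ LZ Z ∧ DZ Z * X = X ∧ X * DZ Z = -X}
  zero_mem' := ⟨(LZ Z).zero_mem, mul_zero _, by rw [zero_mul, neg_zero]⟩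
  add_mem' := fun {X Y} hX hY => ⟨(LZ Z).add_mem hX.1 hY.1, by rw [mul_add, hX.2.1, hY.2.1],
    by rw [add_mul, hX.2.2, hY.2.2, neg_add]⟩
  smul_mem' := fun c X hX => ⟨(LZ Z).smul_mem c hX.1, by rw [Matrix.mul_smul, hX.2.1],
    by rw [Matrix.smul_mul, hX.2.2, smul_neg]⟩

/-- The action of the elements of positive degree. -/
def rP (hU : Stab (LZ Z) U) : Ps Z →ₗ[ℂ] ((U ⊓ eig Z (-1) : Submodule ℂ _) →ₗ[ℂ]
    (U ⊓ eig Z 1 : Submodule ℂ (Fin g ⊕ Fin g → ℂ))) where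
  toFun := fun X => (mulVecLin (X : Matrix (Fin g ⊕ Fin g) (Fin g ⊕ Fin g) ℂ)).restrict
    fun w hw => ⟨hU X X.2.1 w hw.1, by
      change DZ Z *ᵥ (X.1 *ᵥ w) = (1 : ℂ) • (X.1 *ᵥ w)
      rw [mulVec_mulVec, X.2.2.1, one_smul]⟩
  map_add' := fun X Y => by
    ext1 w
    refine Subtype.ext ?_
    change (X.1 + Y.1) *ᵥ _ = X.1 *ᵥ _ + Y.1 *ᵥ _
    rw [add_mulVec]
  map_smul' := fun c X => by
    ext1 w
    refine Subtype.ext ?_
    change (c • X.1) *ᵥ _ = c • X.1 *ᵥ _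
    rw [smul_mulVec]

theorem rP_apply (hU : Stab (LZ Z) U) (X : Ps Z)
    (w : (U ⊓ eig Z (-1) : Submodule ℂ (Fin g ⊕ Fin g → ℂ))) :
    ((rP hU X w : (U ⊓ eig Z 1 : Submodule ℂ (Fin g ⊕ Fin g → ℂ))) : Fin g ⊕ Fin g → ℂ) =
      X.1 *ᵥ (w : Fin g ⊕ Fin g → ℂ) := rfl

/-- **The degree of the period field.** -/
theorem spin_bound [Countable k] (hE : Odd (finrank ℚ k) ∨ (RealMoves k ∧ NoImagQuad k))
    (h : PM Z) (hZ : ∀ i j, Z i j ∈ k) (hn : 0 < finrank ℚ k) (hU : IrS (LZ Z) U)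
    (hs : SpinRel Z U) {j : ℕ} (hj : finrank ℂ U = 2 * 2 ^ j) : 2 * j + 2 ≤ finrank ℚ k := by
  classical
  have : FiniteDimensional ℚ k := Module.finite_of_finrank_pos hn
  have : NumberField k := ⟨⟩
  have hcard : Fintype.card (k →+* ℂ) = finrank ℚ k := NumberField.Embeddings.card k ℂ
  obtain ⟨γ, δ, x, G⟩ := exists_GT hE h hZ
  obtain ⟨ι, hι⟩ : ∃ ι, ι = rs k (RingEquiv.refl ℂ) := ⟨_, rfl⟩
  obtain ⟨κ, hκ⟩ : ∃ κ, κ = rs k cc := ⟨_, rfl⟩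
  have hLι : ∀ v, v ∈ Lp hZ ι ↔ DZ Z *ᵥ v = -v := fun v => by
    rw [hι, mem_neg h hZ, DS_refl]
  have hLκ : ∀ v, v ∈ Lp hZ κ ↔ DZ Z *ᵥ v = v := fun v => by
    have h1 := mem_pos h hZ (RingEquiv.refl ℂ) (u := v)
    rw [DS_refl] at h1
    rw [hκ]
    exact h1
  have hem : ∀ v, v ∈ eig Z (-1) ↔ DZ Z *ᵥ v = -v := fun v => by
    change DZ Z *ᵥ v = (-1 : ℂ) • v ↔ _
    rw [neg_one_smul]
  have hep : ∀ v, v ∈ eig Z 1 ↔ DZ Z *ᵥ v = v := fun v => by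
    change DZ Z *ᵥ v = (1 : ℂ) • v ↔ _
    rw [one_smul]
  -- the graphs
  have hxl : ∀ p v, DZ Z *ᵥ (x p *ᵥ v) = x p *ᵥ v := fun p v => by rw [mulVec_mulVec, G.xl]
  have hgr0 : ∀ p w, DZ Z *ᵥ w = -w → w + x p *ᵥ w = 0 → w = 0 := by
    intro p w hw h0
    have h1 := congrArg (fun v => DZ Z *ᵥ v) h0
    beta_reduce at h1
    rw [mulVec_add, hw, hxl, mulVec_zero] at h1
    have h2 : (2 : ℂ) • w = (w + x p *ᵥ w) - (-w + x p *ᵥ w) := by
      rw [two_smul]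
      abel
    rw [h0, h1, sub_zero] at h2
    exact (smul_eq_zero.1 h2).resolve_left two_ne_zero
  have hδ0 : ∀ v, δ *ᵥ v = 0 → v = 0 := by
    intro v hv
    have h1 := congrArg (fun w => γ *ᵥ w) hv
    beta_reduce at h1
    rwa [mulVec_mulVec, G.gd, one_mulVec, mulVec_zero] at h1
  have hinj : ∀ w, DZ Z *ᵥ w = -w → (x κ - x ι) *ᵥ w = 0 → w = 0 := by
    intro w hw h0
    have h1 : w + x κ *ᵥ w = w + x ι *ᵥ w := by
      rw [sub_mulVec, sub_eq_zero] at h0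
      rw [h0]
    have h2 := (hLι _).1 ((G.gr ι _).2 ⟨w, hw, rfl⟩)
    have h3 := (hLκ _).1 ((G.gr κ _).2 ⟨w, hw, rfl⟩)
    rw [h1, h2] at h3
    refine hgr0 ι w hw (hδ0 _ ?_)
    have h4 : (2 : ℂ) • (δ *ᵥ (w + x ι *ᵥ w)) = 0 := by
      rw [two_smul]
      nth_rewrite 1 [← h3]
      rw [neg_add_cancel]
    exact (smul_eq_zero.1 h4).resolve_left two_ne_zero
  -- the dimensions
  have hdim : ∀ p, finrank ℂ (U ⊓ Lp hZ p : Submodule ℂ (Fin g ⊕ Fin g → ℂ)) = qd Z U := by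
    intro p
    have h1 : U ⊓ Lp hZ p = (U ⊓ eig Z (-1)).map (mulVecLin (δ * (1 + x p))) := by
      ext v
      constructor
      · rintro ⟨hv, hv'⟩
        have e1 : v = δ *ᵥ (γ *ᵥ v) := by rw [mulVec_mulVec, G.dg, one_mulVec]
        rw [e1] at hv'
        obtain ⟨w, hw, hw'⟩ := (G.gr p _).1 hv'
        have hγv := (G.st U hU.2.1 v hv).1
        have hwU : w ∈ U := by
          have e2 : (2 : ℂ) • w = γ *ᵥ v - DZ Z *ᵥ (γ *ᵥ v) := by
            rw [hw', mulVec_add, hw, hxl, two_smul]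
            abel
          have e3 : w = (2 : ℂ)⁻¹ • (γ *ᵥ v - DZ Z *ᵥ (γ *ᵥ v)) := by
            rw [← e2, smul_smul, inv_mul_cancel₀ two_ne_zero, one_smul]
          rw [e3]
          exact U.smul_mem _ (U.sub_mem hγv (hU.2.1 _ DZ_mem _ hγv))
        refine ⟨w, ⟨hwU, (hem w).2 hw⟩, ?_⟩
        rw [mulVecLin_apply, ← mulVec_mulVec, add_mulVec, one_mulVec, ← hw', ← e1]
      · rintro ⟨w, ⟨hw, hw'⟩, rfl⟩
        rw [mulVecLin_apply, ← mulVec_mulVec, add_mulVec, one_mulVec]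
        exact ⟨(G.st U hU.2.1 _ (U.add_mem hw (hU.2.1 _ (G.mem p) w hw))).2,
          (G.gr p _).2 ⟨w, (hem w).1 hw', rfl⟩⟩
    rw [h1, finrank_map_of_inj]
    · rfl
    · rintro w ⟨-, hw⟩ h0
      rw [mulVecLin_apply, ← mulVec_mulVec, add_mulVec, one_mulVec] at h0
      exact hgr0 p w ((hem w).1 hw) (hδ0 _ h0)
  have hpq : pd Z U = qd Z U := by
    have e1 : U ⊓ eig Z 1 = U ⊓ Lp hZ κ := by
      ext v
      rw [Submodule.mem_inf, Submodule.mem_inf, hep, hLκ]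
    rw [← hdim κ, ← e1]
    rfl
  have hsum := pd_add_qd h hU.2.1
  have hq : qd Z U = 2 ^ j := by omega
  have hfin : finrank ℂ (U ⊓ eig Z (-1) : Submodule ℂ (Fin g ⊕ Fin g → ℂ)) =
      finrank ℂ (U ⊓ eig Z 1 : Submodule ℂ (Fin g ⊕ Fin g → ℂ)) := hpq.symm
  -- the elements of positive degree
  have hXm : ∀ p, x p - x ι ∈ Ps Z := fun p => ⟨(LZ Z).sub_mem (G.mem p) (G.mem ι),
    by rw [mul_sub, G.xl, G.xl], by rw [sub_mul, G.xr, G.xr]; abel⟩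
  let X : (k →+* ℂ) → Ps Z := fun p => ⟨x p - x ι, hXm p⟩
  have hui : Function.Injective (rP hU.2.1 (X κ)) := by
    rw [injective_iff_map_eq_zero]
    intro w hw
    exact Subtype.ext (hinj _ ((hem _).1 w.2.2) (congrArg Subtype.val hw))
  let uE := LinearMap.linearEquivOfInjective (rP hU.2.1 (X κ)) hui hfin
  have huE : ∀ w, uE w = rP hU.2.1 (X κ) w := fun w => rfl
  let Λ : Ps Z → Module.End ℂ (U ⊓ eig Z (-1) : Submodule ℂ (Fin g ⊕ Fin g → ℂ)) :=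
    fun Y => uE.symm.toLinearMap ∘ₗ rP hU.2.1 Y
  have hΛ : ∀ Y w, rP hU.2.1 (X κ) (Λ Y w) = rP hU.2.1 Y w := fun Y w => by
    rw [← huE]
    exact uE.apply_symm_apply _
  have hΛa : ∀ Y Y', Λ (Y + Y') = Λ Y + Λ Y' := fun Y Y' => by
    change uE.symm.toLinearMap ∘ₗ rP hU.2.1 (Y + Y') = _
    rw [map_add, LinearMap.comp_add]
  have hsq : ∀ Y, ∃ α β : ℂ, Λ Y * Λ Y = α • Λ Y + β • (1 : Module.End ℂ _) := by
    intro Y
    obtain ⟨α, β, hαβ⟩ := hs Y.1 Y.2.1 Y.2.2.1 Y.2.2.2 (X κ).1 (X κ).2.1 (X κ).2.2.1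
      (X κ).2.2.2 (fun v hv hD h0 => hinj v hD h0)
    refine ⟨α, β, LinearMap.ext fun w => ?_⟩
    apply uE.injective
    have h1 : (Y.1 *ᵥ ((Λ Y w : _) : Fin g ⊕ Fin g → ℂ)) = α • (Y.1 *ᵥ (w : Fin g ⊕ Fin g → ℂ)) +
        β • ((X κ).1 *ᵥ (w : Fin g ⊕ Fin g → ℂ)) :=
      hαβ w w.2.1 (Λ Y w) (Λ Y w).2.1 ((hem _).1 w.2.2) ((hem _).1 (Λ Y w).2.2)
        (congrArg Subtype.val (hΛ Y w))
    have h2 : rP hU.2.1 Y (Λ Y w) = α • rP hU.2.1 Y w + β • rP hU.2.1 (X κ) w :=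
      Subtype.ext h1
    calc uE ((Λ Y * Λ Y) w) = rP hU.2.1 Y (Λ Y w) := hΛ Y (Λ Y w)
    _ = α • rP hU.2.1 Y w + β • rP hU.2.1 (X κ) w := h2
    _ = α • uE (Λ Y w) + β • uE w := by rw [huE, huE, hΛ]
    _ = uE (α • Λ Y w + β • w) := by rw [map_add, map_smul, map_smul]
  have hrel : ∀ p q, ∃ α β c : ℂ, Λ (X p) * Λ (X q) + Λ (X q) * Λ (X p) =
      α • Λ (X p) + β • Λ (X q) + c • (1 : Module.End ℂ _) := by
    intro p q
    obtain ⟨a1, b1, e1⟩ := hsq (X p)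
    obtain ⟨a2, b2, e2⟩ := hsq (X q)
    obtain ⟨a3, b3, e3⟩ := hsq (X p + X q)
    rw [hΛa] at e3
    refine ⟨a3 - a1, a3 - a2, b3 - b1 - b2, ?_⟩
    have e4 : Λ (X p) * Λ (X q) + Λ (X q) * Λ (X p) = (Λ (X p) + Λ (X q)) * (Λ (X p) + Λ (X q)) -
        Λ (X p) * Λ (X p) - Λ (X q) * Λ (X q) := by noncomm_ring
    rw [e4, e1, e2, e3]
    module
  have hΛι : ∀ w, Λ (X ι) w = 0 := by
    intro w
    apply hui
    rw [hΛ, map_zero]
    refine Subtype.ext ?_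
    rw [rP_apply]
    change (x ι - x ι) *ᵥ _ = 0
    rw [sub_self, zero_mulVec]
  have hΛκ : ∀ w, Λ (X κ) w = w := by
    intro w
    apply hui
    rw [hΛ]
  have hq0 : 0 < finrank ℂ (U ⊓ eig Z (-1) : Submodule ℂ (Fin g ⊕ Fin g → ℂ)) := by
    change 0 < qd Z U
    rw [hq]
    positivity
  have hnt : Nontrivial (U ⊓ eig Z (-1) : Submodule ℂ (Fin g ⊕ Fin g → ℂ)) :=
    Module.nontrivial_of_finrank_pos hq0
  have hικ : ι ≠ κ := by
    intro h0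
    obtain ⟨w, hw⟩ := _root_.exists_ne (0 : (U ⊓ eig Z (-1) : Submodule ℂ (Fin g ⊕ Fin g → ℂ)))
    apply hw
    rw [← hΛκ w, ← h0, hΛι]
  -- the irreducibility
  have hirr : ∀ T : Submodule ℂ (U ⊓ eig Z (-1) : Submodule ℂ (Fin g ⊕ Fin g → ℂ)),
      (∀ p ∈ ((Finset.univ : Finset (k →+* ℂ)).erase ι).erase κ, ∀ v ∈ T, Λ (X p) v ∈ T) →
      T = ⊥ ∨ T = ⊤ := by
    intro T hT'
    have hT : ∀ p, ∀ v ∈ T, Λ (X p) v ∈ T := by
      intro p v hv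
      by_cases h1 : p = ι
      · rw [h1, hΛι]
        exact T.zero_mem
      by_cases h2 : p = κ
      · rw [h2, hΛκ]
        exact hv
      exact hT' p (Finset.mem_erase.2 ⟨h2, Finset.mem_erase.2 ⟨h1, Finset.mem_univ _⟩⟩) v hv
    obtain ⟨Sm, hSm⟩ : ∃ Sm, Sm = T.map (U ⊓ eig Z (-1) : Submodule ℂ
      (Fin g ⊕ Fin g → ℂ)).subtype := ⟨_, rfl⟩
    have hSf : finrank ℂ Sm = finrank ℂ T := by
      rw [hSm]
      exact Submodule.finrank_map_subtype_eq _ _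
    have hSmem : ∀ w, w ∈ Sm ↔ ∃ t ∈ T, (t : Fin g ⊕ Fin g → ℂ) = w := fun w => by
      rw [hSm, Submodule.mem_map]
      rfl
    obtain ⟨N, hN⟩ : ∃ N, N = (Sm.map (mulVecLin (1 + x ι)) ⊔
      Sm.map (mulVecLin (x κ - x ι))).map (mulVecLin δ) := ⟨_, rfl⟩
    have hN2 : finrank ℂ N ≤ 2 * finrank ℂ T := by
      rw [hN]
      refine (Submodule.finrank_map_le _ _).trans ?_
      have e1 := Submodule.finrank_add_le_finrank_add_finrank (Sm.map (mulVecLin (1 + x ι)))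
        (Sm.map (mulVecLin (x κ - x ι)))
      have e2 := Submodule.finrank_map_le (mulVecLin (1 + x ι)) Sm
      have e3 := Submodule.finrank_map_le (mulVecLin (x κ - x ι)) Sm
      have e4 : finrank ℂ (Sm.map (mulVecLin (1 + x ι)) ⊔ Sm.map (mulVecLin (x κ - x ι)) :
        Submodule ℂ (Fin g ⊕ Fin g → ℂ)) ≤ finrank ℂ (Sm.map (mulVecLin (1 + x ι))) +
        finrank ℂ (Sm.map (mulVecLin (x κ - x ι))) := e1
      omega
    have hNL : ∀ p, finrank ℂ T ≤ finrank ℂ (N ⊓ Lp hZ p : Submodule ℂ (Fin g ⊕ Fin g → ℂ)) := by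
      intro p
      have e1 : Sm.map (mulVecLin (δ * (1 + x p))) ≤ N ⊓ Lp hZ p := by
        rintro _ ⟨w, hw, rfl⟩
        obtain ⟨t, ht, rfl⟩ := (hSmem w).1 hw
        rw [mulVecLin_apply, ← mulVec_mulVec, add_mulVec, one_mulVec]
        refine ⟨?_, (G.gr p _).2 ⟨_, (hem _).1 t.2.2, rfl⟩⟩
        rw [hN]
        refine ⟨_, ?_, rfl⟩
        have e2 : (t : Fin g ⊕ Fin g → ℂ) + x p *ᵥ (t : Fin g ⊕ Fin g → ℂ) =
            (1 + x ι) *ᵥ (t : Fin g ⊕ Fin g → ℂ) +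
              (x κ - x ι) *ᵥ ((Λ (X p) t : _) : Fin g ⊕ Fin g → ℂ) := by
          have e3 : (x κ - x ι) *ᵥ ((Λ (X p) t : _) : Fin g ⊕ Fin g → ℂ) =
              (x p - x ι) *ᵥ (t : Fin g ⊕ Fin g → ℂ) := congrArg Subtype.val (hΛ (X p) t)
          rw [e3, add_mulVec, one_mulVec, sub_mulVec]
          abel
        rw [e2]
        exact Submodule.add_mem_sup ⟨_, hw, rfl⟩ ⟨_, (hSmem _).2 ⟨_, hT p t ht, rfl⟩, rfl⟩
      have e2 := Submodule.finrank_mono e1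
      rw [finrank_map_of_inj] at e2
      · rwa [hSf] at e2
      · intro w hw h0
        obtain ⟨t, ht, rfl⟩ := (hSmem w).1 hw
        rw [mulVecLin_apply, ← mulVec_mulVec, add_mulVec, one_mulVec] at h0
        exact hgr0 p _ ((hem _).1 t.2.2) (hδ0 _ h0)
    have hNU : N ≤ U := by
      rw [hN]
      rintro _ ⟨v, hv, rfl⟩
      rw [mulVecLin_apply]
      refine (G.st U hU.2.1 v ?_).2
      obtain ⟨_, ⟨w, hw, rfl⟩, _, ⟨w', hw', rfl⟩, rfl⟩ := Submodule.mem_sup.1 hv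
      obtain ⟨t, ht, rfl⟩ := (hSmem w).1 hw
      obtain ⟨t', ht', rfl⟩ := (hSmem w').1 hw'
      rw [mulVecLin_apply, mulVecLin_apply, add_mulVec, one_mulVec, sub_mulVec]
      exact U.add_mem (U.add_mem t.2.1 (hU.2.1 _ (G.mem ι) _ t.2.1))
        (U.sub_mem (hU.2.1 _ (G.mem κ) _ t'.2.1) (hU.2.1 _ (G.mem ι) _ t'.2.1))
    have hNs : Stab (LZ Z) N := stab_LZ fun σ => by
      refine stab_of_dim h hZ σ N (le_antisymm ?_ ?_)
      · rw [Lp_neg h, Lp_pos h]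
        have e3 := Submodule.finrank_sup_add_finrank_inf_eq (N ⊓ Eg (DS Z σ) (-1))
          (N ⊓ Eg (DS Z σ) 1)
        rw [eg_disj, finrank_bot, add_zero] at e3
        rw [← e3]
        exact Submodule.finrank_mono (sup_le inf_le_left inf_le_left)
      · have e1 := hNL (rs k σ)
        have e2 := hNL (rs k (cc.trans σ))
        omega
    have e5 := hNL ι
    have e6 := hNL κ
    have hN3 : finrank ℂ (N ⊓ Lp hZ ι : Submodule ℂ (Fin g ⊕ Fin g → ℂ)) +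
        finrank ℂ (N ⊓ Lp hZ κ : Submodule ℂ (Fin g ⊕ Fin g → ℂ)) ≤ finrank ℂ N := by
      have e3 := Submodule.finrank_sup_add_finrank_inf_eq (N ⊓ Lp hZ ι) (N ⊓ Lp hZ κ)
      have e4 : (N ⊓ Lp hZ ι) ⊓ (N ⊓ Lp hZ κ) = ⊥ := by
        rw [eq_bot_iff]
        rintro v ⟨⟨-, hv⟩, -, hv'⟩
        have f1 := (hLι v).1 hv
        rw [(hLκ v).1 hv'] at f1
        have f2 : (2 : ℂ) • v = 0 := by
          rw [two_smul]
          nth_rewrite 1 [f1]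
          rw [neg_add_cancel]
        exact (Submodule.mem_bot ℂ).2 ((smul_eq_zero.1 f2).resolve_left two_ne_zero)
      rw [e4, finrank_bot, add_zero] at e3
      rw [← e3]
      exact Submodule.finrank_mono (sup_le inf_le_left inf_le_left)
    rcases hU.2.2 N hNU hNs with h1 | h1
    · left
      rw [h1, finrank_bot] at hN3
      have e7 : finrank ℂ T = 0 := by
        rw [h1] at e5 e6
        omega
      exact Submodule.finrank_eq_zero.1 e7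
    · right
      apply Submodule.eq_top_of_finrank_eq
      have e7 : finrank ℂ N = finrank ℂ U := by rw [h1]
      have e8 : finrank ℂ (U ⊓ eig Z (-1) : Submodule ℂ (Fin g ⊕ Fin g → ℂ)) = qd Z U := rfl
      have e9 : finrank ℂ T ≤ finrank ℂ (U ⊓ eig Z (-1) : Submodule ℂ (Fin g ⊕ Fin g → ℂ)) :=
        Submodule.finrank_le T
      omega
  have hfinal := cliff_end (((Finset.univ : Finset (k →+* ℂ)).erase ι).erase κ)
    (fun p => Λ (X p)) (fun p _ q _ => hrel p q) hirr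
  have hq' : finrank ℂ (U ⊓ eig Z (-1) : Submodule ℂ (Fin g ⊕ Fin g → ℂ)) = 2 ^ j := hq
  rw [hq', Finset.card_erase_of_mem (Finset.mem_erase.2 ⟨hικ.symm, Finset.mem_univ _⟩),
    Finset.card_erase_of_mem (Finset.mem_univ _), Finset.card_univ, hcard, ← pow_add] at hfinal
  have h1 := (Nat.pow_le_pow_iff_right (by norm_num : 1 < 2)).1 hfinal
  have h2 : 2 ≤ finrank ℚ k := by
    rw [← hcard]
    have h3 : ({ι, κ} : Finset (k →+* ℂ)).card ≤ Fintype.card (k →+* ℂ) := Finset.card_le_univ _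
    rwa [Finset.card_pair hικ] at h3
  omega

end

end Pool.Agent.N994.PG
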