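import Mathlib
import Pool.Agent.N994.PG.HAll
import Pool.Agent.N994.PG.OddAll
import Pool.Agent.N994.PG.ExtAll
import Pool.Agent.N994.PG.JK
import Pool.Agent.N994.PG.KI
import Pool.Agent.R915.M2

/-!
# The main theorem
-/

set_option linter.unusedSectionVars false

namespace Pool.Agent.N994.PG

open Matrix Module Pool.Agent.W437.HC Pool.Agent.W437.HD Pool.Agent.TH504.CB Pool.Agent.Y90
open Pool.Agent.R915
open Pool.Agent.W548.Odd hiding cv
open Pool.Agent.H204R3.CM (IsHodge)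

noncomputable section

variable {g : ℕ} {Z : Matrix (Fin g) (Fin g) ℂ} {k : IntermediateField ℚ ℂ}

/-- Alternating submodules with elements of rank one. -/
theorem LC.ld {h : PM Z} (hs : IsSimpleAV Z) (hg : 0 < g)
    {a : Module.End ℚ (Fin g ⊕ Fin g → ℚ)} (ha : RealMax (AVZ h) a)
    {U : Submodule ℂ (Fin g ⊕ Fin g → ℂ)} (hU : IrS (LZ Z) U) (hL : LC h U) : LD h U := by
  have h1 := altF_rf h hs hg (ha.rf h) hU
  have h2 := (two_le_of_sdu h hU h1.sdu).1
  exact ⟨hL.rk h2, h2, Or.inl h1.sdu⟩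

/-- If the endomorphisms are the rational numbers then the type is I. -/
theorem FiveDim.real {Y : AV} (k : FiveDim Y) : ∃ a, RealMax Y a := by
  refine ⟨1, ⟨LinearMap.id, fun v => rfl⟩, fun z hz => ?_, fun b hb _ => ?_⟩
  · have h1 : minpoly ℚ (1 : Module.End ℚ Y.H) ∣ Polynomial.X - 1 := by
      refine minpoly.dvd ℚ _ ?_
      rw [map_sub, Polynomial.aeval_X, map_one, sub_self]
    obtain ⟨p, hp⟩ := h1
    have h3 : Polynomial.aeval z (Polynomial.X - 1 : Polynomial ℚ) = 0 := by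
      rw [hp, map_mul, hz, zero_mul]
    rw [map_sub, Polynomial.aeval_X, map_one, sub_eq_zero] at h3
    rw [h3, Complex.one_im]
  · obtain ⟨c, rfl⟩ := k.2 b hb
    exact Subalgebra.smul_mem _ (one_mem _) c

/-- The local condition for the simple abelian varieties with small period fields. -/
theorem SmallPeriods.ld {h : PM Z} (hs : IsSimpleAV Z) (hg : 0 < g) (hp : SmallPeriods (AVZ h))
    {U : Submodule ℂ (Fin g ⊕ Fin g → ℂ)} (hU : IrS (LZ Z) U) : LD h U := by
  obtain ⟨k, hk0, hk, hc⟩ := hp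
  have : FiniteDimensional ℚ k := Module.finite_of_finrank_pos hk0
  have hZ := Z_mem h hk
  rw [finrank_AVZ] at hc
  rcases hc with ⟨h1, h2⟩ | ⟨h1, a, ha⟩ | ⟨h1, h2⟩
  · rcases ld_four h1 h hZ hU with h3 | h3
    · exact h3
    · exact absurd (cm_AVZ h (cm_of_one h hs hg hU h3)) h2
  · by_cases h4 : finrank ℚ k ≤ 4
    · rcases ld_four h4 h hZ hU with h3 | h3
      · exact h3
      · have h5 := (two_le_of_sdu h hU (altF_rf h hs hg (ha.rf h) hU).sdu).1
        omega
    · exact ld_real (by omega) h hs hg hZ ha hU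
  · exact ld_odd h1 h hs hg (by omega) hZ hU

theorem NoImagQuad.mono {k' k : IntermediateField ℚ ℂ} (hk : k' ≤ k) (h : NoImagQuad k) :
    NoImagQuad k' := fun x hx => h x (hk hx)

theorem RealMoves.mono {k' k : IntermediateField ℚ ℂ} (hk : k' ≤ k) (h : RealMoves k) :
    RealMoves k' := by
  intro F hF hb hr
  obtain ⟨p, hp, x, hx, hpx⟩ := h F (hF.trans hk) hb hr
  exact ⟨p.comp (IntermediateField.inclusion hk : k' →+* k), fun x => hp _, ⟨x, hF hx⟩, hx, hpx⟩

/-- The local condition for the simple abelian varieties with generic period fields. -/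
theorem GenericPeriods.ld {h : PM Z} (hs : IsSimpleAV Z) (hg : 0 < g) (hp : GenericPeriods (AVZ h))
    {U : Submodule ℂ (Fin g ⊕ Fin g → ℂ)} (hU : IrS (LZ Z) U) : LD h U := by
  obtain ⟨k₁, hk₁, hc⟩ := hp
  have hZ₁ := Z_mem h hk₁
  rw [finrank_AVZ] at hc
  -- the field generated by the periods
  obtain ⟨k, hk, hkc, hZ⟩ : ∃ k : IntermediateField ℚ ℂ, k ≤ k₁ ∧ Countable k ∧
      ∀ i j, Z i j ∈ k :=
    ⟨IntermediateField.adjoin ℚ (Set.range fun x : Fin g × Fin g => Z x.1 x.2),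
      IntermediateField.adjoin_le_iff.2 (by
        rintro _ ⟨x, rfl⟩
        exact hZ₁ x.1 x.2),
      countable_adjoin (Set.countable_range _),
      fun i j => IntermediateField.subset_adjoin ℚ _ ⟨(i, j), rfl⟩⟩
  rcases hc with ⟨h1, h2⟩ | ⟨h1, h2, h3⟩
  · rcases h2 with h2 | ⟨a, ha, h2⟩
    · have hgo : Odd g := by
        rw [← Nat.not_even_iff_odd]
        rintro ⟨m, hm⟩
        exact h2 ⟨m, by omega⟩
      rcases h1 with h1 | ⟨h1, h3⟩
      · have : FiniteDimensional ℚ k₁ := Module.finite_of_finrank_pos h1.pos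
        exact ld_oddg (Or.inl h1) h hs hgo hZ₁ hU
      · exact ld_oddg (Or.inr ⟨h1.mono hk, h3.mono hk⟩) h hs hgo hZ hU
    · rcases h1 with h1 | ⟨h1, h3⟩
      · have : FiniteDimensional ℚ k₁ := Module.finite_of_finrank_pos h1.pos
        exact ld_jord (Or.inl h1) h hs hg hZ₁ ha (fun W hW hsp j hj _ =>
          spin_bound (Or.inl h1) h hZ₁ h1.pos hW hsp hj) h2 hU
      · refine ld_jord (Or.inr ⟨h1.mono hk, h3.mono hk⟩) h hs hg hZ ha (fun W hW hsp j hj hpos => ?_)
          h2 hU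
        have : FiniteDimensional ℚ k₁ := Module.finite_of_finrank_pos hpos
        have h4 : finrank ℚ k ≤ finrank ℚ k₁ :=
          LinearMap.finrank_le_finrank_of_injective (f := (IntermediateField.inclusion hk).toLinearMap)
            (IntermediateField.inclusion hk).injective
        have : FiniteDimensional ℚ k := Module.Finite.of_injective
          (IntermediateField.inclusion hk).toLinearMap (IntermediateField.inclusion hk).injective
        exact (spin_bound (Or.inr ⟨h1.mono hk, h3.mono hk⟩) h hZ Module.finrank_pos hW hsp hj).trans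
          h4
  · refine ld_ext (h1.mono hk) h hs hg (by omega) hZ
      (h3.imp id fun h4 => ⟨h4.1.mono hk, fun h6 => ?_⟩) hU
    exact h4.2 (by omega)

/-- **The main theorem.** -/
theorem main_small (k₀ : IntermediateField ℚ ℂ) (h₀ : 0 < finrank ℚ k₀) (hk₀ : finrank ℚ k₀ ≤ 4)
    (X : AV)
    (hX : ∀ Y, IsFactor Y X → finrank ℚ Y.H = 2 ∨ PeriodsIn Y k₀ ∨ SmallPeriods Y ∨
      GenericPeriods Y ∨ RealMult Y ∨ FiveDim Y ∨ FullHodge Y)
    (κ : Type) [Finite κ] (f : X.H [⋀^κ]→ₗ[ℚ] ℚ) : IsHodge X.per f ↔ PRing X κ f := by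
  have : FiniteDimensional ℚ k₀ := Module.finite_of_finrank_pos h₀
  refine main_all hk₀ X (fun a Z' h' i hi hinj hs hs' ha U hU => ?_) f
  rcases hX (AVZ h') ⟨hs', i, hi, hinj⟩ with h1 | h1 | h1 | h1 | h1 | h1 | h1
  · rw [finrank_AVZ] at h1
    rcases ld_ell h' hs (by omega) hU with h2 | ⟨h2, h3⟩
    · exact Or.inl h2
    · exact Or.inr ⟨h2, Or.inr h3⟩
  · have hZ := Z_mem h' h1
    rcases ld_four hk₀ h' hZ hU with h3 | h3
    · exact Or.inl h3
    · exact Or.inr ⟨h3, Or.inl (kline_of h' hZ hU h3)⟩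
  · exact Or.inl (h1.ld hs ha hU)
  · exact Or.inl (h1.ld hs ha hU)
  · obtain ⟨b, hb, -⟩ := id h1
    exact Or.inl (LC.ld hs ha hb hU (h1.lc h' hs' ha hU))
  · obtain ⟨b, hb⟩ := FiveDim.real h1
    exact Or.inl (LC.ld hs ha hb hU (h1.lc h' hs' ha hU))
  · obtain ⟨b, hb⟩ := h1.1
    exact Or.inl (LC.ld hs ha hb hU (h1.lc h' hs' ha hU))

end

end Pool.Agent.N994.PG
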