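import Mathlib
import Pool.Agent.N994.PG.Stm

/-!
# The classes in `PRing` are algebraic
-/

namespace Pool.Agent.N994.PG

open Module Pool.Agent.Y90 Pool.Agent.R915

theorem alg_of_pring {X : AV} {κ : Type} {f : X.H [⋀^κ]→ₗ[ℚ] ℚ} (h : PRing X κ f) : Alg X κ f := by
  induction h with
  | unit f => exact Alg.unit f
  | divisor hκ f hf => exact Alg.divisor hκ f hf
  | weil hn hY hφ f hf h hh => exact Alg.pull h hh f (Alg.weil hn f hf)
  | zero κ => exact Alg.zero X κ
  | add f g _ _ h1 h2 => exact Alg.add f g h1 h2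
  | smul a f _ h1 => exact Alg.smul a f h1
  | reindex e f _ h1 => exact Alg.reindex e f h1
  | cup f g _ _ h hh h1 h2 => exact Alg.cup f g h1 h2 h hh

end Pool.Agent.N994.PG
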