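import Mathlib
import Pool.Agent.R915.Stm

/-!
# Categories generated by abelian varieties

The definitions are those of helper995 in `Pool.Agent.N995.NcS`. `C` is an admissible subcategory of the
derived category of a smooth proper complex variety. We use the rational vector space
`W = K_0^top(C) ⊗ ℚ`, its subspace `Hdg` of Hodge classes and its subspace `Z`, the image of
`K_0(C) ⊗ ℚ`. For an abelian variety `X` the Chern character identifies `K_0^top(D(X)) ⊗ ℚ` with the sum
of the spaces `H^{2 b}(X, ℚ)(b)`, the spaces `Coh X b` of rational alternating forms in `2 b` variables on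
`H_1(X, ℚ)`.
-/

namespace Pool.Agent.N994.PG.Nc

open Module Pool.Agent.Y90 Pool.Agent.R915
open Pool.Agent.H204R3.CM (IsHodge)

/-- The cohomology group `H^{2 b}(X, ℚ)(b)` of the abelian variety `X`. -/
abbrev Coh (X : AV) (b : ℕ) : Type := X.H [⋀^Fin (2 * b)]→ₗ[ℚ] ℚ

variable {W : Type} [AddCommGroup W] [Module ℚ W]

/-- The category `C` with `W = K_0^top(C) ⊗ ℚ`, with the Hodge classes `Hdg` and the classes `Z` of objects,
is a direct factor of a finite sum of the categories `D(X j)`, `X j` abelian varieties: there are functors
`D(X j) → C` and `C → D(X j)` given by kernels, and combinations of such functors with rational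
coefficients, the sum of whose compositions is the identity on `W`. We use the components `f` and `g` of
the maps that they induce; here the same `X j` may occur several times, with different degrees `b j`.

The map `f j` maps the classes in `Alg` (generated by divisor classes and by Weil classes of imaginary
quadratic fields on abelian fourfolds and on abelian sixfolds with trivial discriminant) to classes of
objects, because they are classes of algebraic cycles by the theorems of Lefschetz and Markman. The map
`g j` maps Hodge classes to Hodge classes. -/
structure IsDirectFactor {J : Type} [Fintype J] (X : J → AV) (b : J → ℕ) (Hdg Z : Submodule ℚ W)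
    (f : ∀ j, Coh (X j) (b j) →ₗ[ℚ] W) (g : ∀ j, W →ₗ[ℚ] Coh (X j) (b j)) : Prop where
  objects : ∀ j v, Alg (X j) (Fin (2 * b j)) v → f j v ∈ Z
  hodge : ∀ j, ∀ w ∈ Hdg, IsHodge (X j).per (g j w)
  identity : ∀ w, ∑ j, f j (g j w) = w

end Pool.Agent.N994.PG.Nc
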